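import Pool.Agent.Lib.MP_703675_gt.TrackB

set_option autoImplicit false

open Set Metric Filter Topology TopologicalSpace

noncomputable section

namespace Pool.Agent.MP703675

namespace World

variable (Wd : World)

/-- data of a back and forth sequence -/
structure BFData (N : ℕ → ℕ) (γ : ℕ → ℝ)
    (ψ : ∀ i, (Wd.W (N (i + 1))).E →L[ℝ] (Wd.W (N i)).E) : Prop where
  hN : StrictMono N
  hψ : ∀ i, Mor (Wd.W (N i)) (γ i) (Wd.W (N (i + 1))) (ψ i)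
  hc : ∀ i Z a b, (Wd.W (N (i + 2))).Adm Z a b → ∀ s ∈ Icc a b,
      (Wd.W (N i)).Close ((1 / 2) ^ N i) (Wd.pr (N i) (N (i + 2)) (Z s)) (ψ i (ψ (i + 1) (Z s)))

/-- the approximating maps, with an outer morphism -/
def bfF (N : ℕ → ℕ) (ψ : ∀ i, (Wd.W (N (i + 1))).E →L[ℝ] (Wd.W (N i)).E) (j m : ℕ)
    (χ : (Wd.W m).E →L[ℝ] (Wd.W j).E) (i : ℕ) (x : Wd.X) : NonemptyCompacts (ℝ × (Wd.W j).E) :=
  push (Wd.W j) (Wd.W (N (i + 1))) ((χ.comp (Wd.pr m (N i))).comp (ψ i)) (x.1 (N (i + 1)))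

/-- the constant of `push_close` -/
def bfC (j : ℕ) : ℝ := (push_close (Wd.good j)).choose

theorem bfC_pos (j : ℕ) : 0 < Wd.bfC j := (push_close (Wd.good j)).choose_spec.1

variable {Wd}
variable {N : ℕ → ℕ} {γ : ℕ → ℝ} {ψ : ∀ i, (Wd.W (N (i + 1))).E →L[ℝ] (Wd.W (N i)).E}

theorem bf_pow (h : Wd.BFData N γ ψ) {i k : ℕ} (hik : i ≤ k) :
    ((1 : ℝ) / 2) ^ N k ≤ (1 / 2) ^ i :=
  pow_le_pow_of_le_one (by norm_num) (by norm_num) (hik.trans (h.hN.id_le k))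

theorem bf_close (h : Wd.BFData N γ ψ) {j i : ℕ} {θ : ℝ}
    {χ : (Wd.W (N i)).E →L[ℝ] (Wd.W j).E} (hχ : Mor (Wd.W j) θ (Wd.W (N i)) χ)
    {y : NonemptyCompacts (ℝ × (Wd.W (N (i + 2))).E)} (hy : y ∈ (Wd.W (N (i + 2))).Y) :
    dist (push (Wd.W j) (Wd.W (N (i + 2))) (χ.comp (Wd.pr (N i) (N (i + 2)))) y)
      (push (Wd.W j) (Wd.W (N (i + 2))) (χ.comp ((ψ i).comp (ψ (i + 1)))) y)
      ≤ Wd.bfC j * (1 / 2) ^ N i :=
  (push_close (Wd.good j)).choose_spec.2 _ _ θ 1 _ _ χ _ _ (Wd.good _) (Wd.good _) hχ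
    (Wd.mor _ _ (h.hN.monotone (by omega))) ((h.hψ i).comp (h.hψ (i + 1))) (by positivity)
    (pow_le_one₀ (by norm_num) (by norm_num)) (h.hc i) y hy

theorem bf_mor (h : Wd.BFData N γ ψ) {j m i : ℕ} {θ : ℝ}
    {χ : (Wd.W m).E →L[ℝ] (Wd.W j).E} (hχ : Mor (Wd.W j) θ (Wd.W m) χ) (hm : m ≤ N i) :
    Mor (Wd.W j) (γ i * (1 * θ)) (Wd.W (N (i + 1))) ((χ.comp (Wd.pr m (N i))).comp (ψ i)) :=
  (hχ.comp (Wd.mor _ _ hm)).comp (h.hψ i)

theorem bf_mem (h : Wd.BFData N γ ψ) {j m i : ℕ} {θ : ℝ}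
    {χ : (Wd.W m).E →L[ℝ] (Wd.W j).E} (hχ : Mor (Wd.W j) θ (Wd.W m) χ) (hm : m ≤ N i)
    (x : Wd.X) : Wd.bfF N ψ j m χ i x ∈ (Wd.W j).Y :=
  push_mem (Wd.good _) (Wd.good _) (bf_mor h hχ hm) (x.2.1 _)

theorem bf_cont (h : Wd.BFData N γ ψ) {j m i : ℕ} {θ : ℝ}
    {χ : (Wd.W m).E →L[ℝ] (Wd.W j).E} (hχ : Mor (Wd.W j) θ (Wd.W m) χ) (hm : m ≤ N i) :
    Continuous (Wd.bfF N ψ j m χ i) :=
  (push_continuousOn (Wd.good _) (Wd.good _) (bf_mor h hχ hm)).comp_continuous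
    ((continuous_apply _).comp continuous_subtype_val) (fun x => x.2.1 _)

theorem bf_step (h : Wd.BFData N γ ψ) {j m i : ℕ} {θ : ℝ}
    {χ : (Wd.W m).E →L[ℝ] (Wd.W j).E} (hχ : Mor (Wd.W j) θ (Wd.W m) χ) (hm : m ≤ N i)
    (x : Wd.X) : dist (Wd.bfF N ψ j m χ i x) (Wd.bfF N ψ j m χ (i + 2) x)
      ≤ 2 * Wd.bfC j * (1 / 2) ^ i := by
  have h13 : N (i + 1) ≤ N (i + 1 + 2) := h.hN.monotone (by omega)
  have h02 : N i ≤ N (i + 2) := h.hN.monotone (by omega)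
  have hy : x.1 (N (i + 1 + 2)) ∈ (Wd.W (N (i + 1 + 2))).Y := x.2.1 _
  have e1 : Wd.bfF N ψ j m χ i x = push (Wd.W j) (Wd.W (N (i + 1 + 2)))
      (((χ.comp (Wd.pr m (N i))).comp (ψ i)).comp (Wd.pr (N (i + 1)) (N (i + 1 + 2))))
      (x.1 (N (i + 1 + 2))) := by
    rw [← push_comp (Wd.good _) (Wd.good _) (Wd.good _) (bf_mor h hχ hm) (Wd.mor _ _ h13) hy,
      x.2.2 _ _ h13]
    rfl
  have d1 := bf_close h (i := i + 1) (bf_mor h hχ hm) hy
  have hz : push (Wd.W (N (i + 2))) (Wd.W (N (i + 2 + 1))) (ψ (i + 2)) (x.1 (N (i + 2 + 1)))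
      ∈ (Wd.W (N (i + 2))).Y := push_mem (Wd.good _) (Wd.good _) (h.hψ (i + 2)) (x.2.1 _)
  have d2 := bf_close h (i := i) (hχ.comp (Wd.mor _ _ hm)) hz
  have e2 : push (Wd.W j) (Wd.W (N (i + 2)))
      ((χ.comp (Wd.pr m (N i))).comp (Wd.pr (N i) (N (i + 2))))
      (push (Wd.W (N (i + 2))) (Wd.W (N (i + 2 + 1))) (ψ (i + 2)) (x.1 (N (i + 2 + 1))))
      = Wd.bfF N ψ j m χ (i + 2) x := by
    rw [push_comp (Wd.good _) (Wd.good _) (Wd.good _)
      ((hχ.comp (Wd.mor _ _ hm)).comp (Wd.mor _ _ h02)) (h.hψ (i + 2)) (x.2.1 _)]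
    unfold bfF
    refine congrFun (push_congr fun z => ?_) _
    simp only [ContinuousLinearMap.comp_apply]
    rw [Wd.pr_comp _ _ _ hm h02]
  have e3 : push (Wd.W j) (Wd.W (N (i + 2)))
      ((χ.comp (Wd.pr m (N i))).comp ((ψ i).comp (ψ (i + 1))))
      (push (Wd.W (N (i + 2))) (Wd.W (N (i + 2 + 1))) (ψ (i + 2)) (x.1 (N (i + 2 + 1))))
      = push (Wd.W j) (Wd.W (N (i + 1 + 2)))
        (((χ.comp (Wd.pr m (N i))).comp (ψ i)).comp ((ψ (i + 1)).comp (ψ (i + 1 + 1))))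
        (x.1 (N (i + 1 + 2))) := by
    rw [push_comp (Wd.good _) (Wd.good _) (Wd.good _)
      ((hχ.comp (Wd.mor _ _ hm)).comp ((h.hψ i).comp (h.hψ (i + 1)))) (h.hψ (i + 2)) (x.2.1 _)]
    rfl
  rw [e2, e3] at d2
  rw [← e1] at d1
  have p1 := bf_pow h (le_refl i)
  have p2 := bf_pow h (Nat.le_succ i)
  have hC := (Wd.bfC_pos j).le
  have q1 := mul_le_mul_of_nonneg_left p1 hC
  have q2 := mul_le_mul_of_nonneg_left p2 hC
  have t := dist_triangle_right (Wd.bfF N ψ j m χ i x) (Wd.bfF N ψ j m χ (i + 2) x)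
    (push (Wd.W j) (Wd.W (N (i + 1 + 2)))
        (((χ.comp (Wd.pr m (N i))).comp (ψ i)).comp ((ψ (i + 1)).comp (ψ (i + 1 + 1))))
        (x.1 (N (i + 1 + 2))))
  have q3 : N i.succ = N (i + 1) := rfl
  rw [q3] at q2
  linarith

theorem bf_geo (h : Wd.BFData N γ ψ) {j m k : ℕ} {θ : ℝ}
    {χ : (Wd.W m).E →L[ℝ] (Wd.W j).E} (hχ : Mor (Wd.W j) θ (Wd.W m) χ) (hm : m ≤ N k)
    (x : Wd.X) (n : ℕ) : dist (Wd.bfF N ψ j m χ (k + 2 * n) x)
      (Wd.bfF N ψ j m χ (k + 2 * (n + 1)) x) ≤ (2 * Wd.bfC j * (1 / 2) ^ k) * (1 / 2) ^ n := by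
  have h1 := bf_step h (i := k + 2 * n) hχ (hm.trans (h.hN.monotone (by omega))) x
  have e : k + 2 * (n + 1) = k + 2 * n + 2 := by ring
  rw [e]
  refine h1.trans ?_
  have h2 : ((1 : ℝ) / 2) ^ (k + 2 * n) ≤ (1 / 2) ^ (k + n) :=
    pow_le_pow_of_le_one (by norm_num) (by norm_num) (by omega)
  have hC := (Wd.bfC_pos j).le
  rw [mul_assoc (2 * Wd.bfC j), ← pow_add]
  exact mul_le_mul_of_nonneg_left h2 (by positivity)

theorem bf_dist (h : Wd.BFData N γ ψ) {j m k : ℕ} {θ : ℝ}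
    {χ : (Wd.W m).E →L[ℝ] (Wd.W j).E} (hχ : Mor (Wd.W j) θ (Wd.W m) χ) (hm : m ≤ N k)
    (x : Wd.X) {y : NonemptyCompacts (ℝ × (Wd.W j).E)}
    (hy : Tendsto (fun n => Wd.bfF N ψ j m χ (k + 2 * n) x) atTop (𝓝 y)) :
    dist (Wd.bfF N ψ j m χ k x) y ≤ 4 * Wd.bfC j * (1 / 2) ^ k := by
  have h1 := dist_le_of_le_geometric_of_tendsto₀ (1 / 2) (2 * Wd.bfC j * (1 / 2) ^ k)
    (by norm_num) (f := fun n => Wd.bfF N ψ j m χ (k + 2 * n) x) (bf_geo h hχ hm x) hy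
  have e : 2 * Wd.bfC j * (1 / 2) ^ k / (1 - 1 / 2) = 4 * Wd.bfC j * (1 / 2) ^ k := by ring
  rw [e] at h1
  exact h1

theorem bf_shift {α : Type} [TopologicalSpace α] (u : ℕ → α) (r n0 : ℕ) (y : α) :
    Tendsto (fun n => u (2 * n + r)) atTop (𝓝 y) ↔
      Tendsto (fun n => u (2 * n0 + r + 2 * n)) atTop (𝓝 y) := by
  rw [← tendsto_add_atTop_iff_nat n0]
  have e : (fun n => u (2 * (n + n0) + r)) = fun n => u (2 * n0 + r + 2 * n) := by
    funext n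
    congr 1
    ring
  rw [e]

theorem bf_lim (h : Wd.BFData N γ ψ) (r j : ℕ) (x : Wd.X) : ∃ y ∈ (Wd.W j).Y,
    Tendsto (fun n => Wd.bfF N ψ j j (ContinuousLinearMap.id ℝ _) (2 * n + r) x) atTop (𝓝 y) := by
  have hm : j ≤ N (2 * j + r) := le_trans (by omega) (h.hN.le_apply)
  have hc := cauchySeq_of_le_geometric (1 / 2) (2 * Wd.bfC j * (1 / 2) ^ (2 * j + r))
    (by norm_num)
    (f := fun n => Wd.bfF N ψ j j (ContinuousLinearMap.id ℝ _) (2 * j + r + 2 * n) x)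
    (bf_geo h (Mor.id _) hm x)
  obtain ⟨y, hy, hl⟩ := cauchySeq_tendsto_of_isComplete (Wd.good j).Y_compact.isComplete
    (fun n => bf_mem h (Mor.id _) (hm.trans (h.hN.monotone (by omega))) x) hc
  exact ⟨y, hy, (bf_shift (fun i => Wd.bfF N ψ j j (ContinuousLinearMap.id ℝ _) i x) r j y).2 hl⟩

theorem bf_outer (h : Wd.BFData N γ ψ) {j m : ℕ} {θ : ℝ}
    {χ : (Wd.W m).E →L[ℝ] (Wd.W j).E} (hχ : Mor (Wd.W j) θ (Wd.W m) χ) (r : ℕ) (x : Wd.X)
    {y : NonemptyCompacts (ℝ × (Wd.W m).E)} (hy : y ∈ (Wd.W m).Y)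
    (hl : Tendsto (fun n => Wd.bfF N ψ m m (ContinuousLinearMap.id ℝ _) (2 * n + r) x) atTop
      (𝓝 y)) : Tendsto (fun n => Wd.bfF N ψ j m χ (2 * n + r) x) atTop
      (𝓝 (push (Wd.W j) (Wd.W m) χ y)) := by
  have hev : ∀ᶠ n in atTop, m ≤ N (2 * n + r) := by
    filter_upwards [eventually_ge_atTop m] with n hn
    exact le_trans (by omega) (h.hN.le_apply)
  have h1 : Tendsto (fun n => Wd.bfF N ψ m m (ContinuousLinearMap.id ℝ _) (2 * n + r) x) atTop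
      (𝓝[(Wd.W m).Y] y) := by
    refine tendsto_nhdsWithin_iff.2 ⟨hl, ?_⟩
    filter_upwards [hev] with n hn
    exact bf_mem h (Mor.id _) hn x
  have h2 := (push_continuousOn (Wd.good j) (Wd.good m) hχ y hy).tendsto.comp h1
  refine h2.congr' ?_
  filter_upwards [hev] with n hn
  show push (Wd.W j) (Wd.W m) χ (Wd.bfF N ψ m m (ContinuousLinearMap.id ℝ _) (2 * n + r) x) = _
  unfold bfF
  rw [push_comp (Wd.good _) (Wd.good _) (Wd.good _) hχ (bf_mor h (Mor.id _) hn) (x.2.1 _)]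
  rfl

theorem bf_map (h : Wd.BFData N γ ψ) (r : ℕ) : ∃ G : Wd.X → Wd.X, Continuous G ∧ ∀ x j,
    Tendsto (fun n => Wd.bfF N ψ j j (ContinuousLinearMap.id ℝ _) (2 * n + r) x) atTop
      (𝓝 ((G x).1 j)) := by
  choose g hg hl using bf_lim h r
  have hX : ∀ x, (fun j => g j x) ∈ Wd.XS := by
    intro x
    refine ⟨fun j => hg j x, fun m n hmn => ?_⟩
    have h1 := bf_outer h (Wd.mor m n hmn) r x (hg n x) (hl n x)
    refine tendsto_nhds_unique h1 ((hl m x).congr' ?_)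
    filter_upwards [eventually_ge_atTop n] with k hk
    have hn : n ≤ N (2 * k + r) := le_trans (by omega) (h.hN.le_apply)
    unfold bfF
    refine congrFun (push_congr fun z => ?_) _
    simp only [ContinuousLinearMap.comp_apply, ContinuousLinearMap.id_apply]
    rw [Wd.pr_comp _ _ _ hmn hn]
  refine ⟨fun x => ⟨fun j => g j x, hX x⟩, ?_, fun x j => hl j x⟩
  refine Continuous.subtype_mk (continuous_pi fun j => ?_) _
  have hu : TendstoUniformly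
      (fun n x => Wd.bfF N ψ j j (ContinuousLinearMap.id ℝ _) (2 * n + r) x) (g j) atTop := by
    rw [Metric.tendstoUniformly_iff]
    intro ε hε
    have h0 : Tendsto (fun n : ℕ => 4 * Wd.bfC j * ((1 : ℝ) / 2) ^ n) atTop (𝓝 0) := by
      have := (tendsto_pow_atTop_nhds_zero_of_lt_one (r := (1 : ℝ) / 2) (by norm_num)
        (by norm_num)).const_mul (4 * Wd.bfC j)
      simpa using this
    filter_upwards [eventually_ge_atTop j, h0.eventually (gt_mem_nhds hε)] with n hn hn' x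
    have hm : j ≤ N (2 * n + r) := le_trans (by omega) (h.hN.le_apply)
    have h1 := bf_dist h (Mor.id _) hm x
      ((bf_shift (fun i => Wd.bfF N ψ j j (ContinuousLinearMap.id ℝ _) i x) r n _).1 (hl j x))
    have h2 : ((1 : ℝ) / 2) ^ (2 * n + r) ≤ (1 / 2) ^ n :=
      pow_le_pow_of_le_one (by norm_num) (by norm_num) (by omega)
    have hC := (Wd.bfC_pos j).le
    have h3 := mul_le_mul_of_nonneg_left h2 (show 0 ≤ 4 * Wd.bfC j by positivity)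
    rw [dist_comm]
    linarith
  refine hu.continuous ?_
  refine Eventually.frequently ?_
  filter_upwards [eventually_ge_atTop j] with n hn
  exact bf_cont h (Mor.id _) (le_trans (by omega) (h.hN.le_apply))

theorem bf_inv (h : Wd.BFData N γ ψ) {r r' : ℕ} (hr : r + r' = 1) (x y z : Wd.X)
    (hy : ∀ j, Tendsto (fun n => Wd.bfF N ψ j j (ContinuousLinearMap.id ℝ _) (2 * n + r') x) atTop
      (𝓝 (y.1 j)))
    (hz : ∀ j, Tendsto (fun n => Wd.bfF N ψ j j (ContinuousLinearMap.id ℝ _) (2 * n + r) y) atTop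
      (𝓝 (z.1 j))) : z = x := by
  refine Subtype.ext (funext fun j => ?_)
  refine tendsto_nhds_unique (hz j) ?_
  rw [tendsto_iff_dist_tendsto_zero]
  have h0 : Tendsto (fun n : ℕ => 5 * Wd.bfC j * ((1 : ℝ) / 2) ^ n) atTop (𝓝 0) := by
    have := (tendsto_pow_atTop_nhds_zero_of_lt_one (r := (1 : ℝ) / 2) (by norm_num)
      (by norm_num)).const_mul (5 * Wd.bfC j)
    simpa using this
  refine squeeze_zero' (Eventually.of_forall fun _ => dist_nonneg) ?_ h0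
  filter_upwards [eventually_ge_atTop j] with n hn
  obtain ⟨k, hk⟩ : ∃ k, k = 2 * n + r := ⟨_, rfl⟩
  rw [← hk]
  have hm : j ≤ N k := le_trans (by omega) h.hN.le_apply
  have hχ := bf_mor h (Mor.id (Wd.W j)) hm
  have h1 := bf_outer h hχ r' x (y.2.1 (N (k + 1))) (hy (N (k + 1)))
  have h2 := (bf_shift (fun i => Wd.bfF N ψ j (N (k + 1))
    (((ContinuousLinearMap.id ℝ _).comp (Wd.pr j (N k))).comp (ψ k)) i x) r' (n + r) _).1 h1
  have e : 2 * (n + r) + r' = k + 1 := by omega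
  rw [e] at h2
  have h3 := bf_dist h hχ (le_refl _) x h2
  have h02 : N k ≤ N (k + 2) := h.hN.monotone (by omega)
  have h4 := bf_close h (i := k) ((Mor.id (Wd.W j)).comp (Wd.mor _ _ hm)) (x.2.1 (N (k + 2)))
  have e1 : push (Wd.W j) (Wd.W (N (k + 2)))
      (((ContinuousLinearMap.id ℝ _).comp (Wd.pr j (N k))).comp (Wd.pr (N k) (N (k + 2))))
      (x.1 (N (k + 2))) = x.1 j := by
    rw [← x.2.2 j _ (hm.trans h02)]
    refine congrFun (push_congr fun z => ?_) _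
    simp only [ContinuousLinearMap.comp_apply, ContinuousLinearMap.id_apply]
    rw [Wd.pr_comp _ _ _ hm h02]
  have e2 : push (Wd.W j) (Wd.W (N (k + 2)))
      (((ContinuousLinearMap.id ℝ _).comp (Wd.pr j (N k))).comp ((ψ k).comp (ψ (k + 1))))
      (x.1 (N (k + 2))) = Wd.bfF N ψ j (N (k + 1))
        (((ContinuousLinearMap.id ℝ _).comp (Wd.pr j (N k))).comp (ψ k)) (k + 1) x := by
    unfold bfF
    refine congrFun (push_congr fun z => ?_) _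
    simp only [ContinuousLinearMap.comp_apply, ContinuousLinearMap.id_apply]
    rw [Wd.pr_id]
  rw [e1, e2] at h4
  have e3 : push (Wd.W j) (Wd.W (N (k + 1)))
      (((ContinuousLinearMap.id ℝ _).comp (Wd.pr j (N k))).comp (ψ k)) (y.1 (N (k + 1)))
      = Wd.bfF N ψ j j (ContinuousLinearMap.id ℝ _) k y := rfl
  rw [e3] at h3
  have hC := (Wd.bfC_pos j).le
  have p1 : ((1 : ℝ) / 2) ^ N k ≤ (1 / 2) ^ n := bf_pow h (by omega)
  have p2 : ((1 : ℝ) / 2) ^ (k + 1) ≤ (1 / 2) ^ n :=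
    pow_le_pow_of_le_one (by norm_num) (by norm_num) (by omega)
  have q1 := mul_le_mul_of_nonneg_left p1 hC
  have q2 := mul_le_mul_of_nonneg_left p2 hC
  have t := dist_triangle_left (Wd.bfF N ψ j j (ContinuousLinearMap.id ℝ _) k y) (x.1 j)
    (Wd.bfF N ψ j (N (k + 1))
        (((ContinuousLinearMap.id ℝ _).comp (Wd.pr j (N k))).comp (ψ k)) (k + 1) x)
  rw [dist_comm] at h4
  linarith

variable (Wd)

/-- Plan: for fixed `j` the maps `x ↦ push (pr j (N i) ∘ ψ i) (x (N (i+1)))` with `i` of fixed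
parity are uniformly Cauchy by two applications of `push_close` (to a witness at level
`N (i+3)`); the limits are continuous, lie in `XS`, and the maps for the two parities are inverse
to each other, again by `push_close` with an outer morphism. -/
theorem back_forth (N : ℕ → ℕ) (hN : StrictMono N) (γ : ℕ → ℝ)
    (ψ : ∀ i, (Wd.W (N (i + 1))).E →L[ℝ] (Wd.W (N i)).E)
    (hψ : ∀ i, Mor (Wd.W (N i)) (γ i) (Wd.W (N (i + 1))) (ψ i))
    (hc : ∀ i Z a b, (Wd.W (N (i + 2))).Adm Z a b → ∀ s ∈ Icc a b,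
      (Wd.W (N i)).Close ((1 / 2) ^ N i) (Wd.pr (N i) (N (i + 2)) (Z s)) (ψ i (ψ (i + 1) (Z s)))) :
    ∃ h : Wd.X ≃ₜ Wd.X, ∀ (x : Wd.X) (j : ℕ), Tendsto (fun i => push (Wd.W j) (Wd.W (N (2 * i + 1)))
      ((Wd.pr j (N (2 * i))).comp (ψ (2 * i))) (x.1 (N (2 * i + 1)))) atTop (𝓝 ((h x).1 j)) := by
  have h : Wd.BFData N γ ψ := ⟨hN, hψ, hc⟩
  obtain ⟨G0, c0, l0⟩ := bf_map h 0
  obtain ⟨G1, c1, l1⟩ := bf_map h 1
  refine ⟨⟨⟨G0, G1, fun x => bf_inv h (r := 1) (r' := 0) rfl x (G0 x) (G1 (G0 x)) (l0 x) (l1 _),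
    fun x => bf_inv h (r := 0) (r' := 1) rfl x (G1 x) (G0 (G1 x)) (l1 x) (l0 _)⟩, c0, c1⟩,
    fun x j => l0 x j⟩

end World

end Pool.Agent.MP703675
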