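import Pool.Agent.Lib.MP_703675_gt.Traj1

set_option autoImplicit false

open Set Metric Filter Topology TopologicalSpace

noncomputable section

namespace Pool.Agent.MP703675

theorem traj2_comb {E : Type} [NormedAddCommGroup E] [NormedSpace ℝ E] {D : Set E}
    (hD : Convex ℝ D) {u v : E} (hu : u ∈ D) (hv : v ∈ D) {p q : ℝ} (hp : 0 ≤ p) (hq : 0 ≤ q) :
    ∃ w ∈ D, p • u + q • v = (p + q) • w := by
  rcases eq_or_lt_of_le (add_nonneg hp hq) with e | e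
  · obtain rfl : p = 0 := by linarith
    obtain rfl : q = 0 := by linarith
    exact ⟨u, hu, by simp⟩
  · refine ⟨(p / (p + q)) • u + (q / (p + q)) • v, hD hu hv (by positivity) (by positivity)
      (by field_simp), ?_⟩
    rw [smul_add, smul_smul, smul_smul, mul_div_cancel₀ _ e.ne', mul_div_cancel₀ _ e.ne']

theorem traj2_arith {p q L B C1 C2 : ℝ} (hp : 0 ≤ p) (hq : 0 ≤ q) (hL : 0 ≤ L) (hB : 0 ≤ B) :
    C1 * p ^ 2 + C2 * q ^ 2 + q * (L * (B * p)) ≤ (|C1| + |C2| + L * B) * (p + q) ^ 2 := by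
  have h0 := mul_nonneg hp hq
  have h1 : C1 * p ^ 2 ≤ |C1| * (p + q) ^ 2 :=
    mul_le_mul (le_abs_self _) (by nlinarith) (sq_nonneg _) (abs_nonneg _)
  have h2 : C2 * q ^ 2 ≤ |C2| * (p + q) ^ 2 :=
    mul_le_mul (le_abs_self _) (by nlinarith) (sq_nonneg _) (abs_nonneg _)
  have h3 : L * B * (p * q) ≤ L * B * (p + q) ^ 2 :=
    mul_le_mul_of_nonneg_left (by nlinarith) (mul_nonneg hL hB)
  linarith

theorem traj2_mem_fat {E : Type} [NormedAddCommGroup E] {D : Set E} {u v : E} {r : ℝ}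
    (hv : v ∈ D) (h : ‖u - v‖ ≤ r) : u ∈ image2 (· + ·) D (closedBall (0 : E) r) :=
  ⟨v, hv, u - v, mem_closedBall_zero_iff.2 h, by simp⟩

theorem traj2_fat_bound {E : Type} [NormedAddCommGroup E] [NormedSpace ℝ E] {D : Set E} {x d : E}
    {C τ : ℝ} (hτ : 0 ≤ τ) (hd : d ∈ image2 (· + ·) D (closedBall (0 : E) (C * τ)))
    (e : x = τ • d) : ∃ κ ∈ D, ‖x - τ • κ‖ ≤ C * τ ^ 2 := by
  obtain ⟨κ, hκ, y, hy, rfl⟩ := hd
  refine ⟨κ, hκ, ?_⟩
  rw [e, smul_add, add_sub_cancel_left, norm_smul, Real.norm_of_nonneg hτ]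
  refine (mul_le_mul_of_nonneg_left (mem_closedBall_zero_iff.1 hy) hτ).trans_eq ?_
  ring

theorem traj2_ext {E : Type} {f : E → E → ℝ} (hf : ∀ x y, f x y = f y x) {B w : ℝ} (hB : 0 ≤ B)
    {P : ℝ → E} (hc : ∀ t, t ≤ w → P t = P w)
    (h : ∀ t t', w ≤ t → t ≤ t' → f (P t) (P t') ≤ B * (t' - t)) (t t' : ℝ) :
    f (P t) (P t') ≤ B * |t - t'| := by
  have e : ∀ t, P t = P (max t w) := fun t => by
    rcases le_total t w with h1 | h1
    · rw [max_eq_right h1, hc t h1]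
    · rw [max_eq_left h1]
  have h1 := abs_le.1 (abs_max_sub_max_le_abs t t' w)
  rw [e t, e t']
  rcases le_total (max t w) (max t' w) with h2 | h2
  · exact (h _ _ (le_max_right _ _) h2).trans (mul_le_mul_of_nonneg_left (by linarith) hB)
  · rw [hf]
    exact (h _ _ (le_max_right _ _) h2).trans (mul_le_mul_of_nonneg_left (by linarith) hB)

namespace Sys

variable {S : Sys}

theorem Good.bddK (h : S.Good) : BddK S.K := h.ldi.bddK

theorem Good.star (h : S.Good) (z : S.E) {κ : S.E} (hκ : κ ∈ S.K z) {σ : ℝ} (h0 : 0 ≤ σ)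
    (h1 : σ ≤ 1) : σ • κ ∈ S.K z :=
  (h.convex z).smul_mem_of_zero_mem (h.zero_mem z) hκ ⟨h0, h1⟩

theorem Good.V_far (h : S.Good) (t : ℝ) : S.V (S.far t) = t := by
  simp [far, h.V_z0, h.V_one]
theorem Good.J_one (h : S.Good) : S.J S.one = 0 := by
  simp [J, h.V_one]
theorem Good.J_far (h : S.Good) (t : ℝ) : S.J (S.far t) = S.z0 := by
  simp [J, far, h.V_one, h.V_z0]
theorem J_apply (S : Sys) (z : S.E) : S.J z = z - S.V z • S.one := by
  simp [J]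
theorem Good.eq_far_of_J (h : S.Good) {z : S.E} (hz : S.J z = S.z0) : z = S.far (S.V z) := by
  rw [far, ← hz, J_apply, sub_add_cancel]
theorem Good.far_mem (h : S.Good) {t : ℝ} (ht : 3 * S.H ≤ t) : S.far t ∈ S.Om :=
  h.inv (fun _ => S.far t) 0 0 ⟨le_rfl, isTraj_const _ (h.zero_mem _) 0 0, t, ht,
    by linarith [h.H_pos], rfl⟩ 0 ⟨le_rfl, le_rfl⟩

/-- global speed bound on the invariant set -/
theorem Good.speed (h : S.Good) : ∃ B : ℝ, 0 < B ∧ ∀ z ∈ S.Om, ∀ κ ∈ S.K z, ‖κ‖ ≤ B := by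
  obtain ⟨R, hR⟩ := h.bdd (3 * S.H)
  obtain ⟨B, hB⟩ := h.bddK R
  refine ⟨max (max B ‖S.one‖) 1, lt_max_of_lt_right one_pos, fun z hz κ hκ => le_max_of_le_left ?_⟩
  rcases le_total (S.V z) (3 * S.H) with h1 | h1
  · exact le_max_of_le_left (hB z (hR z hz h1) κ hκ)
  · obtain ⟨c, hc, rfl⟩ := (h.farLaw z hz h1 κ).1 hκ
    refine le_max_of_le_right ?_
    rw [norm_smul, Real.norm_eq_abs]
    exact mul_le_of_le_one_left (norm_nonneg _) hc

theorem Good.V_lip (h : S.Good) {Z : ℝ → S.E} {a b : ℝ} (hZ : IsTraj S.K Z a b) {s t : ℝ}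
    (hs : a ≤ s) (hst : s ≤ t) (ht : t ≤ b) : |S.V (Z t) - S.V (Z s)| ≤ t - s := by
  have h1 := hZ.le_rate_lin h.bddK S.V (ρ := 1)
    (fun s _ κ hκ => (abs_le.1 (h.V_le _ κ hκ)).2) hs hst ht
  have h2 := hZ.le_rate_lin h.bddK (-S.V) (ρ := 1)
    (fun s _ κ hκ => by
      have := (abs_le.1 (h.V_le _ κ hκ)).1
      simp only [neg_apply]
      linarith) hs hst ht
  simp only [neg_apply] at h2
  exact abs_le.2 ⟨by linarith, by linarith⟩

theorem Adm.restrict {Z : ℝ → S.E} {a b b' : ℝ} (hZ : S.Adm Z a b) (h1 : a ≤ b') (h2 : b' ≤ b) :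
    S.Adm Z a b' := by
  obtain ⟨_, ht, T, a1, a2, a3⟩ := hZ
  exact ⟨h1, ht.restrict le_rfl h2, T, a1, by linarith, a3⟩

theorem Adm.congr {Z Z' : ℝ → S.E} {a b : ℝ} (hZ : S.Adm Z a b) (he : ∀ s ∈ Icc a b, Z' s = Z s) :
    S.Adm Z' a b := by
  obtain ⟨hab, ht, T, a1, a2, a3⟩ := hZ
  exact ⟨hab, ht.congr he, T, a1, a2, (he a ⟨le_rfl, hab⟩).trans a3⟩

theorem Good.adm_V_ge (h : S.Good) {Z : ℝ → S.E} {a b : ℝ} (hZ : S.Adm Z a b) {s : ℝ}
    (hs : s ∈ Icc a b) : b - s ≤ S.V (Z s) := by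
  obtain ⟨_, ht, T, _, a2, a3⟩ := hZ
  have h1 := (abs_le.1 (h.V_lip ht le_rfl hs.1 hs.2)).1
  rw [a3, h.V_far] at h1
  linarith

theorem Good.adm_continuousOn (h : S.Good) {Z : ℝ → S.E} {a b : ℝ} (hZ : S.Adm Z a b) :
    ContinuousOn Z (Icc a b) := hZ.2.1.continuousOn h.bddK

theorem Good.traj2_fat (h : S.Good) (z : S.E) {r : ℝ} (hr : 0 ≤ r) :
    Convex ℝ (image2 (· + ·) (S.K z) (closedBall (0 : S.E) r)) ∧
      IsCompact (image2 (· + ·) (S.K z) (closedBall (0 : S.E) r)) ∧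
      (image2 (· + ·) (S.K z) (closedBall (0 : S.E) r)).Nonempty := by
  have := FiniteDimensional.proper ℝ S.E
  exact ⟨(h.convex z).add (convex_closedBall 0 r), (h.compact z).add (isCompact_closedBall 0 r),
    _, traj2_mem_fat (h.zero_mem z) (u := 0) (by simpa using hr)⟩

/-- the clock velocity is controlled by the excess over `H` -/
theorem Good.traj2_rate (h : S.Good) {A : Set S.E} (hA : IsCompact A) (hO : A ⊆ S.Om) :
    ∃ M : ℝ, ∀ z ∈ A, ∀ κ ∈ S.K z, S.V κ ≤ M * max (S.V z - S.H) 0 := by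
  obtain ⟨δ, hδ, hth⟩ := hA.exists_thickening_subset_open h.isOpen hO
  obtain ⟨R, hR⟩ := hA.isBounded.exists_norm_le
  obtain ⟨L, -, hL, -, -, b2⟩ := h.ldi (R + δ)
  have n1 := norm_nonneg S.one
  have hp : 0 < (‖S.one‖ + 1) / δ := by positivity
  have hq : 0 ≤ ‖S.V‖ * (L * ‖S.one‖) := by positivity
  refine ⟨(‖S.one‖ + 1) / δ + ‖S.V‖ * (L * ‖S.one‖), fun z hz κ hκ => ?_⟩
  rcases le_total (S.V z) S.H with h1 | h1
  · rw [max_eq_right (by linarith), mul_zero]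
    exact (h.irr z (hO hz) h1 κ hκ).1
  have h0 : 0 ≤ S.V z - S.H := sub_nonneg.2 h1
  rw [max_eq_left h0, add_mul]
  rcases le_or_gt δ ((‖S.one‖ + 1) * (S.V z - S.H)) with h2 | h2
  · have h3 : 1 ≤ (‖S.one‖ + 1) / δ * (S.V z - S.H) := by
      rwa [div_mul_eq_mul_div, one_le_div hδ]
    linarith [(abs_le.1 (h.V_le z κ hκ)).2, mul_nonneg hq h0]
  · have e1 : ‖z - (z - (S.V z - S.H) • S.one)‖ = (S.V z - S.H) * ‖S.one‖ := by
      rw [sub_sub_cancel, norm_smul, Real.norm_of_nonneg h0]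
    have e2 : (S.V z - S.H) * ‖S.one‖ < δ := by linarith
    have m1 : z - (S.V z - S.H) • S.one ∈ S.Om :=
      hth (mem_thickening_iff.2 ⟨z, hz, by rw [dist_comm, dist_eq_norm, e1]; exact e2⟩)
    have m2 : ‖z - (S.V z - S.H) • S.one‖ ≤ R + δ := by
      refine (norm_sub_le _ _).trans (add_le_add (hR z hz) ?_)
      rw [norm_smul, Real.norm_of_nonneg h0]
      exact e2.le
    obtain ⟨κ', k1, k2⟩ := b2 z _ ((hR z hz).trans (by linarith)) m2 κ hκ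
    have v1 := (h.irr _ m1 (by simp [h.V_one]) κ' k1).1
    have v2 : S.V (κ - κ') ≤ ‖S.V‖ * (L * ((S.V z - S.H) * ‖S.one‖)) :=
      (le_abs_self _).trans ((S.V.le_opNorm _).trans
        (mul_le_mul_of_nonneg_left (e1 ▸ k2) (norm_nonneg _)))
    rw [map_sub] at v2
    linarith [mul_nonneg hp.le h0]

theorem Good.traj2_below (h : S.Good) {Z : ℝ → S.E} {a b : ℝ} (hZ : S.Adm Z a b) {s : ℝ}
    (hs : a ≤ s) (hsb : s ≤ b) (hV : S.V (Z s) ≤ S.H) : ∀ t ∈ Icc s b, S.V (Z t) ≤ S.H := by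
  have hc := h.adm_continuousOn hZ
  obtain ⟨M, hM⟩ := h.traj2_rate (isCompact_Icc.image_of_continuousOn hc)
    (by rintro _ ⟨u, hu, rfl⟩; exact h.inv Z a b hZ u hu)
  obtain ⟨C, hC⟩ := hZ.2.1
  have key := le_gronwallBound_of_liminf_deriv_right_le
    (f := fun t => max (S.V (Z t) - S.H) 0) (f' := fun t => max (M * max (S.V (Z t) - S.H) 0) 0)
    (δ := 0) (K := |M|) (ε := 0) (a := s) (b := b)
    (((S.V.continuous.comp_continuousOn (hc.mono (Icc_subset_Icc_left hs))).sub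
      continuousOn_const).sup continuousOn_const) ?_ (max_le (by linarith) le_rfl) ?_
  · intro t ht
    have := key t ht
    rw [gronwallBound_ε0_δ0] at this
    linarith [le_max_left (S.V (Z t) - S.H) 0]
  · intro x hx r hr
    refine Eventually.frequently ?_
    have t1 : Tendsto (fun z => max (M * max (S.V (Z x) - S.H) 0) 0 + ‖S.V‖ * (|C| * (z - x)))
        (𝓝[>] x) (𝓝 (max (M * max (S.V (Z x) - S.H) 0) 0 + ‖S.V‖ * (|C| * (x - x)))) :=
      Tendsto.mono_left (Continuous.tendsto (by fun_prop) x) nhdsWithin_le_nhds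
    rw [sub_self, mul_zero, mul_zero, add_zero] at t1
    filter_upwards [t1.eventually (gt_mem_nhds hr), Ioo_mem_nhdsGT hx.2] with z h1 h2
    have hzx : 0 < z - x := sub_pos.2 h2.1
    obtain ⟨κ, k1, k2⟩ := hC x z (hs.trans hx.1) h2.1.le h2.2.le
    have v1 := (hM _ ⟨x, ⟨hs.trans hx.1, hx.2.le⟩, rfl⟩ κ k1).trans (le_max_left _ 0)
    have v2 : S.V (Z z - Z x - (z - x) • κ) ≤ ‖S.V‖ * (|C| * (z - x) ^ 2) :=
      (le_abs_self _).trans ((S.V.le_opNorm _).trans (mul_le_mul_of_nonneg_left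
        (k2.trans (mul_le_mul_of_nonneg_right (le_abs_self C) (sq_nonneg _))) (norm_nonneg _)))
    rw [map_sub, map_sub, map_smul, smul_eq_mul] at v2
    have v3 := mul_le_mul_of_nonneg_left v1 hzx.le
    refine lt_of_le_of_lt ?_ h1
    rw [inv_mul_le_iff₀ hzx]
    refine (max_sub_max_le_max _ _ _ _).trans (max_le (by linarith) ?_)
    rw [sub_self]
    have := le_max_right (M * max (S.V (Z x) - S.H) 0) 0
    positivity
  · intro x _
    have h0 := le_max_right (S.V (Z x) - S.H) 0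
    rw [add_zero]
    exact max_le (mul_le_mul_of_nonneg_right (le_abs_self M) h0) (mul_nonneg (abs_nonneg M) h0)

/-- below `H` the clock is monotone -/
theorem Good.V_anti (h : S.Good) {Z : ℝ → S.E} {a b : ℝ} (hZ : S.Adm Z a b) {s t : ℝ}
    (hs : a ≤ s) (hst : s ≤ t) (ht : t ≤ b) (hV : S.V (Z s) ≤ S.H) : S.V (Z t) ≤ S.V (Z s) := by
  have h1 := h.traj2_below hZ hs (hst.trans ht) hV
  have h2 := (hZ.2.1.restrict hs le_rfl).le_rate_lin h.bddK S.V (ρ := 0)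
    (fun s' hs' κ hκ => (h.irr _ (h.inv Z a b hZ s' ⟨hs.trans hs'.1, hs'.2.le⟩)
      (h1 s' ⟨hs'.1, hs'.2.le⟩) κ hκ).1) le_rfl hst ht
  linarith

/-- below `H` a trajectory is a Lipschitz graph over the clock -/
theorem Good.graph (h : S.Good) : ∃ B : ℝ, 0 < B ∧ ∀ Z a b, S.Adm Z a b → ∀ s t, a ≤ s → s ≤ t →
    t ≤ b → S.V (Z s) ≤ S.H → ‖Z t - Z s‖ ≤ B * (S.V (Z s) - S.V (Z t)) := by
  obtain ⟨B, hB0, hB⟩ := h.speed
  refine ⟨B, hB0, fun Z a b hZ s t hs hst ht hV => ?_⟩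
  have := FiniteDimensional.proper ℝ S.E
  obtain ⟨d, hd, e⟩ := (hZ.2.1.restrict hs ht).mean_mem_clock h.bddK hst S.V
    (convex_closedBall 0 B) (isCompact_closedBall 0 B) ⟨0, mem_closedBall_self hB0.le⟩
    (fun s' hs' κ hκ => by
      have hm := h.inv Z a b hZ s' ⟨hs.trans hs'.1, hs'.2.le.trans ht⟩
      obtain ⟨a1, κ', a2, a3⟩ := h.irr _ hm
        ((h.V_anti hZ hs hs'.1 (hs'.2.le.trans ht) hV).trans hV) κ hκ
      exact ⟨a1, κ', mem_closedBall_zero_iff.2 (hB _ hm κ' a2), a3⟩)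
  have h0 : 0 ≤ S.V (Z s) - S.V (Z t) := sub_nonneg.2 (h.V_anti hZ hs hst ht hV)
  rw [e, norm_smul, Real.norm_of_nonneg h0, mul_comm]
  exact mul_le_mul_of_nonneg_right (mem_closedBall_zero_iff.1 hd) h0

theorem Good.far_persist (h : S.Good) {Z : ℝ → S.E} {a b : ℝ} (hZ : S.Adm Z a b) {s : ℝ}
    (hs : s ∈ Icc a b) (hV : ∀ s' ∈ Ico a s, 3 * S.H ≤ S.V (Z s')) :
    Z s = S.far (S.V (Z s)) := by
  refine h.eq_far_of_J ?_
  have h1 := (hZ.2.1.restrict le_rfl hs.2).const_lin h.bddK S.J (fun s' hs' κ hκ => by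
    obtain ⟨c, -, rfl⟩ := (h.farLaw _ (h.inv Z a b hZ s' ⟨hs'.1, hs'.2.le.trans hs.2⟩)
      (hV s' hs') κ).1 hκ
    rw [map_smul, h.J_one, smul_zero]) s ⟨hs.1, le_rfl⟩
  obtain ⟨-, -, T, -, -, a3⟩ := hZ
  rw [h1, a3, h.J_far]

/-- descent along the far ray -/
theorem Good.isTraj_far (h : S.Good) (c a b : ℝ) (hb : 3 * S.H ≤ c - b) :
    IsTraj S.K (fun s => S.far (c - s)) a b := by
  refine ⟨0, fun s t _ hst ht => ⟨(-1 : ℝ) • S.one, ?_, ?_⟩⟩
  · have h1 : 3 * S.H ≤ c - s := by linarith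
    exact (h.farLaw _ (h.far_mem h1) (by rwa [h.V_far]) _).2 ⟨-1, by simp, rfl⟩
  · have : S.far (c - t) - S.far (c - s) - (t - s) • (-1 : ℝ) • S.one = 0 := by
      simp only [far]
      module
    simp only [this, norm_zero, zero_mul, le_refl]

/-- normal form of the error constant -/
theorem Good.normalC (h : S.Good) (R : ℝ) : ∃ C : ℝ, 0 ≤ C ∧ ∀ Z a b, IsTraj S.K Z a b →
    (∀ s ∈ Icc a b, ‖Z s‖ ≤ R) → IsTrajC S.K C Z a b := by
  obtain ⟨L, B, hL, hB, b1, b2⟩ := h.ldi R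
  refine ⟨L * B, mul_nonneg hL hB, fun Z a b hZ hR s t hs hst ht => ?_⟩
  have hr : 0 ≤ L * B * (t - s) := mul_nonneg (mul_nonneg hL hB) (sub_nonneg.2 hst)
  obtain ⟨c1, c2, c3⟩ := h.traj2_fat (Z s) hr
  obtain ⟨d, hd, e⟩ := (hZ.restrict hs ht).mean_mem h.bddK hst c1 c2.isClosed c3
    (fun s' hs' κ hκ => by
      have m1 : s ∈ Icc a b := ⟨hs, hst.trans ht⟩
      have m2 : s' ∈ Icc a b := ⟨hs.trans hs'.1, hs'.2.le.trans ht⟩
      obtain ⟨κ', k1, k2⟩ := b2 _ _ (hR s' m2) (hR s m1) κ hκ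
      have l1 := hZ.lip_of_bound h.bddK (B := B)
        (fun u hu κ hκ => b1 _ (hR u ⟨hu.1, hu.2.le⟩) κ hκ) hs hs'.1 m2.2
      refine traj2_mem_fat k1 (k2.trans ?_)
      rw [mul_assoc]
      refine mul_le_mul_of_nonneg_left (l1.trans ?_) hL
      exact mul_le_mul_of_nonneg_left (by linarith [hs'.2]) hB)
  exact traj2_fat_bound (sub_nonneg.2 hst) hd e

theorem Good.concat (h : S.Good) {Z : ℝ → S.E} {a b c : ℝ} (h1 : IsTraj S.K Z a b)
    (h2 : IsTraj S.K Z b c) : IsTraj S.K Z a c := by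
  rcases le_total b a with hba | hab
  · exact h2.restrict hba le_rfl
  rcases le_total c b with hcb | hbc
  · exact h1.restrict le_rfl hcb
  obtain ⟨R, hR⟩ := h1.bounded h.bddK
  obtain ⟨L, B, hL, hB, b1, b2⟩ := h.ldi R
  have l1 := fun s t => h1.lip_of_bound h.bddK (B := B) (s := s) (t := t)
    (fun u hu κ hκ => b1 _ (hR u ⟨hu.1, hu.2.le⟩) κ hκ)
  obtain ⟨C1, h1⟩ := h1
  obtain ⟨C2, h2⟩ := h2
  have hLB := mul_nonneg hL hB
  have n1 := abs_nonneg C1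
  have n2 := abs_nonneg C2
  refine ⟨|C1| + |C2| + L * B, fun s t hs hst ht => ?_⟩
  rcases le_total t b with htb | hbt
  · obtain ⟨κ, k1, k2⟩ := h1 s t hs hst htb
    exact ⟨κ, k1, k2.trans (mul_le_mul_of_nonneg_right (by linarith [le_abs_self C1])
      (sq_nonneg _))⟩
  rcases le_total b s with hbs | hsb
  · obtain ⟨κ, k1, k2⟩ := h2 s t hbs hst ht
    exact ⟨κ, k1, k2.trans (mul_le_mul_of_nonneg_right (by linarith [le_abs_self C2])
      (sq_nonneg _))⟩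
  obtain ⟨κ1, k1, e1⟩ := h1 s b hs hsb le_rfl
  obtain ⟨κ2, k2, e2⟩ := h2 b t le_rfl hbt ht
  obtain ⟨κ3, k3, e3⟩ := b2 _ _ (hR b ⟨hab, le_rfl⟩) (hR s ⟨hs, hsb⟩) κ2 k2
  obtain ⟨κ, k4, e4⟩ := traj2_comb (h.convex _) k1 k3 (sub_nonneg.2 hsb) (sub_nonneg.2 hbt)
  refine ⟨κ, k4, ?_⟩
  have e5 : Z t - Z s - (t - s) • κ = (Z b - Z s - (b - s) • κ1) + (Z t - Z b - (t - b) • κ2) +
      (t - b) • (κ2 - κ3) := by
    rw [show t - s = b - s + (t - b) by ring, ← e4]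
    module
  have e6 : ‖(t - b) • (κ2 - κ3)‖ ≤ (t - b) * (L * (B * (b - s))) := by
    rw [norm_smul, Real.norm_of_nonneg (sub_nonneg.2 hbt)]
    exact mul_le_mul_of_nonneg_left
      (e3.trans (mul_le_mul_of_nonneg_left (l1 s b hs hsb le_rfl) hL)) (sub_nonneg.2 hbt)
  rw [e5, show t - s = b - s + (t - b) by ring]
  exact (norm_add₃_le.trans (add_le_add (add_le_add e1 e2) e6)).trans
    (traj2_arith (sub_nonneg.2 hsb) (sub_nonneg.2 hbt) hL hB)

/-- pointwise limits of trajectories -/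
theorem Good.limit (h : S.Good) {ι : Type} {l : Filter ι} [l.NeBot] {Zs : ι → ℝ → S.E}
    {Z : ℝ → S.E} {C a b : ℝ} (hZ : ∀ᶠ i in l, IsTrajC S.K C (Zs i) a b)
    (hl : ∀ s ∈ Icc a b, Tendsto (fun i => Zs i s) l (𝓝 (Z s))) : IsTrajC S.K C Z a b := by
  intro s t hs hst ht
  obtain ⟨κ0, k0, hmin⟩ := (h.compact (Z s)).exists_isMinOn ⟨0, h.zero_mem _⟩
    (f := fun κ => ‖Z t - Z s - (t - s) • κ‖) (by fun_prop)
  refine ⟨κ0, k0, ?_⟩
  obtain ⟨L, B, hL, -, -, b2⟩ := h.ldi (‖Z s‖ + 1)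
  have t1 := hl s ⟨hs, hst.trans ht⟩
  have t2 := hl t ⟨hs.trans hst, ht⟩
  have t3 := tendsto_iff_norm_sub_tendsto_zero.1 t1
  have t4 := tendsto_iff_norm_sub_tendsto_zero.1 t2
  have t5 := ((t4.add t3).add (tendsto_const_nhds (x := C * (t - s) ^ 2))).add
    ((t3.const_mul L).const_mul (t - s))
  simp only [add_zero, zero_add, mul_zero] at t5
  refine ge_of_tendsto t5 ?_
  filter_upwards [hZ, t1.norm.eventually (gt_mem_nhds (lt_add_one ‖Z s‖))] with i hi hn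
  obtain ⟨κ, k1, e1⟩ := hi s t hs hst ht
  obtain ⟨κ', k2, e2⟩ := b2 _ (Z s) hn.le (lt_add_one _).le κ k1
  refine (hmin k2).trans ?_
  have e5 : Z t - Z s - (t - s) • κ' = -(Zs i t - Z t) + (Zs i s - Z s) +
      (Zs i t - Zs i s - (t - s) • κ) + (t - s) • (κ - κ') := by module
  have e6 : ‖(t - s) • (κ - κ')‖ ≤ (t - s) * (L * ‖Zs i s - Z s‖) := by
    rw [norm_smul, Real.norm_of_nonneg (sub_nonneg.2 hst)]
    exact mul_le_mul_of_nonneg_left e2 (sub_nonneg.2 hst)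
  change ‖Z t - Z s - (t - s) • κ'‖ ≤ _
  rw [e5]
  refine (norm_add_le _ _).trans (add_le_add (norm_add₃_le.trans ?_) e6)
  rw [norm_neg]
  linarith

/-- normal form of an admissible trajectory: start at `far (3 H)`, duration `3 H` -/
theorem Good.normalAdm (h : S.Good) {Z : ℝ → S.E} {a b : ℝ} (hZ : S.Adm Z a b) :
    (∀ s ∈ Icc a b, 3 * S.H ≤ S.V (Z s)) ∨ ∃ c ∈ Icc a b, Z c = S.far (3 * S.H) ∧
      b - c ≤ 3 * S.H ∧ ∀ s ∈ Icc a c, 3 * S.H ≤ S.V (Z s) := by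
  by_cases h0 : ∀ s ∈ Icc a b, 3 * S.H ≤ S.V (Z s)
  · exact Or.inl h0
  push Not at h0
  obtain ⟨s0, m0, v0⟩ := h0
  have hc : ContinuousOn (fun s => S.V (Z s)) (Icc a b) :=
    S.V.continuous.comp_continuousOn (h.adm_continuousOn hZ)
  have hK : IsCompact (Icc a b ∩ (fun s => S.V (Z s)) ⁻¹' Iic (3 * S.H)) :=
    isCompact_Icc.of_isClosed_subset (hc.preimage_isClosed_of_isClosed isClosed_Icc isClosed_Iic)
      inter_subset_left
  obtain ⟨c, ⟨mc, vc⟩, hle⟩ := hK.exists_isLeast ⟨s0, m0, v0.le⟩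
  have hlt : ∀ s ∈ Ico a c, 3 * S.H ≤ S.V (Z s) := fun s hs => by
    by_contra hn
    exact absurd (hle ⟨⟨hs.1, hs.2.le.trans mc.2⟩, (not_le.1 hn).le⟩) (not_le.2 hs.2)
  have hge : 3 * S.H ≤ S.V (Z c) := by
    rcases eq_or_lt_of_le mc.1 with e | e
    · obtain ⟨-, -, T, a1, -, a3⟩ := hZ
      rwa [← e, a3, h.V_far]
    · refine le_of_forall_pos_le_add fun ε hε => ?_
      have m1 : max a (c - ε) < c := max_lt e (by linarith)
      have h1 := hlt _ ⟨le_max_left _ _, m1⟩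
      have h2 := (abs_le.1 (h.V_lip hZ.2.1 (le_max_left a (c - ε)) m1.le mc.2)).1
      linarith [le_max_right a (c - ε)]
  have he : S.V (Z c) = 3 * S.H := le_antisymm vc hge
  refine Or.inr ⟨c, mc, ?_, ?_, fun s hs => ?_⟩
  · rw [← he]
    exact h.far_persist hZ mc hlt
  · rw [← he]
    exact h.adm_V_ge hZ mc
  · rcases eq_or_lt_of_le hs.2 with e | e
    · rwa [e]
    · exact hlt s ⟨hs.1, e⟩

/-- reparametrisation by the clock -/
theorem Good.reparamV (h : S.Good) {Z : ℝ → S.E} {a b : ℝ} (hZ : S.Adm Z a b) {s0 : ℝ}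
    (hs : s0 ∈ Icc a b) (hV : S.V (Z s0) ≤ S.H) : ∃ P : ℝ → S.E,
      (∀ s ∈ Icc s0 b, P (S.V (Z s)) = Z s) ∧
      (∀ v ∈ Icc (S.V (Z b)) (S.V (Z s0)), ∃ s ∈ Icc s0 b, S.V (Z s) = v) ∧
      IsTraj S.K (fun s => P (-s)) (-S.V (Z s0)) (-S.V (Z b)) := by
  classical
  obtain ⟨B, hB, hg⟩ := h.graph
  have hH : ∀ s ∈ Icc s0 b, S.V (Z s) ≤ S.H := fun s m =>
    (h.V_anti hZ hs.1 m.1 m.2 hV).trans hV
  have hinj : ∀ s ∈ Icc s0 b, ∀ t ∈ Icc s0 b, S.V (Z s) = S.V (Z t) → Z s = Z t := by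
    intro s ms t mt e
    rcases le_total s t with hst | hst
    · have := hg Z a b hZ s t (hs.1.trans ms.1) hst mt.2 (hH s ms)
      rw [e, sub_self, mul_zero, norm_le_zero_iff, sub_eq_zero] at this
      exact this.symm
    · have := hg Z a b hZ t s (hs.1.trans mt.1) hst ms.2 (hH t mt)
      rwa [e, sub_self, mul_zero, norm_le_zero_iff, sub_eq_zero] at this
  have hiv : ∀ v ∈ Icc (S.V (Z b)) (S.V (Z s0)), ∃ s ∈ Icc s0 b, S.V (Z s) = v :=
    fun v hv => intermediate_value_Icc' hs.2 (S.V.continuous.comp_continuousOn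
      ((h.adm_continuousOn hZ).mono (Icc_subset_Icc_left hs.1))) hv
  let P : ℝ → S.E := fun v => if hv : ∃ s ∈ Icc s0 b, S.V (Z s) = v then Z hv.choose else 0
  have hP : ∀ s ∈ Icc s0 b, P (S.V (Z s)) = Z s := fun s ms => by
    have hv : ∃ s' ∈ Icc s0 b, S.V (Z s') = S.V (Z s) := ⟨s, ms, rfl⟩
    exact (dif_pos hv).trans (hinj _ hv.choose_spec.1 s ms hv.choose_spec.2)
  refine ⟨P, hP, hiv, ?_⟩
  obtain ⟨R, hR⟩ := hZ.2.1.bounded h.bddK
  obtain ⟨L, -, hL, -, -, b2⟩ := h.ldi R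
  refine ⟨L * B, fun u w hu huw hw => ?_⟩
  obtain ⟨s1, m1, e1⟩ := hiv (-u) ⟨by linarith, by linarith⟩
  obtain ⟨s2, m2, e2⟩ := hiv (-w) ⟨by linarith, by linarith⟩
  have p1 : P (-u) = Z s1 := e1 ▸ hP s1 m1
  have p2 : P (-w) = Z s2 := e2 ▸ hP s2 m2
  rcases le_total s2 s1 with h12 | h12
  · have h3 := h.V_anti hZ (hs.1.trans m2.1) h12 m1.2 (hH s2 m2)
    obtain rfl : u = w := by linarith
    exact ⟨0, h.zero_mem _, by simp⟩
  simp only [p1, p2]
  have hr : 0 ≤ L * B * (w - u) := mul_nonneg (mul_nonneg hL hB.le) (sub_nonneg.2 huw)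
  obtain ⟨c1, c2, c3⟩ := h.traj2_fat (Z s1) hr
  obtain ⟨d, hd, e⟩ := (hZ.2.1.restrict (hs.1.trans m1.1) m2.2).mean_mem_clock h.bddK h12 S.V
    c1 c2 c3 (fun s' hs' κ hκ => by
      have m3 : s' ∈ Icc s0 b := ⟨m1.1.trans hs'.1, hs'.2.le.trans m2.2⟩
      have m4 : s' ∈ Icc a b := ⟨hs.1.trans m3.1, m3.2⟩
      obtain ⟨a1, κ', a2, a3⟩ := h.irr _ (h.inv Z a b hZ s' m4) (hH s' m3) κ hκ
      obtain ⟨κ'', k1, k2⟩ := b2 _ _ (hR s' m4) (hR s1 ⟨hs.1.trans m1.1, m1.2⟩) κ' a2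
      refine ⟨a1, κ', traj2_mem_fat k1 (k2.trans ?_), a3⟩
      have g1 := hg Z a b hZ s1 s' (hs.1.trans m1.1) hs'.1 m3.2 (hH s1 m1)
      have g2 := h.V_anti hZ m4.1 hs'.2.le m2.2 (hH s' m3)
      rw [mul_assoc]
      refine mul_le_mul_of_nonneg_left (g1.trans ?_) hL
      exact mul_le_mul_of_nonneg_left (by linarith) hB.le)
  rw [e1, e2, show -u - -w = w - u by ring] at e
  exact traj2_fat_bound (sub_nonneg.2 huw) hd e

theorem TPath.adm (h : S.Good) {w : ℝ} {P : ℝ → S.E} (hP : S.TPath w P) {T : ℝ} (hw : w ≤ T)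
    (hT : 3 * S.H ≤ T) : S.Adm (fun s => P (-s)) (-T) (-w) := by
  have h1 := hP.le_V T hw
  refine ⟨by linarith, hP.traj T hw, S.V (P T), hT.trans h1, by linarith [hP.nonneg], ?_⟩
  simpa using hP.far T hw hT

theorem TPath.mem (h : S.Good) {w : ℝ} {P : ℝ → S.E} (hP : S.TPath w P) (t : ℝ) :
    P t ∈ S.Om := by
  have key : ∀ t, w ≤ t → P t ∈ S.Om := fun t ht => by
    have h1 := le_max_left t (3 * S.H)
    simpa using h.inv _ _ _ (hP.adm h (ht.trans h1) (le_max_right t (3 * S.H))) (-t)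
      ⟨by linarith, by linarith⟩
  rcases le_total w t with ht | ht
  · exact key t ht
  · rw [hP.const t ht]
    exact key w le_rfl

theorem Good.tpath_lip (h : S.Good) : ∃ B : ℝ, 0 < B ∧ ∀ w P, S.TPath w P → ∀ t t',
    ‖P t - P t'‖ ≤ B * |t - t'| := by
  obtain ⟨B, hB0, hB⟩ := h.speed
  refine ⟨B, hB0, fun w P hP => traj2_ext (f := fun x y => ‖x - y‖) (fun _ _ => norm_sub_rev _ _)
    hB0.le hP.const fun t t' ht htt => ?_⟩
  have := (hP.traj t' (ht.trans htt)).lip_of_bound h.bddK (B := B)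
    (fun s _ κ hκ => hB _ (hP.mem h _) κ hκ) (s := -t') (t := -t) le_rfl (by linarith)
    (by linarith)
  simp only [neg_neg] at this
  linarith

theorem TPath.V_lip (h : S.Good) {w : ℝ} {P : ℝ → S.E} (hP : S.TPath w P) (t t' : ℝ) :
    |S.V (P t) - S.V (P t')| ≤ |t - t'| := by
  have := traj2_ext (f := fun x y => |S.V x - S.V y|) (B := 1) (fun _ _ => abs_sub_comm _ _)
    zero_le_one hP.const (fun t t' ht htt => by
      have := h.V_lip (hP.traj t' (ht.trans htt)) (s := -t') (t := -t) le_rfl (by linarith)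
        (by linarith)
      simp only [neg_neg] at this
      linarith) t t'
  rwa [one_mul] at this

theorem TPath.cut (h : S.Good) {w : ℝ} {P : ℝ → S.E} (hP : S.TPath w P) {t : ℝ} (ht : w ≤ t) :
    S.TPath t (fun s => P (max s t)) := by
  refine ⟨hP.nonneg.trans ht, fun T hT => ?_, fun t' h' => ?_, fun t' h' => ?_,
    fun t' h' h3 => ?_, ?_⟩
  · refine ((hP.traj T (ht.trans hT)).restrict le_rfl (by linarith)).congr fun s hs => ?_
    rw [max_eq_left (by linarith [hs.2])]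
  · rw [max_eq_right h', max_self]
  · rw [max_eq_left h']
    exact hP.le_V t' (ht.trans h')
  · rw [max_eq_left h']
    exact hP.far t' (ht.trans h') h3
  · refine hP.tends.congr' ?_
    filter_upwards [eventually_ge_atTop t] with s hs
    rw [max_eq_left hs]

end Sys

theorem Mor.adm {B T : Sys} {θ : ℝ} {π : T.E →L[ℝ] B.E} (h : Mor B θ T π) {Z : ℝ → T.E}
    {a b : ℝ} (hZ : T.Adm Z a b) : B.Adm (fun s => π (Z (θ * s))) (a / θ) (b / θ) := by
  have ht := h.traj Z a b hZ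
  obtain ⟨hab, -, T0, a1, a2, a3⟩ := hZ
  have hθ := h.pos
  refine ⟨div_le_div_of_nonneg_right hab hθ.le, ht, T0 / θ, ?_, ?_, ?_⟩
  · rw [le_div_iff₀ hθ]
    linarith [h.H_le]
  · rw [← sub_div]
    exact div_le_div_of_nonneg_right a2 hθ.le
  · simp only [mul_div_cancel₀ a hθ.ne', a3, h.far]

theorem Mor.adm_one {B T : Sys} {π : T.E →L[ℝ] B.E} (h : Mor B 1 T π) {Z : ℝ → T.E}
    {a b : ℝ} (hZ : T.Adm Z a b) : B.Adm (fun s => π (Z s)) a b := by
  simpa using h.adm hZ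

theorem Mor.dom {B T : Sys} {θ : ℝ} {π : T.E →L[ℝ] B.E} (h : Mor B θ T π) (hB : B.Good)
    (hT : T.Good) {Z : ℝ → T.E} {a b : ℝ} (hZ : T.Adm Z a b) {s : ℝ} (hs : s ∈ Icc a b) :
    T.V (Z s) ≤ θ * B.V (π (Z s)) := by
  have h1 := h.burn Z a b hZ a s le_rfl hs.1 hs.2
  obtain ⟨-, -, T0, -, -, a3⟩ := hZ
  rw [a3, h.far, hB.V_far, hT.V_far, mul_div_cancel₀ _ h.pos.ne'] at h1
  linarith

theorem Mor.comp {B M T : Sys} {θ θ' : ℝ} {π : M.E →L[ℝ] B.E} {π' : T.E →L[ℝ] M.E}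
    (h : Mor B θ M π) (h' : Mor M θ' T π') : Mor B (θ' * θ) T (π.comp π') := by
  have p := h.pos
  have p' := h'.pos
  refine ⟨mul_pos p' p, fun z => (h.norm_le _).trans (h'.norm_le z), ?_, fun t => ?_,
    fun Z a b hZ => ?_, fun Z a b hZ s t hs hst ht => ?_⟩
  · rw [mul_assoc]
    exact (mul_le_mul_of_nonneg_left h.H_le p'.le).trans h'.H_le
  · rw [ContinuousLinearMap.comp_apply, h'.far, h.far, div_div]
  · simpa only [div_div, mul_assoc, ContinuousLinearMap.comp_apply] using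
      h.traj _ _ _ (h'.adm hZ)
  · have h1 := h'.burn Z a b hZ s t hs hst ht
    have h2 := h.burn _ _ _ (h'.adm hZ) (s / θ') (t / θ') (div_le_div_of_nonneg_right hs p'.le)
      (div_le_div_of_nonneg_right hst p'.le) (div_le_div_of_nonneg_right ht p'.le)
    simp only [mul_div_cancel₀ _ p'.ne'] at h2
    have h3 := mul_le_mul_of_nonneg_left h2 p'.le
    simp only [ContinuousLinearMap.comp_apply]
    linarith

theorem Mor.id (S : Sys) : Mor S 1 S (ContinuousLinearMap.id ℝ S.E) :=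
  ⟨one_pos, fun _ => le_rfl, by rw [one_mul], fun t => by simp,
    fun Z a b hZ => by simpa using hZ.2.1, fun Z a b _ s t _ _ _ => by simp⟩

end Pool.Agent.MP703675
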