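import Pool.Agent.Lib.MP_703675_gt.Tool
import Pool.Agent.Lib.MP_703675_gt.Traj2

set_option autoImplicit false

open Set Metric Filter Topology TopologicalSpace

noncomputable section

namespace Pool.Agent.MP703675

theorem LD.aS_mem {E : Type} [NormedAddCommGroup E] [NormedSpace ℝ E] (ld : LD E) {par : ℕ → Par}
    {j : ℕ} (h : (par j).Good) (z : E) : 0 ≤ ld.aS par j z ∧ ld.aS par j z ≤ 1 :=
  ⟨mul_nonneg (Par.al_mem _ _).1 (h.S_mem _).1,
    mul_le_one₀ (Par.al_mem _ _).2 (h.S_mem _).1 (h.S_mem _).2⟩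

theorem LD.aR_mem {E : Type} [NormedAddCommGroup E] [NormedSpace ℝ E] (ld : LD E) {par : ℕ → Par}
    {j : ℕ} (h : (par j).Good) (z : E) : 0 ≤ ld.aR par j z ∧ ld.aR par j z ≤ 1 :=
  ⟨mul_nonneg (Par.al_mem _ _).1 (h.rho_mem _).1,
    mul_le_one₀ (Par.al_mem _ _).2 (h.rho_mem _).1 (h.rho_mem _).2⟩

/-- activities decrease from the top -/
theorem act_mem {m n : ℕ} {s α : ℕ → ℝ} (hn : s n = 1)
    (h : ∀ j, m ≤ j → j < n → 0 ≤ α j ∧ 0 ≤ s j ∧ s j ≤ (1 - α j) * s (j + 1)) {j : ℕ}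
    (hj : m ≤ j) (hj' : j ≤ n) : 0 ≤ s j ∧ s j ≤ 1 := by
  obtain ⟨d, hd⟩ := Nat.exists_eq_add_of_le hj'
  induction d generalizing j with
  | zero =>
    have : j = n := by omega
    rw [this, hn]
    exact ⟨zero_le_one, le_rfl⟩
  | succ d ih =>
    obtain ⟨h1, h2, h3⟩ := h j hj (by omega)
    obtain ⟨h4, h5⟩ := ih (j := j + 1) (by omega) (by omega) (by omega)
    have h6 := mul_nonneg h1 h4
    exact ⟨h2, by linarith⟩

theorem LD.exists_valid {E : Type} [NormedAddCommGroup E] [NormedSpace ℝ E] (ld : LD E)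
    (hr : ∀ j, 0 < ld.r j) (z : E) : ∃ b : ℕ → Bool, ∀ j, ld.valid j (b j) z ∧
      ld.T j (b j) z ≤ ld.T j (!b j) z := by
  have key : ∀ j, ∃ b : Bool, ld.T j b z ≤ ld.T j (!b) z := by
    intro j
    rcases le_total (ld.T j true z) (ld.T j false z) with h | h
    · exact ⟨true, h⟩
    · exact ⟨false, h⟩
  choose b hb using key
  refine ⟨b, fun j => ⟨?_, hb j⟩⟩
  have h1 := hb j
  have h2 := hr j
  unfold LD.valid
  linarith

theorem LD.Pure.comp {E M : Type} [NormedAddCommGroup E] [NormedSpace ℝ E] [NormedAddCommGroup M]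
    [NormedSpace ℝ M] {up : LD E} {lo : LD M} (h1 : up.Pure) (h2 : lo.Pure) (k : ℕ)
    (π : E →L[ℝ] M) : (LD.comp k up lo π).Pure := by
  intro j b z
  change (if j < k then lo.T j b (π z) else up.T j b z) = 0
  split_ifs
  · exact h2 _ _ _
  · exact h1 _ _ _

section CompLemmas

variable {E M : Type} [NormedAddCommGroup E] [NormedSpace ℝ E] [NormedAddCommGroup M]
  [NormedSpace ℝ M] {k j : ℕ} (up : LD E) (lo : LD M) (π : E →L[ℝ] M)

theorem towerA_Vj_lt (h : j < k) (z : E) : (LD.comp k up lo π).Vj j z = lo.Vj j (π z) := by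
  change (if j < k then (lo.Vj j).comp π else up.Vj j) z = _
  rw [if_pos h]
  rfl

theorem towerA_Vj_ge (h : k ≤ j) (z : E) : (LD.comp k up lo π).Vj j z = up.Vj j z := by
  change (if j < k then (lo.Vj j).comp π else up.Vj j) z = _
  rw [if_neg (not_lt.2 h)]

theorem towerA_Dj_lt (h : j < k) (z : E) : (LD.comp k up lo π).Dj j z = lo.Dj j (π z) := by
  change (if j < k then (lo.Dj j).comp π else up.Dj j) z = _
  rw [if_pos h]
  rfl

theorem towerA_Dj_ge (h : k ≤ j) (z : E) : (LD.comp k up lo π).Dj j z = up.Dj j z := by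
  change (if j < k then (lo.Dj j).comp π else up.Dj j) z = _
  rw [if_neg (not_lt.2 h)]

theorem towerA_T_lt (h : j < k) (b : Bool) :
    (LD.comp k up lo π).T j b = fun z => lo.T j b (π z) := by
  funext z
  exact if_pos h

theorem towerA_T_ge (h : k ≤ j) (b : Bool) : (LD.comp k up lo π).T j b = up.T j b := by
  funext z
  exact if_neg (not_lt.2 h)

theorem towerA_r_lt (h : j < k) : (LD.comp k up lo π).r j = lo.r j := if_pos h

theorem towerA_r_ge (h : k ≤ j) : (LD.comp k up lo π).r j = up.r j := if_neg (not_lt.2 h)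

theorem towerA_aS_lt (h : j < k) (par : ℕ → Par) (z : E) :
    (LD.comp k up lo π).aS par j z = lo.aS par j (π z) := by
  unfold LD.aS
  rw [towerA_Vj_lt up lo π h, towerA_Dj_lt up lo π h]

theorem towerA_aS_ge (h : k ≤ j) (par : ℕ → Par) (z : E) :
    (LD.comp k up lo π).aS par j z = up.aS par j z := by
  unfold LD.aS
  rw [towerA_Vj_ge up lo π h, towerA_Dj_ge up lo π h]

theorem towerA_aR_lt (h : j < k) (par : ℕ → Par) (z : E) :
    (LD.comp k up lo π).aR par j z = lo.aR par j (π z) := by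
  unfold LD.aR
  rw [towerA_Vj_lt up lo π h, towerA_Dj_lt up lo π h]

theorem towerA_aR_ge (h : k ≤ j) (par : ℕ → Par) (z : E) :
    (LD.comp k up lo π).aR par j z = up.aR par j z := by
  unfold LD.aR
  rw [towerA_Vj_ge up lo π h, towerA_Dj_ge up lo π h]

theorem towerA_er_lt (h : j < k) (par : ℕ → Par) (z : E) :
    (LD.comp k up lo π).er par j z = lo.er par j (π z) := by
  unfold LD.er
  rw [towerA_Vj_lt up lo π h]

theorem towerA_er_ge (h : k ≤ j) (par : ℕ → Par) (z : E) :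
    (LD.comp k up lo π).er par j z = up.er par j z := by
  unfold LD.er
  rw [towerA_Vj_ge up lo π h]

theorem towerA_valid_lt (h : j < k) (b : Bool) (z : E) :
    (LD.comp k up lo π).valid j b z ↔ lo.valid j b (π z) := by
  unfold LD.valid
  rw [towerA_T_lt up lo π h, towerA_T_lt up lo π h, towerA_r_lt up lo π h]

theorem towerA_valid_ge (h : k ≤ j) (b : Bool) (z : E) :
    (LD.comp k up lo π).valid j b z ↔ up.valid j b z := by
  unfold LD.valid
  rw [towerA_T_ge up lo π h, towerA_T_ge up lo π h, towerA_r_ge up lo π h]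

theorem towerA_fderiv_lt (h : j < k) (b : Bool) (hs : ContDiff ℝ 2 (lo.T j b)) (z κ : E) :
    fderiv ℝ ((LD.comp k up lo π).T j b) z κ = fderiv ℝ (lo.T j b) (π z) (π κ) := by
  rw [towerA_T_lt up lo π h]
  have h1 : HasFDerivAt (lo.T j b) (fderiv ℝ (lo.T j b) (π z)) (π z) :=
    (hs.differentiable (by norm_num) (π z)).hasFDerivAt
  have h2 : HasFDerivAt (fun z => lo.T j b (π z)) ((fderiv ℝ (lo.T j b) (π z)).comp π) z :=
    h1.comp z π.hasFDerivAt
  rw [h2.fderiv]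
  rfl

end CompLemmas

/-- normalisation of the lower part of a plan -/
theorem towerA_norm {m k : ℕ} {s δ aS aR : ℕ → ℝ} (hk : 0 ≤ s k)
    (ha : ∀ j, m ≤ j → j < k → 0 ≤ aS j ∧ aS j ≤ 1 ∧ 0 ≤ aR j)
    (h : ∀ j, m ≤ j → j < k → 0 ≤ s j ∧ s j ≤ (1 - aS j) * s (j + 1) ∧
      -(aS j * s (j + 1)) ≤ δ j ∧ δ j ≤ aR j * (s (j + 1) - s j)) :
    ∃ s' δ' : ℕ → ℝ, s' k = 1 ∧
      (∀ j, m ≤ j → j < k → 0 ≤ s' j ∧ s' j ≤ (1 - aS j) * s' (j + 1) ∧
        -(aS j * s' (j + 1)) ≤ δ' j ∧ δ' j ≤ aR j * (s' (j + 1) - s' j)) ∧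
      (∀ j, m ≤ j → j ≤ k → s j = s k * s' j) ∧ ∀ j, m ≤ j → j < k → δ j = s k * δ' j := by
  rcases hk.eq_or_lt with h0 | h0
  · have hz : ∀ d j, m ≤ j → k = j + d → s j = 0 := by
      intro d
      induction d with
      | zero =>
        intro j _ hj
        have : j = k := by omega
        rw [this, ← h0]
      | succ d ih =>
        intro j hj hd
        obtain ⟨h1, h2, -⟩ := h j hj (by omega)
        rw [ih (j + 1) (by omega) (by omega), mul_zero] at h2
        exact le_antisymm h2 h1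
    have hz' : ∀ j, m ≤ j → j ≤ k → s j = 0 := fun j hj hj' => hz (k - j) j hj (by omega)
    refine ⟨fun j => if j < k then 0 else 1, fun _ => 0, if_neg (lt_irrefl k), ?_, ?_, ?_⟩
    · intro j hj hj'
      obtain ⟨a1, a2, a3⟩ := ha j hj hj'
      have h1 : (0 : ℝ) ≤ if j + 1 < k then 0 else 1 := by
        split_ifs
        · exact le_rfl
        · exact zero_le_one
      simp only [if_pos hj', sub_zero]
      exact ⟨le_rfl, mul_nonneg (sub_nonneg.2 a2) h1, neg_nonpos.2 (mul_nonneg a1 h1),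
        mul_nonneg a3 h1⟩
    · intro j hj hj'
      rw [hz' j hj hj', ← h0, zero_mul]
    · intro j hj hj'
      obtain ⟨-, -, h3, h4⟩ := h j hj hj'
      rw [hz' (j + 1) (by omega) (by omega)] at h3 h4
      rw [hz' j hj hj'.le] at h4
      rw [← h0, zero_mul]
      linarith
  · refine ⟨fun j => s j / s k, fun j => δ j / s k, div_self h0.ne', ?_, ?_, ?_⟩
    · intro j hj hj'
      obtain ⟨h1, h2, h3, h4⟩ := h j hj hj'
      refine ⟨div_nonneg h1 hk, ?_, ?_, ?_⟩
      · rw [← mul_div_assoc]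
        exact div_le_div_of_nonneg_right h2 hk
      · rw [← mul_div_assoc, ← neg_div]
        exact div_le_div_of_nonneg_right h3 hk
      · rw [← sub_div, ← mul_div_assoc]
        exact div_le_div_of_nonneg_right h4 hk
    · intro j _ _
      rw [mul_div_cancel₀ _ h0.ne']
    · intro j _ _
      rw [mul_div_cancel₀ _ h0.ne']

variable {B M T : Sys}

theorem RespAt.mono {θ : ℝ} {π : T.E →L[ℝ] B.E} {m n : ℕ} {par : ℕ → Par} {ld : LD T.E} {z : T.E}
    {P P' : ℝ → B.E → T.E → Prop} (h : RespAt B θ T π m n par ld z P) (hmn : m ≤ n)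
    (hg : ∀ j, m ≤ j → j < n → (par j).Good)
    (hP : ∀ σ u κ, 0 ≤ σ → σ ≤ 1 → u ∈ B.K (π z) → κ ∈ T.K z → π κ = (σ / θ) • u →
      (T.V z ≤ T.H → T.V κ = -1) → P σ u κ → P' σ u κ) :
    RespAt B θ T π m n par ld z P' := by
  intro b hb s δ hp u hu
  obtain ⟨κ, h1, h2, h3, h4, h5⟩ := h b hb s δ hp u hu
  have hs := act_mem (α := fun j => ld.aS par j z) hp.1
    (fun j hj hj' => ⟨(ld.aS_mem (hg j hj hj') z).1, (hp.2 j hj hj').1, (hp.2 j hj hj').2.1⟩)
    le_rfl hmn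
  exact ⟨κ, h1, h2, h3, h4, hP _ _ _ hs.1 hs.2 hu h1 h2 h3 h5⟩

theorem towerA_congr {E : Type} [NormedAddCommGroup E] [NormedSpace ℝ E] (ld : LD E)
    {par par' : ℕ → Par} {j : ℕ} (h : par' j = par j) (z : E) :
    ld.aS par' j z = ld.aS par j z ∧ ld.aR par' j z = ld.aR par j z ∧
      ld.er par' j z = ld.er par j z := by
  unfold LD.aS LD.aR LD.er
  rw [h]
  exact ⟨rfl, rfl, rfl⟩

theorem RespAt.congr_par {θ : ℝ} {π : T.E →L[ℝ] B.E} {m n : ℕ} {par par' : ℕ → Par} {ld : LD T.E}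
    {z : T.E} {P : ℝ → B.E → T.E → Prop} (h : RespAt B θ T π m n par ld z P)
    (he : ∀ j, m ≤ j → j < n → par' j = par j) : RespAt B θ T π m n par' ld z P := by
  intro b hb s δ hp u hu
  have hp' : ld.Plan par m n z s δ := by
    refine ⟨hp.1, fun j hj hj' => ?_⟩
    obtain ⟨e1, e2, -⟩ := towerA_congr ld (he j hj hj') z
    rw [← e1, ← e2]
    exact hp.2 j hj hj'
  obtain ⟨κ, h1, h2, h3, h4, h5⟩ := h b hb s δ hp' u hu
  refine ⟨κ, h1, h2, h3, fun j hj hj' => ?_, h5⟩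
  rw [(towerA_congr ld (he j hj hj') z).2.2]
  exact h4 j hj hj'

/-- Plan: normalise the lower part of the plan by `s k` (if `s k = 0` use the plan that is `0`
below `k`), respond in the lower tower, then in the upper one. -/
theorem RespAt.comp {θ : ℝ} {π1 : T.E →L[ℝ] M.E} {π2 : M.E →L[ℝ] B.E} {m k n : ℕ}
    {par : ℕ → Par} {up : LD T.E} {lo : LD M.E} {z : T.E} {P1 : ℝ → M.E → T.E → Prop}
    {P2 : ℝ → B.E → M.E → Prop} (h1 : RespAt M 1 T π1 k n par up z P1)
    (h2 : RespAt B θ M π2 m k par lo (π1 z) P2) (hmk : m ≤ k) (hkn : k ≤ n)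
    (hg : ∀ j, m ≤ j → j < n → (par j).Good) (hs : ∀ j b, ContDiff ℝ 2 (lo.T j b)) :
    RespAt B θ T (π2.comp π1) m n par (LD.comp k up lo π1) z
      (fun _ u κ => ∃ (σ1 σ2 : ℝ) (κ1 : M.E), 0 ≤ σ1 ∧ σ1 ≤ 1 ∧ κ1 ∈ M.K (π1 z) ∧
        π1 κ = σ1 • κ1 ∧ P1 σ1 κ1 κ ∧ P2 σ2 u κ1) := by
  intro b hb s δ hp u hu
  have hsk := act_mem (α := fun j => (LD.comp k up lo π1).aS par j z) hp.1
    (fun j hj hj' => ⟨((LD.comp k up lo π1).aS_mem (hg j hj hj') z).1, (hp.2 j hj hj').1,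
      (hp.2 j hj hj').2.1⟩) hmk hkn
  obtain ⟨s', δ', e1, e2, e3, e4⟩ := towerA_norm (m := m) (k := k) (s := s) (δ := δ)
    (aS := fun j => lo.aS par j (π1 z)) (aR := fun j => lo.aR par j (π1 z)) hsk.1
    (fun j hj hj' => ⟨(lo.aS_mem (hg j hj (by omega)) _).1, (lo.aS_mem (hg j hj (by omega)) _).2,
      (lo.aR_mem (hg j hj (by omega)) _).1⟩)
    (fun j hj hj' => by
      have := hp.2 j hj (by omega)
      rwa [towerA_aS_lt up lo π1 hj', towerA_aR_lt up lo π1 hj'] at this)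
  obtain ⟨κ1, a1, a2, -, a4, a5⟩ := h2 b
    (fun j hj hj' => (towerA_valid_lt up lo π1 hj' _ _).1 (hb j hj (by omega))) s' δ' ⟨e1, e2⟩ u hu
  obtain ⟨κ, c1, c2, c3, c4, c5⟩ := h1 b
    (fun j hj hj' => (towerA_valid_ge up lo π1 hj _ _).1 (hb j (by omega) hj')) s δ
    ⟨hp.1, fun j hj hj' => by
      have := hp.2 j (by omega) hj'
      rwa [towerA_aS_ge up lo π1 hj, towerA_aR_ge up lo π1 hj] at this⟩ κ1 a1
  rw [div_one] at c2
  refine ⟨κ, c1, ?_, c3, fun j hj hj' => ?_, s k, s' m, κ1, hsk.1, hsk.2, a1, c2, c5, a5⟩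
  · change π2 (π1 κ) = _
    rw [c2, map_smul, a2, smul_smul, e3 m le_rfl hmk, mul_div_assoc]
  · rcases lt_or_ge j k with hjk | hjk
    · obtain ⟨f1, f2⟩ := a4 j hj hjk
      rw [towerA_fderiv_lt up lo π1 hjk _ (hs _ _), towerA_Dj_lt up lo π1 hjk,
        towerA_er_lt up lo π1 hjk, c2, map_smul, map_smul, smul_eq_mul, smul_eq_mul,
        e4 j hj hjk, e3 (j + 1) (by omega) (by omega)]
      have g1 := mul_le_mul_of_nonneg_left f1 hsk.1
      have g2 := mul_le_mul_of_nonneg_left f2 hsk.1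
      exact ⟨g1, by linarith⟩
    · rw [towerA_T_ge up lo π1 hjk, towerA_Dj_ge up lo π1 hjk, towerA_er_ge up lo π1 hjk]
      exact c4 j hjk hj'

/-- every velocity of a tower projects to a multiple of a base velocity -/
theorem towerA_proj {θ slk : ℝ} {π : T.E →L[ℝ] B.E} {m n : ℕ} {par : ℕ → Par} {ld : LD T.E}
    (h : Tower B θ T π m n par ld slk) {z : T.E} {κ : T.E} {s : ℕ → ℝ} (hn : s n = 1)
    (hs : ∀ j, m ≤ j → j < n → 0 ≤ s j ∧ s j ≤ (1 - ld.aS par j z) * s (j + 1) ∧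
      -(ld.aS par j z * s (j + 1)) ≤ ld.Dj j κ ∧
      ∀ b, ld.valid j b z → ld.Dj j κ + fderiv ℝ (ld.T j b) z κ ≤
        ld.aR par j z * (s (j + 1) - s j) + ld.er par j z * s (j + 1)) :
    0 ≤ s m ∧ s m ≤ 1 :=
  act_mem (α := fun j => ld.aS par j z) hn
    (fun j hj hj' => ⟨(ld.aS_mem (h.pgood j hj hj') z).1, (hs j hj hj').1, (hs j hj hj').2.1⟩)
    le_rfl h.le

theorem towerA_lead {θ s1 s2 : ℝ} {π1 : T.E →L[ℝ] M.E} {π2 : M.E →L[ℝ] B.E} {m k n : ℕ}
    {par : ℕ → Par} {up : LD T.E} {lo : LD M.E} (h1 : Tower M 1 T π1 k n par up s1)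
    (h2 : Tower B θ M π2 m k par lo s2) (z : T.E) (hz : z ∈ T.Om) (κ : T.E) (hκ : κ ∈ T.K z) :
    ∃ s : ℕ → ℝ, s n = 1 ∧
    (∃ u ∈ B.K ((π2.comp π1) z), (π2.comp π1) κ = (s m / θ) • u) ∧
    ∀ j, m ≤ j → j < n → 0 ≤ s j ∧ s j ≤ (1 - (LD.comp k up lo π1).aS par j z) * s (j + 1) ∧
      -((LD.comp k up lo π1).aS par j z * s (j + 1)) ≤ (LD.comp k up lo π1).Dj j κ ∧
      ∀ b, (LD.comp k up lo π1).valid j b z →
        (LD.comp k up lo π1).Dj j κ + fderiv ℝ ((LD.comp k up lo π1).T j b) z κ ≤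
        (LD.comp k up lo π1).aR par j z * (s (j + 1) - s j) +
          (LD.comp k up lo π1).er par j z * s (j + 1) := by
  obtain ⟨s, a1, ⟨u1, a2, a3⟩, a4⟩ := h1.lead z hz κ hκ
  obtain ⟨s', c1, ⟨u, c2, c3⟩, c4⟩ := h2.lead _ (h1.mapsTo z hz) u1 a2
  have hsk := (towerA_proj h1 a1 a4).1
  rw [div_one] at a3
  have hlo : ∀ j, j ≤ k → (if j < k then s k * s' j else s j) = s k * s' j := by
    intro j hj
    rcases hj.eq_or_lt with rfl | hj'
    · rw [if_neg (lt_irrefl _), c1, mul_one]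
    · exact if_pos hj'
  have hup : ∀ j, k ≤ j → (if j < k then s k * s' j else s j) = s j :=
    fun j hj => if_neg (not_lt.2 hj)
  refine ⟨fun j => if j < k then s k * s' j else s j, (hup n h1.le).trans a1, ⟨u, c2, ?_⟩,
    fun j hj hj' => ?_⟩
  · change π2 (π1 κ) = ((if m < k then s k * s' m else s m) / θ) • u
    rw [hlo m h2.le, a3, map_smul, c3, smul_smul, mul_div_assoc]
  · rcases lt_or_ge j k with hjk | hjk
    · obtain ⟨f1, f2, f3, f4⟩ := c4 j hj hjk
      simp only [hlo j hjk.le, hlo (j + 1) hjk]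
      rw [towerA_aS_lt up lo π1 hjk, towerA_aR_lt up lo π1 hjk, towerA_er_lt up lo π1 hjk,
        towerA_Dj_lt up lo π1 hjk, a3, map_smul, smul_eq_mul]
      have g2 := mul_le_mul_of_nonneg_left f2 hsk
      have g3 := mul_le_mul_of_nonneg_left f3 hsk
      refine ⟨mul_nonneg hsk f1, by linarith, by linarith, fun b hb => ?_⟩
      have g4 := mul_le_mul_of_nonneg_left (f4 b ((towerA_valid_lt up lo π1 hjk _ _).1 hb)) hsk
      rw [towerA_fderiv_lt up lo π1 hjk _ (h2.smooth _ _), a3, map_smul, smul_eq_mul]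
      linarith
    · obtain ⟨f1, f2, f3, f4⟩ := a4 j hjk hj'
      simp only [hup j hjk, hup (j + 1) (by omega)]
      rw [towerA_aS_ge up lo π1 hjk, towerA_aR_ge up lo π1 hjk, towerA_er_ge up lo π1 hjk,
        towerA_Dj_ge up lo π1 hjk]
      refine ⟨f1, f2, f3, fun b hb => ?_⟩
      rw [towerA_T_ge up lo π1 hjk]
      exact f4 b ((towerA_valid_ge up lo π1 hjk _ _).1 hb)

theorem Tower.comp {θ s1 s2 : ℝ} {π1 : T.E →L[ℝ] M.E} {π2 : M.E →L[ℝ] B.E} {m k n : ℕ}
    {par : ℕ → Par} {up : LD T.E} {lo : LD M.E} (h1 : Tower M 1 T π1 k n par up s1)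
    (h2 : Tower B θ M π2 m k par lo s2) :
    Tower B θ T (π2.comp π1) m n par (LD.comp k up lo π1) (s1 + s2) := by
  have hg : ∀ j, m ≤ j → j < n → (par j).Good := fun j hj hj' => by
    rcases lt_or_ge j k with hjk | hjk
    · exact h2.pgood j hj hjk
    · exact h1.pgood j hjk hj'
  have hH1 := h1.H_le
  have hH2 := h2.H_le
  have hs1 := h1.slk_nonneg
  have hs2 := h2.slk_nonneg
  refine
    { pos := h2.pos
      le := h2.le.trans h1.le
      slk_nonneg := add_nonneg hs1 hs2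
      norm_le := fun z => (h2.norm_le (π1 z)).trans (h1.norm_le z)
      surj := h2.surj.comp h1.surj
      map_one := ?_
      map_z0 := ?_
      mapsTo := fun z hz => h2.mapsTo _ (h1.mapsTo z hz)
      H_le := by linarith
      pgood := hg
      lev_H := fun j hj hj' => ?_
      smooth := fun j b => ?_
      r_pos := fun j => ?_
      D_bd := fun z hz j hj hj' => ?_
      T_bd := fun z hz j hj hj' b => ?_
      dom := fun z hz => ?_
      dom1 := fun z hz j hj hj' => ?_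
      dom2 := fun z hz j hj hj' => ?_
      vel := fun z hz κ hκ => ?_
      quiet := fun z hz j hj hj' hV κ hκ b => ?_
      lead := towerA_lead h1 h2
      resp := fun z hz => ?_ }
  · change π2 (π1 T.one) = _
    rw [h1.map_one, inv_one, one_smul, h2.map_one]
  · change π2 (π1 T.z0) = _
    rw [h1.map_z0, h2.map_z0]
  · rcases lt_or_ge j k with hjk | hjk
    · obtain ⟨a1, a2⟩ := h2.lev_H j hj hjk
      exact ⟨a1, by linarith⟩
    · obtain ⟨a1, a2⟩ := h1.lev_H j hjk hj'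
      exact ⟨by linarith, a2⟩
  · rcases lt_or_ge j k with hjk | hjk
    · rw [towerA_T_lt up lo π1 hjk]
      exact (h2.smooth j b).comp π1.contDiff
    · rw [towerA_T_ge up lo π1 hjk]
      exact h1.smooth j b
  · rcases lt_or_ge j k with hjk | hjk
    · rw [towerA_r_lt up lo π1 hjk]
      exact h2.r_pos j
    · rw [towerA_r_ge up lo π1 hjk]
      exact h1.r_pos j
  · rcases lt_or_ge j k with hjk | hjk
    · rw [towerA_Dj_lt up lo π1 hjk]
      exact h2.D_bd _ (h1.mapsTo z hz) j hj hjk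
    · rw [towerA_Dj_ge up lo π1 hjk]
      exact h1.D_bd z hz j hjk hj'
  · rcases lt_or_ge j k with hjk | hjk
    · rw [towerA_T_lt up lo π1 hjk]
      exact h2.T_bd _ (h1.mapsTo z hz) j hj hjk b
    · rw [towerA_T_ge up lo π1 hjk]
      exact h1.T_bd z hz j hjk hj' b
  · have a1 := h1.dom z hz
    have a2 := h2.dom _ (h1.mapsTo z hz)
    change T.V z ≤ θ * B.V (π2 (π1 z)) + (s1 + s2)
    linarith
  · rcases lt_or_ge j k with hjk | hjk
    · rw [towerA_Vj_lt up lo π1 hjk]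
      have a1 := h1.dom z hz
      have a2 := h2.dom1 _ (h1.mapsTo z hz) j hj hjk
      linarith
    · rw [towerA_Vj_ge up lo π1 hjk]
      have a1 := h1.dom1 z hz j hjk hj'
      linarith
  · change _ ≤ θ * B.V (π2 (π1 z)) + (s1 + s2)
    rcases lt_or_ge j k with hjk | hjk
    · rw [towerA_Vj_lt up lo π1 hjk]
      have a2 := h2.dom2 _ (h1.mapsTo z hz) j hj hjk
      linarith
    · rw [towerA_Vj_ge up lo π1 hjk]
      have a1 := h1.dom2 z hz j hjk hj'
      have a2 := h2.dom _ (h1.mapsTo z hz)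
      linarith
  · obtain ⟨s, a1, ⟨u1, a2, a3⟩, a4⟩ := h1.lead z hz κ hκ
    have hsk := (towerA_proj h1 a1 a4).1
    rw [div_one] at a3
    have b1 := h1.vel z hz κ hκ
    have b2 := mul_le_mul_of_nonneg_left (h2.vel _ (h1.mapsTo z hz) u1 a2) hsk
    change T.V κ ≤ θ * B.V (π2 (π1 κ))
    rw [a3, map_smul, smul_eq_mul] at b1
    rw [a3, map_smul, map_smul, smul_eq_mul]
    linarith
  · rcases lt_or_ge j k with hjk | hjk
    · obtain ⟨s, -, ⟨u1, a2, a3⟩, -⟩ := h1.lead z hz κ hκ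
      rw [towerA_Vj_lt up lo π1 hjk] at hV
      rw [towerA_fderiv_lt up lo π1 hjk _ (h2.smooth _ _), a3, map_smul,
        h2.quiet _ (h1.mapsTo z hz) j hj hjk hV u1 a2 b, smul_zero]
    · rw [towerA_Vj_ge up lo π1 hjk] at hV
      rw [towerA_T_ge up lo π1 hjk]
      exact h1.quiet z hz j hjk hj' hV κ hκ b
  · exact (RespAt.comp (h1.resp z hz) (h2.resp _ (h1.mapsTo z hz)) h2.le h1.le hg h2.smooth).mono
      (h2.le.trans h1.le) hg (fun _ _ _ _ _ _ _ _ _ _ => trivial)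

theorem Tower.congr_par {θ slk : ℝ} {π : T.E →L[ℝ] B.E} {m n : ℕ} {par par' : ℕ → Par}
    {ld : LD T.E} (h : Tower B θ T π m n par ld slk) (he : ∀ j, m ≤ j → j < n → par' j = par j) :
    Tower B θ T π m n par' ld slk := by
  refine
    { h with
      pgood := fun j hj hj' => ?_
      lev_H := fun j hj hj' => ?_
      D_bd := fun z hz j hj hj' => ?_
      T_bd := fun z hz j hj hj' => ?_
      quiet := fun z hz j hj hj' => ?_
      lead := fun z hz κ hκ => ?_
      resp := fun z hz => (h.resp z hz).congr_par he }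
  · rw [he j hj hj']
    exact h.pgood j hj hj'
  · rw [he j hj hj']
    exact h.lev_H j hj hj'
  · rw [he j hj hj']
    exact h.D_bd z hz j hj hj'
  · rw [he j hj hj']
    exact h.T_bd z hz j hj hj'
  · rw [he j hj hj']
    exact h.quiet z hz j hj hj'
  · obtain ⟨s, a1, a2, a3⟩ := h.lead z hz κ hκ
    refine ⟨s, a1, a2, fun j hj hj' => ?_⟩
    obtain ⟨e1, e2, e3⟩ := towerA_congr ld (he j hj hj') z
    rw [e1, e2, e3]
    exact a3 j hj hj'

theorem Tower.slk_mono {θ slk slk' : ℝ} {π : T.E →L[ℝ] B.E} {m n : ℕ} {par : ℕ → Par}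
    {ld : LD T.E} (h : Tower B θ T π m n par ld slk) (hs : slk ≤ slk') :
    Tower B θ T π m n par ld slk' :=
  { h with
    slk_nonneg := h.slk_nonneg.trans hs
    dom := fun z hz => (h.dom z hz).trans (by linarith)
    dom1 := fun z hz j hj hj' => (h.dom1 z hz j hj hj').trans (by linarith)
    dom2 := fun z hz j hj hj' => (h.dom2 z hz j hj hj').trans (by linarith) }

theorem Block.congr_par {l l' : ℕ} {β H0 : ℝ} {π : T.E →L[ℝ] B.E} {par par' : ℕ → Par}
    (h : Block B l β H0 T π l' par) (he : ∀ j, l ≤ j → j < l' → par' j = par j) :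
    Block B l β H0 T π l' par' := by
  obtain ⟨ld, hld⟩ := h.tower
  refine ⟨h.lt, h.good, h.ctr, ⟨ld, hld.congr_par he⟩, ?_, ?_, fun j hj hj' => ?_⟩
  · refine le_of_eq_of_le (Finset.sum_congr rfl fun j hj => ?_) h.wsum
    rw [Finset.mem_Ico] at hj
    rw [he j hj.1 hj.2]
  · rw [he l le_rfl h.lt]
    exact h.H0_le
  · rw [he j hj (by omega), he (j + 1) (by omega) hj']
    exact h.growth j hj hj'

end Pool.Agent.MP703675
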