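import Pool.Agent.Lib.MP_703675_gt.LayerA
import Pool.Agent.Lib.MP_703675_gt.TowerA

set_option autoImplicit false

open Set Metric Filter Topology TopologicalSpace

noncomputable section

namespace Pool.Agent.MP703675

variable {L : Sys} {q : Par} {σ : Site L}

theorem layerC_rab (hq : q.Good) (v : ℝ) : 1 ≤ q.ra v + q.rb v := by
  have h1 : 0 ≤ q.ra v := cl01_nonneg _
  have h2 : 0 ≤ q.rb v := cl01_nonneg _
  rcases le_total v (2 * q.H) with h | h
  · have h3 : q.rb v = 1 := cl01_one (by rw [one_le_div hq.H_pos]; linarith)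
    linarith
  · have h3 : q.ra v = 1 := cl01_one (by rw [one_le_div hq.H_pos]; linarith)
    linarith

theorem layerC_rb (hq : q.Good) {v : ℝ} (h : v ≤ q.H) : q.rb v = 1 :=
  cl01_one (by rw [one_le_div hq.H_pos]; linarith [hq.H_pos])

theorem layerC_fderiv (hσ : σ.Good q) (j : ℕ) (b : Bool) (x κ : (layer L q σ).E) :
    fderiv ℝ ((layerLD L q σ).T j b) x κ = fderiv ℝ (σ.T b) x.1 κ.1 := by
  have h1 : HasFDerivAt (σ.T b) (fderiv ℝ (σ.T b) x.1) x.1 :=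
    ((hσ.T_smooth b).differentiable (by norm_num) x.1).hasFDerivAt
  have h2 : HasFDerivAt (fun z : (L.E × ℝ) × (ℝ × ℝ) => σ.T b z.1)
      ((fderiv ℝ (σ.T b) x.1).comp (ContinuousLinearMap.fst ℝ (L.E × ℝ) (ℝ × ℝ))) x :=
    h1.comp x hasFDerivAt_fst
  have h3 := h2.fderiv
  exact (DFunLike.congr_fun h3 κ).trans rfl

theorem layerC_split (F : (L.E × ℝ) →L[ℝ] ℝ) (s' f a b p m : ℝ) (u : L.E) :
    F (s' • u, f * s' + p * a - m * b) = s' * F (u, f) + a * F (0, p) + b * F (0, -m) := by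
  have e : ((s' • u, f * s' + p * a - m * b) : L.E × ℝ) =
      s' • ((u, f) : L.E × ℝ) + a • (((0 : L.E), p) : L.E × ℝ) +
        b • (((0 : L.E), -m) : L.E × ℝ) := by
    refine Prod.ext ?_ ?_
    · simp
    · simp only [Prod.smul_mk, Prod.mk_add_mk, smul_eq_mul]
      ring
  rw [e, map_add, map_add, map_smul, map_smul, map_smul]
  rfl

theorem layerC_split' (F : (L.E × ℝ) →L[ℝ] ℝ) (s' f a p : ℝ) (u : L.E) :
    F (s' • u, f * s' + p * a) = s' * F (u, f) + a * F (0, p) := by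
  have h := layerC_split F s' f a 0 p 0 u
  rw [mul_zero, sub_zero, zero_mul, add_zero] at h
  exact h

theorem layerC_al_one (hq : q.Good) (hσ : σ.Good q) {x : (layer L q σ).E}
    (hx : x ∈ (layer L q σ).Om) (h : 0 < σ.th x.1) : q.al x.2.1 = 1 := by
  obtain ⟨h1, -, h3, -⟩ := hx
  have h4 := hσ.th_act x.1 h1 h
  exact hq.al_one (by linarith [hq.c_le, hq.H_pos])

theorem layerC_stall (hq : q.Good) (hσ : σ.Good q) {x : (layer L q σ).E}
    (hx : x ∈ (layer L q σ).Om) (h : σ.th x.1 = q.k0) : q.al x.2.1 * q.S x.2.2 = 1 := by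
  have h1 := layerC_al_one hq hσ hx (by rw [h]; exact hq.k0_pos)
  have h2 : σ.th x.1 - x.2.2 < q.lam := hx.2.2.2.2.2.2.2
  rw [h1, hq.S_one (by linarith), mul_one]

/-- the lower activity times a rate bounded off the top value of `th` -/
theorem layerC_rate (hq : q.Good) (hσ : σ.Good q) {x : (layer L q σ).E}
    (hx : x ∈ (layer L q σ).Om) {s s' A : ℝ} (h0 : 0 ≤ s')
    (h1 : s' ≤ (1 - q.al x.2.1 * q.S x.2.2) * s) (hA : σ.th x.1 < q.k0 → A ≤ q.eta / 8) :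
    s' * A ≤ s' * (q.eta / 8) := by
  rcases (hσ.th_bd x.1).2.eq_or_lt with h | h
  · rw [layerC_stall hq hσ hx h, sub_self, zero_mul] at h1
    rw [le_antisymm h1 h0, zero_mul, zero_mul]
  · exact mul_le_mul_of_nonneg_left (hA h) h0

theorem layerC_th_zero (hσ : σ.Good q) {w : L.E × ℝ} (h : σ.th w = 0) : fderiv ℝ σ.th w = 0 := by
  refine IsLocalMin.fderiv_eq_zero (Filter.Eventually.of_forall fun y => ?_)
  rw [h]
  exact (hσ.th_bd y).1

/-- above the threshold the push potentials do not move with the base -/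
theorem layerC_far (hL : L.Good) (hq : q.Good) (hσ : σ.Good q) (hH : 64 * L.H ≤ q.H)
    {x : (layer L q σ).E} (hx : x ∈ (layer L q σ).Om) (hv : q.H < x.2.1) {u : L.E}
    (hu : u ∈ L.K x.1.1) (b : Bool) :
    σ.th x.1 = 0 ∧ fderiv ℝ (σ.T b) x.1 (u, σ.fo x.1) = 0 := by
  obtain ⟨h1, h2, h3, -⟩ := hx
  have h4 := hq.c_le
  have h5 := hq.H_pos
  constructor
  · rcases (hσ.th_bd x.1).1.eq_or_lt with h | h
    · exact h.symm
    · have h6 := hσ.th_act x.1 h1 h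
      linarith
  · have h6 : 3 * L.H ≤ L.V x.1.1 := by linarith
    obtain ⟨c, -, rfl⟩ := (hL.farLaw x.1.1 h1 h6 u).1 hu
    rw [hσ.fo_act x.1 h1 (by linarith)]
    have e : ((c • L.one, (0 : ℝ)) : L.E × ℝ) = c • ((L.one, (0 : ℝ)) : L.E × ℝ) := by simp
    rw [e, map_smul, hσ.far_T x.1 h2 h1 h6 b, smul_zero]

/-- the choice of the controls below the threshold -/
theorem layerC_arith {s' δ al S rho eta M X X' B B' : ℝ} {P : Prop} (h0 : 0 ≤ s')
    (h1 : s' ≤ 1 - al * S) (h2 : -(al * S) ≤ δ) (h3 : δ ≤ al * rho * (1 - s'))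
    (hal : 0 ≤ al ∧ al ≤ 1) (hS : 0 ≤ S ∧ S ≤ 1) (hr : 0 ≤ rho ∧ rho ≤ 1) (he : 0 < eta)
    (he' : eta ≤ 1 / 100) (hM : 0 ≤ M) (hX : X ≤ s' * (eta / 8)) (hX' : X' ≤ s' * (eta / 8))
    (hc : 2 ≤ M ∨ (X = 0 ∧ S ≤ 3 / 4 * eta) ∨
      (P ∧ al = 1 ∧ 1 - eta / 4 ≤ rho ∧ B ≤ 0 ∧ B' ≤ -1)) :
    ∃ up pay amt : ℝ, 0 ≤ up ∧ 0 ≤ pay ∧ 0 ≤ amt ∧ amt ≤ 1 ∧ (0 < amt → P) ∧
      up + amt ≤ al * rho * (1 - s' + eta * 1 / 4) ∧ pay ≤ al * S ∧
      X + amt * B - (up - pay) ≤ M ∧ δ ≤ up - pay ∧ up - pay + (X' + amt * B') ≤ δ + eta := by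
  have a1 : 0 ≤ al * S := mul_nonneg hal.1 hS.1
  have a2 : al * S ≤ S := mul_le_of_le_one_left hS.1 hal.2
  have a3 : 0 ≤ al * rho := mul_nonneg hal.1 hr.1
  have a4 : s' ≤ 1 := by linarith
  have a5 : 0 ≤ al * rho * (1 - s') := mul_nonneg a3 (by linarith)
  have a6 : 0 ≤ al * rho * (eta * 1 / 4) := mul_nonneg a3 (by linarith)
  have a7 : s' * (eta / 8) ≤ eta / 8 := mul_le_of_le_one_left (by linarith) a4
  have a8 : 0 ≤ s' * (eta / 8) := mul_nonneg h0 (by linarith)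
  have a9 : al * rho * (1 - s' + eta * 1 / 4) =
      al * rho * (1 - s') + al * rho * (eta * 1 / 4) := by ring
  rw [a9]
  rcases hc with hc | ⟨c1, c2⟩ | ⟨c1, c2, c3, c4, c5⟩
  · rcases le_total 0 δ with hd | hd
    · exact ⟨δ, 0, 0, hd, le_rfl, le_rfl, zero_le_one, fun h => absurd h (lt_irrefl _),
        by linarith, a1, by linarith, by linarith, by linarith⟩
    · exact ⟨0, -δ, 0, le_rfl, by linarith, le_rfl, zero_le_one, fun h => absurd h (lt_irrefl _),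
        by linarith, by linarith, by linarith [hS.2], by linarith, by linarith⟩
  · rcases le_total 0 δ with hd | hd
    · exact ⟨δ, 0, 0, hd, le_rfl, le_rfl, zero_le_one, fun h => absurd h (lt_irrefl _),
        by linarith, a1, by linarith, by linarith, by linarith⟩
    · exact ⟨0, 0, 0, le_rfl, le_rfl, le_rfl, zero_le_one, fun h => absurd h (lt_irrefl _),
        by linarith, a1, by linarith, by linarith, by linarith⟩
  · subst c2
    have b1 : 1 / 2 * (eta * 1 / 4) ≤ rho * (eta * 1 / 4) :=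
      mul_le_mul_of_nonneg_right (by linarith) (by linarith)
    rcases le_total 0 δ with hd | hd
    · exact ⟨δ + s' * (eta / 8), 0, 0, by linarith, le_rfl, le_rfl, zero_le_one,
        fun h => absurd h (lt_irrefl _), by linarith, a1, by linarith, by linarith, by linarith⟩
    · have b2 : 0 ≤ rho * -δ := mul_nonneg hr.1 (by linarith)
      have b3 : rho * -δ ≤ -δ := mul_le_of_le_one_left (by linarith) hr.2
      have b4 : rho * -δ ≤ rho * (1 - s') := mul_le_mul_of_nonneg_left (by linarith) hr.1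
      have b5 : rho * -δ * B ≤ 0 := mul_nonpos_of_nonneg_of_nonpos b2 c4
      have b6 : rho * -δ * B' ≤ rho * -δ * -1 := mul_le_mul_of_nonneg_left c5 b2
      have b7 : (1 - rho) * -δ ≤ eta / 4 * 1 :=
        mul_le_mul (by linarith) (by linarith [hS.2]) (by linarith) (by linarith)
      exact ⟨s' * (eta / 8), 0, rho * -δ, a8, le_rfl, b2, by linarith [hS.2], fun _ => c1,
        by linarith, a1, by linarith, by linarith, by linarith⟩

/-- the choice of the controls -/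
theorem layerC_ctrl (hL : L.Good) (hq : q.Good) (hσ : σ.Good q) (hH : 64 * L.H ≤ q.H)
    {x : (layer L q σ).E} (hx : x ∈ (layer L q σ).Om) {b : Bool} (hb : σ.valid b x.1)
    {s' δ : ℝ} (h0 : 0 ≤ s') (h1 : s' ≤ (1 - q.al x.2.1 * q.S x.2.2) * 1)
    (h2 : -(q.al x.2.1 * q.S x.2.2 * 1) ≤ δ) (h3 : δ ≤ q.al x.2.1 * q.rho x.2.2 * (1 - s'))
    {u : L.E} (hu : u ∈ L.K x.1.1) :
    ∃ up pay amt : ℝ, 0 ≤ up ∧ 0 ≤ pay ∧ 0 ≤ amt ∧ amt ≤ 1 ∧ (0 < amt → 0 < σ.th x.1) ∧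
      up + amt ≤ q.al x.2.1 * q.rho x.2.2 * (1 - s' + q.eta * 1 / 4) ∧
      pay ≤ q.al x.2.1 * q.S x.2.2 ∧
      s' * fderiv ℝ σ.th x.1 (u, σ.fo x.1) + amt * fderiv ℝ σ.th x.1 (0, σ.psh b x.1) -
        (up - pay) ≤ max (x.2.2 - σ.th x.1) 0 / q.lam + q.lam / (2 * q.H) ∧ δ ≤ up - pay ∧
      up - pay + (s' * fderiv ℝ (σ.T b) x.1 (u, σ.fo x.1) +
        amt * fderiv ℝ (σ.T b) x.1 (0, σ.psh b x.1)) ≤ δ + q.eta * q.ind x.2.1 := by
  have m1 : 0 ≤ max (x.2.2 - σ.th x.1) 0 / q.lam := div_nonneg (le_max_right _ _) hq.lam_pos.le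
  have m2 : 0 ≤ q.lam / (2 * q.H) := div_nonneg hq.lam_pos.le (by linarith [hq.H_pos])
  by_cases hv : x.2.1 ≤ q.H
  · have e : q.ind x.2.1 = 1 := if_pos hv
    rw [e, mul_one q.eta]
    have r1 := layerC_rate hq hσ hx h0 h1 fun h => hσ.rate_th x.1 hx.2.1 hx.1 h u hu
    have r2 := layerC_rate hq hσ hx h0 h1 fun h => hσ.rate_T x.1 hx.2.1 hx.1 h u hu b hb
    rw [mul_one] at h1 h2
    have key := layerC_arith (P := 0 < σ.th x.1) (B := fderiv ℝ σ.th x.1 (0, σ.psh b x.1))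
      (B' := fderiv ℝ (σ.T b) x.1 (0, σ.psh b x.1)) h0 h1 h2 h3 (q.al_mem _) (hq.S_mem _)
      (hq.rho_mem _) hq.eta_pos hq.eta_le (add_nonneg m1 m2) r1 r2 ?_
    · rw [mul_one q.eta] at key
      exact key
    rcases le_total (σ.th x.1 + 2 * q.lam) x.2.2 with h | h
    · left
      have m3 : 2 ≤ max (x.2.2 - σ.th x.1) 0 / q.lam := by
        rw [le_div_iff₀ hq.lam_pos]
        exact le_trans (by linarith) (le_max_left _ _)
      linarith
    · right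
      rcases (hσ.th_bd x.1).1.eq_or_lt with h4 | h4
      · left
        refine ⟨by rw [layerC_th_zero hσ h4.symm]; simp, ?_⟩
        have m3 : q.S x.2.2 ≤ 3 / 2 * q.p := lr_le_of_le_two hq.p_pos hq.lam_pos (by linarith)
        linarith [hq.two_p_le]
      · right
        have m3 := hσ.resp_push x.1 hx.2.1 hx.1 h4 b hb
        exact ⟨h4, layerC_al_one hq hσ hx h4, hq.rho_ge (by linarith [(hσ.th_bd x.1).2]), m3.2,
          m3.1⟩
  · have e : q.ind x.2.1 = 0 := if_neg hv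
    have hv' := not_le.1 hv
    have e2 : q.al x.2.1 = 0 := hq.al_zero (by linarith [hq.H_pos])
    obtain ⟨f1, f2⟩ := layerC_far hL hq hσ hH hx hv' hu b
    rw [e2] at h2 h3
    rw [e, e2, f2, layerC_th_zero hσ f1]
    refine ⟨0, 0, 0, le_rfl, le_rfl, le_rfl, zero_le_one, fun h => absurd h (lt_irrefl _),
      by simp, by simp, ?_, by linarith, by linarith⟩
    simp only [zero_apply]
    linarith

/-- Plan (top activity `1`, lower activity `s' = s n`, clock rate `max (-1) (V u - 2 rb)`):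
if `th + 2 lam ≤ Δ` take `up = max δ 0`, `pay = max (-δ) 0`;
otherwise if `th = 0` (then the derivative of `th` vanishes) take `up = max δ 0`, `pay = 0`
(use `lr_le_of_le_two`); otherwise `al = 1`, `rho ≥ 1 - eta / 4`, take `up = max δ 0 + eta s' / 8`,
`pay = 0` and push in the direction `b` with amount `rho * max (-δ) 0`.
If `th = k0` then `aS = 1` and the plan forces `s' = 0`. Above `H` everything is quiet. -/
theorem layer_resp_plus (hL : L.Good) (hq : q.Good) (hσ : σ.Good q) (hH : 64 * L.H ≤ q.H) (n : ℕ)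
    {x : (layer L q σ).E} (hx : x ∈ (layer L q σ).Om) :
    RespAt L 1 (layer L q σ) (layerPi L q σ) n (n + 1) (fun _ => q) (layerLD L q σ) x
      (fun s' u κ => κ.1.1 = s' • u ∧ (σ.th x.1 = q.k0 → s' = 0) ∧
        ∃ (b : Bool) (amt : ℝ), σ.valid b x.1 ∧ 0 ≤ amt ∧ amt ≤ 1 ∧ (0 < amt → 0 < σ.th x.1) ∧
          κ.1.2 = σ.fo x.1 * s' + σ.psh b x.1 * amt) := by
  intro b hb s δ hp u hu
  have hb' : σ.valid (b n) x.1 := hb n le_rfl (Nat.lt_succ_self n)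
  have hu' : u ∈ L.K x.1.1 := hu
  obtain ⟨e1, hp2⟩ := hp
  obtain ⟨h0, h1, h2, h3⟩ := hp2 n le_rfl (Nat.lt_succ_self n)
  rw [e1] at h1 h2 h3
  have h1' : s n ≤ (1 - q.al x.2.1 * q.S x.2.2) * 1 := h1
  have h2' : -(q.al x.2.1 * q.S x.2.2 * 1) ≤ δ n := h2
  have h3' : δ n ≤ q.al x.2.1 * q.rho x.2.2 * (1 - s n) := h3
  obtain ⟨up, pay, amt, c1, c2, c3, c4, c5, c6, c7, c8, c9, c10⟩ :=
    layerC_ctrl hL hq hσ hH hx hb' h0 h1' h2' h3' hu'
  have a1 : 0 ≤ q.al x.2.1 * q.S x.2.2 := mul_nonneg (q.al_mem _).1 (hq.S_mem _).1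
  have a2 : s n ≤ 1 := by linarith
  have a3 : |L.V (s n • u)| ≤ 1 := by
    rw [map_smul, smul_eq_mul, abs_mul, abs_of_nonneg h0]
    exact mul_le_one₀ a2 (abs_nonneg _) (hL.V_le _ _ hu')
  obtain ⟨a4, a5⟩ := abs_le.1 a3
  have a6 : 0 ≤ q.ra x.2.1 := cl01_nonneg _
  have a7 : 0 ≤ q.rb x.2.1 := cl01_nonneg _
  have a8 := layerC_rab hq x.2.1
  obtain ⟨a, a', d1, d2, d3, d4⟩ : ∃ a a' : ℝ, 0 ≤ a ∧ 0 ≤ a' ∧ a + a' = amt ∧
      σ.fo x.1 * s n + σ.psh (b n) x.1 * amt =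
        σ.fo x.1 * s n + σ.spP x.1 * a - σ.spM x.1 * a' := by
    cases b n
    · refine ⟨0, amt, le_rfl, c3, zero_add _, ?_⟩
      simp only [Site.psh, Bool.false_eq_true, if_false]
      ring
    · refine ⟨amt, 0, c3, le_rfl, add_zero _, ?_⟩
      simp only [Site.psh, if_true]
      ring
  refine ⟨((s n • u, σ.fo x.1 * s n + σ.psh (b n) x.1 * amt),
    (max (-1) (L.V (s n • u) - 2 * q.rb x.2.1), up - pay)), ?_, ?_, ?_, ?_, rfl, ?_, b n, amt, hb',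
    c3, c4, c5, rfl⟩
  · refine ⟨1, s n, up, pay, a, a', u, hu', zero_le_one, le_rfl, h0, h1', c1, d1, d2, by linarith,
      c2, by linarith, rfl, d4, rfl, le_max_left _ _, max_le ?_ ?_, max_le ?_ ?_, ?_, ?_⟩
    · linarith
    · linarith
    · exact a4
    · show L.V (s n • u) - 2 * q.rb x.2.1 ≤ L.V (s n • u)
      linarith
    · show L.V (s n • u) - max (-1) (L.V (s n • u) - 2 * q.rb x.2.1) ≤ 2 * q.rb x.2.1 * 1
      linarith [le_max_right (-1) (L.V (s n • u) - 2 * q.rb x.2.1)]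
    · show fderiv ℝ σ.th x.1 (s n • u, σ.fo x.1 * s n + σ.psh (b n) x.1 * amt) - (up - pay) ≤ _
      rw [layerC_split', mul_one]
      exact c8
  · rw [div_one]
    rfl
  · intro hv
    have hv' : x.2.1 ≤ q.H := hv
    show max (-1) (L.V (s n • u) - 2 * q.rb x.2.1) = -1
    rw [layerC_rb hq hv']
    exact max_eq_left (by linarith)
  · intro j hj hj'
    obtain rfl : j = n := le_antisymm (Nat.lt_succ_iff.1 hj') hj
    refine ⟨c9, ?_⟩
    rw [layerC_fderiv hσ, e1, mul_one]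
    show up - pay + fderiv ℝ (σ.T (b j)) x.1
      (s j • u, σ.fo x.1 * s j + σ.psh (b j) x.1 * amt) ≤ δ j + q.eta * q.ind x.2.1
    rw [layerC_split']
    exact c10
  · intro h
    rw [layerC_stall hq hσ hx h, sub_self, zero_mul] at h1'
    exact le_antisymm h1' h0

theorem layerC_quiet (hL : L.Good) (hq : q.Good) (hσ : σ.Good q) (hH : 64 * L.H ≤ q.H)
    {x : (layer L q σ).E} (hx : x ∈ (layer L q σ).Om) (hv : q.H < x.2.1) {κ : (layer L q σ).E}
    (hκ : κ ∈ layerK L q σ x) (b : Bool) : κ.2.2 = 0 ∧ fderiv ℝ (σ.T b) x.1 κ.1 = 0 := by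
  obtain ⟨s, s', up, pay, a, a', u, hu, -, -, -, -, k5, k6, k7, k8, k9, k10, k11, k12, k13, -⟩ := hκ
  have e2 : q.al x.2.1 = 0 := hq.al_zero (by linarith [hq.H_pos])
  rw [e2, zero_mul, zero_mul] at k8 k10
  have e3 : κ.1 = (s' • u, σ.fo x.1 * s' + σ.spP x.1 * a - σ.spM x.1 * a') := Prod.ext k11 k12
  have e4 : a = 0 := by linarith
  have e5 : a' = 0 := by linarith
  refine ⟨by linarith, ?_⟩
  rw [e3, layerC_split, (layerC_far hL hq hσ hH hx hv hu b).2, e4, e5]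
  ring

theorem layerC_lead (hL : L.Good) (hq : q.Good) (hσ : σ.Good q) (hH : 64 * L.H ≤ q.H)
    {x : (layer L q σ).E} (hx : x ∈ (layer L q σ).Om) {κ : (layer L q σ).E}
    (hκ : κ ∈ layerK L q σ x) : ∃ s' : ℝ, (∃ u ∈ L.K x.1.1, κ.1.1 = s' • u) ∧ 0 ≤ s' ∧
      s' ≤ (1 - q.al x.2.1 * q.S x.2.2) * 1 ∧ -(q.al x.2.1 * q.S x.2.2 * 1) ≤ κ.2.2 ∧
      ∀ b, σ.valid b x.1 → κ.2.2 + fderiv ℝ (σ.T b) x.1 κ.1 ≤
        q.al x.2.1 * q.rho x.2.2 * (1 - s') + q.eta * q.ind x.2.1 * 1 := by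
  have hκ' := hκ
  obtain ⟨s, s', up, pay, a, a', u, hu, k1, k2, k3, k4, k5, k6, k7, k8, k9, k10, k11, k12, k13, -⟩ :=
    hκ
  have a1 : 0 ≤ q.al x.2.1 * q.S x.2.2 := mul_nonneg (q.al_mem _).1 (hq.S_mem _).1
  have a2 : q.al x.2.1 * q.S x.2.2 ≤ 1 :=
    mul_le_one₀ (q.al_mem _).2 (hq.S_mem _).1 (hq.S_mem _).2
  have a3 : 0 ≤ q.al x.2.1 * q.rho x.2.2 := mul_nonneg (q.al_mem _).1 (hq.rho_mem _).1
  have a4 : q.al x.2.1 * q.rho x.2.2 ≤ 1 :=
    mul_le_one₀ (q.al_mem _).2 (hq.rho_mem _).1 (hq.rho_mem _).2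
  have a5 : (1 - q.al x.2.1 * q.S x.2.2) * s ≤ (1 - q.al x.2.1 * q.S x.2.2) * 1 :=
    mul_le_mul_of_nonneg_left k2 (by linarith)
  have a6 : q.al x.2.1 * q.S x.2.2 * s ≤ q.al x.2.1 * q.S x.2.2 * 1 :=
    mul_le_mul_of_nonneg_left k2 a1
  refine ⟨s', ⟨u, hu, k11⟩, k3, k4.trans a5, by linarith, fun b hb => ?_⟩
  by_cases hv : x.2.1 ≤ q.H
  · have e : q.ind x.2.1 = 1 := if_pos hv
    have e3 : κ.1 = (s' • u, σ.fo x.1 * s' + σ.spP x.1 * a - σ.spM x.1 * a') := Prod.ext k11 k12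
    have r2 := layerC_rate hq hσ hx k3 k4 fun h => hσ.rate_T x.1 hx.2.1 hx.1 h u hu b hb
    have p1 : fderiv ℝ (σ.T b) x.1 (0, σ.spP x.1) ≤ 1 := hσ.lead_push x.1 hx.2.1 hx.1 b hb true
    have p2 : fderiv ℝ (σ.T b) x.1 (0, -σ.spM x.1) ≤ 1 := hσ.lead_push x.1 hx.2.1 hx.1 b hb false
    have p3 := mul_le_mul_of_nonneg_left p1 k6
    have p4 := mul_le_mul_of_nonneg_left p2 k7
    have he := hq.eta_pos
    have a7 : s' ≤ 1 := by linarith
    have a8 : s' * (q.eta / 8) ≤ q.eta / 8 := mul_le_of_le_one_left (by linarith) a7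
    have a9 : q.eta * s ≤ q.eta := mul_le_of_le_one_right he.le k2
    have a10 : q.al x.2.1 * q.rho x.2.2 * (s - s' + q.eta * s / 4) ≤
        q.al x.2.1 * q.rho x.2.2 * (1 - s' + q.eta / 4) :=
      mul_le_mul_of_nonneg_left (by linarith) a3
    have a11 : q.al x.2.1 * q.rho x.2.2 * (q.eta / 4) ≤ q.eta / 4 :=
      mul_le_of_le_one_left (by linarith) a4
    rw [e, e3, layerC_split, k13]
    linarith
  · have e : q.ind x.2.1 = 0 := if_neg hv
    have hv' := not_le.1 hv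
    have e2 : q.al x.2.1 = 0 := hq.al_zero (by linarith [hq.H_pos])
    obtain ⟨f1, f2⟩ := layerC_quiet hL hq hσ hH hx hv' hκ' b
    rw [e, e2, f1, f2]
    linarith

theorem layer_tower (hL : L.Good) (hq : q.Good) (hσ : σ.Good q) (hH : 64 * L.H ≤ q.H) (n : ℕ) :
    Tower L 1 (layer L q σ) (layerPi L q σ) n (n + 1) (fun _ => q) (layerLD L q σ) q.c where
  pos := one_pos
  le := Nat.le_succ n
  slk_nonneg := hq.c_pos.le
  norm_le := fun z => (norm_fst_le z.1).trans (norm_fst_le z)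
  surj := fun z => ⟨((z, 0), (0, 0)), rfl⟩
  map_one := by
    rw [inv_one, one_smul]
    rfl
  map_z0 := rfl
  mapsTo := fun _ hz => hz.1
  H_le := by
    show 1 * L.H ≤ q.H
    linarith [hL.H_pos]
  pgood := fun _ _ _ => hq
  lev_H := fun _ _ _ => ⟨by linarith [hL.H_pos], le_rfl⟩
  smooth := fun _ b => (hσ.T_smooth b).comp contDiff_fst
  r_pos := fun _ => hσ.r_pos
  D_bd := fun _ hz _ _ _ => ⟨hz.2.2.2.2.2.1.le, hz.2.2.2.2.2.2.1.le⟩
  T_bd := fun z hz _ _ _ b => hσ.T_bd z.1 hz.2.1 hz.1 b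
  dom := fun z hz => by
    rw [one_mul]
    exact hz.2.2.1.le
  dom1 := fun _ _ _ _ _ => le_add_of_nonneg_right hq.c_pos.le
  dom2 := fun z hz _ _ _ => by
    rw [one_mul]
    exact hz.2.2.1.le
  vel := fun z _ κ hκ => by
    obtain ⟨s, s', up, pay, a, a', u, -, -, -, -, -, -, -, -, -, -, -, -, -, -, -, -, k, -⟩ := hκ
    rw [one_mul]
    exact k
  quiet := fun z hz j _ _ hv κ hκ b => by
    rw [layerC_fderiv hσ]
    exact (layerC_quiet hL hq hσ hH hz hv hκ b).2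
  lead := fun z hz κ hκ => by
    obtain ⟨s', ⟨u, hu, e⟩, h0, h1, h2, h3⟩ := layerC_lead hL hq hσ hH hz hκ
    obtain ⟨s, e1, e2⟩ : ∃ s : ℕ → ℝ, s (n + 1) = 1 ∧ s n = s' :=
      ⟨fun j => if j = n then s' else 1, if_neg (Nat.succ_ne_self n), if_pos rfl⟩
    refine ⟨s, e1, ⟨u, hu, ?_⟩, fun j hj hj' => ?_⟩
    · rw [e2, div_one]
      exact e
    · obtain rfl : j = n := le_antisymm (Nat.lt_succ_iff.1 hj') hj
      rw [e1, e2]
      refine ⟨h0, h1, h2, fun b hb => ?_⟩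
      rw [layerC_fderiv hσ]
      exact h3 b hb
  resp := fun z hz b hb s δ hp u hu => by
    obtain ⟨κ, h1, h2, h3, h4, -⟩ := layer_resp_plus hL hq hσ hH n hz b hb s δ hp u hu
    exact ⟨κ, h1, h2, h3, h4, trivial⟩

end Pool.Agent.MP703675
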