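import Pool.Agent.Lib.MP_703675_gt.LayerB
import Pool.Agent.Lib.MP_703675_gt.LayerC

set_option autoImplicit false

open Set Metric Filter Topology TopologicalSpace

noncomputable section

namespace Pool.Agent.MP703675

/-- the site without content -/
def chain_site (L : Sys) : Site L where
  th := fun _ => 0
  T := fun _ _ => 0
  fo := fun _ => 0
  spP := fun _ => 0
  spM := fun _ => 0
  O := {w | |w.2| < 1}
  y0 := 0
  r := 1

theorem chain_site_inv {L : Sys} (hL : L.Good) {q : Par} (Y : ℝ → L.E × ℝ) (a b : ℝ)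
    (h : (chain_site L).STraj q Y a b) : ∀ s ∈ Icc a b, Y s ∈ (chain_site L).O := by
  intro s hs
  obtain ⟨h1, -, h3⟩ := h
  have hb : BddK ((chain_site L).Ky q) :=
    Site.Ky_bdd hL continuous_const continuous_const continuous_const
  have hc := h1.const_lin hb (ContinuousLinearMap.snd ℝ L.E ℝ) (by
    intro t _ κ hκ
    obtain ⟨s', a', b', u, -, -, -, -, -, -, -, -, -, h9⟩ := hκ
    show κ.2 = 0
    rw [h9]
    show (0 : ℝ) * s' + 0 * a' - 0 * b' = 0
    ring) s hs
  have h4 : (Y s).2 = (Y a).2 := hc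
  have h5 : (Y a).2 = 0 := h3
  show |(Y s).2| < 1
  rw [h4, h5, abs_zero]
  exact one_pos

theorem chain_fd {E : Type} [NormedAddCommGroup E] [NormedSpace ℝ E] (w u : E) :
    fderiv ℝ (fun _ : E => (0 : ℝ)) w u = 0 := by
  rw [fderiv_fun_const]
  rfl

theorem chain_site_good {L : Sys} (hL : L.Good) {q : Par} (hq : q.Good) :
    (chain_site L).Good q where
  th_smooth := contDiff_const
  T_smooth := fun _ => contDiff_const
  fo_smooth := contDiff_const
  spP_smooth := contDiff_const
  spM_smooth := contDiff_const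
  th_bd := fun _ => ⟨le_rfl, hq.k0_pos.le⟩
  r_pos := one_pos
  th_act := fun _ _ h => absurd h (lt_irrefl _)
  fo_act := fun _ _ _ => rfl
  rate_th := fun w _ _ _ u _ => by
    have h := chain_fd w (u, (chain_site L).fo w)
    have h2 := hq.eta_pos
    exact le_trans (le_of_eq h) (by linarith)
  rate_T := fun w _ _ _ u _ _ _ => by
    have h := chain_fd w (u, (chain_site L).fo w)
    have h2 := hq.eta_pos
    exact le_trans (le_of_eq h) (by linarith)
  lead_push := fun w _ _ _ _ b' => by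
    have h := chain_fd w (0, (chain_site L).psh b' w)
    exact le_trans (le_of_eq h) zero_le_one
  resp_push := fun _ _ _ h => absurd h (lt_irrefl _)
  far_T := fun w _ _ _ _ => chain_fd w (L.one, 0)
  T_bd := fun _ _ _ _ => ⟨le_rfl, hq.c_pos.le⟩
  isOpen := isOpen_lt (continuous_abs.comp continuous_snd) continuous_const
  bdd := ⟨1, fun _ hw => le_of_lt hw⟩
  inv := fun Y a b h => chain_site_inv hL Y a b h

/-- one pure layer -/
theorem chain_one {L : Sys} (hL : L.Good) {par : ℕ → Par} {n : ℕ} (hq : (par n).Good)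
    (hH : 64 * L.H ≤ (par n).H) :
    ∃ (C : Sys) (π : C.E →L[ℝ] L.E) (ld : LD C.E), C.Good ∧
      Tower L 1 C π n (n + 1) par ld (par n).c ∧ ld.Pure ∧
      C.H = (par n).H ∧ ∃ c, C.HasCtr c ∧ π c = 0 := by
  have hσ := chain_site_good hL hq
  refine ⟨layer L (par n) (chain_site L), layerPi L (par n) (chain_site L),
    layerLD L (par n) (chain_site L), layer_good hL hq hσ hH, ?_, fun _ _ _ => rfl, rfl,
    layerCtr L (par n) (chain_site L), layer_ctr hL hq⟩
  refine (layer_tower hL hq hσ hH n).congr_par ?_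
  intro j h1 h2
  have : j = n := by omega
  rw [this]

/-- Plan: the site with `th = T = fo = spP = spM = 0`, `O = {|y| < 1}`, `y0 = 0`, `r = 1`;
induction on the number of levels with `Tower.comp`. -/
theorem pure_chain {L : Sys} (hL : L.Good) {par : ℕ → Par} {k n : ℕ} (hkn : k < n)
    (hg : ∀ j, k ≤ j → j < n → (par j).Good) (hH : 64 * L.H ≤ (par k).H) (hG : Growth par k n) :
    ∃ (C : Sys) (π : C.E →L[ℝ] L.E) (ld : LD C.E), C.Good ∧
      Tower L 1 C π k n par ld (∑ j ∈ Finset.Ico k n, (par j).c) ∧ ld.Pure ∧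
      C.H = (par (n - 1)).H ∧ ∃ c, C.HasCtr c ∧ π c = 0 := by
  induction n, hkn using Nat.le_induction with
  | base =>
    obtain ⟨C, π, ld, h1, h2, h3, h4, h5⟩ := chain_one hL (hg k le_rfl (Nat.lt_succ_self k)) hH
    refine ⟨C, π, ld, h1, ?_, h3, h4, h5⟩
    rw [Finset.sum_Ico_succ_top le_rfl, Finset.Ico_self, Finset.sum_empty, zero_add]
    exact h2
  | succ n hn ih =>
    have hkn : k ≤ n := by omega
    obtain ⟨M, π2, lo, m1, m2, m3, m4, -⟩ := ih (fun j a b => hg j a (by omega))
      (fun j a b => hG j a (by omega))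
    have hgr : 64 * M.H ≤ (par n).H := by
      have h := hG (n - 1) (by omega) (by omega)
      have e : n - 1 + 1 = n := by omega
      rw [e] at h
      rw [m4]
      exact h
    obtain ⟨C, π1, up, h1, h2, h3, h4, c, h5, h6⟩ :=
      chain_one m1 (hg n hkn (Nat.lt_succ_self n)) hgr
    refine ⟨C, π2.comp π1, LD.comp n up lo π1, h1, ?_, h3.comp m3 n π1, h4, c, h5, ?_⟩
    · rw [Finset.sum_Ico_succ_top hkn]
      exact (h2.comp m2).slk_mono (le_of_eq (add_comm _ _))
    · show π2 (π1 c) = 0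
      rw [h6, map_zero]

theorem pure_block {A : Sys} (hA : A.Good) (l : ℕ) {β : ℝ} (hβ : 0 < β) (H0 : ℝ) :
    ∃ (D : Sys) (π : D.E →L[ℝ] A.E) (q : Par), Block A l β H0 D π (l + 1) (fun _ => q) := by
  have hAH := hA.H_pos
  have hH : 0 < max (64 * A.H) H0 := lt_of_lt_of_le (by linarith) (le_max_left _ _)
  have hη : 0 < min (1 / 100 : ℝ) (β / 3 / max (64 * A.H) H0) :=
    lt_min (by norm_num) (div_pos (by linarith) hH)
  obtain ⟨q, hq, q1, q2, -, q4, q5⟩ :=
    Par.exists_good hH hη (min_le_left _ _) (show 0 < β / 3 by linarith)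
  have hge : 64 * A.H ≤ ((fun _ : ℕ => q) l).H := by
    show 64 * A.H ≤ q.H
    rw [q1]
    exact le_max_left _ _
  obtain ⟨C, π, ld, h1, h2, -, -, h5⟩ := chain_one (par := fun _ => q) (n := l) hA hq hge
  have hw : q.eta * q.H ≤ β / 3 := by
    rw [q1, q2]
    exact (le_div_iff₀ hH).1 (min_le_right _ _)
  refine ⟨C, π, q, Nat.lt_succ_self l, h1, h5, ⟨ld, h2.slk_mono (by
    show q.c ≤ β
    linarith)⟩, ?_, ?_, ?_⟩
  · rw [Finset.sum_Ico_succ_top le_rfl, Finset.Ico_self, Finset.sum_empty, zero_add]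
    show q.eta * q.H + q.cap + q.c ≤ β
    linarith
  · show H0 ≤ q.H
    rw [q1]
    exact le_max_right _ _
  · intro j a b
    omega

end Pool.Agent.MP703675
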