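import Pool.Agent.Lib.MP_703675_gt.Tool

set_option autoImplicit false

open Set Metric Filter Topology TopologicalSpace

noncomputable section

namespace Pool.Agent.MP703675

theorem core_drop {A B a Sa Sb η : ℝ} (hB : 0 ≤ B) (hBA : B ≤ A) (hA : A ≤ 1) (hSa : 0 ≤ Sa)
    (hη : 0 ≤ η) (ha : a ≤ (1 - Sa) * A) (hS : Sb ≤ Sa + η) :
    a - min a ((1 - Sb) * B) ≤ A - B + η := by
  rcases le_total a ((1 - Sb) * B) with h | h
  · rw [min_eq_left h]; linarith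
  · rw [min_eq_right h]
    have h1 := mul_le_mul_of_nonneg_right hS hB
    have h2 := mul_le_mul_of_nonneg_left hBA hSa
    have h3 := mul_le_mul_of_nonneg_left (hBA.trans hA) hη
    linarith

theorem core_pay {A B a Sa Sb η : ℝ} (hB : 0 ≤ B) (hBA : B ≤ A) (hA : A ≤ 1) (hSa : Sa ≤ 1)
    (hη : 0 ≤ η) (ha : a ≤ (1 - Sa) * A) (hS : Sa ≤ Sb + η) :
    a - min a ((1 - Sb) * B) + (Sa * A - Sb * B) ≤ A - B + η := by
  rcases le_total a ((1 - Sb) * B) with h | h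
  · rw [min_eq_left h]
    have h1 := mul_le_mul_of_nonneg_right hS hB
    have h2 := mul_le_mul_of_nonneg_right hSa (sub_nonneg.2 hBA)
    have h3 := mul_le_mul_of_nonneg_left (hBA.trans hA) hη
    linarith
  · rw [min_eq_right h]; linarith

theorem core_raise {d d' x y Ra Rb η : ℝ} (hR0 : 0 ≤ Ra) (hR1 : Ra ≤ 1) (hη : 0 ≤ η)
    (hy0 : 0 ≤ y) (hy1 : y ≤ 1) (hxy : x - y = d' - d) (hd : d ≤ d' + η) (hR : Ra ≤ Rb + η) :
    d + (Ra * x - Rb * y) ≤ d' + 2 * η := by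
  have e : x = y + (d' - d) := by linarith
  have h1 := mul_le_mul_of_nonneg_right hR hy0
  have h2 := mul_le_mul_of_nonneg_left hy1 hη
  have h3 := mul_le_mul_of_nonneg_left hd (sub_nonneg.2 hR1)
  have h4 := mul_nonneg hR0 hη
  rw [e]
  linarith

theorem core_mix {d X c w : ℝ} (h0 : 0 ≤ w) (h1 : w ≤ 1) (ha : d ≤ c) (hb : d + X ≤ c) :
    d + w * X ≤ c := by
  have h2 := mul_le_mul_of_nonneg_left ha (sub_nonneg.2 h1)
  have h3 := mul_le_mul_of_nonneg_left hb h0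
  linarith

theorem core_Sb_le {q : Par} (ga : q.Good) {g x y : ℝ} (hg1 : 1 / 3 ≤ g) (hg3 : g ≤ 3)
    (h : y ≤ x + 2 * (q.c + (q.scale g).c)) : (q.scale g).S y ≤ q.S x + q.eta := by
  have hg : 0 < g := by linarith
  have hl := ga.lam_pos
  have hc := ga.c_pos
  have e : (q.scale g).c = g * q.c := rfl
  have hc4 : g * q.c ≤ 3 * q.c := mul_le_mul_of_nonneg_right hg3 hc.le
  have h1 : q.lam ≤ 3 * (g * q.lam) := by
    have := mul_le_mul_of_nonneg_right hg1 hl.le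
    linarith
  have h2 := lr_cmp (x := y) (x' := x) (D := 8 * q.c) ga.p_pos (mul_pos hg hl) hl h1
    (by linarith) (by rw [e] at h; linarith)
  have h3 := ga.p_le
  show lr q.p (g * q.lam) y ≤ lr q.p q.lam x + q.eta
  linarith

theorem core_Sa_le {q : Par} (ga : q.Good) {g x y : ℝ} (hg1 : 1 / 3 ≤ g) (hg3 : g ≤ 3)
    (h : x ≤ y) : q.S x ≤ (q.scale g).S y + q.eta := by
  have hg : 0 < g := by linarith
  have hl := ga.lam_pos
  have h1 : g * q.lam ≤ 3 * q.lam := mul_le_mul_of_nonneg_right hg3 hl.le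
  have h2 := lr_cmp (x := x) (x' := y) (D := 0) ga.p_pos hl (mul_pos hg hl) h1 le_rfl
    (by linarith)
  have h3 := ga.two_p_le
  rw [zero_div, add_zero] at h2
  show lr q.p q.lam x ≤ lr q.p (g * q.lam) y + q.eta
  linarith

theorem core_rho_le {q : Par} (ga : q.Good) {g x y : ℝ} (hg1 : 1 / 3 ≤ g)
    (h : y ≤ x) : q.rho x ≤ (q.scale g).rho y + q.eta := by
  have hg : 0 < g := by linarith
  have hl := ga.kap_pos
  have h1 : q.kap ≤ 3 * (g * q.kap) := by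
    have := mul_le_mul_of_nonneg_right hg1 hl.le
    linarith
  have h2 := lr_cmp (x := y) (x' := x) (D := 0) ga.p_pos (mul_pos hg hl) hl h1 le_rfl
    (by linarith)
  have h3 := ga.two_p_le
  rw [zero_div, add_zero] at h2
  show 1 - lr q.p q.kap x ≤ 1 - lr q.p (g * q.kap) y + q.eta
  linarith

theorem core_st_zero {h c : ℝ} (hc : 0 < c) (hh : h ≤ c) : st (h / c - 1) = 0 :=
  st_zero (sub_nonpos.2 ((div_le_one hc).2 hh))

theorem core_st_one {h c : ℝ} (hc : 0 < c) (hh : 2 * c ≤ h) : st (h / c - 1) = 1 := by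
  refine st_one ?_
  have := (le_div_iff₀ hc).2 hh
  linarith

/-- one level -/
theorem core_level {qa qb : Par} (ga : qa.Good) {g : ℝ} (hg1 : 1 / 3 ≤ g) (hg3 : g ≤ 3)
    (hq : qb = qa.scale g) {Da Ta Db Tb A B a dDa dTa : ℝ} (hTa : 0 ≤ Ta ∧ Ta ≤ qa.c)
    (hTb : 0 ≤ Tb ∧ Tb ≤ qb.c) (hB : 0 ≤ B) (hBA : B ≤ A) (hA : A ≤ 1)
    (hl : 0 ≤ a ∧ a ≤ (1 - qa.S Da) * A ∧ -(qa.S Da * A) ≤ dDa ∧
      dDa + dTa ≤ qa.rho Da * (A - a) + qa.eta * A) :
    ∃ b δ : ℝ, b ≤ a ∧ (0 ≤ b ∧ b ≤ (1 - qb.S Db) * B ∧ -(qb.S Db * B) ≤ δ ∧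
      δ ≤ qb.rho Db * (B - b)) ∧ ∀ dDb dTb : ℝ, δ ≤ dDb → dDb + dTb ≤ δ + qb.eta * B →
        (a - b) + (st ((Db + Tb - Da) / (qa.c + qb.c) - 1) * (dDb + dTb - dDa) +
          st ((Da + Ta - Db) / (qa.c + qb.c) - 1) * (dDa + dTa - dDb)) ≤
          (A - B) + 3 * qa.eta := by
  subst hq
  have hg : 0 < g := by linarith
  have gb := ga.scale hg
  obtain ⟨ha0, ha1, ha2, ha3⟩ := hl
  have hη := ga.eta_pos.le
  have eη : (qa.scale g).eta = qa.eta := rfl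
  have hct : 0 < qa.c + (qa.scale g).c := add_pos ga.c_pos gb.c_pos
  obtain ⟨Sa0, Sa1⟩ := ga.S_mem Da
  obtain ⟨Sb0, Sb1⟩ := gb.S_mem Db
  obtain ⟨Ra0, Ra1⟩ := ga.rho_mem Da
  obtain ⟨Rb0, Rb1⟩ := gb.rho_mem Db
  obtain ⟨b, hb⟩ : ∃ b, b = min a ((1 - (qa.scale g).S Db) * B) := ⟨_, rfl⟩
  have hba : b ≤ a := by rw [hb]; exact min_le_left _ _
  have hbB : b ≤ (1 - (qa.scale g).S Db) * B := by rw [hb]; exact min_le_right _ _
  have hb0 : 0 ≤ b := by rw [hb]; exact le_min ha0 (mul_nonneg (sub_nonneg.2 Sb1) hB)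
  have hSB := mul_nonneg Sb0 hB
  have hbB' : 0 ≤ B - b := by linarith
  have hRB := mul_nonneg Rb0 hbB'
  have hηA := mul_le_mul_of_nonneg_left hA hη
  have hηB := mul_le_mul_of_nonneg_left (hBA.trans hA) hη
  have drop : Db ≤ Da + 2 * (qa.c + (qa.scale g).c) → a - b ≤ A - B + qa.eta := fun h => by
    rw [hb]; exact core_drop hB hBA hA Sa0 hη ha1 (core_Sb_le ga hg1 hg3 h)
  rcases lt_or_ge (qa.c + (qa.scale g).c) (Db + Tb - Da) with hp | hp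
  · refine ⟨b, -((qa.scale g).S Db * B), hba, ⟨hb0, hbB, le_rfl, by linarith⟩,
      fun dDb dTb _ h2 => ?_⟩
    rw [core_st_zero hct (show Da + Ta - Db ≤ _ by linarith [hTa.2, hTb.2]), zero_mul, add_zero]
    have pay : a - b + (qa.S Da * A - (qa.scale g).S Db * B) ≤ A - B + qa.eta := by
      rw [hb]
      exact core_pay hB hBA hA Sa1 hη ha1
        (core_Sa_le ga hg1 hg3 (by linarith [hTb.2, ga.c_pos]))
    rw [eη] at h2
    have top : a - b + (dDb + dTb - dDa) ≤ A - B + 3 * qa.eta := by linarith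
    rcases le_total (2 * (qa.c + (qa.scale g).c)) (Db + Tb - Da) with h3 | h3
    · rw [core_st_one hct h3, one_mul]; exact top
    · have := drop (by linarith [hTb.1])
      exact core_mix (st_nonneg _) (st_le_one _) (by linarith) top
  · have dr := drop (by linarith [hTb.1])
    rcases lt_or_ge (qa.c + (qa.scale g).c) (Da + Ta - Db) with hm | hm
    · refine ⟨b, (qa.scale g).rho Db * (B - b), hba, ⟨hb0, hbB, by linarith, le_rfl⟩,
        fun dDb dTb h1 _ => ?_⟩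
      rw [core_st_zero hct hp, zero_mul, zero_add]
      have rs := core_raise (d := a - b) (d' := A - B) (x := A - a) (y := B - b) Ra0 Ra1 hη hbB'
        (by linarith) (by ring) dr
        (core_rho_le (y := Db) ga hg1 (by linarith [hTa.2, gb.c_pos]))
      exact core_mix (st_nonneg _) (st_le_one _) (by linarith) (by linarith)
    · refine ⟨b, 0, hba, ⟨hb0, hbB, by linarith, hRB⟩, fun dDb dTb _ _ => ?_⟩
      rw [core_st_zero hct hp, core_st_zero hct hm, zero_mul, zero_mul]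
      linarith

/-- all levels, with arbitrary top activities -/
theorem core_all {m n : ℕ} (hmn : m ≤ n) {qa qb : ℕ → Par} (Da Ta Db Tb sa dDa dTa : ℕ → ℝ) :
    (∀ j, m ≤ j → j < n → (qa j).Good) →
    (∀ j, m ≤ j → j < n → ∃ g : ℝ, 1 / 3 ≤ g ∧ g ≤ 3 ∧ qb j = (qa j).scale g) →
    (∀ j, m ≤ j → j < n → 0 ≤ Ta j ∧ Ta j ≤ (qa j).c) →
    (∀ j, m ≤ j → j < n → 0 ≤ Tb j ∧ Tb j ≤ (qb j).c) →
    (∀ j, m ≤ j → j < n → 0 ≤ sa j ∧ sa j ≤ (1 - (qa j).S (Da j)) * sa (j + 1) ∧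
      -((qa j).S (Da j) * sa (j + 1)) ≤ dDa j ∧
      dDa j + dTa j ≤ (qa j).rho (Da j) * (sa (j + 1) - sa j) + (qa j).eta * sa (j + 1)) →
    ∀ B : ℝ, 0 ≤ B → B ≤ sa n → sa n ≤ 1 →
    ∃ sb δ : ℕ → ℝ, sb n = B ∧ sb m ≤ sa m ∧
      (∀ j, m ≤ j → j < n → 0 ≤ sb j ∧ sb j ≤ (1 - (qb j).S (Db j)) * sb (j + 1) ∧
        -((qb j).S (Db j) * sb (j + 1)) ≤ δ j ∧ δ j ≤ (qb j).rho (Db j) * (sb (j + 1) - sb j)) ∧
      ∀ dDb dTb : ℕ → ℝ, (∀ j, m ≤ j → j < n → δ j ≤ dDb j ∧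
        dDb j + dTb j ≤ δ j + (qb j).eta * sb (j + 1)) →
        (sa m - sb m) + ∑ j ∈ Finset.Ico m n,
          (st ((Db j + Tb j - Da j) / ((qa j).c + (qb j).c) - 1) * (dDb j + dTb j - dDa j) +
           st ((Da j + Ta j - Db j) / ((qa j).c + (qb j).c) - 1) * (dDa j + dTa j - dDb j)) ≤
          (sa n - B) + 3 * ∑ j ∈ Finset.Ico m n, (qa j).eta := by
  induction n, hmn using Nat.le_induction with
  | base =>
    intro _ _ _ _ _ B _ hB _
    refine ⟨fun _ => B, fun _ => 0, rfl, hB, fun j h1 h2 => absurd h1 (not_le.2 h2),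
      fun _ _ _ => ?_⟩
    rw [Finset.Ico_self, Finset.sum_empty, Finset.sum_empty]
    linarith
  | succ n hmn ih =>
    intro ga rel hTa hTb hl B hB0 hB1 hA
    have hn := Nat.lt_succ_self n
    obtain ⟨g, hg1, hg3, hq⟩ := rel n hmn hn
    obtain ⟨b, δ0, hba, hb, hfin⟩ := core_level (Db := Db n) (ga n hmn hn) hg1 hg3 hq
      (hTa n hmn hn) (hTb n hmn hn) hB0 hB1 hA (hl n hmn hn)
    have hsa : sa n ≤ 1 := by
      have h1 := (hl n hmn hn).2.1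
      have h2 := mul_nonneg ((ga n hmn hn).S_mem (Da n)).1 (hB0.trans hB1)
      linarith
    obtain ⟨sb, δ, e1, e2, e3, e4⟩ := ih (fun j h1 h2 => ga j h1 (h2.trans hn))
      (fun j h1 h2 => rel j h1 (h2.trans hn)) (fun j h1 h2 => hTa j h1 (h2.trans hn))
      (fun j h1 h2 => hTb j h1 (h2.trans hn)) (fun j h1 h2 => hl j h1 (h2.trans hn)) b hb.1 hba hsa
    obtain ⟨sb', s1, s2⟩ : ∃ sb' : ℕ → ℝ, sb' (n + 1) = B ∧ ∀ j, j ≤ n → sb' j = sb j :=
      ⟨fun j => if j ≤ n then sb j else B, if_neg (Nat.not_succ_le_self n),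
        fun j hj => if_pos hj⟩
    obtain ⟨δ', d1, d2⟩ : ∃ δ' : ℕ → ℝ, δ' n = δ0 ∧ ∀ j, j < n → δ' j = δ j :=
      ⟨fun j => if j < n then δ j else δ0, if_neg (lt_irrefl n), fun j hj => if_pos hj⟩
    refine ⟨sb', δ', s1, by rw [s2 m hmn]; exact e2, fun j h1 h2 => ?_, fun dDb dTb h => ?_⟩
    · rcases (Nat.lt_succ_iff.1 h2).eq_or_lt with rfl | h3
      · rw [s1, s2 j le_rfl, e1, d1]; exact hb
      · rw [s2 j h3.le, s2 (j + 1) h3, d2 j h3]; exact e3 j h1 h3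
    · have h1 := h n hmn hn
      rw [s1, d1] at h1
      have h2 := hfin (dDb n) (dTb n) h1.1 h1.2
      have h3 := e4 dDb dTb fun j j1 j2 => by
        have := h j j1 (j2.trans hn)
        rw [s2 (j + 1) j2, d2 j j2] at this
        exact this
      rw [Finset.sum_Ico_succ_top hmn, Finset.sum_Ico_succ_top hmn, s2 m hmn]
      linarith

/-- Plan: downward induction on the level, with the deficit `sa j - sb j ≥ 0`.
Put `sb j = min (sa j) ((1 - S_b) * sb (j+1))`.  With `ct = ca + cb`, `hp = Db + Tb - Da`,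
`hm = Da + Ta - Db`: if `ct < hp` pay the maximum `δ = -(S_b * sb (j+1))`; if `ct < hm` raise the
maximum `δ = rho_b * (sb (j+1) - sb j)`; otherwise `δ = 0`.  Use `lr_cmp` (with `D = 2 ct` or `0`)
and `Par.Good.p_le`; one level costs `3 eta`. -/
theorem near_core {m n : ℕ} (hmn : m ≤ n) {qa qb : ℕ → Par}
    (ga : ∀ j, m ≤ j → j < n → (qa j).Good)
    (rel : ∀ j, m ≤ j → j < n → ∃ g : ℝ, 1 / 3 ≤ g ∧ g ≤ 3 ∧ qb j = (qa j).scale g)
    (Da Ta Db Tb : ℕ → ℝ) (hTa : ∀ j, m ≤ j → j < n → 0 ≤ Ta j ∧ Ta j ≤ (qa j).c)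
    (hTb : ∀ j, m ≤ j → j < n → 0 ≤ Tb j ∧ Tb j ≤ (qb j).c)
    (sa dDa dTa : ℕ → ℝ) (h1 : sa n = 1)
    (hl : ∀ j, m ≤ j → j < n → 0 ≤ sa j ∧ sa j ≤ (1 - (qa j).S (Da j)) * sa (j + 1) ∧
      -((qa j).S (Da j) * sa (j + 1)) ≤ dDa j ∧
      dDa j + dTa j ≤ (qa j).rho (Da j) * (sa (j + 1) - sa j) + (qa j).eta * sa (j + 1)) :
    ∃ sb δ : ℕ → ℝ, sb n = 1 ∧ sb m ≤ sa m ∧
      (∀ j, m ≤ j → j < n → 0 ≤ sb j ∧ sb j ≤ (1 - (qb j).S (Db j)) * sb (j + 1) ∧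
        -((qb j).S (Db j) * sb (j + 1)) ≤ δ j ∧ δ j ≤ (qb j).rho (Db j) * (sb (j + 1) - sb j)) ∧
      ∀ dDb dTb : ℕ → ℝ, (∀ j, m ≤ j → j < n → δ j ≤ dDb j ∧
        dDb j + dTb j ≤ δ j + (qb j).eta * sb (j + 1)) →
        (sa m - sb m) + ∑ j ∈ Finset.Ico m n,
          (st ((Db j + Tb j - Da j) / ((qa j).c + (qb j).c) - 1) * (dDb j + dTb j - dDa j) +
           st ((Da j + Ta j - Db j) / ((qa j).c + (qb j).c) - 1) * (dDa j + dTa j - dDb j)) ≤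
          3 * ∑ j ∈ Finset.Ico m n, (qa j).eta := by
  obtain ⟨sb, δ, e1, e2, e3, e4⟩ := core_all hmn Da Ta Db Tb sa dDa dTa ga rel hTa hTb hl 1
    zero_le_one h1.ge h1.le
  refine ⟨sb, δ, e1, e2, e3, fun dDb dTb h => ?_⟩
  have := e4 dDb dTb h
  rw [h1] at this
  linarith

end Pool.Agent.MP703675
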