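import Pool.Agent.Lib.MP_703675_gt.Defs

set_option autoImplicit false

open Set Metric Filter Topology TopologicalSpace

noncomputable section

namespace Pool.Agent.MP703675

variable {E G G' W : Type} [NormedAddCommGroup E] [NormedSpace ℝ E] [FiniteDimensional ℝ E]
  [NormedAddCommGroup G] [NormedSpace ℝ G] [FiniteDimensional ℝ G]
  [NormedAddCommGroup G'] [NormedSpace ℝ G'] [FiniteDimensional ℝ G']
  [NormedAddCommGroup W] [NormedSpace ℝ W] [FiniteDimensional ℝ W]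

/-- a locally Lipschitz map is bounded and Lipschitz on balls -/
theorem ldi_aux_ball {X Y : Type} [NormedAddCommGroup X] [NormedSpace ℝ X] [FiniteDimensional ℝ X]
    [NormedAddCommGroup Y] {f : X → Y} (hf : LocallyLipschitz f) (R : ℝ) :
    ∃ K M : ℝ, 0 ≤ K ∧ 0 ≤ M ∧ (∀ x : X, ‖x‖ ≤ R → ‖f x‖ ≤ M) ∧
      ∀ x y : X, ‖x‖ ≤ R → ‖y‖ ≤ R → ‖f x - f y‖ ≤ K * ‖x - y‖ := by
  have hc : IsCompact (closedBall (0 : X) R) := isCompact_closedBall 0 R
  obtain ⟨K, hK⟩ := LocallyLipschitzOn.exists_lipschitzOnWith_of_compact hc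
    (hf.locallyLipschitzOn (s := closedBall (0 : X) R))
  obtain ⟨M, hM⟩ := hc.exists_bound_of_continuousOn hf.continuous.continuousOn
  refine ⟨K, max M 0, K.2, le_max_right _ _, fun x hx => ?_, fun x y hx hy => ?_⟩
  · exact (hM x (mem_closedBall_zero_iff.2 hx)).trans (le_max_left _ _)
  · have h1 := hK.dist_le_mul x (mem_closedBall_zero_iff.2 hx) y (mem_closedBall_zero_iff.2 hy)
    rwa [dist_eq_norm, dist_eq_norm] at h1

theorem ldi_aux_weight {m c : ℝ} (hm : 0 < m) (hc : 0 ≤ c) :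
    0 ≤ c / (m + c) ∧ c / (m + c) ≤ 1 ∧ c / (m + c) ≤ c / m ∧
      (1 - c / (m + c)) * c - c / (m + c) * m = 0 := by
  have h1 : 0 < m + c := by linarith
  refine ⟨div_nonneg hc h1.le, (div_le_one h1).2 (by linarith),
    div_le_div_of_nonneg_left hc hm (by linarith), ?_⟩
  field_simp
  ring

/-- half space cut with a uniform strictly feasible point -/
theorem LDI.cut {F : E → Set G} (h : LDI F) (hc : ∀ z, Convex ℝ (F z)) {l : E → (G →L[ℝ] ℝ)}
    {β : E → ℝ} (hl : LocallyLipschitz l) (hβ : LocallyLipschitz β) {m : ℝ} (hm : 0 < m)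
    (hs : ∀ z, ∃ κ ∈ F z, l z κ ≤ β z - m) : LDI (fun z => {κ | κ ∈ F z ∧ l z κ ≤ β z}) := by
  intro R
  obtain ⟨L, B, hL, hB, hbd, hlip⟩ := h R
  obtain ⟨Kl, Ml, hKl, hMl, hl1, hl2⟩ := ldi_aux_ball hl R
  obtain ⟨Kb, Mb, hKb, -, -, hb2⟩ := ldi_aux_ball hβ R
  have hC : 0 ≤ Kb + Kl * B + Ml * L := by positivity
  generalize hCe : Kb + Kl * B + Ml * L = C at hC
  refine ⟨L + 2 * B * C / m, B, by positivity, hB, fun z hz κ hκ => hbd z hz κ hκ.1, ?_⟩
  intro z z' hz hz' κ hκ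
  obtain ⟨κ1, h1, h1d⟩ := hlip z z' hz hz' κ hκ.1
  obtain ⟨κ0, h0, h0l⟩ := hs z'
  have hd : 0 ≤ ‖z - z'‖ := norm_nonneg _
  have hl2' := hl2 z' z hz' hz
  have hb2' := hb2 z z' hz hz'
  rw [norm_sub_rev z' z] at hl2'
  generalize ‖z - z'‖ = d at h1d hd hl2' hb2'
  have hcd : 0 ≤ C * d := mul_nonneg hC hd
  obtain ⟨w0, w1, w2, w3⟩ := ldi_aux_weight hm hcd
  generalize C * d / (m + C * d) = t at w0 w1 w2 w3
  have e1 : l z' κ1 ≤ β z' + C * d := by
    have a1 : l z' κ1 = l z κ + (l z' - l z) κ + l z' (κ1 - κ) := by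
      rw [sub_apply, map_sub]; ring
    have a2 : (l z' - l z) κ ≤ Kl * d * B :=
      (le_abs_self _).trans (((l z' - l z).le_opNorm κ).trans
        (mul_le_mul hl2' (hbd z hz κ hκ.1) (norm_nonneg _) (by positivity)))
    have a3 : l z' (κ1 - κ) ≤ Ml * (L * d) :=
      (le_abs_self _).trans (((l z').le_opNorm (κ1 - κ)).trans
        (mul_le_mul (hl1 z' hz') (by rwa [norm_sub_rev]) (norm_nonneg _) hMl))
    have a4 : β z - β z' ≤ Kb * d := (le_abs_self _).trans hb2'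
    have a5 : l z κ ≤ β z := hκ.2
    have a6 : C * d = Kb * d + Kl * d * B + Ml * (L * d) := by rw [← hCe]; ring
    linarith
  refine ⟨(1 - t) • κ1 + t • κ0, ⟨hc z' h1 h0 (by linarith) w0 (by ring), ?_⟩, ?_⟩
  · rw [map_add, map_smul, map_smul, smul_eq_mul, smul_eq_mul]
    have b1 := mul_le_mul_of_nonneg_left e1 (show 0 ≤ 1 - t by linarith)
    have b2 := mul_le_mul_of_nonneg_left h0l w0
    have b3 : (1 - t) * (β z' + C * d) + t * (β z' - m) =
        β z' + ((1 - t) * (C * d) - t * m) := by ring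
    linarith
  · have c1 : κ - ((1 - t) • κ1 + t • κ0) = (κ - κ1) + t • (κ1 - κ0) := by
      rw [sub_smul, one_smul, smul_sub]; abel
    have c2 : ‖κ1 - κ0‖ ≤ 2 * B := by
      have := norm_sub_le κ1 κ0
      have := hbd z' hz' κ1 h1
      have := hbd z' hz' κ0 h0
      linarith
    have c3 : ‖t • (κ1 - κ0)‖ ≤ C * d / m * (2 * B) := by
      rw [norm_smul, Real.norm_of_nonneg w0]
      exact mul_le_mul w2 c2 (norm_nonneg _) (by positivity)
    have c4 : (L + 2 * B * C / m) * d = L * d + C * d / m * (2 * B) := by ring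
    rw [c1, c4]
    exact (norm_add_le _ _).trans (add_le_add h1d c3)

theorem LDI.image {F : E → Set G} (h : LDI F) (π : G →L[ℝ] G') :
    LDI (fun z => π '' F z) := by
  intro R
  obtain ⟨L, B, hL, hB, hbd, hlip⟩ := h R
  refine ⟨‖π‖ * L, ‖π‖ * B, by positivity, by positivity, ?_, ?_⟩
  · rintro z hz _ ⟨κ, hκ, rfl⟩
    exact (π.le_opNorm κ).trans (mul_le_mul_of_nonneg_left (hbd z hz κ hκ) (norm_nonneg _))
  · rintro z z' hz hz' _ ⟨κ, hκ, rfl⟩
    obtain ⟨κ', h1, h2⟩ := hlip z z' hz hz' κ hκ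
    refine ⟨π κ', ⟨κ', h1, rfl⟩, ?_⟩
    rw [← map_sub, mul_assoc]
    exact (π.le_opNorm _).trans (mul_le_mul_of_nonneg_left h2 (norm_nonneg _))

theorem LDI.comp {F : G → Set G'} (h : LDI F) (π : E →L[ℝ] G) : LDI (fun z => F (π z)) := by
  intro R
  obtain ⟨L, B, hL, hB, hbd, hlip⟩ := h (‖π‖ * R)
  have hb : ∀ z : E, ‖z‖ ≤ R → ‖π z‖ ≤ ‖π‖ * R := fun z hz =>
    (π.le_opNorm z).trans (mul_le_mul_of_nonneg_left hz (norm_nonneg _))
  refine ⟨L * ‖π‖, B, by positivity, hB, fun z hz κ hκ => hbd _ (hb z hz) κ hκ, ?_⟩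
  intro z z' hz hz' κ hκ
  obtain ⟨κ', h1, h2⟩ := hlip _ _ (hb z hz) (hb z' hz') κ hκ
  refine ⟨κ', h1, h2.trans ?_⟩
  rw [← map_sub, mul_assoc]
  exact mul_le_mul_of_nonneg_left (π.le_opNorm _) hL

theorem LDI.prod {F : E → Set G} {F' : E → Set G'} (h : LDI F) (h' : LDI F') :
    LDI (fun z => F z ×ˢ F' z) := by
  intro R
  obtain ⟨L, B, hL, hB, hbd, hlip⟩ := h R
  obtain ⟨L', B', hL', hB', hbd', hlip'⟩ := h' R
  refine ⟨max L L', max B B', le_max_of_le_left hL, le_max_of_le_left hB, ?_, ?_⟩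
  · intro z hz κ hκ
    rw [Prod.norm_def]
    exact max_le_max (hbd z hz _ hκ.1) (hbd' z hz _ hκ.2)
  · intro z z' hz hz' κ hκ
    obtain ⟨a, a1, a2⟩ := hlip z z' hz hz' _ hκ.1
    obtain ⟨b, b1, b2⟩ := hlip' z z' hz hz' _ hκ.2
    refine ⟨(a, b), ⟨a1, b1⟩, ?_⟩
    rw [Prod.norm_def]
    exact max_le (a2.trans (mul_le_mul_of_nonneg_right (le_max_left _ _) (norm_nonneg _)))
      (b2.trans (mul_le_mul_of_nonneg_right (le_max_right _ _) (norm_nonneg _)))

/-- parametrised image with a bounded control set -/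
theorem LDI.param {F : E → Set G} (h : LDI F) {Cs : Set W} (hC : Bornology.IsBounded Cs)
    {f : E × G × W → G'} (hf : LocallyLipschitz f) :
    LDI (fun z => {y | ∃ κ ∈ F z, ∃ ω ∈ Cs, y = f (z, κ, ω)}) := by
  intro R
  obtain ⟨L, B, hL, hB, hbd, hlip⟩ := h R
  obtain ⟨D, hD⟩ := hC.exists_norm_le
  obtain ⟨K, M, hK, hM, h1, h2⟩ := ldi_aux_ball hf (max R (max B D))
  have hb : ∀ z : E, ‖z‖ ≤ R → ∀ κ ∈ F z, ∀ ω ∈ Cs,
      ‖((z, κ, ω) : E × G × W)‖ ≤ max R (max B D) := by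
    intro z hz κ hκ ω hω
    rw [Prod.norm_def, Prod.norm_def]
    exact max_le_max hz (max_le_max (hbd z hz κ hκ) (hD ω hω))
  refine ⟨K * max 1 L, M, by positivity, hM, ?_, ?_⟩
  · rintro z hz _ ⟨κ, hκ, ω, hω, rfl⟩
    exact h1 _ (hb z hz κ hκ ω hω)
  · rintro z z' hz hz' _ ⟨κ, hκ, ω, hω, rfl⟩
    obtain ⟨κ', a1, a2⟩ := hlip z z' hz hz' κ hκ
    refine ⟨f (z', κ', ω), ⟨κ', a1, ω, hω, rfl⟩,
      (h2 _ _ (hb z hz κ hκ ω hω) (hb z' hz' κ' a1 ω hω)).trans ?_⟩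
    rw [mul_assoc]
    refine mul_le_mul_of_nonneg_left ?_ hK
    have hd : 0 ≤ ‖z - z'‖ := norm_nonneg _
    have e1 : ((z, κ, ω) : E × G × W) - (z', κ', ω) = (z - z', κ - κ', 0) := by
      rw [Prod.mk_sub_mk, Prod.mk_sub_mk, sub_self]
    rw [e1, Prod.norm_def, Prod.norm_def]
    refine max_le ?_ (max_le ?_ ?_)
    · exact le_mul_of_one_le_left hd (le_max_left _ _)
    · exact a2.trans (mul_le_mul_of_nonneg_right (le_max_right _ _) hd)
    · rw [norm_zero]; positivity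

theorem locLip_mul {f g : E → ℝ} (hf : LocallyLipschitz f) (hg : LocallyLipschitz g) :
    LocallyLipschitz (fun z => f z * g z) :=
  (contDiff_mul (𝕜 := ℝ) (n := 1) (𝔸 := ℝ)).locallyLipschitz.comp (hf.prodMk hg)

theorem locLip_smul {f : E → ℝ} {g : E → G} (hf : LocallyLipschitz f) (hg : LocallyLipschitz g) :
    LocallyLipschitz (fun z => f z • g z) :=
  (contDiff_smul (𝕜 := ℝ) (n := 1) (𝕜' := ℝ) (F := G)).locallyLipschitz.comp (hf.prodMk hg)

theorem locLip_clm (π : E →L[ℝ] G) : LocallyLipschitz (fun z => π z) :=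
  π.lipschitz.locallyLipschitz

theorem locLip_fderiv {f : E → G} (hf : ContDiff ℝ 2 f) :
    LocallyLipschitz (fun z => fderiv ℝ f z) :=
  (hf.fderiv_right (m := 1) (by norm_num)).locallyLipschitz

theorem locLip_deriv {f : ℝ → ℝ} (hf : ContDiff ℝ 2 f) : LocallyLipschitz (deriv f) := by
  have h : ContDiff ℝ 1 (deriv f) := by
    have h2 : ContDiff ℝ (1 + 1) f := by
      have : (1 + 1 : WithTop ℕ∞) = 2 := by norm_num
      rw [this]; exact hf
    exact (contDiff_succ_iff_deriv.1 h2).2.2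
  exact h.locallyLipschitz

theorem locLip_clm_comp {l : E → (G' →L[ℝ] W)} (hl : LocallyLipschitz l) (π : G →L[ℝ] G') :
    LocallyLipschitz (fun z => (l z).comp π) := by
  have h : ContDiff ℝ 1 (fun A : G' →L[ℝ] W => A.comp π) := contDiff_id.clm_comp contDiff_const
  exact h.locallyLipschitz.comp hl

theorem locLip_apply {l : E → (G →L[ℝ] G')} {g : E → G} (hl : LocallyLipschitz l)
    (hg : LocallyLipschitz g) : LocallyLipschitz (fun z => l z (g z)) := by
  have h : ContDiff ℝ 1 (fun p : (G →L[ℝ] G') × G => p.1 p.2) := contDiff_fst.clm_apply contDiff_snd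
  exact h.locallyLipschitz.comp (hl.prodMk hg)

/-- the derivative of a smooth function is bounded on the velocities over a ball -/
theorem fderiv_bound {K : E → Set E} (hK : BddK K) {f : E → ℝ} (hf : ContDiff ℝ 1 f) (R : ℝ) :
    ∃ C : ℝ, 0 ≤ C ∧ ∀ z : E, ‖z‖ ≤ R → ∀ κ ∈ K z, |fderiv ℝ f z κ| ≤ C := by
  obtain ⟨B, hB⟩ := hK R
  obtain ⟨M, hM⟩ := (isCompact_closedBall (0 : E) R).exists_bound_of_continuousOn
    (hf.continuous_fderiv one_ne_zero).continuousOn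
  refine ⟨max M 0 * max B 0, by positivity, fun z hz κ hκ => ?_⟩
  exact ((fderiv ℝ f z).le_opNorm κ).trans (mul_le_mul
    ((hM z (mem_closedBall_zero_iff.2 hz)).trans (le_max_left _ _))
    ((hB z hz κ hκ).trans (le_max_left _ _)) (norm_nonneg _) (le_max_right _ _))

/-- the cone over a convex set containing zero is convex -/
theorem cone_comb {D : Set G} (hD : Convex ℝ D) (h0 : (0 : G) ∈ D) {u u' : G} (hu : u ∈ D)
    (hu' : u' ∈ D) {s s' : ℝ} (hs : 0 ≤ s) (hs' : 0 ≤ s') :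
    ∃ u'' ∈ D, s • u + s' • u' = (s + s') • u'' := by
  rcases (add_nonneg hs hs').eq_or_lt with h | h
  · have e1 : s = 0 := by linarith
    have e2 : s' = 0 := by linarith
    exact ⟨0, h0, by rw [e1, e2, zero_smul, zero_smul, add_zero, smul_zero]⟩
  · refine ⟨(s / (s + s')) • u + (s' / (s + s')) • u', hD hu hu' (by positivity) (by positivity)
      (by rw [← add_div, div_self h.ne']), ?_⟩
    rw [smul_add, smul_smul, smul_smul, mul_div_cancel₀ _ h.ne', mul_div_cancel₀ _ h.ne']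

end Pool.Agent.MP703675
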