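import Pool.Agent.Lib.MP_703675_gt.TowerA
import Pool.Agent.Lib.MP_703675_gt.LDI

set_option autoImplicit false

open Set Metric Filter Topology TopologicalSpace

noncomputable section

namespace Pool.Agent.MP703675

variable {B S T : Sys}

theorem Sys.scale_far (S : Sys) (γ t : ℝ) : (S.scale γ).far t = S.far (t / γ) := by
  show S.z0 + t • γ⁻¹ • S.one = S.z0 + (t / γ) • S.one
  rw [smul_smul, div_eq_mul_inv]

theorem towerB_lin {E : Type} [NormedAddCommGroup E] [NormedSpace ℝ E] (f : E →L[ℝ] ℝ) {γ : ℝ}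
    (hγ : 0 < γ) (κ : E) : (γ • f) (γ⁻¹ • κ) = f κ := by
  rw [smul_apply, map_smul, smul_smul, mul_inv_cancel₀ hγ.ne', one_smul]

theorem towerB_fd {E : Type} [NormedAddCommGroup E] [NormedSpace ℝ E] {f : E → ℝ}
    (hf : ContDiff ℝ 2 f) {γ : ℝ} (hγ : 0 < γ) (z κ : E) :
    fderiv ℝ (fun x => γ * f x) z (γ⁻¹ • κ) = fderiv ℝ f z κ := by
  rw [fderiv_const_mul ((hf.differentiable (by norm_num)) z)]
  exact towerB_lin _ hγ κ

theorem Sys.Good.scale (h : S.Good) {γ : ℝ} (hγ : 0 < γ) : (S.scale γ).Good where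
  H_pos := mul_pos hγ h.H_pos
  V_one := (towerB_lin S.V hγ S.one).trans h.V_one
  V_z0 := by
    show γ • S.V S.z0 = 0
    rw [h.V_z0, smul_zero]
  convex := fun z => (h.convex z).smul γ⁻¹
  compact := fun z => (h.compact z).image (continuous_const_smul γ⁻¹)
  zero_mem := fun z => ⟨0, h.zero_mem z, smul_zero _⟩
  ldi := h.ldi.image (γ⁻¹ • ContinuousLinearMap.id ℝ S.E)
  V_le := by
    rintro z _ ⟨κ, hκ, rfl⟩
    have e : (S.scale γ).V (γ⁻¹ • κ) = S.V κ := towerB_lin S.V hγ κ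
    rw [e]
    exact h.V_le z κ hκ
  irr := by
    rintro z hz hV _ ⟨κ, hκ, rfl⟩
    have e : (S.scale γ).V (γ⁻¹ • κ) = S.V κ := towerB_lin S.V hγ κ
    have hV' : S.V z ≤ S.H := le_of_mul_le_mul_left (show γ * S.V z ≤ γ * S.H from hV) hγ
    obtain ⟨h1, κ', h2, h3⟩ := h.irr z hz hV' κ hκ
    rw [e]
    refine ⟨h1, γ⁻¹ • κ', ⟨κ', h2, rfl⟩, ?_⟩
    show γ⁻¹ • κ = (-S.V κ) • γ⁻¹ • κ'
    rw [smul_comm, ← h3]
  isOpen := h.isOpen
  bdd := by
    intro N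
    obtain ⟨R, hR⟩ := h.bdd (N / γ)
    refine ⟨R, fun z hz hV => hR z hz ?_⟩
    rw [le_div_iff₀ hγ, mul_comm]
    exact hV
  farLaw := by
    intro z hz hV κ
    have hV' : 3 * S.H ≤ S.V z := by
      have h1 : 3 * (γ * S.H) ≤ γ * S.V z := hV
      exact le_of_mul_le_mul_left (by linarith) hγ
    constructor
    · rintro ⟨κ0, hκ, rfl⟩
      obtain ⟨c, h1, rfl⟩ := (h.farLaw z hz hV' κ0).1 hκ
      exact ⟨c, h1, smul_comm _ _ _⟩
    · rintro ⟨c, h1, rfl⟩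
      exact ⟨c • S.one, (h.farLaw z hz hV' _).2 ⟨c, h1, rfl⟩, smul_comm _ _ _⟩
  inv := by
    rintro Z a b ⟨hab, hZ, T0, h1, h2, h3⟩ s hs
    have h4 : IsTraj S.K (fun s => ContinuousLinearMap.id ℝ S.E (Z (γ * s))) (a / γ) (b / γ) := by
      refine IsTraj.proj_scale hZ hγ (ContinuousLinearMap.id ℝ S.E) ?_
      rintro s - _ ⟨κ, hκ, rfl⟩
      show γ • γ⁻¹ • κ ∈ S.K (Z s)
      rwa [smul_smul, mul_inv_cancel₀ hγ.ne', one_smul]
    have h5 : S.Adm (fun s => Z (γ * s)) (a / γ) (b / γ) := by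
      refine ⟨div_le_div_of_nonneg_right hab hγ.le, h4, T0 / γ, ?_, ?_, ?_⟩
      · have h6 : 3 * (γ * S.H) ≤ T0 := h1
        rw [le_div_iff₀ hγ]; linarith
      · rw [← sub_div]; exact div_le_div_of_nonneg_right h2 hγ.le
      · show Z (γ * (a / γ)) = _
        rw [mul_div_cancel₀ _ hγ.ne', h3, Sys.scale_far]
    have h7 := h.inv _ _ _ h5 (s / γ)
      ⟨div_le_div_of_nonneg_right hs.1 hγ.le, div_le_div_of_nonneg_right hs.2 hγ.le⟩
    simp only [mul_div_cancel₀ _ hγ.ne'] at h7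
    exact h7

section scale

variable {E : Type} [NormedAddCommGroup E] [NormedSpace ℝ E] (ld : LD E) (par : ℕ → Par) {γ : ℝ}

theorem towerB_aS (hγ : 0 < γ) (j : ℕ) (z : E) :
    (ld.scale γ).aS (fun j => (par j).scale γ) j z = ld.aS par j z := by
  show ((par j).scale γ).al (γ * ld.Vj j z) * ((par j).scale γ).S (γ * ld.Dj j z) = _
  rw [Par.scale_al _ hγ, Par.scale_S _ hγ]
  rfl

theorem towerB_aR (hγ : 0 < γ) (j : ℕ) (z : E) :
    (ld.scale γ).aR (fun j => (par j).scale γ) j z = ld.aR par j z := by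
  show ((par j).scale γ).al (γ * ld.Vj j z) * ((par j).scale γ).rho (γ * ld.Dj j z) = _
  rw [Par.scale_al _ hγ, Par.scale_rho _ hγ]
  rfl

theorem towerB_er (hγ : 0 < γ) (j : ℕ) (z : E) :
    (ld.scale γ).er (fun j => (par j).scale γ) j z = ld.er par j z := by
  show (par j).eta * ((par j).scale γ).ind (γ * ld.Vj j z) = _
  rw [Par.scale_ind _ hγ]
  rfl

theorem towerB_valid (hγ : 0 < γ) (j : ℕ) (b : Bool) (z : E) :
    (ld.scale γ).valid j b z ↔ ld.valid j b z := by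
  show γ * ld.T j b z ≤ γ * ld.T j (!b) z + γ * ld.r j ↔ _
  rw [← mul_add, mul_le_mul_iff_right₀ hγ]
  rfl

end scale

theorem Tower.scale_top {θ slk γ : ℝ} {φ : S.E →L[ℝ] B.E} {m k : ℕ} {par : ℕ → Par} {ld : LD S.E}
    (h : Tower B θ S φ m k par ld slk) (hγ : 0 < γ) :
    Tower B (γ * θ) (S.scale γ) φ m k (fun j => (par j).scale γ) (ld.scale γ) (γ * slk) := by
  have hD : ∀ j (κ : S.E), (ld.scale γ).Dj j (γ⁻¹ • κ) = ld.Dj j κ :=
    fun j κ => towerB_lin _ hγ κ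
  have hF : ∀ j b (z κ : S.E), fderiv ℝ ((ld.scale γ).T j b) z (γ⁻¹ • κ) =
      fderiv ℝ (ld.T j b) z κ := fun j b z κ => towerB_fd (h.smooth j b) hγ z κ
  have hV : ∀ κ : S.E, (S.scale γ).V (γ⁻¹ • κ) = S.V κ := fun κ => towerB_lin S.V hγ κ
  have hs : ∀ (x : ℝ) (u : B.E), γ⁻¹ • (x / θ) • u = (x / (γ * θ)) • u := by
    intro x u
    rw [smul_smul]
    congr 1
    have := h.pos.ne'
    have := hγ.ne'
    field_simp
  refine
    { pos := mul_pos hγ h.pos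
      le := h.le
      slk_nonneg := mul_nonneg hγ.le h.slk_nonneg
      norm_le := h.norm_le
      surj := h.surj
      map_one := ?_
      map_z0 := h.map_z0
      mapsTo := h.mapsTo
      H_le := ?_
      pgood := fun j h1 h2 => (h.pgood j h1 h2).scale hγ
      lev_H := ?_
      smooth := fun j b => contDiff_const.mul (h.smooth j b)
      r_pos := fun j => mul_pos hγ (h.r_pos j)
      D_bd := ?_
      T_bd := ?_
      dom := ?_
      dom1 := ?_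
      dom2 := ?_
      vel := ?_
      quiet := ?_
      lead := ?_
      resp := ?_ }
  · show φ (γ⁻¹ • S.one) = _
    rw [map_smul, h.map_one, smul_smul, mul_inv]
  · show γ * θ * B.H ≤ γ * S.H
    rw [mul_assoc]
    exact mul_le_mul_of_nonneg_left h.H_le hγ.le
  · intro j h1 h2
    obtain ⟨h3, h4⟩ := h.lev_H j h1 h2
    have h5 := mul_le_mul_of_nonneg_left h3 hγ.le
    refine ⟨?_, mul_le_mul_of_nonneg_left h4 hγ.le⟩
    show 60 * (γ * θ * B.H) ≤ γ * (par j).H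
    linarith
  · intro z hz j h1 h2
    obtain ⟨h3, h4⟩ := h.D_bd z hz j h1 h2
    have h5 := mul_le_mul_of_nonneg_left h3 hγ.le
    constructor
    · show -(γ * (par j).c) ≤ γ * ld.Dj j z
      linarith
    · rw [Par.scale_cap]
      exact mul_le_mul_of_nonneg_left h4 hγ.le
  · intro z hz j h1 h2 b
    obtain ⟨h3, h4⟩ := h.T_bd z hz j h1 h2 b
    exact ⟨mul_nonneg hγ.le h3, mul_le_mul_of_nonneg_left h4 hγ.le⟩
  · intro z hz
    have h5 := mul_le_mul_of_nonneg_left (h.dom z hz) hγ.le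
    show γ * S.V z ≤ γ * θ * B.V (φ z) + γ * slk
    linarith
  · intro z hz j h1 h2
    have h5 := mul_le_mul_of_nonneg_left (h.dom1 z hz j h1 h2) hγ.le
    show γ * S.V z ≤ γ * ld.Vj j z + γ * slk
    linarith
  · intro z hz j h1 h2
    have h5 := mul_le_mul_of_nonneg_left (h.dom2 z hz j h1 h2) hγ.le
    show γ * ld.Vj j z ≤ γ * θ * B.V (φ z) + γ * slk
    linarith
  · rintro z hz _ ⟨κ, hκ, rfl⟩
    have h5 := h.vel z hz κ hκ
    have e : γ * θ * B.V (φ (γ⁻¹ • κ)) = θ * B.V (φ κ) := by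
      rw [map_smul, map_smul, smul_eq_mul]
      have := hγ.ne'
      field_simp
    show (S.scale γ).V (γ⁻¹ • κ) ≤ γ * θ * B.V (φ (γ⁻¹ • κ))
    rw [hV, e]
    exact h5
  · rintro z hz j h1 h2 h3 _ ⟨κ, hκ, rfl⟩ b
    have h4 : (par j).H < ld.Vj j z :=
      lt_of_mul_lt_mul_left (show γ * (par j).H < γ * ld.Vj j z from h3) hγ.le
    exact (hF j b z κ).trans (h.quiet z hz j h1 h2 h4 κ hκ b)
  · rintro z hz _ ⟨κ, hκ, rfl⟩
    obtain ⟨s, h1, ⟨u, hu, h2⟩, h3⟩ := h.lead z hz κ hκ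
    refine ⟨s, h1, ⟨u, hu, ?_⟩, fun j h4 h5 => ?_⟩
    · show φ (γ⁻¹ • κ) = _
      rw [map_smul, h2, hs]
    · obtain ⟨h6, h7, h8, h9⟩ := h3 j h4 h5
      simp only [towerB_aS ld par hγ, towerB_aR ld par hγ, towerB_er ld par hγ,
        towerB_valid ld hγ, hD, hF]
      exact ⟨h6, h7, h8, h9⟩
  · intro z hz b hb s δ hp u hu
    have hp' : ld.Plan par m k z s δ := by
      refine ⟨hp.1, fun j h4 h5 => ?_⟩
      have h6 := hp.2 j h4 h5
      simpa only [towerB_aS ld par hγ, towerB_aR ld par hγ] using h6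
    obtain ⟨κ, hκ, h1, h2, h3, -⟩ := h.resp z hz b
      (fun j h4 h5 => (towerB_valid ld hγ j _ z).1 (hb j h4 h5)) s δ hp' u hu
    refine ⟨γ⁻¹ • κ, ⟨κ, hκ, rfl⟩, ?_, fun h4 => ?_, fun j h4 h5 => ?_, trivial⟩
    · show φ (γ⁻¹ • κ) = _
      rw [map_smul, h1, hs]
    · rw [hV]
      exact h2 (le_of_mul_le_mul_left (show γ * S.V z ≤ γ * S.H from h4) hγ)
    · simp only [towerB_er ld par hγ, hD, hF]
      exact h3 j h4 h5

theorem Tower.unscale {θ slk γ : ℝ} {π : T.E →L[ℝ] S.E} {m k : ℕ} {par : ℕ → Par} {ld : LD T.E}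
    (h : Tower (S.scale γ) θ T π m k par ld slk) (hγ : 0 < γ) :
    Tower S (θ * γ) T π m k par ld slk := by
  have hs : ∀ (x : ℝ) (u : S.E), (x / θ) • γ⁻¹ • u = (x / (θ * γ)) • u := by
    intro x u
    rw [smul_smul, ← div_eq_mul_inv, div_div]
  refine
    { pos := mul_pos h.pos hγ
      le := h.le
      slk_nonneg := h.slk_nonneg
      norm_le := h.norm_le
      surj := h.surj
      map_one := ?_
      map_z0 := h.map_z0
      mapsTo := h.mapsTo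
      H_le := ?_
      pgood := h.pgood
      lev_H := ?_
      smooth := h.smooth
      r_pos := h.r_pos
      D_bd := h.D_bd
      T_bd := h.T_bd
      dom := ?_
      dom1 := h.dom1
      dom2 := ?_
      vel := ?_
      quiet := h.quiet
      lead := ?_
      resp := ?_ }
  · have h1 : π T.one = θ⁻¹ • γ⁻¹ • S.one := h.map_one
    rw [h1, smul_smul, mul_inv]
  · rw [mul_assoc]
    exact h.H_le
  · intro j h1 h2
    rw [mul_assoc]
    exact h.lev_H j h1 h2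
  · intro z hz
    rw [mul_assoc]
    exact h.dom z hz
  · intro z hz j h1 h2
    rw [mul_assoc]
    exact h.dom2 z hz j h1 h2
  · intro z hz κ hκ
    rw [mul_assoc]
    exact h.vel z hz κ hκ
  · intro z hz κ hκ
    obtain ⟨s, h1, ⟨_, ⟨u, hu, rfl⟩, h2⟩, h3⟩ := h.lead z hz κ hκ
    exact ⟨s, h1, ⟨u, hu, h2.trans (hs _ _)⟩, h3⟩
  · intro z hz b hb s δ hp u hu
    obtain ⟨κ, hκ, h1, h2⟩ := h.resp z hz b hb s δ hp (γ⁻¹ • u) ⟨u, hu, rfl⟩
    exact ⟨κ, hκ, h1.trans (hs _ _), h2⟩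

variable {θ slk : ℝ} {π : T.E →L[ℝ] B.E} {m n : ℕ} {par : ℕ → Par} {ld : LD T.E}

theorem Tower.map_far (h : Tower B θ T π m n par ld slk) (t : ℝ) :
    π (T.far t) = B.far (t / θ) := by
  unfold Sys.far
  rw [map_add, map_smul, h.map_z0, h.map_one, smul_smul, div_eq_mul_inv]

theorem Tower.proj_mem (h : Tower B θ T π m n par ld slk) (hB : B.Good) {z : T.E} (hz : z ∈ T.Om)
    {κ : T.E} (hκ : κ ∈ T.K z) : θ • π κ ∈ B.K (π z) := by
  obtain ⟨s, h1, ⟨u, hu, h2⟩, h3⟩ := h.lead z hz κ hκ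
  have h4 := act_mem (m := m) (α := fun j => ld.aS par j z) h1
    (fun j h5 h6 => ⟨(ld.aS_mem (h.pgood j h5 h6) z).1, (h3 j h5 h6).1, (h3 j h5 h6).2.1⟩)
    le_rfl h.le
  rw [h2, smul_smul, mul_div_cancel₀ _ h.pos.ne']
  exact hB.star _ hu h4.1 h4.2

theorem Tower.mor (h : Tower B θ T π m n par ld slk) (hB : B.Good) (hT : T.Good) :
    Mor B θ T π where
  pos := h.pos
  norm_le := h.norm_le
  H_le := h.H_le
  far := h.map_far
  traj := fun Z a b hZ => IsTraj.proj_scale hZ.2.1 h.pos π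
    (fun s hs _ hκ => h.proj_mem hB (hT.inv Z a b hZ s hs) hκ)
  burn := by
    intro Z a b hZ s t h1 h2 h3
    have h4 := IsTraj.le_rate_lin hZ.2.1 hT.bddK (T.V - θ • B.V.comp π) (ρ := 0)
      (fun s hs κ hκ => by
        have h5 := h.vel _ (hT.inv Z a b hZ s (Ico_subset_Icc_self hs)) κ hκ
        show T.V κ - θ * B.V (π κ) ≤ 0
        linarith) h1 h2 h3
    have h6 : T.V (Z t) - θ * B.V (π (Z t)) - (T.V (Z s) - θ * B.V (π (Z s))) ≤ 0 * (t - s) := h4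
    linarith

theorem towerB_er_nonneg {E : Type} [NormedAddCommGroup E] [NormedSpace ℝ E] (ld : LD E)
    {par : ℕ → Par} {j : ℕ} (h : (par j).Good) (z : E) : 0 ≤ ld.er par j z := by
  refine mul_nonneg h.eta_pos.le ?_
  unfold Par.ind
  split_ifs
  · exact zero_le_one
  · exact le_rfl

/-- Plan: `s j = (1 - aS j) * s (j+1)`, `δ j = -(aS j * s (j+1))`, the sum telescopes. -/
theorem Tower.move_or_pay (h : Tower B θ T π m n par ld slk) {z : T.E} (hz : z ∈ T.Om)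
    {b : ℕ → Bool} (hb : ∀ j, m ≤ j → j < n → ld.valid j (b j) z) :
    ∃ σ : ℝ, 0 ≤ σ ∧ σ ≤ 1 ∧ ∀ u ∈ B.K (π z), ∃ κ ∈ T.K z, π κ = (σ / θ) • u ∧
      (T.V z ≤ T.H → T.V κ = -1) ∧
      ∑ j ∈ Finset.Ico m n, (ld.Dj j κ + fderiv ℝ (ld.T j (b j)) z κ) ≤
        -(1 - σ) + ∑ j ∈ Finset.Ico m n, ld.er par j z := by
  obtain ⟨s, hn, hs, h0⟩ : ∃ s : ℕ → ℝ, s n = 1 ∧
      (∀ j, j < n → s j = (1 - ld.aS par j z) * s (j + 1)) ∧ ∀ j, m ≤ j → 0 ≤ s j := by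
    refine ⟨fun j => ∏ i ∈ Finset.Ico j n, (1 - ld.aS par i z), by simp, fun j hj => ?_,
      fun j hj => ?_⟩
    · exact Finset.prod_eq_prod_Ico_succ_bot hj _
    · refine Finset.prod_nonneg fun i hi => ?_
      rw [Finset.mem_Ico] at hi
      exact sub_nonneg.2 (ld.aS_mem (h.pgood i (hj.trans hi.1) hi.2) z).2
  have h1 : ∀ j, m ≤ j → j ≤ n → 0 ≤ s j ∧ s j ≤ 1 := fun j h2 h3 =>
    act_mem (m := m) (α := fun j => ld.aS par j z) hn
      (fun j h5 h6 => ⟨(ld.aS_mem (h.pgood j h5 h6) z).1, h0 j h5, (hs j h6).le⟩) h2 h3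
  have hp : ld.Plan par m n z s (fun j => -(ld.aS par j z * s (j + 1))) := by
    refine ⟨hn, fun j h2 h3 => ⟨h0 j h2, (hs j h3).le, le_rfl, ?_⟩⟩
    have h4 := mul_nonneg (ld.aS_mem (h.pgood j h2 h3) z).1 (h0 (j + 1) (by omega))
    have h5 : s (j + 1) - s j = ld.aS par j z * s (j + 1) := by rw [hs j h3]; ring
    have h6 := mul_nonneg (ld.aR_mem (h.pgood j h2 h3) z).1 h4
    rw [h5]
    show -(ld.aS par j z * s (j + 1)) ≤ _
    linarith
  refine ⟨s m, (h1 m le_rfl h.le).1, (h1 m le_rfl h.le).2, fun u hu => ?_⟩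
  obtain ⟨κ, hκ, h2, h3, h4, -⟩ := h.resp z hz b hb s _ hp u hu
  refine ⟨κ, hκ, h2, h3, ?_⟩
  have h5 := Finset.sum_Ico_sub s h.le
  rw [hn] at h5
  rw [← h5, ← Finset.sum_neg_distrib, ← Finset.sum_add_distrib]
  refine Finset.sum_le_sum fun j hj => ?_
  rw [Finset.mem_Ico] at hj
  have h6 : ld.Dj j κ + fderiv ℝ (ld.T j (b j)) z κ ≤
      -(ld.aS par j z * s (j + 1)) + ld.er par j z * s (j + 1) := (h4 j hj.1 hj.2).2
  have h7 : s (j + 1) - s j = ld.aS par j z * s (j + 1) := by rw [hs j hj.2]; ring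
  have h8 := mul_le_of_le_one_right (towerB_er_nonneg ld (h.pgood j hj.1 hj.2) z)
    (h1 (j + 1) (by omega) (by omega)).2
  linarith

theorem Tower.far_lead (h : Tower B θ T π m n par ld slk) {z : T.E} (hz : z ∈ T.Om)
    {b : ℕ → Bool} (hb : ∀ j, m ≤ j → j < n → ld.valid j (b j) z) {κ : T.E} (hκ : κ ∈ T.K z) :
    ∃ σ : ℝ, 0 ≤ σ ∧ σ ≤ 1 ∧ (∃ u ∈ B.K (π z), π κ = (σ / θ) • u) ∧
      ∑ j ∈ Finset.Ico m n, (ld.Dj j κ + fderiv ℝ (ld.T j (b j)) z κ) ≤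
        (1 - σ) + ∑ j ∈ Finset.Ico m n, ld.er par j z := by
  obtain ⟨s, hn, h2, h3⟩ := h.lead z hz κ hκ
  have h1 : ∀ j, m ≤ j → j ≤ n → 0 ≤ s j ∧ s j ≤ 1 := fun j h4 h7 =>
    act_mem (m := m) (α := fun j => ld.aS par j z) hn
      (fun j h5 h6 => ⟨(ld.aS_mem (h.pgood j h5 h6) z).1, (h3 j h5 h6).1, (h3 j h5 h6).2.1⟩) h4 h7
  refine ⟨s m, (h1 m le_rfl h.le).1, (h1 m le_rfl h.le).2, h2, ?_⟩
  have h5 := Finset.sum_Ico_sub s h.le
  rw [hn] at h5
  rw [← h5, ← Finset.sum_add_distrib]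
  refine Finset.sum_le_sum fun j hj => ?_
  rw [Finset.mem_Ico] at hj
  obtain ⟨-, h6, -, h7⟩ := h3 j hj.1 hj.2
  have h8 := h7 (b j) (hb j hj.1 hj.2)
  have h9 := h1 (j + 1) (by omega) (by omega)
  have h10 := mul_le_of_le_one_right (towerB_er_nonneg ld (h.pgood j hj.1 hj.2) z) h9.2
  have h11 := mul_nonneg (ld.aS_mem (h.pgood j hj.1 hj.2) z).1 h9.1
  have h12 : 0 ≤ s (j + 1) - s j := by linarith
  have h13 := mul_le_of_le_one_left h12 (ld.aR_mem (h.pgood j hj.1 hj.2) z).2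
  linarith

/-- Plan: apply `lead` and `quiet` at `far t` with `t` large. -/
theorem Tower.D_one (h : Tower B θ T π m n par ld slk) (hT : T.Good) {j : ℕ} (hj : m ≤ j)
    (hj' : j < n) : ld.Dj j T.one = 0 := by
  have h0 := h.slk_nonneg
  have hH := hT.H_pos
  have hz : T.far (3 * T.H + slk) ∈ T.Om := hT.far_mem (by linarith)
  have hV := hT.V_far (3 * T.H + slk)
  have h1 := h.dom1 _ hz j hj hj'
  have h2 := (h.lev_H j hj hj').2
  have h3 : ld.aS par j (T.far (3 * T.H + slk)) = 0 := by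
    unfold LD.aS
    rw [(h.pgood j hj hj').al_zero (by linarith), zero_mul]
  have key : ∀ c : ℝ, |c| ≤ 1 → 0 ≤ c * ld.Dj j T.one := by
    intro c hc
    obtain ⟨s, -, -, h4⟩ := h.lead _ hz (c • T.one)
      ((hT.farLaw _ hz (by linarith) _).2 ⟨c, hc, rfl⟩)
    have h5 := (h4 j hj hj').2.2.1
    rwa [h3, zero_mul, neg_zero, map_smul, smul_eq_mul] at h5
  have h6 := key 1 (by simp)
  have h7 := key (-1) (by simp)
  linarith

theorem Tower.dT_far (h : Tower B θ T π m n par ld slk) (hT : T.Good) (hs : slk ≤ T.H) {z : T.E}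
    (hz : z ∈ T.Om) (hV : 3 * T.H ≤ T.V z) {j : ℕ} (hj : m ≤ j) (hj' : j < n) (b : Bool) :
    fderiv ℝ (ld.T j b) z T.one = 0 := by
  have hH := hT.H_pos
  have h1 := h.dom1 _ hz j hj hj'
  have h2 := (h.lev_H j hj hj').2
  exact h.quiet z hz j hj hj' (by linarith) _
    ((hT.farLaw _ hz hV _).2 ⟨1, by simp, (one_smul _ _).symm⟩) b

theorem Tower.exists_Kb (h : Tower B θ T π m n par ld slk) (hT : T.Good) : ∃ Kb : ℝ, 0 ≤ Kb ∧
    ∀ z ∈ T.Om, ∀ u ∈ T.K z, ∀ j, m ≤ j → j < n → ∀ b,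
      |fderiv ℝ (ld.T j b) z u| ≤ Kb * (par j).ind (ld.Vj j z) := by
  obtain ⟨R, hR⟩ := hT.bdd (T.H + slk)
  have h1 : ∀ p : ℕ × Bool, ∃ C : ℝ, 0 ≤ C ∧ ∀ z : T.E, ‖z‖ ≤ R → ∀ κ ∈ T.K z,
      |fderiv ℝ (ld.T p.1 p.2) z κ| ≤ C :=
    fun p => fderiv_bound hT.bddK ((h.smooth p.1 p.2).of_le (by norm_num)) R
  choose C hC0 hC using h1
  refine ⟨∑ p ∈ Finset.range n ×ˢ Finset.univ, C p, Finset.sum_nonneg fun p _ => hC0 p, ?_⟩
  intro z hz u hu j hj hj' b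
  unfold Par.ind
  split_ifs with h2
  · rw [mul_one]
    have h3 := h.dom1 _ hz j hj hj'
    have h4 := (h.lev_H j hj hj').2
    refine (hC (j, b) z (hR z hz (by linarith)) u hu).trans ?_
    exact Finset.single_le_sum (f := C) (fun p _ => hC0 p)
      (Finset.mem_product.2 ⟨Finset.mem_range.2 hj', Finset.mem_univ _⟩)
  · rw [h.quiet z hz j hj hj' (not_le.1 h2) u hu b, abs_zero, mul_zero]

end Pool.Agent.MP703675
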