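import Pool.Agent.Lib.MP_703675_gt.Target
import Pool.Agent.Lib.MP_703675_gt.TowerB

set_option autoImplicit false

open Set Metric Filter Topology TopologicalSpace

noncomputable section

namespace Pool.Agent.MP703675

theorem prodD_st {N t : ℝ} (hN : 0 < N) (ht : t ≤ N) : st (2 - t / N) = 1 := by
  apply st_one
  have : t / N ≤ 1 := (div_le_one hN).2 ht
  linarith

theorem prodD_inv {γ : ℝ} (h1 : 1 / 3 ≤ γ) : 0 < γ⁻¹ ∧ γ⁻¹ ≤ 3 := by
  have hγ : 0 < γ := by linarith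
  refine ⟨inv_pos.2 hγ, ?_⟩
  rw [inv_le_comm₀ hγ (by norm_num)]
  norm_num
  linarith

theorem prodD_smul_le {E : Type} [NormedAddCommGroup E] [NormedSpace ℝ E] {γ B : ℝ}
    (h1 : 1 / 3 ≤ γ) {v : E} (hv : ‖v‖ ≤ B) : ‖γ⁻¹ • v‖ ≤ 3 * B := by
  obtain ⟨h0, h3⟩ := prodD_inv h1
  rw [norm_smul, Real.norm_eq_abs, abs_of_pos h0]
  exact mul_le_mul h3 hv (norm_nonneg _) (by norm_num)

/-- choice of the base velocity -/
theorem prodD_vel {S : Sys} (hS : S.Good) {R L : ℝ}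
    (hR : ∀ z ∈ S.Om, S.V z ≤ 5 * S.H → ‖z‖ ≤ R) (hL0 : 0 ≤ L)
    (hL : ∀ z z' : S.E, ‖z‖ ≤ R → ‖z'‖ ≤ R → ∀ κ ∈ S.K z, ∃ κ' ∈ S.K z',
      ‖κ - κ'‖ ≤ L * ‖z - z'‖)
    {γ Tm Qc η : ℝ} {ζ g : ℝ → S.E} (h1 : 1 / 3 ≤ γ) (h3 : γ ≤ 3)
    (hT : Target S γ Tm Qc η ζ g) {x : S.E} (hx : x ∈ S.Om) {t e : ℝ}
    (ht : t ≤ γ * S.V x + 2 * S.H / 3) (hd : ‖x - ζ t‖ ≤ e)
    (he : ‖S.V‖ * (e + η) ≤ S.H / 2) :
    ∃ κ ∈ S.K x, ‖γ⁻¹ • κ - g t‖ ≤
      η / (Tm + 1) * st (2 - t / (Tm + 1)) + 3 * L * (e + η) * st (2 - t / (15 * S.H)) := by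
  have hH := hS.H_pos
  have hγ : 0 < γ := by linarith
  have hη := hT.eta_nonneg
  have he0 : 0 ≤ e := (norm_nonneg _).trans hd
  have hγH : S.H / 3 ≤ γ * S.H := by nlinarith
  have hTm : 0 < Tm := by have := hT.Tm_ge; linarith
  have hA : 0 ≤ η / (Tm + 1) * st (2 - t / (Tm + 1)) :=
    mul_nonneg (div_nonneg hη (by linarith)) (st_nonneg _)
  have hB : 0 ≤ 3 * L * (e + η) * st (2 - t / (15 * S.H)) :=
    mul_nonneg (mul_nonneg (by linarith) (by linarith)) (st_nonneg _)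
  by_cases hc : Tm ≤ t
  · have h5 := hT.Tm_ge
    have hV : 3 * S.H ≤ S.V x := by
      have : γ * (3 * S.H) ≤ γ * S.V x := by linarith
      exact le_of_mul_le_mul_left this hγ
    refine ⟨(-1 : ℝ) • S.one, (hS.farLaw x hx hV _).2 ⟨-1, by norm_num, rfl⟩, ?_⟩
    rw [(hT.far t hc).2]
    have : γ⁻¹ • ((-1 : ℝ) • S.one) - -(γ⁻¹ • S.one) = 0 := by
      rw [neg_one_smul, smul_neg, sub_self]
    rw [this, norm_zero]
    linarith
  · have hc' : t ≤ Tm + 1 := by linarith [not_le.1 hc]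
    rw [prodD_st (by linarith) hc', mul_one]
    obtain ⟨z, hz, κ, hκ, hz1, hκ1⟩ := hT.near t
    have hxz : ‖z - x‖ ≤ e + η := by
      have e1 : z - x = -((x - ζ t) + (ζ t - z)) := by abel
      rw [e1, norm_neg]
      exact (norm_add_le _ _).trans (add_le_add hd hz1)
    have hVxz : |S.V z - S.V x| ≤ S.H / 2 := by
      rw [← map_sub]
      have := S.V.le_opNorm (z - x)
      rw [Real.norm_eq_abs] at this
      exact this.trans ((mul_le_mul_of_nonneg_left hxz (norm_nonneg _)).trans he)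
    obtain ⟨hV1, hV2⟩ := abs_le.1 hVxz
    by_cases h4 : 4 * S.H ≤ S.V z
    · refine ⟨κ, ?_, ?_⟩
      · exact (hS.farLaw x hx (by linarith) _).2 ((hS.farLaw z hz (by linarith) _).1 hκ)
      · rw [norm_sub_rev]
        linarith
    · have h4' := not_le.1 h4
      obtain ⟨κ', hκ', hκκ⟩ := hL z x (hR z hz (by linarith)) (hR x hx (by linarith)) κ hκ
      refine ⟨κ', hκ', ?_⟩
      have ht15 : t ≤ 15 * S.H := by
        have a1 : γ * S.V x ≤ γ * (9 / 2 * S.H) := mul_le_mul_of_nonneg_left (by linarith) hγ.le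
        have a2 : γ * (9 / 2 * S.H) ≤ 3 * (9 / 2 * S.H) :=
          mul_le_mul_of_nonneg_right h3 (by linarith)
        linarith
      rw [prodD_st (by linarith) ht15, mul_one]
      have e1 : γ⁻¹ • κ' - g t = -((g t - γ⁻¹ • κ) + γ⁻¹ • (κ - κ')) := by
        rw [smul_sub]; abel
      rw [e1, norm_neg]
      refine (norm_add_le _ _).trans (add_le_add hκ1 ?_)
      have a3 : ‖κ - κ'‖ ≤ L * (e + η) := hκκ.trans (mul_le_mul_of_nonneg_left hxz hL0)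
      have := prodD_smul_le h1 a3
      linarith

section tower

variable {S C : Sys} {γ slkC : ℝ} {pS : C.E →L[ℝ] S.E} {k n : ℕ} {par : ℕ → Par} {ld : LD C.E}

theorem prodD_fd (hp : ld.Pure) (j : ℕ) (b : Bool) (z κ : C.E) :
    fderiv ℝ (ld.T j b) z κ = 0 := by
  have : ld.T j b = fun _ => (0 : ℝ) := funext fun z => hp j b z
  rw [this]
  simp

theorem prodD_levH (hS : S.Good) (h1 : 1 / 3 ≤ γ) (h : Tower (S.scale γ) 1 C pS k n par ld slkC)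
    {j : ℕ} (hj : j ∈ Finset.Ico k n) : 20 * S.H ≤ (par j).H := by
  obtain ⟨a, b⟩ := Finset.mem_Ico.1 hj
  have h2 : 60 * (1 * (γ * S.H)) ≤ (par j).H := (h.lev_H j a b).1
  have := hS.H_pos
  nlinarith

theorem prodD_er_le (h : Tower (S.scale γ) 1 C pS k n par ld slkC) (z : C.E)
    {j : ℕ} (hj : j ∈ Finset.Ico k n) : ld.er par j z ≤ (par j).eta := by
  obtain ⟨a, b⟩ := Finset.mem_Ico.1 hj
  have := (h.pgood j a b).eta_pos
  unfold LD.er Par.ind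
  split_ifs <;> linarith

theorem prodD_eta_sum (hS : S.Good) (h1 : 1 / 3 ≤ γ)
    (h : Tower (S.scale γ) 1 C pS k n par ld slkC)
    (hw : ∑ j ∈ Finset.Ico k n, (par j).w ≤ S.H) : ∑ j ∈ Finset.Ico k n, (par j).eta ≤ 1 := by
  have hH := hS.H_pos
  have : (∑ j ∈ Finset.Ico k n, (par j).eta) * S.H ≤ 1 * S.H := by
    rw [Finset.sum_mul, one_mul]
    refine le_trans (Finset.sum_le_sum fun j hj => ?_) hw
    obtain ⟨a, b⟩ := Finset.mem_Ico.1 hj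
    have g := h.pgood j a b
    have a1 := g.eta_le_w
    have a2 := prodD_levH hS h1 h hj
    have a3 := g.eta_pos
    nlinarith
  exact le_of_mul_le_mul_right this hH

theorem prodD_er_st (hS : S.Good) (h1 : 1 / 3 ≤ γ)
    (h : Tower (S.scale γ) 1 C pS k n par ld slkC) {c : C.E} (hc : c ∈ C.Om) {t : ℝ}
    (ht : t ≤ C.V c + S.H) (hs : slkC ≤ S.H) {j : ℕ} (hj : j ∈ Finset.Ico k n) :
    ld.er par j c ≤ (par j).eta * st (2 - t / (2 * (par j).H)) := by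
  obtain ⟨a, b⟩ := Finset.mem_Ico.1 hj
  have g := h.pgood j a b
  have a2 := prodD_levH hS h1 h hj
  have a3 := g.eta_pos
  have a4 := h.dom1 c hc j a b
  have hH := hS.H_pos
  unfold LD.er Par.ind
  split_ifs with hv
  · rw [prodD_st (by linarith) (by linarith)]
  · rw [mul_zero]
    exact mul_nonneg a3.le (st_nonneg _)

theorem prodD_pS_le {B : ℝ} (hS : S.Good) (h1 : 1 / 3 ≤ γ)
    (hB : ∀ z ∈ S.Om, ∀ κ ∈ S.K z, ‖κ‖ ≤ B)
    (h : Tower (S.scale γ) 1 C pS k n par ld slkC) {c : C.E} (hc : c ∈ C.Om) {u : C.E}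
    (hu : u ∈ C.K c) : ‖pS u‖ ≤ 3 * B := by
  have hγ : 0 < γ := by linarith
  have hm := h.proj_mem (hS.scale hγ) hc hu
  obtain ⟨κ, hκ, he⟩ := hm
  have he' : γ⁻¹ • κ = pS u := by
    have : γ⁻¹ • κ = (1 : ℝ) • pS u := he
    rwa [one_smul] at this
  rw [← he']
  exact prodD_smul_le h1 (hB _ (h.mapsTo c hc) κ hκ)

theorem prodD_Ds_lead (hS : S.Good) (h1 : 1 / 3 ≤ γ)
    (h : Tower (S.scale γ) 1 C pS k n par ld slkC) (hp : ld.Pure)
    (hw : ∑ j ∈ Finset.Ico k n, (par j).w ≤ S.H) {c : C.E} (hc : c ∈ C.Om) {u : C.E}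
    (hu : u ∈ C.K c) : (∑ j ∈ Finset.Ico k n, ld.Dj j) u ≤ 2 := by
  obtain ⟨b, hb⟩ := ld.exists_valid h.r_pos c
  obtain ⟨σ, h0, -, -, hs⟩ := h.far_lead hc (b := b) (fun j _ _ => (hb j).1) hu
  simp only [prodD_fd hp, add_zero] at hs
  rw [sum_apply]
  have a1 : ∑ j ∈ Finset.Ico k n, ld.er par j c ≤ ∑ j ∈ Finset.Ico k n, (par j).eta :=
    Finset.sum_le_sum fun j hj => prodD_er_le h c hj
  have a2 := prodD_eta_sum hS h1 h hw
  linarith

theorem prodD_Ds_bd (h : Tower (S.scale γ) 1 C pS k n par ld slkC) {c : C.E} (hc : c ∈ C.Om) :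
    |(∑ j ∈ Finset.Ico k n, ld.Dj j) c| ≤ ∑ j ∈ Finset.Ico k n, (par j).w := by
  rw [sum_apply]
  refine (Finset.abs_sum_le_sum_abs _ _).trans (Finset.sum_le_sum fun j hj => ?_)
  obtain ⟨a, b⟩ := Finset.mem_Ico.1 hj
  have g := h.pgood j a b
  have a1 := g.c_le_w
  have a2 := g.cap_pos
  have a3 := g.c_pos
  obtain ⟨a4, a5⟩ := h.D_bd c hc j a b
  rw [abs_le]
  constructor <;> linarith

/-- the response over a chosen base velocity -/
theorem prodD_resp {B M' : ℝ} (hS : S.Good) (h1 : 1 / 3 ≤ γ) (hM' : 0 ≤ M')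
    (hB : ∀ z ∈ S.Om, ∀ κ ∈ S.K z, ‖κ‖ ≤ B)
    (h : Tower (S.scale γ) 1 C pS k n par ld slkC) (hp : ld.Pure) {c : C.E} (hc : c ∈ C.Om)
    {t : ℝ} (ht : t ≤ C.V c + S.H) (hs : slkC ≤ S.H) {κ : S.E} (hκ : κ ∈ S.K (pS c))
    (l : S.E →L[ℝ] ℝ) (hl : ∀ u, |l u| ≤ M' * ‖u‖) (gt : S.E) :
    ∃ u ∈ C.K c, l (pS u - gt) + 3 * M' * B * (∑ j ∈ Finset.Ico k n, ld.Dj j) u ≤
      M' * ‖γ⁻¹ • κ - gt‖ +
        3 * M' * B * ∑ j ∈ Finset.Ico k n, (par j).eta * st (2 - t / (2 * (par j).H)) := by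
  obtain ⟨b, hb⟩ := ld.exists_valid h.r_pos c
  obtain ⟨σ, h0, hσ1, hm⟩ := h.move_or_pay hc (b := b) (fun j _ _ => (hb j).1)
  obtain ⟨u, hu, hpu, -, hs'⟩ := hm (γ⁻¹ • κ) ⟨κ, hκ, rfl⟩
  simp only [prodD_fd hp, add_zero] at hs'
  refine ⟨u, hu, ?_⟩
  have hpu' : pS u = σ • (γ⁻¹ • κ) := by
    have : pS u = (σ / 1) • (γ⁻¹ • κ) := hpu
    rwa [div_one] at this
  have hn : ‖γ⁻¹ • κ‖ ≤ 3 * B := prodD_smul_le h1 (hB _ (h.mapsTo c hc) κ hκ)
  have hB0 : 0 ≤ 3 * B := (norm_nonneg _).trans hn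
  have e1 : pS u - gt = (γ⁻¹ • κ - gt) - (1 - σ) • (γ⁻¹ • κ) := by
    rw [hpu', sub_smul, one_smul]; abel
  have a1 : ∑ j ∈ Finset.Ico k n, ld.er par j c ≤
      ∑ j ∈ Finset.Ico k n, (par j).eta * st (2 - t / (2 * (par j).H)) :=
    Finset.sum_le_sum fun j hj => prodD_er_st hS h1 h hc ht hs hj
  rw [e1, map_sub, map_smul, smul_eq_mul, sum_apply]
  have a2 : l (γ⁻¹ • κ - gt) ≤ M' * ‖γ⁻¹ • κ - gt‖ := (le_abs_self _).trans (hl _)
  have a3 : -l (γ⁻¹ • κ) ≤ M' * (3 * B) :=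
    (neg_le_abs _).trans ((hl _).trans (mul_le_mul_of_nonneg_left hn hM'))
  have a4 : (1 - σ) * -l (γ⁻¹ • κ) ≤ (1 - σ) * (M' * (3 * B)) :=
    mul_le_mul_of_nonneg_left a3 (by linarith)
  have a5 : M' * (3 * B) * ∑ j ∈ Finset.Ico k n, ld.Dj j u ≤ M' * (3 * B) *
      (-(1 - σ) + ∑ j ∈ Finset.Ico k n, (par j).eta * st (2 - t / (2 * (par j).H))) :=
    mul_le_mul_of_nonneg_left (by linarith) (mul_nonneg hM' hB0)
  linarith

end tower

/-- exponential weight -/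
theorem prodD_Ex {c N : ℝ} (hc : 0 ≤ c) (hN : 0 < N) : ∃ (Ex : ℝ → ℝ) (Emax : ℝ),
    ContDiff ℝ 2 Ex ∧ 1 ≤ Emax ∧ (∀ t, 0 < Ex t ∧ Ex t ≤ Emax ∧ 0 ≤ deriv Ex t ∧ (0 ≤ t → 1 ≤ Ex t)) ∧
      ∀ t, deriv Ex t = Ex t * (c * st (2 - t / N)) := by
  have hd : ∀ t, deriv (fun t => Real.exp (c * Aint N t)) t =
      Real.exp (c * Aint N t) * (c * st (2 - t / N)) := fun t =>
    (((Aint_hasDerivAt hN t).const_mul c).exp).deriv
  refine ⟨fun t => Real.exp (c * Aint N t), Real.exp (c * (2 * N)), ?_, ?_, fun t => ?_, hd⟩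
  · exact (contDiff_const.mul (Aint_smooth 2)).exp
  · exact Real.one_le_exp (mul_nonneg hc (by linarith))
  · refine ⟨Real.exp_pos _, ?_, ?_, fun ht => ?_⟩
    · exact Real.exp_le_exp.2 (mul_le_mul_of_nonneg_left (Aint_le hN t) hc)
    · rw [hd]
      exact mul_nonneg (Real.exp_pos _).le (mul_nonneg hc (st_nonneg _))
    · refine Real.one_le_exp (mul_nonneg hc ?_)
      exact le_trans (le_min ht (by linarith)) (Aint_ge hN t)

/-- additive budget -/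
theorem prodD_Th {a1 a2 a3 N1 N2 : ℝ} (F : Finset ℕ) (e Hs : ℕ → ℝ) (h1 : 0 ≤ a1) (h2 : 0 ≤ a2)
    (h3 : 0 ≤ a3) (hN1 : 0 < N1) (hN2 : 0 < N2) (he : ∀ j ∈ F, 0 ≤ e j)
    (hH : ∀ j ∈ F, 0 < Hs j) : ∃ Th : ℝ → ℝ, ContDiff ℝ 2 Th ∧
      (∀ t, deriv Th t = a1 * st (2 - t / N1) + a2 * st (2 - t / N2) +
        a3 * ∑ j ∈ F, e j * st (2 - t / Hs j)) ∧
      (∀ t, 0 ≤ deriv Th t ∧ (0 ≤ t → 0 ≤ Th t)) ∧
      ∀ t, Th t ≤ a1 * (2 * N1) + a2 * (2 * N2) + a3 * ∑ j ∈ F, e j * (2 * Hs j) := by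
  have hd : ∀ t, deriv (fun t => a1 * Aint N1 t + a2 * Aint N2 t +
      a3 * ∑ j ∈ F, e j * Aint (Hs j) t) t = a1 * st (2 - t / N1) + a2 * st (2 - t / N2) +
        a3 * ∑ j ∈ F, e j * st (2 - t / Hs j) := fun t =>
    ((((Aint_hasDerivAt hN1 t).const_mul a1).fun_add ((Aint_hasDerivAt hN2 t).const_mul a2)).fun_add
      ((HasDerivAt.fun_sum fun j hj => (Aint_hasDerivAt (hH j hj) t).const_mul (e j)).const_mul
        a3)).deriv
  have hA : ∀ {N t : ℝ}, 0 < N → 0 ≤ t → 0 ≤ Aint N t := fun {N t} hN ht =>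
    le_trans (le_min ht (by linarith)) (Aint_ge hN t)
  refine ⟨fun t => a1 * Aint N1 t + a2 * Aint N2 t + a3 * ∑ j ∈ F, e j * Aint (Hs j) t, ?_, hd,
    fun t => ⟨?_, fun ht => ?_⟩, fun t => ?_⟩
  · exact ((contDiff_const.mul (Aint_smooth 2)).add (contDiff_const.mul (Aint_smooth 2))).add
      (contDiff_const.mul (ContDiff.sum fun j _ => contDiff_const.mul (Aint_smooth 2)))
  · rw [hd]
    exact add_nonneg (add_nonneg (mul_nonneg h1 (st_nonneg _)) (mul_nonneg h2 (st_nonneg _)))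
      (mul_nonneg h3 (Finset.sum_nonneg fun j hj => mul_nonneg (he j hj) (st_nonneg _)))
  · exact add_nonneg (add_nonneg (mul_nonneg h1 (hA hN1 ht)) (mul_nonneg h2 (hA hN2 ht)))
      (mul_nonneg h3 (Finset.sum_nonneg fun j hj => mul_nonneg (he j hj) (hA (hH j hj) ht)))
  · exact add_le_add (add_le_add (mul_le_mul_of_nonneg_left (Aint_le hN1 t) h1)
      (mul_le_mul_of_nonneg_left (Aint_le hN2 t) h2)) (mul_le_mul_of_nonneg_left
        (Finset.sum_le_sum fun j hj => mul_le_mul_of_nonneg_left (Aint_le (hH j hj) t) (he j hj)) h3)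

theorem prodD_arith {E Emax X D M' L M nv a s1 s2 Nn r sm P : ℝ} (hE : 0 < E) (hEm : E ≤ Emax)
    (hM' : 0 ≤ M') (hL : 0 ≤ L) (hM : 0 ≤ M) (ha : 0 ≤ a) (hs1 : 0 ≤ s1) (hs2 : 0 ≤ s2)
    (hr : 0 ≤ r) (hsm : 0 ≤ sm) (hP : 0 ≤ P)
    (h1 : X + M * D ≤ M' * nv + M * sm) (h2 : nv ≤ a * s1 + 3 * L * (Nn + r) * s2) :
    E * (X + M * D) ≤ E * (3 * M' * L * s2) * (Nn + M * P) +
      (Emax * (M' * a) * s1 + Emax * (3 * M' * L * r) * s2 + Emax * M * sm) := by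
  have b1 : M' * nv ≤ M' * (a * s1 + 3 * L * (Nn + r) * s2) := mul_le_mul_of_nonneg_left h2 hM'
  have b2 : E * (X + M * D) ≤ E * (M' * (a * s1 + 3 * L * (Nn + r) * s2) + M * sm) :=
    mul_le_mul_of_nonneg_left (by linarith) hE.le
  have b3 : 0 ≤ M' * a * s1 + 3 * M' * L * r * s2 + M * sm := by positivity
  have b4 := mul_le_mul_of_nonneg_right hEm b3
  have b5 : 0 ≤ E * (3 * M' * L * s2) * (M * P) := by positivity
  linarith

theorem prodD_small {K w : ℝ} (hK : 0 ≤ K) (hw : 0 < w) : ∃ x0 : ℝ, 0 < x0 ∧ ∀ x, x ≤ x0 →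
    K * x ≤ w := by
  refine ⟨w / (K + 1), by positivity, fun x hx => ?_⟩
  have a1 : K * x ≤ K * (w / (K + 1)) := mul_le_mul_of_nonneg_left hx hK
  have a2 : K * (w / (K + 1)) ≤ (K + 1) * (w / (K + 1)) :=
    mul_le_mul_of_nonneg_right (by linarith) (by positivity)
  have a3 : (K + 1) * (w / (K + 1)) = w := by field_simp
  linarith

/-- Constants of `S`: speed bound `B`, radius `R` of `Om` below `5 H`, Lipschitz constant
`L` on the ball, smooth norm constant `M'`. -/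
theorem prod_data {S : Sys} (hS : S.Good) : ∃ w0 : ℝ, 0 < w0 ∧ ∀ w : ℝ, 0 < w → w ≤ w0 →
    ∃ ϑ' Bs : ℝ, 0 < ϑ' ∧ ϑ' ≤ 1 ∧ 0 < Bs ∧ ∀ (γ Tm Qc η : ℝ) (ζ g : ℝ → S.E), 1 / 3 ≤ γ → γ ≤ 3 →
      η ≤ ϑ' → Target S γ Tm Qc η ζ g → (∀ t, ‖g t‖ ≤ Bs) ∧ ∀ BG : ℝ, ∃ δ0 : ℝ, 0 < δ0 ∧
        ∀ δ : ℝ, 0 < δ → δ ≤ δ0 → ∀ (A C : Sys) (pS : C.E →L[ℝ] S.E) (k n : ℕ) (par : ℕ → Par)
          (ld : LD C.E) (slkC : ℝ) (Gd : A.E × S.E → ℝ) (H0 slk : ℝ), A.Good → C.Good →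
          Tower (S.scale γ) 1 C pS k n par ld slkC → ld.Pure →
          ∑ j ∈ Finset.Ico k n, (par j).w ≤ ϑ' → slkC ≤ ϑ' → ContDiff ℝ 2 Gd →
          (∀ a ∈ A.Om, ∀ u ∈ A.K a, ∀ q t, fderiv ℝ Gd (a, q) (u, g t) ≤ BG) →
          (∀ v t, Tm ≤ t → t ≤ v → v ≤ t + 2 * δ → Gd (A.far v, S.far (t / γ)) ≤ w) →
          0 < slk → slk ≤ ϑ' →
          ∃ (N : S.E → ℝ) (Ds : C.E →L[ℝ] ℝ) (Ex Th : ℝ → ℝ) (H Kw M om μ Emax M' ν Bq : ℝ),
            H0 ≤ H ∧ PD.Hyp ⟨A, C, S, pS, γ, ζ, g, Gd, N, Ds, Ex, Th, H, δ, Kw, M, om, μ, w, slk⟩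
              Tm Qc η Emax M' ν Bq := by
  have hH := hS.H_pos
  obtain ⟨B, hB0, hB⟩ := hS.speed
  obtain ⟨R, hR⟩ := hS.bdd (5 * S.H)
  obtain ⟨L, B', hL0, -, -, hL⟩ := hS.ldi R
  obtain ⟨M', hM1, hNex⟩ := exists_smooth_norm S.E
  have hM' : 0 ≤ M' := by linarith
  obtain ⟨w0, hw0, hw0'⟩ := prodD_small (K := ‖S.V‖ * 6) (w := S.H / 2) (by positivity)
    (by linarith)
  refine ⟨w0, hw0, fun w hw hww => ?_⟩
  have hVw := hw0' w hww
  obtain ⟨Ex, Emax, hExs, hEm1, hEx, hExd⟩ := prodD_Ex (c := 3 * M' * L) (N := 15 * S.H)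
    (by positivity) (by linarith)
  have hEm0 : 0 < Emax := by linarith
  obtain ⟨N, hNs, hNge, hNle, hNd⟩ := hNex (w / (16 * Emax)) (by positivity)
  obtain ⟨M, hM⟩ : ∃ M : ℝ, M = 3 * M' * B := ⟨_, rfl⟩
  have hM0 : 0 ≤ M := by rw [hM]; positivity
  obtain ⟨ϑ0, hϑ0, hϑ0'⟩ := prodD_small
    (K := Emax * (2 * M' + 180 * M' * L * S.H + 6 * M)) (w := w / 16) (by positivity)
    (by linarith)
  obtain ⟨ϑ, hϑ, hϑ1, hϑw, hϑH, hϑs⟩ : ∃ ϑ : ℝ, 0 < ϑ ∧ ϑ ≤ 1 ∧ ϑ ≤ w ∧ ϑ ≤ S.H / 3 ∧ ϑ ≤ ϑ0 :=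
    ⟨min (min 1 w) (min (S.H / 3) ϑ0), lt_min (lt_min one_pos hw) (lt_min (by linarith) hϑ0),
      (min_le_left _ _).trans (min_le_left _ _), (min_le_left _ _).trans (min_le_right _ _),
      (min_le_right _ _).trans (min_le_left _ _), (min_le_right _ _).trans (min_le_right _ _)⟩
  have hϑK := hϑ0' ϑ hϑs
  refine ⟨ϑ, 3 * B + 1, hϑ, hϑ1, by linarith, fun γ Tm Qc η ζ g h1 h3 hηϑ hT => ?_⟩
  have hγ : 0 < γ := by linarith
  have hη := hT.eta_nonneg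
  have hTm : 0 < Tm := lt_of_lt_of_le (by positivity) hT.Tm_ge
  have hg : ∀ t, ‖g t‖ ≤ 3 * B + 1 := by
    intro t
    obtain ⟨z, hz, κ, hκ, -, hκ1⟩ := hT.near t
    have a1 := prodD_smul_le h1 (hB z hz κ hκ)
    have a2 : η / (Tm + 1) ≤ 1 := (div_le_one (by linarith)).2 (by linarith)
    have a3 := norm_add_le (g t - γ⁻¹ • κ) (γ⁻¹ • κ)
    rw [sub_add_cancel] at a3
    linarith
  refine ⟨hg, fun BG => ?_⟩
  obtain ⟨Kd, hKd⟩ : ∃ Kd : ℝ, Kd = Emax * (M' * (6 * B + 1) + M * 2) := ⟨_, rfl⟩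
  have hKd0 : 0 ≤ Kd := by rw [hKd]; positivity
  obtain ⟨Bq, hBq⟩ : ∃ Bq : ℝ, Bq = M' * (6 * B + 1) + |BG| := ⟨_, rfl⟩
  have hMB : 0 < M' * (6 * B + 1) := by positivity
  have hBq0 : 0 < Bq := by rw [hBq]; positivity
  obtain ⟨d1, hd1, hd1'⟩ := prodD_small (K := Kd) (w := w / 16) hKd0 (by linarith)
  obtain ⟨d2, hd2, hd2'⟩ := prodD_small (K := 2 * Bq) (w := w) (by linarith) hw
  obtain ⟨d3, hd3, hd3'⟩ := prodD_small (K := Emax * (M' * (2 * ‖γ⁻¹ • S.one‖))) (w := w / 16)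
    (by positivity) (by linarith)
  refine ⟨min d1 (min d2 d3), lt_min hd1 (lt_min hd2 hd3), fun δ hδ hδ0 => ?_⟩
  have hδ1 := hd1' δ (hδ0.trans (min_le_left _ _))
  have hδ2 := hd2' δ (hδ0.trans ((min_le_right _ _).trans (min_le_left _ _)))
  have hδ3 := hd3' δ (hδ0.trans ((min_le_right _ _).trans (min_le_right _ _)))
  intro A C pS k n par ld slkC Gd H0 slk hA hC hTw hp hw' hsC hGd hBG hstart hslk hslk'
  have hpg : ∀ j ∈ Finset.Ico k n, (par j).Good := fun j hj =>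
    hTw.pgood j (Finset.mem_Ico.1 hj).1 (Finset.mem_Ico.1 hj).2
  obtain ⟨Th, hThs, hThd, hThb, hThle⟩ := prodD_Th (a1 := Emax * (M' * (η / (Tm + 1))))
    (a2 := Emax * (3 * M' * L * (slk + η))) (a3 := Emax * M) (N1 := Tm + 1) (N2 := 15 * S.H)
    (Finset.Ico k n) (fun j => (par j).eta) (fun j => 2 * (par j).H) (by positivity)
    (by positivity) (by positivity) (by linarith) (by linarith)
    (fun j hj => (hpg j hj).eta_pos.le) (fun j hj => by have := (hpg j hj).H_pos; linarith)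
  obtain ⟨H, hH0, hH1⟩ : ∃ H : ℝ, H0 ≤ H ∧ 20 * (A.H + C.H) + 10 + 5 * Tm ≤ H :=
    ⟨max _ _, le_max_left _ _, le_max_right _ _⟩
  have hHp : 0 < H := by have := hA.H_pos; have := hC.H_pos; linarith
  have hKw : Kd * δ / δ = Kd := by field_simp
  have hsp : ∀ c ∈ C.Om, ∀ u ∈ C.K c, ∀ v t,
      fderiv ℝ N v (pS u - g t) ≤ M' * (6 * B + 1) := by
    intro c hc u hu v t
    refine (le_abs_self _).trans ((hNd _ _).trans (mul_le_mul_of_nonneg_left ?_ hM'))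
    have a1 := prodD_pS_le hS h1 hB hTw hc hu
    have a2 := norm_sub_le (pS u) (g t)
    have a3 := hg t
    linarith
  have hnu : Emax * (w / (16 * Emax)) = w / 16 := by field_simp
  have hst0 : 0 ≤ w / (16 * Emax) + M' * (2 * δ * ‖γ⁻¹ • S.one‖) := by positivity
  have hst1 : Emax * (w / (16 * Emax) + M' * (2 * δ * ‖γ⁻¹ • S.one‖)) ≤ w / 8 := by
    linarith
  refine ⟨N, ∑ j ∈ Finset.Ico k n, ld.Dj j, Ex, Th, H, Kd * δ, M,
    ∑ j ∈ Finset.Ico k n, (par j).w, w / (8 * H), Emax, M', w / (16 * Emax), Bq, hH0,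
    { goodA := hA
      goodC := hC
      Tm_nonneg := hTm.le
      γ_pos := hγ
      tgt := hT
      pS_one := ?_
      pS_z0 := hTw.map_z0
      Ds_one := ?_
      Ds_bd := fun c hc => prodD_Ds_bd hTw hc
      Gd_smooth := hGd
      N_smooth := hNs
      Ex_smooth := hExs
      Th_smooth := hThs
      N_ge := hNge
      N_le := hNle
      Ex_bd := hEx
      Th_bd := hThb
      H_ge := hH1
      δ_pos := hδ
      Kw_nonneg := mul_nonneg hKd0 hδ.le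
      M_nonneg := hM0
      M'_nonneg := hM'
      μ_pos := div_pos hw (by linarith)
      w_pos := hw
      slk_pos := hslk
      slk_le := hslk'.trans hϑ1
      Bq_pos := hBq0
      slater := ?_
      wlead := ?_
      wresp := ?_
      speedN := ?_
      speedG := ?_
      δ_small := hδ2
      startG := hstart
      startN := ?_
      lock := ?_ }⟩
  · have : pS C.one = (1 : ℝ)⁻¹ • (γ⁻¹ • S.one) := hTw.map_one
    rwa [inv_one, one_smul] at this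
  · show (∑ j ∈ Finset.Ico k n, ld.Dj j) C.one = 0
    rw [sum_apply]
    exact Finset.sum_eq_zero fun j hj =>
      hTw.D_one hC (Finset.mem_Ico.1 hj).1 (Finset.mem_Ico.1 hj).2
  · intro v t
    show Ex t * fderiv ℝ N v (-g t) ≤ Kd * δ / δ
    rw [hKw, hKd]
    have a1 : fderiv ℝ N v (-g t) ≤ M' * (6 * B + 1) := by
      refine (le_abs_self _).trans ((hNd _ _).trans (mul_le_mul_of_nonneg_left ?_ hM'))
      rw [norm_neg]
      linarith [hg t]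
    exact (mul_le_mul_of_nonneg_left (a1.trans (by linarith)) (hEx t).1.le).trans
      (mul_le_mul_of_nonneg_right (hEx t).2.1 (by linarith))
  · intro c hc u hu v t
    show Ex t * (fderiv ℝ N v (pS u - g t) + M * (∑ j ∈ Finset.Ico k n, ld.Dj j) u) ≤ Kd * δ / δ
    rw [hKw, hKd]
    have a1 := hsp c hc u hu v t
    have a2 := mul_le_mul_of_nonneg_left (prodD_Ds_lead hS h1 hTw hp (by linarith) hc hu) hM0
    exact (mul_le_mul_of_nonneg_left (add_le_add a1 a2) (hEx t).1.le).trans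
      (mul_le_mul_of_nonneg_right (hEx t).2.1 (by linarith))
  · intro c hc q t _ ht hq hN4
    have ht' : t < C.V c + slk := ht
    have hq' : ‖q - ζ t‖ < slk := hq
    have hN4' : N (pS c - q) < 4 * w := hN4
    show ∃ u ∈ C.K c, Ex t * (fderiv ℝ N (pS c - q) (pS u - g t) +
      M * (∑ j ∈ Finset.Ico k n, ld.Dj j) u) ≤ deriv Ex t * (N (pS c - q) +
        M * ((∑ j ∈ Finset.Ico k n, ld.Dj j) c + ∑ j ∈ Finset.Ico k n, (par j).w)) + deriv Th t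
    have hdom : C.V c ≤ 1 * (γ * S.V (pS c)) + slkC := hTw.dom c hc
    have hd : ‖pS c - ζ t‖ ≤ N (pS c - q) + slk := by
      have a1 := norm_add_le (pS c - q) (q - ζ t)
      rw [sub_add_sub_cancel] at a1
      linarith [hNge (pS c - q)]
    have he : ‖S.V‖ * (N (pS c - q) + slk + η) ≤ S.H / 2 := by
      have a1 : ‖S.V‖ * (N (pS c - q) + slk + η) ≤ ‖S.V‖ * (6 * w) :=
        mul_le_mul_of_nonneg_left (by linarith) (norm_nonneg _)
      linarith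
    obtain ⟨κ, hκ, hκ'⟩ := prodD_vel hS hR hL0 hL h1 h3 hT (hTw.mapsTo c hc) (t := t)
      (by linarith) hd he
    obtain ⟨u, hu, hu'⟩ := prodD_resp hS h1 hM' hB hTw hp hc (t := t) (by linarith) (by linarith)
      hκ (fderiv ℝ N (pS c - q)) (hNd _) (g t)
    refine ⟨u, hu, ?_⟩
    rw [← hM] at hu'
    rw [hExd, hThd]
    have hP := (abs_le.1 (prodD_Ds_bd hTw hc)).1
    rw [add_assoc (N (pS c - q))] at hκ'
    exact prodD_arith (hEx t).1 (hEx t).2.1 hM' hL0 hM0 (by positivity) (st_nonneg _)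
      (st_nonneg _) (by linarith)
      (Finset.sum_nonneg fun j hj => mul_nonneg (hpg j hj).eta_pos.le (st_nonneg _))
      (by linarith) hu' hκ'
  · intro c hc u hu v t
    have a1 := hsp c hc u hu v t
    have a2 := abs_nonneg BG
    show fderiv ℝ N v (pS u - g t) ≤ Bq
    linarith
  · intro a ha u hu q t
    have a1 := hBG a ha u hu q t
    have a2 := le_abs_self BG
    show fderiv ℝ Gd (a, q) (u, g t) ≤ Bq
    linarith
  · show w / (16 * Emax) + M' * (2 * δ * ‖γ⁻¹ • S.one‖) ≤ w / 2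
    have := mul_le_mul_of_nonneg_right hEm1 hst0
    linarith
  · intro t
    show Emax * (w / (16 * Emax) + M' * (2 * δ * ‖γ⁻¹ • S.one‖) +
      2 * M * ∑ j ∈ Finset.Ico k n, (par j).w) + Th t + w / (8 * H) * H + Kd * δ ≤ w / 2
    have a1 : w / (8 * H) * H = w / 8 := by field_simp
    have a2 := hThle t
    have a3 : ∑ j ∈ Finset.Ico k n, (par j).eta * (2 * (2 * (par j).H)) ≤
        4 * ∑ j ∈ Finset.Ico k n, (par j).w := by
      rw [Finset.mul_sum]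
      exact Finset.sum_le_sum fun j hj => by have := (hpg j hj).eta_le_w; linarith
    have a4 : Emax * (M' * (η / (Tm + 1))) * (2 * (Tm + 1)) = Emax * M' * 2 * η := by
      field_simp
    have a5 : Emax * M' * 2 * η ≤ Emax * M' * 2 * ϑ :=
      mul_le_mul_of_nonneg_left hηϑ (by positivity)
    have a6 : Emax * M' * L * S.H * 90 * (slk + η) ≤ Emax * M' * L * S.H * 90 * (2 * ϑ) :=
      mul_le_mul_of_nonneg_left (by linarith) (by positivity)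
    have a7 : Emax * M * ∑ j ∈ Finset.Ico k n, (par j).eta * (2 * (2 * (par j).H)) ≤
        Emax * M * (4 * ϑ) := mul_le_mul_of_nonneg_left (by linarith) (by positivity)
    have a8 : Emax * M * ∑ j ∈ Finset.Ico k n, (par j).w ≤ Emax * M * ϑ :=
      mul_le_mul_of_nonneg_left hw' (by positivity)
    linarith

end Pool.Agent.MP703675
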