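import Pool.Agent.Lib.MP_703675_gt.ProdB

set_option autoImplicit false

open Set Metric Filter Topology TopologicalSpace

noncomputable section

namespace Pool.Agent.MP703675

variable {d : PD} {Tm Qc η Emax M' ν Bq : ℝ}

/-- the clock coordinate -/
def prodE_t (d : PD) : d.E →L[ℝ] ℝ :=
  (ContinuousLinearMap.fst ℝ ℝ ℝ).comp ((ContinuousLinearMap.fst ℝ (ℝ × ℝ) d.S.E).comp
    (ContinuousLinearMap.snd ℝ (d.A.E × d.C.E) ((ℝ × ℝ) × d.S.E)))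

/-- the wall coordinate -/
def prodE_y (d : PD) : d.E →L[ℝ] ℝ :=
  (ContinuousLinearMap.snd ℝ ℝ ℝ).comp ((ContinuousLinearMap.fst ℝ (ℝ × ℝ) d.S.E).comp
    (ContinuousLinearMap.snd ℝ (d.A.E × d.C.E) ((ℝ × ℝ) × d.S.E)))

/-- the clock of the first factor -/
def prodE_v (d : PD) : d.E →L[ℝ] ℝ :=
  d.A.V.comp ((ContinuousLinearMap.fst ℝ d.A.E d.C.E).comp
    (ContinuousLinearMap.fst ℝ (d.A.E × d.C.E) ((ℝ × ℝ) × d.S.E)))

/-- the argument of `Gd` -/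
def prodE_aq (d : PD) : d.E →L[ℝ] d.A.E × d.S.E :=
  ((ContinuousLinearMap.fst ℝ d.A.E d.C.E).comp
    (ContinuousLinearMap.fst ℝ (d.A.E × d.C.E) ((ℝ × ℝ) × d.S.E))).prod
  ((ContinuousLinearMap.snd ℝ (ℝ × ℝ) d.S.E).comp
    (ContinuousLinearMap.snd ℝ (d.A.E × d.C.E) ((ℝ × ℝ) × d.S.E)))

/-- the argument of `N` -/
def prodE_dq (d : PD) : d.E →L[ℝ] d.S.E :=
  d.pS.comp ((ContinuousLinearMap.snd ℝ d.A.E d.C.E).comp
    (ContinuousLinearMap.fst ℝ (d.A.E × d.C.E) ((ℝ × ℝ) × d.S.E))) -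
  (ContinuousLinearMap.snd ℝ (ℝ × ℝ) d.S.E).comp
    (ContinuousLinearMap.snd ℝ (d.A.E × d.C.E) ((ℝ × ℝ) × d.S.E))

theorem prodE_t_apply (x : d.E) : prodE_t d x = x.2.1.1 := rfl
theorem prodE_y_apply (x : d.E) : prodE_y d x = x.2.1.2 := rfl
theorem prodE_v_apply (x : d.E) : prodE_v d x = d.A.V x.1.1 := rfl
theorem prodE_aq_apply (x : d.E) : prodE_aq d x = (x.1.1, x.2.2) := rfl
theorem prodE_dq_apply (x : d.E) : prodE_dq d x = d.pS x.1.2 - x.2.2 := rfl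

theorem prodE_H_pos (H : d.Hyp Tm Qc η Emax M' ν Bq) : 0 < d.H := by
  have h1 := H.goodA.H_pos
  have h2 := H.goodC.H_pos
  have h3 := H.Tm_nonneg
  have h4 := H.H_ge
  linarith

theorem prodE_Tm_le (H : d.Hyp Tm Qc η Emax M' ν Bq) : Tm ≤ 4 / 10 * d.H := by
  have h1 := H.goodA.H_pos
  have h2 := H.goodC.H_pos
  have h3 := H.Tm_nonneg
  have h4 := H.H_ge
  linarith

theorem prodE_bddK (H : d.Hyp Tm Qc η Emax M' ν Bq) : BddK d.K := (prod_ldi H).bddK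

theorem prodE_start (H : d.Hyp Tm Qc η Emax M' ν Bq) {Z : ℝ → d.E} {a b : ℝ}
    (hZ : d.sys.Adm Z a b) : (Z a).2.1.2 = 0 ∧ d.A.V (Z a).1.1 = (Z a).2.1.1 := by
  obtain ⟨-, -, T, -, -, hT⟩ := hZ
  have h1 : (Z a).2.1.2 = 0 := by
    rw [hT]
    show (0 : ℝ) + T • (0 : ℝ) = 0
    simp
  have h2 : (Z a).2.1.1 = T := by
    rw [hT]
    show (0 : ℝ) + T • (1 : ℝ) = T
    simp
  have h3 : (Z a).1.1 = d.A.far T := by
    rw [hT]
    rfl
  exact ⟨h1, by rw [h2, h3, H.goodA.V_far]⟩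

theorem prodE_vel (H : d.Hyp Tm Qc η Emax M' ν Bq) {Z : ℝ → d.E} {a b : ℝ}
    (hZ : d.sys.Adm Z a b) {r : ℝ} (hr : r ∈ Icc a b) {κ : d.E} (hκ : κ ∈ d.K (Z r)) :
    ∃ s : ℝ, ∃ ua ∈ d.A.K (Z r).1.1, ∃ uc ∈ d.C.K (Z r).1.2, 0 ≤ s ∧ s ≤ 1 ∧
      κ.1.1 = s • ua ∧ κ.1.2 = s • uc ∧ ((Z r).2.1.1 ≤ d.H → κ.2.1.1 = -s) ∧
      κ.2.1.1 ≤ d.A.V κ.1.1 ∧ κ.2.1.1 ≤ d.C.V κ.1.2 ∧
      κ.2.1.2 = d.room (Z r).2.1.2 *
        ((d.A.V κ.1.1 - κ.2.1.1) + d.al (Z r).2.1.1 * d.dev (Z r) * s) / d.δ ∧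
      κ.2.2 = (-κ.2.1.1) • d.g (Z r).2.1.1 ∧
      d.omg (Z r).2.1.2 * d.al (Z r).2.1.1 *
          (d.Ex (Z r).2.1.1 * fderiv ℝ d.Phi (Z r) κ - d.Kw * κ.2.1.2) ≤
        (d.μ + deriv d.Ex (Z r).2.1.1 * max (d.Phi (Z r)) 0 + deriv d.Th (Z r).2.1.1) * s := by
  obtain ⟨h1, h2, h3, h4, -⟩ := prod_basic H hZ r hr
  exact prod_vel H h1 h2 (by linarith) (by linarith) hκ

theorem prodE_dev_nonneg (x : d.E) : 0 ≤ d.dev x := add_nonneg (st_nonneg _) (st_nonneg _)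

theorem prodE_al_one (H : d.Hyp Tm Qc η Emax M' ν Bq) {t : ℝ} (ht : t ≤ 4 / 10 * d.H) :
    d.al t = 1 := by
  have hH := prodE_H_pos H
  apply cl01_one
  have : 20 * t / d.H ≤ 8 := by
    rw [div_le_iff₀ hH]
    linarith
  linarith

/-- values of the two deviations in the early phase -/
theorem prodE_early (H : d.Hyp Tm Qc η Emax M' ν Bq) {Z : ℝ → d.E} {a b : ℝ}
    (hZ : d.sys.Adm Z a b) {s : ℝ} (hs : s ∈ Icc a b) (ht : 4 / 10 * d.H ≤ (Z s).2.1.1)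
    (hg : d.A.V (Z s).1.1 - (Z s).2.1.1 ≤ 2 * d.δ) :
    d.N (d.pS (Z s).1.2 - (Z s).2.2) ≤ ν + M' * (2 * d.δ * ‖d.γ⁻¹ • d.S.one‖) ∧
      d.Gd ((Z s).1.1, (Z s).2.2) ≤ d.w := by
  obtain ⟨v, hv, ha, hc⟩ := prod_early H hZ hs ht
  have hq : (Z s).2.2 = d.ζ (Z s).2.1.1 := (prod_basic H hZ s hs).2.2.2.2.2.2.2.2.2
  have hT : Tm ≤ (Z s).2.1.1 := (prodE_Tm_le H).trans ht
  have hz := (H.tgt.far _ hT).1
  have hV : d.A.V (Z s).1.1 = v := by rw [ha, H.goodA.V_far]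
  rw [hV] at hg
  constructor
  · have he : d.pS (Z s).1.2 - (Z s).2.2 = (v - (Z s).2.1.1) • (d.γ⁻¹ • d.S.one) := by
      rw [hc, hq, hz]
      simp only [Sys.far, map_add, map_smul, H.pS_one, H.pS_z0]
      rw [sub_smul, smul_smul (Z s).2.1.1, div_eq_mul_inv]
      abel
    have hn : ‖d.pS (Z s).1.2 - (Z s).2.2‖ ≤ 2 * d.δ * ‖d.γ⁻¹ • d.S.one‖ := by
      rw [he, norm_smul, Real.norm_eq_abs, abs_of_nonneg (by linarith)]
      exact mul_le_mul_of_nonneg_right hg (norm_nonneg _)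
    have h1 := H.N_le (d.pS (Z s).1.2 - (Z s).2.2)
    have h2 := mul_le_mul_of_nonneg_left hn H.M'_nonneg
    linarith
  · rw [ha, hq, hz]
    exact H.startG v _ hT hv (by linarith)

/-- while the room factor is one the gap is paid by the wall coordinate -/
theorem prodE_gap_le (H : d.Hyp Tm Qc η Emax M' ν Bq) {Z : ℝ → d.E} {a b : ℝ}
    (hZ : d.sys.Adm Z a b) {s : ℝ} (hs : s ∈ Icc a b) (hy : (Z s).2.1.2 ≤ 3 / 2) :
    d.A.V (Z s).1.1 - (Z s).2.1.1 ≤ d.δ * (Z s).2.1.2 := by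
  have hδ := H.δ_pos
  have hT : IsTraj d.K Z a s := hZ.2.1.restrict le_rfl hs.2
  have key := hT.le_rate_lin (prodE_bddK H) (prodE_v d - prodE_t d - d.δ • prodE_y d) (ρ := 0)
    (fun r hr κ hκ => by
      have hr' : r ∈ Icc a b := ⟨hr.1, hr.2.le.trans hs.2⟩
      obtain ⟨σ, ua, -, uc, -, h0, -, -, -, -, -, -, hy', -⟩ := prodE_vel H hZ hr' hκ
      have hyr : (Z r).2.1.2 ≤ 3 / 2 := (prod_y_mono H hZ hr.1 hr.2.le hs.2).trans hy
      have hroom : d.room (Z r).2.1.2 = 1 := cl01_one (by linarith)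
      have h1 : 0 ≤ d.al (Z r).2.1.1 * d.dev (Z r) * σ :=
        mul_nonneg (mul_nonneg (cl01_nonneg _) (prodE_dev_nonneg _)) h0
      show d.A.V κ.1.1 - κ.2.1.1 - d.δ * κ.2.1.2 ≤ 0
      rw [hy', hroom, one_mul, mul_div_cancel₀ _ hδ.ne']
      linarith) le_rfl hs.1 le_rfl
  obtain ⟨h1, h2⟩ := prodE_start H hZ
  have key' : (d.A.V (Z s).1.1 - (Z s).2.1.1 - d.δ * (Z s).2.1.2) -
      (d.A.V (Z a).1.1 - (Z a).2.1.1 - d.δ * (Z a).2.1.2) ≤ 0 * (s - a) := key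
  rw [h1, h2] at key'
  linarith

/-- the deviation potential -/
def prodE_F (d : PD) (Bq : ℝ) (x : d.E) : ℝ :=
  psi d.w (d.Gd (prodE_aq d x)) + psi d.w (d.N (prodE_dq d x)) - (Bq * d.δ) * prodE_y d x

theorem prodE_F_hasFDerivAt (H : d.Hyp Tm Qc η Emax M' ν Bq) (x : d.E) :
    HasFDerivAt (prodE_F d Bq)
      (st (d.Gd (prodE_aq d x) / d.w - 1) • (fderiv ℝ d.Gd (prodE_aq d x)).comp (prodE_aq d) +
        st (d.N (prodE_dq d x) / d.w - 1) • (fderiv ℝ d.N (prodE_dq d x)).comp (prodE_dq d) -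
        (Bq * d.δ) • prodE_y d) x := by
  have hG : HasFDerivAt (fun x => d.Gd (prodE_aq d x))
      ((fderiv ℝ d.Gd (prodE_aq d x)).comp (prodE_aq d)) x :=
    ((H.Gd_smooth.differentiable (by norm_num)) _).hasFDerivAt.comp x (prodE_aq d).hasFDerivAt
  have hN : HasFDerivAt (fun x => d.N (prodE_dq d x))
      ((fderiv ℝ d.N (prodE_dq d x)).comp (prodE_dq d)) x :=
    ((H.N_smooth.differentiable (by norm_num)) _).hasFDerivAt.comp x (prodE_dq d).hasFDerivAt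
  have h1 := (psi_hasDerivAt H.w_pos (d.Gd (prodE_aq d x))).comp_hasFDerivAt x hG
  have h2 := (psi_hasDerivAt H.w_pos (d.N (prodE_dq d x))).comp_hasFDerivAt x hN
  have h3 := (prodE_y d).hasFDerivAt.const_mul (Bq * d.δ) (x := x)
  exact (h1.add h2).sub h3

theorem prodE_F_rate (H : d.Hyp Tm Qc η Emax M' ν Bq) {Z : ℝ → d.E} {a b : ℝ}
    (hZ : d.sys.Adm Z a b) {r : ℝ} (hr : r ∈ Icc a b) (hy : (Z r).2.1.2 ≤ 3 / 2)
    (ht : (Z r).2.1.1 ≤ 4 / 10 * d.H) {κ : d.E} (hκ : κ ∈ d.K (Z r)) :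
    fderiv ℝ (prodE_F d Bq) (Z r) κ ≤ 0 := by
  have hδ := H.δ_pos
  have hH := prodE_H_pos H
  obtain ⟨hA, hC, -⟩ := prod_basic H hZ r hr
  obtain ⟨σ, ua, hua, uc, huc, h0, -, ea, ec, et, hv, -, hy', eq, -⟩ := prodE_vel H hZ hr hκ
  have et' := et (by linarith)
  rw [et', neg_neg] at eq
  have hroom : d.room (Z r).2.1.2 = 1 := cl01_one (by linarith)
  rw [hroom, prodE_al_one H ht, one_mul, one_mul] at hy'
  have e1 : prodE_aq d κ = σ • (ua, d.g (Z r).2.1.1) := by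
    rw [prodE_aq_apply, ea, eq]
    rfl
  have e2 : prodE_dq d κ = σ • (d.pS uc - d.g (Z r).2.1.1) := by
    rw [prodE_dq_apply, ec, eq, map_smul, smul_sub]
  have b1 := H.speedG _ hA _ hua (Z r).2.2 (Z r).2.1.1
  have b2 := H.speedN _ hC _ huc (prodE_dq d (Z r)) (Z r).2.1.1
  rw [(prodE_F_hasFDerivAt H (Z r)).fderiv]
  simp only [sub_apply, add_apply,
    smul_apply, ContinuousLinearMap.comp_apply, e1, e2, map_smul, smul_eq_mul,
    prodE_y_apply]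
  have c1 := mul_le_mul_of_nonneg_left b1 (mul_nonneg (st_nonneg (d.Gd (prodE_aq d (Z r)) / d.w - 1)) h0)
  have c2 := mul_le_mul_of_nonneg_left b2 (mul_nonneg (st_nonneg (d.N (prodE_dq d (Z r)) / d.w - 1)) h0)
  have e3 : Bq * d.δ * κ.2.1.2 = Bq * ((d.A.V κ.1.1 - κ.2.1.1) + d.dev (Z r) * σ) := by
    rw [hy', mul_assoc, mul_div_cancel₀ _ hδ.ne']
  have c3 : 0 ≤ Bq * (d.A.V κ.1.1 - κ.2.1.1) := mul_nonneg H.Bq_pos.le (by linarith)
  have e4 : d.dev (Z r) = st (d.Gd (prodE_aq d (Z r)) / d.w - 1) +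
    st (d.N (prodE_dq d (Z r)) / d.w - 1) := rfl
  rw [e3, e4]
  have e5 : prodE_aq d (Z r) = ((Z r).1.1, (Z r).2.2) := rfl
  rw [← e5] at c1
  nlinarith [c1, c2, c3]

/-- Plan: `room = 1` on `[a, s]`, so `V a - t ≤ δ y`.  Take `s0` with `t = 0.4 H`; there
`N ≤ w / 2` and `Gd ≤ w` (`prod_early`, `startN`, `startG`).  On `[s0, s]` the function
`(psi w Gd + psi w N) / (Bq δ) - y` is nonincreasing. -/
theorem prod_locked (H : d.Hyp Tm Qc η Emax M' ν Bq) {Z : ℝ → d.E} {a b : ℝ}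
    (hZ : d.sys.Adm Z a b) {s : ℝ} (hs : s ∈ Icc a b) (hy : (Z s).2.1.2 ≤ 3 / 2)
    (ht : (Z s).2.1.1 ≤ d.H / 5) :
    d.N (d.pS (Z s).1.2 - (Z s).2.2) < 4 * d.w ∧ d.Gd ((Z s).1.1, (Z s).2.2) < 4 * d.w := by
  have hδ := H.δ_pos
  have hH := prodE_H_pos H
  have hw := H.w_pos
  obtain ⟨s0, hs0, ht0⟩ := prod_exists_time H hZ hs (by linarith)
  have hs0' : s0 ∈ Icc a b := ⟨hs0.1, hs0.2.trans hs.2⟩
  have hy0 : (Z s0).2.1.2 ≤ 3 / 2 := (prod_y_mono H hZ hs0.1 hs0.2 hs.2).trans hy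
  have hy0' : 0 ≤ (Z s0).2.1.2 := (prod_basic H hZ s0 hs0').2.2.2.2.2.2.2.1
  have hg := prodE_gap_le H hZ hs0' hy0
  have hg' : d.δ * (Z s0).2.1.2 ≤ d.δ * (3 / 2) := mul_le_mul_of_nonneg_left hy0 hδ.le
  obtain ⟨hN0, hG0⟩ := prodE_early H hZ hs0' ht0.ge (by linarith)
  have hN0' := hN0.trans H.startN
  have hT : IsTraj d.K Z s0 s := hZ.2.1.restrict hs0.1 hs.2
  have key := hT.le_rate (prodE_bddK H) (Φ := prodE_F d Bq)
    (fun x => (prodE_F_hasFDerivAt H x).differentiableAt) (ρ := 0)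
    (fun r hr κ hκ => prodE_F_rate H hZ ⟨hs0.1.trans hr.1, hr.2.le.trans hs.2⟩
      ((prod_y_mono H hZ (hs0.1.trans hr.1) hr.2.le hs.2).trans hy)
      ((prod_t_anti H hZ hs0.1 hr.1 (hr.2.le.trans hs.2) (by linarith)).trans ht0.le) hκ)
    le_rfl hs0.2 le_rfl
  simp only [prodE_F, prodE_aq_apply, prodE_dq_apply, prodE_y_apply] at key
  have p1 := psi_le hw (d.Gd ((Z s0).1.1, (Z s0).2.2))
  have p2 := psi_le hw (d.N (d.pS (Z s0).1.2 - (Z s0).2.2))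
  rw [max_eq_right (by linarith)] at p1 p2
  have p3 := psi_ge hw (d.Gd ((Z s).1.1, (Z s).2.2))
  have p4 := psi_ge hw (d.N (d.pS (Z s).1.2 - (Z s).2.2))
  have p5 := psi_nonneg hw (d.Gd ((Z s).1.1, (Z s).2.2))
  have p6 := psi_nonneg hw (d.N (d.pS (Z s).1.2 - (Z s).2.2))
  have hB : 0 ≤ Bq * d.δ := mul_nonneg H.Bq_pos.le hδ.le
  have q1 := mul_le_mul_of_nonneg_left hy hB
  have q2 := mul_nonneg hB hy0'
  have q3 := H.δ_small
  constructor <;> linarith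

theorem prod_good (H : d.Hyp Tm Qc η Emax M' ν Bq) : d.sys.Good where
  H_pos := prodE_H_pos H
  V_one := rfl
  V_z0 := rfl
  convex := prod_convex H
  compact := prod_compact H
  zero_mem := prod_zero H
  ldi := prod_ldi H
  V_le := fun z κ hκ => prod_V_le z κ hκ
  irr := fun z _ hV κ hκ => prod_irr H z hV κ hκ
  isOpen := prod_isOpen H
  bdd := prod_bdd H
  farLaw := fun z _ hV κ => prod_farLaw H z hV κ
  inv := fun Z a b hZ s hs => by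
    have hH := prodE_H_pos H
    have hs' := H.slk_pos
    obtain ⟨h1, h2, h3, h4, h5, h6, h7, h8, h9, h10⟩ := prod_basic H hZ s hs
    refine ⟨h1, h2, by linarith, by linarith, by linarith, by linarith, by linarith, by linarith,
      by linarith, ?_, ?_⟩
    · rw [h10, sub_self, norm_zero]
      exact hs'
    · by_cases c1 : 3 / 2 < (Z s).2.1.2
      · exact Or.inl c1
      · by_cases c2 : d.H / 5 < (Z s).2.1.1
        · exact Or.inr (Or.inl c2)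
        · exact Or.inr (Or.inr (prod_locked H hZ hs (not_lt.1 c1) (not_lt.1 c2)))

/-- the lock potential with its clock terms -/
def prodE_P (d : PD) (x : d.E) : ℝ :=
  d.Ex (prodE_t d x) * d.Phi x - d.Kw * prodE_y d x + d.Th (prodE_t d x) + d.μ * prodE_t d x

theorem prodE_P_hasFDerivAt (H : d.Hyp Tm Qc η Emax M' ν Bq) (x : d.E) :
    HasFDerivAt (prodE_P d)
      (d.Ex (prodE_t d x) • fderiv ℝ d.Phi x + d.Phi x • (deriv d.Ex (prodE_t d x) • prodE_t d) -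
        d.Kw • prodE_y d + deriv d.Th (prodE_t d x) • prodE_t d + d.μ • prodE_t d) x := by
  have hE := ((H.Ex_smooth.differentiable (by norm_num)) (prodE_t d x)).hasDerivAt.comp_hasFDerivAt
    x (prodE_t d).hasFDerivAt
  have hT := ((H.Th_smooth.differentiable (by norm_num)) (prodE_t d x)).hasDerivAt.comp_hasFDerivAt
    x (prodE_t d).hasFDerivAt
  have hP := (((prod_Phi_smooth H).differentiable (by norm_num)) x).hasFDerivAt
  have h3 := (prodE_y d).hasFDerivAt.const_mul d.Kw (x := x)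
  have h4 := (prodE_t d).hasFDerivAt.const_mul d.μ (x := x)
  exact (((hE.mul hP).sub h3).add hT).add h4

theorem prodE_Phi_ge (H : d.Hyp Tm Qc η Emax M' ν Bq) {x : d.E} (hC : x.1.2 ∈ d.C.Om) :
    d.N (d.pS x.1.2 - x.2.2) ≤ d.Phi x ∧
      d.Phi x ≤ d.N (d.pS x.1.2 - x.2.2) + 2 * d.M * d.om := by
  have h1 := abs_le.1 (H.Ds_bd _ hC)
  have h2 : 0 ≤ d.M * (d.Ds x.1.2 + d.om) := mul_nonneg H.M_nonneg (by linarith [h1.1])
  have h3 : d.M * (d.Ds x.1.2 + d.om) ≤ d.M * (2 * d.om) :=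
    mul_le_mul_of_nonneg_left (by linarith [h1.2]) H.M_nonneg
  unfold PD.Phi
  constructor <;> linarith

theorem prodE_P_rate (H : d.Hyp Tm Qc η Emax M' ν Bq) {Z : ℝ → d.E} {a b : ℝ}
    (hZ : d.sys.Adm Z a b) {r : ℝ} (hr : r ∈ Icc a b) (hy : (Z r).2.1.2 ≤ 1)
    (ht : (Z r).2.1.1 ≤ 4 / 10 * d.H) {κ : d.E} (hκ : κ ∈ d.K (Z r)) :
    fderiv ℝ (prodE_P d) (Z r) κ ≤ 0 := by
  have hH := prodE_H_pos H
  obtain ⟨-, hC, -⟩ := prod_basic H hZ r hr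
  obtain ⟨σ, ua, -, uc, -, h0, -, -, -, et, -, -, -, -, hw⟩ := prodE_vel H hZ hr hκ
  have et' := et (by linarith)
  have homg : d.omg (Z r).2.1.2 = 1 := cl01_one (by linarith)
  have hP : 0 ≤ d.Phi (Z r) := ((norm_nonneg _).trans (H.N_ge _)).trans (prodE_Phi_ge H hC).1
  rw [homg, prodE_al_one H ht, one_mul, one_mul, max_eq_left hP] at hw
  rw [(prodE_P_hasFDerivAt H (Z r)).fderiv]
  simp only [sub_apply, add_apply,
    smul_apply, smul_eq_mul, prodE_y_apply, prodE_t_apply, et']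
  linarith

/-- one bootstrap step for the lock -/
theorem prodE_step (H : d.Hyp Tm Qc η Emax M' ν Bq) {Z : ℝ → d.E} {a b : ℝ}
    (hZ : d.sys.Adm Z a b) (h1 : ∀ s ∈ Icc a b, d.Gd ((Z s).1.1, d.ζ (Z s).2.1.1) ≤ d.w)
    (h2 : ∀ s ∈ Icc a b, d.A.V (Z s).1.1 - (Z s).2.1.1 ≤ d.δ) {τ : ℝ} (hτ : τ ∈ Icc a b)
    (hN : ∀ s ∈ Ico a τ, d.N (d.pS (Z s).1.2 - (Z s).2.2) < d.w) :
    d.N (d.pS (Z τ).1.2 - (Z τ).2.2) ≤ d.w / 2 := by
  have hδ := H.δ_pos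
  have hH := prodE_H_pos H
  have hw := H.w_pos
  by_cases hc : 4 / 10 * d.H ≤ (Z τ).2.1.1
  · exact (prodE_early H hZ hτ hc (by linarith [h2 τ hτ])).1.trans H.startN
  have hT : IsTraj d.K Z a τ := hZ.2.1.restrict le_rfl hτ.2
  have key := hT.le_rate_lin (prodE_bddK H) (d.δ • prodE_y d - (prodE_v d - prodE_t d)) (ρ := 0)
    (fun r hr κ hκ => by
      have hr' : r ∈ Icc a b := ⟨hr.1, hr.2.le.trans hτ.2⟩
      obtain ⟨σ, ua, -, uc, -, h0, -, -, -, -, hv, -, hy', -⟩ := prodE_vel H hZ hr' hκ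
      have hq : (Z r).2.2 = d.ζ (Z r).2.1.1 := (prod_basic H hZ r hr').2.2.2.2.2.2.2.2.2
      have d1 : st (d.Gd ((Z r).1.1, (Z r).2.2) / d.w - 1) = 0 := by
        apply st_zero
        have := h1 r hr'
        rw [← hq] at this
        have := (div_le_one hw).2 this
        linarith
      have d2 : st (d.N (d.pS (Z r).1.2 - (Z r).2.2) / d.w - 1) = 0 := by
        apply st_zero
        have := (div_le_one hw).2 (hN r hr).le
        linarith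
      have d3 : d.dev (Z r) = 0 := by
        unfold PD.dev
        rw [d1, d2, add_zero]
      have hroom : d.room (Z r).2.1.2 ≤ 1 := cl01_le_one _
      show d.δ * κ.2.1.2 - (d.A.V κ.1.1 - κ.2.1.1) ≤ 0
      rw [hy', d3, mul_zero, zero_mul, add_zero, mul_div_cancel₀ _ hδ.ne']
      have := mul_le_mul_of_nonneg_right hroom (sub_nonneg.2 hv)
      linarith) le_rfl hτ.1 le_rfl
  obtain ⟨e1, e2⟩ := prodE_start H hZ
  have key' : (d.δ * (Z τ).2.1.2 - (d.A.V (Z τ).1.1 - (Z τ).2.1.1)) -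
      (d.δ * (Z a).2.1.2 - (d.A.V (Z a).1.1 - (Z a).2.1.1)) ≤ 0 * (τ - a) := key
  rw [e1, e2] at key'
  have hy : (Z τ).2.1.2 ≤ 1 := by
    have h3 := h2 τ hτ
    have h4 : d.δ * (Z τ).2.1.2 ≤ d.δ * 1 := by linarith
    exact le_of_mul_le_mul_left h4 hδ
  obtain ⟨s0, hs0, ht0⟩ := prod_exists_time H hZ hτ (not_le.1 hc).le
  have hs0' : s0 ∈ Icc a b := ⟨hs0.1, hs0.2.trans hτ.2⟩
  obtain ⟨hN0, -⟩ := prodE_early H hZ hs0' ht0.ge (by linarith [h2 s0 hs0'])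
  have hT' : IsTraj d.K Z s0 τ := hZ.2.1.restrict hs0.1 hτ.2
  have key2 := hT'.le_rate (prodE_bddK H) (Φ := prodE_P d)
    (fun x => (prodE_P_hasFDerivAt H x).differentiableAt) (ρ := 0)
    (fun r hr κ hκ => prodE_P_rate H hZ ⟨hs0.1.trans hr.1, hr.2.le.trans hτ.2⟩
      ((prod_y_mono H hZ (hs0.1.trans hr.1) hr.2.le hτ.2).trans hy)
      ((prod_t_anti H hZ hs0.1 hr.1 (hr.2.le.trans hτ.2) (by linarith)).trans ht0.le) hκ)
    le_rfl hs0.2 le_rfl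
  simp only [prodE_P, prodE_t_apply, prodE_y_apply] at key2
  obtain ⟨-, hC0, -, -, -, -, -, hy0, -⟩ := prod_basic H hZ s0 hs0'
  obtain ⟨-, hC, -, -, -, -, ht, -⟩ := prod_basic H hZ τ hτ
  obtain ⟨a1, a2⟩ := prodE_Phi_ge H hC0
  obtain ⟨a3, -⟩ := prodE_Phi_ge H hC
  have hP0 : 0 ≤ d.Phi (Z s0) := ((norm_nonneg _).trans (H.N_ge _)).trans a1
  have hP : 0 ≤ d.Phi (Z τ) := ((norm_nonneg _).trans (H.N_ge _)).trans a3
  obtain ⟨x1, x2, -, -⟩ := H.Ex_bd (Z s0).2.1.1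
  have x3 := (H.Ex_bd (Z τ).2.1.1).2.2.2 ht
  have b1 : d.Ex (Z s0).2.1.1 * d.Phi (Z s0) ≤
      Emax * (ν + M' * (2 * d.δ * ‖d.γ⁻¹ • d.S.one‖) + 2 * d.M * d.om) :=
    mul_le_mul x2 (by linarith) hP0 (x1.le.trans x2)
  have b2 : 1 * d.Phi (Z τ) ≤ d.Ex (Z τ).2.1.1 * d.Phi (Z τ) := mul_le_mul_of_nonneg_right x3 hP
  have b3 := mul_le_mul_of_nonneg_left hy H.Kw_nonneg
  have b4 := mul_nonneg H.Kw_nonneg hy0
  have b5 := (H.Th_bd (Z τ).2.1.1).2 ht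
  have b6 := mul_nonneg H.μ_pos.le ht
  have b7 : d.μ * (Z s0).2.1.1 ≤ d.μ * d.H :=
    mul_le_mul_of_nonneg_left (by linarith) H.μ_pos.le
  have b8 := H.lock (Z s0).2.1.1
  linarith

/-- Plan: for `0.4 H ≤ t` use `prod_early`.  Otherwise take `s0` with `t = 0.4 H`; `boot` on
`[s0, b]` for the open condition `N < w`: while it holds `dev = 0`, so `δ y ≤ V a - t ≤ δ`,
`omg = 1`, `al = 1` and `Ex t * Phi - Kw y + Th t + μ t` is nonincreasing; conclude with `lock`. -/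
theorem prod_lock (H : d.Hyp Tm Qc η Emax M' ν Bq) {Z : ℝ → d.E} {a b : ℝ}
    (hZ : d.sys.Adm Z a b) (h1 : ∀ s ∈ Icc a b, d.Gd ((Z s).1.1, d.ζ (Z s).2.1.1) ≤ d.w)
    (h2 : ∀ s ∈ Icc a b, d.A.V (Z s).1.1 - (Z s).2.1.1 ≤ d.δ) :
    ∀ s ∈ Icc a b, ‖d.pS (Z s).1.2 - d.ζ (Z s).2.1.1‖ ≤ d.w / 2 := by
  have hw := H.w_pos
  have hU : IsOpen {x : d.E | d.N (prodE_dq d x) < d.w} :=
    isOpen_lt (H.N_smooth.continuous.comp (prodE_dq d).continuous) continuous_const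
  have hall := boot (hZ.2.1.continuousOn (prodE_bddK H)) hU (fun τ hτ hN => by
    have := prodE_step H hZ h1 h2 hτ hN
    show d.N (d.pS (Z τ).1.2 - (Z τ).2.2) < d.w
    linarith)
  intro s hs
  have hq : (Z s).2.2 = d.ζ (Z s).2.1.1 := (prod_basic H hZ s hs).2.2.2.2.2.2.2.2.2
  rw [← hq]
  exact (H.N_ge _).trans (prodE_step H hZ h1 h2 hs
    (fun r hr => hall r ⟨hr.1, hr.2.le.trans hs.2⟩))

end Pool.Agent.MP703675
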