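import Pool.Agent.Lib.MP_703675_gt.ProdC
import Pool.Agent.Lib.MP_703675_gt.ProdD
import Pool.Agent.Lib.MP_703675_gt.ProdE
import Pool.Agent.Lib.MP_703675_gt.Chain

set_option autoImplicit false

open Set Metric Filter Topology TopologicalSpace

noncomputable section

namespace Pool.Agent.MP703675

/-- the construction on top of a given product system -/
theorem coupleOff_assemble {d : PD} {Tm Qc η Emax M' ν Bq : ℝ} (hyp : d.Hyp Tm Qc η Emax M' ν Bq)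
    (hγ : 0 < d.γ) {k n : ℕ} {par : ℕ → Par} {ld : LD d.C.E} {sC sW : ℝ}
    (hT3 : Tower (d.S.scale d.γ) 1 d.C d.pS k n par ld sC) (hcw : sC ≤ sW) {β : ℝ} (hβ : 0 < β)
    (hslk : d.slk ≤ β / 2) (H0 : ℝ) (hGd : ∀ x, d.Gd x ≤ d.w) {Bs ε' : ℝ}
    (hg : ∀ t, ‖d.g t‖ ≤ Bs) (hw : d.w ≤ ε') (hδ : Bs * d.δ ≤ ε' / 2) :
    ∃ (D : Sys) (π : D.E →L[ℝ] d.A.E) (ψ : D.E →L[ℝ] d.S.E) (n' : ℕ) (par' : ℕ → Par),
      (∀ j, j < n → par' j = par j) ∧ Block d.A n β H0 D π n' par' ∧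
      (∃ ld, Tower d.S d.γ D ψ k n' par' ld (sW + β)) ∧
      ∀ Z a b, D.Adm Z a b → (∀ s ∈ Icc a b, d.A.V (π (Z s)) - D.V (Z s) ≤ d.δ) →
        ∀ s ∈ Icc a b, ‖ψ (Z s) - d.ζ (D.V (Z s))‖ ≤ ε' := by
  have hP : d.sys.Good := prod_good hyp
  have hβ2 : 0 < β / 2 := by linarith
  obtain ⟨D, π1, q, hB⟩ := pure_block hP n hβ2 H0
  have hlow : ∀ j, j < n → (if j < n then par j else q) = par j := fun j hj => if_pos hj
  have hup : ∀ j, n ≤ j → j < n + 1 → (if j < n then par j else q) = q :=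
    fun j hj _ => if_neg (not_lt.mpr hj)
  have hB' : Block d.sys n (β / 2) H0 D π1 (n + 1) (fun j => if j < n then par j else q) :=
    hB.congr_par hup
  obtain ⟨ld1, hT1⟩ := hB'.tower
  refine ⟨D, d.pa.comp π1, d.pS.comp (d.pc.comp π1), n + 1,
    fun j => if j < n then par j else q, hlow, ?_, ?_, ?_⟩
  · obtain ⟨c, hc, hc0⟩ := hB'.ctr
    refine ⟨hB'.lt, hB'.good, ⟨c, hc, ?_⟩, ⟨_, (hT1.comp (prod_towerA hyp n _)).slk_mono ?_⟩,
      hB'.wsum.trans (by linarith), hB'.H0_le, hB'.growth⟩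
    · rw [ContinuousLinearMap.comp_apply, hc0, map_zero]
    · linarith
  · have h3 : Tower (d.S.scale d.γ) 1 d.C d.pS k n (fun j => if j < n then par j else q) ld sC :=
      hT3.congr_par fun j _ hj => hlow j hj
    have h4 := ((hT1.comp (prod_towerC hyp n _)).comp h3).unscale hγ
    rw [one_mul] at h4
    exact ⟨_, h4.slk_mono (by linarith)⟩
  · intro Z a b hZ hgap s hs
    have hmor : Mor d.sys 1 D π1 := hT1.mor hP hB'.good
    have hY : d.sys.Adm (fun s => π1 (Z s)) a b := hmor.adm_one hZ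
    have hdom : ∀ s ∈ Icc a b, D.V (Z s) ≤ (π1 (Z s)).2.1.1 := by
      intro s hs
      have h1 := hmor.dom hP hB'.good hZ hs
      rw [one_mul] at h1
      exact h1
    have hgap' : ∀ s ∈ Icc a b, d.A.V (π1 (Z s)).1.1 - D.V (Z s) ≤ d.δ := hgap
    have hlock := prod_lock hyp hY (fun s _ => hGd _)
      (fun s hs => by
        have h1 := hdom s hs
        have h2 := hgap' s hs
        linarith) s hs
    have hle : (π1 (Z s)).2.1.1 ≤ d.A.V (π1 (Z s)).1.1 := (prod_basic hyp hY s hs).2.2.1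
    have hlip := hyp.tgt.zeta_lip hg (π1 (Z s)).2.1.1 (D.V (Z s))
    have hBs : 0 ≤ Bs := (norm_nonneg _).trans (hg 0)
    have habs : |(π1 (Z s)).2.1.1 - D.V (Z s)| ≤ d.δ := by
      have h1 := hdom s hs
      have h2 := hgap' s hs
      rw [abs_of_nonneg (by linarith)]
      linarith
    have h5 : Bs * |(π1 (Z s)).2.1.1 - D.V (Z s)| ≤ Bs * d.δ :=
      mul_le_mul_of_nonneg_left habs hBs
    have htri := norm_sub_le_norm_sub_add_norm_sub (d.pS (π1 (Z s)).1.2)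
      (d.ζ (π1 (Z s)).2.1.1) (d.ζ (D.V (Z s)))
    change ‖d.pS (π1 (Z s)).1.2 - d.ζ (D.V (Z s))‖ ≤ ε'
    linarith

/-- Plan: `C` from `pure_chain` over `S.scale γ`, `Gd = 0`, product system from `prod_data`
with `w = min w0 ε'`, one `pure_block` on top, `δ` with `Bs δ ≤ ε' / 2`. -/
theorem coupling_off {S : Sys} (hS : S.Good) {ε' : ℝ} (hε : 0 < ε') : ∃ ϑ' : ℝ, 0 < ϑ' ∧
    ∀ (γ Tm Qc η : ℝ) (ζ g : ℝ → S.E), 1 / 3 ≤ γ → γ ≤ 3 → η ≤ ϑ' → Target S γ Tm Qc η ζ g →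
      ∃ δ : ℝ, 0 < δ ∧ ∀ (A : Sys) (k n : ℕ) (par : ℕ → Par), A.Good → k < n →
        (∀ j, k ≤ j → j < n → (par j).Good) → ∑ j ∈ Finset.Ico k n, (par j).w ≤ ϑ' →
        200 * S.H ≤ (par k).H → Growth par k n → ∀ β H0 : ℝ, 0 < β →
        ∃ (D : Sys) (π : D.E →L[ℝ] A.E) (ψ : D.E →L[ℝ] S.E) (n' : ℕ) (par' : ℕ → Par),
          (∀ j, j < n → par' j = par j) ∧ Block A n β H0 D π n' par' ∧
          (∃ ld, Tower S γ D ψ k n' par' ld (∑ j ∈ Finset.Ico k n, (par j).w + β)) ∧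
          ∀ Z a b, D.Adm Z a b → (∀ s ∈ Icc a b, A.V (π (Z s)) - D.V (Z s) ≤ δ) →
            ∀ s ∈ Icc a b, ‖ψ (Z s) - ζ (D.V (Z s))‖ ≤ ε' := by
  obtain ⟨w0, hw0, hdata⟩ := prod_data hS
  have hw : 0 < min w0 ε' := lt_min hw0 hε
  obtain ⟨ϑ0, Bs, hϑ0, -, hBs, hdata⟩ := hdata (min w0 ε') hw (min_le_left _ _)
  refine ⟨ϑ0, hϑ0, ?_⟩
  intro γ Tm Qc η ζ g hγ1 hγ2 hη htgt
  obtain ⟨hg, hdata⟩ := hdata γ Tm Qc η ζ g hγ1 hγ2 hη htgt
  obtain ⟨δ0, hδ0, hdata⟩ := hdata 0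
  have hδ : 0 < min δ0 (ε' / (2 * Bs)) := lt_min hδ0 (by positivity)
  refine ⟨min δ0 (ε' / (2 * Bs)), hδ, ?_⟩
  intro A k n par hA hkn hpg hsum hH hG β H0 hβ
  have hγ : 0 < γ := by linarith
  have hSγ : (S.scale γ).Good := hS.scale hγ
  have hH' : 64 * (S.scale γ).H ≤ (par k).H := by
    have h1 : γ * S.H ≤ 3 * S.H := mul_le_mul_of_nonneg_right hγ2 hS.H_pos.le
    have h2 := hS.H_pos
    change 64 * (γ * S.H) ≤ (par k).H
    linarith
  obtain ⟨C, pS, ld, hC, hT3, hpure, -, -⟩ := pure_chain hSγ hkn hpg hH' hG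
  have hcw : ∑ j ∈ Finset.Ico k n, (par j).c ≤ ∑ j ∈ Finset.Ico k n, (par j).w := by
    refine Finset.sum_le_sum fun j hj => ?_
    obtain ⟨h1, h2⟩ := Finset.mem_Ico.mp hj
    have h3 := (hpg j h1 h2).c_le_w
    have h4 := (hpg j h1 h2).cap_pos
    linarith
  have hslk : 0 < min ϑ0 (β / 2) := lt_min hϑ0 (by linarith)
  obtain ⟨N, Ds, Ex, Th, H, Kw, M, om, μ, Emax, M', ν, Bq, -, hyp⟩ :=
    hdata (min δ0 (ε' / (2 * Bs))) hδ (min_le_left _ _) A C pS k n par ld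
      (∑ j ∈ Finset.Ico k n, (par j).c) (fun _ => 0) 0 (min ϑ0 (β / 2)) hA hC hT3 hpure hsum
      (hcw.trans hsum) contDiff_const (by intro a _ u _ q t; simp) (fun _ _ _ _ _ => hw.le)
      hslk (min_le_left _ _)
  have hεδ : Bs * min δ0 (ε' / (2 * Bs)) ≤ ε' / 2 := by
    have h1 : Bs * min δ0 (ε' / (2 * Bs)) ≤ Bs * (ε' / (2 * Bs)) :=
      mul_le_mul_of_nonneg_left (min_le_right _ _) hBs.le
    have h2 : Bs * (ε' / (2 * Bs)) = ε' / 2 := by field_simp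
    linarith
  exact coupleOff_assemble hyp hγ hT3 hcw hβ (min_le_right _ _) H0 (fun _ => hw.le) hg
    (min_le_right _ _) hεδ

end Pool.Agent.MP703675
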