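import Pool.Agent.Lib.MP_703675_gt.FamA

set_option autoImplicit false

open Set Metric Filter Topology TopologicalSpace

noncomputable section

namespace Pool.Agent.MP703675

variable {f : FD} {ϑ sa sc M' R Lb Bk Kb Cs L1 ρ0 Emax hi r : ℝ}

theorem famC_J_one {B : Sys} (hB : B.Good) (x : ℝ) : B.J (x • B.one) = 0 := by
  have h : B.J B.one = 0 := by
    show B.one - B.V B.one • B.one = 0
    rw [hB.V_one, one_smul, sub_self]
  rw [map_smul, h, smul_zero]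

theorem famC_V_one {B : Sys} (hB : B.Good) (x : ℝ) : B.V (x • B.one) = x := by
  rw [map_smul, hB.V_one, smul_eq_mul, mul_one]

theorem famC_eJ (H : f.Hyp ϑ sa sc M' R Lb Bk Kb Cs L1 ρ0 Emax hi r) {κ : f.L.E} {x y : ℝ}
    (hx : f.za κ = x • f.B.one) (hy : f.zc κ = y • f.B.one) (z : f.L.E) :
    fderiv ℝ f.N (f.eJ z) (f.eJ κ) = 0 := by
  have h : f.eJ κ = 0 := by
    unfold FD.eJ
    rw [hx, hy, famC_J_one H.goodB, famC_J_one H.goodB, sub_self]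
  rw [h, map_zero]

theorem famC_de (H : f.Hyp ϑ sa sc M' R Lb Bk Kb Cs L1 ρ0 Emax hi r) {κ : f.L.E} {x y : ℝ}
    (hx : f.za κ = x • f.B.one) (hy : f.zc κ = y • f.B.one) : f.de κ = f.θ * y - x := by
  unfold FD.de
  rw [hx, hy, famC_V_one H.goodB, famC_V_one H.goodB]

theorem famC_ramp {ω e O d D X : ℝ} (hω : 0 < ω) (hO : |O| ≤ ω) (hX : 0 ≤ X)
    (h1 : 0 ≤ e → d + D ≤ X) (h2 : e < 0 → -d + D ≤ X) :
    st ((e + O) / ω - 1) * (d + D) + st ((-e + O) / ω - 1) * (-d + D) ≤ X := by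
  have hO' := (abs_le.1 hO).2
  have key : ∀ a b : ℝ, b ≤ X → st a * b ≤ X := fun a b hb =>
    (mul_le_mul_of_nonneg_left hb (st_nonneg a)).trans (mul_le_of_le_one_left hX (st_le_one a))
  rcases le_or_gt 0 e with h | h
  · rw [st_zero (x := (-e + O) / ω - 1) (sub_nonpos.2 ((div_le_one hω).2 (by linarith))),
      zero_mul, add_zero]
    exact key _ _ (h1 h)
  · rw [st_zero (x := (e + O) / ω - 1) (sub_nonpos.2 ((div_le_one hω).2 (by linarith))),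
      zero_mul, zero_add]
    exact key _ _ (h2 h)

theorem famC_both_far (H : f.Hyp ϑ sa sc M' R Lb Bk Kb Cs L1 ρ0 Emax hi r) {ba bc : ℕ → Bool}
    {z : f.L.E} (hz : z ∈ f.L.Om) (h : f.NearMin r false ba bc z)
    (hh : f.Phi false ba bc z ≤ hi) :
    (∀ κ, κ ∈ f.B.K (f.fa (f.pa z)) ↔ ∃ c : ℝ, |c| ≤ 1 ∧ κ = c • f.B.one) ∧
      ∀ κ, κ ∈ f.B.K (f.fc (f.pc z)) ↔ ∃ c : ℝ, |c| ≤ 1 ∧ κ = c • f.B.one := by
  have h1 := fam_far_region H hz h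
  have h2 := (abs_le.1 (fam_small H false ba bc hz hh).2).1
  have h3 := H.goodB.H_pos
  have h4 := (abs_le.1 H.θ_near).2
  have h5 := H.ϑ_le
  have h6 := H.ϑ_le'
  have h7 := H.hi_le
  have h8 := H.towC.pos
  rw [H.ω_eq] at h2
  unfold FD.e at h2
  refine ⟨H.goodB.farLaw _ (H.towA.mapsTo _ (H.mapA z hz)) (by unfold FD.za at h1; linarith),
    H.goodB.farLaw _ (H.towC.mapsTo _ (H.mapC z hz)) (le_of_not_gt fun h9 => ?_)⟩
  have a1 : f.θ * f.B.V (f.zc z) ≤ f.θ * (3 * f.B.H) := mul_le_mul_of_nonneg_left h9.le h8.le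
  have a2 : f.θ * (3 * f.B.H) ≤ 101 / 100 * (3 * f.B.H) :=
    mul_le_mul_of_nonneg_right (by linarith) (by linarith)
  linarith

theorem famC_fin (H : f.Hyp ϑ sa sc M' R Lb Bk Kb Cs L1 ρ0 Emax hi r) {ba bc : ℕ → Bool}
    {z : f.L.E} (hz : z ∈ f.L.Om) {κ : f.L.E} (h1 : f.pa κ ∈ f.A.K (f.pa z))
    (h2 : f.pc κ ∈ f.C.K (f.pc z)) (hV : f.L.V κ = -1) {x y : ℝ}
    (hx : f.za κ = x • f.B.one) (hy : f.zc κ = y • f.B.one) (hx1 : |x| ≤ 1)
    (a1 : 0 ≤ f.e z → f.θ * y - x + f.dO ba bc z κ ≤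
      ∑ j ∈ Finset.Ico f.m f.n, f.la.er f.qa j (f.pa z) +
        ∑ j ∈ Finset.Ico f.m f.n, f.lc.er f.qc j (f.pc z))
    (a2 : f.e z < 0 → -(f.θ * y - x) + f.dO ba bc z κ ≤
      ∑ j ∈ Finset.Ico f.m f.n, f.la.er f.qa j (f.pa z) +
        ∑ j ∈ Finset.Ico f.m f.n, f.lc.er f.qc j (f.pc z)) :
    fderiv ℝ (f.Phi false ba bc) z κ ≤ 0 := by
  have eta : ∀ j ∈ Finset.Ico f.m f.n, 0 ≤ (f.qa j).eta := fun j hj =>
    (H.towA.pgood j (Finset.mem_Ico.1 hj).1 (Finset.mem_Ico.1 hj).2).eta_pos.le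
  have hβ := H.β_pos
  have hK := H.Kb_nonneg
  have e1 : ∑ j ∈ Finset.Ico f.m f.n, f.la.er f.qa j (f.pa z) +
      ∑ j ∈ Finset.Ico f.m f.n, f.lc.er f.qc j (f.pc z) ≤ ∑ j ∈ Finset.Ico f.m f.n,
        (if f.L.V z ≤ 4 * (f.qa j).H then 2 * (f.qa j).eta else 0) := by
    rw [← Finset.sum_add_distrib]
    exact Finset.sum_le_sum fun j hj =>
      fam_er_bd H hz (Finset.mem_Ico.1 hj).1 (Finset.mem_Ico.1 hj).2
  have e2 : 0 ≤ ∑ j ∈ Finset.Ico f.m f.n,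
      (if f.L.V z ≤ 4 * (f.qa j).H then 2 * (f.qa j).eta else 0) :=
    Finset.sum_nonneg fun j hj => by
      have := eta j hj
      split_ifs
      · linarith
      · exact le_rfl
  have hω : 0 < f.ω := by rw [H.ω_eq]; linarith [H.ϑ_pos]
  have e3 : f.dfar ba bc z κ ≤ ∑ j ∈ Finset.Ico f.m f.n,
      (if f.L.V z ≤ 4 * (f.qa j).H then 2 * (f.qa j).eta else 0) := by
    unfold FD.dfar
    rw [famC_de H hx hy]
    exact famC_ramp hω (fam_O_bd H ba bc hz).1 e2 (fun h => (a1 h).trans e1)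
      fun h => (a2 h).trans e1
  have e4 := fam_dcr_bd H hz (κ := κ) (by rw [hx, famC_V_one H.goodB]; exact hx1)
  have e5 : (if f.L.V z ≤ 5 * f.B.H then 4 * f.C1 * Cs / f.B.H else 0) ≤
      if f.L.V z ≤ 5 * f.B.H then ρ0 else 0 := by
    split_ifs
    · have b1 := H.ρ0_ge
      have b2 := H.ϑ_pos
      have b3 := H.Lb_nonneg
      have b4 := H.R_nonneg
      have b5 : 0 ≤ 2 * Lb * (‖f.B.V‖ + ‖f.B.J‖) * (‖f.B.one‖ * ϑ * (‖f.B.V‖ * R)) := by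
        positivity
      linarith
    · exact le_rfl
  have e6 := mul_le_mul_of_nonneg_left (fam_dTsum_bd H ba bc hz h1 h2) hβ.le
  have e7 : ∑ j ∈ Finset.Ico f.m f.n,
      (if f.L.V z ≤ 4 * (f.qa j).H then 2 * (f.qa j).eta else 0) +
      f.β * ∑ j ∈ Finset.Ico f.m f.n, (if f.L.V z ≤ 4 * (f.qa j).H then 2 * Kb else 0) ≤
      ∑ j ∈ Finset.Ico f.m f.n,
        (if f.L.V z ≤ 4 * (f.qa j).H then 8 * (f.qa j).eta + 2 * f.β * Kb else 0) := by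
    rw [Finset.mul_sum, ← Finset.sum_add_distrib]
    refine Finset.sum_le_sum fun j hj => ?_
    have := eta j hj
    split_ifs
    · linarith
    · rw [mul_zero, add_zero]
  have e8 : 0 ≤ f.β * ∑ j ∈ Finset.Ico f.m f.n,
      (if f.L.V z ≤ 4 * (f.qa j).H then 2 * Kb else 0) :=
    mul_nonneg hβ.le (Finset.sum_nonneg fun j _ => by
      split_ifs
      · linarith
      · exact le_rfl)
  have e9 := abs_le.1 e4
  have e10 := (abs_nonneg _).trans e4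
  have d1 : f.dbr false ba bc z κ ≤ (if f.L.V z ≤ 5 * f.B.H then ρ0 else 0) +
      ∑ j ∈ Finset.Ico f.m f.n,
        (if f.L.V z ≤ 4 * (f.qa j).H then 8 * (f.qa j).eta + 2 * f.β * Kb else 0) := by
    unfold FD.dbr
    rw [famC_eJ H hx hy, zero_div, zero_add, if_neg Bool.false_ne_true]
    linarith [e9.1]
  obtain ⟨x1, x2⟩ := H.Ex_bd _ (H.V_ge z hz)
  have d2 := (mul_le_mul_of_nonneg_left d1 (zero_le_one.trans x1)).trans
    ((mul_le_mul_of_nonneg_right x2 (by linarith)).trans (H.Th_der (f.L.V z)))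
  have d3 := mul_nonneg (H.Ex_der (f.L.V z)).1 (fam_br_ge H false ba bc hz).2.1
  rw [fam_fderiv H, hV]
  linarith

theorem famC_abs {σ c : ℝ} (h0 : 0 ≤ σ) (h1 : σ ≤ 1) (hc : |c| ≤ 1) : |σ / 1 * c| ≤ 1 := by
  rw [div_one, abs_mul, abs_of_nonneg h0]
  exact mul_le_one₀ h1 (abs_nonneg _) hc

/-- Plan: both base states are far, so `eJ κ = 0`.  `far_lead` for the leader, `move_or_pay`
for the other side over the base velocity `± one`, the sign chosen by the sign of `e`; at most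
one of the two ramps has nonzero slope because `|O| ≤ ω`. -/
theorem fam_far_a (H : f.Hyp ϑ sa sc M' R Lb Bk Kb Cs L1 ρ0 Emax hi r) {ba bc : ℕ → Bool}
    {z : f.L.E} (hz : z ∈ f.L.Om) (h : f.NearMin r false ba bc z) (hh : f.Phi false ba bc z ≤ hi) :
    ∀ u ∈ f.A.K (f.pa z), ∃ u' ∈ f.C.K (f.pc z), ∀ κ : f.L.E, f.pa κ = u → f.pc κ = u' →
      f.L.V κ = -1 → fderiv ℝ (f.Phi false ba bc) z κ ≤ 0 := by
  intro u hu
  obtain ⟨va, vc⟩ := fam_valid H hz h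
  obtain ⟨fa, fc⟩ := famC_both_far H hz h hh
  obtain ⟨σ, s0, s1, ⟨u0, hu0, e0⟩, l1⟩ := H.towA.far_lead (H.mapA z hz) va hu
  obtain ⟨c, hc, rfl⟩ := (fa _).1 hu0
  obtain ⟨τ, -, -, hm⟩ := H.towC.move_or_pay (H.mapC z hz) vc
  obtain ⟨ε, hε, ε1, ε2⟩ : ∃ ε : ℝ, |ε| ≤ 1 ∧ (0 ≤ f.e z → ε = -1) ∧ (f.e z < 0 → ε = 1) := by
    rcases le_or_gt 0 (f.e z) with h | h
    · exact ⟨-1, by simp, fun _ => rfl, fun h' => absurd h h'.not_ge⟩
    · exact ⟨1, by simp, fun h' => absurd h' h.not_ge, fun _ => rfl⟩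
  obtain ⟨u', hu', e1, -, l2⟩ := hm _ ((fc _).2 ⟨ε, hε, rfl⟩)
  refine ⟨u', hu', fun κ k1 k2 hV => ?_⟩
  subst k1 k2
  rw [smul_smul] at e0 e1
  have hθ : f.θ * (τ / f.θ * ε) = τ * ε := by
    rw [← mul_assoc, mul_div_cancel₀ _ H.towC.pos.ne']
  have c1 := mul_nonneg s0 (show 0 ≤ c + 1 by linarith [(abs_le.1 hc).1])
  have c2 := mul_nonneg s0 (show 0 ≤ 1 - c by linarith [(abs_le.1 hc).2])
  refine famC_fin H hz hu hu' hV e0 e1 (famC_abs s0 s1 hc) (fun h => ?_) fun h => ?_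
  · rw [hθ, ε1 h]
    unfold FD.dO FD.dTa FD.dTc
    linarith
  · rw [hθ, ε2 h]
    unfold FD.dO FD.dTa FD.dTc
    linarith

theorem fam_far_c (H : f.Hyp ϑ sa sc M' R Lb Bk Kb Cs L1 ρ0 Emax hi r) {ba bc : ℕ → Bool}
    {z : f.L.E} (hz : z ∈ f.L.Om) (h : f.NearMin r false ba bc z) (hh : f.Phi false ba bc z ≤ hi) :
    ∀ u' ∈ f.C.K (f.pc z), ∃ u ∈ f.A.K (f.pa z), ∀ κ : f.L.E, f.pa κ = u → f.pc κ = u' →
      f.L.V κ = -1 → fderiv ℝ (f.Phi false ba bc) z κ ≤ 0 := by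
  intro u' hu'
  obtain ⟨va, vc⟩ := fam_valid H hz h
  obtain ⟨fa, fc⟩ := famC_both_far H hz h hh
  obtain ⟨σ, s0, -, ⟨u0, hu0, e0⟩, l1⟩ := H.towC.far_lead (H.mapC z hz) vc hu'
  obtain ⟨c, hc, rfl⟩ := (fc _).1 hu0
  obtain ⟨τ, t0, t1, hm⟩ := H.towA.move_or_pay (H.mapA z hz) va
  obtain ⟨ε, hε, ε1, ε2⟩ : ∃ ε : ℝ, |ε| ≤ 1 ∧ (0 ≤ f.e z → ε = 1) ∧ (f.e z < 0 → ε = -1) := by
    rcases le_or_gt 0 (f.e z) with h | h
    · exact ⟨1, by simp, fun _ => rfl, fun h' => absurd h h'.not_ge⟩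
    · exact ⟨-1, by simp, fun h' => absurd h' h.not_ge, fun _ => rfl⟩
  obtain ⟨u, hu, e1, -, l2⟩ := hm _ ((fa _).2 ⟨ε, hε, rfl⟩)
  refine ⟨u, hu, fun κ k1 k2 hV => ?_⟩
  subst k1 k2
  rw [smul_smul] at e0 e1
  have hθ : f.θ * (σ / f.θ * c) = σ * c := by
    rw [← mul_assoc, mul_div_cancel₀ _ H.towC.pos.ne']
  have c1 := mul_nonneg s0 (show 0 ≤ c + 1 by linarith [(abs_le.1 hc).1])
  have c2 := mul_nonneg s0 (show 0 ≤ 1 - c by linarith [(abs_le.1 hc).2])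
  refine famC_fin H hz hu hu' hV e1 e0 (famC_abs t0 t1 hε) (fun h => ?_) fun h => ?_
  · rw [hθ, ε1 h]
    unfold FD.dO FD.dTa FD.dTc
    linarith
  · rw [hθ, ε2 h]
    unfold FD.dO FD.dTa FD.dTc
    linarith

/-- mirrored motion of two far components does not change the bracket
(`Tower.D_one`, `Tower.dT_far`, `Tower.map_one`) -/
theorem fam_mirror (H : f.Hyp ϑ sa sc M' R Lb Bk Kb Cs L1 ρ0 Emax hi r) (md : Bool)
    (ba bc : ℕ → Bool) {z : f.L.E} (hz : z ∈ f.L.Om) (h1 : 3 * f.A.H ≤ f.A.V (f.pa z))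
    (h2 : 3 * f.C.H ≤ f.C.V (f.pc z)) {c : ℝ} {κ : f.L.E} (ha : f.pa κ = c • f.A.one)
    (hc : f.pc κ = c • f.C.one) : f.dbr md ba bc z κ = 0 := by
  have hB := H.goodB.H_pos
  have b1 := H.ϑ_le
  have b2 := H.ϑ_le'
  have b3 := H.sa_le
  have b4 := H.sc_le
  have b5 := (abs_le.1 H.θ_near).1
  have b6 := H.towA.H_le
  have b7 := H.towC.H_le
  have b8 : 99 / 100 * f.B.H ≤ f.θ * f.B.H := mul_le_mul_of_nonneg_right (by linarith) hB.le
  have hx : f.za κ = (c * 1⁻¹) • f.B.one := by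
    unfold FD.za
    rw [ha, map_smul, H.towA.map_one, smul_smul]
  have hy : f.zc κ = (c * f.θ⁻¹) • f.B.one := by
    unfold FD.zc
    rw [hc, map_smul, H.towC.map_one, smul_smul]
  have d0 : f.de κ = 0 := by
    rw [famC_de H hx hy, inv_one, mul_one, mul_left_comm, mul_inv_cancel₀ H.towC.pos.ne', mul_one,
      sub_self]
  have d1 : ∀ j ∈ Finset.Ico f.m f.n, f.la.Dj j (f.pa κ) = 0 ∧ f.lc.Dj j (f.pc κ) = 0 ∧
      f.dTa j (ba j) z κ = 0 ∧ f.dTc j (bc j) z κ = 0 := fun j hj => by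
    obtain ⟨j1, j2⟩ := Finset.mem_Ico.1 hj
    unfold FD.dTa FD.dTc
    rw [ha, hc, map_smul, map_smul, map_smul, map_smul, H.towA.D_one H.goodA j1 j2,
      H.towC.D_one H.goodC j1 j2,
      H.towA.dT_far H.goodA (by linarith) (H.mapA z hz) h1 j1 j2,
      H.towC.dT_far H.goodC (by linarith) (H.mapC z hz) h2 j1 j2, smul_zero]
    exact ⟨rfl, rfl, rfl, rfl⟩
  have d2 : f.dcr z κ = 0 := by
    obtain ⟨l1, l2⟩ := H.towA.lev_H f.m le_rfl H.lt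
    have l3 := H.towA.dom _ (H.mapA z hz)
    unfold FD.dcr FD.za
    rw [deriv_st_zero (Or.inr ((one_le_div (by linarith)).2 (by linarith))), zero_mul, mul_zero,
      mul_zero]
  have d3 : f.dTsum ba bc z κ = 0 := Finset.sum_eq_zero fun j hj => by
    rw [(d1 j hj).2.2.1, (d1 j hj).2.2.2, add_zero]
  have d4 : f.dO ba bc z κ = 0 := by
    unfold FD.dO
    rw [Finset.sum_eq_zero fun j hj => by rw [(d1 j hj).1, (d1 j hj).2.2.1, add_zero],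
      Finset.sum_eq_zero fun j hj => by rw [(d1 j hj).2.1, (d1 j hj).2.2.2, add_zero], add_zero]
  have d5 : f.dfar ba bc z κ = 0 := by
    unfold FD.dfar
    rw [d0, d4, neg_zero, add_zero, mul_zero, mul_zero, add_zero]
  have d6 : f.dnear ba bc z κ = 0 := by
    unfold FD.dnear
    rw [d0, Finset.sum_eq_zero fun j hj => by
      rw [(d1 j hj).1, (d1 j hj).2.1, (d1 j hj).2.2.1, (d1 j hj).2.2.2, add_zero, sub_zero,
        mul_zero, mul_zero, add_zero], mul_zero, mul_zero, add_zero]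
  unfold FD.dbr
  rw [famC_eJ H hx hy, d2, d3, d5, d6]
  simp

end Pool.Agent.MP703675
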