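import Pool.Agent.Lib.MP_703675_gt.FamB
import Pool.Agent.Lib.MP_703675_gt.FamC

set_option autoImplicit false

open Set Metric Filter Topology TopologicalSpace

noncomputable section

namespace Pool.Agent.MP703675

theorem famD_st_one {N t : ℝ} (hN : 0 < N) (h : t ≤ N) : st (2 - t / N) = 1 := by
  apply st_one
  have : t / N ≤ 1 := (div_le_one hN).2 h
  linarith

theorem famD_st_zero {N t : ℝ} (hN : 0 < N) (h : 2 * N ≤ t) : st (2 - t / N) = 0 := by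
  apply st_zero
  have : 2 ≤ t / N := (le_div_iff₀ hN).2 h
  linarith

theorem famD_A_nonneg {N t : ℝ} (hN : 0 < N) (ht : -1 ≤ t) : 0 ≤ Aint N t + 1 := by
  have h1 := Aint_ge hN t
  have h2 : -1 ≤ min t (2 * N) := le_min ht (by linarith)
  linarith

/-- the exponential weight -/
def famDEx (L1 N t : ℝ) : ℝ := Real.exp (L1 * (Aint N t + 1))

theorem famDEx_deriv {L1 N : ℝ} (hN : 0 < N) (t : ℝ) :
    deriv (famDEx L1 N) t = famDEx L1 N t * (L1 * st (2 - t / N)) :=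
  (((Aint_hasDerivAt hN t).add_const 1).const_mul L1).exp.deriv

theorem famDEx_smooth (L1 N : ℝ) : ContDiff ℝ 2 (famDEx L1 N) :=
  (contDiff_const.mul ((Aint_smooth (N := N) 2).add contDiff_const)).exp

theorem famDEx_bd {L1 N : ℝ} (hL : 0 ≤ L1) (hN : 0 < N) {t : ℝ} (ht : -1 ≤ t) :
    1 ≤ famDEx L1 N t ∧ famDEx L1 N t ≤ Real.exp (L1 * (2 * N + 1)) := by
  refine ⟨Real.one_le_exp (mul_nonneg hL (famD_A_nonneg hN ht)), Real.exp_le_exp.2 ?_⟩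
  have := Aint_le hN t
  exact mul_le_mul_of_nonneg_left (by linarith) hL

/-- the additive weight -/
def famDTh (E ρ N : ℝ) (s : Finset ℕ) (a Nj : ℕ → ℝ) (t : ℝ) : ℝ :=
  E * (ρ * (Aint N t + 1) + ∑ j ∈ s, a j * (Aint (Nj j) t + 1))

theorem famDTh_deriv {E ρ N : ℝ} {s : Finset ℕ} {a Nj : ℕ → ℝ} (hN : 0 < N)
    (hj : ∀ j ∈ s, 0 < Nj j) (t : ℝ) : deriv (famDTh E ρ N s a Nj) t =
      E * (ρ * st (2 - t / N) + ∑ j ∈ s, a j * st (2 - t / Nj j)) := by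
  have h1 : HasDerivAt (fun t => ∑ j ∈ s, a j * (Aint (Nj j) t + 1))
      (∑ j ∈ s, a j * st (2 - t / Nj j)) t :=
    HasDerivAt.fun_sum fun j hjs => ((Aint_hasDerivAt (hj j hjs) t).add_const 1).const_mul (a j)
  exact (((((Aint_hasDerivAt hN t).add_const 1).const_mul ρ).add h1).const_mul E).deriv

theorem famDTh_smooth (E ρ N : ℝ) (s : Finset ℕ) (a Nj : ℕ → ℝ) :
    ContDiff ℝ 2 (famDTh E ρ N s a Nj) :=
  contDiff_const.mul ((contDiff_const.mul ((Aint_smooth (N := N) 2).add contDiff_const)).add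
    (ContDiff.sum fun j _ => contDiff_const.mul ((Aint_smooth (N := Nj j) 2).add contDiff_const)))

theorem famDTh_nonneg {E ρ N : ℝ} {s : Finset ℕ} {a Nj : ℕ → ℝ} (hE : 0 ≤ E) (hρ : 0 ≤ ρ)
    (hN : 0 < N) (hj : ∀ j ∈ s, 0 < Nj j) (ha : ∀ j ∈ s, 0 ≤ a j) {t : ℝ} (ht : -1 ≤ t) :
    0 ≤ famDTh E ρ N s a Nj t :=
  mul_nonneg hE (add_nonneg (mul_nonneg hρ (famD_A_nonneg hN ht))
    (Finset.sum_nonneg fun j hjs => mul_nonneg (ha j hjs) (famD_A_nonneg (hj j hjs) ht)))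

theorem famDTh_le {E ρ N : ℝ} {s : Finset ℕ} {a Nj : ℕ → ℝ} (hE : 0 ≤ E) (hρ : 0 ≤ ρ)
    (hN : 0 < N) (hj : ∀ j ∈ s, 0 < Nj j) (ha : ∀ j ∈ s, 0 ≤ a j) (t : ℝ) :
    famDTh E ρ N s a Nj t ≤ E * (ρ * (2 * N + 1) + ∑ j ∈ s, a j * (2 * Nj j + 1)) := by
  refine mul_le_mul_of_nonneg_left (add_le_add (mul_le_mul_of_nonneg_left ?_ hρ)
    (Finset.sum_le_sum fun j hjs => mul_le_mul_of_nonneg_left ?_ (ha j hjs))) hE
  · have := Aint_le hN t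
    linarith
  · have := Aint_le (hj j hjs) t
    linarith

theorem famDTh_der_ge {E ρ N : ℝ} {s : Finset ℕ} {a Nj : ℕ → ℝ} (hE : 0 ≤ E) (hρ : 0 ≤ ρ)
    (hN : 0 < N) (hj : ∀ j ∈ s, 0 < Nj j) (ha : ∀ j ∈ s, 0 ≤ a j) (t : ℝ) :
    E * ((if t ≤ N then ρ else 0) + ∑ j ∈ s, (if t ≤ Nj j then a j else 0)) ≤
      deriv (famDTh E ρ N s a Nj) t := by
  rw [famDTh_deriv hN hj]
  refine mul_le_mul_of_nonneg_left (add_le_add ?_ (Finset.sum_le_sum fun j hjs => ?_)) hE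
  · split_ifs with h
    · rw [famD_st_one hN h, mul_one]
    · exact mul_nonneg hρ (st_nonneg _)
  · split_ifs with h
    · rw [famD_st_one (hj j hjs) h, mul_one]
    · exact mul_nonneg (ha j hjs) (st_nonneg _)

theorem famD_decomp (B : Sys) (z z' : B.E) :
    z - z' = (B.J z - B.J z') + (B.V z - B.V z') • B.one := by
  simp only [Sys.J, sub_apply, ContinuousLinearMap.id_apply,
    ContinuousLinearMap.smulRight_apply, sub_smul]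
  abel

section

variable {f : FD} {ϑ sa sc M' R Lb Bk Kb Cs L1 ρ0 Emax hi r : ℝ}

theorem famD_close (H : f.Hyp ϑ sa sc M' R Lb Bk Kb Cs L1 ρ0 Emax hi r) {ε : ℝ}
    (h6 : f.M2 * hi + (hi + 3 * f.ω + ϑ * (‖f.B.V‖ * R)) * ‖f.B.one‖ ≤ ε) (md : Bool)
    (ba bc : ℕ → Bool) {z : f.L.E} (hz : z ∈ f.L.Om) (h : f.Phi md ba bc z ≤ hi) :
    f.B.Close ε (f.za z) (f.zc z) := by
  obtain ⟨h1, h2⟩ := fam_small H md ba bc hz h
  by_cases hc : 2 * f.B.H ≤ f.B.V (f.za z) ∧ 2 * f.B.H ≤ f.B.V (f.zc z)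
  · exact Or.inl hc
  right
  have hH := H.goodB.H_pos
  have hω := H.ω_eq
  have hϑ := H.ϑ_le
  have hϑ' := H.ϑ_le'
  have hhi := H.hi_le
  have hθ := abs_le.1 H.θ_near
  have he := abs_le.1 h2
  have hedef : f.e z = f.θ * f.B.V (f.zc z) - f.B.V (f.za z) := rfl
  have hV : f.B.V (f.zc z) ≤ 6 * f.B.H := by
    by_contra hn
    push Not at hn
    have hA : f.B.V (f.za z) < 2 * f.B.H := by
      by_contra hA
      push Not at hA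
      exact hc ⟨hA, by linarith⟩
    have h3 : (99 / 100) * f.B.V (f.zc z) ≤ f.θ * f.B.V (f.zc z) :=
      mul_le_mul_of_nonneg_right (by linarith) (by linarith)
    linarith
  have hOm : f.zc z ∈ f.B.Om := H.towC.mapsTo _ (H.mapC z hz)
  have hR := H.R_bd _ hOm hV
  have hVb : |f.B.V (f.zc z)| ≤ ‖f.B.V‖ * R :=
    ((f.B.V.le_opNorm _).trans (mul_le_mul_of_nonneg_left hR (norm_nonneg _)))
  have hd : |f.B.V (f.za z) - f.B.V (f.zc z)| ≤ hi + 3 * f.ω + ϑ * (‖f.B.V‖ * R) := by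
    have e1 : f.B.V (f.za z) - f.B.V (f.zc z) = -f.e z + (f.θ - 1) * f.B.V (f.zc z) := by
      rw [hedef]; ring
    rw [e1]
    refine (abs_add_le _ _).trans (add_le_add (by rwa [abs_neg]) ?_)
    rw [abs_mul]
    exact mul_le_mul H.θ_near hVb (abs_nonneg _) H.ϑ_pos.le
  rw [famD_decomp f.B (f.za z) (f.zc z)]
  refine (norm_add_le _ _).trans (le_trans (add_le_add h1 ?_) h6)
  rw [norm_smul, Real.norm_eq_abs]
  exact mul_le_mul_of_nonneg_right hd (norm_nonneg _)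

/-- extension of a finite sign pattern -/
def famDExt {n : ℕ} (b : Fin n → Bool) (j : ℕ) : Bool := if h : j < n then b ⟨j, h⟩ else false

/-- the finite family -/
def famDList (f : FD) : List (f.L.E → ℝ) :=
  (Finset.univ : Finset (Bool × (Fin f.n → Bool) × (Fin f.n → Bool))).toList.map
    fun p => f.Phi p.1 (famDExt p.2.1) (famDExt p.2.2)

theorem famD_mem (f : FD) (md : Bool) (ba bc : ℕ → Bool) : f.Phi md ba bc ∈ famDList f := by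
  refine List.mem_map.2 ⟨(md, fun j => ba j, fun j => bc j), by simp, ?_⟩
  refine fam_congr f md (fun j hj => ?_) (fun j hj => ?_) <;> simp [famDExt, hj]

theorem famD_of_mem (f : FD) {Φ : f.L.E → ℝ} (h : Φ ∈ famDList f) :
    ∃ md ba bc, Φ = f.Phi md ba bc := by
  obtain ⟨p, _, hp⟩ := List.mem_map.1 h
  exact ⟨_, _, _, hp.symm⟩

theorem famD_length (f : FD) : 2 ≤ (famDList f).length := by
  rw [famDList, List.length_map, Finset.length_toList, Finset.card_univ, Fintype.card_prod,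
    Fintype.card_bool]
  have : 0 < Fintype.card ((Fin f.n → Bool) × (Fin f.n → Bool)) := Fintype.card_pos
  omega

theorem famD_final (H : f.Hyp ϑ sa sc M' R Lb Bk Kb Cs L1 ρ0 Emax hi r) {ε lo : ℝ}
    (h1 : f.pa f.L.one = f.A.one) (h2 : f.pc f.L.one = f.C.one)
    (h3 : ∀ z ∈ f.L.Om, 3 * f.L.H ≤ f.L.V z →
      3 * f.A.H ≤ f.A.V (f.pa z) ∧ 3 * f.C.H ≤ f.C.V (f.pc z))
    (h4 : ∀ t, 3 * f.L.H ≤ t → deriv f.Ex t = 0 ∧ deriv f.Th t = 0)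
    (h5 : ∀ t, Emax * ((M' + 1) * ϑ + 4 * f.ν + 13 * f.ω) + f.Th t + 2 * r ≤ lo)
    (h6 : f.M2 * hi + (hi + 3 * f.ω + ϑ * (‖f.B.V‖ * R)) * ‖f.B.one‖ ≤ ε)
    (h7 : ∀ t, 0 ≤ deriv f.Th t) :
    ∃ (Fs : List (f.L.E → ℝ)) (r : ℝ), 0 < r ∧ 2 ≤ Fs.length ∧
        (∀ Φ ∈ Fs, ContDiff ℝ 2 Φ ∧ ∀ z ∈ f.L.Om, 3 * f.L.H ≤ f.L.V z →
          fderiv ℝ Φ z f.L.one = 0) ∧
        (∀ z ∈ f.L.Om, f.B.Dev f.θ (f.fa (f.pa z)) (f.fc (f.pc z)) ϑ →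
          ∃ Φ ∈ Fs, Φ z + 2 * r ≤ lo) ∧
        (∀ z ∈ f.L.Om, ∀ Φ ∈ Fs, Φ z ≤ hi → f.B.Close ε (f.fa (f.pa z)) (f.fc (f.pc z))) ∧
        (∀ z ∈ f.L.Om, ∀ Φ ∈ Fs, 3 * f.A.H ≤ f.A.V (f.pa z) → 3 * f.C.H ≤ f.C.V (f.pc z) →
          ∀ (c : ℝ) (κ : f.L.E), f.pa κ = c • f.A.one → f.pc κ = c • f.C.one → f.L.V κ = -1 →
            fderiv ℝ Φ z κ ≤ 0) ∧
        ∀ z ∈ f.L.Om, ∀ Φ ∈ Fs, Φ z ≤ hi → (∀ Φ' ∈ Fs, Φ z ≤ Φ' z + r) →
          (∀ u ∈ f.A.K (f.pa z), ∃ u' ∈ f.C.K (f.pc z), ∀ κ : f.L.E, f.pa κ = u → f.pc κ = u' →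
            f.L.V κ = -1 → fderiv ℝ Φ z κ ≤ 0) ∧
          ∀ u' ∈ f.C.K (f.pc z), ∃ u ∈ f.A.K (f.pa z), ∀ κ : f.L.E, f.pa κ = u → f.pc κ = u' →
            f.L.V κ = -1 → fderiv ℝ Φ z κ ≤ 0 := by
  refine ⟨famDList f, r, H.r_pos, famD_length f, ?_, ?_, ?_, ?_, ?_⟩
  · intro Φ hΦ
    obtain ⟨md, ba, bc, rfl⟩ := famD_of_mem f hΦ
    refine ⟨fam_smooth H md ba bc, fun z hz hV => ?_⟩
    obtain ⟨ha, hc⟩ := h3 z hz hV
    obtain ⟨e1, e2⟩ := h4 _ hV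
    rw [fam_fderiv H, fam_mirror H md ba bc hz ha hc (c := 1) (by rw [one_smul, h1])
      (by rw [one_smul, h2]), e1, e2]
    ring
  · intro z hz hd
    refine ⟨_, famD_mem f true (fun _ => true) (fun _ => true), ?_⟩
    have := fam_dev H true (fun _ => true) (fun _ => true) hz hd
    have := h5 (f.L.V z)
    linarith
  · intro z hz Φ hΦ h
    obtain ⟨md, ba, bc, rfl⟩ := famD_of_mem f hΦ
    exact famD_close H h6 md ba bc hz h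
  · intro z hz Φ hΦ ha hc c κ e1 e2 e3
    obtain ⟨md, ba, bc, rfl⟩ := famD_of_mem f hΦ
    rw [fam_fderiv H, fam_mirror H md ba bc hz ha hc e1 e2, e3]
    have g1 := mul_nonneg (H.Ex_der (f.L.V z)).1 (fam_br_ge H md ba bc hz).2.1
    have g2 := h7 (f.L.V z)
    linarith
  · intro z hz Φ hΦ h hmin
    obtain ⟨md, ba, bc, rfl⟩ := famD_of_mem f hΦ
    have hN : f.NearMin r md ba bc z := fun md' ba' bc' => hmin _ (famD_mem f md' ba' bc')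
    cases md with
    | true => exact ⟨fam_near_a H hz hN h, fam_near_c H hz hN h⟩
    | false => exact ⟨fam_far_a H hz hN h, fam_far_c H hz hN h⟩

end

theorem famD_exists_r (s : Finset ℕ) (a b : ℕ → ℝ) (ha : ∀ j, 0 < a j) (hb : ∀ j, 0 < b j) :
    ∃ r : ℝ, 0 < r ∧ ∀ j ∈ s, r ≤ a j ∧ r ≤ b j := by
  classical
  induction s using Finset.induction_on with
  | empty => exact ⟨1, one_pos, by simp⟩
  | insert i s _ ih =>
    obtain ⟨r, hr, h⟩ := ih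
    refine ⟨min r (min (a i) (b i)), lt_min hr (lt_min (ha i) (hb i)), fun j hj => ?_⟩
    rcases Finset.mem_insert.1 hj with rfl | hj
    · exact ⟨(min_le_right _ _).trans (min_le_left _ _), (min_le_right _ _).trans (min_le_right _ _)⟩
    · exact ⟨(min_le_left _ _).trans (h j hj).1, (min_le_left _ _).trans (h j hj).2⟩

theorem famD_exists_small {a K : ℝ} (ha : 0 < a) (hK : 0 ≤ K) :
    ∃ x : ℝ, 0 < x ∧ ∀ y, 0 ≤ y → y ≤ x → y * K ≤ a := by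
  refine ⟨a / (K + 1), by positivity, fun y hy h => ?_⟩
  have h1 : y * (K + 1) ≤ a := (le_div_iff₀ (by positivity)).1 h
  nlinarith

theorem famD_sum_le {s : Finset ℕ} {q : ℕ → Par} {H ϑ β Kb : ℝ} (hH : 0 < H)
    (hg : ∀ j ∈ s, (q j).Good) (hl : ∀ j ∈ s, 60 * (1 * H) ≤ (q j).H)
    (hw : ∑ j ∈ s, (q j).w ≤ ϑ) (hβ : β * (Kb * ∑ j ∈ s, 2 * (8 * (q j).H + 1)) ≤ ϑ) :
    ∑ j ∈ s, (8 * (q j).eta + 2 * β * Kb) * (2 * (4 * (q j).H) + 1) ≤ ϑ * (65 + 8 / H) := by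
  have h1 : ∀ j ∈ s, (8 * (q j).eta + 2 * β * Kb) * (2 * (4 * (q j).H) + 1) ≤
      (64 + 8 / H) * (q j).w + β * (Kb * (2 * (8 * (q j).H + 1))) := by
    intro j hj
    have g1 := (hg j hj).eta_le_w
    have g2 := (hg j hj).eta_pos
    have g3 := hl j hj
    have g4 : (q j).eta * H ≤ (q j).w := by
      have : (q j).eta * H ≤ (q j).eta * (q j).H := mul_le_mul_of_nonneg_left (by linarith) g2.le
      linarith
    have g5 : (q j).eta ≤ (q j).w / H := (le_div_iff₀ hH).2 g4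
    have g6 : 8 / H * (q j).w = 8 * ((q j).w / H) := by ring
    have g7 : (8 * (q j).eta + 2 * β * Kb) * (2 * (4 * (q j).H) + 1) =
        64 * ((q j).eta * (q j).H) + 8 * (q j).eta + β * (Kb * (2 * (8 * (q j).H + 1))) := by ring
    rw [g7, add_mul, g6]
    linarith
  refine (Finset.sum_le_sum h1).trans ?_
  rw [Finset.sum_add_distrib, ← Finset.mul_sum, ← Finset.mul_sum, ← Finset.mul_sum]
  have h2 : (64 + 8 / H) * ∑ j ∈ s, (q j).w ≤ (64 + 8 / H) * ϑ :=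
    mul_le_mul_of_nonneg_left hw (by positivity)
  have h3 : ϑ * (65 + 8 / H) = (64 + 8 / H) * ϑ + ϑ := by ring
  linarith

/-- Plan: constants of `B`: `M'`, `R`, `Lb`, `Bk`, `M2`, `Cs`, `L1`, `Emax = exp (L1 (10 H + 1))`,
`Ex t = exp (L1 (Aint (5 H) t + 1))`, then `hi` from `ε`, `lo = hi / 2`, then `ϑ` small,
`ν = ϑ`, `ω = 4 ϑ`.  Given the towers choose `Kb`, `β` with `β Kb ∑ 2 (8 H j + 1) ≤ ϑ`,
`Th t = Emax (ρ0 (Aint (5 H) t + 1) + ∑ (8 eta j + 2 β Kb) (Aint (4 H j) t + 1))`,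
`r = min ϑ (β * min r j)`.  The list is the image of `Bool × (Fin n → Bool) × (Fin n → Bool)`
(`fam_congr`). -/
theorem family {B : Sys} (hB : B.Good) {ε : ℝ} (hε : 0 < ε) : ∃ ϑ lo hi : ℝ, 0 < ϑ ∧ ϑ ≤ 1 ∧
    100 * ϑ ≤ B.H ∧ lo < hi ∧ ∀ (A C L : Sys) (fa : A.E →L[ℝ] B.E) (fc : C.E →L[ℝ] B.E)
      (pa : L.E →L[ℝ] A.E) (pc : L.E →L[ℝ] C.E) (θ sa sc : ℝ) (m n : ℕ) (qa qc : ℕ → Par)
      (la : LD A.E) (lc : LD C.E), A.Good → C.Good → m < n →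
      Tower B 1 A fa m n qa la sa → Tower B θ C fc m n qc lc sc →
      (∀ j, m ≤ j → j < n → ∃ g : ℝ, 1 / 3 ≤ g ∧ g ≤ 3 ∧ qc j = (qa j).scale g) →
      |θ - 1| ≤ ϑ → sa ≤ ϑ → sc ≤ ϑ → ∑ j ∈ Finset.Ico m n, (qa j).w ≤ ϑ →
      (∀ z ∈ L.Om, pa z ∈ A.Om ∧ pc z ∈ C.Om ∧ L.V z ≤ A.V (pa z) + ϑ ∧ L.V z ≤ C.V (pc z) + ϑ ∧
        -1 ≤ L.V z) →
      pa L.one = A.one → pc L.one = C.one → 20 * A.H ≤ L.H →
      (∀ z ∈ L.Om, 3 * L.H ≤ L.V z → 3 * A.H ≤ A.V (pa z) ∧ 3 * C.H ≤ C.V (pc z)) →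
      ∃ (Fs : List (L.E → ℝ)) (r : ℝ), 0 < r ∧ 2 ≤ Fs.length ∧
        (∀ Φ ∈ Fs, ContDiff ℝ 2 Φ ∧ ∀ z ∈ L.Om, 3 * L.H ≤ L.V z → fderiv ℝ Φ z L.one = 0) ∧
        (∀ z ∈ L.Om, B.Dev θ (fa (pa z)) (fc (pc z)) ϑ → ∃ Φ ∈ Fs, Φ z + 2 * r ≤ lo) ∧
        (∀ z ∈ L.Om, ∀ Φ ∈ Fs, Φ z ≤ hi → B.Close ε (fa (pa z)) (fc (pc z))) ∧
        (∀ z ∈ L.Om, ∀ Φ ∈ Fs, 3 * A.H ≤ A.V (pa z) → 3 * C.H ≤ C.V (pc z) →
          ∀ (c : ℝ) (κ : L.E), pa κ = c • A.one → pc κ = c • C.one → L.V κ = -1 →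
            fderiv ℝ Φ z κ ≤ 0) ∧
        ∀ z ∈ L.Om, ∀ Φ ∈ Fs, Φ z ≤ hi → (∀ Φ' ∈ Fs, Φ z ≤ Φ' z + r) →
          (∀ u ∈ A.K (pa z), ∃ u' ∈ C.K (pc z), ∀ κ : L.E, pa κ = u → pc κ = u' → L.V κ = -1 →
            fderiv ℝ Φ z κ ≤ 0) ∧
          ∀ u' ∈ C.K (pc z), ∃ u ∈ A.K (pa z), ∀ κ : L.E, pa κ = u → pc κ = u' → L.V κ = -1 →
            fderiv ℝ Φ z κ ≤ 0 := by
  have hH := hB.H_pos
  obtain ⟨M', hM', hN⟩ := exists_smooth_norm B.E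
  obtain ⟨R0, hR0⟩ := hB.bdd (6 * B.H)
  obtain ⟨R, hR, hRb⟩ : ∃ R : ℝ, 0 ≤ R ∧ ∀ z ∈ B.Om, B.V z ≤ 6 * B.H → ‖z‖ ≤ R :=
    ⟨max R0 0, le_max_right _ _, fun z hz hV => (hR0 z hz hV).trans (le_max_left _ _)⟩
  obtain ⟨Lb, Bk, hLb, hBk, hBkb, hLbl⟩ := hB.ldi R
  obtain ⟨Cs, hCs1, hCs⟩ := exists_Cs
  obtain ⟨M2, hM2⟩ : ∃ M2 : ℝ, M2 = M' * (‖B.J‖ * Bk + 1) := ⟨_, rfl⟩
  have hM2n : 0 ≤ M2 := by rw [hM2]; positivity
  obtain ⟨L1, hL1⟩ : ∃ L1 : ℝ, L1 = 2 * Lb * (‖B.V‖ + ‖B.J‖) * (M2 + ‖B.one‖) := ⟨_, rfl⟩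
  have hL1n : 0 ≤ L1 := by rw [hL1]; positivity
  obtain ⟨Emax, hE⟩ : ∃ E : ℝ, E = Real.exp (L1 * (2 * (5 * B.H) + 1)) := ⟨_, rfl⟩
  have hEn : 0 ≤ Emax := by rw [hE]; positivity
  obtain ⟨K0, hK0⟩ : ∃ K0 : ℝ, K0 = 2 + 2 * Lb * (‖B.V‖ + ‖B.J‖) * (‖B.one‖ * (‖B.V‖ * R)) +
    68 * Cs / B.H := ⟨_, rfl⟩
  have hK0n : 0 ≤ K0 := by rw [hK0]; positivity
  obtain ⟨K1, hK1⟩ : ∃ K1 : ℝ, K1 = Emax * (M' + 57) +
    Emax * (K0 * (2 * (5 * B.H) + 1) + (65 + 8 / B.H)) + 2 := ⟨_, rfl⟩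
  have hK1n : 0 ≤ K1 := by rw [hK1]; positivity
  obtain ⟨x1, hx1, hx1'⟩ := famD_exists_small (half_pos hε)
    (add_nonneg hM2n (norm_nonneg B.one))
  obtain ⟨hi, hhi0, hhi1, hhi2⟩ : ∃ hi : ℝ, 0 < hi ∧ hi ≤ x1 ∧ 10 * hi ≤ B.H :=
    ⟨min x1 (B.H / 10), lt_min hx1 (by positivity), min_le_left _ _, by
      have := min_le_right x1 (B.H / 10)
      linarith⟩
  obtain ⟨x2, hx2, hx2'⟩ := famD_exists_small (half_pos hhi0) hK1n
  obtain ⟨x3, hx3, hx3'⟩ := famD_exists_small (K := (12 + ‖B.V‖ * R) * ‖B.one‖) (half_pos hε)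
    (by positivity)
  obtain ⟨ϑ, hϑ0, hϑ1, hϑ2, hϑ3, hϑ4⟩ : ∃ ϑ : ℝ, 0 < ϑ ∧ ϑ ≤ x2 ∧ ϑ ≤ x3 ∧ 100 * ϑ ≤ B.H ∧
      100 * ϑ ≤ 1 := by
    refine ⟨min (min x2 x3) (min (B.H / 100) (1 / 100)),
      lt_min (lt_min hx2 hx3) (lt_min (by positivity) (by norm_num)),
      (min_le_left _ _).trans (min_le_left _ _), (min_le_left _ _).trans (min_le_right _ _), ?_, ?_⟩
    · have := (min_le_right (min x2 x3) _).trans (min_le_left (B.H / 100) (1 / 100))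
      linarith
    · have := (min_le_right (min x2 x3) _).trans (min_le_right (B.H / 100) (1 / 100))
      linarith
  refine ⟨ϑ, hi / 2, hi, hϑ0, by linarith, hϑ3, by linarith, ?_⟩
  intro A C L fa fc pa pc θ sa sc m n qa qc la lc hA hC hmn tA tC hrel hθ hsa hsc hw hdom h1 h2
    hLH hfar
  obtain ⟨N, hN1, hN2, hN3, hN4⟩ := hN ϑ hϑ0
  obtain ⟨Ka, hKa, hKa'⟩ := tA.exists_Kb hA
  obtain ⟨Kc, hKc, hKc'⟩ := tC.exists_Kb hC
  have hind : ∀ (q : Par) (v : ℝ), 0 ≤ q.ind v := fun q v => by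
    unfold Par.ind
    split_ifs <;> norm_num
  have hg : ∀ j ∈ Finset.Ico m n, (qa j).Good := fun j hj =>
    tA.pgood j (Finset.mem_Ico.1 hj).1 (Finset.mem_Ico.1 hj).2
  have hl : ∀ j ∈ Finset.Ico m n, 60 * (1 * B.H) ≤ (qa j).H ∧ (qa j).H ≤ A.H := fun j hj =>
    tA.lev_H j (Finset.mem_Ico.1 hj).1 (Finset.mem_Ico.1 hj).2
  have hKb : 0 ≤ max Ka Kc := le_max_of_le_left hKa
  obtain ⟨x4, hx4, hx4'⟩ := famD_exists_small
    (K := max Ka Kc * ∑ j ∈ Finset.Ico m n, 2 * (8 * (qa j).H + 1)) hϑ0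
    (mul_nonneg hKb (Finset.sum_nonneg fun j hj => by have := (hg j hj).H_pos; positivity))
  obtain ⟨β, hβ0, hβ1, hβ2⟩ : ∃ β : ℝ, 0 < β ∧ β ≤ 1 ∧ β ≤ x4 :=
    ⟨min 1 x4, lt_min one_pos hx4, min_le_left _ _, min_le_right _ _⟩
  obtain ⟨r0, hr0, hr0'⟩ := famD_exists_r (Finset.Ico m n) la.r lc.r tA.r_pos tC.r_pos
  have h5H : 0 < 5 * B.H := by positivity
  have hNj : ∀ j ∈ Finset.Ico m n, 0 < 4 * (qa j).H := fun j hj => by
    have := (hg j hj).H_pos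
    positivity
  have haj : ∀ j ∈ Finset.Ico m n, 0 ≤ 8 * (qa j).eta + 2 * β * max Ka Kc := fun j hj => by
    have := (hg j hj).eta_pos
    positivity
  have hρ : 0 ≤ ϑ * K0 := mul_nonneg hϑ0.le hK0n
  let f : FD := ⟨B, A, C, L, fa, fc, pa, pc, θ, m, n, qa, qc, la, lc, N, M2, ϑ, 4 * ϑ, β,
    famDEx L1 (5 * B.H), famDTh Emax (ϑ * K0) (5 * B.H) (Finset.Ico m n)
      (fun j => 8 * (qa j).eta + 2 * β * max Ka Kc) (fun j => 4 * (qa j).H)⟩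
  have hder := famDTh_der_ge hEn hρ h5H hNj haj
  have H : f.Hyp ϑ sa sc M' R Lb Bk (max Ka Kc) Cs L1 (ϑ * K0) Emax hi (min ϑ (β * r0)) :=
    { goodB := hB, goodA := hA, goodC := hC, lt := hmn, towA := tA, towC := tC, rel := hrel
      ϑ_pos := hϑ0, ϑ_le := hϑ3, ϑ_le' := hϑ4, θ_near := hθ, sa_le := hsa, sc_le := hsc
      wsum := hw, ω_eq := rfl, ν_pos := hϑ0
      mapA := fun z hz => (hdom z hz).1
      mapC := fun z hz => (hdom z hz).2.1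
      domA := fun z hz => (hdom z hz).2.2.1
      domC := fun z hz => (hdom z hz).2.2.2.1
      V_ge := fun z hz => (hdom z hz).2.2.2.2
      N_smooth := hN1, N_ge := hN2, N_le := hN3, N_der := hN4, M'_ge := hM'
      R_bd := hRb, R_nonneg := hR, Lb_nonneg := hLb, Bk_nonneg := hBk, Bk_bd := hBkb
      Lb_lip := hLbl, M2_eq := hM2, Kb_nonneg := hKb
      KbA := fun z hz u hu j hj hj' b => (hKa' z hz u hu j hj hj' b).trans
        (mul_le_mul_of_nonneg_right (le_max_left _ _) (hind _ _))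
      KbC := fun z hz u hu j hj hj' b => (hKc' z hz u hu j hj hj' b).trans
        (mul_le_mul_of_nonneg_right (le_max_right _ _) (hind _ _))
      Cs_bd := hCs, β_pos := hβ0, β_le := hβ1
      L1_ge := hL1.ge
      ρ0_ge := by
        apply le_of_eq
        change 2 * ϑ + 2 * Lb * (‖B.V‖ + ‖B.J‖) * (‖B.one‖ * ϑ * (‖B.V‖ * R)) +
          4 * (4 * (4 * ϑ) + ϑ) * Cs / B.H = ϑ * K0
        rw [hK0]
        ring
      Ex_smooth := famDEx_smooth _ _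
      Th_smooth := famDTh_smooth _ _ _ _ _ _
      Ex_bd := fun t ht => hE ▸ famDEx_bd hL1n h5H ht
      Ex_der := fun t => by
        change 0 ≤ deriv (famDEx L1 (5 * B.H)) t ∧ (t ≤ 5 * B.H →
          L1 * famDEx L1 (5 * B.H) t ≤ deriv (famDEx L1 (5 * B.H)) t)
        rw [famDEx_deriv h5H]
        refine ⟨mul_nonneg (Real.exp_pos _).le (mul_nonneg hL1n (st_nonneg _)), fun ht => ?_⟩
        rw [famD_st_one h5H ht, mul_one, mul_comm]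
      Th_nonneg := fun t ht => famDTh_nonneg hEn hρ h5H hNj haj ht
      Th_der := hder
      hi_le := hhi2
      r_pos := lt_min hϑ0 (mul_pos hβ0 hr0)
      r_le := (min_le_left _ _).trans (by change ϑ ≤ 4 * ϑ; linarith)
      r_leA := fun j hj hj' => (min_le_right _ _).trans
        (mul_le_mul_of_nonneg_left (hr0' j (Finset.mem_Ico.2 ⟨hj, hj'⟩)).1 hβ0.le)
      r_leC := fun j hj hj' => (min_le_right _ _).trans
        (mul_le_mul_of_nonneg_left (hr0' j (Finset.mem_Ico.2 ⟨hj, hj'⟩)).2 hβ0.le) }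
  refine famD_final (f := f) H h1 h2 hfar ?_ ?_ ?_ ?_
  · intro t ht
    have ht' : 3 * L.H ≤ t := ht
    have hAH := hA.H_pos
    have hBA := tA.H_le
    have e1 : st (2 - t / (5 * B.H)) = 0 := famD_st_zero h5H (by linarith)
    refine ⟨?_, ?_⟩
    · change deriv (famDEx L1 (5 * B.H)) t = 0
      rw [famDEx_deriv h5H, e1]
      ring
    · refine (famDTh_deriv h5H hNj t).trans ?_
      rw [e1, Finset.sum_eq_zero fun j hj => ?_]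
      · ring
      · have := (hl j hj).2
        rw [famD_st_zero (hNj j hj) (by linarith), mul_zero]
  · intro t
    have g1 := famDTh_le hEn hρ h5H hNj haj t
    have g2 := famD_sum_le hH hg (fun j hj => (hl j hj).1) hw (hx4' β hβ0.le hβ2)
    have g3 := hx2' ϑ hϑ0.le hϑ1
    have g4 : min ϑ (β * r0) ≤ ϑ := min_le_left _ _
    have g5 := mul_le_mul_of_nonneg_left (add_le_add_right g2 (ϑ * K0 * (2 * (5 * B.H) + 1))) hEn
    have g6 : ϑ * K1 = Emax * ((M' + 1) * ϑ + 4 * ϑ + 13 * (4 * ϑ)) +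
        Emax * (ϑ * K0 * (2 * (5 * B.H) + 1) + ϑ * (65 + 8 / B.H)) + 2 * ϑ := by
      rw [hK1]
      ring
    have g7 := g1.trans g5
    change Emax * ((M' + 1) * ϑ + 4 * ϑ + 13 * (4 * ϑ)) + famDTh Emax (ϑ * K0) (5 * B.H)
      (Finset.Ico m n) (fun j => 8 * (qa j).eta + 2 * β * max Ka Kc) (fun j => 4 * (qa j).H) t +
      2 * min ϑ (β * r0) ≤ hi / 2
    linarith
  · have g1 := hx1' hi hhi0.le hhi1
    have g2 := hx3' ϑ hϑ0.le hϑ2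
    change M2 * hi + (hi + 3 * (4 * ϑ) + ϑ * (‖B.V‖ * R)) * ‖B.one‖ ≤ ε
    have g3 : M2 * hi + (hi + 3 * (4 * ϑ) + ϑ * (‖B.V‖ * R)) * ‖B.one‖ =
        hi * (M2 + ‖B.one‖) + ϑ * ((12 + ‖B.V‖ * R) * ‖B.one‖) := by ring
    linarith
  · intro t
    refine le_trans (mul_nonneg hEn (add_nonneg ?_ (Finset.sum_nonneg fun j hj => ?_))) (hder t)
    · split_ifs
      · exact hρ
      · exact le_rfl
    · split_ifs
      · exact haj j hj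
      · exact le_rfl

end Pool.Agent.MP703675
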