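import Pool.Agent.Lib.MP_703675_gt.SelD

set_option autoImplicit false

open Set Metric Filter Topology TopologicalSpace

noncomputable section

namespace Pool.Agent.MP703675

theorem merge_fderiv {E G : Type} [NormedAddCommGroup E] [NormedSpace ℝ E] [NormedAddCommGroup G]
    [NormedSpace ℝ G] {Φ : G → ℝ} (h : ContDiff ℝ 2 Φ) (π : E →L[ℝ] G) (z v : E) :
    fderiv ℝ (fun z => Φ (π z)) z v = fderiv ℝ Φ (π z) (π v) := by
  have h1 := ((h.differentiable two_ne_zero (π z)).hasFDerivAt.comp z π.hasFDerivAt).fderiv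
  have h2 : fderiv ℝ (fun z => Φ (π z)) z = (fderiv ℝ Φ (π z)).comp π := h1
  rw [h2]
  rfl

theorem merge_aux (k : ℕ) : ∀ {L : Sys} (_ : L.Good) (Φ1 Φ2 : L.E → ℝ) (rest : List (L.E → ℝ))
    (_ : rest.length = k)
    (_ : ∀ Φ ∈ Φ1 :: Φ2 :: rest, ContDiff ℝ 2 Φ ∧
      ∀ z ∈ L.Om, 3 * L.H ≤ L.V z → fderiv ℝ Φ z L.one = 0)
    {ρ : ℝ} (_ : 0 < ρ) (n : ℕ) {β : ℝ} (_ : 0 < β) (H0 : ℝ),
    ∃ (D : Sys) (π : D.E →L[ℝ] L.E) (n' : ℕ) (par : ℕ → Par) (ld : LD D.E) (Φ' : D.E → ℝ),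
      n < n' ∧ D.Good ∧ Tower L 1 D π n n' par ld β ∧ ∑ j ∈ Finset.Ico n n', (par j).w ≤ β ∧
      H0 ≤ (par n).H ∧ Growth par n n' ∧
      (∃ c, D.HasCtr c ∧ π c = 0 ∧ ∀ z, fderiv ℝ Φ' z c = 0) ∧ ContDiff ℝ 2 Φ' ∧
      (∀ z ∈ D.Om, (∃ Φ ∈ Φ1 :: Φ2 :: rest, Φ (π z) ≤ Φ' z) ∧
        ∀ Φ ∈ Φ1 :: Φ2 :: rest, Φ' z ≤ Φ (π z) + ρ) ∧
      ∀ z ∈ D.Om, ∃ Φ ∈ Φ1 :: Φ2 :: rest, Φ (π z) ≤ Φ' z + ρ ∧ RespAt L 1 D π n n' par ld z
        (fun _ u κ => ∀ μ : ℝ, 0 ≤ μ → fderiv ℝ Φ (π z) u ≤ μ → fderiv ℝ Φ' z κ ≤ μ + ρ) := by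
  induction k with
  | zero =>
    intro L hL Φ1 Φ2 rest hr hs ρ hρ n β hβ H0
    obtain rfl := List.length_eq_zero_iff.1 hr
    have a1 := hs Φ1 (by simp)
    have a2 := hs Φ2 (by simp)
    obtain ⟨D, π, q, ld, Φ', h1, h2, h3, h4, h5, h6, -, h8, h9⟩ :=
      selector hL a1.1 a2.1 a1.2 a2.2 hρ n hβ H0
    refine ⟨D, π, n + 1, fun _ => q, ld, Φ', by omega, h3, h4, by simpa using h1, h2,
      fun j _ _ => by omega, h5, h6, fun z hz => ⟨?_, ?_⟩, fun z hz => ?_⟩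
    · rcases min_le_iff.1 (h8 z hz).1 with h | h
      · exact ⟨Φ1, by simp, h⟩
      · exact ⟨Φ2, by simp, h⟩
    · intro Φ hΦ
      have b := (h8 z hz).2
      have b1 := min_le_left (Φ1 (π z)) (Φ2 (π z))
      have b2 := min_le_right (Φ1 (π z)) (Φ2 (π z))
      simp only [List.mem_cons, List.not_mem_nil, or_false] at hΦ
      rcases hΦ with rfl | rfl <;> linarith
    · obtain ⟨Φ, hΦ, b1, b2⟩ := h9 z hz
      exact ⟨Φ, by simpa using hΦ, b1, b2⟩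
  | succ k ih =>
    intro L hL Φ1 Φ2 rest hr hs ρ hρ n β hβ H0
    obtain ⟨Φ3, rest, rfl⟩ := List.exists_cons_of_length_eq_add_one hr
    have a1 := hs Φ1 (by simp)
    have a2 := hs Φ2 (by simp)
    have hβ1 : 0 < min (β / 2) L.H := lt_min (by linarith) hL.H_pos
    obtain ⟨D, π, q, ld, Φ', h1, h2, h3, h4, -, h6, h7, h8, h9⟩ :=
      selector hL a1.1 a2.1 a1.2 a2.2 (half_pos hρ) n hβ1 H0
    have hmem : ∀ Ψ ∈ Φ' :: (fun z => Φ3 (π z)) :: rest.map (fun Φ z => Φ (π z)),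
        Ψ = Φ' ∨ ∃ Φ ∈ Φ3 :: rest, Ψ = fun z => Φ (π z) := by
      intro Ψ hΨ
      simp only [List.mem_cons, List.mem_map] at hΨ
      rcases hΨ with h | h | ⟨Φ, h, rfl⟩
      · exact Or.inl h
      · exact Or.inr ⟨Φ3, by simp, h⟩
      · exact Or.inr ⟨Φ, by simp [h], rfl⟩
    have hsub : ∀ Φ ∈ Φ3 :: rest, Φ ∈ Φ1 :: Φ2 :: Φ3 :: rest := fun Φ h =>
      List.mem_cons_of_mem _ (List.mem_cons_of_mem _ h)
    obtain ⟨D2, π2, n', par2, ld2, Φ'', g1, g2, g3, g4, g5, g6, ⟨c, c1, c2, c3⟩, g8, g9, g10⟩ :=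
      ih h3 Φ' (fun z => Φ3 (π z)) (rest.map fun Φ z => Φ (π z)) (by simpa using hr) (by
        intro Ψ hΨ
        rcases hmem Ψ hΨ with rfl | ⟨Φ, hΦ, rfl⟩
        · exact ⟨h6, h7⟩
        · have b := hs Φ (hsub Φ hΦ)
          refine ⟨b.1.comp π.contDiff, fun z hz hV => ?_⟩
          rw [merge_fderiv b.1, h4.map_one, inv_one, one_smul]
          refine b.2 _ (h4.mapsTo z hz) ?_
          have b1 := h4.dom z hz
          have b2 := h4.lev_H n le_rfl (by omega)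
          have b3 := min_le_right (β / 2) L.H
          have b4 := hL.H_pos
          linarith [b2.1, b2.2]) (half_pos hρ) (n + 1) (half_pos hβ) (64 * q.H)
    let par : ℕ → Par := fun j => if j < n + 1 then q else par2 j
    have e1 : ∀ j, n ≤ j → j < n + 1 → par j = (fun _ => q) j := fun j _ hj => if_pos hj
    have e2 : ∀ j, n + 1 ≤ j → j < n' → par j = par2 j := fun j hj _ => if_neg (by omega)
    have t1 := h4.congr_par e1
    have t2 := g3.congr_par e2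
    have t3 := t2.comp t1
    have b0 := min_le_left (β / 2) L.H
    refine ⟨D2, π.comp π2, n', par, LD.comp (n + 1) ld2 ld π2, Φ'', by omega, g2,
      t3.slk_mono (by linarith), ?_, ?_, ?_, ⟨c, c1, by simp [c2], c3⟩, g8,
      fun z hz => ⟨?_, ?_⟩, fun z hz => ?_⟩
    · rw [Finset.sum_eq_sum_Ico_succ_bot (by omega : n < n'), e1 n le_rfl (by omega),
        Finset.sum_congr rfl fun j hj => congrArg Par.w
          (e2 j (Finset.mem_Ico.1 hj).1 (Finset.mem_Ico.1 hj).2)]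
      linarith
    · rw [e1 n le_rfl (by omega)]
      exact h2
    · intro j hj hj'
      rw [e2 (j + 1) (by omega) hj']
      rcases eq_or_lt_of_le hj with rfl | h
      · rw [e1 _ le_rfl (by omega)]
        exact g5
      · rw [e2 j h (by omega)]
        exact g6 j h hj'
    · obtain ⟨Ψ, hΨ, b⟩ := (g9 z hz).1
      rcases hmem Ψ hΨ with rfl | ⟨Φ, hΦ, rfl⟩
      · rcases min_le_iff.1 (h8 _ (g3.mapsTo z hz)).1 with h | h
        · exact ⟨Φ1, by simp, h.trans b⟩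
        · exact ⟨Φ2, by simp, h.trans b⟩
      · exact ⟨Φ, hsub Φ hΦ, b⟩
    · intro Φ hΦ
      have b := (h8 _ (g3.mapsTo z hz)).2
      have b1 := min_le_left (Φ1 (π (π2 z))) (Φ2 (π (π2 z)))
      have b2 := min_le_right (Φ1 (π (π2 z))) (Φ2 (π (π2 z)))
      have b3 := (g9 z hz).2 Φ' (by simp)
      change Φ'' z ≤ Φ (π (π2 z)) + ρ
      rcases List.mem_cons.1 hΦ with rfl | hΦ
      · linarith
      rcases List.mem_cons.1 hΦ with rfl | hΦ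
      · linarith
      have b4 : Φ'' z ≤ Φ (π (π2 z)) + ρ / 2 := (g9 z hz).2 (fun z => Φ (π z)) (by
        rcases List.mem_cons.1 hΦ with rfl | hΦ
        · simp
        · exact List.mem_cons_of_mem _ (List.mem_cons_of_mem _ (List.mem_map.2 ⟨Φ, hΦ, rfl⟩)))
      linarith
    · obtain ⟨Ψ, hΨ, b1, b2⟩ := g10 z hz
      have b3 := b2.congr_par e2
      have hz' := g3.mapsTo z hz
      rcases hmem Ψ hΨ with rfl | ⟨Φ, hΦ, rfl⟩
      · obtain ⟨Φ, hΦ, d1, d2⟩ := h9 _ hz'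
        refine ⟨Φ, by rcases hΦ with rfl | rfl <;> simp, ?_, ?_⟩
        · change Φ (π (π2 z)) ≤ _
          linarith
        · refine (b3.comp (d2.congr_par e1) (by omega) (by omega) t3.pgood t1.smooth).mono
            t3.le t3.pgood ?_
          rintro σ u κ - - - - - - ⟨σ1, σ2, κ1, -, -, -, -, p1, p2⟩ μ hμ hu
          have := p1 (μ + ρ / 2) (by linarith) (p2 μ hμ hu)
          linarith
      · refine ⟨Φ, hsub Φ hΦ, ?_, ?_⟩
        · change Φ (π (π2 z)) ≤ _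
          linarith
        · have d2 := (t1.resp _ hz').mono (P' := fun σ u κ => 0 ≤ σ ∧ σ ≤ 1 ∧ π κ = σ • u)
            t1.le t1.pgood fun σ u κ x1 x2 _ _ x5 _ _ => ⟨x1, x2, by simpa using x5⟩
          refine (b3.comp d2 (by omega) (by omega) t3.pgood t1.smooth).mono t3.le t3.pgood ?_
          rintro σ u κ - - - - - - ⟨σ1, σ2, κ1, -, -, -, -, p1, p2, p3, p4⟩ μ hμ hu
          have hu' : fderiv ℝ Φ (π (π2 z)) u ≤ μ := hu
          have := p1 μ hμ (by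
            rw [merge_fderiv (hs Φ (hsub Φ hΦ)).1, p4, map_smul, smul_eq_mul]
            exact (mul_le_mul_of_nonneg_left hu' p2).trans (mul_le_of_le_one_left hμ p3))
          linarith

/-- Plan: induction on the length, generalising everything.  Merge the first two members with
`selector` (budgets `ρ / 2`, `min (β / 2) L.H`), pull the others back, apply the induction
hypothesis with `H0 = 64 q.H` and compose (`Tower.comp`, `RespAt.comp`, `RespAt.mono`). -/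
theorem merge_all {L : Sys} (hL : L.Good) (Fs : List (L.E → ℝ)) (hlen : 2 ≤ Fs.length)
    (hs : ∀ Φ ∈ Fs, ContDiff ℝ 2 Φ ∧ ∀ z ∈ L.Om, 3 * L.H ≤ L.V z → fderiv ℝ Φ z L.one = 0)
    {ρ : ℝ} (hρ : 0 < ρ) (n : ℕ) {β : ℝ} (hβ : 0 < β) (H0 : ℝ) :
    ∃ (D : Sys) (π : D.E →L[ℝ] L.E) (n' : ℕ) (par : ℕ → Par) (ld : LD D.E) (Φ' : D.E → ℝ),
      n < n' ∧ D.Good ∧ Tower L 1 D π n n' par ld β ∧ ∑ j ∈ Finset.Ico n n', (par j).w ≤ β ∧
      H0 ≤ (par n).H ∧ Growth par n n' ∧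
      (∃ c, D.HasCtr c ∧ π c = 0 ∧ ∀ z, fderiv ℝ Φ' z c = 0) ∧ ContDiff ℝ 2 Φ' ∧
      (∀ z ∈ D.Om, (∃ Φ ∈ Fs, Φ (π z) ≤ Φ' z) ∧ ∀ Φ ∈ Fs, Φ' z ≤ Φ (π z) + ρ) ∧
      ∀ z ∈ D.Om, ∃ Φ ∈ Fs, Φ (π z) ≤ Φ' z + ρ ∧ RespAt L 1 D π n n' par ld z
        (fun _ u κ => ∀ μ : ℝ, 0 ≤ μ → fderiv ℝ Φ (π z) u ≤ μ → fderiv ℝ Φ' z κ ≤ μ + ρ) := by
  match Fs, hlen, hs with
  | Φ1 :: Φ2 :: rest, _, hs => exact merge_aux rest.length hL Φ1 Φ2 rest rfl hs hρ n hβ H0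

end Pool.Agent.MP703675
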