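import Pool.Agent.Lib.MP_703675_gt.TowerB

set_option autoImplicit false

open Set Metric Filter Topology TopologicalSpace

noncomputable section

namespace Pool.Agent.MP703675

section

variable {M : Sys} {U : M.E →L[ℝ] ℝ} {N : ℝ} {Φ : M.E → ℝ} {R l μ0 hi : ℝ}

/-- the linear form of the cut -/
def restrict_form (M : Sys) (U : M.E →L[ℝ] ℝ) (N : ℝ) (Φ : M.E → ℝ) (R l μ0 : ℝ) (z : M.E) :
    M.E →L[ℝ] ℝ :=
  cl01 (6 - U z / N) • (fderiv ℝ Φ z + (l * max (R - Φ z) 0) • M.V) + μ0 • M.V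

theorem restrict_eq (z : M.E) : restrK M U N Φ R l μ0 z = {κ | κ ∈ M.K z ∧
    restrict_form M U N Φ R l μ0 z κ ≤ 2 * μ0 * cl01 (2 * M.V z / M.H - 1)} := rfl

theorem restrict_adm {Z : ℝ → M.E} {a b : ℝ} (h : (restr M U N Φ R l μ0 hi).Adm Z a b) :
    M.Adm Z a b :=
  ⟨h.1, h.2.1.mono fun _ _ _ hκ => hκ.1, h.2.2⟩

theorem restrict_a0 (hN : 0 < N) {x : ℝ} (h : 6 * N ≤ x) : cl01 (6 - x / N) = 0 :=
  cl01_zero (by rw [sub_nonpos, le_div_iff₀ hN]; exact h)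

theorem restrict_a1 (hN : 0 < N) {x : ℝ} (h : x ≤ 5 * N) : cl01 (6 - x / N) = 1 :=
  cl01_one (by have := (div_le_iff₀ hN).2 h; linarith)

theorem restrict_g0 {H v : ℝ} (hH : 0 < H) (h : 2 * v ≤ H) : cl01 (2 * v / H - 1) = 0 :=
  cl01_zero (by rw [sub_nonpos, div_le_one hH]; exact h)

theorem restrict_g1 {H v : ℝ} (hH : 0 < H) (h : H ≤ v) : cl01 (2 * v / H - 1) = 1 :=
  cl01_one (by
    have : 2 ≤ 2 * v / H := (le_div_iff₀ hH).2 (by linarith)
    linarith)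

/-- burning velocities with a small derivative of the potential survive -/
theorem restrict_burn (hμ : 0 < μ0) {z κ : M.E} (hκ : κ ∈ M.K z) (hV : M.V κ = -1)
    (h : cl01 (6 - U z / N) * (fderiv ℝ Φ z κ - l * max (R - Φ z) 0) ≤ μ0) :
    κ ∈ restrK M U N Φ R l μ0 z := by
  refine ⟨hκ, ?_⟩
  have := mul_nonneg hμ.le (cl01_nonneg (2 * M.V z / M.H - 1))
  rw [hV, mul_neg_one, mul_neg_one, ← sub_eq_add_neg (fderiv ℝ Φ z κ)]
  linarith

/-- above `H` and off the active zone nothing is cut -/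
theorem restrict_high (hM : M.Good) (hN : 0 < N) (hμ : 0 < μ0) {z κ : M.E} (hκ : κ ∈ M.K z)
    (hU : 6 * N ≤ U z) (hV : M.H ≤ M.V z) : κ ∈ restrK M U N Φ R l μ0 z := by
  refine ⟨hκ, ?_⟩
  have := mul_le_mul_of_nonneg_left (abs_le.1 (hM.V_le z κ hκ)).2 hμ.le
  rw [restrict_a0 hN hU, restrict_g1 hM.H_pos hV]
  linarith

theorem restrict_ldi (hM : M.Good) {c : M.E} (hc : M.HasCtr c) (hΦ : ContDiff ℝ 2 Φ)
    (hΦc : ∀ z, fderiv ℝ Φ z c = 0) (hl : 0 ≤ l) (hμ : 0 < μ0) :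
    LDI (restrK M U N Φ R l μ0) := by
  have c1 : ∀ {f : M.E → ℝ}, ContDiff ℝ 1 f → LocallyLipschitz fun z => cl01 (f z) :=
    fun hf => cl01_lip.locallyLipschitz.comp hf.locallyLipschitz
  have h1 : LocallyLipschitz (restrict_form M U N Φ R l μ0) := by
    refine (locLip_smul (c1 (by fun_prop)) ((locLip_fderiv hΦ).add (locLip_smul
      (locLip_mul (LocallyLipschitz.const l) ?_) (LocallyLipschitz.const _)))).add
      (LocallyLipschitz.const _)
    exact ((contDiff_const.sub (hΦ.of_le (by norm_num))).locallyLipschitz).max_const 0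
  refine hM.ldi.cut hM.convex h1 (locLip_mul (LocallyLipschitz.const _) (c1 (by fun_prop))) hμ
    fun z => ?_
  rcases le_total (M.V z) M.H with h | h
  · refine ⟨c, hc.2 z h, ?_⟩
    have a1 := mul_nonneg hμ.le (cl01_nonneg (2 * M.V z / M.H - 1))
    have a2 := mul_nonneg (cl01_nonneg (6 - U z / N)) (mul_nonneg hl (le_max_right (R - Φ z) 0))
    change cl01 (6 - U z / N) * (fderiv ℝ Φ z c + l * max (R - Φ z) 0 * M.V c) + μ0 * M.V c ≤ _
    rw [hΦc, hc.1]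
    linarith
  · refine ⟨0, hM.zero_mem z, ?_⟩
    rw [map_zero, restrict_g1 hM.H_pos h]
    linarith

theorem restrict_inv (hM : M.Good) (hN : 0 < N) (hΦ : ContDiff ℝ 2 Φ)
    (dom : ∀ z ∈ M.Om, M.V z ≤ U z + 1) (hH : 12 * N + 2 ≤ M.H)
    (mono : ∀ z ∈ M.Om, U z ≤ 10 * N → ∀ κ ∈ M.K z, U κ ≤ 0) {lo : ℝ}
    (early : ∀ Z a b, M.Adm Z a b → ∀ s ∈ Icc a b, 9 / 2 * N ≤ U (Z s) → Φ (Z s) ≤ lo)
    (hμ : 0 < μ0) (hlo : lo ≤ R) (hw : R + μ0 * (5 * N + 1) < hi) {Z : ℝ → M.E} {a b : ℝ}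
    (hZ : (restr M U N Φ R l μ0 hi).Adm Z a b) {s : ℝ} (hs : s ∈ Icc a b) :
    6 * N < U (Z s) ∨ Φ (Z s) < hi := by
  have hZ' := restrict_adm hZ
  have hO := hM.inv Z a b hZ'
  have hp : 0 ≤ μ0 * (5 * N + 1) := by positivity
  rcases lt_or_ge (6 * N) (U (Z s)) with h6 | -
  · exact Or.inl h6
  right
  rcases le_or_gt (9 / 2 * N) (U (Z s)) with h9 | h9
  · linarith [early Z a b hZ' s hs h9]
  have ha : 5 * N ≤ U (Z a) := by
    obtain ⟨T, hT, -, e⟩ := hZ'.2.2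
    have := dom _ (hO a ⟨le_rfl, hZ'.1⟩)
    rw [e, hM.V_far] at this
    rw [e]
    linarith
  obtain ⟨t0, ht0, e0⟩ := intermediate_value_Icc' hs.1
    (U.continuous.comp_continuousOn ((hM.adm_continuousOn hZ').mono (Icc_subset_Icc_right hs.2)))
    (show 5 * N ∈ Icc (U (Z s)) (U (Z a)) from ⟨by linarith, ha⟩)
  have e0' : U (Z t0) = 5 * N := e0
  have sub : ∀ t ∈ Icc t0 s, t ∈ Icc a b := fun t ht => ⟨ht0.1.trans ht.1, ht.2.trans hs.2⟩
  have h5 : ∀ t ∈ Icc t0 s, U (Z t) ≤ 5 * N :=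
    (hZ'.2.1.restrict ht0.1 hs.2).barrier_win hM.bddK U.differentiable (ε := 5 * N)
      (by positivity) (fun t ht _ h2 κ hκ => by
        rw [U.fderiv]
        exact mono _ (hO t (sub t (Ico_subset_Icc_self ht))) (by linarith) κ hκ) e0'.le
  have hV : ∀ t ∈ Icc t0 s, M.V (Z t) ≤ 5 * N + 1 := fun t ht => by
    linarith [dom _ (hO t (sub t ht)), h5 t ht]
  have hd : Differentiable ℝ Φ := hΦ.differentiable (by norm_num)
  have hb : BddK (restrK M U N Φ R l μ0) := fun r =>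
    (hM.bddK r).imp fun B hB z hz κ hκ => hB z hz κ hκ.1
  have key := (hZ.2.1.restrict ht0.1 hs.2).barrier hb (Φ := fun z => Φ z + μ0 * M.V z)
    (hd.add (M.V.differentiable.const_mul μ0)) (c := R + μ0 * (5 * N + 1))
    (fun t ht h1 κ hκ => by
      have ht' := Ico_subset_Icc_self ht
      have h2 := mul_le_mul_of_nonneg_left (hV t ht') hμ.le
      have h3 := hκ.2
      rw [restrict_a1 hN (h5 t ht'), restrict_g0 hM.H_pos (by linarith [hV t ht']),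
        max_eq_right (by linarith)] at h3
      rw [((hd (Z t)).hasFDerivAt.fun_add (M.V.hasFDerivAt.const_mul μ0)).fderiv]
      change fderiv ℝ Φ (Z t) κ + μ0 * M.V κ ≤ 0
      linarith)
    (by
      have h2 := mul_le_mul_of_nonneg_left (hV t0 ⟨le_rfl, ht0.2⟩) hμ.le
      linarith [early Z a b hZ' t0 (sub t0 ⟨le_rfl, ht0.2⟩) (by linarith)]) s ⟨ht0.2, le_rfl⟩
  have h0 : 0 ≤ μ0 * M.V (Z s) :=
    mul_nonneg hμ.le ((sub_nonneg.2 hs.2).trans (hM.adm_V_ge hZ' hs))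
  linarith

theorem restrict_good (hM : M.Good) {c : M.E} (hc : M.HasCtr c) (hN : 0 < N) (hΦ : ContDiff ℝ 2 Φ)
    (hΦc : ∀ z, fderiv ℝ Φ z c = 0) (dom : ∀ z ∈ M.Om, M.V z ≤ U z + 1) (hH : 12 * N + 2 ≤ M.H)
    (mono : ∀ z ∈ M.Om, U z ≤ 10 * N → ∀ κ ∈ M.K z, U κ ≤ 0) {lo : ℝ}
    (early : ∀ Z a b, M.Adm Z a b → ∀ s ∈ Icc a b, 9 / 2 * N ≤ U (Z s) → Φ (Z s) ≤ lo)
    (hl : 0 ≤ l) (hμ : 0 < μ0) (hlo : lo ≤ R) (hw : R + μ0 * (5 * N + 1) < hi) :
    (restr M U N Φ R l μ0 hi).Good where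
  H_pos := hM.H_pos
  V_one := hM.V_one
  V_z0 := hM.V_z0
  convex z := (hM.convex z).inter
    (convex_halfSpace_le (restrict_form M U N Φ R l μ0 z).toLinearMap.isLinear _)
  compact z := (hM.compact z).inter_right
    (isClosed_le (restrict_form M U N Φ R l μ0 z).continuous continuous_const)
  zero_mem z := ⟨hM.zero_mem z, (map_zero (restrict_form M U N Φ R l μ0 z)).trans_le
    (mul_nonneg (by positivity) (cl01_nonneg _))⟩
  ldi := restrict_ldi hM hc hΦ hΦc hl hμ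
  V_le z κ hκ := hM.V_le z κ hκ.1
  irr z hz hV κ hκ := by
    obtain ⟨h1, κ', h2, h3⟩ := hM.irr z hz.1 hV κ hκ.1
    refine ⟨h1, ?_⟩
    rcases h1.eq_or_lt with h | h
    · refine ⟨0, ⟨hM.zero_mem z, (map_zero (restrict_form M U N Φ R l μ0 z)).trans_le
        (mul_nonneg (by positivity) (cl01_nonneg _))⟩, ?_⟩
      rw [h3, smul_zero, h, neg_zero, zero_smul]
    refine ⟨κ', ?_, h3⟩
    rcases le_total (2 * M.V z) M.H with h4 | h4
    · have h5 : restrict_form M U N Φ R l μ0 z κ ≤ _ := hκ.2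
      rw [restrict_g0 hM.H_pos h4, mul_zero, h3, map_smul, smul_eq_mul] at h5
      refine ⟨h2, le_trans (?_ : restrict_form M U N Φ R l μ0 z κ' ≤ 0)
        (mul_nonneg (by positivity) (cl01_nonneg _))⟩
      exact le_of_mul_le_mul_left (h5.trans_eq (mul_zero _).symm) (neg_pos.2 h)
    · have h5 : M.V κ = -M.V κ * M.V κ' := by
        conv_lhs => rw [h3, map_smul, smul_eq_mul]
      refine restrict_burn hμ h2 (mul_left_cancel₀ (neg_pos.2 h).ne' (by linarith)) ?_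
      rw [restrict_a0 hN (by linarith [dom z hz.1]), zero_mul]
      exact hμ.le
  isOpen := hM.isOpen.inter ((isOpen_lt continuous_const U.continuous).union
    (isOpen_lt hΦ.continuous continuous_const))
  bdd r := (hM.bdd r).imp fun _ h z hz => h z hz.1
  farLaw z hz hV κ := by
    have h1 : 3 * M.H ≤ M.V z := hV
    have h2 := hM.H_pos
    exact Iff.trans ⟨fun h => h.1, fun h => restrict_high hM hN hμ h
      (by linarith [dom z hz.1]) (by linarith)⟩ (hM.farLaw z hz.1 hV κ)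
  inv Z a b hZ s hs := ⟨hM.inv Z a b (restrict_adm hZ) s hs,
    restrict_inv hM hN hΦ dom hH mono early hμ hlo hw hZ hs⟩

/-- a tower survives when every response can be chosen in the cut set -/
theorem restrict_tower {B : Sys} {θ slk : ℝ} {π : M.E →L[ℝ] B.E} {m n : ℕ} {par : ℕ → Par}
    {ld : LD M.E} (h : Tower B θ M π m n par ld slk)
    (hr : ∀ z ∈ (restr M U N Φ R l μ0 hi).Om,
      RespAt B θ M π m n par ld z (fun _ _ κ => κ ∈ restrK M U N Φ R l μ0 z)) :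
    Tower B θ (restr M U N Φ R l μ0 hi) π m n par ld slk :=
  { h with
    mapsTo := fun z hz => h.mapsTo z hz.1
    D_bd := fun z hz => h.D_bd z hz.1
    T_bd := fun z hz => h.T_bd z hz.1
    dom := fun z hz => h.dom z hz.1
    dom1 := fun z hz => h.dom1 z hz.1
    dom2 := fun z hz => h.dom2 z hz.1
    vel := fun z hz κ hκ => h.vel z hz.1 κ hκ.1
    quiet := fun z hz j h1 h2 h3 κ hκ => h.quiet z hz.1 j h1 h2 h3 κ hκ.1
    lead := fun z hz κ hκ => h.lead z hz.1 κ hκ.1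
    resp := fun z hz b hb s δ hp u hu => by
      obtain ⟨κ, -, h1, h2, h3, h4⟩ := hr z hz b hb s δ hp u hu
      exact ⟨κ, h4, h1, h2, h3, trivial⟩ }

end

/-- Plan: `l` is chosen with `l * (hi - lo) / 2` above the bound of `fderiv Φ` on velocities over
`Om` with `V ≤ 6 N + 1`.  `LDI.cut` with the point `c` (if `V z ≤ H`) or `0`, margin `μ0`.
Invariance: after a time with `U = 5 N` use `barrier` for `Φ + μ0 V` with threshold
`(lo + hi) / 2 + μ0 (5 N + 1)`. -/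
theorem restrict_thm {M : Sys} (hM : M.Good) {c : M.E} (hc : M.HasCtr c) (U : M.E →L[ℝ] ℝ)
    {N : ℝ} (hN : 0 < N) {Φ : M.E → ℝ} (hΦ : ContDiff ℝ 2 Φ) (hΦc : ∀ z, fderiv ℝ Φ z c = 0)
    (dom : ∀ z ∈ M.Om, M.V z ≤ U z + 1) (hH : 12 * N + 2 ≤ M.H)
    (mono : ∀ z ∈ M.Om, U z ≤ 10 * N → ∀ κ ∈ M.K z, U κ ≤ 0) {lo hi μ μ0 : ℝ}
    (early : ∀ Z a b, M.Adm Z a b → ∀ s ∈ Icc a b, 9 / 2 * N ≤ U (Z s) → Φ (Z s) ≤ lo)
    (hμ : 0 ≤ μ) (hμ0 : μ ≤ μ0) (hμ0' : 0 < μ0) (hw : μ0 * (5 * N + 1) < (hi - lo) / 2) :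
    ∃ l : ℝ, (restr M U N Φ ((lo + hi) / 2) l μ0 hi).Good ∧
      (restr M U N Φ ((lo + hi) / 2) l μ0 hi).HasCtr c ∧
      (∀ Z a b, (restr M U N Φ ((lo + hi) / 2) l μ0 hi).Adm Z a b → M.Adm Z a b) ∧
      ∀ (B : Sys) (θ slk : ℝ) (π : M.E →L[ℝ] B.E) (m n : ℕ) (par : ℕ → Par) (ld : LD M.E),
        Tower B θ M π m n par ld slk →
        (∀ z ∈ M.Om, U z ≤ 6 * N → lo ≤ Φ z → Φ z ≤ hi →
          RespAt B θ M π m n par ld z (fun _ _ κ => fderiv ℝ Φ z κ ≤ μ)) →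
        Tower B θ (restr M U N Φ ((lo + hi) / 2) l μ0 hi) π m n par ld slk := by
  obtain ⟨r, hr⟩ := hM.bdd (6 * N + 1)
  obtain ⟨C, hC, hb⟩ := fderiv_bound hM.bddK (hΦ.of_le (by norm_num)) r
  have hp : 0 < (hi - lo) / 2 := lt_trans (by positivity) hw
  have hl : 0 ≤ C / ((hi - lo) / 2) := by positivity
  have hlm : ∀ z, 0 ≤ C / ((hi - lo) / 2) * max ((lo + hi) / 2 - Φ z) 0 :=
    fun z => mul_nonneg hl (le_max_right _ _)
  refine ⟨C / ((hi - lo) / 2), restrict_good hM hc hN hΦ hΦc dom hH mono early hl hμ0'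
    (by linarith) (by linarith), ⟨hc.1, fun z hz => restrict_burn hμ0' (hc.2 z hz) hc.1 ?_⟩,
    fun Z a b => restrict_adm, fun B θ slk π m n par ld h hresp =>
      restrict_tower h fun z hz => ?_⟩
  · rw [hΦc]
    exact (mul_nonpos_of_nonneg_of_nonpos (cl01_nonneg _) (by linarith [hlm z])).trans hμ0'.le
  rcases le_or_gt (U z) (6 * N) with h6 | h6
  · have hV := dom z hz.1
    have hhi : Φ z < hi := hz.2.resolve_left (not_lt.2 h6)
    rcases le_or_gt lo (Φ z) with h7 | h7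
    · refine (hresp z hz.1 h6 h7 hhi.le).mono h.le h.pgood fun σ u κ _ _ _ hκ _ h8 h9 =>
        restrict_burn hμ0' hκ (h8 (by linarith)) ?_
      calc _ ≤ cl01 (6 - U z / N) * μ :=
            mul_le_mul_of_nonneg_left (by linarith [hlm z]) (cl01_nonneg _)
        _ ≤ μ0 := (mul_le_of_le_one_left hμ (cl01_le_one _)).trans hμ0
    · refine (h.resp z hz.1).mono h.le h.pgood fun σ u κ _ _ _ hκ _ h8 _ =>
        restrict_burn hμ0' hκ (h8 (by linarith))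
          ((mul_nonpos_of_nonneg_of_nonpos (cl01_nonneg _) ?_).trans hμ0'.le)
      have a1 := (abs_le.1 (hb z (hr z hz.1 (by linarith)) κ hκ)).2
      have a2 := mul_le_mul_of_nonneg_left
        (le_max_of_le_left (c := 0) (by linarith : (hi - lo) / 2 ≤ (lo + hi) / 2 - Φ z)) hl
      rw [div_mul_cancel₀ _ hp.ne'] at a2
      linarith
  · refine (h.resp z hz.1).mono h.le h.pgood fun σ u κ _ _ _ hκ _ h8 _ => ?_
    rcases le_total (M.V z) M.H with h9 | h9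
    · refine restrict_burn hμ0' hκ (h8 h9) ?_
      rw [restrict_a0 hN h6.le, zero_mul]
      exact hμ0'.le
    · exact restrict_high hM hN hμ0' hκ h6.le h9

end Pool.Agent.MP703675
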