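import Pool.Agent.Lib.MP_703675_gt.ProdC
import Pool.Agent.Lib.MP_703675_gt.ProdD
import Pool.Agent.Lib.MP_703675_gt.ProdE
import Pool.Agent.Lib.MP_703675_gt.Chain
import Pool.Agent.Lib.MP_703675_gt.FamD
import Pool.Agent.Lib.MP_703675_gt.Merge
import Pool.Agent.Lib.MP_703675_gt.Restrict

set_option autoImplicit false

open Set Metric Filter Topology TopologicalSpace

noncomputable section

namespace Pool.Agent.MP703675

/-- the deviation as a linear map -/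
def onGam (B : Sys) (θ : ℝ) : B.E × B.E →L[ℝ] B.E × ℝ :=
  (B.J.comp (ContinuousLinearMap.fst ℝ B.E B.E) - B.J.comp (ContinuousLinearMap.snd ℝ B.E B.E)).prod
    (θ • B.V.comp (ContinuousLinearMap.snd ℝ B.E B.E) - B.V.comp (ContinuousLinearMap.fst ℝ B.E B.E))

theorem onGam_apply (B : Sys) (θ : ℝ) (x y : B.E) :
    onGam B θ (x, y) = (B.J x - B.J y, θ * B.V y - B.V x) := by
  simp [onGam]

theorem onGam_dev (B : Sys) (θ : ℝ) (x y : B.E) (d : ℝ) :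
    B.Dev θ x y d ↔ ‖onGam B θ (x, y)‖ ≤ d := by
  rw [onGam_apply, Prod.norm_mk, max_le_iff, Real.norm_eq_abs]
  rfl

theorem onGam_le (B : Sys) {θ : ℝ} (h0 : 0 ≤ θ) (h2 : θ ≤ 2) (x y : B.E) :
    ‖onGam B θ (x, y)‖ ≤ (‖B.J‖ + 2 * ‖B.V‖) * (‖x‖ + ‖y‖) := by
  rw [onGam_apply, Prod.norm_mk, max_le_iff, Real.norm_eq_abs]
  have a1 := B.J.le_opNorm x
  have a2 := B.J.le_opNorm y
  have a3 : |B.V x| ≤ ‖B.V‖ * ‖x‖ := B.V.le_opNorm x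
  have a4 : |B.V y| ≤ ‖B.V‖ * ‖y‖ := B.V.le_opNorm y
  have b1 : 0 ≤ ‖B.J‖ * ‖x‖ := by positivity
  have b2 : 0 ≤ ‖B.J‖ * ‖y‖ := by positivity
  have b3 : 0 ≤ ‖B.V‖ * ‖x‖ := by positivity
  have b4 : 0 ≤ ‖B.V‖ * ‖y‖ := by positivity
  constructor
  · have a5 := norm_sub_le (B.J x) (B.J y)
    nlinarith
  · have a5 : |θ * B.V y - B.V x| ≤ |θ * B.V y| + |B.V x| := abs_sub _ _
    have a6 : |θ * B.V y| ≤ 2 * |B.V y| := by
      rw [abs_mul, abs_of_nonneg h0]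
      exact mul_le_mul_of_nonneg_right h2 (abs_nonneg _)
    nlinarith

theorem onGam_move (B : Sys) {θ : ℝ} (h0 : 0 ≤ θ) (h2 : θ ≤ 2) (x y y' : B.E) :
    ‖onGam B θ (x, y')‖ ≤ ‖onGam B θ (x, y)‖ + (‖B.J‖ + 2 * ‖B.V‖) * ‖y' - y‖ := by
  have e : onGam B θ (x, y') = onGam B θ (x, y) + onGam B θ (0, y' - y) := by
    rw [← map_add]
    simp
  have h := onGam_le B h0 h2 0 (y' - y)
  rw [norm_zero, zero_add] at h
  rw [e]
  exact (norm_add_le _ _).trans (by linarith)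

theorem onGam_far {B : Sys} (hB : B.Good) (θ u v : ℝ) :
    ‖onGam B θ (B.far u, B.far v)‖ = |θ * v - u| := by
  rw [onGam_apply, hB.J_far, hB.J_far, hB.V_far, hB.V_far, sub_self, Prod.norm_mk, norm_zero,
    Real.norm_eq_abs]
  exact max_eq_right (abs_nonneg _)

/-- responses of the product system that do not increase a nearly minimal potential -/
theorem on_resp {d : PD} {Tm Qc η Emax M' ν Bq : ℝ} (hyp : d.Hyp Tm Qc η Emax M' ν Bq)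
    {z : d.sys.E} (hz : z ∈ d.sys.Om) (hV : d.sys.V z ≤ d.H) {Φ : d.sys.E → ℝ}
    (mirror : 3 * d.A.H ≤ d.A.V (d.pa z) → 3 * d.C.H ≤ d.C.V (d.pc z) →
      ∀ (c : ℝ) (κ : d.sys.E), d.pa κ = c • d.A.one → d.pc κ = c • d.C.one → d.sys.V κ = -1 →
        fderiv ℝ Φ z κ ≤ 0)
    (ha : ∀ u ∈ d.A.K (d.pa z), ∃ u' ∈ d.C.K (d.pc z), ∀ κ : d.sys.E, d.pa κ = u → d.pc κ = u' →
      d.sys.V κ = -1 → fderiv ℝ Φ z κ ≤ 0)
    (hc : ∀ u' ∈ d.C.K (d.pc z), ∃ u ∈ d.A.K (d.pa z), ∀ κ : d.sys.E, d.pa κ = u → d.pc κ = u' →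
      d.sys.V κ = -1 → fderiv ℝ Φ z κ ≤ 0)
    (nl : ∀ q : d.S.E, ‖d.pS (d.pc z) - q‖ < 4 * d.w → d.Gd (d.pa z, q) < 4 * d.w → False)
    (n : ℕ) (par : ℕ → Par) :
    RespAt d.A 1 d.sys d.pa n n par (LD.triv _) z (fun _ _ κ => fderiv ℝ Φ z κ ≤ 0) ∧
      RespAt d.C 1 d.sys d.pc n n par (LD.triv _) z (fun _ _ κ => fderiv ℝ Φ z κ ≤ 0) := by
  have hA : d.pa z ∈ d.A.Om := hz.1
  have hC : d.pc z ∈ d.C.Om := hz.2.1
  rcases le_total (d.H / 5) (d.sys.V z) with ht | ht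
  · obtain ⟨f1, f2⟩ := prod_far hyp hz ht
    constructor
    · intro b _ s δ hp u hu
      obtain ⟨c, hc1, rfl⟩ := (hyp.goodA.farLaw _ hA f1 u).mp hu
      obtain ⟨κ, hκ, e1, e2, e3⟩ := prod_mirror hyp hz ht hc1
      refine ⟨κ, hκ, ?_, e3, fun j h1 h2 => absurd h1 (not_le.mpr h2),
        mirror f1 f2 c κ e1 e2 (e3 hV)⟩
      rw [hp.1, div_one, one_smul, e1]
    · intro b _ s δ hp u hu
      obtain ⟨c, hc1, rfl⟩ := (hyp.goodC.farLaw _ hC f2 u).mp hu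
      obtain ⟨κ, hκ, e1, e2, e3⟩ := prod_mirror hyp hz ht hc1
      refine ⟨κ, hκ, ?_, e3, fun j h1 h2 => absurd h1 (not_le.mpr h2),
        mirror f1 f2 c κ e1 e2 (e3 hV)⟩
      rw [hp.1, div_one, one_smul, e2]
  · rcases prod_free_or_locked hyp hz ht with hf | ⟨q, -, q1, q2⟩
    · constructor
      · intro b _ s δ hp u hu
        obtain ⟨u', hu', h⟩ := ha u hu
        obtain ⟨κ, hκ, e1, e2, e3⟩ := hf u hu u' hu'
        refine ⟨κ, hκ, ?_, fun _ => e3, fun j h1 h2 => absurd h1 (not_le.mpr h2), h κ e1 e2 e3⟩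
        rw [hp.1, div_one, one_smul, e1]
      · intro b _ s δ hp u' hu'
        obtain ⟨u, hu, h⟩ := hc u' hu'
        obtain ⟨κ, hκ, e1, e2, e3⟩ := hf u hu u' hu'
        refine ⟨κ, hκ, ?_, fun _ => e3, fun j h1 h2 => absurd h1 (not_le.mpr h2), h κ e1 e2 e3⟩
        rw [hp.1, div_one, one_smul, e2]
    · exact (nl q q1 q2).elim

/-- merge the family over the product system and restrict -/
theorem on_restrict {d : PD} {Tm Qc η Emax M' ν Bq : ℝ} (hyp : d.Hyp Tm Qc η Emax M' ν Bq)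
    (Fs : List (d.sys.E → ℝ)) {r lo hi : ℝ} (hr : 0 < r) (hlo : lo < hi) (hlen : 2 ≤ Fs.length)
    (hs : ∀ Φ ∈ Fs, ContDiff ℝ 2 Φ ∧ ∀ z ∈ d.sys.Om, 3 * d.sys.H ≤ d.sys.V z →
      fderiv ℝ Φ z d.sys.one = 0)
    (early : ∀ z ∈ d.sys.Om, ∀ v, d.pa z = d.A.far v → d.pc z = d.C.far v →
      ∃ Φ ∈ Fs, Φ z + 2 * r ≤ lo)
    (locked : ∀ z ∈ d.sys.Om, ∀ q : d.S.E, ‖d.pS (d.pc z) - q‖ < 4 * d.w →
      d.Gd (d.pa z, q) < 4 * d.w → ∃ Φ ∈ Fs, Φ z + 2 * r ≤ lo)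
    (mirror : ∀ z ∈ d.sys.Om, ∀ Φ ∈ Fs, 3 * d.A.H ≤ d.A.V (d.pa z) → 3 * d.C.H ≤ d.C.V (d.pc z) →
      ∀ (c : ℝ) (κ : d.sys.E), d.pa κ = c • d.A.one → d.pc κ = c • d.C.one → d.sys.V κ = -1 →
        fderiv ℝ Φ z κ ≤ 0)
    (resp : ∀ z ∈ d.sys.Om, ∀ Φ ∈ Fs, Φ z ≤ hi → (∀ Φ' ∈ Fs, Φ z ≤ Φ' z + r) →
      (∀ u ∈ d.A.K (d.pa z), ∃ u' ∈ d.C.K (d.pc z), ∀ κ : d.sys.E, d.pa κ = u → d.pc κ = u' →
        d.sys.V κ = -1 → fderiv ℝ Φ z κ ≤ 0) ∧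
      ∀ u' ∈ d.C.K (d.pc z), ∃ u ∈ d.A.K (d.pa z), ∀ κ : d.sys.E, d.pa κ = u → d.pc κ = u' →
        d.sys.V κ = -1 → fderiv ℝ Φ z κ ≤ 0)
    (n : ℕ) {β : ℝ} (hβ : 0 < β) (hβ1 : β ≤ 1) (H0 : ℝ) :
    ∃ (D : Sys) (π : D.E →L[ℝ] d.sys.E) (n' : ℕ) (par : ℕ → Par), n < n' ∧ D.Good ∧
      (∃ c, D.HasCtr c ∧ π c = 0) ∧ ∑ j ∈ Finset.Ico n n', (par j).w ≤ β ∧ H0 ≤ (par n).H ∧
      Growth par n n' ∧ (∃ ld, Tower d.A 1 D (d.pa.comp π) n n' par ld (β + d.slk)) ∧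
      (∃ ld, Tower d.C 1 D (d.pc.comp π) n n' par ld (β + d.slk)) ∧
      (∀ Z a b, D.Adm Z a b → d.sys.Adm (fun s => π (Z s)) a b ∧
        ∀ s ∈ Icc a b, D.V (Z s) ≤ d.sys.V (π (Z s))) ∧
      ∀ z ∈ D.Om, π z ∈ d.sys.Om ∧ (d.H / 5 ≤ d.sys.V (π z) ∨ ∃ Φ ∈ Fs, Φ (π z) ≤ hi) := by
  have hL : d.sys.Good := prod_good hyp
  have hH10 : 10 ≤ d.H := by
    have h1 := hyp.H_ge
    have h2 := hyp.goodA.H_pos
    have h3 := hyp.goodC.H_pos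
    have h4 := hyp.Tm_nonneg
    linarith
  obtain ⟨N, hN⟩ : ∃ N : ℝ, N = d.H / 10 := ⟨_, rfl⟩
  have hNpos : 0 < N := by linarith
  obtain ⟨ρ, hρ, hρr, hρw⟩ : ∃ ρ : ℝ, 0 < ρ ∧ 2 * ρ ≤ r ∧ ρ * (5 * N + 1) ≤ (hi - lo) / 8 := by
    refine ⟨min (r / 2) ((hi - lo) / 8 / (5 * N + 1)), lt_min (by linarith) ?_, ?_, ?_⟩
    · have : 0 < hi - lo := by linarith
      positivity
    · have := min_le_left (r / 2) ((hi - lo) / 8 / (5 * N + 1))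
      linarith
    · exact (le_div_iff₀ (by linarith)).mp (min_le_right _ _)
  have hρN : 0 ≤ ρ * N := by positivity
  obtain ⟨M, π, n', par, ld, Φ', hlt, hM, hT, hws, hH0, hG, ⟨c, hc, hc0, hcΦ⟩, hΦ', hcmp, hrs⟩ :=
    merge_all hL Fs hlen hs hρ n hβ H0
  have hmor : Mor d.sys 1 M π := hT.mor hL hM
  have hU : ∀ z, (d.sys.V.comp π) z = d.sys.V (π z) := fun _ => rfl
  obtain ⟨l, hD, hDc, hDadm, hDtow⟩ := restrict_thm hM hc (d.sys.V.comp π) hNpos hΦ' hcΦ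
    (lo := lo) (hi := hi - ρ) (μ := ρ) (μ0 := ρ)
    (fun z hz => by
      have h1 := hT.dom z hz
      rw [hU]
      linarith)
    (by
      have h1 := hT.lev_H n le_rfl hlt
      have h2 : d.sys.H = d.H := rfl
      linarith [h1.1, h1.2])
    (fun z hz hV κ hκ => by
      have h1 := hT.proj_mem hL hz hκ
      rw [one_smul] at h1
      rw [hU] at hV ⊢
      exact (hL.irr _ (hT.mapsTo z hz) (by change _ ≤ d.H; linarith) _ h1).1)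
    (fun Z a b hZ s hs hV => by
      have hY := hmor.adm_one hZ
      rw [hU] at hV
      obtain ⟨v, -, e1, e2⟩ := prod_early hyp hY hs
        (by change 4 / 10 * d.H ≤ d.sys.V (π (Z s)); linarith)
      obtain ⟨Φ, hΦ, h1⟩ := early _ (hL.inv _ _ _ hY s hs) v e1 e2
      have h2 := (hcmp _ (hM.inv _ _ _ hZ s hs)).2 Φ hΦ
      linarith)
    hρ.le le_rfl hρ (by linarith)
  have key : ∀ z ∈ M.Om, (d.sys.V.comp π) z ≤ 6 * N → lo ≤ Φ' z → Φ' z ≤ hi - ρ →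
      RespAt d.A 1 M (d.pa.comp π) n n' par (LD.comp n ld (LD.triv _) π) z
        (fun _ _ κ => fderiv ℝ Φ' z κ ≤ ρ) ∧
      RespAt d.C 1 M (d.pc.comp π) n n' par (LD.comp n ld (LD.triv _) π) z
        (fun _ _ κ => fderiv ℝ Φ' z κ ≤ ρ) := by
    intro z hz hV h1 h2
    rw [hU] at hV
    have hz' := hT.mapsTo z hz
    obtain ⟨Φ, hΦ, h3, h4⟩ := hrs z hz
    obtain ⟨ra, rc⟩ := resp _ hz' Φ hΦ (by linarith) (fun Φ0 h0 => by
      have h5 := (hcmp z hz).2 Φ0 h0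
      linarith)
    obtain ⟨RA, RC⟩ := on_resp hyp hz' (by linarith) (mirror _ hz' Φ hΦ) ra rc
      (fun q q1 q2 => by
        obtain ⟨Φ0, h0, h5⟩ := locked _ hz' q q1 q2
        have h6 := (hcmp z hz).2 Φ0 h0
        linarith) n par
    constructor
    · refine (h4.comp RA le_rfl hlt.le hT.pgood (fun _ _ => contDiff_const)).mono hlt.le hT.pgood ?_
      rintro σ u κ - - - - - - ⟨σ1, σ2, κ1, -, -, -, -, p1, p2⟩
      have h5 := p1 0 le_rfl p2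
      linarith
    · refine (h4.comp RC le_rfl hlt.le hT.pgood (fun _ _ => contDiff_const)).mono hlt.le hT.pgood ?_
      rintro σ u κ - - - - - - ⟨σ1, σ2, κ1, -, -, -, -, p1, p2⟩
      have h5 := p1 0 le_rfl p2
      linarith
  refine ⟨restr M (d.sys.V.comp π) N Φ' ((lo + (hi - ρ)) / 2) l ρ (hi - ρ), π, n', par, hlt, hD,
    ⟨c, hDc, hc0⟩, hws, hH0, hG,
    ⟨_, hDtow _ _ _ _ _ _ _ _ (hT.comp (prod_towerA hyp n par))
      (fun z hz h1 h2 h3 => (key z hz h1 h2 h3).1)⟩,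
    ⟨_, hDtow _ _ _ _ _ _ _ _ (hT.comp (prod_towerC hyp n par))
      (fun z hz h1 h2 h3 => (key z hz h1 h2 h3).2)⟩, ?_, ?_⟩
  · intro Z a b hZ
    have hZ' := hDadm Z a b hZ
    refine ⟨hmor.adm_one hZ', fun s hs => ?_⟩
    have h1 := hmor.dom hL hM hZ' hs
    rw [one_mul] at h1
    exact h1
  · rintro z ⟨hz, h1 | h1⟩
    · refine ⟨hT.mapsTo z hz, Or.inl ?_⟩
      rw [hU] at h1
      linarith
    · obtain ⟨Φ, hΦ, h2⟩ := (hcmp z hz).1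
      exact ⟨hT.mapsTo z hz, Or.inr ⟨Φ, hΦ, by linarith⟩⟩

/-- both base states are high when both component states are far -/
theorem on_high {B A : Sys} (hB : B.Good) {f : A.E →L[ℝ] B.E} {θ s : ℝ} {m n : ℕ} {par : ℕ → Par}
    {ld : LD A.E} (h : Tower B θ A f m n par ld s) (hθ : 1 / 2 ≤ θ) (hs : 2 * s ≤ B.H) {z : A.E}
    (hz : z ∈ A.Om) (hV : 3 * A.H ≤ A.V z) : 2 * B.H ≤ B.V (f z) := by
  have h1 := h.dom z hz
  have h2 := h.H_le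
  have h3 := hB.H_pos
  have h4 : 1 / 2 * B.H ≤ θ * B.H := mul_le_mul_of_nonneg_right hθ h3.le
  have h5 : θ * (2 * B.H) ≤ θ * B.V (f z) := by linarith
  exact le_of_mul_le_mul_left h5 h.pos

theorem on_sum_c {k n : ℕ} {par : ℕ → Par} (hpg : ∀ j, k ≤ j → j < n → (par j).Good) :
    ∑ j ∈ Finset.Ico k n, (par j).c ≤ ∑ j ∈ Finset.Ico k n, (par j).w := by
  refine Finset.sum_le_sum fun j hj => ?_
  obtain ⟨h1, h2⟩ := Finset.mem_Ico.mp hj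
  have h3 := (hpg j h1 h2).c_le_w
  have h4 := (hpg j h1 h2).cap_pos
  linarith

/-- the final assembly over a product system -/
theorem on_assemble {d : PD} {Tm Qc η Emax M' ν Bq : ℝ} (hyp : d.Hyp Tm Qc η Emax M' ν Bq)
    {k n : ℕ} {par : ℕ → Par} {ld : LD d.C.E} {sC sW β β1 H0 Bs ε' : ℝ}
    (hT3 : Tower (d.S.scale d.γ) 1 d.C d.pS k n par ld sC) (hcw : sC ≤ sW)
    (hβ : β1 + d.slk ≤ β) (hg : ∀ t, ‖d.g t‖ ≤ Bs) (hw : d.w ≤ ε') (hδ : Bs * d.δ ≤ ε' / 2)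
    {D : Sys} {π : D.E →L[ℝ] d.sys.E} {n' : ℕ} {par1 : ℕ → Par} (hlt : n < n') (hD : D.Good)
    (hc : ∃ c, D.HasCtr c ∧ π c = 0) (hws : ∑ j ∈ Finset.Ico n n', (par1 j).w ≤ β1)
    (hH0 : H0 ≤ (par1 n).H) (hG : Growth par1 n n')
    (hA : ∃ ld, Tower d.A 1 D (d.pa.comp π) n n' par1 ld (β1 + d.slk))
    (hC : ∃ ld, Tower d.C 1 D (d.pc.comp π) n n' par1 ld (β1 + d.slk))
    (hadm : ∀ Z a b, D.Adm Z a b → d.sys.Adm (fun s => π (Z s)) a b ∧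
      ∀ s ∈ Icc a b, D.V (Z s) ≤ d.sys.V (π (Z s))) :
    ∃ par' : ℕ → Par, (∀ j, j < n → par' j = par j) ∧ Block d.A n β H0 D (d.pa.comp π) n' par' ∧
      (∃ ld, Tower d.S d.γ D (d.pS.comp (d.pc.comp π)) k n' par' ld (sW + β)) ∧
      ∀ Z a b, D.Adm Z a b → (∀ s ∈ Icc a b, d.A.V (d.pa (π (Z s))) - D.V (Z s) ≤ d.δ) →
        (∀ s ∈ Icc a b, ∀ q, ‖q - d.ζ (D.V (Z s))‖ ≤ Bs * d.δ → d.Gd (d.pa (π (Z s)), q) ≤ d.w) →
        ∀ s ∈ Icc a b, ‖d.pS (d.pc (π (Z s))) - d.ζ (D.V (Z s))‖ ≤ ε' := by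
  have hlow : ∀ j, j < n → (if j < n then par j else par1 j) = par j := fun j hj => if_pos hj
  have hup : ∀ j, n ≤ j → j < n' → (if j < n then par j else par1 j) = par1 j :=
    fun j hj _ => if_neg (not_lt.mpr hj)
  obtain ⟨c, hc, hc0⟩ := hc
  obtain ⟨la, hA⟩ := hA
  obtain ⟨lc, hC⟩ := hC
  have hslk := hyp.slk_pos
  have hB : Block d.A n β H0 D (d.pa.comp π) n' par1 :=
    ⟨hlt, hD, ⟨c, hc, by rw [ContinuousLinearMap.comp_apply, hc0, map_zero]⟩,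
      ⟨la, hA.slk_mono hβ⟩, by linarith, hH0, hG⟩
  refine ⟨fun j => if j < n then par j else par1 j, hlow, hB.congr_par hup, ?_, ?_⟩
  · have h4 := ((hC.congr_par hup).comp (hT3.congr_par fun j _ hj => hlow j hj)).unscale hyp.γ_pos
    rw [one_mul] at h4
    exact ⟨_, h4.slk_mono (by linarith)⟩
  · intro Z a b hZ hgap hdev
    obtain ⟨hY, hdom⟩ := hadm Z a b hZ
    have hBs : 0 ≤ Bs := (norm_nonneg _).trans (hg 0)
    have hclose : ∀ s ∈ Icc a b, ‖d.ζ (π (Z s)).2.1.1 - d.ζ (D.V (Z s))‖ ≤ Bs * d.δ := by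
      intro s hs
      have hle : (π (Z s)).2.1.1 ≤ d.A.V (π (Z s)).1.1 := (prod_basic hyp hY s hs).2.2.1
      have h1 : D.V (Z s) ≤ (π (Z s)).2.1.1 := hdom s hs
      have h2 : d.A.V (π (Z s)).1.1 - D.V (Z s) ≤ d.δ := hgap s hs
      refine (hyp.tgt.zeta_lip hg _ _).trans (mul_le_mul_of_nonneg_left ?_ hBs)
      rw [abs_of_nonneg (by linarith)]
      linarith
    intro s hs
    have hlock := prod_lock hyp hY (fun s hs => hdev s hs _ (hclose s hs))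
      (fun s hs => by
        have h1 : D.V (Z s) ≤ (π (Z s)).2.1.1 := hdom s hs
        have h2 : d.A.V (π (Z s)).1.1 - D.V (Z s) ≤ d.δ := hgap s hs
        linarith) s hs
    have h5 := hclose s hs
    have htri := norm_sub_le_norm_sub_add_norm_sub (d.pS (π (Z s)).1.2)
      (d.ζ (π (Z s)).2.1.1) (d.ζ (D.V (Z s)))
    change ‖d.pS (π (Z s)).1.2 - d.ζ (D.V (Z s))‖ ≤ ε'
    linarith

theorem coupling_on {B : Sys} (hB : B.Good) {ε : ℝ} (hε : 0 < ε) : ∃ ϑ : ℝ, 0 < ϑ ∧ ϑ ≤ 1 ∧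
    ∀ (S : Sys) (ε' : ℝ), S.Good → 0 < ε' → ∃ ϑ' : ℝ, 0 < ϑ' ∧
    ∀ (γ γ' Tm Qc η : ℝ) (φ : S.E →L[ℝ] B.E) (ζ g : ℝ → S.E), 1 / 3 ≤ γ → γ ≤ 3 →
      |γ * γ' - 1| ≤ ϑ → η ≤ ϑ' → Target S γ Tm Qc η ζ g →
      ∃ δ : ℝ, 0 < δ ∧ ∀ (A : Sys) (pr : A.E →L[ℝ] B.E) (m k n : ℕ) (par : ℕ → Par)
        (ld1 : LD S.E) (ld2 : LD A.E) (s1 s2 : ℝ), A.Good → k < n →
        Tower B γ' S φ m k par ld1 s1 → Tower B 1 A pr m n par ld2 s2 → s1 ≤ ϑ → s2 ≤ ϑ →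
        ∑ j ∈ Finset.Ico m n, (par j).w ≤ ϑ → ∑ j ∈ Finset.Ico k n, (par j).w ≤ ϑ' →
        200 * S.H ≤ (par k).H → Growth par k n → ∀ β H0 : ℝ, 0 < β →
        ∃ (D : Sys) (π : D.E →L[ℝ] A.E) (ψ : D.E →L[ℝ] S.E) (n' : ℕ) (par' : ℕ → Par),
          (∀ j, j < n → par' j = par j) ∧ Block A n β H0 D π n' par' ∧
          (∃ ld, Tower S γ D ψ k n' par' ld (∑ j ∈ Finset.Ico k n, (par j).w + β)) ∧
          (∀ Z a b, D.Adm Z a b → ∀ s ∈ Icc a b, B.Close ε (pr (π (Z s))) (φ (ψ (Z s)))) ∧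
          ∀ Z a b, D.Adm Z a b → (∀ s ∈ Icc a b, A.V (π (Z s)) - D.V (Z s) ≤ δ) →
            (∀ s ∈ Icc a b, B.Dev (γ * γ') (pr (π (Z s))) (φ (ζ (D.V (Z s)))) ϑ) →
            ∀ s ∈ Icc a b, ‖ψ (Z s) - ζ (D.V (Z s))‖ ≤ ε' := by
  obtain ⟨ϑF, lo, hi, hF0, hF1, hFH, hlo, hfam⟩ := family hB hε
  obtain ⟨MF, hMF, hNF⟩ := exists_smooth_norm (B.E × ℝ)
  obtain ⟨NF, hNs, hNge, hNle, hNd⟩ := hNF (ϑF / 8) (by linarith)
  obtain ⟨BB, hBB, hspeed⟩ := hB.speed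
  obtain ⟨CB, hCB⟩ : ∃ CB : ℝ, CB = ‖B.J‖ + 2 * ‖B.V‖ := ⟨_, rfl⟩
  have hCB0 : 0 ≤ CB := by rw [hCB]; positivity
  obtain ⟨ϑ, hϑ, hϑM⟩ : ∃ ϑ : ℝ, 0 < ϑ ∧ MF * ϑ = ϑF / 4 :=
    ⟨ϑF / 4 / MF, by positivity, by field_simp⟩
  have hϑF : ϑ ≤ ϑF / 4 := by nlinarith
  refine ⟨ϑ, hϑ, by linarith, fun S ε' hS hε' => ?_⟩
  obtain ⟨w0, hw0, hdata⟩ := prod_data hS
  obtain ⟨w, hw, hww0, hwε, hwF⟩ : ∃ w : ℝ, 0 < w ∧ w ≤ w0 ∧ w ≤ ε' ∧ w * (1 + CB) ≤ ϑF / 32 := by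
    refine ⟨min (min w0 ε') (ϑF / 32 / (1 + CB)), lt_min (lt_min hw0 hε') (by positivity),
      (min_le_left _ _).trans (min_le_left _ _), (min_le_left _ _).trans (min_le_right _ _), ?_⟩
    exact (le_div_iff₀ (by linarith)).mp (min_le_right _ _)
  obtain ⟨ϑ', Bs, hϑ', -, hBs, hdata⟩ := hdata w hw hww0
  refine ⟨ϑ', hϑ', ?_⟩
  intro γ γ' Tm Qc η φ ζ g hγ1 hγ2 hθ hη htgt
  obtain ⟨hg, hdata⟩ := hdata γ Tm Qc η ζ g hγ1 hγ2 hη htgt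
  obtain ⟨δ0, hδ0, hdata⟩ := hdata (MF * (CB * (BB + Bs)))
  obtain ⟨δ, hδ, hδ1, hδ2, hδ3, hδ4⟩ : ∃ δ : ℝ, 0 < δ ∧ δ ≤ δ0 ∧ δ ≤ ϑ ∧ CB * (Bs * δ) ≤ ϑ ∧
      Bs * δ ≤ ε' / 2 := by
    refine ⟨min (min δ0 ϑ) (min (ϑ / ((CB + 1) * Bs)) (ε' / 2 / Bs)),
      lt_min (lt_min hδ0 hϑ) (lt_min (by positivity) (by positivity)),
      (min_le_left _ _).trans (min_le_left _ _), (min_le_left _ _).trans (min_le_right _ _), ?_, ?_⟩
    · have h1 := (le_div_iff₀ (by positivity : 0 < (CB + 1) * Bs)).mp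
        ((min_le_right (min δ0 ϑ) _).trans (min_le_left (ϑ / ((CB + 1) * Bs)) (ε' / 2 / Bs)))
      have h2 : 0 < min (min δ0 ϑ) (min (ϑ / ((CB + 1) * Bs)) (ε' / 2 / Bs)) :=
        lt_min (lt_min hδ0 hϑ) (lt_min (by positivity) (by positivity))
      nlinarith [mul_pos hBs h2]
    · have h1 := (le_div_iff₀ hBs).mp
        ((min_le_right (min δ0 ϑ) _).trans (min_le_right (ϑ / ((CB + 1) * Bs)) (ε' / 2 / Bs)))
      linarith
  refine ⟨δ, hδ, ?_⟩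
  intro A pr m k n par ld1 ld2 s1 s2 hA hkn hT1 hT2 hs1 hs2 hsum hsum' hH hG β H0 hβ
  have hγ : 0 < γ := by linarith
  have hγ' : 0 < γ' := hT1.pos
  obtain ⟨hθ1, hθ2⟩ := abs_le.mp hθ
  have hθ0 : 0 ≤ γ * γ' := by positivity
  have hθ3 : γ * γ' ≤ 2 := by linarith
  have hmk : m ≤ k := hT1.le
  have hSγ : (S.scale γ).Good := hS.scale hγ
  have hH' : 64 * (S.scale γ).H ≤ (par k).H := by
    have h1 : γ * S.H ≤ 3 * S.H := mul_le_mul_of_nonneg_right hγ2 hS.H_pos.le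
    have h2 := hS.H_pos
    change 64 * (γ * S.H) ≤ (par k).H
    linarith
  have hpg : ∀ j, k ≤ j → j < n → (par j).Good := fun j h1 h2 => hT2.pgood j (hmk.trans h1) h2
  obtain ⟨C, pS, ld, hC, hT3, hpure, -, -⟩ := pure_chain hSγ hkn hpg hH' hG
  have hcw := on_sum_c hpg
  have hsub : ∑ j ∈ Finset.Ico k n, (par j).w ≤ ∑ j ∈ Finset.Ico m n, (par j).w :=
    Finset.sum_le_sum_of_subset_of_nonneg (Finset.Ico_subset_Ico hmk le_rfl) fun j hj _ =>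
      (hT2.pgood j (Finset.mem_Ico.mp hj).1 (Finset.mem_Ico.mp hj).2).w_pos.le
  obtain ⟨Λ, hΛ⟩ : ∃ Λ : A.E × S.E →L[ℝ] B.E × ℝ, ∀ a q, Λ (a, q) = onGam B (γ * γ') (pr a, φ q) :=
    ⟨(onGam B (γ * γ')).comp (pr.prodMap φ), fun _ _ => rfl⟩
  obtain ⟨Gd, hGd⟩ : ∃ Gd : A.E × S.E → ℝ, Gd = fun x => NF (Λ x) - (2 * (MF * ϑ) + ϑF / 8) :=
    ⟨_, rfl⟩
  have hGle : ∀ a q, ‖onGam B (γ * γ') (pr a, φ q)‖ ≤ 2 * ϑ → Gd (a, q) ≤ w := by
    intro a q h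
    have h1 := hNle (Λ (a, q))
    have h2 : MF * ‖Λ (a, q)‖ ≤ MF * (2 * ϑ) :=
      mul_le_mul_of_nonneg_left (by rw [hΛ]; exact h) (by linarith)
    rw [hGd]
    change NF (Λ (a, q)) - _ ≤ w
    linarith
  obtain ⟨slk, hslk, hslk1, hslk2, hslk3⟩ : ∃ slk : ℝ, 0 < slk ∧ slk ≤ ϑ' ∧ slk ≤ β / 2 ∧
      slk ≤ ϑF := ⟨min ϑ' (min (β / 2) ϑF), lt_min hϑ' (lt_min (by linarith) hF0), min_le_left _ _,
        (min_le_right _ _).trans (min_le_left _ _), (min_le_right _ _).trans (min_le_right _ _)⟩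
  obtain ⟨N, Ds, Ex, Th, H, Kw, M, om, μ, Emax, M', ν, Bq, -, hyp⟩ :=
    hdata δ hδ hδ1 A C pS k n par ld (∑ j ∈ Finset.Ico k n, (par j).c) Gd 0 slk hA hC hT3 hpure
      hsum' (hcw.trans hsum')
      (by rw [hGd]; exact (hNs.comp Λ.contDiff).sub contDiff_const)
      (by
        intro a ha u hu q t
        have h1 : HasFDerivAt Gd ((fderiv ℝ NF (Λ (a, q))).comp Λ) (a, q) := by
          rw [hGd]
          exact (((hNs.differentiable (by norm_num)) _).hasFDerivAt.comp (a, q)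
            Λ.hasFDerivAt).sub_const _
        rw [h1.fderiv, ContinuousLinearMap.comp_apply]
        refine (le_abs_self _).trans ((hNd _ _).trans
          (mul_le_mul_of_nonneg_left ?_ (by linarith)))
        have h2 := hT2.proj_mem hB ha hu
        rw [one_smul] at h2
        have h3 := hspeed _ (hT2.mapsTo a ha) _ h2
        have h4 := (hT1.norm_le (g t)).trans (hg t)
        rw [hΛ]
        refine (onGam_le B hθ0 hθ3 _ _).trans ?_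
        rw [← hCB]
        exact mul_le_mul_of_nonneg_left (by linarith) hCB0)
      (by
        intro v t _ h2 h3
        refine hGle _ _ ?_
        rw [hT2.map_far, hT1.map_far, onGam_far hB]
        have e : γ * γ' * (t / γ / γ') - v / 1 = t - v := by field_simp
        rw [e, abs_of_nonpos (by linarith)]
        linarith)
      hslk hslk1
  obtain ⟨d, hd⟩ : ∃ d : PD,
      d = ⟨A, C, S, pS, γ, ζ, g, Gd, N, Ds, Ex, Th, H, δ, Kw, M, om, μ, w, slk⟩ := ⟨_, rfl⟩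
  have hTC : Tower B (γ * γ') C (φ.comp pS) m n
      (fun j => if j < k then (par j).scale γ else par j) _
      (∑ j ∈ Finset.Ico k n, (par j).c + γ * s1) :=
    (hT3.congr_par fun j hj _ => if_neg (not_lt.mpr hj)).comp
      ((hT1.scale_top hγ).congr_par fun j _ hj => if_pos hj)
  have hsc : ∑ j ∈ Finset.Ico k n, (par j).c + γ * s1 ≤ ϑF := by
    have h1 : γ * s1 ≤ 3 * ϑ := mul_le_mul hγ2 hs1 hT1.slk_nonneg (by norm_num)
    linarith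
  subst hd
  obtain ⟨Fs, r, hr, hlen, hsm, hdev, hcl, hmir, hresp⟩ := hfam A C
    (PD.sys ⟨A, C, S, pS, γ, ζ, g, Gd, N, Ds, Ex, Th, H, δ, Kw, M, om, μ, w, slk⟩) pr (φ.comp pS)
    (PD.pa _) (PD.pc _) (γ * γ') s2 _ m n par _ ld2 _ hA hC (lt_of_le_of_lt hmk hkn) hT2 hTC
    (fun j _ _ => by
      by_cases hj : j < k
      · exact ⟨γ, hγ1, hγ2, if_pos hj⟩
      · exact ⟨1, by norm_num, by norm_num, (if_neg hj).trans (Par.scale_one _).symm⟩)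
    (hθ.trans (by linarith)) (by linarith) hsc (by linarith)
    (fun z hz => ⟨hz.1, hz.2.1, hz.2.2.1.le.trans (add_le_add le_rfl hslk3),
      hz.2.2.2.1.le.trans (add_le_add le_rfl hslk3), hz.2.2.2.2.2.2.1.le⟩)
    rfl rfl
    (by
      have h1 : 20 * (A.H + C.H) + 10 + 5 * Tm ≤ H := hyp.H_ge
      have h2 := hC.H_pos
      have h3 := hyp.Tm_nonneg
      change 20 * A.H ≤ H
      linarith)
    (fun z hz hV => prod_far hyp hz (le_trans (by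
      have h1 : 0 < H := (prod_good hyp).H_pos
      change H / 5 ≤ 3 * H
      linarith) hV))
  obtain ⟨D, π, n', par1, hlt, hD, hc, hws, hH0, hG1, hTA, hTC1, hadm, hOm⟩ :=
    on_restrict hyp Fs hr hlo hlen hsm
      (fun z hz v e1 e2 => hdev z hz (by
        rw [onGam_dev, e1, e2, hT2.map_far, hTC.map_far, onGam_far hB]
        have e : γ * γ' * (v / (γ * γ')) - v / 1 = 0 := by field_simp; ring
        rw [e, abs_zero]
        exact hF0.le))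
      (fun z hz q q1 q2 => hdev z hz (by
        rw [onGam_dev]
        refine (onGam_move B hθ0 hθ3 _ (φ q) _).trans ?_
        rw [← hΛ, ← hCB, ContinuousLinearMap.comp_apply, ← map_sub]
        have h1 := hNge (Λ (PD.pa _ z, q))
        have h2 := mul_le_mul_of_nonneg_left ((hT1.norm_le _).trans q1.le) hCB0
        have h3 : NF (Λ (PD.pa _ z, q)) - (2 * (MF * ϑ) + ϑF / 8) < 4 * w := by
          rw [hGd] at q2
          exact q2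
        have h4 : CB * (4 * w) + 4 * w ≤ ϑF / 8 := by linarith
        exact le_trans (add_le_add h1 h2) (by linarith)))
      hmir hresp n (β := min (β / 2) 1) (lt_min (by linarith) one_pos) (min_le_right _ _) H0
  obtain ⟨par', hp1, hp2, hp3, hp4⟩ := on_assemble hyp hT3 hcw (β := β)
    (by
      have h1 := min_le_left (β / 2) 1
      change min (β / 2) 1 + slk ≤ β
      linarith) hg hwε hδ4 hlt hD hc hws hH0 hG1 hTA hTC1 hadm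
  refine ⟨D, _, _, n', par', hp1, hp2, hp3, ?_, ?_⟩
  · intro Z a b hZ s hs
    obtain ⟨hz, h1 | ⟨Φ, hΦ, h1⟩⟩ := hOm _ (hD.inv Z a b hZ s hs)
    · obtain ⟨f1, f2⟩ := prod_far hyp hz h1
      exact Or.inl ⟨on_high hB hT2 (by norm_num) (by linarith) hz.1 f1,
        on_high hB hTC (by linarith) (by linarith) hz.2.1 f2⟩
    · exact hcl _ hz Φ hΦ h1
  · intro Z a b hZ hgap hdv
    refine hp4 Z a b hZ hgap fun s hs q hq => hGle _ _ ?_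
    refine (onGam_move B hθ0 hθ3 _ (φ (ζ (D.V (Z s)))) _).trans ?_
    have h1 := (onGam_dev _ _ _ _ _).mp (hdv s hs)
    have h2 := mul_le_mul_of_nonneg_left ((hT1.norm_le _).trans hq) hCB0
    rw [← hCB, ← map_sub]
    exact le_trans (add_le_add h1 h2) (by linarith)

end Pool.Agent.MP703675
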