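import Mathlib

/-! Definitions for the construction of a smooth dendroid with three orbits. -/

set_option autoImplicit false

open Set Metric Filter Topology TopologicalSpace

noncomputable section

namespace Pool.Agent.MP703675

/-! ### Real toolkit -/

/-- smooth step, `0` on `x ≤ 0`, `1` on `1 ≤ x` -/
def st (x : ℝ) : ℝ := Real.smoothTransition x

/-- smooth ramp, a primitive of `st` -/
def rmp (x : ℝ) : ℝ := ∫ t in (0 : ℝ)..x, st t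

/-- bounded clock function: slope `1` below `N`, constant `2 N` above `2 N` -/
def Aint (N t : ℝ) : ℝ := N * (2 - rmp (2 - t / N))

/-- clamp to the unit interval -/
def cl01 (x : ℝ) : ℝ := max 0 (min 1 x)

/-- slowly varying logarithmic ramp -/
def lr (p l x : ℝ) : ℝ := min 1 (p * Real.log (1 + max x 0 / l))

/-- plateau: `1` on `|x| ≤ u`, `0` on `v ≤ |x|` -/
def pl (u v x : ℝ) : ℝ := st ((v - x) / (v - u)) * st ((v + x) / (v - u))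

/-- ramp with slope `0` below `c` and slope `1` above `2 c` -/
def psi (c h : ℝ) : ℝ := c * rmp (h / c - 1)

/-- logistic function -/
def lg (x : ℝ) : ℝ := 1 / (1 + Real.exp (-x))

/-! ### Inclusions and trajectories -/

/-- set valued map that is bounded and Lipschitz on every ball -/
def LDI {E G : Type} [NormedAddCommGroup E] [NormedAddCommGroup G] (F : E → Set G) : Prop :=
  ∀ R : ℝ, ∃ L B : ℝ, 0 ≤ L ∧ 0 ≤ B ∧ (∀ z : E, ‖z‖ ≤ R → ∀ κ ∈ F z, ‖κ‖ ≤ B) ∧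
    ∀ z z' : E, ‖z‖ ≤ R → ‖z'‖ ≤ R → ∀ κ ∈ F z, ∃ κ' ∈ F z', ‖κ - κ'‖ ≤ L * ‖z - z'‖

/-- set valued map bounded on every ball -/
def BddK {E G : Type} [NormedAddCommGroup E] [NormedAddCommGroup G] (F : E → Set G) : Prop :=
  ∀ R : ℝ, ∃ B : ℝ, ∀ z : E, ‖z‖ ≤ R → ∀ κ ∈ F z, ‖κ‖ ≤ B

/-- trajectory with explicit one step error constant -/
def IsTrajC {E : Type} [NormedAddCommGroup E] [NormedSpace ℝ E] (K : E → Set E) (C : ℝ)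
    (Z : ℝ → E) (a b : ℝ) : Prop :=
  ∀ s t : ℝ, a ≤ s → s ≤ t → t ≤ b →
    ∃ κ ∈ K (Z s), ‖Z t - Z s - (t - s) • κ‖ ≤ C * (t - s) ^ 2

/-- trajectory of the inclusion `K` on `[a, b]` -/
def IsTraj {E : Type} [NormedAddCommGroup E] [NormedSpace ℝ E] (K : E → Set E)
    (Z : ℝ → E) (a b : ℝ) : Prop :=
  ∃ C : ℝ, IsTrajC K C Z a b

/-- control system -/
structure Sys : Type 1 where
  E : Type
  [ng : NormedAddCommGroup E]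
  [ns : NormedSpace ℝ E]
  [fd : FiniteDimensional ℝ E]
  K : E → Set E
  V : E →L[ℝ] ℝ
  one : E
  z0 : E
  H : ℝ
  Om : Set E

attribute [instance] Sys.ng Sys.ns Sys.fd

namespace Sys

/-- the far ray -/
def far (S : Sys) (t : ℝ) : S.E := S.z0 + t • S.one

/-- projection along `one` -/
def J (S : Sys) : S.E →L[ℝ] S.E := ContinuousLinearMap.id ℝ S.E - S.V.smulRight S.one

/-- admissible trajectory -/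
def Adm (S : Sys) (Z : ℝ → S.E) (a b : ℝ) : Prop :=
  a ≤ b ∧ IsTraj S.K Z a b ∧ ∃ T : ℝ, 3 * S.H ≤ T ∧ b - a ≤ T ∧ Z a = S.far T

/-- standing hypotheses on a system -/
structure Good (S : Sys) : Prop where
  H_pos : 0 < S.H
  V_one : S.V S.one = 1
  V_z0 : S.V S.z0 = 0
  convex : ∀ z, Convex ℝ (S.K z)
  compact : ∀ z, IsCompact (S.K z)
  zero_mem : ∀ z, (0 : S.E) ∈ S.K z
  ldi : LDI S.K
  V_le : ∀ z, ∀ κ ∈ S.K z, |S.V κ| ≤ 1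
  irr : ∀ z ∈ S.Om, S.V z ≤ S.H → ∀ κ ∈ S.K z, S.V κ ≤ 0 ∧ ∃ κ' ∈ S.K z, κ = (-S.V κ) • κ'
  isOpen : IsOpen S.Om
  bdd : ∀ N : ℝ, ∃ R : ℝ, ∀ z ∈ S.Om, S.V z ≤ N → ‖z‖ ≤ R
  farLaw : ∀ z ∈ S.Om, 3 * S.H ≤ S.V z → ∀ κ, κ ∈ S.K z ↔ ∃ c : ℝ, |c| ≤ 1 ∧ κ = c • S.one
  inv : ∀ Z a b, S.Adm Z a b → ∀ s ∈ Icc a b, Z s ∈ S.Om

/-- a constant burning direction -/
def HasCtr (S : Sys) (c : S.E) : Prop := S.V c = -1 ∧ ∀ z, S.V z ≤ S.H → c ∈ S.K z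

/-- change of the time unit -/
@[reducible] def scale (S : Sys) (γ : ℝ) : Sys where
  E := S.E
  K := fun z => (fun κ => γ⁻¹ • κ) '' S.K z
  V := γ • S.V
  one := γ⁻¹ • S.one
  z0 := S.z0
  H := γ * S.H
  Om := S.Om

/-- closeness of two states of a base system -/
def Close (B : Sys) (ε : ℝ) (z z' : B.E) : Prop :=
  (2 * B.H ≤ B.V z ∧ 2 * B.H ≤ B.V z') ∨ ‖z - z'‖ ≤ ε

/-- the deviation map of two states of a base system -/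
def Dev (B : Sys) (θ : ℝ) (z z' : B.E) (d : ℝ) : Prop :=
  ‖B.J z - B.J z'‖ ≤ d ∧ |θ * B.V z' - B.V z| ≤ d

/-- collapsed state -/
def Q (S : Sys) (z : S.E) : ℝ × S.E := (min (S.V z) S.H, max (S.H - S.V z) 0 • z)

/-- track of a path -/
def trk (S : Sys) (Z : ℝ → S.E) (I : Set ℝ) : Set (ℝ × S.E) := (fun s => S.Q (Z s)) '' I

/-- space of tracks -/
def Y (S : Sys) : Set (NonemptyCompacts (ℝ × S.E)) :=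
  {x | ∃ Z a b, S.Adm Z a b ∧ (x : Set (ℝ × S.E)) = S.trk Z (Icc a b)}

/-- true time path ending at time `w` (time decreases along the motion) -/
structure TPath (S : Sys) (w : ℝ) (P : ℝ → S.E) : Prop where
  nonneg : 0 ≤ w
  traj : ∀ T, w ≤ T → IsTraj S.K (fun s => P (-s)) (-T) (-w)
  const : ∀ t, t ≤ w → P t = P w
  le_V : ∀ t, w ≤ t → t ≤ S.V (P t)
  far : ∀ t, w ≤ t → 3 * S.H ≤ t → P t = S.far (S.V (P t))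
  tends : Tendsto (fun t => S.V (P t) - t) atTop (𝓝 0)

end Sys

/-- morphism of systems, the part needed for the topology -/
structure Mor (B : Sys) (θ : ℝ) (T : Sys) (π : T.E →L[ℝ] B.E) : Prop where
  pos : 0 < θ
  norm_le : ∀ z, ‖π z‖ ≤ ‖z‖
  H_le : θ * B.H ≤ T.H
  far : ∀ t, π (T.far t) = B.far (t / θ)
  traj : ∀ Z a b, T.Adm Z a b → IsTraj B.K (fun s => π (Z (θ * s))) (a / θ) (b / θ)
  burn : ∀ Z a b, T.Adm Z a b → ∀ s t, a ≤ s → s ≤ t → t ≤ b →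
    θ * B.V (π (Z s)) - T.V (Z s) ≤ θ * B.V (π (Z t)) - T.V (Z t)

/-! ### Level parameters -/

/-- parameters of one level -/
structure Par where
  H : ℝ
  lam : ℝ
  p : ℝ
  kap : ℝ
  eta : ℝ
  c : ℝ

namespace Par

def al (q : Par) (v : ℝ) : ℝ := cl01 (2 - 4 * v / q.H)
def S (q : Par) (x : ℝ) : ℝ := lr q.p q.lam x
def rho (q : Par) (x : ℝ) : ℝ := 1 - lr q.p q.kap x
def cap (q : Par) : ℝ := q.kap * Real.exp (1 / q.p)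
def k0 (q : Par) : ℝ := 2 * q.lam * Real.exp (1 / q.p)
def w (q : Par) : ℝ := q.eta * q.H + q.cap + q.c
def ind (q : Par) (v : ℝ) : ℝ := if v ≤ q.H then 1 else 0
def ra (q : Par) (v : ℝ) : ℝ := cl01 ((v - q.H) / q.H)
def rb (q : Par) (v : ℝ) : ℝ := cl01 ((3 * q.H - v) / q.H)

def scale (g : ℝ) (q : Par) : Par :=
  ⟨g * q.H, g * q.lam, q.p, g * q.kap, q.eta, g * q.c⟩

structure Good (q : Par) : Prop where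
  H_pos : 0 < q.H
  lam_pos : 0 < q.lam
  p_pos : 0 < q.p
  c_pos : 0 < q.c
  eta_pos : 0 < q.eta
  eta_le : q.eta ≤ 1 / 100
  kap_ge : 8 * q.lam * Real.exp (1 / q.p) ≤ q.kap
  p_le : q.p * (2 + 8 * q.c / q.lam) ≤ q.eta
  c_le : 100 * q.c ≤ q.H

end Par

/-- level data carried by a state space -/
structure LD (E : Type) [NormedAddCommGroup E] [NormedSpace ℝ E] where
  Vj : ℕ → E →L[ℝ] ℝ
  Dj : ℕ → E →L[ℝ] ℝ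
  T : ℕ → Bool → E → ℝ
  r : ℕ → ℝ

namespace LD

variable {E : Type} [NormedAddCommGroup E] [NormedSpace ℝ E]

/-- the sign `b` is valid at level `j` -/
def valid (ld : LD E) (j : ℕ) (b : Bool) (z : E) : Prop := ld.T j b z ≤ ld.T j (!b) z + ld.r j

/-- stall fraction -/
def aS (ld : LD E) (par : ℕ → Par) (j : ℕ) (z : E) : ℝ :=
  (par j).al (ld.Vj j z) * (par j).S (ld.Dj j z)

/-- raise fraction -/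
def aR (ld : LD E) (par : ℕ → Par) (j : ℕ) (z : E) : ℝ :=
  (par j).al (ld.Vj j z) * (par j).rho (ld.Dj j z)

/-- error rate -/
def er (ld : LD E) (par : ℕ → Par) (j : ℕ) (z : E) : ℝ :=
  (par j).eta * (par j).ind (ld.Vj j z)

/-- a plan of activities `s` and debt rates `δ` -/
def Plan (ld : LD E) (par : ℕ → Par) (m n : ℕ) (z : E) (s δ : ℕ → ℝ) : Prop :=
  s n = 1 ∧ ∀ j, m ≤ j → j < n →
    0 ≤ s j ∧ s j ≤ (1 - ld.aS par j z) * s (j + 1) ∧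
    -(ld.aS par j z * s (j + 1)) ≤ δ j ∧ δ j ≤ ld.aR par j z * (s (j + 1) - s j)

/-- levels below `k` come from `lo` through `π`, the others from `up` -/
def comp {M : Type} [NormedAddCommGroup M] [NormedSpace ℝ M] (k : ℕ) (up : LD E) (lo : LD M)
    (π : E →L[ℝ] M) : LD E where
  Vj := fun j => if j < k then (lo.Vj j).comp π else up.Vj j
  Dj := fun j => if j < k then (lo.Dj j).comp π else up.Dj j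
  T := fun j b z => if j < k then lo.T j b (π z) else up.T j b z
  r := fun j => if j < k then lo.r j else up.r j

/-- change of the time unit -/
def scale (γ : ℝ) (ld : LD E) : LD E where
  Vj := fun j => γ • ld.Vj j
  Dj := fun j => γ • ld.Dj j
  T := fun j b z => γ * ld.T j b z
  r := fun j => γ * ld.r j

/-- level data without content -/
def triv (E : Type) [NormedAddCommGroup E] [NormedSpace ℝ E] : LD E where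
  Vj := fun _ => 0
  Dj := fun _ => 0
  T := fun _ _ _ => 0
  r := fun _ => 1

/-- no push potentials -/
def Pure (ld : LD E) : Prop := ∀ j b z, ld.T j b z = 0

end LD

/-- every plan with valid signs and every base velocity has a response satisfying `P` -/
def RespAt (B : Sys) (θ : ℝ) (T : Sys) (π : T.E →L[ℝ] B.E) (m n : ℕ) (par : ℕ → Par)
    (ld : LD T.E) (z : T.E) (P : ℝ → B.E → T.E → Prop) : Prop :=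
  ∀ b : ℕ → Bool, (∀ j, m ≤ j → j < n → ld.valid j (b j) z) →
    ∀ s δ : ℕ → ℝ, ld.Plan par m n z s δ → ∀ u ∈ B.K (π z),
      ∃ κ ∈ T.K z, π κ = (s m / θ) • u ∧ (T.V z ≤ T.H → T.V κ = -1) ∧
        (∀ j, m ≤ j → j < n → δ j ≤ ld.Dj j κ ∧
          ld.Dj j κ + fderiv ℝ (ld.T j (b j)) z κ ≤ δ j + ld.er par j z * s (j + 1)) ∧
        P (s m) u κ

/-- tower of levels `m ≤ j < n` over a base -/
structure Tower (B : Sys) (θ : ℝ) (T : Sys) (π : T.E →L[ℝ] B.E) (m n : ℕ) (par : ℕ → Par)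
    (ld : LD T.E) (slk : ℝ) : Prop where
  pos : 0 < θ
  le : m ≤ n
  slk_nonneg : 0 ≤ slk
  norm_le : ∀ z, ‖π z‖ ≤ ‖z‖
  surj : Function.Surjective π
  map_one : π T.one = θ⁻¹ • B.one
  map_z0 : π T.z0 = B.z0
  mapsTo : ∀ z ∈ T.Om, π z ∈ B.Om
  H_le : θ * B.H ≤ T.H
  pgood : ∀ j, m ≤ j → j < n → (par j).Good
  lev_H : ∀ j, m ≤ j → j < n → 60 * (θ * B.H) ≤ (par j).H ∧ (par j).H ≤ T.H
  smooth : ∀ j b, ContDiff ℝ 2 (ld.T j b)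
  r_pos : ∀ j, 0 < ld.r j
  D_bd : ∀ z ∈ T.Om, ∀ j, m ≤ j → j < n → -(par j).c ≤ ld.Dj j z ∧ ld.Dj j z ≤ (par j).cap
  T_bd : ∀ z ∈ T.Om, ∀ j, m ≤ j → j < n → ∀ b, 0 ≤ ld.T j b z ∧ ld.T j b z ≤ (par j).c
  dom : ∀ z ∈ T.Om, T.V z ≤ θ * B.V (π z) + slk
  dom1 : ∀ z ∈ T.Om, ∀ j, m ≤ j → j < n → T.V z ≤ ld.Vj j z + slk
  dom2 : ∀ z ∈ T.Om, ∀ j, m ≤ j → j < n → ld.Vj j z ≤ θ * B.V (π z) + slk
  vel : ∀ z ∈ T.Om, ∀ κ ∈ T.K z, T.V κ ≤ θ * B.V (π κ)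
  quiet : ∀ z ∈ T.Om, ∀ j, m ≤ j → j < n → (par j).H < ld.Vj j z → ∀ κ ∈ T.K z, ∀ b,
    fderiv ℝ (ld.T j b) z κ = 0
  lead : ∀ z ∈ T.Om, ∀ κ ∈ T.K z, ∃ s : ℕ → ℝ, s n = 1 ∧
    (∃ u ∈ B.K (π z), π κ = (s m / θ) • u) ∧
    ∀ j, m ≤ j → j < n → 0 ≤ s j ∧ s j ≤ (1 - ld.aS par j z) * s (j + 1) ∧
      -(ld.aS par j z * s (j + 1)) ≤ ld.Dj j κ ∧
      ∀ b, ld.valid j b z → ld.Dj j κ + fderiv ℝ (ld.T j b) z κ ≤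
        ld.aR par j z * (s (j + 1) - s j) + ld.er par j z * s (j + 1)
  resp : ∀ z ∈ T.Om, RespAt B θ T π m n par ld z (fun _ _ _ => True)

/-! ### The generic layer -/

/-- site data of a layer over `L` -/
structure Site (L : Sys) where
  th : L.E × ℝ → ℝ
  T : Bool → L.E × ℝ → ℝ
  fo : L.E × ℝ → ℝ
  spP : L.E × ℝ → ℝ
  spM : L.E × ℝ → ℝ
  O : Set (L.E × ℝ)
  y0 : ℝ
  r : ℝ

namespace Site

variable {L : Sys}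

def psh (σ : Site L) (b : Bool) (w : L.E × ℝ) : ℝ := if b then σ.spP w else -σ.spM w

def valid (σ : Site L) (b : Bool) (w : L.E × ℝ) : Prop := σ.T b w ≤ σ.T (!b) w + σ.r

/-- projected dynamics of the pair (lower state, site variable) -/
def Ky (σ : Site L) (q : Par) (w : L.E × ℝ) : Set (L.E × ℝ) :=
  {κ | ∃ s' a b : ℝ, ∃ u ∈ L.K w.1, 0 ≤ s' ∧ s' ≤ 1 ∧ 0 ≤ a ∧ a ≤ 2 ∧ 0 ≤ b ∧ b ≤ 2 ∧
    (σ.th w = q.k0 → s' = 0) ∧ κ.1 = s' • u ∧ κ.2 = σ.fo w * s' + σ.spP w * a - σ.spM w * b}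

/-- trajectory of the projected dynamics -/
def STraj (σ : Site L) (q : Par) (Y : ℝ → L.E × ℝ) (a b : ℝ) : Prop :=
  IsTraj (σ.Ky q) Y a b ∧ L.Adm (fun s => (Y s).1) a b ∧ (Y a).2 = σ.y0

structure Good (σ : Site L) (q : Par) : Prop where
  th_smooth : ContDiff ℝ 2 σ.th
  T_smooth : ∀ b, ContDiff ℝ 2 (σ.T b)
  fo_smooth : ContDiff ℝ 1 σ.fo
  spP_smooth : ContDiff ℝ 1 σ.spP
  spM_smooth : ContDiff ℝ 1 σ.spM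
  th_bd : ∀ w, 0 ≤ σ.th w ∧ σ.th w ≤ q.k0
  r_pos : 0 < σ.r
  th_act : ∀ w : L.E × ℝ, w.1 ∈ L.Om → 0 < σ.th w → L.V w.1 ≤ q.H / 8
  fo_act : ∀ w : L.E × ℝ, w.1 ∈ L.Om → q.H / 8 ≤ L.V w.1 → σ.fo w = 0
  rate_th : ∀ w ∈ σ.O, w.1 ∈ L.Om → σ.th w < q.k0 → ∀ u ∈ L.K w.1,
    fderiv ℝ σ.th w (u, σ.fo w) ≤ q.eta / 8
  rate_T : ∀ w ∈ σ.O, w.1 ∈ L.Om → σ.th w < q.k0 → ∀ u ∈ L.K w.1, ∀ b, σ.valid b w →
    fderiv ℝ (σ.T b) w (u, σ.fo w) ≤ q.eta / 8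
  lead_push : ∀ w ∈ σ.O, w.1 ∈ L.Om → ∀ b, σ.valid b w → ∀ b',
    fderiv ℝ (σ.T b) w (0, σ.psh b' w) ≤ 1
  resp_push : ∀ w ∈ σ.O, w.1 ∈ L.Om → 0 < σ.th w → ∀ b, σ.valid b w →
    fderiv ℝ (σ.T b) w (0, σ.psh b w) ≤ -1 ∧ fderiv ℝ σ.th w (0, σ.psh b w) ≤ 0
  far_T : ∀ w ∈ σ.O, w.1 ∈ L.Om → 3 * L.H ≤ L.V w.1 → ∀ b,
    fderiv ℝ (σ.T b) w (L.one, 0) = 0
  T_bd : ∀ w ∈ σ.O, w.1 ∈ L.Om → ∀ b, 0 ≤ σ.T b w ∧ σ.T b w ≤ q.c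
  isOpen : IsOpen σ.O
  bdd : ∃ Ym : ℝ, ∀ w ∈ σ.O, |w.2| ≤ Ym
  inv : ∀ Y a b, σ.STraj q Y a b → ∀ s ∈ Icc a b, Y s ∈ σ.O

end Site

/-- velocity set of the layer; the state is `((z, y), (v, Δ))` -/
def layerK (L : Sys) (q : Par) (σ : Site L) (x : (L.E × ℝ) × (ℝ × ℝ)) :
    Set ((L.E × ℝ) × (ℝ × ℝ)) :=
  {κ | ∃ s s' up pay a b : ℝ, ∃ u ∈ L.K x.1.1,
    0 ≤ s ∧ s ≤ 1 ∧ 0 ≤ s' ∧ s' ≤ (1 - q.al x.2.1 * q.S x.2.2) * s ∧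
    0 ≤ up ∧ 0 ≤ a ∧ 0 ≤ b ∧
    up + a + b ≤ q.al x.2.1 * q.rho x.2.2 * (s - s' + q.eta * s / 4) ∧
    0 ≤ pay ∧ pay ≤ q.al x.2.1 * q.S x.2.2 * s ∧
    κ.1.1 = s' • u ∧ κ.1.2 = σ.fo x.1 * s' + σ.spP x.1 * a - σ.spM x.1 * b ∧
    κ.2.2 = up - pay ∧
    -s ≤ κ.2.1 ∧ κ.2.1 ≤ -s + 2 * q.ra x.2.1 * s ∧ κ.2.1 ≤ L.V κ.1.1 ∧
    L.V κ.1.1 - κ.2.1 ≤ 2 * q.rb x.2.1 * s ∧
    fderiv ℝ σ.th x.1 κ.1 - κ.2.2 ≤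
      (max (x.2.2 - σ.th x.1) 0 / q.lam + q.lam / (2 * q.H)) * s}

/-- the layer system -/
@[reducible] def layer (L : Sys) (q : Par) (σ : Site L) : Sys where
  E := (L.E × ℝ) × (ℝ × ℝ)
  K := layerK L q σ
  V := (ContinuousLinearMap.fst ℝ ℝ ℝ).comp (ContinuousLinearMap.snd ℝ (L.E × ℝ) (ℝ × ℝ))
  one := ((L.one, 0), (1, 0))
  z0 := ((L.z0, σ.y0), (0, 0))
  H := q.H
  Om := {x | x.1.1 ∈ L.Om ∧ x.1 ∈ σ.O ∧ x.2.1 < L.V x.1.1 + q.c ∧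
    L.V x.1.1 - x.2.1 < 7 * q.H ∧ -1 < x.2.1 ∧ -q.c < x.2.2 ∧ x.2.2 < q.cap ∧
    σ.th x.1 - x.2.2 < q.lam}

/-- projection of the layer -/
def layerPi (L : Sys) (q : Par) (σ : Site L) : (layer L q σ).E →L[ℝ] L.E :=
  (ContinuousLinearMap.fst ℝ L.E ℝ).comp (ContinuousLinearMap.fst ℝ (L.E × ℝ) (ℝ × ℝ))

/-- level data of the layer -/
def layerLD (L : Sys) (q : Par) (σ : Site L) : LD (layer L q σ).E where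
  Vj := fun _ => (layer L q σ).V
  Dj := fun _ =>
    (ContinuousLinearMap.snd ℝ ℝ ℝ).comp (ContinuousLinearMap.snd ℝ (L.E × ℝ) (ℝ × ℝ))
  T := fun _ b (x : (L.E × ℝ) × (ℝ × ℝ)) => σ.T b x.1
  r := fun _ => σ.r

/-- burning direction of the layer -/
def layerCtr (L : Sys) (q : Par) (σ : Site L) : (layer L q σ).E :=
  (((0 : L.E), (0 : ℝ)), ((-1 : ℝ), (0 : ℝ)))

/-! ### Blocks -/

/-- growth of the level thresholds -/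
def Growth (par : ℕ → Par) (m n : ℕ) : Prop :=
  ∀ j, m ≤ j → j + 1 < n → 64 * (par j).H ≤ (par (j + 1)).H

/-- `D` is obtained from `A` by adding the levels `l ≤ j < l'` within the budget `β` -/
structure Block (A : Sys) (l : ℕ) (β H0 : ℝ) (D : Sys) (π : D.E →L[ℝ] A.E) (l' : ℕ)
    (par : ℕ → Par) : Prop where
  lt : l < l'
  good : D.Good
  ctr : ∃ c, D.HasCtr c ∧ π c = 0
  tower : ∃ ld, Tower A 1 D π l l' par ld β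
  wsum : ∑ j ∈ Finset.Ico l l', (par j).w ≤ β
  H0_le : H0 ≤ (par l).H
  growth : Growth par l l'

/-- smooth target path for the lock -/
structure Target (S : Sys) (γ Tm Qc η : ℝ) (ζ g : ℝ → S.E) : Prop where
  Tm_ge : 5 * (γ * S.H) ≤ Tm
  Qc_nonneg : 0 ≤ Qc
  taylor : ∀ t t', ‖ζ t' - ζ t + (t' - t) • g t‖ ≤ Qc * (t' - t) ^ 2
  lip : ∀ t t', ‖g t' - g t‖ ≤ Qc * |t' - t|
  far : ∀ t, Tm ≤ t → ζ t = S.far (t / γ) ∧ g t = -(γ⁻¹ • S.one)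
  low : ∀ t, t ≤ -1 → ζ t = ζ (-1) ∧ g t = 0
  le_V : ∀ t, t / γ ≤ S.V (ζ t) + η
  near : ∀ t, ∃ z ∈ S.Om, ∃ κ ∈ S.K z, ‖ζ t - z‖ ≤ η ∧ ‖g t - γ⁻¹ • κ‖ ≤ η / (Tm + 1)

/-! ### The product with lock -/

/-- data of the product system -/
structure PD : Type 1 where
  A : Sys
  C : Sys
  S : Sys
  pS : C.E →L[ℝ] S.E
  γ : ℝ
  ζ : ℝ → S.E
  g : ℝ → S.E
  Gd : A.E × S.E → ℝ
  N : S.E → ℝ
  Ds : C.E →L[ℝ] ℝ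
  Ex : ℝ → ℝ
  Th : ℝ → ℝ
  H : ℝ
  δ : ℝ
  Kw : ℝ
  M : ℝ
  om : ℝ
  μ : ℝ
  w : ℝ
  slk : ℝ

namespace PD

variable (d : PD)

/-- state space `((a, c), ((t, y), q))` -/
abbrev E : Type := (d.A.E × d.C.E) × ((ℝ × ℝ) × d.S.E)

def ra (t : ℝ) : ℝ := cl01 ((t - d.H) / d.H)
def rb (t : ℝ) : ℝ := cl01 ((3 * d.H - t) / d.H)
def bs (t : ℝ) : ℝ := cl01 (4 - 10 * t / d.H)
def al (t : ℝ) : ℝ := cl01 (10 - 20 * t / d.H)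
def omg (_d : PD) (y : ℝ) : ℝ := cl01 (3 - 2 * y)
def room (_d : PD) (y : ℝ) : ℝ := cl01 (3 - y)

/-- lock potential -/
def Phi (x : d.E) : ℝ := d.N (d.pS x.1.2 - x.2.2) + d.M * (d.Ds x.1.2 + d.om)

/-- deviation rate -/
def dev (x : d.E) : ℝ :=
  st (d.Gd (x.1.1, x.2.2) / d.w - 1) + st (d.N (d.pS x.1.2 - x.2.2) / d.w - 1)

def K (x : d.E) : Set d.E :=
  {κ | ∃ s cc : ℝ, ∃ ua ∈ d.A.K x.1.1, ∃ uc ∈ d.C.K x.1.2,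
    0 ≤ s ∧ s ≤ 1 ∧ |cc| ≤ 1 ∧
    κ.1.1 = s • ((1 - d.bs x.2.1.1) • (cc • d.A.one) + d.bs x.2.1.1 • ua) ∧
    κ.1.2 = s • ((1 - d.bs x.2.1.1) • (cc • d.C.one) + d.bs x.2.1.1 • uc) ∧
    -s ≤ κ.2.1.1 ∧ κ.2.1.1 ≤ -s + 2 * d.ra x.2.1.1 * s ∧
    κ.2.1.1 ≤ d.A.V κ.1.1 ∧ κ.2.1.1 ≤ d.C.V κ.1.2 ∧
    d.A.V κ.1.1 - κ.2.1.1 ≤ 2 * d.rb x.2.1.1 * s ∧
    κ.2.1.2 = d.room x.2.1.2 *
      ((d.A.V κ.1.1 - κ.2.1.1) + d.al x.2.1.1 * d.dev x * s) / d.δ ∧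
    κ.2.2 = (-κ.2.1.1) • d.g x.2.1.1 ∧
    d.omg x.2.1.2 * d.al x.2.1.1 * (d.Ex x.2.1.1 * fderiv ℝ d.Phi x κ - d.Kw * κ.2.1.2) ≤
      (d.μ + deriv d.Ex x.2.1.1 * max (d.Phi x) 0 + deriv d.Th x.2.1.1) * s}

@[reducible] def sys : Sys where
  E := d.E
  K := d.K
  V := (ContinuousLinearMap.fst ℝ ℝ ℝ).comp
    ((ContinuousLinearMap.fst ℝ (ℝ × ℝ) d.S.E).comp
      (ContinuousLinearMap.snd ℝ (d.A.E × d.C.E) ((ℝ × ℝ) × d.S.E)))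
  one := ((d.A.one, d.C.one), ((1, 0), d.γ⁻¹ • d.S.one))
  z0 := ((d.A.z0, d.C.z0), ((0, 0), d.S.z0))
  H := d.H
  Om := {x | x.1.1 ∈ d.A.Om ∧ x.1.2 ∈ d.C.Om ∧
    x.2.1.1 < d.A.V x.1.1 + d.slk ∧ x.2.1.1 < d.C.V x.1.2 + d.slk ∧
    d.A.V x.1.1 - x.2.1.1 < 7 * d.H ∧ d.C.V x.1.2 - x.2.1.1 < 8 * d.H ∧
    -1 < x.2.1.1 ∧ -1 < x.2.1.2 ∧ x.2.1.2 < 4 ∧ ‖x.2.2 - d.ζ x.2.1.1‖ < d.slk ∧
    (3 / 2 < x.2.1.2 ∨ d.H / 5 < x.2.1.1 ∨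
      (d.N (d.pS x.1.2 - x.2.2) < 4 * d.w ∧ d.Gd (x.1.1, x.2.2) < 4 * d.w))}

def pa : d.sys.E →L[ℝ] d.A.E :=
  (ContinuousLinearMap.fst ℝ d.A.E d.C.E).comp
    (ContinuousLinearMap.fst ℝ (d.A.E × d.C.E) ((ℝ × ℝ) × d.S.E))

def pc : d.sys.E →L[ℝ] d.C.E :=
  (ContinuousLinearMap.snd ℝ d.A.E d.C.E).comp
    (ContinuousLinearMap.fst ℝ (d.A.E × d.C.E) ((ℝ × ℝ) × d.S.E))

/-- hypotheses on the data of the product system -/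
structure Hyp (Tm Qc η Emax M' ν Bq : ℝ) : Prop where
  goodA : d.A.Good
  goodC : d.C.Good
  Tm_nonneg : 0 ≤ Tm
  γ_pos : 0 < d.γ
  tgt : Target d.S d.γ Tm Qc η d.ζ d.g
  pS_one : d.pS d.C.one = d.γ⁻¹ • d.S.one
  pS_z0 : d.pS d.C.z0 = d.S.z0
  Ds_one : d.Ds d.C.one = 0
  Ds_bd : ∀ c ∈ d.C.Om, |d.Ds c| ≤ d.om
  Gd_smooth : ContDiff ℝ 2 d.Gd
  N_smooth : ContDiff ℝ 2 d.N
  Ex_smooth : ContDiff ℝ 2 d.Ex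
  Th_smooth : ContDiff ℝ 2 d.Th
  N_ge : ∀ v, ‖v‖ ≤ d.N v
  N_le : ∀ v, d.N v ≤ M' * ‖v‖ + ν
  Ex_bd : ∀ t, 0 < d.Ex t ∧ d.Ex t ≤ Emax ∧ 0 ≤ deriv d.Ex t ∧ (0 ≤ t → 1 ≤ d.Ex t)
  Th_bd : ∀ t, 0 ≤ deriv d.Th t ∧ (0 ≤ t → 0 ≤ d.Th t)
  H_ge : 20 * (d.A.H + d.C.H) + 10 + 5 * Tm ≤ d.H
  δ_pos : 0 < d.δ
  Kw_nonneg : 0 ≤ d.Kw
  M_nonneg : 0 ≤ d.M
  M'_nonneg : 0 ≤ M'
  μ_pos : 0 < d.μ
  w_pos : 0 < d.w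
  slk_pos : 0 < d.slk
  slk_le : d.slk ≤ 1
  Bq_pos : 0 < Bq
  slater : ∀ v t, d.Ex t * fderiv ℝ d.N v (-d.g t) ≤ d.Kw / d.δ
  wlead : ∀ c ∈ d.C.Om, ∀ u ∈ d.C.K c, ∀ v t,
    d.Ex t * (fderiv ℝ d.N v (d.pS u - d.g t) + d.M * d.Ds u) ≤ d.Kw / d.δ
  wresp : ∀ c ∈ d.C.Om, ∀ (q : d.S.E) (t : ℝ), -1 < t → t < d.C.V c + d.slk →
    ‖q - d.ζ t‖ < d.slk → d.N (d.pS c - q) < 4 * d.w → ∃ u ∈ d.C.K c,
      d.Ex t * (fderiv ℝ d.N (d.pS c - q) (d.pS u - d.g t) + d.M * d.Ds u) ≤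
        deriv d.Ex t * (d.N (d.pS c - q) + d.M * (d.Ds c + d.om)) + deriv d.Th t
  speedN : ∀ c ∈ d.C.Om, ∀ u ∈ d.C.K c, ∀ v t, fderiv ℝ d.N v (d.pS u - d.g t) ≤ Bq
  speedG : ∀ a ∈ d.A.Om, ∀ u ∈ d.A.K a, ∀ q t, fderiv ℝ d.Gd (a, q) (u, d.g t) ≤ Bq
  δ_small : 2 * Bq * d.δ ≤ d.w
  startG : ∀ v t, Tm ≤ t → t ≤ v → v ≤ t + 2 * d.δ →
    d.Gd (d.A.far v, d.S.far (t / d.γ)) ≤ d.w
  startN : ν + M' * (2 * d.δ * ‖d.γ⁻¹ • d.S.one‖) ≤ d.w / 2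
  lock : ∀ t, Emax * (ν + M' * (2 * d.δ * ‖d.γ⁻¹ • d.S.one‖) + 2 * d.M * d.om) + d.Th t +
    d.μ * d.H + d.Kw ≤ d.w / 2

end PD

/-! ### Restriction by a potential -/

/-- velocity set cut by the potential `Φ` -/
def restrK (M : Sys) (U : M.E →L[ℝ] ℝ) (N : ℝ) (Φ : M.E → ℝ) (R l μ0 : ℝ) (z : M.E) :
    Set M.E :=
  {κ | κ ∈ M.K z ∧
    cl01 (6 - U z / N) * (fderiv ℝ Φ z κ + l * max (R - Φ z) 0 * M.V κ) + μ0 * M.V κ ≤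
      2 * μ0 * cl01 (2 * M.V z / M.H - 1)}

/-- the restricted system -/
@[reducible] def restr (M : Sys) (U : M.E →L[ℝ] ℝ) (N : ℝ) (Φ : M.E → ℝ) (R l μ0 hi : ℝ) : Sys where
  E := M.E
  K := restrK M U N Φ R l μ0
  V := M.V
  one := M.one
  z0 := M.z0
  H := M.H
  Om := {z | z ∈ M.Om ∧ (6 * N < U z ∨ Φ z < hi)}

/-! ### The gate site -/

/-- data of a gate -/
structure GP (L : Sys) where
  τ : L.E →L[ℝ] ℝ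
  φ : L.E →L[ℝ] ℝ
  τ1 : ℝ
  len : ℝ
  lo : ℝ
  hi : ℝ
  Y : ℝ
  k0 : ℝ

namespace GP

variable {L : Sys} (g : GP L)

def e : ℝ := (g.hi - g.lo) / 6
def psP (x : ℝ) : ℝ := st ((g.lo + 3 * g.e - x) / g.e)
def psM (x : ℝ) : ℝ := st ((x - g.hi + 3 * g.e) / g.e)
def Gam (t : ℝ) : ℝ := st ((g.τ1 - t) / (2 * g.len))
def kap (t : ℝ) : ℝ := deriv st ((g.τ1 - t) / (2 * g.len)) / (2 * g.len)
def cut (t : ℝ) : ℝ := st ((g.τ1 - 2 * g.len - t) / (g.len / 2))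
def a (t : ℝ) : ℝ := st ((g.τ1 - 5 / 2 * g.len - t) / g.len)
def inw (y : ℝ) : ℝ := st ((6 / 10 * g.Y - y) / (g.Y / 10))
def room (y : ℝ) : ℝ := st ((12 / 10 * g.Y - y) / (2 / 10 * g.Y))
def b (y : ℝ) : ℝ := pl (7 / 10 * g.Y) (8 / 10 * g.Y) y
def T0 (y : ℝ) : ℝ :=
  g.Y / 10 * (rmp ((9 / 10 * g.Y - y) / (g.Y / 10)) - rmp ((-(5 / 10 * g.Y) - y) / (g.Y / 10)))

def site : Site L where
  th := fun w => g.k0 * g.a (g.τ w.1) * g.b w.2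
  T := fun s w => g.cut (g.τ w.1) * g.T0 (if s then w.2 else -w.2)
  fo := fun w => g.Y * g.kap (g.τ w.1) *
    (g.psP (g.φ w.1) * g.room w.2 - g.psM (g.φ w.1) * g.room (-w.2))
  spP := fun w => g.cut (g.τ w.1) * g.inw (-w.2) * g.room w.2
  spM := fun w => g.cut (g.τ w.1) * g.inw w.2 * g.room (-w.2)
  O := {w | |w.2| < 2 * g.Y}
  y0 := 0
  r := g.Y / 2

/-- hypotheses on a gate; `Cs` bounds the derivative of `st` -/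
structure Hyp (q : Par) (h Bφ Cs : ℝ) : Prop where
  goodL : L.Good
  goodq : q.Good
  Cs_bd : ∀ x, deriv st x ≤ Cs
  H_ge : 64 * L.H ≤ q.H
  one_le : 1 ≤ L.H
  h_le : h ≤ L.H
  τ1_lt : g.τ1 < h
  len_pos : 0 < g.len
  lo_lt : g.lo < g.hi
  Y_eq : g.Y = q.c / 2
  k0_eq : g.k0 = q.k0
  τ_abs : ∀ z ∈ L.Om, ∀ u ∈ L.K z, |g.τ u| ≤ 1
  τ_irr : ∀ z ∈ L.Om, g.τ z ≤ h → ∀ u ∈ L.K z, g.τ u ≤ 0 ∧ |g.φ u| ≤ Bφ * (-g.τ u)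
  dom : ∀ z ∈ L.Om, L.V z ≤ g.τ z + 1
  Bφ_nonneg : 0 ≤ Bφ
  len_φ : Bφ * g.len ≤ g.e
  rate1 : q.k0 * Cs / g.len ≤ q.eta / 8
  rate2 : 2 * Cs * q.c / g.len ≤ q.eta / 8

end GP

/-! ### The selector site -/

/-- data of a selector -/
structure SP (L : Sys) where
  Φ1 : L.E → ℝ
  Φ2 : L.E → ℝ
  r5 : ℝ
  Y : ℝ
  d : ℝ
  ra : ℝ
  k : ℝ
  rs : ℝ
  k0 : ℝ
  H : ℝ
  y0 : ℝ
  Z : ℝ

namespace SP

variable {L : Sys} (g : SP L)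

def ζ (z : L.E) : ℝ := (g.Φ2 z - g.Φ1 z) / 2
def a (x : ℝ) : ℝ := pl (2 / 10 * g.r5) (4 / 10 * g.r5) x
def chi (x : ℝ) : ℝ := pl (4 / 10 * g.r5) (6 / 10 * g.r5) x
def ex (x : ℝ) : ℝ := st ((x - 6 / 10 * g.r5) / (2 / 10 * g.r5))
def n (x : ℝ) : ℝ := st ((x - g.ra) / (2 / 10 * g.r5 - g.ra))
def m (x : ℝ) : ℝ := st (x / g.ra)
def bar (x : ℝ) : ℝ := -(2 * g.Y) + 35 / 10 * g.Y * st ((x - 8 / 10 * g.r5) / (2 / 10 * g.r5))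
def b (y : ℝ) : ℝ := pl (15 / 10 * g.Y) (16 / 10 * g.Y) y
def lay (y : ℝ) : ℝ := st ((y + 11 / 10 * g.Y) / (g.Y / 10))
def room (y : ℝ) : ℝ := st ((18 / 10 * g.Y - y) / (2 / 10 * g.Y))
def J (y : ℝ) : ℝ := st ((-(12 / 10 * g.Y) - y) / (2 / 10 * g.Y))
def j (y : ℝ) : ℝ := deriv st ((-(12 / 10 * g.Y) - y) / (2 / 10 * g.Y)) / (2 / 10 * g.Y)
def T0 (y : ℝ) : ℝ :=
  g.Y / 10 * (rmp ((17 / 10 * g.Y - y) / (g.Y / 10)) - rmp ((-(16 / 10 * g.Y) - y) / (g.Y / 10)))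
def al3 (v : ℝ) : ℝ := st (2 - 16 * v / g.H)
def Tt (x y : ℝ) : ℝ :=
  g.chi x * (g.T0 y + 5 * g.Y * g.m x * g.J y + 5 * g.Y * g.m (-x) * (1 - g.J (-y)))
def wt (x y : ℝ) : ℝ := 1 + 5 * g.Y * g.m x * g.j y + 5 * g.Y * g.m (-x) * g.j (-y)
def drift (x y : ℝ) : ℝ := g.n x * (1 - (1 - g.lay y) * (1 - g.ex x)) * g.room y

def site : Site L where
  th := fun w => g.k0 * g.a (g.ζ w.1) * g.b w.2 * g.al3 (L.V w.1)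
  T := fun s w => if s then g.Tt (g.ζ w.1) w.2 else g.Tt (-g.ζ w.1) (-w.2)
  fo := fun w => g.k * g.al3 (L.V w.1) * (g.drift (g.ζ w.1) w.2 - g.drift (-g.ζ w.1) (-w.2))
  spP := fun w => g.chi (g.ζ w.1) * g.room w.2 / g.wt (g.ζ w.1) w.2
  spM := fun w => g.chi (g.ζ w.1) * g.room (-w.2) / g.wt (g.ζ w.1) w.2
  O := {w | |w.2| < 2 * g.Y ∧ |g.ζ w.1| < g.Z ∧ g.bar (g.ζ w.1) - 4 / 10 * g.Y < w.2 ∧
    g.bar (-g.ζ w.1) - 4 / 10 * g.Y < -w.2}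
  y0 := g.y0
  r := g.rs

/-- the merged potential -/
def Phi (w : L.E × ℝ) : ℝ := lg (w.2 / g.d) * g.Φ1 w.1 + (1 - lg (w.2 / g.d)) * g.Φ2 w.1

/-- hypotheses on a selector; `Cs` bounds the derivative of `st` -/
structure Hyp (q : Par) (Kd Cs ρ : ℝ) : Prop where
  goodL : L.Good
  goodq : q.Good
  Cs_bd : ∀ x, deriv st x ≤ Cs
  H_ge : 64 * L.H ≤ q.H
  smooth1 : ContDiff ℝ 2 g.Φ1
  smooth2 : ContDiff ℝ 2 g.Φ2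
  far1 : ∀ z ∈ L.Om, 3 * L.H ≤ L.V z → fderiv ℝ g.Φ1 z L.one = 0
  far2 : ∀ z ∈ L.Om, 3 * L.H ≤ L.V z → fderiv ℝ g.Φ2 z L.one = 0
  Kd_nonneg : 0 ≤ Kd
  Kd_bd : ∀ z ∈ L.Om, ∀ u ∈ L.K z, |fderiv ℝ g.ζ z u| ≤ Kd
  Z_bd : ∀ Z a b, L.Adm Z a b → ∀ s ∈ Icc a b, |g.ζ (Z s)| < g.Z
  y0_eq : ((∀ t, 3 * L.H ≤ t → 0 ≤ g.ζ (L.far t)) ∧ g.y0 = 15 / 10 * g.Y) ∨
    ((∀ t, 3 * L.H ≤ t → g.ζ (L.far t) ≤ 0) ∧ g.y0 = -(15 / 10 * g.Y))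
  r5_pos : 0 < g.r5
  d_pos : 0 < g.d
  ra_pos : 0 < g.ra
  rs_pos : 0 < g.rs
  k_pos : 0 < g.k
  Y_eq : g.Y = q.c / 10
  k0_eq : g.k0 = q.k0
  H_eq : g.H = q.H
  ra_le : g.ra ≤ g.r5 / 10
  rs_le : g.rs ≤ g.Y
  n1 : q.k0 * (10 * Cs * Kd / g.r5 + 16 * Cs / q.H) ≤ q.eta / 8
  n2 : 90 * Cs * Kd * g.Y / g.r5 + g.rs * g.k / g.Y ≤ q.eta / 8
  n3 : 18 * g.Y * Cs * Kd / g.r5 ≤ g.k
  n4 : 10 * Kd * g.d / g.r5 ≤ g.k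
  ρ1 : 2 * g.r5 ≤ ρ
  ρ2 : 2 * g.Z * Real.exp (-(g.Y / g.d)) ≤ ρ
  ρ3 : 2 * Kd * Real.exp (-(g.Y / g.d)) ≤ ρ / 2
  ρ4 : 2 * g.r5 * Real.exp (-(g.Y / g.d)) / g.d ≤ ρ / 2
  ρ5 : g.ra ≤ ρ * g.d

end SP

/-! ### The family of coupling potentials -/

/-- data of the family of potentials -/
structure FD : Type 1 where
  B : Sys
  A : Sys
  C : Sys
  L : Sys
  fa : A.E →L[ℝ] B.E
  fc : C.E →L[ℝ] B.E
  pa : L.E →L[ℝ] A.E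
  pc : L.E →L[ℝ] C.E
  θ : ℝ
  m : ℕ
  n : ℕ
  qa : ℕ → Par
  qc : ℕ → Par
  la : LD A.E
  lc : LD C.E
  N : B.E → ℝ
  M2 : ℝ
  ν : ℝ
  ω : ℝ
  β : ℝ
  Ex : ℝ → ℝ
  Th : ℝ → ℝ

namespace FD

variable (f : FD)

def za (z : f.L.E) : f.B.E := f.fa (f.pa z)
def zc (z : f.L.E) : f.B.E := f.fc (f.pc z)
def e (z : f.L.E) : ℝ := f.θ * f.B.V (f.zc z) - f.B.V (f.za z)
def eJ (z : f.L.E) : f.B.E := f.B.J (f.za z) - f.B.J (f.zc z)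
def ct (j : ℕ) : ℝ := (f.qa j).c + (f.qc j).c
def hp (j : ℕ) (b : Bool) (z : f.L.E) : ℝ :=
  f.lc.Dj j (f.pc z) + f.lc.T j b (f.pc z) - f.la.Dj j (f.pa z)
def hm (j : ℕ) (b : Bool) (z : f.L.E) : ℝ :=
  f.la.Dj j (f.pa z) + f.la.T j b (f.pa z) - f.lc.Dj j (f.pc z)
def near (ba bc : ℕ → Bool) (z : f.L.E) : ℝ :=
  Real.sqrt (f.ν ^ 2 + f.e z ^ 2) + 2 * ∑ j ∈ Finset.Ico f.m f.n,
    (psi (f.ct j) (f.hp j (bc j) z) + psi (f.ct j) (f.hm j (ba j) z))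
def Tsum (ba bc : ℕ → Bool) (z : f.L.E) : ℝ :=
  ∑ j ∈ Finset.Ico f.m f.n, (f.la.T j (ba j) (f.pa z) + f.lc.T j (bc j) (f.pc z))
def Osum (ba bc : ℕ → Bool) (z : f.L.E) : ℝ :=
  ∑ j ∈ Finset.Ico f.m f.n, (f.la.Dj j (f.pa z) + f.lc.Dj j (f.pc z)) + f.Tsum ba bc z
def farP (ba bc : ℕ → Bool) (z : f.L.E) : ℝ :=
  psi f.ω (f.e z + f.Osum ba bc z) + psi f.ω (-f.e z + f.Osum ba bc z)
def C1 : ℝ := 4 * f.ω + f.ν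
def cr (z : f.L.E) : ℝ :=
  f.C1 * (2 * st ((f.B.V (f.za z) - 42 / 10 * f.B.H) / (6 / 10 * f.B.H)) - 1)
def br (md : Bool) (ba bc : ℕ → Bool) (z : f.L.E) : ℝ :=
  f.N (f.eJ z) / f.M2 + (if md then f.near ba bc z + f.cr z else f.farP ba bc z - f.cr z) +
    f.C1 + f.β * f.Tsum ba bc z
def Phi (md : Bool) (ba bc : ℕ → Bool) (z : f.L.E) : ℝ :=
  f.Ex (f.L.V z) * f.br md ba bc z + f.Th (f.L.V z)

/-- hypotheses on the family data -/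
structure Hyp (ϑ sa sc M' R Lb Bk Kb Cs L1 ρ0 Emax hi r : ℝ) : Prop where
  goodB : f.B.Good
  goodA : f.A.Good
  goodC : f.C.Good
  lt : f.m < f.n
  towA : Tower f.B 1 f.A f.fa f.m f.n f.qa f.la sa
  towC : Tower f.B f.θ f.C f.fc f.m f.n f.qc f.lc sc
  rel : ∀ j, f.m ≤ j → j < f.n → ∃ g : ℝ, 1 / 3 ≤ g ∧ g ≤ 3 ∧ f.qc j = (f.qa j).scale g
  ϑ_pos : 0 < ϑ
  ϑ_le : 100 * ϑ ≤ f.B.H
  ϑ_le' : 100 * ϑ ≤ 1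
  θ_near : |f.θ - 1| ≤ ϑ
  sa_le : sa ≤ ϑ
  sc_le : sc ≤ ϑ
  wsum : ∑ j ∈ Finset.Ico f.m f.n, (f.qa j).w ≤ ϑ
  ω_eq : f.ω = 4 * ϑ
  ν_pos : 0 < f.ν
  mapA : ∀ z ∈ f.L.Om, f.pa z ∈ f.A.Om
  mapC : ∀ z ∈ f.L.Om, f.pc z ∈ f.C.Om
  domA : ∀ z ∈ f.L.Om, f.L.V z ≤ f.A.V (f.pa z) + ϑ
  domC : ∀ z ∈ f.L.Om, f.L.V z ≤ f.C.V (f.pc z) + ϑ
  V_ge : ∀ z ∈ f.L.Om, -1 ≤ f.L.V z
  N_smooth : ContDiff ℝ 2 f.N
  N_ge : ∀ v, ‖v‖ ≤ f.N v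
  N_le : ∀ v, f.N v ≤ M' * ‖v‖ + f.ν
  N_der : ∀ v u, |fderiv ℝ f.N v u| ≤ M' * ‖u‖
  M'_ge : 1 ≤ M'
  R_bd : ∀ z ∈ f.B.Om, f.B.V z ≤ 6 * f.B.H → ‖z‖ ≤ R
  R_nonneg : 0 ≤ R
  Lb_nonneg : 0 ≤ Lb
  Bk_nonneg : 0 ≤ Bk
  Bk_bd : ∀ z : f.B.E, ‖z‖ ≤ R → ∀ u ∈ f.B.K z, ‖u‖ ≤ Bk
  Lb_lip : ∀ z z' : f.B.E, ‖z‖ ≤ R → ‖z'‖ ≤ R → ∀ u ∈ f.B.K z, ∃ u' ∈ f.B.K z',
    ‖u - u'‖ ≤ Lb * ‖z - z'‖
  M2_eq : f.M2 = M' * (‖f.B.J‖ * Bk + 1)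
  Kb_nonneg : 0 ≤ Kb
  KbA : ∀ z ∈ f.A.Om, ∀ u ∈ f.A.K z, ∀ j, f.m ≤ j → j < f.n → ∀ b,
    |fderiv ℝ (f.la.T j b) z u| ≤ Kb * (f.qa j).ind (f.la.Vj j z)
  KbC : ∀ z ∈ f.C.Om, ∀ u ∈ f.C.K z, ∀ j, f.m ≤ j → j < f.n → ∀ b,
    |fderiv ℝ (f.lc.T j b) z u| ≤ Kb * (f.qc j).ind (f.lc.Vj j z)
  Cs_bd : ∀ x, deriv st x ≤ Cs
  β_pos : 0 < f.β
  β_le : f.β ≤ 1
  L1_ge : 2 * Lb * (‖f.B.V‖ + ‖f.B.J‖) * (f.M2 + ‖f.B.one‖) ≤ L1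
  ρ0_ge : 2 * ϑ + 2 * Lb * (‖f.B.V‖ + ‖f.B.J‖) * (‖f.B.one‖ * ϑ * (‖f.B.V‖ * R)) +
    4 * f.C1 * Cs / f.B.H ≤ ρ0
  Ex_smooth : ContDiff ℝ 2 f.Ex
  Th_smooth : ContDiff ℝ 2 f.Th
  Ex_bd : ∀ t, -1 ≤ t → 1 ≤ f.Ex t ∧ f.Ex t ≤ Emax
  Ex_der : ∀ t, 0 ≤ deriv f.Ex t ∧ (t ≤ 5 * f.B.H → L1 * f.Ex t ≤ deriv f.Ex t)
  Th_nonneg : ∀ t, -1 ≤ t → 0 ≤ f.Th t
  Th_der : ∀ t, Emax * ((if t ≤ 5 * f.B.H then ρ0 else 0) + ∑ j ∈ Finset.Ico f.m f.n,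
    (if t ≤ 4 * (f.qa j).H then 8 * (f.qa j).eta + 2 * f.β * Kb else 0)) ≤ deriv f.Th t
  hi_le : 10 * hi ≤ f.B.H
  r_pos : 0 < r
  r_le : r ≤ f.ω
  r_leA : ∀ j, f.m ≤ j → j < f.n → r ≤ f.β * f.la.r j
  r_leC : ∀ j, f.m ≤ j → j < f.n → r ≤ f.β * f.lc.r j

/-- nearly minimal member of the family -/
def NearMin (r : ℝ) (md : Bool) (ba bc : ℕ → Bool) (z : f.L.E) : Prop :=
  ∀ md' ba' bc', f.Phi md ba bc z ≤ f.Phi md' ba' bc' z + r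

end FD

/-! ### The world -/

/-- the inverse sequence of systems with all properties used by the topological part -/
structure World : Type 1 where
  W : ℕ → Sys
  pr : ∀ m n : ℕ, (W n).E →L[ℝ] (W m).E
  Cpl : ∀ m k : ℕ, ℝ → ((W k).E →L[ℝ] (W m).E) → Prop
  d : ℕ → ℝ
  e : ℕ → ℝ
  good : ∀ n, (W n).Good
  pr_id : ∀ n z, pr n n z = z
  pr_comp : ∀ m k n, m ≤ k → k ≤ n → ∀ z, pr m k (pr k n z) = pr m n z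
  mor : ∀ m n, m ≤ n → Mor (W m) 1 (W n) (pr m n)
  H0 : 10 ≤ (W 0).H
  H_grow : ∀ n, 10 * (W n).H ≤ (W (n + 1)).H
  start : ∃ Z a b, (W 0).Adm Z a b ∧ a ≤ b - 2 ∧ (W 0).V (Z (b - 2)) < (W 0).H
  ctr : ∀ n, ∃ c, (W (n + 1)).HasCtr c ∧ pr n (n + 1) c = 0
  lift : ∀ n (Z : ℝ → (W (n + 1)).E) (Y : ℝ → (W n).E) (a b e T : ℝ), a ≤ b → b ≤ e →
    IsTraj (W (n + 1)).K Z a b → Z a = (W (n + 1)).far T → 3 * (W (n + 1)).H ≤ T → e - a ≤ T →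
    IsTraj (W n).K Y b e → pr n (n + 1) (Z b) = Y b →
    ∃ (Z' : ℝ → (W (n + 1)).E) (φ : ℝ → ℝ), (∀ s, s ≤ b → Z' s = Z s) ∧
      IsTraj (W (n + 1)).K Z' a e ∧ φ b = b ∧
      (∀ s t, b ≤ s → s ≤ t → t ≤ e → φ s ≤ φ t ∧ φ t - φ s ≤ t - s) ∧
      ∀ s, b ≤ s → s ≤ e → s - (1 / 2) ^ n ≤ φ s ∧ pr n (n + 1) (Z' s) = Y (φ s)
  gate : ∀ m, ∃ F : ℕ → ((W m).E →L[ℝ] ℝ), (∀ z, (∀ i, F i z = 0) → z = 0) ∧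
    ∀ (i : ℕ) (τ lo hi gap : ℚ), 0 < gap → (τ : ℝ) < (W m).H → lo < hi →
      ∃ n, m ≤ n ∧ ∃ Yc : (W n).E →L[ℝ] ℝ, ∀ Z a b, (W n).Adm Z a b →
        (W m).V (pr m n (Z b)) ≤ (τ : ℝ) - gap → Yc (Z b) ≠ 0 ∧
          ∀ s ∈ Icc a b, (W m).V (pr m n (Z s)) = τ →
            (F i (pr m n (Z s)) ≤ lo → 0 < Yc (Z b)) ∧ ((hi : ℝ) ≤ F i (pr m n (Z s)) → Yc (Z b) < 0)
  d_pos : ∀ k, 0 < d k
  d_le : ∀ k, d k ≤ 1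
  e_le : ∀ k, e k ≤ (1 / 2) ^ k
  e_small : ∀ k (v : (W k).E), ‖v‖ ≤ e k → ‖(W k).J v‖ ≤ d k / 4 ∧ 2 * |(W k).V v| ≤ d k / 4
  cpl_mor : ∀ m k γ φ, Cpl m k γ φ → m < k ∧ Mor (W m) γ (W k) φ
  off : ∀ (k : ℕ) (γ : ℚ), 1 / 3 ≤ (γ : ℝ) → (γ : ℝ) ≤ 3 → ∀ w P, (W k).TPath w P →
    ∃ δ : ℝ, 0 < δ ∧ ∀ i0, ∃ i, i0 ≤ i ∧ k ≤ i ∧ ∃ ψ : (W (i + 1)).E →L[ℝ] (W k).E,
      Cpl k (i + 1) γ ψ ∧ ∀ Z a b, (W (i + 1)).Adm Z a b →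
        (∀ s ∈ Icc a b, (W i).V (pr i (i + 1) (Z s)) - (W (i + 1)).V (Z s) ≤ δ) →
        ∀ s ∈ Icc a b, ‖ψ (Z s) - P ((W (i + 1)).V (Z s) / γ)‖ ≤ e k
  on : ∀ (m k : ℕ) (γ' : ℝ) (φ : (W k).E →L[ℝ] (W m).E), Cpl m k γ' φ →
    ∀ γ : ℚ, 1 / 3 ≤ (γ : ℝ) → (γ : ℝ) ≤ 3 → |γ * γ' - 1| ≤ d m → ∀ w P, (W k).TPath w P →
    ∃ δ : ℝ, 0 < δ ∧ ∀ i0, ∃ i, i0 ≤ i ∧ k ≤ i ∧ ∃ ψ : (W (i + 1)).E →L[ℝ] (W k).E,
      Cpl k (i + 1) γ ψ ∧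
      (∀ Z a b, (W (i + 1)).Adm Z a b → ∀ s ∈ Icc a b,
        (W m).Close ((1 / 2) ^ m) (pr m (i + 1) (Z s)) (φ (ψ (Z s)))) ∧
      ∀ Z a b, (W (i + 1)).Adm Z a b →
        (∀ s ∈ Icc a b, (W i).V (pr i (i + 1) (Z s)) - (W (i + 1)).V (Z s) ≤ δ) →
        (∀ s ∈ Icc a b, (W m).Dev (γ * γ') (pr m (i + 1) (Z s))
          (φ (P ((W (i + 1)).V (Z s) / γ))) (d m)) →
        ∀ s ∈ Icc a b, ‖ψ (Z s) - P ((W (i + 1)).V (Z s) / γ)‖ ≤ e k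

/-- lowest level of a track -/
def vm {E : Type} [NormedAddCommGroup E] (x : NonemptyCompacts (ℝ × E)) : ℝ :=
  sInf (Prod.fst '' (x : Set (ℝ × E)))

open Classical in
/-- push forward of tracks -/
def push (B T : Sys) (π : T.E →L[ℝ] B.E) (x : NonemptyCompacts (ℝ × T.E)) :
    NonemptyCompacts (ℝ × B.E) :=
  if h : ∃ y : NonemptyCompacts (ℝ × B.E), ∃ Z a b, T.Adm Z a b ∧
      (x : Set (ℝ × T.E)) = T.trk Z (Icc a b) ∧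
      (y : Set (ℝ × B.E)) = B.trk (fun s => π (Z s)) (Icc a b)
  then h.choose else ⟨⟨{(B.H, 0)}, isCompact_singleton⟩, singleton_nonempty _⟩

namespace World

variable (Wd : World)

/-- ambient product -/
abbrev Amb : Type := ∀ n : ℕ, NonemptyCompacts (ℝ × (Wd.W n).E)

/-- the inverse limit as a set -/
def XS : Set Wd.Amb :=
  {x | (∀ n, x n ∈ (Wd.W n).Y) ∧ ∀ m n, m ≤ n → push (Wd.W m) (Wd.W n) (Wd.pr m n) (x n) = x m}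

/-- the dendroid -/
abbrev X : Type := ↥Wd.XS

/-- the order -/
def le (x y : Wd.X) : Prop := ∀ n, (x.1 n : Set (ℝ × (Wd.W n).E)) ⊆ y.1 n

/-- the root as an element of the ambient product -/
def rootAmb : Wd.Amb := fun n => ⟨⟨{((Wd.W n).H, 0)}, isCompact_singleton⟩, singleton_nonempty _⟩

/-- height function -/
def U (x : Wd.X) : ℝ := ∑' n : ℕ, (1 / 2 : ℝ) ^ n * (1 - vm (x.1 n) / (Wd.W n).H)

/-- compatible family of true time paths -/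
structure Fam (w : ℝ) (P : ∀ n, ℝ → (Wd.W n).E) : Prop where
  path : ∀ n, (Wd.W n).TPath w (P n)
  compat : ∀ m n, m ≤ n → ∀ t, Wd.pr m n (P n t) = P m t
  tail : Tendsto (fun n => (Wd.W n).V (P n w)) atTop (𝓝 w)

/-- representation of a point by true time paths -/
def Rep (x : Wd.X) (w : ℝ) (P : ∀ n, ℝ → (Wd.W n).E) : Prop :=
  Wd.Fam w P ∧ ∀ n, (x.1 n : Set (ℝ × (Wd.W n).E)) = (Wd.W n).trk (P n) (Ici w)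

end World

/-! ### Abstract order data -/

/-- order theoretic data that give the statement -/
structure TreeData (X : Type) [TopologicalSpace X] (le : X → X → Prop) (p : X) (U : X → ℝ) :
    Prop where
  refl : ∀ x, le x x
  trans : ∀ x y z, le x y → le y z → le x z
  antisymm : ∀ x y, le x y → le y x → x = y
  closed : IsClosed {q : X × X | le q.1 q.2}
  root : ∀ x, le p x
  U_cont : Continuous U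
  U_mono : ∀ x y, le x y → x ≠ y → U x < U y
  chain : ∀ x y z, le y x → le z x → le y z ∨ le z y
  conn : ∀ x, IsPreconnected {y | le y x}
  least : ∀ C : Set X, IsClosed C → IsConnected C → ∃ m ∈ C, ∀ x ∈ C, le m x
  nontriv : ∃ x, x ≠ p
  branch : ∀ x, x ≠ p → ∃ u u', u ≠ p ∧ le u u' ∧ le u' x ∧ u' ≠ x ∧
    ∀ N ∈ 𝓝 x, ∃ z ∈ N, le u z ∧ ∀ c, le c z → le c x → le c u'
  transE : ∀ x y, (∀ z, le x z → z = x) → (∀ z, le y z → z = y) → ∃ h : X ≃ₜ X, h x = y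
  transR : ∀ x y, x ≠ p → y ≠ p → (∃ z, le x z ∧ z ≠ x) → (∃ z, le y z ∧ z ≠ y) →
    ∃ h : X ≃ₜ X, h x = y

end Pool.Agent.MP703675
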