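import Pool.Agent.Lib.MP_703675_gt.TowerB

set_option autoImplicit false

open Set Metric Filter Topology TopologicalSpace

noncomputable section

namespace Pool.Agent.MP703675

namespace FD

variable (f : FD)

def de (κ : f.L.E) : ℝ := f.θ * f.B.V (f.zc κ) - f.B.V (f.za κ)
def dTa (j : ℕ) (b : Bool) (z κ : f.L.E) : ℝ := fderiv ℝ (f.la.T j b) (f.pa z) (f.pa κ)
def dTc (j : ℕ) (b : Bool) (z κ : f.L.E) : ℝ := fderiv ℝ (f.lc.T j b) (f.pc z) (f.pc κ)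
def dnear (ba bc : ℕ → Bool) (z κ : f.L.E) : ℝ :=
  f.e z / Real.sqrt (f.ν ^ 2 + f.e z ^ 2) * f.de κ + 2 * ∑ j ∈ Finset.Ico f.m f.n,
    (st (f.hp j (bc j) z / f.ct j - 1) *
        (f.lc.Dj j (f.pc κ) + f.dTc j (bc j) z κ - f.la.Dj j (f.pa κ)) +
      st (f.hm j (ba j) z / f.ct j - 1) *
        (f.la.Dj j (f.pa κ) + f.dTa j (ba j) z κ - f.lc.Dj j (f.pc κ)))
def dTsum (ba bc : ℕ → Bool) (z κ : f.L.E) : ℝ :=
  ∑ j ∈ Finset.Ico f.m f.n, (f.dTa j (ba j) z κ + f.dTc j (bc j) z κ)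
def dO (ba bc : ℕ → Bool) (z κ : f.L.E) : ℝ :=
  ∑ j ∈ Finset.Ico f.m f.n, (f.la.Dj j (f.pa κ) + f.dTa j (ba j) z κ) +
    ∑ j ∈ Finset.Ico f.m f.n, (f.lc.Dj j (f.pc κ) + f.dTc j (bc j) z κ)
def dfar (ba bc : ℕ → Bool) (z κ : f.L.E) : ℝ :=
  st ((f.e z + f.Osum ba bc z) / f.ω - 1) * (f.de κ + f.dO ba bc z κ) +
    st ((-f.e z + f.Osum ba bc z) / f.ω - 1) * (-f.de κ + f.dO ba bc z κ)
def dcr (z κ : f.L.E) : ℝ :=
  f.C1 * (2 * (deriv st ((f.B.V (f.za z) - 42 / 10 * f.B.H) / (6 / 10 * f.B.H)) *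
    (f.B.V (f.za κ) / (6 / 10 * f.B.H))))
def dbr (md : Bool) (ba bc : ℕ → Bool) (z κ : f.L.E) : ℝ :=
  fderiv ℝ f.N (f.eJ z) (f.eJ κ) / f.M2 +
    (if md then f.dnear ba bc z κ + f.dcr z κ else f.dfar ba bc z κ - f.dcr z κ) +
    f.β * f.dTsum ba bc z κ

end FD

variable {f : FD} {ϑ sa sc M' R Lb Bk Kb Cs L1 ρ0 Emax hi r : ℝ}

section HD

variable {E : Type} [NormedAddCommGroup E] [NormedSpace ℝ E]

/-- differentiable with a given directional derivative -/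
def famA_HD (F : E → ℝ) (z κ : E) (d : ℝ) : Prop :=
  DifferentiableAt ℝ F z ∧ fderiv ℝ F z κ = d

variable {F G : E → ℝ} {z κ : E} {d d' : ℝ}

theorem famA_HD.add (h : famA_HD F z κ d) (h' : famA_HD G z κ d') :
    famA_HD (fun x => F x + G x) z κ (d + d') :=
  ⟨h.1.add h'.1, by rw [fderiv_fun_add h.1 h'.1]; simp [h.2, h'.2]⟩

theorem famA_HD.sub (h : famA_HD F z κ d) (h' : famA_HD G z κ d') :
    famA_HD (fun x => F x - G x) z κ (d - d') :=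
  ⟨h.1.sub h'.1, by rw [fderiv_fun_sub h.1 h'.1]; simp [h.2, h'.2]⟩

theorem famA_HD.neg (h : famA_HD F z κ d) : famA_HD (fun x => -F x) z κ (-d) :=
  ⟨h.1.neg, by rw [fderiv_fun_neg]; simp [h.2]⟩

theorem famA_HD.mul (h : famA_HD F z κ d) (h' : famA_HD G z κ d') :
    famA_HD (fun x => F x * G x) z κ (F z * d' + G z * d) :=
  ⟨h.1.mul h'.1, by rw [fderiv_fun_mul h.1 h'.1]; simp [h.2, h'.2]⟩

theorem famA_HD_const (c : ℝ) : famA_HD (fun _ : E => c) z κ 0 :=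
  ⟨differentiableAt_const c, by simp⟩

theorem famA_HD.of_eq (h : famA_HD F z κ d) (e : d = d') : famA_HD F z κ d' := e ▸ h

theorem famA_HD.scomp {g : ℝ → ℝ} {g' : ℝ} (h : famA_HD F z κ d) (hg : HasDerivAt g g' (F z)) :
    famA_HD (fun x => g (F x)) z κ (g' * d) := by
  have := hg.comp_hasFDerivAt z h.1.hasFDerivAt
  refine ⟨this.differentiableAt, ?_⟩
  have e := this.fderiv
  simp only [Function.comp_def] at e
  rw [e]; simp [h.2]

theorem famA_HD.const_mul (c : ℝ) (h : famA_HD F z κ d) :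
    famA_HD (fun x => c * F x) z κ (c * d) :=
  ((famA_HD_const c).mul h).of_eq (by ring)

theorem famA_HD.div_const (c : ℝ) (h : famA_HD F z κ d) :
    famA_HD (fun x => F x / c) z κ (d / c) := by
  have := h.const_mul c⁻¹
  simp only [div_eq_inv_mul]
  exact this

theorem famA_HD_sum {ι : Type} (s : Finset ι) {F : ι → E → ℝ} {d : ι → ℝ}
    (h : ∀ i ∈ s, famA_HD (F i) z κ (d i)) :
    famA_HD (fun x => ∑ i ∈ s, F i x) z κ (∑ i ∈ s, d i) := by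
  refine ⟨DifferentiableAt.fun_sum fun i hi => (h i hi).1, ?_⟩
  rw [fderiv_fun_sum fun i hi => (h i hi).1, sum_apply]
  exact Finset.sum_congr rfl fun i hi => (h i hi).2

theorem famA_HD_comp {M : Type} [NormedAddCommGroup M] [NormedSpace ℝ M] {g : M → ℝ}
    (π : E →L[ℝ] M) (hg : DifferentiableAt ℝ g (π z)) :
    famA_HD (fun x => g (π x)) z κ (fderiv ℝ g (π z) (π κ)) := by
  have := hg.hasFDerivAt.comp z π.hasFDerivAt
  refine ⟨this.differentiableAt, ?_⟩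
  have e := this.fderiv
  simp only [Function.comp_def] at e
  rw [e]; simp

theorem famA_HD_lin (π : E →L[ℝ] ℝ) : famA_HD (fun x => π x) z κ (π κ) :=
  ⟨π.differentiableAt, by rw [π.fderiv]⟩

end HD

theorem famA_e_smooth (f : FD) : ContDiff ℝ 2 f.e := by
  unfold FD.e FD.za FD.zc
  fun_prop

theorem famA_lev (H : f.Hyp ϑ sa sc M' R Lb Bk Kb Cs L1 ρ0 Emax hi r) {j : ℕ}
    (hj : j ∈ Finset.Ico f.m f.n) : 0 < (f.qa j).c ∧ 0 < (f.qc j).c ∧ 0 < (f.qa j).cap ∧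
      0 < (f.qc j).cap ∧
      (f.qa j).cap + (f.qa j).c + ((f.qc j).cap + (f.qc j).c) ≤ 4 * (f.qa j).w := by
  obtain ⟨h1, h2⟩ := Finset.mem_Ico.1 hj
  have ga := H.towA.pgood j h1 h2
  have gc := H.towC.pgood j h1 h2
  obtain ⟨g, -, hg, e⟩ := H.rel j h1 h2
  have a := ga.c_le_w
  have b := gc.c_le_w
  have c : (f.qc j).w ≤ 3 * (f.qa j).w := by
    rw [e, Par.scale_w]
    exact mul_le_mul_of_nonneg_right hg ga.w_pos.le
  exact ⟨ga.c_pos, gc.c_pos, ga.cap_pos, gc.cap_pos, by linarith⟩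

theorem famA_ct_pos (H : f.Hyp ϑ sa sc M' R Lb Bk Kb Cs L1 ρ0 Emax hi r) {j : ℕ}
    (hj : j ∈ Finset.Ico f.m f.n) : 0 < f.ct j :=
  add_pos (famA_lev H hj).1 (famA_lev H hj).2.1

theorem famA_om_pos (H : f.Hyp ϑ sa sc M' R Lb Bk Kb Cs L1 ρ0 Emax hi r) : 0 < f.ω := by
  rw [H.ω_eq]; linarith [H.ϑ_pos]

theorem famA_sum_le (H : f.Hyp ϑ sa sc M' R Lb Bk Kb Cs L1 ρ0 Emax hi r) {g : ℕ → ℝ}
    (hg : ∀ j ∈ Finset.Ico f.m f.n, g j ≤ 4 * (f.qa j).w) :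
    ∑ j ∈ Finset.Ico f.m f.n, g j ≤ f.ω := by
  refine (Finset.sum_le_sum hg).trans ?_
  rw [← Finset.mul_sum, H.ω_eq]
  linarith [H.wsum]

theorem famA_pt (H : f.Hyp ϑ sa sc M' R Lb Bk Kb Cs L1 ρ0 Emax hi r) {z : f.L.E}
    (hz : z ∈ f.L.Om) {j : ℕ} (hj : j ∈ Finset.Ico f.m f.n) (b b' : Bool) :
    (-(f.qa j).c ≤ f.la.Dj j (f.pa z) ∧ f.la.Dj j (f.pa z) ≤ (f.qa j).cap) ∧
    (-(f.qc j).c ≤ f.lc.Dj j (f.pc z) ∧ f.lc.Dj j (f.pc z) ≤ (f.qc j).cap) ∧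
    (0 ≤ f.la.T j b (f.pa z) ∧ f.la.T j b (f.pa z) ≤ (f.qa j).c) ∧
    (0 ≤ f.lc.T j b' (f.pc z) ∧ f.lc.T j b' (f.pc z) ≤ (f.qc j).c) := by
  obtain ⟨h1, h2⟩ := Finset.mem_Ico.1 hj
  exact ⟨H.towA.D_bd _ (H.mapA z hz) j h1 h2, H.towC.D_bd _ (H.mapC z hz) j h1 h2,
    H.towA.T_bd _ (H.mapA z hz) j h1 h2 b, H.towC.T_bd _ (H.mapC z hz) j h1 h2 b'⟩

theorem famA_Tsum_smooth (H : f.Hyp ϑ sa sc M' R Lb Bk Kb Cs L1 ρ0 Emax hi r)
    (ba bc : ℕ → Bool) : ContDiff ℝ 2 (f.Tsum ba bc) := by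
  unfold FD.Tsum
  exact ContDiff.sum fun j _ => ((H.towA.smooth j _).comp f.pa.contDiff).add
    ((H.towC.smooth j _).comp f.pc.contDiff)

theorem famA_Osum_smooth (H : f.Hyp ϑ sa sc M' R Lb Bk Kb Cs L1 ρ0 Emax hi r)
    (ba bc : ℕ → Bool) : ContDiff ℝ 2 (f.Osum ba bc) := by
  unfold FD.Osum
  exact (ContDiff.sum fun j _ => ((f.la.Dj j).contDiff.comp f.pa.contDiff).add
    ((f.lc.Dj j).contDiff.comp f.pc.contDiff)).add (famA_Tsum_smooth H ba bc)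

theorem famA_near_smooth (H : f.Hyp ϑ sa sc M' R Lb Bk Kb Cs L1 ρ0 Emax hi r)
    (ba bc : ℕ → Bool) : ContDiff ℝ 2 (f.near ba bc) := by
  unfold FD.near FD.hp FD.hm
  have he := famA_e_smooth f
  refine ContDiff.add (ContDiff.sqrt (contDiff_const.add (he.pow 2)) fun x => ?_)
    (contDiff_const.mul (ContDiff.sum fun j _ => ContDiff.add ?_ ?_))
  · have := H.ν_pos
    positivity
  · exact (psi_smooth _ 2).comp ((((f.lc.Dj j).contDiff.comp f.pc.contDiff).add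
      ((H.towC.smooth j _).comp f.pc.contDiff)).sub ((f.la.Dj j).contDiff.comp f.pa.contDiff))
  · exact (psi_smooth _ 2).comp ((((f.la.Dj j).contDiff.comp f.pa.contDiff).add
      ((H.towA.smooth j _).comp f.pa.contDiff)).sub ((f.lc.Dj j).contDiff.comp f.pc.contDiff))

theorem famA_far_smooth (H : f.Hyp ϑ sa sc M' R Lb Bk Kb Cs L1 ρ0 Emax hi r)
    (ba bc : ℕ → Bool) : ContDiff ℝ 2 (f.farP ba bc) := by
  unfold FD.farP
  have he := famA_e_smooth f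
  have hO := famA_Osum_smooth H ba bc
  exact ((psi_smooth _ 2).comp (he.add hO)).add ((psi_smooth _ 2).comp (he.neg.add hO))

theorem famA_cr_smooth (f : FD) : ContDiff ℝ 2 f.cr := by
  unfold FD.cr FD.za
  refine contDiff_const.mul ((contDiff_const.mul ((st_smooth 2).comp ?_)).sub contDiff_const)
  fun_prop

theorem famA_br_smooth (H : f.Hyp ϑ sa sc M' R Lb Bk Kb Cs L1 ρ0 Emax hi r) (md : Bool)
    (ba bc : ℕ → Bool) : ContDiff ℝ 2 (f.br md ba bc) := by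
  unfold FD.br
  have hJ : ContDiff ℝ 2 f.eJ := by
    unfold FD.eJ FD.za FD.zc
    fun_prop
  refine ((((H.N_smooth.comp hJ).div_const _).add ?_).add contDiff_const).add
    (contDiff_const.mul (famA_Tsum_smooth H ba bc))
  cases md
  · exact (famA_far_smooth H ba bc).sub (famA_cr_smooth f)
  · exact (famA_near_smooth H ba bc).add (famA_cr_smooth f)

theorem fam_smooth (H : f.Hyp ϑ sa sc M' R Lb Bk Kb Cs L1 ρ0 Emax hi r) (md : Bool)
    (ba bc : ℕ → Bool) : ContDiff ℝ 2 (f.Phi md ba bc) := by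
  unfold FD.Phi
  exact ((H.Ex_smooth.comp f.L.V.contDiff).mul (famA_br_smooth H md ba bc)).add
    (H.Th_smooth.comp f.L.V.contDiff)

theorem famA_HD_e (f : FD) (z κ : f.L.E) : famA_HD f.e z κ (f.de κ) :=
  ((famA_HD_lin ((f.B.V.comp f.fc).comp f.pc)).const_mul f.θ).sub
    (famA_HD_lin ((f.B.V.comp f.fa).comp f.pa))

theorem famA_HD_Ta (H : f.Hyp ϑ sa sc M' R Lb Bk Kb Cs L1 ρ0 Emax hi r) (j : ℕ) (b : Bool)
    (z κ : f.L.E) : famA_HD (fun x => f.la.T j b (f.pa x)) z κ (f.dTa j b z κ) :=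
  famA_HD_comp f.pa ((H.towA.smooth j b).differentiable (by norm_num) _)

theorem famA_HD_Tc (H : f.Hyp ϑ sa sc M' R Lb Bk Kb Cs L1 ρ0 Emax hi r) (j : ℕ) (b : Bool)
    (z κ : f.L.E) : famA_HD (fun x => f.lc.T j b (f.pc x)) z κ (f.dTc j b z κ) :=
  famA_HD_comp f.pc ((H.towC.smooth j b).differentiable (by norm_num) _)

theorem famA_HD_Da (f : FD) (j : ℕ) (z κ : f.L.E) :
    famA_HD (fun x => f.la.Dj j (f.pa x)) z κ (f.la.Dj j (f.pa κ)) :=
  famA_HD_lin ((f.la.Dj j).comp f.pa)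

theorem famA_HD_Dc (f : FD) (j : ℕ) (z κ : f.L.E) :
    famA_HD (fun x => f.lc.Dj j (f.pc x)) z κ (f.lc.Dj j (f.pc κ)) :=
  famA_HD_lin ((f.lc.Dj j).comp f.pc)

theorem famA_HD_Tsum (H : f.Hyp ϑ sa sc M' R Lb Bk Kb Cs L1 ρ0 Emax hi r) (ba bc : ℕ → Bool)
    (z κ : f.L.E) : famA_HD (f.Tsum ba bc) z κ (f.dTsum ba bc z κ) :=
  famA_HD_sum _ fun j _ => (famA_HD_Ta H j _ z κ).add (famA_HD_Tc H j _ z κ)

theorem famA_HD_Osum (H : f.Hyp ϑ sa sc M' R Lb Bk Kb Cs L1 ρ0 Emax hi r) (ba bc : ℕ → Bool)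
    (z κ : f.L.E) : famA_HD (f.Osum ba bc) z κ (f.dO ba bc z κ) := by
  refine ((famA_HD_sum _ fun j _ => (famA_HD_Da f j z κ).add (famA_HD_Dc f j z κ)).add
    (famA_HD_Tsum H ba bc z κ)).of_eq ?_
  simp only [FD.dO, FD.dTsum, Finset.sum_add_distrib]
  ring

theorem famA_HD_near (H : f.Hyp ϑ sa sc M' R Lb Bk Kb Cs L1 ρ0 Emax hi r) (ba bc : ℕ → Bool)
    (z κ : f.L.E) : famA_HD (f.near ba bc) z κ (f.dnear ba bc z κ) := by
  have hν := H.ν_pos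
  have hpos : f.ν ^ 2 + f.e z ^ 2 ≠ 0 := by positivity
  have h1 : HasDerivAt (fun t : ℝ => Real.sqrt (f.ν ^ 2 + t ^ 2))
      (f.e z / Real.sqrt (f.ν ^ 2 + f.e z ^ 2)) (f.e z) := by
    have := ((hasDerivAt_pow 2 (f.e z)).const_add (f.ν ^ 2)).sqrt hpos
    refine this.congr_deriv ?_
    have h2 : Real.sqrt (f.ν ^ 2 + f.e z ^ 2) ≠ 0 := by positivity
    field_simp
    norm_num
  exact ((famA_HD_e f z κ).scomp h1).add (famA_HD.const_mul 2 (famA_HD_sum _ fun j hj =>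
    ((((famA_HD_Dc f j z κ).add (famA_HD_Tc H j _ z κ)).sub (famA_HD_Da f j z κ)).scomp
      (psi_hasDerivAt (famA_ct_pos H hj) _)).add
    ((((famA_HD_Da f j z κ).add (famA_HD_Ta H j _ z κ)).sub (famA_HD_Dc f j z κ)).scomp
      (psi_hasDerivAt (famA_ct_pos H hj) _))))

theorem famA_HD_far (H : f.Hyp ϑ sa sc M' R Lb Bk Kb Cs L1 ρ0 Emax hi r) (ba bc : ℕ → Bool)
    (z κ : f.L.E) : famA_HD (f.farP ba bc) z κ (f.dfar ba bc z κ) :=
  (((famA_HD_e f z κ).add (famA_HD_Osum H ba bc z κ)).scomp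
    (psi_hasDerivAt (famA_om_pos H) _)).add
  (((famA_HD_e f z κ).neg.add (famA_HD_Osum H ba bc z κ)).scomp
    (psi_hasDerivAt (famA_om_pos H) _))

theorem famA_HD_cr (f : FD) (z κ : f.L.E) : famA_HD f.cr z κ (f.dcr z κ) := by
  refine (famA_HD.const_mul f.C1 ((famA_HD.const_mul 2 ((famA_HD.div_const (6 / 10 * f.B.H)
    ((famA_HD_lin ((f.B.V.comp f.fa).comp f.pa)).sub (famA_HD_const (42 / 10 * f.B.H)))).scomp
      (st_hasDerivAt _))).sub (famA_HD_const 1))).of_eq ?_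
  simp only [FD.dcr, FD.za, sub_zero, ContinuousLinearMap.comp_apply]

theorem famA_HD_br (H : f.Hyp ϑ sa sc M' R Lb Bk Kb Cs L1 ρ0 Emax hi r) (md : Bool)
    (ba bc : ℕ → Bool) (z κ : f.L.E) : famA_HD (f.br md ba bc) z κ (f.dbr md ba bc z κ) := by
  have hN : famA_HD (fun x => f.N (f.eJ x)) z κ (fderiv ℝ f.N (f.eJ z) (f.eJ κ)) :=
    famA_HD_comp ((f.B.J.comp f.fa).comp f.pa - (f.B.J.comp f.fc).comp f.pc)
      (H.N_smooth.differentiable (by norm_num) _)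
  cases md
  · exact (((((hN.div_const f.M2).add ((famA_HD_far H ba bc z κ).sub (famA_HD_cr f z κ))).add
      (famA_HD_const f.C1)).add ((famA_HD_Tsum H ba bc z κ).const_mul f.β))).of_eq
      (by simp [FD.dbr])
  · exact (((((hN.div_const f.M2).add ((famA_HD_near H ba bc z κ).add (famA_HD_cr f z κ))).add
      (famA_HD_const f.C1)).add ((famA_HD_Tsum H ba bc z κ).const_mul f.β))).of_eq
      (by simp [FD.dbr])

theorem fam_fderiv (H : f.Hyp ϑ sa sc M' R Lb Bk Kb Cs L1 ρ0 Emax hi r) (md : Bool)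
    (ba bc : ℕ → Bool) (z κ : f.L.E) : fderiv ℝ (f.Phi md ba bc) z κ =
      (deriv f.Ex (f.L.V z) * f.br md ba bc z + deriv f.Th (f.L.V z)) * f.L.V κ +
        f.Ex (f.L.V z) * f.dbr md ba bc z κ := by
  have h1 := (famA_HD_lin (z := z) (κ := κ) f.L.V).scomp
    (H.Ex_smooth.differentiable (by norm_num) (f.L.V z)).hasDerivAt
  have h2 := (famA_HD_lin (z := z) (κ := κ) f.L.V).scomp
    (H.Th_smooth.differentiable (by norm_num) (f.L.V z)).hasDerivAt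
  have h3 := ((h1.mul (famA_HD_br H md ba bc z κ)).add h2).2
  refine Eq.trans h3 ?_
  ring

theorem fam_congr (f : FD) (md : Bool) {ba bc ba' bc' : ℕ → Bool} (h1 : ∀ j, j < f.n → ba' j = ba j)
    (h2 : ∀ j, j < f.n → bc' j = bc j) : f.Phi md ba' bc' = f.Phi md ba bc := by
  have hT : f.Tsum ba' bc' = f.Tsum ba bc := by
    funext z
    exact Finset.sum_congr rfl fun j hj => by
      rw [h1 j (Finset.mem_Ico.1 hj).2, h2 j (Finset.mem_Ico.1 hj).2]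
  have hn : f.near ba' bc' = f.near ba bc := by
    funext z
    unfold FD.near
    rw [Finset.sum_congr rfl fun j hj => by
      rw [h1 j (Finset.mem_Ico.1 hj).2, h2 j (Finset.mem_Ico.1 hj).2]]
  funext z
  simp only [FD.Phi, FD.br, FD.farP, FD.Osum, hT, hn]

theorem fam_M2_ge (H : f.Hyp ϑ sa sc M' R Lb Bk Kb Cs L1 ρ0 Emax hi r) : M' ≤ f.M2 := by
  rw [H.M2_eq]
  have h1 : 0 ≤ ‖f.B.J‖ * Bk := mul_nonneg (norm_nonneg _) H.Bk_nonneg
  have h2 : 0 ≤ M' * (‖f.B.J‖ * Bk) := mul_nonneg (by linarith [H.M'_ge]) h1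
  linarith

theorem fam_O_bd (H : f.Hyp ϑ sa sc M' R Lb Bk Kb Cs L1 ρ0 Emax hi r) (ba bc : ℕ → Bool)
    {z : f.L.E} (hz : z ∈ f.L.Om) : |f.Osum ba bc z| ≤ f.ω ∧ 0 ≤ f.Tsum ba bc z ∧
      f.Tsum ba bc z ≤ f.ω := by
  have e : f.Osum ba bc z = ∑ j ∈ Finset.Ico f.m f.n, (f.la.Dj j (f.pa z) + f.lc.Dj j (f.pc z) +
      (f.la.T j (ba j) (f.pa z) + f.lc.T j (bc j) (f.pc z))) := by
    rw [FD.Osum, FD.Tsum, ← Finset.sum_add_distrib]
  refine ⟨abs_le.2 ⟨?_, ?_⟩, Finset.sum_nonneg fun j hj => ?_, famA_sum_le H fun j hj => ?_⟩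
  · rw [e, neg_le, ← Finset.sum_neg_distrib]
    refine famA_sum_le H fun j hj => ?_
    obtain ⟨⟨a1, a2⟩, ⟨a3, a4⟩, ⟨a5, a6⟩, a7, a8⟩ := famA_pt H hz hj (ba j) (bc j)
    obtain ⟨b1, b2, b3, b4, b5⟩ := famA_lev H hj
    linarith
  · rw [e]
    refine famA_sum_le H fun j hj => ?_
    obtain ⟨⟨a1, a2⟩, ⟨a3, a4⟩, ⟨a5, a6⟩, a7, a8⟩ := famA_pt H hz hj (ba j) (bc j)
    obtain ⟨b1, b2, b3, b4, b5⟩ := famA_lev H hj
    linarith
  · obtain ⟨⟨a1, a2⟩, ⟨a3, a4⟩, ⟨a5, a6⟩, a7, a8⟩ := famA_pt H hz hj (ba j) (bc j)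
    linarith
  · obtain ⟨⟨a1, a2⟩, ⟨a3, a4⟩, ⟨a5, a6⟩, a7, a8⟩ := famA_pt H hz hj (ba j) (bc j)
    obtain ⟨b1, b2, b3, b4, b5⟩ := famA_lev H hj
    linarith

theorem fam_near_bd (H : f.Hyp ϑ sa sc M' R Lb Bk Kb Cs L1 ρ0 Emax hi r) (ba bc : ℕ → Bool)
    {z : f.L.E} (hz : z ∈ f.L.Om) : Real.sqrt (f.ν ^ 2 + f.e z ^ 2) ≤ f.near ba bc z ∧
      f.near ba bc z ≤ |f.e z| + f.ν + 4 * f.ω := by
  have hν := H.ν_pos
  have h0 : 0 ≤ ∑ j ∈ Finset.Ico f.m f.n,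
      (psi (f.ct j) (f.hp j (bc j) z) + psi (f.ct j) (f.hm j (ba j) z)) :=
    Finset.sum_nonneg fun j hj =>
      add_nonneg (psi_nonneg (famA_ct_pos H hj) _) (psi_nonneg (famA_ct_pos H hj) _)
  have h1 : ∑ j ∈ Finset.Ico f.m f.n,
      (psi (f.ct j) (f.hp j (bc j) z) + psi (f.ct j) (f.hm j (ba j) z)) ≤ f.ω := by
    refine famA_sum_le H fun j hj => ?_
    obtain ⟨⟨a1, a2⟩, ⟨a3, a4⟩, ⟨a5, a6⟩, a7, a8⟩ := famA_pt H hz hj (ba j) (bc j)
    obtain ⟨b1, b2, b3, b4, b5⟩ := famA_lev H hj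
    have c1 : psi (f.ct j) (f.hp j (bc j) z) ≤ (f.qc j).cap :=
      (psi_le (famA_ct_pos H hj) _).trans (max_le (by unfold FD.hp FD.ct; linarith) b4.le)
    have c2 : psi (f.ct j) (f.hm j (ba j) z) ≤ (f.qa j).cap :=
      (psi_le (famA_ct_pos H hj) _).trans (max_le (by unfold FD.hm FD.ct; linarith) b3.le)
    linarith
  have h2 : Real.sqrt (f.ν ^ 2 + f.e z ^ 2) ≤ |f.e z| + f.ν := by
    refine Real.sqrt_le_iff.2 ⟨by positivity, ?_⟩
    have := mul_nonneg (abs_nonneg (f.e z)) hν.le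
    rw [add_sq, sq_abs]
    linarith
  have := famA_om_pos H
  unfold FD.near
  constructor <;> linarith

theorem fam_far_bd (H : f.Hyp ϑ sa sc M' R Lb Bk Kb Cs L1 ρ0 Emax hi r) (ba bc : ℕ → Bool)
    {z : f.L.E} (hz : z ∈ f.L.Om) : 0 ≤ f.farP ba bc z ∧ |f.e z| - 3 * f.ω ≤ f.farP ba bc z ∧
      f.farP ba bc z ≤ |f.e z| := by
  have hω := famA_om_pos H
  obtain ⟨h1, h2⟩ := abs_le.1 (fam_O_bd H ba bc hz).1
  have a1 := psi_nonneg hω (f.e z + f.Osum ba bc z)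
  have a2 := psi_nonneg hω (-f.e z + f.Osum ba bc z)
  have a3 := psi_ge hω (f.e z + f.Osum ba bc z)
  have a4 := psi_ge hω (-f.e z + f.Osum ba bc z)
  have a5 := psi_le hω (f.e z + f.Osum ba bc z)
  have a6 := psi_le hω (-f.e z + f.Osum ba bc z)
  unfold FD.farP
  refine ⟨by linarith, ?_, ?_⟩
  · rcases abs_cases (f.e z) with h | h <;> linarith [h.1]
  · rcases abs_cases (f.e z) with h | h
    · have b1 := max_le (show f.e z + f.Osum ba bc z - f.ω ≤ f.e z by linarith) h.2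
      have b2 := max_le (show -f.e z + f.Osum ba bc z - f.ω ≤ 0 by linarith [h.2]) le_rfl
      linarith [h.1]
    · have b1 := max_le (show f.e z + f.Osum ba bc z - f.ω ≤ 0 by linarith [h.2]) le_rfl
      have b2 := max_le (show -f.e z + f.Osum ba bc z - f.ω ≤ -f.e z by linarith)
        (show 0 ≤ -f.e z by linarith [h.2])
      linarith [h.1]

theorem famA_C1_pos (H : f.Hyp ϑ sa sc M' R Lb Bk Kb Cs L1 ρ0 Emax hi r) : 0 < f.C1 := by
  unfold FD.C1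
  linarith [famA_om_pos H, H.ν_pos]

theorem fam_cr_bd (H : f.Hyp ϑ sa sc M' R Lb Bk Kb Cs L1 ρ0 Emax hi r) (z : f.L.E) :
    |f.cr z| ≤ f.C1 := by
  have hC := (famA_C1_pos H).le
  unfold FD.cr
  rw [abs_mul, abs_of_nonneg hC]
  refine mul_le_of_le_one_right hC (abs_le.2 ⟨?_, ?_⟩)
  · linarith [st_nonneg ((f.B.V (f.za z) - 42 / 10 * f.B.H) / (6 / 10 * f.B.H))]
  · linarith [st_le_one ((f.B.V (f.za z) - 42 / 10 * f.B.H) / (6 / 10 * f.B.H))]

theorem famA_M2_ge_one (H : f.Hyp ϑ sa sc M' R Lb Bk Kb Cs L1 ρ0 Emax hi r) : 1 ≤ f.M2 :=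
  H.M'_ge.trans (fam_M2_ge H)

theorem famA_N_nonneg (H : f.Hyp ϑ sa sc M' R Lb Bk Kb Cs L1 ρ0 Emax hi r) (z : f.L.E) :
    0 ≤ f.N (f.eJ z) / f.M2 :=
  div_nonneg ((norm_nonneg _).trans (H.N_ge _)) (by linarith [famA_M2_ge_one H])

theorem fam_br_ge (H : f.Hyp ϑ sa sc M' R Lb Bk Kb Cs L1 ρ0 Emax hi r) (md : Bool)
    (ba bc : ℕ → Bool) {z : f.L.E} (hz : z ∈ f.L.Om) :
    f.N (f.eJ z) / f.M2 + (if md then f.near ba bc z else f.farP ba bc z) ≤ f.br md ba bc z ∧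
      0 ≤ f.br md ba bc z ∧ f.br md ba bc z ≤ f.Phi md ba bc z := by
  obtain ⟨c1, c2⟩ := abs_le.1 (fam_cr_bd H z)
  have t1 : 0 ≤ f.β * f.Tsum ba bc z := mul_nonneg H.β_pos.le (fam_O_bd H ba bc hz).2.1
  have hN := famA_N_nonneg H z
  have n1 : 0 ≤ f.near ba bc z := (Real.sqrt_nonneg _).trans (fam_near_bd H ba bc hz).1
  have n2 := (fam_far_bd H ba bc hz).1
  have k1 : f.N (f.eJ z) / f.M2 + (if md then f.near ba bc z else f.farP ba bc z) ≤
      f.br md ba bc z := by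
    unfold FD.br
    cases md <;> simp only [Bool.false_eq_true, if_true, if_false] <;> linarith
  have k2 : 0 ≤ f.br md ba bc z := by
    refine le_trans ?_ k1
    cases md <;> simp only [Bool.false_eq_true, if_true, if_false] <;> linarith
  refine ⟨k1, k2, ?_⟩
  have := mul_le_mul_of_nonneg_right (H.Ex_bd _ (H.V_ge z hz)).1 k2
  have := H.Th_nonneg _ (H.V_ge z hz)
  unfold FD.Phi
  linarith

theorem fam_small (H : f.Hyp ϑ sa sc M' R Lb Bk Kb Cs L1 ρ0 Emax hi r) (md : Bool)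
    (ba bc : ℕ → Bool) {z : f.L.E} (hz : z ∈ f.L.Om) (h : f.Phi md ba bc z ≤ hi) :
    ‖f.eJ z‖ ≤ f.M2 * hi ∧ |f.e z| ≤ hi + 3 * f.ω := by
  obtain ⟨k1, -, k3⟩ := fam_br_ge H md ba bc hz
  have hN := famA_N_nonneg H z
  have hω := famA_om_pos H
  have n0 : |f.e z| ≤ f.near ba bc z := by
    refine le_trans (Real.abs_le_sqrt ?_) (fam_near_bd H ba bc hz).1
    linarith [sq_nonneg f.ν]
  have n1 := abs_nonneg (f.e z)
  obtain ⟨n2, n3, -⟩ := fam_far_bd H ba bc hz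
  have hM : 0 < f.M2 := by linarith [famA_M2_ge_one H]
  constructor
  · have : f.N (f.eJ z) / f.M2 ≤ hi := by
      cases md <;> simp only [Bool.false_eq_true, if_true, if_false] at k1 <;> linarith
    rw [div_le_iff₀ hM, mul_comm] at this
    exact (H.N_ge _).trans this
  · cases md <;> simp only [Bool.false_eq_true, if_true, if_false] at k1 <;> linarith

theorem fam_dev (H : f.Hyp ϑ sa sc M' R Lb Bk Kb Cs L1 ρ0 Emax hi r) (md : Bool)
    (ba bc : ℕ → Bool) {z : f.L.E} (hz : z ∈ f.L.Om) {d : ℝ}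
    (h : f.B.Dev f.θ (f.za z) (f.zc z) d) : f.Phi md ba bc z ≤
      Emax * ((M' + 1) * d + 4 * f.ν + 13 * f.ω) + f.Th (f.L.V z) := by
  obtain ⟨-, k2, -⟩ := fam_br_ge H md ba bc hz
  obtain ⟨c1, c2⟩ := abs_le.1 (fam_cr_bd H z)
  have hω := famA_om_pos H
  have hν := H.ν_pos
  have he : |f.e z| ≤ d := h.2
  have hJ : ‖f.eJ z‖ ≤ d := h.1
  have hN : f.N (f.eJ z) / f.M2 ≤ M' * d + f.ν := by
    refine (div_le_self ((norm_nonneg _).trans (H.N_ge _)) (famA_M2_ge_one H)).trans ?_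
    have := mul_le_mul_of_nonneg_left hJ (show 0 ≤ M' by linarith [H.M'_ge])
    linarith [H.N_le (f.eJ z)]
  have t1 : f.β * f.Tsum ba bc z ≤ f.ω :=
    (mul_le_of_le_one_left (fam_O_bd H ba bc hz).2.1 H.β_le).trans (fam_O_bd H ba bc hz).2.2
  have n1 := (fam_near_bd H ba bc hz).2
  have n2 := (fam_far_bd H ba bc hz).2.2
  have hC : f.C1 = 4 * f.ω + f.ν := rfl
  have k : f.br md ba bc z ≤ (M' + 1) * d + 4 * f.ν + 13 * f.ω := by
    unfold FD.br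
    cases md <;> simp only [Bool.false_eq_true, if_true, if_false] <;> linarith
  obtain ⟨e1, e2⟩ := H.Ex_bd _ (H.V_ge z hz)
  have := mul_le_mul e2 k k2 (by linarith)
  unfold FD.Phi
  linarith

theorem famA_gap (H : f.Hyp ϑ sa sc M' R Lb Bk Kb Cs L1 ρ0 Emax hi r) {md md' : Bool}
    {ba bc ba' bc' : ℕ → Bool} {z : f.L.E} (hz : z ∈ f.L.Om) (h : f.NearMin r md ba bc z) :
    f.br md ba bc z ≤ f.br md' ba' bc' z + r := by
  by_contra hc
  have h1 := h md' ba' bc'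
  have h2 := mul_le_mul_of_nonneg_right (H.Ex_bd _ (H.V_ge z hz)).1
    (show 0 ≤ f.br md ba bc z - f.br md' ba' bc' z by linarith [not_le.1 hc, H.r_pos])
  unfold FD.Phi at h1
  linarith [not_le.1 hc]

theorem famA_flip (H : f.Hyp ϑ sa sc M' R Lb Bk Kb Cs L1 ρ0 Emax hi r) {md : Bool}
    {ba bc ba' bc' : ℕ → Bool} {z : f.L.E} (hz : z ∈ f.L.Om) (h : f.NearMin r md ba bc z)
    (ha : ∀ i ∈ Finset.Ico f.m f.n, f.la.T i (ba' i) (f.pa z) ≤ f.la.T i (ba i) (f.pa z))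
    (hc : ∀ i ∈ Finset.Ico f.m f.n, f.lc.T i (bc' i) (f.pc z) ≤ f.lc.T i (bc i) (f.pc z))
    {ρ : ℝ} (hρ : r ≤ f.β * ρ) (hT : ρ < f.Tsum ba bc z - f.Tsum ba' bc' z) : False := by
  have g := famA_gap (md' := md) (ba' := ba') (bc' := bc') H hz h
  have hω := famA_om_pos H
  have t0 : f.Tsum ba' bc' z ≤ f.Tsum ba bc z :=
    Finset.sum_le_sum fun i hi => add_le_add (ha i hi) (hc i hi)
  have n1 : f.near ba' bc' z ≤ f.near ba bc z := by
    unfold FD.near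
    have : ∑ j ∈ Finset.Ico f.m f.n,
        (psi (f.ct j) (f.hp j (bc' j) z) + psi (f.ct j) (f.hm j (ba' j) z)) ≤
        ∑ j ∈ Finset.Ico f.m f.n,
        (psi (f.ct j) (f.hp j (bc j) z) + psi (f.ct j) (f.hm j (ba j) z)) :=
      Finset.sum_le_sum fun i hi => add_le_add
        (psi_mono (famA_ct_pos H hi) (by unfold FD.hp; linarith [hc i hi]))
        (psi_mono (famA_ct_pos H hi) (by unfold FD.hm; linarith [ha i hi]))
    linarith
  have n2 : f.farP ba' bc' z ≤ f.farP ba bc z := by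
    unfold FD.farP FD.Osum
    exact add_le_add (psi_mono hω (by linarith)) (psi_mono hω (by linarith))
  have t1 := mul_lt_mul_of_pos_left hT H.β_pos
  unfold FD.br at g
  cases md <;> simp only [Bool.false_eq_true, if_true, if_false] at g <;> linarith

/-- Plan: flip one sign with `Function.update`; the potential is monotone in each `T`. -/
theorem fam_valid (H : f.Hyp ϑ sa sc M' R Lb Bk Kb Cs L1 ρ0 Emax hi r) {md : Bool}
    {ba bc : ℕ → Bool} {z : f.L.E} (hz : z ∈ f.L.Om) (h : f.NearMin r md ba bc z) :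
    (∀ j, f.m ≤ j → j < f.n → f.la.valid j (ba j) (f.pa z)) ∧
      ∀ j, f.m ≤ j → j < f.n → f.lc.valid j (bc j) (f.pc z) := by
  constructor
  · intro j h1 h2
    by_contra hv
    unfold LD.valid at hv
    have hj := Finset.mem_Ico.2 ⟨h1, h2⟩
    have hr := H.towA.r_pos j
    have hle : ∀ i ∈ Finset.Ico f.m f.n, f.la.T i (Function.update ba j (!ba j) i) (f.pa z) ≤
        f.la.T i (ba i) (f.pa z) := by
      intro i _
      by_cases e : i = j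
      · subst e; rw [Function.update_self]; linarith [not_le.1 hv]
      · rw [Function.update_of_ne e]
    refine famA_flip H hz h hle (fun _ _ => le_rfl) (H.r_leA j h1 h2) ?_
    unfold FD.Tsum
    rw [← Finset.sum_sub_distrib]
    refine lt_of_lt_of_le ?_ (Finset.single_le_sum (f := fun i => f.la.T i (ba i) (f.pa z) +
      f.lc.T i (bc i) (f.pc z) - (f.la.T i (Function.update ba j (!ba j) i) (f.pa z) +
      f.lc.T i (bc i) (f.pc z))) (fun i hi => by linarith [hle i hi]) hj)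
    simp only [Function.update_self]
    linarith [not_le.1 hv]
  · intro j h1 h2
    by_contra hv
    unfold LD.valid at hv
    have hj := Finset.mem_Ico.2 ⟨h1, h2⟩
    have hr := H.towC.r_pos j
    have hle : ∀ i ∈ Finset.Ico f.m f.n, f.lc.T i (Function.update bc j (!bc j) i) (f.pc z) ≤
        f.lc.T i (bc i) (f.pc z) := by
      intro i _
      by_cases e : i = j
      · subst e; rw [Function.update_self]; linarith [not_le.1 hv]
      · rw [Function.update_of_ne e]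
    refine famA_flip H hz h (fun _ _ => le_rfl) hle (H.r_leC j h1 h2) ?_
    unfold FD.Tsum
    rw [← Finset.sum_sub_distrib]
    refine lt_of_lt_of_le ?_ (Finset.single_le_sum (f := fun i => f.la.T i (ba i) (f.pa z) +
      f.lc.T i (bc i) (f.pc z) - (f.la.T i (ba i) (f.pa z) +
      f.lc.T i (Function.update bc j (!bc j) i) (f.pc z))) (fun i hi => by linarith [hle i hi]) hj)
    simp only [Function.update_self]
    linarith [not_le.1 hv]

theorem fam_near_region (H : f.Hyp ϑ sa sc M' R Lb Bk Kb Cs L1 ρ0 Emax hi r) {ba bc : ℕ → Bool}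
    {z : f.L.E} (hz : z ∈ f.L.Om) (h : f.NearMin r true ba bc z) :
    f.B.V (f.za z) < 48 / 10 * f.B.H := by
  by_contra hc
  have hH := H.goodB.H_pos
  have g := famA_gap (md' := false) (ba' := ba) (bc' := bc) H hz h
  have e : f.cr z = f.C1 := by
    unfold FD.cr
    rw [st_one ((one_le_div (by positivity)).2 (by linarith [not_lt.1 hc]))]
    ring
  have n0 : |f.e z| ≤ f.near ba bc z := by
    refine le_trans (Real.abs_le_sqrt ?_) (fam_near_bd H ba bc hz).1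
    linarith [sq_nonneg f.ν]
  have n2 := (fam_far_bd H ba bc hz).2.2
  have hC : f.C1 = 4 * f.ω + f.ν := rfl
  unfold FD.br at g
  simp only [Bool.false_eq_true, if_true, if_false] at g
  linarith [famA_om_pos H, H.ν_pos, H.r_le]

theorem fam_far_region (H : f.Hyp ϑ sa sc M' R Lb Bk Kb Cs L1 ρ0 Emax hi r) {ba bc : ℕ → Bool}
    {z : f.L.E} (hz : z ∈ f.L.Om) (h : f.NearMin r false ba bc z) :
    42 / 10 * f.B.H < f.B.V (f.za z) := by
  by_contra hc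
  have hH := H.goodB.H_pos
  have g := famA_gap (md' := true) (ba' := ba) (bc' := bc) H hz h
  have e : f.cr z = -f.C1 := by
    unfold FD.cr
    rw [st_zero (div_nonpos_of_nonpos_of_nonneg (by linarith [not_lt.1 hc]) (by positivity))]
    ring
  have n1 := (fam_near_bd H ba bc hz).2
  have n2 := (fam_far_bd H ba bc hz).2.1
  have hC : f.C1 = 4 * f.ω + f.ν := rfl
  unfold FD.br at g
  simp only [Bool.false_eq_true, if_true, if_false] at g
  linarith [famA_om_pos H, H.ν_pos, H.r_le]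

/-- the two small error terms -/
theorem fam_dcr_bd (H : f.Hyp ϑ sa sc M' R Lb Bk Kb Cs L1 ρ0 Emax hi r) {z : f.L.E}
    (hz : z ∈ f.L.Om) {κ : f.L.E} (hκ : |f.B.V (f.za κ)| ≤ 1) :
    |f.dcr z κ| ≤ if f.L.V z ≤ 5 * f.B.H then 4 * f.C1 * Cs / f.B.H else 0 := by
  have hH := H.goodB.H_pos
  have hC := famA_C1_pos H
  split_ifs with hv
  · unfold FD.dcr
    generalize (f.B.V (f.za z) - 42 / 10 * f.B.H) / (6 / 10 * f.B.H) = x
    have d0 := deriv_st_nonneg x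
    have d1 := H.Cs_bd x
    rw [abs_mul, abs_mul, abs_mul, abs_div, abs_of_pos hC, abs_of_nonneg d0,
      abs_of_pos (show 0 < 6 / 10 * f.B.H by positivity), abs_two]
    have hCs : 0 ≤ Cs := d0.trans d1
    calc f.C1 * (2 * (deriv st x * (|f.B.V (f.za κ)| / (6 / 10 * f.B.H))))
        ≤ f.C1 * (2 * (Cs * (1 / (6 / 10 * f.B.H)))) := by gcongr
      _ = 10 / 3 * (f.C1 * Cs / f.B.H) := by field_simp; ring
      _ ≤ 4 * (f.C1 * Cs / f.B.H) := by gcongr; norm_num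
      _ = 4 * f.C1 * Cs / f.B.H := by ring
  · have a1 := H.domA z hz
    have a2 := H.towA.dom _ (H.mapA z hz)
    have a3 : 1 ≤ (f.B.V (f.za z) - 42 / 10 * f.B.H) / (6 / 10 * f.B.H) := by
      refine (one_le_div (by positivity)).2 ?_
      unfold FD.za
      linarith [not_le.1 hv, H.sa_le, H.ϑ_le]
    unfold FD.dcr
    rw [deriv_st_zero (Or.inr a3)]
    simp

theorem famA_ind (H : f.Hyp ϑ sa sc M' R Lb Bk Kb Cs L1 ρ0 Emax hi r) {z : f.L.E}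
    (hz : z ∈ f.L.Om) {j : ℕ} (hj : f.m ≤ j) (hj' : j < f.n) :
    (f.qa j).ind (f.la.Vj j (f.pa z)) ≤ 1 ∧ (f.qc j).ind (f.lc.Vj j (f.pc z)) ≤ 1 ∧
      (¬ f.L.V z ≤ 4 * (f.qa j).H →
        (f.qa j).ind (f.la.Vj j (f.pa z)) = 0 ∧ (f.qc j).ind (f.lc.Vj j (f.pc z)) = 0) := by
  unfold Par.ind
  refine ⟨by split_ifs <;> norm_num, by split_ifs <;> norm_num, fun hv => ?_⟩
  have a1 := H.domA z hz
  have a2 := H.domC z hz
  have a3 := H.towA.dom1 _ (H.mapA z hz) j hj hj'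
  have a4 := H.towC.dom1 _ (H.mapC z hz) j hj hj'
  have a5 := (H.towA.lev_H j hj hj').1
  obtain ⟨g, -, hg, e⟩ := H.rel j hj hj'
  have hp := (H.towA.pgood j hj hj').H_pos
  have a6 : (f.qc j).H ≤ 3 * (f.qa j).H := by
    rw [e]
    exact mul_le_mul_of_nonneg_right hg hp.le
  have hv' := not_le.1 hv
  constructor <;> refine if_neg (not_le.2 ?_) <;>
    linarith [H.sa_le, H.sc_le, H.ϑ_le, H.ϑ_pos]

theorem fam_dTsum_bd (H : f.Hyp ϑ sa sc M' R Lb Bk Kb Cs L1 ρ0 Emax hi r) (ba bc : ℕ → Bool)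
    {z : f.L.E} (hz : z ∈ f.L.Om) {κ : f.L.E} (h1 : f.pa κ ∈ f.A.K (f.pa z))
    (h2 : f.pc κ ∈ f.C.K (f.pc z)) : f.dTsum ba bc z κ ≤ ∑ j ∈ Finset.Ico f.m f.n,
      (if f.L.V z ≤ 4 * (f.qa j).H then 2 * Kb else 0) := by
  refine Finset.sum_le_sum fun j hj => ?_
  obtain ⟨hj1, hj2⟩ := Finset.mem_Ico.1 hj
  have a1 := (le_abs_self _).trans (H.KbA _ (H.mapA z hz) _ h1 j hj1 hj2 (ba j))
  have a2 := (le_abs_self _).trans (H.KbC _ (H.mapC z hz) _ h2 j hj1 hj2 (bc j))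
  obtain ⟨b1, b2, b3⟩ := famA_ind H hz hj1 hj2
  have hK := H.Kb_nonneg
  unfold FD.dTa FD.dTc
  split_ifs with hv
  · linarith [mul_le_of_le_one_right hK b1, mul_le_of_le_one_right hK b2]
  · obtain ⟨e1, e2⟩ := b3 hv
    rw [e1] at a1
    rw [e2] at a2
    linarith

theorem fam_er_bd (H : f.Hyp ϑ sa sc M' R Lb Bk Kb Cs L1 ρ0 Emax hi r) {z : f.L.E}
    (hz : z ∈ f.L.Om) {j : ℕ} (hj : f.m ≤ j) (hj' : j < f.n) :
    f.la.er f.qa j (f.pa z) + f.lc.er f.qc j (f.pc z) ≤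
      if f.L.V z ≤ 4 * (f.qa j).H then 2 * (f.qa j).eta else 0 := by
  obtain ⟨b1, b2, b3⟩ := famA_ind H hz hj hj'
  obtain ⟨g, -, -, e⟩ := H.rel j hj hj'
  have he : (f.qc j).eta = (f.qa j).eta := by rw [e]; rfl
  have hp := (H.towA.pgood j hj hj').eta_pos.le
  unfold LD.er
  rw [he]
  split_ifs with hv
  · linarith [mul_le_of_le_one_right hp b1, mul_le_of_le_one_right hp b2]
  · obtain ⟨e1, e2⟩ := b3 hv
    rw [e1, e2]
    simp

end Pool.Agent.MP703675
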