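import Pool.Agent.Lib.MP_703675_gt.FamA
import Pool.Agent.Lib.MP_703675_gt.Core

set_option autoImplicit false

open Set Metric Filter Topology TopologicalSpace

noncomputable section

namespace Pool.Agent.MP703675

/-- on an active level the fractions do not depend on the clock -/
theorem famB_act {E : Type} [NormedAddCommGroup E] [NormedSpace ℝ E] {ld : LD E} {q : ℕ → Par}
    {j : ℕ} {x : E} (g : (q j).Good) (h : ld.Vj j x ≤ (q j).H / 4) :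
    ld.aS q j x = (q j).S (ld.Dj j x) ∧ ld.aR q j x = (q j).rho (ld.Dj j x) ∧
      ld.er q j x = (q j).eta := by
  have h2 : (q j).ind (ld.Vj j x) = 1 := if_pos (by linarith [g.H_pos])
  simp only [LD.aS, LD.aR, LD.er, g.al_one h, h2, one_mul, mul_one, and_self]

/-- leader and responder over a common base -/
theorem famB_pair {B X Y : Sys} {θx θy sx sy c : ℝ} {πx : X.E →L[ℝ] B.E} {πy : Y.E →L[ℝ] B.E}
    {m n : ℕ} {qx qy : ℕ → Par} {lx : LD X.E} {ly : LD Y.E} (hX : Tower B θx X πx m n qx lx sx)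
    (hY : Tower B θy Y πy m n qy ly sy)
    (rel : ∀ j, m ≤ j → j < n → ∃ g : ℝ, 1 / 3 ≤ g ∧ g ≤ 3 ∧ qy j = (qx j).scale g)
    {x : X.E} {y : Y.E} (hx : x ∈ X.Om) (hy : y ∈ Y.Om)
    (ax : ∀ j, m ≤ j → j < n → lx.Vj j x ≤ (qx j).H / 4)
    (ay : ∀ j, m ≤ j → j < n → ly.Vj j y ≤ (qy j).H / 4) {bx bz : ℕ → Bool}
    (vx : ∀ j, m ≤ j → j < n → lx.valid j (bx j) x) (vy : ∀ j, m ≤ j → j < n → ly.valid j (bz j) y)
    (lip : ∀ v ∈ B.K (πx x), ∃ v' ∈ B.K (πy y), ‖v - v'‖ ≤ c) {u : X.E} (hu : u ∈ X.K x) :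
    ∃ u' ∈ Y.K y, ∃ (σx σy : ℝ), ∃ v ∈ B.K (πx x), ∃ v' ∈ B.K (πy y), 0 ≤ σy ∧ σy ≤ σx ∧ σx ≤ 1 ∧
      ‖v - v'‖ ≤ c ∧ πx u = (σx / θx) • v ∧ πy u' = (σy / θy) • v' ∧
      (σx - σy) + ∑ j ∈ Finset.Ico m n,
        (st ((ly.Dj j y + ly.T j (bz j) y - lx.Dj j x) / ((qx j).c + (qy j).c) - 1) *
            (ly.Dj j u' + fderiv ℝ (ly.T j (bz j)) y u' - lx.Dj j u) +
          st ((lx.Dj j x + lx.T j (bx j) x - ly.Dj j y) / ((qx j).c + (qy j).c) - 1) *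
            (lx.Dj j u + fderiv ℝ (lx.T j (bx j)) x u - ly.Dj j u')) ≤
        3 * ∑ j ∈ Finset.Ico m n, (qx j).eta := by
  obtain ⟨s, hs1, ⟨v, hv, hπ⟩, hl⟩ := hX.lead x hx u hu
  obtain ⟨t, δ, ht1, hts, hp, hsum⟩ := near_core hX.le hX.pgood rel (fun j => lx.Dj j x)
    (fun j => lx.T j (bx j) x) (fun j => ly.Dj j y) (fun j => ly.T j (bz j) y)
    (fun j h1 h2 => hX.T_bd x hx j h1 h2 _) (fun j h1 h2 => hY.T_bd y hy j h1 h2 _) s
    (fun j => lx.Dj j u) (fun j => fderiv ℝ (lx.T j (bx j)) x u) hs1 (fun j h1 h2 => by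
      obtain ⟨e1, e2, e3⟩ := famB_act (hX.pgood j h1 h2) (ax j h1 h2)
      obtain ⟨a1, a2, a3, a4⟩ := hl j h1 h2
      have a5 := a4 _ (vx j h1 h2)
      rw [e1] at a2 a3
      rw [e2, e3] at a5
      exact ⟨a1, a2, a3, a5⟩)
  obtain ⟨v', hv', hc⟩ := lip v hv
  have hplan : ly.Plan qy m n y t δ := ⟨ht1, fun j h1 h2 => by
    obtain ⟨e1, e2, -⟩ := famB_act (hY.pgood j h1 h2) (ay j h1 h2)
    rw [e1, e2]
    exact hp j h1 h2⟩
  obtain ⟨u', hu', hπ', -, hD, -⟩ := hY.resp y hy bz vy t δ hplan v' hv'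
  have b1 := act_mem (α := fun j => lx.aS qx j x) hs1 (fun j h1 h2 =>
    ⟨(lx.aS_mem (hX.pgood j h1 h2) x).1, (hl j h1 h2).1, (hl j h1 h2).2.1⟩) le_rfl hX.le
  have b2 := act_mem (α := fun j => ly.aS qy j y) ht1 (fun j h1 h2 =>
    ⟨(ly.aS_mem (hY.pgood j h1 h2) y).1, (hplan.2 j h1 h2).1, (hplan.2 j h1 h2).2.1⟩) le_rfl hX.le
  refine ⟨u', hu', s m, t m, v, hv, v', hv', b2.1, hts, b1.2, hc, hπ, hπ', hsum
    (fun j => ly.Dj j u') (fun j => fderiv ℝ (ly.T j (bz j)) y u') fun j h1 h2 => ?_⟩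
  have a := hD j h1 h2
  rw [(famB_act (hY.pgood j h1 h2) (ay j h1 h2)).2.2] at a
  exact a

variable {f : FD} {ϑ sa sc M' R Lb Bk Kb Cs L1 ρ0 Emax hi r : ℝ}

/-- the near region: everything is active -/
theorem famB_region (H : f.Hyp ϑ sa sc M' R Lb Bk Kb Cs L1 ρ0 Emax hi r) {ba bc : ℕ → Bool}
    {z : f.L.E} (hz : z ∈ f.L.Om) (h : f.NearMin r true ba bc z) (hh : f.Phi true ba bc z ≤ hi) :
    ‖f.za z‖ ≤ R ∧ ‖f.zc z‖ ≤ R ∧ f.L.V z ≤ 5 * f.B.H ∧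
      (∀ j, f.m ≤ j → j < f.n → f.la.Vj j (f.pa z) ≤ (f.qa j).H / 4) ∧
      (∀ j, f.m ≤ j → j < f.n → f.lc.Vj j (f.pc z) ≤ (f.qc j).H / 4) ∧
      ∀ j, f.m ≤ j → j < f.n → f.L.V z ≤ 4 * (f.qa j).H := by
  have h1 := fam_near_region H hz h
  have h2 := (abs_le.1 (fam_small H true ba bc hz hh).2).2
  have hH := H.goodB.H_pos
  have hθ := (abs_le.1 H.θ_near).1
  have ha := H.mapA z hz
  have hc := H.mapC z hz
  have e1 := H.ω_eq
  have e2 := H.hi_le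
  have e3 := H.ϑ_le
  have e4 := H.ϑ_le'
  have e5 := H.sa_le
  have e6 := H.sc_le
  have hθH : 99 / 100 * f.B.H ≤ f.θ * f.B.H := mul_le_mul_of_nonneg_right (by linarith) hH.le
  have h3 : f.θ * f.B.V (f.zc z) ≤ 502 / 100 * f.B.H := by
    simp only [FD.e] at h2
    linarith
  have h4 : f.B.V (f.zc z) ≤ 6 * f.B.H := by
    by_contra hn
    have := mul_le_mul_of_nonneg_left (not_le.1 hn).le H.towC.pos.le
    linarith
  have h5 : f.L.V z ≤ 5 * f.B.H := by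
    have a1 := H.domA z hz
    have a2 : f.A.V (f.pa z) ≤ 1 * f.B.V (f.za z) + sa := H.towA.dom _ ha
    linarith
  refine ⟨H.R_bd _ (H.towA.mapsTo _ ha) (by linarith), H.R_bd _ (H.towC.mapsTo _ hc) h4, h5,
    fun j a b => ?_, fun j a b => ?_, fun j a b => ?_⟩
  · have a1 : _ ≤ 1 * f.B.V (f.za z) + sa := H.towA.dom2 _ ha j a b
    have a2 := (H.towA.lev_H j a b).1
    linarith
  · have a1 : _ ≤ f.θ * f.B.V (f.zc z) + sc := H.towC.dom2 _ hc j a b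
    have a2 := (H.towC.lev_H j a b).1
    linarith
  · have a2 := (H.towA.lev_H j a b).1
    linarith

theorem famB_de {σa σc Va Vc w : ℝ} (h0 : 0 ≤ σc) (h1 : σc ≤ 1) (ha : |Va| ≤ 1)
    (hw : |Va - Vc| ≤ w) : |σc * Vc - σa * Va| ≤ |σa - σc| + w := by
  have e : σc * Vc - σa * Va = -((σa - σc) * Va + σc * (Va - Vc)) := by ring
  rw [e, abs_neg]
  refine (abs_add_le _ _).trans (add_le_add ?_ ?_)
  · rw [abs_mul]
    exact mul_le_of_le_one_right (abs_nonneg _) ha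
  · rw [abs_mul, abs_of_nonneg h0]
    exact (mul_le_of_le_one_left (abs_nonneg _) h1).trans hw

theorem famB_vec {E : Type} [NormedAddCommGroup E] [NormedSpace ℝ E] {σa σc θ ϑ A w : ℝ}
    {a c : E} (h0 : 0 ≤ σc) (h1 : σc ≤ 1) (hθ : |θ - 1| ≤ ϑ) (hϑ : 100 * ϑ ≤ 1) (ha : ‖a‖ ≤ A)
    (hc : ‖c‖ ≤ A) (hw : ‖a - c‖ ≤ w) :
    ‖σa • a - (σc / θ) • c‖ ≤ (|σa - σc| + 2 * ϑ) * A + w := by
  have hθ1 := (abs_le.1 hθ).1
  have hp : 0 < θ := by linarith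
  have e : σa • a - (σc / θ) • c = (σa - σc) • a + (σc * (θ - 1) / θ) • c + σc • (a - c) := by
    have : σc * (θ - 1) / θ = σc - σc / θ := by field_simp
    rw [this]
    simp only [sub_smul, smul_sub]
    abel
  have h2 : |σc * (θ - 1) / θ| ≤ 2 * ϑ := by
    rw [abs_div, abs_mul, abs_of_nonneg h0, abs_of_pos hp, div_le_iff₀ hp]
    have a1 : σc * |θ - 1| ≤ ϑ := (mul_le_of_le_one_left (abs_nonneg _) h1).trans hθ
    have a2 : 0 ≤ ϑ := (abs_nonneg _).trans hθ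
    have a3 : 2 * ϑ * (1 / 2) ≤ 2 * ϑ * θ := mul_le_mul_of_nonneg_left (by linarith) (by linarith)
    linarith
  rw [e, add_mul]
  refine (norm_add₃_le).trans (add_le_add (add_le_add ?_ ?_) ?_)
  · rw [norm_smul, Real.norm_eq_abs]
    exact mul_le_mul_of_nonneg_left ha (abs_nonneg _)
  · rw [norm_smul, Real.norm_eq_abs]
    exact mul_le_mul h2 hc (norm_nonneg _) ((abs_nonneg _).trans h2)
  · rw [norm_smul, Real.norm_eq_abs, abs_of_nonneg h0]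
    exact (mul_le_of_le_one_left (norm_nonneg _) h1).trans hw

theorem famB_div {x M A p w : ℝ} (hM : 1 ≤ M) (hA : 0 ≤ A) (hp : 0 ≤ p) (hw : 0 ≤ w)
    (h : x ≤ M * (p * A + w)) : x / (M * (A + 1)) ≤ p + w := by
  rw [div_le_iff₀ (by positivity)]
  refine h.trans ?_
  rw [mul_comm (p + w), mul_assoc]
  refine mul_le_mul_of_nonneg_left ?_ (by linarith)
  have := mul_nonneg hA hw
  linarith [mul_add (A + 1) p w, add_mul A 1 p, add_mul A 1 w, mul_comm p A]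

/-- distance of the two base states -/
theorem famB_dist (H : f.Hyp ϑ sa sc M' R Lb Bk Kb Cs L1 ρ0 Emax hi r) (ba bc : ℕ → Bool)
    {z : f.L.E} (hz : z ∈ f.L.Om) (hR : ‖f.zc z‖ ≤ R) : ‖f.za z - f.zc z‖ ≤
      (f.M2 + ‖f.B.one‖) * f.br true ba bc z + ‖f.B.one‖ * ϑ * (‖f.B.V‖ * R) := by
  have hM : 0 < f.M2 := by linarith [fam_M2_ge H, H.M'_ge]
  have e : f.za z - f.zc z = f.eJ z + (f.B.V (f.za z) - f.B.V (f.zc z)) • f.B.one := by
    simp only [FD.eJ, Sys.J_apply, sub_smul]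
    abel
  have h1 : f.N (f.eJ z) / f.M2 + f.near ba bc z ≤ f.br true ba bc z :=
    (fam_br_ge H true ba bc hz).1
  have h2 := (fam_near_bd H ba bc hz).1
  have h3 : |f.e z| ≤ Real.sqrt (f.ν ^ 2 + f.e z ^ 2) :=
    Real.abs_le_sqrt (by linarith [sq_nonneg f.ν])
  have h4 := H.N_ge (f.eJ z)
  have h5 : 0 ≤ f.N (f.eJ z) / f.M2 := div_nonneg ((norm_nonneg _).trans h4) hM.le
  have h6 : ‖f.eJ z‖ ≤ f.M2 * f.br true ba bc z := by
    have : f.N (f.eJ z) / f.M2 ≤ f.br true ba bc z := by linarith [abs_nonneg (f.e z)]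
    rw [div_le_iff₀ hM] at this
    linarith
  have h7 : |f.B.V (f.zc z)| ≤ ‖f.B.V‖ * R :=
    (f.B.V.le_opNorm _).trans (mul_le_mul_of_nonneg_left hR (norm_nonneg _))
  have h8 : |f.B.V (f.za z) - f.B.V (f.zc z)| ≤ f.br true ba bc z + ϑ * (‖f.B.V‖ * R) := by
    have e2 : f.B.V (f.za z) - f.B.V (f.zc z) = (f.θ - 1) * f.B.V (f.zc z) - f.e z := by
      simp only [FD.e]
      ring
    have a1 : |(f.θ - 1) * f.B.V (f.zc z)| ≤ ϑ * (‖f.B.V‖ * R) := by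
      rw [abs_mul]
      exact mul_le_mul H.θ_near h7 (abs_nonneg _) H.ϑ_pos.le
    rw [e2]
    linarith [abs_sub ((f.θ - 1) * f.B.V (f.zc z)) (f.e z)]
  rw [e]
  refine (norm_add_le _ _).trans ?_
  rw [norm_smul, Real.norm_eq_abs]
  have h9 := mul_le_mul_of_nonneg_right h8 (norm_nonneg f.B.one)
  linarith

/-- the final inequality -/
theorem famB_fin {Ex dEx dTh br dbr L1 Emax Q : ℝ} (h1 : 1 ≤ Ex) (h2 : Ex ≤ Emax)
    (h3 : L1 * Ex ≤ dEx) (h4 : 0 ≤ br) (h5 : 0 ≤ Q) (h6 : Emax * Q ≤ dTh)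
    (h7 : dbr ≤ L1 * br + Q) : (dEx * br + dTh) * -1 + Ex * dbr ≤ 0 := by
  have a1 := mul_le_mul_of_nonneg_right h3 h4
  have a2 := mul_le_mul_of_nonneg_right h2 h5
  have a3 := mul_le_mul_of_nonneg_left h7 (by linarith : 0 ≤ Ex)
  linarith

/-- the common estimate -/
theorem famB_est (H : f.Hyp ϑ sa sc M' R Lb Bk Kb Cs L1 ρ0 Emax hi r) {ba bc : ℕ → Bool}
    {z : f.L.E} (hz : z ∈ f.L.Om) (h : f.NearMin r true ba bc z) (hh : f.Phi true ba bc z ≤ hi)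
    {κ : f.L.E} (ka : f.pa κ ∈ f.A.K (f.pa z)) (kc : f.pc κ ∈ f.C.K (f.pc z)) (hV : f.L.V κ = -1)
    {σa σc : ℝ} {va vc : f.B.E} (hva : va ∈ f.B.K (f.za z)) (hvc : vc ∈ f.B.K (f.zc z))
    (c0 : 0 ≤ σc) (c1 : σc ≤ 1) (hl : ‖va - vc‖ ≤ Lb * ‖f.za z - f.zc z‖)
    (ea : f.za κ = (σa / 1) • va) (ec : f.zc κ = (σc / f.θ) • vc)
    (hs : |σa - σc| + ∑ j ∈ Finset.Ico f.m f.n, (st (f.hp j (bc j) z / f.ct j - 1) *
        (f.lc.Dj j (f.pc κ) + f.dTc j (bc j) z κ - f.la.Dj j (f.pa κ)) +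
      st (f.hm j (ba j) z / f.ct j - 1) *
        (f.la.Dj j (f.pa κ) + f.dTa j (ba j) z κ - f.lc.Dj j (f.pc κ))) ≤
      3 * ∑ j ∈ Finset.Ico f.m f.n, (f.qa j).eta) : fderiv ℝ (f.Phi true ba bc) z κ ≤ 0 := by
  obtain ⟨ra, rc, h5, -, -, h4⟩ := famB_region H hz h hh
  have hθ := H.towC.pos
  have hM : 0 < f.M2 := by linarith [fam_M2_ge H, H.M'_ge]
  have hbr := (fam_br_ge H true ba bc hz).2.1
  have hD := famB_dist H ba bc hz rc
  have hEta : 0 ≤ ∑ j ∈ Finset.Ico f.m f.n, (f.qa j).eta := Finset.sum_nonneg fun j hj =>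
    (H.towA.pgood j (Finset.mem_Ico.1 hj).1 (Finset.mem_Ico.1 hj).2).eta_pos.le
  have hK : 0 ≤ ∑ _j ∈ Finset.Ico f.m f.n, 2 * Kb := Finset.sum_nonneg fun _ _ => by
    linarith [H.Kb_nonneg]
  have hCs : 0 ≤ 4 * f.C1 * Cs / f.B.H := by
    have a1 : 0 ≤ Cs := (deriv_st_nonneg 0).trans (H.Cs_bd 0)
    have a2 : 0 ≤ f.C1 := (abs_nonneg _).trans (fam_cr_bd H z)
    have a3 := H.goodB.H_pos
    positivity
  have hϑ := H.ϑ_pos
  have hLb := H.Lb_nonneg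
  have hR := H.R_nonneg
  have hBk := H.Bk_nonneg
  have hX : 0 ≤ Lb * (‖f.B.V‖ + ‖f.B.J‖) * (‖f.B.one‖ * ϑ * (‖f.B.V‖ * R)) := by positivity
  have hY : 0 ≤ Lb * (‖f.B.V‖ + ‖f.B.J‖) * (f.M2 + ‖f.B.one‖) := by positivity
  have hρ := H.ρ0_ge
  have hTh := H.Th_der (f.L.V z)
  rw [if_pos h5, Finset.sum_congr rfl fun j hj =>
    if_pos (h4 j (Finset.mem_Ico.1 hj).1 (Finset.mem_Ico.1 hj).2)] at hTh
  have eS : ∑ j ∈ Finset.Ico f.m f.n, (8 * (f.qa j).eta + 2 * f.β * Kb) =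
      8 * ∑ j ∈ Finset.Ico f.m f.n, (f.qa j).eta + f.β * ∑ _j ∈ Finset.Ico f.m f.n, 2 * Kb := by
    rw [Finset.sum_add_distrib, Finset.mul_sum, Finset.mul_sum]
    exact congrArg _ (Finset.sum_congr rfl fun _ _ => by ring)
  rw [eS] at hTh
  have hβK := mul_nonneg H.β_pos.le hK
  rw [fam_fderiv H, hV]
  refine famB_fin (H.Ex_bd _ (H.V_ge z hz)).1 (H.Ex_bd _ (H.V_ge z hz)).2 ((H.Ex_der _).2 h5) hbr
    (by linarith) hTh ?_
  have d1 : f.dTsum ba bc z κ ≤ ∑ _j ∈ Finset.Ico f.m f.n, 2 * Kb :=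
    (fam_dTsum_bd H ba bc hz ka kc).trans (le_of_eq (Finset.sum_congr rfl fun j hj =>
      if_pos (h4 j (Finset.mem_Ico.1 hj).1 (Finset.mem_Ico.1 hj).2)))
  have d2 : f.dcr z κ ≤ 4 * f.C1 * Cs / f.B.H := by
    have a1 := H.towA.proj_mem H.goodB (H.mapA z hz) ka
    rw [one_smul] at a1
    have a2 := fam_dcr_bd H hz (κ := κ) (H.goodB.V_le _ _ a1)
    rw [if_pos h5] at a2
    exact (le_abs_self _).trans a2
  have d3 : |f.de κ| ≤ |σa - σc| + ‖f.B.V‖ * (Lb * ‖f.za z - f.zc z‖) := by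
    have a1 : f.de κ = σc * f.B.V vc - σa * f.B.V va := by
      simp only [FD.de, ea, ec, map_smul, smul_eq_mul, div_one]
      field_simp
    rw [a1]
    refine famB_de c0 c1 (H.goodB.V_le _ _ hva) ?_
    rw [← map_sub]
    exact (f.B.V.le_opNorm _).trans (mul_le_mul_of_nonneg_left hl (norm_nonneg _))
  have d4 : f.e z / Real.sqrt (f.ν ^ 2 + f.e z ^ 2) * f.de κ ≤ |f.de κ| := by
    refine (le_abs_self _).trans ?_
    rw [abs_mul, abs_div, abs_of_nonneg (Real.sqrt_nonneg _)]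
    exact mul_le_of_le_one_left (abs_nonneg _) (div_le_one_of_le₀
      (Real.abs_le_sqrt (by linarith [sq_nonneg f.ν])) (Real.sqrt_nonneg _))
  have d5 : fderiv ℝ f.N (f.eJ z) (f.eJ κ) / f.M2 ≤
      (|σa - σc| + 2 * ϑ) + ‖f.B.J‖ * (Lb * ‖f.za z - f.zc z‖) := by
    have a1 : ‖f.eJ κ‖ ≤ (|σa - σc| + 2 * ϑ) * (‖f.B.J‖ * Bk) +
        ‖f.B.J‖ * (Lb * ‖f.za z - f.zc z‖) := by
      simp only [FD.eJ, ea, ec, map_smul, div_one]
      refine famB_vec c0 c1 H.θ_near H.ϑ_le' ?_ ?_ ?_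
      · exact (f.B.J.le_opNorm _).trans (mul_le_mul_of_nonneg_left (H.Bk_bd _ ra _ hva)
          (norm_nonneg _))
      · exact (f.B.J.le_opNorm _).trans (mul_le_mul_of_nonneg_left (H.Bk_bd _ rc _ hvc)
          (norm_nonneg _))
      · rw [← map_sub]
        exact (f.B.J.le_opNorm _).trans (mul_le_mul_of_nonneg_left hl (norm_nonneg _))
    rw [H.M2_eq]
    refine famB_div H.M'_ge (by positivity) (by positivity) (by positivity) ?_
    exact (le_abs_self _).trans ((H.N_der _ _).trans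
      (mul_le_mul_of_nonneg_left a1 (by linarith [H.M'_ge])))
  have d6 := mul_le_mul_of_nonneg_left hD (by positivity : 0 ≤ Lb * (‖f.B.V‖ + ‖f.B.J‖))
  have d7 := mul_le_mul_of_nonneg_right H.L1_ge hbr
  have d8 := mul_nonneg hY hbr
  have d9 := mul_le_mul_of_nonneg_left d1 H.β_pos.le
  simp only [FD.dbr, FD.dnear, if_true]
  linarith

/-- Plan: all levels are active on both sides (`al = 1`), both base states lie in the ball of
radius `R` and `V z ≤ 5 H`.  `lead` on the side `A`, `near_core`, a base velocity close to the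
leading one (`Lb_lip`), `resp` on the side `C`.  With `d = sa m - sc m`:
`|de| + dN / M2 ≤ 2 d + 2 ϑ + Lb (‖V‖ + ‖J‖) ‖za - zc‖` and
`‖za - zc‖ ≤ (M2 + ‖one‖) (N / M2 + sqrt) + ‖one‖ ϑ ‖V‖ R`. -/
theorem fam_near_a (H : f.Hyp ϑ sa sc M' R Lb Bk Kb Cs L1 ρ0 Emax hi r) {ba bc : ℕ → Bool}
    {z : f.L.E} (hz : z ∈ f.L.Om) (h : f.NearMin r true ba bc z) (hh : f.Phi true ba bc z ≤ hi) :
    ∀ u ∈ f.A.K (f.pa z), ∃ u' ∈ f.C.K (f.pc z), ∀ κ : f.L.E, f.pa κ = u → f.pc κ = u' →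
      f.L.V κ = -1 → fderiv ℝ (f.Phi true ba bc) z κ ≤ 0 := by
  intro u hu
  obtain ⟨ra, rc, -, aa, ac, -⟩ := famB_region H hz h hh
  obtain ⟨va, vc⟩ := fam_valid H hz h
  obtain ⟨u', hu', σa, σc, v, hv, v', hv', c0, c1, c2, hl, e1, e2, hs⟩ :=
    famB_pair H.towA H.towC H.rel (H.mapA z hz) (H.mapC z hz) aa ac va vc
      (H.Lb_lip _ _ ra rc) hu
  refine ⟨u', hu', ?_⟩
  rintro κ rfl rfl hV
  refine famB_est H hz h hh hu hu' hV hv hv' c0 (c1.trans c2) hl e1 e2 ?_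
  rw [abs_of_nonneg (sub_nonneg.2 c1)]
  exact hs

/-- the same with the roles exchanged (`Par.scale_scale`, `Par.scale_one`) -/
theorem fam_near_c (H : f.Hyp ϑ sa sc M' R Lb Bk Kb Cs L1 ρ0 Emax hi r) {ba bc : ℕ → Bool}
    {z : f.L.E} (hz : z ∈ f.L.Om) (h : f.NearMin r true ba bc z) (hh : f.Phi true ba bc z ≤ hi) :
    ∀ u' ∈ f.C.K (f.pc z), ∃ u ∈ f.A.K (f.pa z), ∀ κ : f.L.E, f.pa κ = u → f.pc κ = u' →
      f.L.V κ = -1 → fderiv ℝ (f.Phi true ba bc) z κ ≤ 0 := by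
  intro u' hu'
  obtain ⟨ra, rc, -, aa, ac, -⟩ := famB_region H hz h hh
  obtain ⟨va, vc⟩ := fam_valid H hz h
  have rel : ∀ j, f.m ≤ j → j < f.n →
      ∃ g : ℝ, 1 / 3 ≤ g ∧ g ≤ 3 ∧ f.qa j = (f.qc j).scale g := fun j a b => by
    obtain ⟨g, g1, g2, e⟩ := H.rel j a b
    have gp : 0 < g := by linarith
    refine ⟨g⁻¹, ?_, ?_, ?_⟩
    · rw [one_div]
      exact inv_anti₀ gp g2
    · rw [inv_le_comm₀ gp (by norm_num), ← one_div]
      exact g1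
    · rw [e, Par.scale_scale, inv_mul_cancel₀ gp.ne', Par.scale_one]
  obtain ⟨u, hu, σc, σa, v', hv', v, hv, c0, c1, c2, hl, e2, e1, hs⟩ :=
    famB_pair H.towC H.towA rel (H.mapC z hz) (H.mapA z hz) ac aa vc va
      (H.Lb_lip _ _ rc ra) hu'
  refine ⟨u, hu, ?_⟩
  rintro κ rfl rfl hV
  rw [norm_sub_rev, norm_sub_rev (f.fc (f.pc z))] at hl
  refine famB_est H hz h hh hu hu' hV hv hv' (c0.trans c1) c2 hl e1 e2 ?_
  rw [abs_sub_comm, abs_of_nonneg (sub_nonneg.2 c1)]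
  have e3 : ∑ j ∈ Finset.Ico f.m f.n, (f.qc j).eta = ∑ j ∈ Finset.Ico f.m f.n, (f.qa j).eta :=
    Finset.sum_congr rfl fun j hj => by
      obtain ⟨g, -, -, e⟩ := H.rel j (Finset.mem_Ico.1 hj).1 (Finset.mem_Ico.1 hj).2
      rw [e]
      rfl
  rw [e3] at hs
  refine le_of_eq_of_le (congrArg _ (Finset.sum_congr rfl fun j _ => ?_)) hs
  rw [add_comm, add_comm (f.qc j).c]
  rfl

end Pool.Agent.MP703675
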