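import Pool.Agent.Lib.MP_703675_gt.TrackB

set_option autoImplicit false

open Set Metric Filter Topology TopologicalSpace

noncomputable section

namespace Pool.Agent.MP703675

namespace World

variable (Wd : World)

private lemma cont_at (m : ℕ) : Continuous fun x : Wd.X => x.1 m :=
  (continuous_apply m).comp continuous_subtype_val

private lemma agree {C : Set Wd.X} (hC : IsPreconnected C) (m : ℕ) {v : ℝ}
    (hv : ∀ x ∈ C, vm (x.1 m) ≤ v) {τ : ℚ} (h1 : v < τ) (h2 : (τ : ℝ) < (Wd.W m).H) {x y : Wd.X}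
    (hx : x ∈ C) (hy : y ∈ C) {q q' : ℝ × (Wd.W m).E} (hq : q ∈ (x.1 m : Set _))
    (hq' : q' ∈ (y.1 m : Set _)) (e : q.1 = τ) (e' : q'.1 = τ) : q.2 = q'.2 := by
  obtain ⟨F, hF, hG⟩ := Wd.gate m
  refine sub_eq_zero.1 (hF _ fun i => ?_)
  rw [map_sub, sub_eq_zero]
  by_contra hne
  wlog hlt : F i q.2 < F i q'.2 generalizing x y q q'
  · exact this hy hx hq' hq e' e (Ne.symm hne) ((not_lt.1 hlt).lt_of_ne (Ne.symm hne))
  have h0 := sub_pos.2 h2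
  obtain ⟨lo, l1, l2⟩ := exists_rat_btwn (div_lt_div_of_pos_right hlt h0)
  obtain ⟨hi, l3, l4⟩ := exists_rat_btwn l2
  obtain ⟨g, g1, g2⟩ := exists_rat_btwn (sub_pos.2 h1)
  obtain ⟨n, hn, Yc, hY⟩ := hG i τ lo hi g (by exact_mod_cast g1) h2 (by exact_mod_cast l3)
  obtain ⟨lp, c1, c2⟩ := (Wd.good n).lastpt
  have hM := Wd.mor m n hn
  have key : ∀ x ∈ C, Yc (lp (x.1 n)).2 ≠ 0 ∧ ∀ q ∈ (x.1 m : Set (ℝ × (Wd.W m).E)), q.1 = τ →
      (F i q.2 / ((Wd.W m).H - τ) ≤ lo → 0 < Yc (lp (x.1 n)).2) ∧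
      ((hi : ℝ) ≤ F i q.2 / ((Wd.W m).H - τ) → Yc (lp (x.1 n)).2 < 0) := fun x hx => by
    obtain ⟨Z, a, b, hZ, e1⟩ := x.2.1 n
    have e2 := push_spec (Wd.good m) (Wd.good n) hM hZ e1
    rw [x.2.2 m n hn] at e2
    have h3 := hv x hx
    rw [(Wd.good m).vm_trk (hM.adm_one hZ) e2] at h3
    have h4 : (Wd.W m).V (Wd.pr m n (Z b)) ≤ v :=
      (min_le_iff.1 h3).resolve_right (not_le.2 (h1.trans h2))
    obtain ⟨h5, h6⟩ := hY Z a b hZ (by linarith)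
    have h7 : 0 < (Wd.W n).H - (Wd.W n).V (Z b) := by
      linarith [hM.dom (Wd.good m) (Wd.good n) hZ (right_mem_Icc.2 hZ.1), hM.H_le]
    rw [c2 Z a b hZ _ e1, Sys.Q, max_eq_left h7.le, map_smul, smul_eq_mul, e2]
    refine ⟨mul_ne_zero h7.ne' h5, ?_⟩
    rintro _ ⟨s, hs, rfl⟩ h8
    have h9 : (Wd.W m).V (Wd.pr m n (Z s)) = τ :=
      ((min_eq_iff.1 h8).resolve_right fun h => h2.ne' h.1).1
    simp only [Sys.Q, h9, max_eq_left h0.le, map_smul, smul_eq_mul, mul_div_cancel_left₀ _ h0.ne']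
    exact ⟨fun h => mul_pos h7 ((h6 s hs h9).1 h),
      fun h => mul_neg_of_pos_of_neg h7 ((h6 s hs h9).2 h)⟩
  have hc : ContinuousOn (fun x : Wd.X => Yc (lp (x.1 n)).2) C :=
    Yc.continuous.comp_continuousOn (continuous_snd.comp_continuousOn
      (c1.comp (Wd.cont_at n).continuousOn fun x _ => x.2.1 n))
  obtain ⟨z, hz, h3⟩ := hC.intermediate_value hy hx hc
    ⟨(((key y hy).2 q' hq' e').2 l4.le).le, (((key x hx).2 q hq e).1 l1.le).le⟩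
  exact (key z hz).1 h3

private lemma max_sub {C : Set Wd.X} (hC : IsPreconnected C) (m : ℕ) {x y : Wd.X} (hx : x ∈ C)
    (hy : y ∈ C) (hv : ∀ z ∈ C, vm (z.1 m) ≤ vm (x.1 m)) :
    (x.1 m : Set (ℝ × (Wd.W m).E)) ⊆ y.1 m := fun q hq => by
  have hg := Wd.good m
  obtain ⟨B, hB, h1⟩ := hg.Y_graph
  have h2 := vm_le _ hq
  have h3 := (hg.Y_top (x.2.1 m)).2.2 q hq
  obtain ⟨q', hq', e⟩ := hg.Y_ivt (y.2.1 m) ((hv y hy).trans h2) h3
  have h4 : ∀ p ∈ (x.1 m : Set (ℝ × (Wd.W m).E)), ∀ p' ∈ (y.1 m : Set (ℝ × (Wd.W m).E)),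
      p.1 = p'.1 → p.2 = p'.2 → ‖q.2 - q'.2‖ ≤ 2 * B * |q.1 - p.1| := fun p hp p' hp' e1 e2 => by
    have h5 := h1 _ (x.2.1 m) q hq p hp
    have h6 := h1 _ (y.2.1 m) q' hq' p' hp'
    rw [e, ← e1, ← e2, norm_sub_rev] at h6
    linarith [norm_sub_le_norm_sub_add_norm_sub q.2 p.2 q'.2]
  suffices h : ‖q.2 - q'.2‖ ≤ 0 from
    (Prod.ext e (sub_eq_zero.1 (norm_le_zero_iff.1 h)).symm : q' = q) ▸ hq'
  rcases h3.eq_or_lt with h5 | h5
  · simpa [h5] using h4 _ (hg.Y_top (x.2.1 m)).1 _ (hg.Y_top (y.2.1 m)).1 rfl rfl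
  refine le_of_forall_pos_le_add fun ε hε => ?_
  obtain ⟨τ, t1, t2⟩ := exists_rat_btwn
    (lt_min h5 (lt_add_of_pos_right q.1 (div_pos hε (mul_pos two_pos hB))))
  obtain ⟨t2, t3⟩ := lt_min_iff.1 t2
  obtain ⟨p, hp, e1⟩ := hg.Y_ivt (x.2.1 m) (h2.trans t1.le) t2.le
  obtain ⟨p', hp', e2⟩ := hg.Y_ivt (y.2.1 m) ((hv y hy).trans (h2.trans t1.le)) t2.le
  refine (h4 p hp p' hp' (e1.trans e2.symm)
    (Wd.agree hC m hv (h2.trans_lt t1) t2 hx hy hp hp' e1 e2)).trans ?_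
  rw [e1, abs_sub_comm, abs_of_pos (sub_pos.2 t1), zero_add, ← le_div_iff₀' (mul_pos two_pos hB)]
  linarith

/-- every subcontinuum has a least element -/
theorem least (C : Set Wd.X) (h1 : IsClosed C) (h2 : IsConnected C) :
    ∃ m ∈ C, ∀ x ∈ C, Wd.le m x := by
  have := Wd.compactSpace
  have hc : ∀ m, Continuous fun x : Wd.X => vm (x.1 m) := fun m => vm_cont.comp (Wd.cont_at m)
  have h3 : ∀ m, IsClosed {x ∈ C | ∀ z ∈ C, vm (z.1 m) ≤ vm (x.1 m)} := fun m => by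
    have h4 : IsClosed {x : Wd.X | ∀ z ∈ C, vm (z.1 m) ≤ vm (x.1 m)} := by
      simp only [ofPred_forall]
      exact isClosed_biInter fun z _ => isClosed_le continuous_const (hc m)
    exact h1.inter h4
  obtain ⟨x, hx⟩ := IsCompact.nonempty_iInter_of_sequence_nonempty_isCompact_isClosed
    (fun m => {x ∈ C | ∀ z ∈ C, vm (z.1 m) ≤ vm (x.1 m)}) (fun m x hx => ⟨hx.1, fun z hz => by
      have h4 := push_mono (Wd.good m) (Wd.good (m + 1)) (Wd.mor m _ m.le_succ) (x.2.1 _) (z.2.1 _)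
        (Wd.max_sub h2.2 (m + 1) hx.1 hz hx.2)
      rw [x.2.2 m _ m.le_succ, z.2.2 m _ m.le_succ] at h4
      obtain ⟨q, hq, e⟩ := vm_mem (x.1 m)
      exact e ▸ vm_le _ (h4 hq)⟩)
    (fun m => h1.isCompact.exists_isMaxOn h2.1 (hc m).continuousOn) (h3 0).isCompact h3
  have h4 := mem_iInter.1 hx
  exact ⟨x, (h4 0).1, fun y hy n => Wd.max_sub h2.2 n (h4 n).1 hy (h4 n).2⟩

end World

end Pool.Agent.MP703675
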