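import Pool.Agent.Lib.MP_703675_gt.RecurB

set_option autoImplicit false

open Set Metric Filter Topology TopologicalSpace

noncomputable section

namespace Pool.Agent.MP703675

theorem rec_small {δ : ℝ} (hδ : 0 < δ) : ∃ j : ℕ, 1 / ((j : ℝ) + 1) ≤ δ := by
  obtain ⟨j, hj⟩ := exists_nat_one_div_lt hδ
  exact ⟨j, hj.le⟩

theorem rec_tri {E : Type} [NormedAddCommGroup E] {x y z : E} {e η : ℝ} (h1 : ‖x - y‖ ≤ e / 2)
    (h2 : ‖y - z‖ ≤ 2 * η) (h3 : 4 * η ≤ e) : ‖x - z‖ ≤ e := by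
  have h4 := norm_sub_le_norm_sub_add_norm_sub x y z
  linarith

/-- the coupling relation between two stages -/
def CplR (s : ℕ → St) (m k : ℕ) (γ : ℝ) (φ : (s k).S.E →L[ℝ] (s m).S.E) : Prop :=
  m < k ∧ γ = (s k).γ ∧ φ = cpl (s m) (s k) ∧
    CplT (s m) (s k).γ (s k).S (cpl (s m) (s k)) (s k).l (s k).par

section

variable {tk : ℕ → Task} {s : ℕ → St}

theorem world_off (htk : ∀ t i0, ∃ i, i0 ≤ i ∧ tk i = t)
    (hst : ∀ i, Step (tk i) i (fun j _ => s j) (s (i + 1))) (hown : ∀ k, Own k (s k))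
    (k : ℕ) (γ : ℚ) (h1 : 1 / 3 ≤ (γ : ℝ)) (h2 : (γ : ℝ) ≤ 3) (w : ℝ) (P : ℝ → (s k).S.E)
    (hP : (s k).S.TPath w P) :
    ∃ δ : ℝ, 0 < δ ∧ ∀ i0, ∃ i, i0 ≤ i ∧ k ≤ i ∧ ∃ ψ : (s (i + 1)).S.E →L[ℝ] (s k).S.E,
      CplR s k (i + 1) γ ψ ∧ ∀ Z a b, (s (i + 1)).S.Adm Z a b →
        (∀ u ∈ Icc a b, (s i).S.V (prj i (s i) (s (i + 1)) (Z u)) - (s (i + 1)).S.V (Z u) ≤ δ) →
        ∀ u ∈ Icc a b, ‖ψ (Z u) - P ((s (i + 1)).S.V (Z u) / γ)‖ ≤ (s k).e := by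
  have hk := hown k
  have hη : 0 < (s k).η := by linarith [hk.c.β_pos, hk.c.β_η]
  obtain ⟨a, Tm, Qc, g, h3, h4⟩ := (rec_targets (s k).S γ (s k).η).choose_spec hk.good h1 h2 hη w P hP
  obtain ⟨δ, hδ, hD⟩ := hk.c.offT γ Tm Qc _ _ g h1 h2 le_rfl h3
  obtain ⟨j, hj⟩ := rec_small hδ
  refine ⟨1 / ((j : ℝ) + 1), by positivity, fun i0 => ?_⟩
  obtain ⟨i, hi, ht⟩ := htk (Sum.inr (Sum.inl (k, γ, a, j))) (max i0 (k + 1))
  have hki : k < i := (le_max_right _ _).trans hi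
  have hd := (hst i).done
  rw [ht] at hd
  obtain ⟨e1, e2, e3⟩ := hd hki.le hki (hD.mono le_rfl hj)
  refine ⟨i, (le_max_left _ _).trans hi, hki.le, cpl (s k) (s (i + 1)),
    ⟨by omega, e1.symm, rfl, by rw [e1]; exact e2⟩, fun Z a b hZ hg u hu => ?_⟩
  exact rec_tri (e3 Z a b hZ hg u hu) (h4 _) hk.c.η_le

theorem world_on (htk : ∀ t i0, ∃ i, i0 ≤ i ∧ tk i = t)
    (hst : ∀ i, Step (tk i) i (fun j _ => s j) (s (i + 1))) (hown : ∀ k, Own k (s k))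
    (hrel : ∀ m n, m < n → Rel m (s m) (s n))
    (m k : ℕ) (γ' : ℝ) (φ : (s k).S.E →L[ℝ] (s m).S.E) (hc : CplR s m k γ' φ)
    (γ : ℚ) (h1 : 1 / 3 ≤ (γ : ℝ)) (h2 : (γ : ℝ) ≤ 3) (hθ : |γ * γ' - 1| ≤ (s m).ϑ / 2) (w : ℝ)
    (P : ℝ → (s k).S.E) (hP : (s k).S.TPath w P) :
    ∃ δ : ℝ, 0 < δ ∧ ∀ i0, ∃ i, i0 ≤ i ∧ k ≤ i ∧ ∃ ψ : (s (i + 1)).S.E →L[ℝ] (s k).S.E,
      CplR s k (i + 1) γ ψ ∧
      (∀ Z a b, (s (i + 1)).S.Adm Z a b → ∀ u ∈ Icc a b,
        (s m).S.Close ((1 / 2) ^ m) (prj m (s m) (s (i + 1)) (Z u)) (φ (ψ (Z u)))) ∧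
      ∀ Z a b, (s (i + 1)).S.Adm Z a b →
        (∀ u ∈ Icc a b, (s i).S.V (prj i (s i) (s (i + 1)) (Z u)) - (s (i + 1)).S.V (Z u) ≤ δ) →
        (∀ u ∈ Icc a b, (s m).S.Dev (γ * γ') (prj m (s m) (s (i + 1)) (Z u))
          (φ (P ((s (i + 1)).S.V (Z u) / γ))) ((s m).ϑ / 2)) →
        ∀ u ∈ Icc a b, ‖ψ (Z u) - P ((s (i + 1)).S.V (Z u) / γ)‖ ≤ (s k).e := by
  obtain ⟨hmk, rfl, rfl, hc⟩ := hc
  have hk := hown k
  have hm := hown m
  have hcr := (hrel m k hmk).cross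
  have hη : 0 < (s k).η := by linarith [hk.c.β_pos, hk.c.β_η]
  have hϑ : 0 < (s m).ϑ := by linarith [hm.c.β_pos, hm.c.β_ϑ]
  obtain ⟨a, Tm, Qc, g, h3, h4⟩ := (rec_targets (s k).S γ (s k).η).choose_spec hk.good h1 h2 hη w P hP
  obtain ⟨δ, hδ, hD⟩ := hcr.onT γ _ Tm Qc _ (cpl (s m) (s k)) _ g h1 h2 (hθ.trans (by linarith))
    le_rfl h3
  obtain ⟨j, hj⟩ := rec_small hδ
  refine ⟨1 / ((j : ℝ) + 1), by positivity, fun i0 => ?_⟩
  obtain ⟨i, hi, ht⟩ := htk (Sum.inr (Sum.inr (m, k, γ, a, j))) (max i0 (k + 1))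
  have hki : k < i := (le_max_right _ _).trans hi
  have hmi : m < i := hmk.trans hki
  have hd := (hst i).done
  rw [ht] at hd
  obtain ⟨e1, e2, e3, e4⟩ := hd hmi.le hki.le hmi hki hc (hD.mono le_rfl hj)
  have hcomp : prj m (s m) (s (i + 1)) = (prj m (s m) (s i)).comp (prj i (s i) (s (i + 1))) :=
    (hst i).comp m hmi.le
  refine ⟨i, (le_max_left _ _).trans hi, hki.le, cpl (s k) (s (i + 1)),
    ⟨by omega, e1.symm, rfl, by rw [e1]; exact e2⟩, ?_, fun Z a' b hZ hg hdv u hu => ?_⟩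
  · rw [hcomp]
    exact e3
  · refine rec_tri (e4 Z a' b hZ hg (fun u hu => ?_) u hu) (h4 _) hk.c.η_le
    obtain ⟨ld, slk, hT, -⟩ := hc
    obtain ⟨t1, t2⟩ := abs_le.mp hθ
    have t3 := hm.c.ϑ_le
    have h5 := (onGam_dev _ _ _ _ _).mp (hdv u hu)
    rw [hcomp] at h5
    rw [onGam_dev]
    refine (onGam_move _ (by linarith) (by linarith) _
      (cpl (s m) (s k) (P ((s (i + 1)).S.V (Z u) / γ))) _).trans ?_
    rw [← map_sub]
    have h6 := mul_le_mul_of_nonneg_left ((hT.norm_le _).trans (h4 ((s (i + 1)).S.V (Z u))))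
      (by positivity : 0 ≤ ‖(s m).S.J‖ + 2 * ‖(s m).S.V‖)
    exact le_trans (add_le_add h5 (h6.trans hcr.small)) (by linarith)

end

theorem world_exists : Nonempty World := by
  obtain ⟨tk, htk⟩ := rec_enum Task
  obtain ⟨s, hs0, hst, hown, hrel⟩ := rec_stages tk
  have hcomp : ∀ m i, m ≤ i →
      prj m (s m) (s (i + 1)) = (prj m (s m) (s i)).comp (prj i (s i) (s (i + 1))) :=
    fun m i h => (hst i).comp m h
  have hblock : ∀ i, Block (s i).S (s i).l (s i).β (200 * (s i).S.H) (s (i + 1)).S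
      (prj i (s i) (s (i + 1))) (s (i + 1)).l (s (i + 1)).par := fun i => (hst i).block
  refine ⟨{
    W := fun n => (s n).S
    pr := fun m n => prj m (s m) (s n)
    Cpl := CplR s
    d := fun m => (s m).ϑ / 2
    e := fun k => (s k).e
    good := fun n => (hown n).good
    pr_id := fun n z => by rw [(hown n).id]; rfl
    pr_comp := ?_
    mor := ?_
    H0 := (hown 0).H_ge
    H_grow := ?_
    start := by rw [hs0]; exact sys0_start
    ctr := fun n => (hblock n).ctr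
    lift := ?_
    gate := ?_
    d_pos := fun k => by linarith [(hown k).c.β_pos, (hown k).c.β_ϑ]
    d_le := fun k => by linarith [(hown k).c.ϑ_le]
    e_le := fun k => (hown k).c.e_le
    e_small := fun k => (hown k).c.e_small
    cpl_mor := ?_
    off := world_off htk hst hown
    on := world_on htk hst hown hrel }⟩
  · intro m k n hmk hkn
    induction n, hkn using Nat.le_induction with
    | base =>
      intro z
      rw [(hown k).id]
      rfl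
    | succ n hn ih =>
      intro z
      rw [hcomp k n hn, hcomp m n (hmk.trans hn)]
      exact ih _
  · intro m n hmn
    rcases Nat.lt_or_eq_of_le hmn with h | rfl
    · obtain ⟨ld, hT⟩ := (hrel m n h).tower
      exact hT.mor (hown m).good (hown n).good
    · rw [(hown m).id]
      exact Mor.id _
  · intro n
    obtain ⟨ld, hT⟩ := (hblock n).tower
    have h1 := (hT.lev_H _ le_rfl (hblock n).lt).2
    have h2 := (hblock n).H0_le
    have h3 := (hown n).H_ge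
    linarith
  · intro n Z Y a b e T h1 h2 h3 h4 h5 h6 h7 h8
    obtain ⟨ld, hT⟩ := (hblock n).tower
    have hc := (hown n).c
    obtain ⟨Z', φ, b1, b2, b3, b4, b5⟩ := hT.lift (hown n).good (hown (n + 1)).good
      (by linarith [hc.β_ϑ, hc.ϑ_le, hc.β_pos]) (by linarith [(hown n).H_ge]) Z Y a b e T h1 h2 h3
      h4 h5 h6 h7 h8
    refine ⟨Z', φ, b1, b2, b3, b4, fun u u1 u2 => ⟨?_, (b5 u u1 u2).2⟩⟩
    have c1 := (b5 u u1 u2).1
    have c2 := (hblock n).wsum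
    have c3 := hc.β_le
    linarith
  · intro m
    refine ⟨sepF (s m).S, (rec_sep (s m).S).choose_spec, fun idx τ lo hi gap h1 h2 h3 => ?_⟩
    obtain ⟨i, hi', ht⟩ := htk (Sum.inl (m, idx, τ, lo, hi, gap)) (m + 1)
    have hmi : m < i := hi'
    have hd := (hst i).done
    rw [ht] at hd
    obtain ⟨Yc, hY⟩ := hd hmi.le hmi h1 h2 h3
    refine ⟨i + 1, by omega, Yc, ?_⟩
    rw [hcomp m i hmi.le]
    exact hY
  · rintro m k γ φ ⟨h1, rfl, rfl, ld, slk, hT, -⟩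
    exact ⟨h1, hT.mor (hown m).good (hown k).good⟩

end Pool.Agent.MP703675
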