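import Pool.Agent.Lib.MP_703675_gt.RepA

set_option autoImplicit false

open Set Metric Filter Topology TopologicalSpace

noncomputable section

namespace Pool.Agent.MP703675

/-- a witness that runs in true time below the threshold -/
theorem repB_witness {S : Sys} (h : S.Good) {x : NonemptyCompacts (ℝ × S.E)} (hx : x ∈ S.Y)
    (hv : vm x < S.H) : ∃ (G : ℝ → S.E) (A : ℝ), A ≤ -S.H ∧ S.Adm G A (-vm x) ∧
      (x : Set (ℝ × S.E)) = S.trk G (Icc A (-vm x)) ∧
      ∀ t, vm x ≤ t → t ≤ S.H → S.V (G (-t)) = t := by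
  obtain ⟨Z, a, b, hZ, hxZ⟩ := hx
  have hvm := h.vm_trk hZ hxZ
  have hb : S.V (Z b) = vm x := by
    rcases le_total (S.V (Z b)) S.H with h1 | h1
    · rw [hvm, min_eq_left h1]
    · rw [min_eq_right h1] at hvm
      exact absurd hvm hv.ne
  have hZ' := hZ
  obtain ⟨hab, htr, T, hT, hdur, hZa⟩ := hZ'
  have hH := h.H_pos
  have hVa : S.V (Z a) = T := by rw [hZa, h.V_far]
  have hcont : ContinuousOn (fun s => S.V (Z s)) (Icc a b) :=
    S.V.continuous.comp_continuousOn (h.adm_continuousOn hZ)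
  obtain ⟨s0, hs0, hVs0⟩ : ∃ s0 ∈ Icc a b, S.V (Z s0) = S.H := by
    have := intermediate_value_Icc' hab hcont
    exact this ⟨by simp only [hb]; exact hv.le, by simp only [hVa]; linarith⟩
  obtain ⟨P, hP1, hP2, hP3⟩ := h.reparamV hZ hs0 hVs0.le
  rw [hVs0, hb] at hP2 hP3
  have hPH : P S.H = Z s0 := by
    have := hP1 s0 ⟨le_rfl, hs0.2⟩
    rwa [hVs0] at this
  have hlip : S.H - vm x ≤ b - s0 := by
    have := h.V_lip htr hs0.1 hs0.2 le_rfl
    rw [hb, hVs0] at this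
    have h2 := neg_abs_le (vm x - S.H)
    linarith
  let G : ℝ → S.E := fun s => if s ≤ -S.H then Z (s + (s0 + S.H)) else P (-s)
  have hG1 : ∀ s, s ≤ -S.H → G s = Z (s + (s0 + S.H)) := fun s hs => if_pos hs
  have hG2 : ∀ s, -S.H ≤ s → G s = P (-s) := by
    intro s hs
    rcases eq_or_lt_of_le hs with h1 | h1
    · rw [hG1 s h1.ge, ← h1, neg_neg, hPH]
      congr 1
      ring
    · exact if_neg (not_le.mpr h1)
  have hA : a - (s0 + S.H) ≤ -S.H := by linarith [hs0.1]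
  refine ⟨G, a - (s0 + S.H), hA, ⟨by linarith, ?_, T, hT, by linarith, ?_⟩, ?_, ?_⟩
  · refine h.concat (b := -S.H) ?_ ?_
    · have h1 := (htr.shift (s0 + S.H)).restrict (a' := a - (s0 + S.H)) (b' := -S.H) le_rfl
        (by linarith [hs0.2])
      exact h1.congr (fun s hs => hG1 s hs.2)
    · exact hP3.congr (fun s hs => hG2 s hs.1)
  · rw [hG1 _ hA, ← hZa]
    congr 1
    ring
  · rw [hxZ]
    apply Set.Subset.antisymm
    · rintro q ⟨s, hs, rfl⟩
      rcases le_total s s0 with h1 | h1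
      · refine ⟨s - (s0 + S.H), ⟨by linarith [hs.1], by linarith⟩, ?_⟩
        have : G (s - (s0 + S.H)) = Z s := by
          rw [hG1 _ (by linarith)]
          congr 1
          ring
        simp only [this]
      · have h2 : S.V (Z s) ≤ S.H := by
          have := h.V_anti hZ hs0.1 h1 hs.2 hVs0.le
          rwa [hVs0] at this
        have h3 : vm x ≤ S.V (Z s) := by
          have := h.V_anti hZ hs.1 hs.2 le_rfl h2
          rwa [hb] at this
        refine ⟨-S.V (Z s), ⟨by linarith, by linarith⟩, ?_⟩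
        have : G (-S.V (Z s)) = Z s := by
          rw [hG2 _ (by linarith), neg_neg]
          exact hP1 s ⟨h1, hs.2⟩
        simp only [this]
    · rintro q ⟨s, hs, rfl⟩
      rcases le_total s (-S.H) with h1 | h1
      · refine ⟨s + (s0 + S.H), ⟨by linarith [hs.1], by linarith [hs0.2]⟩, ?_⟩
        simp only [hG1 s h1]
      · obtain ⟨s', hs', he⟩ := hP2 (-s) ⟨by linarith [hs.2], by linarith⟩
        refine ⟨s', ⟨hs0.1.trans hs'.1, hs'.2⟩, ?_⟩
        have : G s = Z s' := by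
          rw [hG2 s h1, ← he]
          exact hP1 s' hs'
        simp only [this]
  · intro t h1 h2
    obtain ⟨s', hs', he⟩ := hP2 t ⟨h1, h2⟩
    rw [hG2 _ (by linarith), neg_neg, ← he, hP1 s' hs']

/-- clamp -/
def repB_cl (v H t : ℝ) : ℝ := max v (min t H)

theorem repB_cl_ge (v H t : ℝ) : v ≤ repB_cl v H t := le_max_left _ _

theorem repB_cl_le {v H : ℝ} (h : v ≤ H) (t : ℝ) : repB_cl v H t ≤ H :=
  max_le h (min_le_right _ _)

theorem repB_cl_le_max (v H t : ℝ) : repB_cl v H t ≤ max v t :=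
  max_le_max le_rfl (min_le_left _ _)

theorem repB_cl_low {v H t : ℝ} (h : t ≤ v) : repB_cl v H t = v :=
  max_eq_left ((min_le_left _ _).trans h)

theorem repB_cl_mono (v H : ℝ) {s t : ℝ} (h : s ≤ t) :
    repB_cl v H s ≤ repB_cl v H t ∧ repB_cl v H t - repB_cl v H s ≤ t - s := by
  unfold repB_cl
  refine ⟨max_le_max le_rfl (min_le_min h le_rfl), ?_⟩
  have h1 : min t H ≤ min s H + (t - s) := by
    rcases le_total s H with h2 | h2
    · rw [min_eq_left h2]
      linarith [min_le_left t H]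
    · rw [min_eq_right h2]
      linarith [min_le_right t H]
  have h2 : max v (min t H) ≤ max v (min s H) + (t - s) := by
    apply max_le
    · linarith [le_max_left v (min s H)]
    · linarith [le_max_right v (min s H)]
  linarith

namespace World

variable (Wd : World)

theorem repB_H_mono {m n : ℕ} (h : m ≤ n) : (Wd.W m).H ≤ (Wd.W n).H := by
  have := (Wd.mor m n h).H_le
  linarith

theorem repB_H_three {m n : ℕ} (h : m < n) : 3 * (Wd.W m).H ≤ (Wd.W n).H := by
  have h1 := Wd.H_grow m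
  have h2 := Wd.repB_H_mono (Nat.succ_le_of_lt h)
  have h3 := (Wd.good m).H_pos
  simp only [Nat.succ_eq_add_one] at h2
  linarith

theorem repB_H_tendsto : Tendsto (fun n => (Wd.W n).H) atTop atTop := by
  refine tendsto_atTop_mono (f := fun n : ℕ => (n : ℝ)) (fun n => ?_) tendsto_natCast_atTop_atTop
  have := Wd.H_ge n
  have h0 : (0 : ℝ) ≤ n := Nat.cast_nonneg n
  linarith

/-- the projection of a witness is a witness -/
theorem repB_proj (x : Wd.X) {m n : ℕ} (hmn : m ≤ n) {Z : ℝ → (Wd.W n).E} {a b : ℝ}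
    (hZ : (Wd.W n).Adm Z a b) (hx : (x.1 n : Set (ℝ × (Wd.W n).E)) = (Wd.W n).trk Z (Icc a b)) :
    (Wd.W m).Adm (fun s => Wd.pr m n (Z s)) a b ∧
      (x.1 m : Set (ℝ × (Wd.W m).E)) = (Wd.W m).trk (fun s => Wd.pr m n (Z s)) (Icc a b) ∧
      vm (x.1 m) = min ((Wd.W m).V (Wd.pr m n (Z b))) (Wd.W m).H := by
  have h1 := (Wd.mor m n hmn).adm_one hZ
  have h2 : (x.1 m : Set (ℝ × (Wd.W m).E)) =
      (Wd.W m).trk (fun s => Wd.pr m n (Z s)) (Icc a b) := by
    rw [← x.2.2 m n hmn]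
    exact push_spec (Wd.good m) (Wd.good n) (Wd.mor m n hmn) hZ hx
  exact ⟨h1, h2, (Wd.good m).vm_trk h1 h2⟩

theorem repB_vm_anti (x : Wd.X) {m n : ℕ} (hmn : m ≤ n) (hm : vm (x.1 m) < (Wd.W m).H) :
    vm (x.1 n) ≤ vm (x.1 m) ∧ vm (x.1 n) < (Wd.W n).H := by
  obtain ⟨Z, a, b, hZ, hx⟩ := x.2.1 n
  obtain ⟨-, -, h3⟩ := Wd.repB_proj x hmn hZ hx
  have h4 := (Wd.good n).vm_trk hZ hx
  have h5 := (Wd.mor m n hmn).dom (Wd.good m) (Wd.good n) hZ (s := b) ⟨hZ.1, le_rfl⟩
  have h6 : (Wd.W m).V (Wd.pr m n (Z b)) = vm (x.1 m) := by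
    rcases le_total ((Wd.W m).V (Wd.pr m n (Z b))) (Wd.W m).H with h | h
    · rw [h3, min_eq_left h]
    · rw [min_eq_right h] at h3
      exact absurd h3 hm.ne
  have h7 : vm (x.1 n) ≤ vm (x.1 m) := by
    rw [h4]
    linarith [min_le_left ((Wd.W n).V (Z b)) (Wd.W n).H]
  exact ⟨h7, lt_of_le_of_lt h7 (lt_of_lt_of_le hm (Wd.repB_H_mono hmn))⟩

/-- the approximating paths and their properties -/
theorem repB_approx (x : Wd.X) {m0 : ℕ} (hm0 : vm (x.1 m0) < (Wd.W m0).H) :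
    ∃ R : ∀ m : ℕ, ℕ → ℝ → (Wd.W m).E,
      (∀ m k n, m ≤ k → k ≤ n → ∀ t, Wd.pr m k (R k n t) = R m n t) ∧
      (∀ m n, m ≤ n → m0 ≤ n → ∀ a b, IsTraj (Wd.W m).K (fun s => R m n (-s)) a b) ∧
      (∀ m n, ∀ t t', t ≤ vm (x.1 n) → t' ≤ vm (x.1 n) → R m n t = R m n t') ∧
      (∀ m n, m ≤ n → m0 ≤ n → ∀ t, R m n t ∈ (Wd.W m).Om) ∧
      (∀ m n, m ≤ n → m0 ≤ n → ∀ t,
        repB_cl (vm (x.1 n)) (Wd.W n).H t ≤ (Wd.W m).V (R m n t)) ∧
      (∀ m n, m ≤ n → m0 ≤ m → ∀ t, (Wd.W m).V (R m n t) ≤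
        repB_cl (vm (x.1 n)) (Wd.W n).H t + (vm (x.1 m) - vm (x.1 n))) ∧
      (∀ m n, m < n → m0 ≤ n → ∀ t, 3 * (Wd.W m).H ≤ t →
        R m n t = (Wd.W m).far ((Wd.W m).V (R m n t))) ∧
      (∀ m n, m ≤ n → m0 ≤ n → ∀ t, (Wd.W m).Q (R m n t) ∈ (x.1 m : Set (ℝ × (Wd.W m).E))) ∧
      (∀ m n, m ≤ n → m0 ≤ n → ∀ t, t ≤ vm (x.1 n) →
        vm (x.1 m) = min ((Wd.W m).V (R m n t)) (Wd.W m).H) := by
  have hlt : ∀ n, m0 ≤ n → vm (x.1 n) < (Wd.W n).H := fun n hn => (Wd.repB_vm_anti x hn hm0).2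
  have hex : ∀ n, ∃ (G : ℝ → (Wd.W n).E) (A : ℝ), m0 ≤ n → (A ≤ -(Wd.W n).H ∧
      (Wd.W n).Adm G A (-vm (x.1 n)) ∧
      (x.1 n : Set (ℝ × (Wd.W n).E)) = (Wd.W n).trk G (Icc A (-vm (x.1 n))) ∧
      ∀ t, vm (x.1 n) ≤ t → t ≤ (Wd.W n).H → (Wd.W n).V (G (-t)) = t) := by
    intro n
    by_cases hn : m0 ≤ n
    · obtain ⟨G, A, hG⟩ := repB_witness (Wd.good n) (x.2.1 n) (hlt n hn)
      exact ⟨G, A, fun _ => hG⟩
    · exact ⟨fun _ => 0, 0, fun h => absurd h hn⟩
  choose G A hG using hex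
  have hmem : ∀ n, m0 ≤ n → ∀ t,
      -repB_cl (vm (x.1 n)) (Wd.W n).H t ∈ Icc (A n) (-vm (x.1 n)) := by
    intro n hn t
    have h1 := (hG n hn).1
    have h2 := repB_cl_ge (vm (x.1 n)) (Wd.W n).H t
    have h3 := repB_cl_le (hlt n hn).le t
    exact ⟨by linarith, by linarith⟩
  have hV : ∀ n, m0 ≤ n → ∀ t, (Wd.W n).V (G n (-repB_cl (vm (x.1 n)) (Wd.W n).H t)) =
      repB_cl (vm (x.1 n)) (Wd.W n).H t := fun n hn t =>
    (hG n hn).2.2.2 _ (repB_cl_ge _ _ _) (repB_cl_le (hlt n hn).le t)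
  refine ⟨fun m n t => Wd.pr m n (G n (-repB_cl (vm (x.1 n)) (Wd.W n).H t)),
    ?_, ?_, ?_, ?_, ?_, ?_, ?_, ?_, ?_⟩
  · intro m k n hmk hkn t
    exact Wd.pr_comp m k n hmk hkn _
  · intro m n hmn hn a b
    obtain ⟨h1, -, -⟩ := Wd.repB_proj x hmn (hG n hn).2.1 (hG n hn).2.2.1
    refine h1.2.1.reparam (fun z κ hκ σ h0 h1 => (Wd.good m).star z hκ h0 h1)
      (φ := fun s => -repB_cl (vm (x.1 n)) (Wd.W n).H (-s)) ?_ (fun s _ => hmem n hn _)
    intro s t _ hst _
    have := repB_cl_mono (vm (x.1 n)) (Wd.W n).H (neg_le_neg hst)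
    constructor <;> linarith [this.1, this.2]
  · intro m n t t' ht ht'
    simp only [repB_cl_low ht, repB_cl_low ht']
  · intro m n hmn hn t
    obtain ⟨h1, -, -⟩ := Wd.repB_proj x hmn (hG n hn).2.1 (hG n hn).2.2.1
    exact (Wd.good m).inv _ _ _ h1 _ (hmem n hn t)
  · intro m n hmn hn t
    have := (Wd.mor m n hmn).dom (Wd.good m) (Wd.good n) (hG n hn).2.1 (hmem n hn t)
    rw [hV n hn t] at this
    linarith
  · intro m n hmn hm t
    have hn : m0 ≤ n := hm.trans hmn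
    obtain ⟨-, -, h3⟩ := Wd.repB_proj x hmn (hG n hn).2.1 (hG n hn).2.2.1
    have h4 := (Wd.mor m n hmn).burn _ _ _ (hG n hn).2.1 _ _ (hmem n hn t).1 (hmem n hn t).2 le_rfl
    rw [hV n hn t, (hG n hn).2.2.2 _ le_rfl (hlt n hn).le] at h4
    have h6 : (Wd.W m).V (Wd.pr m n (G n (-vm (x.1 n)))) = vm (x.1 m) := by
      rcases le_total ((Wd.W m).V (Wd.pr m n (G n (-vm (x.1 n))))) (Wd.W m).H with h | h
      · rw [h3, min_eq_left h]
      · rw [min_eq_right h] at h3
        exact absurd h3 (hlt m hm).ne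
    rw [h6] at h4
    linarith
  · intro m n hmn hn t ht
    obtain ⟨h1, -, -⟩ := Wd.repB_proj x hmn.le (hG n hn).2.1 (hG n hn).2.2.1
    have h3 := Wd.repB_H_three hmn
    refine (Wd.good m).far_persist h1 (hmem n hn t) ?_
    intro s hs
    have hs' : s ∈ Icc (A n) (-vm (x.1 n)) := ⟨hs.1, hs.2.le.trans (hmem n hn t).2⟩
    have h4 := (Wd.mor m n hmn.le).dom (Wd.good m) (Wd.good n) (hG n hn).2.1 hs'
    have h5 : 3 * (Wd.W m).H ≤ repB_cl (vm (x.1 n)) (Wd.W n).H t :=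
      le_max_of_le_right (le_min ht h3)
    have h6 : 3 * (Wd.W m).H ≤ (Wd.W n).V (G n s) := by
      by_cases h7 : (Wd.W n).V (G n s) ≤ (Wd.W n).H
      · have := (Wd.good n).V_anti (hG n hn).2.1 hs.1 hs.2.le (hmem n hn t).2 h7
        rw [hV n hn t] at this
        linarith
      · linarith [not_le.mp h7]
    linarith
  · intro m n hmn hn t
    obtain ⟨-, h2, -⟩ := Wd.repB_proj x hmn (hG n hn).2.1 (hG n hn).2.2.1
    rw [h2]
    exact ⟨_, hmem n hn t, rfl⟩
  · intro m n hmn hn t ht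
    obtain ⟨-, -, h3⟩ := Wd.repB_proj x hmn (hG n hn).2.1 (hG n hn).2.2.1
    simp only [repB_cl_low ht]
    exact h3

/-- Plan: `vm (x n)` is eventually below `H n` and nonincreasing, let `w` be its limit.  For large
`n` take a witness at level `n`, a time `s0` with `V = H n`, and reparametrise by the clock
(`reparamV`), constant below `vm (x n)` and above `H n`.  `P m t` is the limit of the projections
along an ultrafilter finer than `atTop`. -/
theorem exists_rep {x : Wd.X} (hx : x ≠ Wd.root) : ∃ w P, Wd.Rep x w P := by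
  obtain ⟨m0, hm0⟩ := Wd.ne_root hx
  obtain ⟨R, r1, r2, r3, r4, r5, r6, r7, r8, r9⟩ := Wd.repB_approx x hm0
  have hlt : ∀ n, m0 ≤ n → vm (x.1 n) < (Wd.W n).H := fun n hn => (Wd.repB_vm_anti x hn hm0).2
  have hv0 : ∀ n, 0 ≤ vm (x.1 n) := fun n => ((Wd.good n).Y_top (x.2.1 n)).2.1
  have hanti : ∀ m n, m0 ≤ m → m ≤ n → vm (x.1 n) ≤ vm (x.1 m) := fun m n hm hmn =>
    (Wd.repB_vm_anti x hmn (hlt m hm)).1
  -- the limit of the lowest levels
  obtain ⟨w, hw, hwle, hw0⟩ : ∃ w : ℝ, Tendsto (fun n => vm (x.1 n)) atTop (𝓝 w) ∧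
      (∀ n, m0 ≤ n → w ≤ vm (x.1 n)) ∧ 0 ≤ w := by
    have ha : Antitone (fun n => vm (x.1 (n + m0))) := fun m n hmn =>
      hanti _ _ (Nat.le_add_left _ _) (Nat.add_le_add_right hmn _)
    have hb : BddBelow (range (fun n => vm (x.1 (n + m0)))) := ⟨0, by
      rintro _ ⟨n, rfl⟩
      exact hv0 _⟩
    have ht := tendsto_atTop_ciInf ha hb
    have ht' := (tendsto_add_atTop_iff_nat (f := fun n => vm (x.1 n)) m0).mp ht
    refine ⟨_, ht', fun n hn => ?_, ge_of_tendsto' ht' hv0⟩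
    exact le_of_tendsto ht' (eventually_atTop.mpr ⟨n, fun k hk => hanti n k hn hk⟩)
  have hcl : ∀ t, w ≤ t →
      Tendsto (fun n => repB_cl (vm (x.1 n)) (Wd.W n).H t) atTop (𝓝 t) := by
    intro t ht
    have h1 : Tendsto (fun n => max (vm (x.1 n)) t) atTop (𝓝 (max w t)) :=
      hw.max tendsto_const_nhds
    rw [max_eq_right ht] at h1
    refine h1.congr' ?_
    filter_upwards [Wd.repB_H_tendsto.eventually_ge_atTop t] with n hn
    simp only [repB_cl, min_eq_left hn]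
  -- uniform bounds
  have hbd : ∀ m (T : ℝ), ∃ r : ℝ, ∀ n, m ≤ n → m0 ≤ n → ∀ t, t ≤ T → ‖R m n t‖ ≤ r := by
    have key : ∀ m, m0 ≤ m → ∀ T : ℝ, ∃ r : ℝ, ∀ n, m ≤ n → ∀ t, t ≤ T → ‖R m n t‖ ≤ r := by
      intro m hm T
      obtain ⟨r, hr⟩ := (Wd.good m).bdd (max (vm (x.1 m)) T + vm (x.1 m))
      refine ⟨r, fun n hmn t ht => hr _ (r4 m n hmn (hm.trans hmn) t) ?_⟩
      have h1 := r6 m n hmn hm t
      have h2 := repB_cl_le_max (vm (x.1 n)) (Wd.W n).H t
      have h3 : max (vm (x.1 n)) t ≤ max (vm (x.1 m)) T := max_le_max (hanti m n hm hmn) ht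
      linarith [hv0 n]
    intro m T
    rcases le_total m0 m with hm | hm
    · obtain ⟨r, hr⟩ := key m hm T
      exact ⟨r, fun n hmn _ t ht => hr n hmn t ht⟩
    · obtain ⟨r, hr⟩ := key m0 le_rfl T
      refine ⟨r, fun n _ hn t ht => ?_⟩
      rw [← r1 m m0 n hm hn t]
      exact ((Wd.mor m m0 hm).norm_le _).trans (hr n hn t ht)
  let Uf : Ultrafilter ℕ := Ultrafilter.of atTop
  have hU : (Uf : Filter ℕ) ≤ atTop := Ultrafilter.of_le _
  have hev : ∀ k : ℕ, ∀ᶠ n in (Uf : Filter ℕ), k ≤ n ∧ m0 ≤ n := fun k =>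
    hU ((eventually_ge_atTop k).and (eventually_ge_atTop m0))
  have hlim : ∀ m (t : ℝ), ∃ p : (Wd.W m).E, Tendsto (fun n => R m n t) (Uf : Filter ℕ) (𝓝 p) := by
    intro m t
    have : ProperSpace (Wd.W m).E := FiniteDimensional.proper_real _
    obtain ⟨r, hr⟩ := hbd m t
    have hc : IsCompact (closedBall (0 : (Wd.W m).E) r) := isCompact_closedBall _ _
    have hle : ((Uf.map (fun n => R m n t) : Ultrafilter (Wd.W m).E) : Filter (Wd.W m).E) ≤
        𝓟 (closedBall (0 : (Wd.W m).E) r) := by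
      rw [le_principal_iff, Ultrafilter.coe_map, mem_map]
      filter_upwards [hev m] with n hn
      exact mem_closedBall_zero_iff.mpr (hr n hn.1 hn.2 t le_rfl)
    obtain ⟨p, -, hp⟩ := hc.ultrafilter_le_nhds _ hle
    exact ⟨p, hp⟩
  choose P hP using hlim
  have hPV : ∀ m t, Tendsto (fun n => (Wd.W m).V (R m n t)) (Uf : Filter ℕ)
      (𝓝 ((Wd.W m).V (P m t))) := fun m t => ((Wd.W m).V.continuous.tendsto _).comp (hP m t)
  have hcompat : ∀ m k, m ≤ k → ∀ t, Wd.pr m k (P k t) = P m t := by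
    intro m k hmk t
    have h1 : Tendsto (fun n => Wd.pr m k (R k n t)) (Uf : Filter ℕ) (𝓝 (Wd.pr m k (P k t))) :=
      ((Wd.pr m k).continuous.tendsto _).comp (hP k t)
    refine tendsto_nhds_unique (h1.congr' ?_) (hP m t)
    filter_upwards [hev k] with n hn
    exact r1 m k n hmk hn.1 t
  have hleV : ∀ m t, w ≤ t → t ≤ (Wd.W m).V (P m t) := by
    intro m t ht
    refine le_of_tendsto_of_tendsto ((hcl t ht).mono_left hU) (hPV m t) ?_
    filter_upwards [hev m] with n hn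
    exact r5 m n hn.1 hn.2 t
  have hVle : ∀ m, m0 ≤ m → ∀ t, w ≤ t → (Wd.W m).V (P m t) ≤ t + (vm (x.1 m) - w) := by
    intro m hm t ht
    have h1 : Tendsto (fun n => repB_cl (vm (x.1 n)) (Wd.W n).H t + (vm (x.1 m) - vm (x.1 n)))
        atTop (𝓝 (t + (vm (x.1 m) - w))) := (hcl t ht).add (tendsto_const_nhds.sub hw)
    refine le_of_tendsto_of_tendsto (hPV m t) (h1.mono_left hU) ?_
    filter_upwards [hev m] with n hn
    exact r6 m n hn.1 hm t
  have hfar : ∀ m t, 3 * (Wd.W m).H ≤ t → P m t = (Wd.W m).far ((Wd.W m).V (P m t)) := by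
    intro m t ht
    apply (Wd.good m).eq_far_of_J
    have h1 : Tendsto (fun n => (Wd.W m).J (R m n t)) (Uf : Filter ℕ) (𝓝 ((Wd.W m).J (P m t))) :=
      ((Wd.W m).J.continuous.tendsto _).comp (hP m t)
    refine tendsto_nhds_unique h1 (tendsto_const_nhds.congr' ?_)
    filter_upwards [hev (m + 1)] with n hn
    rw [r7 m n hn.1 hn.2 t ht, (Wd.good m).J_far]
  have hpath : ∀ m, (Wd.W m).TPath w (P m) := by
    intro m
    refine ⟨hw0, ?_, ?_, hleV m, fun t _ ht => hfar m t ht, ?_⟩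
    · intro T _
      obtain ⟨r, hr⟩ := hbd m T
      obtain ⟨C, -, hC⟩ := (Wd.good m).normalC r
      refine ⟨C, (Wd.good m).limit (l := (Uf : Filter ℕ)) (Zs := fun n s => R m n (-s)) ?_
        (fun s _ => hP m (-s))⟩
      filter_upwards [hev m] with n hn
      exact hC _ _ _ (r2 m n hn.1 hn.2 _ _) (fun s hs => hr n hn.1 hn.2 _ (by linarith [hs.1]))
    · intro t ht
      refine tendsto_nhds_unique ((hP m t).congr' ?_) (hP m w)
      filter_upwards [hev m] with n hn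
      exact r3 m n t w (ht.trans (hwle n hn.2)) (hwle n hn.2)
    · rw [Metric.tendsto_atTop]
      intro ε hε
      obtain ⟨k, hk1, hk2, hk3⟩ : ∃ k, m ≤ k ∧ m0 ≤ k ∧ vm (x.1 k) < w + ε := by
        have h1 : ∀ᶠ k in atTop, vm (x.1 k) < w + ε :=
          hw.eventually (gt_mem_nhds (by linarith))
        obtain ⟨k, hk⟩ := ((eventually_ge_atTop m).and ((eventually_ge_atTop m0).and h1)).exists
        exact ⟨k, hk.1, hk.2.1, hk.2.2⟩
      refine ⟨max w (3 * (Wd.W k).H), fun t ht => ?_⟩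
      have h1 : w ≤ t := (le_max_left _ _).trans ht
      have h2 : 3 * (Wd.W k).H ≤ t := (le_max_right _ _).trans ht
      have h3 : (Wd.W m).V (P m t) = (Wd.W k).V (P k t) := by
        rw [← hcompat m k hk1 t]
        conv_lhs => rw [hfar k t h2]
        rw [(Wd.mor m k hk1).far, (Wd.good m).V_far, div_one]
      have h4 := hleV k t h1
      have h5 := hVle k hk2 t h1
      rw [Real.dist_eq, sub_zero, h3, abs_lt]
      constructor <;> linarith
  refine ⟨w, P, ⟨hpath, hcompat, ?_⟩, ?_⟩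
  · refine tendsto_of_tendsto_of_tendsto_of_le_of_le' tendsto_const_nhds hw
      (Eventually.of_forall fun n => hleV n w le_rfl) ?_
    filter_upwards [eventually_ge_atTop m0] with n hn
    linarith [hVle n hn w le_rfl]
  · intro m
    have hT1 : w ≤ max w (3 * (Wd.W m).H) := le_max_left _ _
    have hT2 : 3 * (Wd.W m).H ≤ max w (3 * (Wd.W m).H) := le_max_right _ _
    have hadm := (hpath m).adm (Wd.good m) hT1 hT2
    obtain ⟨y, hyY, hy⟩ := (Wd.good m).exists_trk hadm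
    rw [trk_Ici (Wd.good m) (hpath m) hT1 hT2, ← hy]
    have hsub : (y : Set (ℝ × (Wd.W m).E)) ⊆ x.1 m := by
      rw [hy]
      rintro q ⟨s, -, rfl⟩
      have h1 : Tendsto (fun n => (Wd.W m).Q (R m n (-s))) (Uf : Filter ℕ)
          (𝓝 ((Wd.W m).Q (P m (-s)))) := ((Wd.W m).Q_cont.tendsto _).comp (hP m (-s))
      refine (x.1 m).isCompact.isClosed.mem_of_tendsto h1 ?_
      filter_upwards [hev m] with n hn
      exact r8 m n hn.1 hn.2 _
    have hvy : vm y = vm (x.1 m) := by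
      rw [(Wd.good m).vm_trk hadm hy, neg_neg]
      refine tendsto_nhds_unique ((hPV m w).min tendsto_const_nhds)
        (tendsto_const_nhds.congr' ?_)
      filter_upwards [hev m] with n hn
      exact r9 m n hn.1 hn.2 w (hwle n hn.2)
    rw [(Wd.good m).Y_subset hyY (x.2.1 m) hsub, hvy]
    ext q
    exact ⟨fun hq => ⟨hq, vm_le _ hq⟩, fun hq => hq.1⟩

theorem chain (x y z : Wd.X) (hy : Wd.le y x) (hz : Wd.le z x) : Wd.le y z ∨ Wd.le z y := by
  by_cases h1 : y = Wd.root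
  · left
    rw [h1]
    exact Wd.root_le z
  by_cases h2 : z = Wd.root
  · right
    rw [h2]
    exact Wd.root_le y
  have hx : x ≠ Wd.root := by
    rintro rfl
    exact h1 (Wd.le_antisymm' _ _ hy (Wd.root_le y))
  obtain ⟨w, P, hP⟩ := Wd.exists_rep hx
  obtain ⟨t, -, ht⟩ := hP.of_le hy h1
  obtain ⟨t', -, ht'⟩ := hP.of_le hz h2
  rcases le_total t t' with h | h
  · exact Or.inr (ht.cut_le ht' h)
  · exact Or.inl (ht'.cut_le ht h)

theorem repB_trk_cut (S : Sys) (P : ℝ → S.E) (t : ℝ) :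
    S.trk (fun s => P (max s t)) (Ici t) = S.trk P (Ici t) := by
  unfold Sys.trk
  refine Set.image_congr (fun s hs => ?_)
  simp only [max_eq_left (mem_Ici.mp hs)]

/-- Plan: the lower set is the closure of the image of `Ici w` under the continuous map that sends
`t` to the cut at `t` (the cuts tend to the root). -/
theorem conn (x : Wd.X) : IsPreconnected {y | Wd.le y x} := by
  by_cases hx : x = Wd.root
  · refine Set.Subsingleton.isPreconnected ?_
    intro y hy z hz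
    rw [hx] at hy hz
    rw [Wd.le_antisymm' _ _ hy (Wd.root_le y), Wd.le_antisymm' _ _ hz (Wd.root_le z)]
  obtain ⟨w, P, hP⟩ := Wd.exists_rep hx
  have hex : ∀ t : ℝ, ∃ y : Wd.X, w ≤ t → Wd.Rep y t (fun n s => P n (max s t)) := by
    intro t
    by_cases ht : w ≤ t
    · obtain ⟨y, hy⟩ := (hP.1.cut ht).exists_point
      exact ⟨y, fun _ => hy⟩
    · exact ⟨x, fun h => absurd h ht⟩
  choose c hc using hex
  have hcs : ∀ t, w ≤ t → ∀ n,
      ((c t).1 n : Set (ℝ × (Wd.W n).E)) = (Wd.W n).trk (P n) (Ici t) := by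
    intro t ht n
    rw [(hc t ht).2 n]
    exact repB_trk_cut _ _ _
  have hcont : ContinuousOn c (Ici w) := by
    rw [Topology.IsInducing.subtypeVal.continuousOn_iff, continuousOn_pi]
    intro n
    obtain ⟨C, hC, hd⟩ := trk_dist (Wd.good n)
    have hl : LipschitzOnWith (Real.toNNReal C) (fun t => (c t).1 n) (Ici w) := by
      refine LipschitzOnWith.of_dist_le_mul (fun t ht t' ht' => ?_)
      rw [Real.coe_toNNReal _ hC.le, Real.dist_eq]
      exact (hd w (P n) (hP.1.path n)).2 t t' _ _ (hcs t ht n) (hcs t' ht' n)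
    exact hl.continuousOn
  refine (isPreconnected_Ici.image c hcont).subset_closure ?_ ?_
  · rintro _ ⟨t, ht, rfl⟩
    exact hP.cut_le' (hc t ht) ht
  · intro y hy
    by_cases hr : y = Wd.root
    · have ht : Tendsto c atTop (𝓝 y) := by
        rw [tendsto_subtype_rng, tendsto_pi_nhds]
        intro n
        refine tendsto_const_nhds.congr' ?_
        filter_upwards [eventually_ge_atTop w, eventually_ge_atTop (Wd.W n).H] with t h1 h2
        apply SetLike.coe_injective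
        rw [hcs t h1 n, hr]
        change ({((Wd.W n).H, 0)} : Set (ℝ × (Wd.W n).E)) = _
        apply Set.Subset.antisymm
        · rintro q rfl
          refine ⟨t, mem_Ici.mpr le_rfl, ?_⟩
          exact (Wd.W n).Q_of_ge (h2.trans ((hP.1.path n).le_V t h1))
        · rintro q ⟨s, hs, rfl⟩
          have hs' : t ≤ s := hs
          exact (Wd.W n).Q_of_ge ((h2.trans hs').trans ((hP.1.path n).le_V s (h1.trans hs')))
      refine mem_closure_of_tendsto ht ?_
      filter_upwards [eventually_ge_atTop w] with t h1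
      exact ⟨t, h1, rfl⟩
    · obtain ⟨t, ht, hyt⟩ := hP.of_le hy hr
      refine subset_closure ⟨t, ht, ?_⟩
      apply Subtype.ext
      funext n
      apply SetLike.coe_injective
      rw [(hc t ht).2 n, hyt.2 n]

end World

end Pool.Agent.MP703675
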