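import Pool.Agent.Lib.MP_703675_gt.ThreadA
import Pool.Agent.Lib.MP_703675_gt.RepB

set_option autoImplicit false

open Set Metric Filter Topology TopologicalSpace

noncomputable section

namespace Pool.Agent.MP703675

theorem threadB_traj {S : Sys} {w t0 : ℝ} {P : ℝ → S.E} (hP : S.TPath w P) (ht : w ≤ t0)
    (a' : ℝ) : IsTraj S.K (fun s => P (-s)) a' (-t0) :=
  (hP.traj (max (-a') w) (le_max_right _ _)).restrict
    (by have := le_max_left (-a') w; linarith) (by linarith)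

/-- follow `P` down to the time `t0`, then move along `c` -/
def threadB_burn {S : Sys} (P : ℝ → S.E) (t0 : ℝ) (c : S.E) (s : ℝ) : S.E :=
  P (max (-s) t0) + max (s + t0) 0 • c

theorem threadB_burn_le {S : Sys} (P : ℝ → S.E) {t0 : ℝ} (c : S.E) {s : ℝ} (hs : s ≤ -t0) :
    threadB_burn P t0 c s = P (-s) := by
  unfold threadB_burn
  rw [max_eq_left (by linarith), max_eq_right (by linarith), zero_smul, add_zero]

theorem threadB_burn_ge {S : Sys} (P : ℝ → S.E) {t0 : ℝ} (c : S.E) {s : ℝ} (hs : -t0 ≤ s) :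
    threadB_burn P t0 c s = P t0 + (s + t0) • c := by
  unfold threadB_burn
  rw [max_eq_right (by linarith), max_eq_left (by linarith)]

theorem threadB_burn_V {S : Sys} (P : ℝ → S.E) {t0 : ℝ} {c : S.E} (hc : S.HasCtr c) {s : ℝ}
    (hs : -t0 ≤ s) : S.V (threadB_burn P t0 c s) = S.V (P t0) - (s + t0) := by
  rw [threadB_burn_ge P c hs, map_add, map_smul, hc.1, smul_eq_mul]
  ring

theorem threadB_burn_traj {S : Sys} (hS : S.Good) {w t0 : ℝ} {P : ℝ → S.E} (hP : S.TPath w P)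
    (ht : w ≤ t0) {c : S.E} (hc : S.HasCtr c) (hV : S.V (P t0) ≤ S.H) (a' e : ℝ) :
    IsTraj S.K (threadB_burn P t0 c) a' e := by
  refine hS.concat (b := -t0) ((threadB_traj hP ht a').congr fun s hs =>
    threadB_burn_le P c hs.2) ?_
  refine (isTraj_line (K := S.K) (P t0) c (-t0) e fun s hs => hc.2 _ ?_).congr fun s hs => ?_
  · rw [map_add, map_smul, hc.1, smul_eq_mul]
    have := hs.1
    linarith
  · rw [threadB_burn_ge P c hs.1, sub_neg_eq_add]

theorem threadB_trk_cut (S : Sys) (P : ℝ → S.E) (t : ℝ) :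
    S.trk (fun s => P (max s t)) (Ici t) = S.trk P (Ici t) :=
  Set.image_congr fun s hs => by
    have hs' : t ≤ s := hs
    simp only [max_eq_left hs']

namespace World

variable (Wd : World)

/-- the thread lemma along a family of true time paths -/
theorem threadB_thread {w t0 e : ℝ} {P : ∀ n, ℝ → (Wd.W n).E} (h : Wd.Fam w P) (ht : w ≤ t0)
    (K : ℕ) (Z : ℝ → (Wd.W K).E) (he0 : e ≤ 0) (hZ : ∀ a', IsTraj (Wd.W K).K Z a' e)
    (hZF : ∀ s, s ≤ -t0 → Z s = P K (-s)) (he : -t0 ≤ e - 2 * (1 / 2) ^ K) :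
    ∃ (z : Wd.X) (e' : ℝ), e - 2 * (1 / 2) ^ K ≤ e' ∧ e' ≤ e ∧
      (z.1 K : Set (ℝ × (Wd.W K).E)) = (Wd.W K).trk Z (Iic e') ∧
      ∀ n, K ≤ n → (Wd.W n).trk (P n) (Ici t0) ⊆ (z.1 n : Set (ℝ × (Wd.W n).E)) := by
  obtain ⟨z, e', h1, h2, h3, h4⟩ := Wd.thread K (fun n s => P n (-s))
    (fun n => -max (3 * (Wd.W n).H) t0) (fun _ => -t0) e Z (fun _ _ => le_rfl)
    (fun n _ => neg_le_neg (le_max_right _ _))
    (fun n _ a' => threadB_traj (h.path n) ht a') hZ
    (fun n _ s hs => by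
      have b1 := le_max_left (3 * (Wd.W n).H) t0
      have b2 := le_max_right (3 * (Wd.W n).H) t0
      have b3 := (h.path n).le_V (-s) (by linarith)
      exact ⟨_, by linarith, by linarith, (h.path n).far (-s) (by linarith) (by linarith)⟩)
    (fun n _ s _ => h.compat n (n + 1) (Nat.le_succ n) (-s)) hZF he
  refine ⟨z, e', h1, h2, h3, fun n hn => ?_⟩
  rintro _ ⟨t, ht', rfl⟩
  have ht'' : t0 ≤ t := ht'
  have := h4 n hn (-t) (by linarith)
  simpa only [neg_neg] using this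

theorem threadB_H_tendsto : Tendsto (fun n => (Wd.W n).H) atTop atTop := by
  refine tendsto_atTop_mono (fun n => ?_) tendsto_natCast_atTop_atTop
  have h1 := Wd.H_ge n
  have h2 : (0 : ℝ) ≤ n := Nat.cast_nonneg n
  linarith

theorem threadB_half : Tendsto (fun n : ℕ => (1 / 2 : ℝ) ^ n) atTop (𝓝 0) :=
  tendsto_pow_atTop_nhds_zero_of_lt_one (by norm_num) (by norm_num)

/-- Plan: large `k`, continue `P (k+1)` from time `w` along the burning direction for the duration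
`w`, apply `thread` at level `k + 1`. -/
theorem nonmax {x : Wd.X} {w : ℝ} {P : ∀ n, ℝ → (Wd.W n).E} (hx : Wd.Rep x w P) (hw : 0 < w) :
    ∃ z, Wd.le x z ∧ z ≠ x := by
  have e1 : ∀ᶠ n in atTop, (Wd.W n).V (P n w) < w + 1 :=
    hx.1.tail.eventually (gt_mem_nhds (by linarith))
  have e2 : ∀ᶠ n in atTop, w + 1 ≤ (Wd.W n).H := Wd.threadB_H_tendsto.eventually_ge_atTop _
  have e3 : ∀ᶠ n : ℕ in atTop, (1 / 2 : ℝ) ^ n < w / 2 :=
    threadB_half.eventually (gt_mem_nhds (by linarith))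
  obtain ⟨k, hk⟩ := eventually_atTop.1 (e1.and (e2.and e3))
  obtain ⟨a1, a2, a3⟩ := hk (k + 1) (Nat.le_succ k)
  obtain ⟨c, hc, -⟩ := Wd.ctr k
  obtain ⟨z, e', h1, -, h3, h4⟩ := Wd.threadB_thread hx.1 le_rfl (k + 1)
    (threadB_burn (P (k + 1)) w c) (e := 0) le_rfl
    (fun a' => threadB_burn_traj (Wd.good _) (hx.1.path _) le_rfl hc (by linarith) a' 0)
    (fun s hs => threadB_burn_le _ c hs) (by linarith)
  refine ⟨z, Wd.le_of_ge x z (k + 1) fun n hn => ?_, fun hzx => ?_⟩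
  · rw [hx.2 n]
    exact h4 n hn
  · have b1 : (Wd.W (k + 1)).Q (threadB_burn (P (k + 1)) w c e') ∈
        (z.1 (k + 1) : Set (ℝ × (Wd.W (k + 1)).E)) := by
      rw [h3]
      exact ⟨e', mem_Iic.2 le_rfl, rfl⟩
    have b2 := vm_le _ b1
    rw [hzx, hx.vm_eq, min_eq_left (by linarith)] at b2
    have b3 : ((Wd.W (k + 1)).Q (threadB_burn (P (k + 1)) w c e')).1 ≤
        (Wd.W (k + 1)).V (threadB_burn (P (k + 1)) w c e') := min_le_left _ _
    rw [threadB_burn_V _ hc (by linarith)] at b3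
    linarith

/-- the side branch at level `k + 1`: the path -/
theorem threadB_path {w ε : ℝ} {P : ∀ n, ℝ → (Wd.W n).E} (h : Wd.Fam w P) (k : ℕ)
    {c : (Wd.W (k + 1)).E} (hc : (Wd.W (k + 1)).HasCtr c) (hc0 : Wd.pr k (k + 1) c = 0)
    (hε : 0 ≤ ε) (hε' : ε ≤ 2) (hV : (Wd.W (k + 1)).V (P (k + 1) (w + 2)) ≤ (Wd.W (k + 1)).H) :
    ∃ Z : ℝ → (Wd.W (k + 1)).E, (∀ a', IsTraj (Wd.W (k + 1)).K Z a' (-w)) ∧
      (∀ s, s ≤ -(w + 2) + ε → Z s = threadB_burn (P (k + 1)) (w + 2) c s) ∧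
      ∀ s, s ≤ -w → ∃ t, w ≤ t ∧ Wd.pr k (k + 1) (Z s) = P k t ∧
        (-(w + 2) + ε ≤ s → t ≤ ε - s + (1 / 2) ^ k) := by
  have hw := (h.path k).nonneg
  have hS := Wd.good (k + 1)
  have hP := h.path (k + 1)
  have b1 := le_max_left (3 * (Wd.W (k + 1)).H) (w + 2)
  have b2 := le_max_right (3 * (Wd.W (k + 1)).H) (w + 2)
  generalize max (3 * (Wd.W (k + 1)).H) (w + 2) = A at b1 b2
  have b3 := hP.le_V A (by linarith)
  have htr := threadB_burn_traj hS hP (t0 := w + 2) (by linarith) hc hV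
  have hpr : ∀ s, -(w + 2) ≤ s →
      Wd.pr k (k + 1) (threadB_burn (P (k + 1)) (w + 2) c s) = P k (w + 2) := by
    intro s hs
    rw [threadB_burn_ge _ c hs, map_add, map_smul, hc0, smul_zero, add_zero,
      h.compat k (k + 1) (Nat.le_succ k)]
  have hY : IsTraj (Wd.W k).K (fun s => P k (-(s + -ε))) (-(w + 2) + ε) (-w) :=
    ((threadB_traj (h.path k) le_rfl (-(w + 2))).shift (-ε)).restrict (by linarith) (by linarith)
  obtain ⟨Z, φ, h1, h2, h3, h4, h5⟩ := Wd.lift k (threadB_burn (P (k + 1)) (w + 2) c)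
    (fun s => P k (-(s + -ε))) (-A) (-(w + 2) + ε) (-w) ((Wd.W (k + 1)).V (P (k + 1) A))
    (by linarith) (by linarith) (htr _ _)
    (by
      rw [threadB_burn_le _ c (by linarith), neg_neg]
      exact hP.far A (by linarith) b1)
    (by linarith) (by linarith) hY
    (by
      rw [hpr _ (by linarith)]
      congr 1
      ring)
  refine ⟨Z, fun a' => hS.concat (b := -A) ((htr a' (-A)).congr fun s hs => h1 s ?_) h2, h1,
    fun s hs => ?_⟩
  · have := hs.2
    linarith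
  · rcases le_total s (-(w + 2)) with c1 | c1
    · refine ⟨-s, by linarith, ?_, fun c2 => ?_⟩
      · rw [h1 s (by linarith), threadB_burn_le _ c c1, h.compat k (k + 1) (Nat.le_succ k)]
      · have : (0 : ℝ) ≤ (1 / 2) ^ k := by positivity
        linarith
    · rcases le_total s (-(w + 2) + ε) with c2 | c2
      · refine ⟨w + 2, by linarith, ?_, fun c3 => ?_⟩
        · rw [h1 s c2, hpr s c1]
        · have : (0 : ℝ) ≤ (1 / 2) ^ k := by positivity
          linarith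
      · obtain ⟨d1, d2⟩ := h5 s c2 hs
        obtain ⟨-, d3⟩ := h4 _ s le_rfl c2 hs
        exact ⟨-(φ s + -ε), by linarith, d2, fun _ => by linarith⟩

/-- the lower level of a side branch is a cut of the original point -/
theorem threadB_low {x z : Wd.X} {w e' t : ℝ} {P : ∀ n, ℝ → (Wd.W n).E} (hx : Wd.Rep x w P)
    (k : ℕ) {Z : ℝ → (Wd.W (k + 1)).E} (hZ : ∀ a', IsTraj (Wd.W (k + 1)).K Z a' e')
    (he : -(w + 2) ≤ e') (he' : e' ≤ 0) (hZF : ∀ s, s ≤ -(w + 2) → Z s = P (k + 1) (-s))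
    (hz : (z.1 (k + 1) : Set (ℝ × (Wd.W (k + 1)).E)) = (Wd.W (k + 1)).trk Z (Iic e'))
    (hpr : ∀ s, s ≤ e' → ∃ t, w ≤ t ∧ Wd.pr k (k + 1) (Z s) = P k t) (ht : w ≤ t)
    (hlast : Wd.pr k (k + 1) (Z e') = P k t) (m : ℕ) (hm : m ≤ k) :
    (z.1 m : Set (ℝ × (Wd.W m).E)) = (Wd.W m).trk (P m) (Ici t) := by
  have hS := Wd.good (k + 1)
  have hP := hx.1.path (k + 1)
  have hH := hS.H_pos
  have b1 := le_max_left (3 * (Wd.W (k + 1)).H) (w + 2)
  have b2 := le_max_right (3 * (Wd.W (k + 1)).H) (w + 2)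
  generalize max (3 * (Wd.W (k + 1)).H) (w + 2) = A at b1 b2
  have b3 := hP.le_V A (by linarith)
  have hadm : (Wd.W (k + 1)).Adm Z (-A) e' := by
    refine ⟨by linarith, hZ _, (Wd.W (k + 1)).V (P (k + 1) A), by linarith, by linarith, ?_⟩
    rw [hZF _ (by linarith), neg_neg]
    exact hP.far A (by linarith) b1
  have hz' : (z.1 (k + 1) : Set (ℝ × (Wd.W (k + 1)).E)) = (Wd.W (k + 1)).trk Z (Icc (-A) e') := by
    rw [hz]
    refine Subset.antisymm ?_ (image_mono Icc_subset_Iic_self)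
    rintro _ ⟨s, hs, rfl⟩
    rcases le_total (-A) s with c1 | c1
    · exact ⟨s, ⟨c1, hs⟩, rfl⟩
    · refine ⟨-A, ⟨le_rfl, by linarith⟩, ?_⟩
      have b4 := hP.le_V (-s) (by linarith)
      simp only
      rw [hZF _ (by linarith), hZF s (by linarith), neg_neg, Sys.Q_of_ge _ (by linarith),
        Sys.Q_of_ge _ (by linarith)]
  have hmor := Wd.mor k (k + 1) (Nat.le_succ k)
  have hk : (z.1 k : Set (ℝ × (Wd.W k).E)) =
      (Wd.W k).trk (fun s => Wd.pr k (k + 1) (Z s)) (Icc (-A) e') := by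
    rw [← z.2.2 k (k + 1) (Nat.le_succ k)]
    exact push_spec (Wd.good k) hS hmor hadm hz'
  obtain ⟨y, hy⟩ := (hx.1.cut ht).exists_point
  have hzx : (z.1 k : Set (ℝ × (Wd.W k).E)) ⊆ x.1 k := by
    rw [hk, hx.2 k]
    rintro _ ⟨s, hs, rfl⟩
    obtain ⟨t', d1, d2⟩ := hpr s hs.2
    exact ⟨t', d1, by simp only [d2]⟩
  have hvm : vm (z.1 k) = vm (y.1 k) := by
    rw [(Wd.good k).vm_trk (hmor.adm_one hadm) hk, hy.vm_eq k, hlast, max_self]
  have hzy : z.1 k = y.1 k := by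
    apply NonemptyCompacts.ext
    rw [(Wd.good k).Y_subset (z.2.1 k) (x.2.1 k) hzx,
      (Wd.good k).Y_subset (y.2.1 k) (x.2.1 k) (hx.cut_le' hy ht k), hvm]
  rw [← z.2.2 m k hm, hzy, y.2.2 m k hm, hy.2 m, threadB_trk_cut]

/-- the side branch at level `k + 1` -/
theorem threadB_side {x : Wd.X} {w : ℝ} {P : ∀ n, ℝ → (Wd.W n).E} (hx : Wd.Rep x w P) (k : ℕ)
    (hδ : ((Wd.W (k + 1)).V (P (k + 1) w) - w) + (((Wd.W k).V (P k w) - w) + (1 / 2) ^ k) ≤ 1)
    (hH : w + 4 ≤ (Wd.W (k + 1)).H) :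
    ∃ z : Wd.X, (∃ t, |t - w| ≤ ((Wd.W k).V (P k w) - w) + 4 * (1 / 2) ^ k ∧
        ∀ m, m ≤ k → (z.1 m : Set (ℝ × (Wd.W m).E)) = (Wd.W m).trk (P m) (Ici t)) ∧
      (∀ n, k + 1 ≤ n → (Wd.W n).trk (P n) (Ici (w + 2)) ⊆ (z.1 n : Set (ℝ × (Wd.W n).E))) ∧
      ∀ (y : Wd.X) (t : ℝ), w ≤ t → Wd.Rep y t (fun n s => P n (max s t)) → Wd.le y z →
        w + 1 ≤ t := by
  have h := hx.1
  have hw := (h.path k).nonneg
  have hS := Wd.good (k + 1)
  have hP := h.path (k + 1)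
  have p1 := (h.burn k le_rfl).1
  have p2 := (h.burn (k + 1) le_rfl).1
  obtain ⟨p3, p4⟩ := h.burn (k + 1) (t := w + 2) (by linarith)
  have p5 : (0 : ℝ) < (1 / 2) ^ k := by positivity
  have p6 : (1 / 2 : ℝ) ^ (k + 1) = (1 / 2) ^ k / 2 := by ring
  obtain ⟨c, hc, hc0⟩ := Wd.ctr k
  obtain ⟨ε, hε⟩ : ∃ ε : ℝ, ε = ((Wd.W k).V (P k w) - w) + (1 / 2) ^ k := ⟨_, rfl⟩
  obtain ⟨Z, h1, h2, h3⟩ := Wd.threadB_path (ε := ε) h k hc hc0 (by linarith) (by linarith)
    (by linarith)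
  have hZF : ∀ s, s ≤ -(w + 2) → Z s = P (k + 1) (-s) := fun s hs => by
    rw [h2 s (by linarith), threadB_burn_le _ c hs]
  obtain ⟨z, e', a1, a2, a3, a4⟩ := Wd.threadB_thread h (t0 := w + 2) (e := -w) (by linarith)
    (k + 1) Z (by linarith) h1 hZF (by linarith)
  obtain ⟨t, t1, t2, t3⟩ := h3 e' a2
  have t4 := t3 (by linarith)
  refine ⟨z, ⟨t, ?_, Wd.threadB_low hx k (fun a' => (h1 a').restrict le_rfl a2) (by linarith)
    (by linarith) hZF a3 (fun s hs => ?_) t1 t2⟩, a4, fun y t' ht' hy hyz => ?_⟩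
  · rw [abs_of_nonneg (by linarith)]
    linarith
  · obtain ⟨t', d1, d2, -⟩ := h3 s (by linarith)
    exact ⟨t', d1, d2⟩
  · by_contra hlt
    rw [not_le] at hlt
    have hV : (Wd.W (k + 1)).V (Z (-(w + 2) + ε)) = (Wd.W (k + 1)).V (P (k + 1) (w + 2)) - ε := by
      rw [h2 _ le_rfl, threadB_burn_V _ hc (by linarith)]
      ring
    have hpr : Wd.pr k (k + 1) (Z (-(w + 2) + ε)) = P k (w + 2) := by
      rw [h2 _ le_rfl, threadB_burn_ge _ c (by linarith), map_add, map_smul, hc0, smul_zero,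
        add_zero, h.compat k (k + 1) (Nat.le_succ k)]
    have b1 : (Wd.W (k + 1)).Q (Z (-(w + 2) + ε)) ∈ (z.1 (k + 1) : Set (ℝ × (Wd.W (k + 1)).E)) := by
      rw [a3]
      exact ⟨_, mem_Iic.2 (by linarith), rfl⟩
    have b2 : (Wd.W (k + 1)).Q (Z (-(w + 2) + ε)) ∈ (y.1 (k + 1) : Set (ℝ × (Wd.W (k + 1)).E)) := by
      rw [hS.Y_subset (y.2.1 _) (z.2.1 _) (hyz (k + 1))]
      refine ⟨b1, ?_⟩
      rw [hy.vm_eq, max_self]
      have := (h.burn (k + 1) ht').2
      exact min_le_min_right _ (by linarith)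
    rw [hy.2, threadB_trk_cut] at b2
    obtain ⟨t'', c1, c2⟩ := b2
    have c1' : t' ≤ t'' := c1
    have c3 : Z (-(w + 2) + ε) = P (k + 1) t'' := Sys.Q_inj _ (by linarith) c2.symm
    rw [c3, h.compat k (k + 1) (Nat.le_succ k)] at hpr
    rw [c3] at hV
    have c4 := (h.burn k (t := t'') (by linarith)).2
    have c5 := (h.burn (k + 1) (t := t'') (by linarith)).1
    have b3 := le_max_left (3 * (Wd.W (k + 1)).H) (w + 2)
    have b4 := le_max_right (3 * (Wd.W (k + 1)).H) (w + 2)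
    have c6 := (Wd.mor k (k + 1) (Nat.le_succ k)).dom (Wd.good k) hS
      (hP.adm hS (T := max (3 * (Wd.W (k + 1)).H) (w + 2)) (by linarith) b3) (s := -(w + 2))
      ⟨by linarith, by linarith⟩
    rw [neg_neg, h.compat k (k + 1) (Nat.le_succ k), ← hpr] at c6
    linarith

/-- Plan: `u` is the cut at `w + 2`, `u'` the cut at `w + 1`.  For large `k` follow `P (k+1)` down
to the time `w + 2`, burn for the duration `ε = (V (P k w) - w) + (1/2)^k`, then `Wd.lift` the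
path `P k` for the remaining duration `2 - ε`, and apply `thread` at level `k + 1`.  The points
`z k` converge to `x`.  If a cut `c` of `x` at a time `t < w + 1` were below `z k`, the state after
the burning would lie on `P (k+1)`, but its burn relative to level `k` is too large. -/
theorem branch (x : Wd.X) (hx : x ≠ Wd.root) : ∃ u u', u ≠ Wd.root ∧ Wd.le u u' ∧ Wd.le u' x ∧
    u' ≠ x ∧ ∀ N ∈ 𝓝 x, ∃ z ∈ N, Wd.le u z ∧ ∀ c, Wd.le c z → Wd.le c x → Wd.le c u' := by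
  obtain ⟨w, P, hr⟩ := Wd.exists_rep hx
  obtain ⟨u, hu⟩ := (hr.1.cut (t := w + 2) (by linarith)).exists_point
  obtain ⟨u', hu'⟩ := (hr.1.cut (t := w + 1) (by linarith)).exists_point
  refine ⟨u, u', hu.ne_root, hu'.cut_le hu (by linarith), hr.cut_le' hu' (by linarith),
    fun h => ?_, fun N hN => ?_⟩
  · rw [h] at hu'
    have := hr.w_unique hu'
    linarith
  · have hδ : Tendsto (fun n => (Wd.W n).V (P n w) - w) atTop (𝓝 0) := by
      have := hr.1.tail.sub_const w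
      rwa [sub_self] at this
    have hδ' : Tendsto (fun n => (Wd.W (n + 1)).V (P (n + 1) w) - w) atTop (𝓝 0) :=
      hδ.comp (tendsto_add_atTop_nat 1)
    have e1 : ∀ᶠ k in atTop, ((Wd.W (k + 1)).V (P (k + 1) w) - w) +
        (((Wd.W k).V (P k w) - w) + (1 / 2) ^ k) ≤ 1 :=
      (hδ'.add (hδ.add threadB_half)).eventually (ge_mem_nhds (by norm_num))
    have e2 : ∀ᶠ k in atTop, w + 4 ≤ (Wd.W (k + 1)).H :=
      (Wd.threadB_H_tendsto.comp (tendsto_add_atTop_nat 1)).eventually_ge_atTop _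
    have : Nonempty Wd.X := ⟨x⟩
    obtain ⟨z, hz⟩ := ((e1.and e2).mono fun k hk => Wd.threadB_side hr k hk.1 hk.2).choice
    have hlim : Tendsto z atTop (𝓝 x) := by
      rw [tendsto_subtype_rng, tendsto_pi_nhds]
      intro m
      obtain ⟨C, hC, hd⟩ := trk_dist (Wd.good m)
      rw [tendsto_iff_dist_tendsto_zero]
      have h0 : Tendsto (fun k => C * (((Wd.W k).V (P k w) - w) + 4 * (1 / 2 : ℝ) ^ k)) atTop
          (𝓝 0) := by
        have := (hδ.add (threadB_half.const_mul 4)).const_mul C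
        simpa only [mul_zero, add_zero] using this
      refine squeeze_zero' (Eventually.of_forall fun _ => dist_nonneg) ?_ h0
      filter_upwards [hz, eventually_ge_atTop m] with k hk hm
      obtain ⟨t, t1, t2⟩ := hk.1
      exact ((hd w (P m) (hr.1.path m)).2 t w _ _ (t2 m hm) (hr.2 m)).trans
        (mul_le_mul_of_nonneg_left t1 hC.le)
    obtain ⟨k, k1, -, k2, k3⟩ := ((hlim.eventually_mem hN).and hz).exists
    refine ⟨z k, k1, Wd.le_of_ge u (z k) (k + 1) fun n hn => ?_, fun c hcz hcx => ?_⟩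
    · rw [hu.2 n, threadB_trk_cut]
      exact k2 n hn
    · by_cases hc : c = Wd.root
      · rw [hc]
        exact Wd.root_le u'
      · obtain ⟨t, t1, t2⟩ := hr.of_le hcx hc
        exact hu'.cut_le t2 (k3 c t t1 t2 hcz)

end World

end Pool.Agent.MP703675
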