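import Pool.Agent.Lib.MP_703675_gt.TransA
import Pool.Agent.Lib.MP_703675_gt.BackForth
import Pool.Agent.Lib.MP_703675_gt.ThreadB

set_option autoImplicit false

open Set Metric Filter Topology TopologicalSpace

noncomputable section

namespace Pool.Agent.MP703675

/-- dependent recursion for chains of two-level data -/
theorem transB_seq {T : ℕ → ℕ → Type} (Inv : ℕ → ∀ m k, T m k → Prop)
    (R : ∀ m k n, T m k → T k n → Prop) (h0 : ∃ m k t, Inv 0 m k t)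
    (hs : ∀ i m k t, Inv i m k t → ∃ n t', Inv (i + 1) k n t' ∧ R m k n t t') :
    ∃ (N : ℕ → ℕ) (t : ∀ i, T (N i) (N (i + 1))), (∀ i, Inv i _ _ (t i)) ∧
      ∀ i, R _ _ _ (t i) (t (i + 1)) := by
  obtain ⟨m0, k0, t0, h0⟩ := h0
  choose nn tt hI hR using hs
  let St : ℕ → Type := fun i => {s : Σ m k, T m k // Inv i s.1 s.2.1 s.2.2}
  let s : ∀ i, St i := fun i => Nat.rec (motive := St) ⟨⟨m0, k0, t0⟩, h0⟩
    (fun i s => ⟨⟨s.1.2.1, nn i _ _ _ s.2, tt i _ _ _ s.2⟩, hI i _ _ _ s.2⟩) i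
  exact ⟨fun i => (s i).1.1, fun i => (s i).1.2.2, fun i => (s i).2, fun i => hR i _ _ _ (s i).2⟩

theorem transB_rat (ρ : ℝ) {ε : ℝ} (hε : 0 < ε) : ∃ γ : ℚ, |(γ : ℝ) - ρ| ≤ ε := by
  obtain ⟨q, h1, h2⟩ := exists_rat_btwn (show ρ < ρ + ε by linarith)
  exact ⟨q, abs_le.2 ⟨by linarith, by linarith⟩⟩

namespace World

variable (Wd : World)

theorem transB_tail {w : ℝ} {P : ∀ n, ℝ → (Wd.W n).E} (h : Wd.Fam w P) {ε : ℝ} (hε : 0 < ε) :
    ∃ i0, ∀ n, i0 ≤ n → (Wd.W n).V (P n w) - w ≤ ε := by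
  have h1 := (h.tail.eventually (gt_mem_nhds (show w < w + ε by linarith)))
  obtain ⟨i0, hi⟩ := eventually_atTop.1 h1
  exact ⟨i0, fun n hn => by have := hi n hn; linarith⟩

/-- the stages for an alternating sequence of families -/
theorem transB_stages (ws ρ : ℕ → ℝ) (Ps : ℕ → ∀ n, ℝ → (Wd.W n).E)
    (hF : ∀ i, Wd.Fam (ws i) (Ps i)) (hw2 : ∀ i, ws (i + 2) = ws i) (hP2 : ∀ i, Ps (i + 2) = Ps i)
    (hρ1 : ∀ i, 1 / 2 ≤ ρ i) (hρ2 : ∀ i, ρ i ≤ 2) (hρ : ∀ i, (ρ (i + 1))⁻¹ = ρ i)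
    (hw : ∀ i, ws (i + 1) = ρ i * ws i) :
    ∃ (N : ℕ → ℕ) (γ : ℕ → ℝ) (ψ : ∀ i, (Wd.W (N (i + 1))).E →L[ℝ] (Wd.W (N i)).E),
      (∀ i, Wd.Cpl (N i) (N (i + 1)) (γ i) (ψ i) ∧
        Wd.Locked (N i) (N (i + 1)) (γ i) (ψ i) (ws (i + 1)) (Ps (i + 1)) (Ps i) ∧
        |γ i - ρ i| ≤ (1 / 2) ^ i / 10 ∧
        (Wd.W (N (i + 1))).V (Ps (i + 1) (N (i + 1)) (ws (i + 1))) - ws (i + 1) ≤ (1 / 2) ^ i / 10) ∧
      ∀ i Z a b, (Wd.W (N (i + 2))).Adm Z a b → ∀ s ∈ Icc a b,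
        (Wd.W (N i)).Close ((1 / 2) ^ N i) (Wd.pr (N i) (N (i + 2)) (Z s))
          (ψ i (ψ (i + 1) (Z s))) := by
  choose tol htol0 htol1 hst using fun i m => Wd.stage_on (hF i) (hρ1 (i + 1)) (hρ2 (i + 1)) m
  have hpow : ∀ i : ℕ, (0 : ℝ) < (1 / 2) ^ i / 10 := fun i => by positivity
  obtain ⟨N, t, hI, hR⟩ := transB_seq
    (T := fun m k => ℝ × ((Wd.W k).E →L[ℝ] (Wd.W m).E))
    (fun i m k t => Wd.Cpl m k t.1 t.2 ∧
      Wd.Locked m k t.1 t.2 (ws (i + 1)) (Ps (i + 1)) (Ps i) ∧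
      |t.1 - ρ i| ≤ min ((1 / 2) ^ i / 10) (tol i m) ∧
      (Wd.W k).V (Ps (i + 1) k (ws (i + 1))) - ws (i + 1) ≤ min ((1 / 2) ^ i / 10) (tol i m))
    (fun m k n t t' => ∀ Z a b, (Wd.W n).Adm Z a b → ∀ s ∈ Icc a b,
      (Wd.W m).Close ((1 / 2) ^ m) (Wd.pr m n (Z s)) (t.2 (t'.2 (Z s))))
    (by
      have he : 0 < min ((1 / 2 : ℝ) ^ 0 / 10) (tol 0 0) := lt_min (hpow 0) (htol0 0 0)
      obtain ⟨γ, hγ⟩ := transB_rat (ρ 0) he
      obtain ⟨i0, hi0⟩ := Wd.transB_tail (hF 1) he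
      have h10 : |(γ : ℝ) - ρ 0| ≤ 1 / 10 := hγ.trans ((min_le_right _ _).trans (htol1 0 0))
      have h11 := abs_le.1 h10
      obtain ⟨k, hk, ψ, hc, hl⟩ := Wd.stage_off (hF 1) (hF 0) 0 γ
        (by linarith [hρ1 0]) (by linarith [hρ2 0]) i0
      exact ⟨0, k, ((γ : ℝ), ψ), hc, hl, hγ, hi0 k hk⟩)
    (by
      rintro i m k ⟨γ', φ⟩ ⟨hc, hl, hγ', ht⟩
      have he : 0 < min ((1 / 2 : ℝ) ^ (i + 1) / 10) (tol (i + 1) k) :=
        lt_min (hpow _) (htol0 _ _)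
      obtain ⟨γ, hγ⟩ := transB_rat (ρ (i + 1)) (lt_min he (htol0 i m))
      obtain ⟨i0, hi0⟩ := Wd.transB_tail (hF (i + 2)) he
      have hwi : ws i = ρ (i + 1) * ws (i + 1) := by rw [← hw2 i, hw (i + 1)]
      obtain ⟨n, hn, ψ, hc', hl', hcl⟩ := hst i m (ws (i + 1)) (Ps (i + 1)) k γ γ' φ (hF (i + 1))
        hwi (hγ.trans (min_le_right _ _))
        (by rw [hρ i]; exact hγ'.trans (min_le_right _ _)) (ht.trans (min_le_right _ _)) hc hl i0
      refine ⟨n, ((γ : ℝ), ψ), ⟨hc', ?_, hγ.trans (min_le_left _ _), hi0 n hn⟩, hcl⟩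
      show Wd.Locked k n γ ψ (ws (i + 2)) (Ps (i + 2)) (Ps (i + 1))
      rw [hw2 i, hP2 i]
      exact hl')
  refine ⟨N, fun i => (t i).1, fun i => (t i).2, fun i => ?_, hR⟩
  obtain ⟨h1, h2, h3, h4⟩ := hI i
  exact ⟨h1, h2, h3.trans (min_le_left _ _), h4.trans (min_le_left _ _)⟩

/-- Plan: build `N 0 < N 1 < ...`, rationals `γ i` and couplings `ψ i : W (N (i+1)) → W (N i)` by
recursion (state: a sigma type of two levels, a coupling and the invariant).  The level `N (i+1)`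
belongs to `x` for even `i` (ratio `r`) and to `y` for odd `i` (ratio `r⁻¹`).  When `ψ i` is chosen,
make `|γ i - ratio|` and the tail at `N (i+1)` smaller than the tolerance of `stage_on` for the
base `N i`, than the tolerance already needed for the base `N (i-1)`, and than `(1/2)^i / 10`.
Then `back_forth` and `locked_close`. -/
theorem trans_ratio {x y : Wd.X} {w w' r : ℝ} {P P' : ∀ n, ℝ → (Wd.W n).E} (hx : Wd.Rep x w P)
    (hy : Wd.Rep y w' P') (h1 : 1 / 2 ≤ r) (h2 : r ≤ 2) (hw : w = r * w') :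
    ∃ h : Wd.X ≃ₜ Wd.X, h x = y := by
  have hr : 0 < r := by linarith
  have hi1 : 1 / 2 ≤ r⁻¹ := by
    rw [one_div]
    exact inv_anti₀ hr h2
  have hi2 : r⁻¹ ≤ 2 := by
    have := inv_anti₀ (show (0 : ℝ) < 1 / 2 by norm_num) h1
    linarith [show ((1 : ℝ) / 2)⁻¹ = 2 by norm_num]
  have hpar : ∀ i : ℕ, (Even i ∧ ¬ Even (i + 1) ∧ Even (i + 2)) ∨
      (¬ Even i ∧ Even (i + 1) ∧ ¬ Even (i + 2)) := fun i => by
    simp only [Nat.even_iff]
    omega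
  obtain ⟨N, γ, ψ, hI, hc⟩ := Wd.transB_stages (fun i => if Even i then w' else w)
    (fun i => if Even i then r else r⁻¹) (fun i => if Even i then P' else P)
    (fun i => by
      by_cases h : Even i
      · simp only [if_pos h]; exact hy.1
      · simp only [if_neg h]; exact hx.1)
    (fun i => by rcases hpar i with ⟨a, _, c⟩ | ⟨a, _, c⟩ <;> simp only [a, c, if_true, if_false])
    (fun i => by rcases hpar i with ⟨a, _, c⟩ | ⟨a, _, c⟩ <;> simp only [a, c, if_true, if_false])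
    (fun i => by split_ifs <;> assumption) (fun i => by split_ifs <;> assumption)
    (fun i => by
      rcases hpar i with ⟨a, b, _⟩ | ⟨a, b, _⟩ <;> simp only [a, b, if_true, if_false, inv_inv])
    (fun i => by
      rcases hpar i with ⟨a, b, _⟩ | ⟨a, b, _⟩ <;> simp only [a, b, if_true, if_false]
      · exact hw
      · rw [hw, ← mul_assoc, inv_mul_cancel₀ hr.ne', one_mul])
  have hN : StrictMono N := strictMono_nat_of_lt_succ fun i => (Wd.cpl_mor _ _ _ _ (hI i).1).1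
  obtain ⟨h, hh⟩ := Wd.back_forth N hN γ ψ (fun i => (Wd.cpl_mor _ _ _ _ (hI i).1).2) hc
  refine ⟨h, Subtype.ext (funext fun j => ?_)⟩
  refine tendsto_nhds_unique (hh x j) ?_
  obtain ⟨C, hC, hcl⟩ := Wd.locked_close hy h1 h2 j
  rw [tendsto_iff_dist_tendsto_zero]
  have hlim : Tendsto (fun i : ℕ => C * (2 * (1 / 2 : ℝ) ^ i)) atTop (𝓝 0) := by
    have := ((tendsto_pow_atTop_nhds_zero_of_lt_one (r := (1 / 2 : ℝ)) (by norm_num)
      (by norm_num)).const_mul 2).const_mul C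
    simpa using this
  refine squeeze_zero' (Eventually.of_forall fun i => dist_nonneg) ?_ hlim
  filter_upwards [eventually_ge_atTop j] with i hi
  obtain ⟨hc1, hl, hg, ht⟩ := hI (2 * i)
  have e1 : Even (2 * i) := even_two_mul i
  have e2 : ¬ Even (2 * i + 1) := by simp only [Nat.even_iff]; omega
  simp only [e1, e2, if_true, if_false] at hl hg ht
  have hNi : 2 * i ≤ N (2 * i) := hN.id_le (2 * i)
  have hp1 : (1 / 2 : ℝ) ^ (2 * i) ≤ (1 / 2) ^ i :=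
    pow_le_pow_of_le_one (by norm_num) (by norm_num) (by omega)
  have hp2 : (1 / 2 : ℝ) ^ N (2 * i) ≤ (1 / 2) ^ i :=
    pow_le_pow_of_le_one (by norm_num) (by norm_num) (by omega)
  have hp3 : (1 / 2 : ℝ) ^ (2 * i) ≤ 1 := pow_le_one₀ (by norm_num) (by norm_num)
  have hp4 : (0 : ℝ) ≤ (1 / 2) ^ (2 * i) := by positivity
  refine (hcl w P x (N (2 * i)) (N (2 * i + 1)) (γ (2 * i)) ((1 / 2) ^ (2 * i) / 10) (ψ (2 * i)) hx
    hw (by omega) (Wd.cpl_mor _ _ _ _ hc1).2 hl (by linarith) hg ht).trans ?_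
  exact mul_le_mul_of_nonneg_left (by linarith) hC.le

theorem transE (x y : Wd.X) (hx : ∀ z, Wd.le x z → z = x) (hy : ∀ z, Wd.le y z → z = y) :
    ∃ h : Wd.X ≃ₜ Wd.X, h x = y := by
  have key : ∀ u : Wd.X, (∀ z, Wd.le u z → z = u) → ∃ P, Wd.Rep u 0 P := by
    intro u hu
    have hne : u ≠ Wd.root := by
      rintro rfl
      obtain ⟨z, hz⟩ := Wd.nontriv
      exact hz (hu z (Wd.root_le z))
    obtain ⟨w, P, hP⟩ := Wd.exists_rep hne
    rcases ((hP.1.path 0).nonneg).eq_or_lt with h0 | h0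
    · subst h0
      exact ⟨P, hP⟩
    · obtain ⟨z, h1, h2⟩ := Wd.nonmax hP h0
      exact absurd (hu z h1) h2
  obtain ⟨P, hP⟩ := key x hx
  obtain ⟨P', hP'⟩ := key y hy
  exact Wd.trans_ratio (r := 1) hP hP' (by norm_num) (by norm_num) (by norm_num)

theorem transB_pow (n : ℕ) : ∀ {x y : Wd.X} {w w' : ℝ} {P P' : ∀ n, ℝ → (Wd.W n).E},
    Wd.Rep x w P → Wd.Rep y w' P' → 0 < w → w ≤ w' → w' ≤ 2 ^ n * w →
    ∃ h : Wd.X ≃ₜ Wd.X, h x = y := by
  induction n with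
  | zero =>
    intro x y w w' P P' hx hy _ h1 h2
    exact Wd.trans_ratio (r := 1) hx hy (by norm_num) (by norm_num) (by linarith)
  | succ n ih =>
    intro x y w w' P P' hx hy h0 h1 h2
    have hw' : 0 < w' := by linarith
    rcases le_total w' (2 * w) with h3 | h3
    · refine Wd.trans_ratio (r := w / w') hx hy ?_ ?_ ?_
      · rw [le_div_iff₀ hw']; linarith
      · rw [div_le_iff₀ hw']; linarith
      · rw [div_mul_cancel₀ _ hw'.ne']
    · obtain ⟨u, hu⟩ := (hx.1.cut (t := 2 * w) (by linarith)).exists_point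
      obtain ⟨g1, hg1⟩ := Wd.trans_ratio (r := 1 / 2) hx hu le_rfl (by norm_num) (by ring)
      obtain ⟨g2, hg2⟩ := ih hu hy (by linarith) h3 (by rw [pow_succ] at h2; linarith)
      exact ⟨g1.trans g2, by rw [Homeomorph.trans_apply, hg1, hg2]⟩

/-- Plan: both times are positive (`max_of_zero`); if `w ≤ w'` use the cuts of `x` at the times
`min (2^i w) w'` as intermediate points. -/
theorem transR (x y : Wd.X) (hx : x ≠ Wd.root) (hy : y ≠ Wd.root) (hx' : ∃ z, Wd.le x z ∧ z ≠ x)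
    (hy' : ∃ z, Wd.le y z ∧ z ≠ y) : ∃ h : Wd.X ≃ₜ Wd.X, h x = y := by
  have key : ∀ u : Wd.X, u ≠ Wd.root → (∃ z, Wd.le u z ∧ z ≠ u) →
      ∃ w P, 0 < w ∧ Wd.Rep u w P := by
    rintro u hu ⟨z, h1, h2⟩
    obtain ⟨w, P, hP⟩ := Wd.exists_rep hu
    rcases ((hP.1.path 0).nonneg).eq_or_lt with h0 | h0
    · subst h0
      exact absurd (hP.max_of_zero h1) h2
    · exact ⟨w, P, h0, hP⟩
  have main : ∀ {u v : Wd.X} {w w' : ℝ} {P P' : ∀ n, ℝ → (Wd.W n).E},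
      Wd.Rep u w P → Wd.Rep v w' P' → 0 < w → w ≤ w' → ∃ h : Wd.X ≃ₜ Wd.X, h u = v := by
    intro u v w w' P P' hu hv h0 h1
    obtain ⟨n, hn⟩ := pow_unbounded_of_one_lt (w' / w) (show (1 : ℝ) < 2 by norm_num)
    exact Wd.transB_pow n hu hv h0 h1 ((div_lt_iff₀ h0).1 hn).le
  obtain ⟨w, P, h0, hP⟩ := key x hx hx'
  obtain ⟨w', P', h0', hP'⟩ := key y hy hy'
  rcases le_total w w' with h | h
  · exact main hP hP' h0 h
  · obtain ⟨g, hg⟩ := main hP' hP h0' h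
    exact ⟨g.symm, by rw [← hg, Homeomorph.symm_apply_apply]⟩

end World

end Pool.Agent.MP703675
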