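import Pool.Agent.Lib.MP_703675_gt.TreeB
import Pool.Agent.Lib.MP_703675_gt.TransB
import Pool.Agent.Lib.MP_703675_gt.MinLem
import Pool.Agent.Lib.MP_703675_gt.Recur

set_option autoImplicit false

open Set Metric Filter Topology TopologicalSpace

noncomputable section

namespace Pool.Agent.MP703675

theorem World.treeData (Wd : World) : TreeData Wd.X Wd.le Wd.root Wd.U where
  refl := Wd.le_refl'
  trans := Wd.le_trans'
  antisymm := Wd.le_antisymm'
  closed := Wd.le_closed
  root := Wd.root_le
  U_cont := Wd.U_cont
  U_mono := Wd.U_mono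
  chain := Wd.chain
  conn := Wd.conn
  least := Wd.least
  nontriv := Wd.nontriv
  branch := Wd.branch
  transE := Wd.transE
  transR := Wd.transR

end Pool.Agent.MP703675
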