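import Pool.Agent.Lib.MP_703675_gt.LayerB

set_option autoImplicit false

open Set Metric Filter Topology TopologicalSpace

noncomputable section

namespace Pool.Agent.MP703675

variable {L : Sys} {g : GP L} {q : Par} {h Bφ Cs : ℝ}

theorem gateA_Y (H : g.Hyp q h Bφ Cs) : 0 < g.Y := by
  rw [H.Y_eq]; exact half_pos H.goodq.c_pos

theorem gateA_kap (H : g.Hyp q h Bφ Cs) {t : ℝ} (ht : g.τ1 ≤ t ∨ t ≤ g.τ1 - 2 * g.len) :
    g.kap t = 0 := by
  have hl := H.len_pos
  unfold GP.kap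
  rw [deriv_st_zero, zero_div]
  rcases ht with ht | ht
  · exact Or.inl (div_nonpos_of_nonpos_of_nonneg (by linarith) (by linarith))
  · exact Or.inr ((one_le_div (by linarith)).2 (by linarith))

theorem gateA_kap_nonneg (H : g.Hyp q h Bφ Cs) (t : ℝ) : 0 ≤ g.kap t := by
  have hl := H.len_pos
  exact div_nonneg (deriv_st_nonneg _) (by linarith)

theorem gateA_cut_zero (H : g.Hyp q h Bφ Cs) {t : ℝ} (ht : g.τ1 - 2 * g.len ≤ t) :
    g.cut t = 0 := by
  have hl := H.len_pos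
  exact st_zero (div_nonpos_of_nonpos_of_nonneg (by linarith) (by linarith))

theorem gateA_cut_one (H : g.Hyp q h Bφ Cs) {t : ℝ} (ht : t ≤ g.τ1 - 5 / 2 * g.len) :
    g.cut t = 1 := by
  have hl := H.len_pos
  exact st_one ((one_le_div (by linarith)).2 (by linarith))

theorem gateA_a_zero (H : g.Hyp q h Bφ Cs) {t : ℝ} (ht : g.τ1 - 5 / 2 * g.len ≤ t) :
    g.a t = 0 :=
  st_zero (div_nonpos_of_nonpos_of_nonneg (by linarith) H.len_pos.le)

theorem gateA_st_comp {E : Type} [NormedAddCommGroup E] [NormedSpace ℝ E] {n : ℕ} {f : E → ℝ}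
    (hf : ContDiff ℝ n f) : ContDiff ℝ n (fun x => st (f x)) := (st_smooth n).comp hf

theorem gateA_a_smooth (n : ℕ) : ContDiff ℝ n g.a :=
  gateA_st_comp ((contDiff_const.sub contDiff_id).div_const _)
theorem gateA_cut_smooth (n : ℕ) : ContDiff ℝ n g.cut :=
  gateA_st_comp ((contDiff_const.sub contDiff_id).div_const _)
theorem gateA_inw_smooth (n : ℕ) : ContDiff ℝ n g.inw :=
  gateA_st_comp ((contDiff_const.sub contDiff_id).div_const _)
theorem gateA_room_smooth (n : ℕ) : ContDiff ℝ n g.room :=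
  gateA_st_comp ((contDiff_const.sub contDiff_id).div_const _)
theorem gateA_psP_smooth (n : ℕ) : ContDiff ℝ n g.psP :=
  gateA_st_comp ((contDiff_const.sub contDiff_id).div_const _)
theorem gateA_psM_smooth (n : ℕ) : ContDiff ℝ n g.psM :=
  gateA_st_comp (((contDiff_id.sub contDiff_const).add contDiff_const).div_const _)
theorem gateA_b_smooth (n : ℕ) : ContDiff ℝ n g.b := pl_smooth _ _ n
theorem gateA_kap_smooth (n : ℕ) : ContDiff ℝ n g.kap :=
  ((deriv_st_smooth n).comp ((contDiff_const.sub contDiff_id).div_const _)).div_const _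
theorem gateA_T0_smooth (n : ℕ) : ContDiff ℝ n g.T0 :=
  contDiff_const.mul
    (((rmp_smooth n).comp ((contDiff_const.sub contDiff_id).div_const _)).sub
      ((rmp_smooth n).comp ((contDiff_const.sub contDiff_id).div_const _)))

theorem gateA_t_smooth (n : ℕ) : ContDiff ℝ n (fun w : L.E × ℝ => g.τ w.1) :=
  g.τ.contDiff.comp contDiff_fst
theorem gateA_p_smooth (n : ℕ) : ContDiff ℝ n (fun w : L.E × ℝ => g.φ w.1) :=
  g.φ.contDiff.comp contDiff_fst

theorem gateA_th_smooth : ContDiff ℝ 2 g.site.th :=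
  (contDiff_const.mul ((gateA_a_smooth 2).comp (gateA_t_smooth 2))).mul
    ((gateA_b_smooth 2).comp contDiff_snd)

theorem gateA_T_true : g.site.T true = fun w => g.cut (g.τ w.1) * g.T0 w.2 := rfl
theorem gateA_T_false : g.site.T false = fun w => g.cut (g.τ w.1) * g.T0 (-w.2) := rfl

theorem gateA_T_smooth (b : Bool) : ContDiff ℝ 2 (g.site.T b) := by
  cases b
  · rw [gateA_T_false]
    exact ((gateA_cut_smooth 2).comp (gateA_t_smooth 2)).mul
      ((gateA_T0_smooth 2).comp contDiff_snd.neg)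
  · rw [gateA_T_true]
    exact ((gateA_cut_smooth 2).comp (gateA_t_smooth 2)).mul
      ((gateA_T0_smooth 2).comp contDiff_snd)

theorem gateA_fo_smooth : ContDiff ℝ 1 g.site.fo :=
  (contDiff_const.mul ((gateA_kap_smooth 1).comp (gateA_t_smooth 1))).mul
    ((((gateA_psP_smooth 1).comp (gateA_p_smooth 1)).mul
      ((gateA_room_smooth 1).comp contDiff_snd)).sub
      (((gateA_psM_smooth 1).comp (gateA_p_smooth 1)).mul
        ((gateA_room_smooth 1).comp contDiff_snd.neg)))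

theorem gateA_spP_smooth : ContDiff ℝ 1 g.site.spP :=
  (((gateA_cut_smooth 1).comp (gateA_t_smooth 1)).mul
    ((gateA_inw_smooth 1).comp contDiff_snd.neg)).mul ((gateA_room_smooth 1).comp contDiff_snd)

theorem gateA_spM_smooth : ContDiff ℝ 1 g.site.spM :=
  (((gateA_cut_smooth 1).comp (gateA_t_smooth 1)).mul
    ((gateA_inw_smooth 1).comp contDiff_snd)).mul ((gateA_room_smooth 1).comp contDiff_snd.neg)

/-- derivative of a product of a function of the clock and a function of the site variable -/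
theorem gateA_prod (g : GP L) {F G : ℝ → ℝ} {F' G' : ℝ} (w : L.E × ℝ)
    (hF : HasDerivAt F F' (g.τ w.1)) (hG : HasDerivAt G G' w.2) (u : L.E) (v : ℝ) :
    fderiv ℝ (fun w : L.E × ℝ => F (g.τ w.1) * G w.2) w (u, v) =
      F' * g.τ u * G w.2 + F (g.τ w.1) * (G' * v) := by
  have h1 := hF.comp_hasFDerivAt w (g.τ.comp (ContinuousLinearMap.fst ℝ L.E ℝ)).hasFDerivAt
  have h2 := hG.comp_hasFDerivAt w (ContinuousLinearMap.snd ℝ L.E ℝ).hasFDerivAt
  have h3 : HasFDerivAt (fun w : L.E × ℝ => F (g.τ w.1) * G w.2)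
      (F (g.τ w.1) • (G' • ContinuousLinearMap.snd ℝ L.E ℝ) +
        G w.2 • (F' • g.τ.comp (ContinuousLinearMap.fst ℝ L.E ℝ))) w := h1.mul h2
  rw [h3.fderiv]
  change F (g.τ w.1) * (G' * v) + G w.2 * (F' * g.τ u) = _
  ring

/-- slope of `a` -/
def gateA_da (g : GP L) (t : ℝ) : ℝ := deriv st ((g.τ1 - 5 / 2 * g.len - t) / g.len) / g.len

/-- slope of `cut` -/
def gateA_dc (g : GP L) (t : ℝ) : ℝ :=
  deriv st ((g.τ1 - 2 * g.len - t) / (g.len / 2)) / (g.len / 2)

/-- slope of `T0` -/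
def gateA_dT (g : GP L) (y : ℝ) : ℝ :=
  st ((9 / 10 * g.Y - y) / (g.Y / 10)) - st ((-(5 / 10 * g.Y) - y) / (g.Y / 10))

theorem gateA_a_der (g : GP L) (t : ℝ) :
    HasDerivAt (fun t => g.k0 * g.a t) (-(g.k0 * gateA_da g t)) t := by
  have h2 := ((hasDerivAt_id' t).const_sub (g.τ1 - 5 / 2 * g.len)).div_const g.len
  refine (((st_hasDerivAt _).comp _ h2).const_mul g.k0).congr_deriv ?_
  unfold gateA_da
  ring

theorem gateA_cut_der (g : GP L) (t : ℝ) : HasDerivAt g.cut (-gateA_dc g t) t := by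
  have h2 := ((hasDerivAt_id' t).const_sub (g.τ1 - 2 * g.len)).div_const (g.len / 2)
  refine ((st_hasDerivAt _).comp _ h2).congr_deriv ?_
  unfold gateA_dc
  ring

theorem gateA_T0_der (H : g.Hyp q h Bφ Cs) (y : ℝ) : HasDerivAt g.T0 (-gateA_dT g y) y := by
  have hY := (gateA_Y H).ne'
  have h1 := ((hasDerivAt_id' y).const_sub (9 / 10 * g.Y)).div_const (g.Y / 10)
  have h2 := ((hasDerivAt_id' y).const_sub (-(5 / 10 * g.Y))).div_const (g.Y / 10)
  refine ((((rmp_hasDerivAt _).comp _ h1).sub ((rmp_hasDerivAt _).comp _ h2)).const_mul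
    (g.Y / 10)).congr_deriv ?_
  unfold gateA_dT
  generalize st ((9 / 10 * g.Y - y) / (g.Y / 10)) = A
  generalize st ((-(5 / 10 * g.Y) - y) / (g.Y / 10)) = B
  field_simp
  ring

theorem gateA_th_der (g : GP L) (w : L.E × ℝ) (u : L.E) (v : ℝ) :
    fderiv ℝ g.site.th w (u, v) = -(g.k0 * gateA_da g (g.τ w.1)) * g.τ u * g.b w.2 +
      g.k0 * g.a (g.τ w.1) * (deriv g.b w.2 * v) :=
  gateA_prod g (F := fun t => g.k0 * g.a t) (G := g.b) w (gateA_a_der g _)
    ((gateA_b_smooth 1).differentiable (by norm_num) _).hasDerivAt u v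

theorem gateA_T_der (H : g.Hyp q h Bφ Cs) (b : Bool) (w : L.E × ℝ) (u : L.E) (v : ℝ) :
    fderiv ℝ (g.site.T b) w (u, v) =
      -gateA_dc g (g.τ w.1) * g.τ u * g.T0 (if b then w.2 else -w.2) -
        g.cut (g.τ w.1) * (gateA_dT g (if b then w.2 else -w.2) * (if b then v else -v)) := by
  cases b
  · have h1 : HasDerivAt (fun y => g.T0 (-y)) (gateA_dT g (-w.2)) w.2 := by
      refine ((gateA_T0_der H (-w.2)).comp _ (hasDerivAt_neg' w.2)).congr_deriv ?_
      ring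
    rw [gateA_T_false, gateA_prod g (F := g.cut) (G := fun y => g.T0 (-y)) w
      (gateA_cut_der g _) h1 u v]
    simp only [Bool.false_eq_true, if_false]
    ring
  · rw [gateA_T_true, gateA_prod g (F := g.cut) (G := g.T0) w (gateA_cut_der g _)
      (gateA_T0_der H _) u v]
    simp only [if_true]
    ring

theorem gateA_dT_mem (H : g.Hyp q h Bφ Cs) (y : ℝ) : 0 ≤ gateA_dT g y ∧ gateA_dT g y ≤ 1 := by
  have hY := gateA_Y H
  have h1 : (-(5 / 10 * g.Y) - y) / (g.Y / 10) ≤ (9 / 10 * g.Y - y) / (g.Y / 10) :=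
    div_le_div_of_nonneg_right (by linarith) (by linarith)
  have h2 := st_mono h1
  have h3 := st_nonneg ((-(5 / 10 * g.Y) - y) / (g.Y / 10))
  have h4 := st_le_one ((9 / 10 * g.Y - y) / (g.Y / 10))
  unfold gateA_dT
  constructor <;> linarith

theorem gateA_dT_one (H : g.Hyp q h Bφ Cs) {y : ℝ} (h1 : -(5 / 10 * g.Y) ≤ y)
    (h2 : y ≤ 8 / 10 * g.Y) : gateA_dT g y = 1 := by
  have hY := gateA_Y H
  unfold gateA_dT
  rw [st_one ((one_le_div (by linarith)).2 (by linarith)),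
    st_zero (div_nonpos_of_nonpos_of_nonneg (by linarith) (by linarith)), sub_zero]

theorem gateA_T0_eq (H : g.Hyp q h Bφ Cs) (y : ℝ) :
    g.T0 y = g.Y / 10 * (rmp (9 - 10 * (y / g.Y)) - rmp (-5 - 10 * (y / g.Y))) := by
  have hY := (gateA_Y H).ne'
  have e1 : (9 / 10 * g.Y - y) / (g.Y / 10) = 9 - 10 * (y / g.Y) := by field_simp
  have e2 : (-(5 / 10 * g.Y) - y) / (g.Y / 10) = -5 - 10 * (y / g.Y) := by field_simp
  unfold GP.T0
  rw [e1, e2]

theorem gateA_T0_mem (H : g.Hyp q h Bφ Cs) (y : ℝ) : 0 ≤ g.T0 y ∧ g.T0 y ≤ q.c := by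
  have hY := gateA_Y H
  have hc : q.c = 2 * g.Y := by rw [H.Y_eq]; ring
  rw [gateA_T0_eq H]
  have hle : -5 - 10 * (y / g.Y) ≤ 9 - 10 * (y / g.Y) := by linarith
  have h1 := rmp_mono hle
  have h2 := rmp_sub_le hle
  constructor
  · exact mul_nonneg (by linarith) (by linarith)
  · calc _ ≤ g.Y / 10 * 14 := mul_le_mul_of_nonneg_left (by linarith) (by linarith)
      _ ≤ _ := by linarith

theorem gateA_gap (H : g.Hyp q h Bφ Cs) {y : ℝ} (h1 : -(8 / 10 * g.Y) ≤ y)
    (h2 : g.T0 y ≤ g.T0 (-y) + g.Y / 2) : -(5 / 10 * g.Y) ≤ y := by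
  have hY := gateA_Y H
  by_contra hc
  have hc' : y < -(5 / 10 * g.Y) := not_le.1 hc
  have a1 : y / g.Y < -(5 / 10) := (div_lt_iff₀ hY).2 (by linarith)
  have a2 : -(8 / 10) ≤ y / g.Y := (le_div_iff₀ hY).2 (by linarith)
  rw [gateA_T0_eq H, gateA_T0_eq H, neg_div] at h2
  generalize y / g.Y = x at h2 a1 a2
  have b1 : rmp (-5 - 10 * -x) = 0 := rmp_zero (by linarith)
  have b2 := rmp_sub_eq (x := 9 - 10 * -x) (y := 9 - 10 * x) (by linarith) (by linarith)
  have b3 : rmp (-5 - 10 * x) ≤ -5 - 10 * x := (rmp_le _).trans (max_le le_rfl (by linarith))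
  have b4 : 10 ≤ (rmp (9 - 10 * x) - rmp (-5 - 10 * x)) -
      (rmp (9 - 10 * -x) - rmp (-5 - 10 * -x)) := by linarith
  have b5 := mul_le_mul_of_nonneg_left b4 (by linarith : 0 ≤ g.Y / 10)
  linarith

theorem gateA_mul_mem {a b : ℝ} (ha : 0 ≤ a ∧ a ≤ 1) (hb : 0 ≤ b ∧ b ≤ 1) :
    0 ≤ a * b ∧ a * b ≤ 1 :=
  ⟨mul_nonneg ha.1 hb.1, mul_le_one₀ ha.2 hb.1 hb.2⟩

theorem gateA_st_mem (x : ℝ) : 0 ≤ st x ∧ st x ≤ 1 := ⟨st_nonneg x, st_le_one x⟩

theorem gateA_spP_mem (w : L.E × ℝ) : 0 ≤ g.site.spP w ∧ g.site.spP w ≤ 1 :=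
  gateA_mul_mem (gateA_mul_mem (gateA_st_mem _) (gateA_st_mem _)) (gateA_st_mem _)

theorem gateA_spM_mem (w : L.E × ℝ) : 0 ≤ g.site.spM w ∧ g.site.spM w ≤ 1 :=
  gateA_mul_mem (gateA_mul_mem (gateA_st_mem _) (gateA_st_mem _)) (gateA_st_mem _)

theorem gateA_th_eq (w : L.E × ℝ) : g.site.th w = g.k0 * g.a (g.τ w.1) * g.b w.2 := rfl

theorem gateA_fo_eq (w : L.E × ℝ) : g.site.fo w = g.Y * g.kap (g.τ w.1) *
    (g.psP (g.φ w.1) * g.room w.2 - g.psM (g.φ w.1) * g.room (-w.2)) := rfl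

theorem gateA_th_bd (H : g.Hyp q h Bφ Cs) (w : L.E × ℝ) :
    0 ≤ g.site.th w ∧ g.site.th w ≤ q.k0 := by
  have hk := H.goodq.k0_pos
  have h1 : 0 ≤ g.a (g.τ w.1) * g.b w.2 ∧ g.a (g.τ w.1) * g.b w.2 ≤ 1 :=
    gateA_mul_mem (gateA_st_mem _) ⟨pl_nonneg _ _ _, pl_le_one _ _ _⟩
  rw [gateA_th_eq, H.k0_eq, mul_assoc]
  exact ⟨mul_nonneg hk.le h1.1, mul_le_of_le_one_right hk.le h1.2⟩

theorem gateA_th_pos (H : g.Hyp q h Bφ Cs) {w : L.E × ℝ} (hw : 0 < g.site.th w) :
    g.τ w.1 ≤ g.τ1 - 5 / 2 * g.len ∧ |w.2| ≤ 8 / 10 * g.Y := by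
  have hY := gateA_Y H
  rw [gateA_th_eq] at hw
  constructor
  · by_contra hc
    rw [gateA_a_zero H (not_le.1 hc).le, mul_zero, zero_mul] at hw
    exact lt_irrefl _ hw
  · by_contra hc
    have : g.b w.2 = 0 := pl_zero (by linarith) (not_le.1 hc).le
    rw [this, mul_zero] at hw
    exact lt_irrefl _ hw

theorem gateA_fo_zero (H : g.Hyp q h Bφ Cs) {w : L.E × ℝ}
    (ht : g.τ1 ≤ g.τ w.1 ∨ g.τ w.1 ≤ g.τ1 - 2 * g.len) : g.site.fo w = 0 := by
  rw [gateA_fo_eq, gateA_kap H ht, mul_zero, zero_mul]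

theorem gateA_bound {d D u B c : ℝ} (hd : 0 ≤ d) (hD : d ≤ D) (hu : |u| ≤ 1) (hB : 0 ≤ B)
    (hc : B ≤ c) : -d * u * B ≤ D * c := by
  have h1 : -u ≤ 1 := by linarith [(abs_le.1 hu).1]
  have h2 : d * B * -u ≤ d * B := mul_le_of_le_one_right (mul_nonneg hd hB) h1
  have h3 : d * B ≤ D * c := mul_le_mul hD hc hB (hd.trans hD)
  linarith

theorem gateA_rate_th (H : g.Hyp q h Bφ Cs) {w : L.E × ℝ} (hw : w.1 ∈ L.Om) {u : L.E}
    (hu : u ∈ L.K w.1) : fderiv ℝ g.site.th w (u, g.site.fo w) ≤ q.eta / 8 := by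
  have hl := H.len_pos
  have hk := H.goodq.k0_pos
  have e : g.k0 * g.a (g.τ w.1) * (deriv g.b w.2 * g.site.fo w) = 0 := by
    rcases le_total (g.τ w.1) (g.τ1 - 2 * g.len) with h1 | h1
    · rw [gateA_fo_zero H (Or.inr h1), mul_zero, mul_zero]
    · rw [gateA_a_zero H (by linarith), mul_zero, zero_mul]
  rw [gateA_th_der, e, add_zero, H.k0_eq]
  have h1 : 0 ≤ gateA_da g (g.τ w.1) := div_nonneg (deriv_st_nonneg _) hl.le
  have h2 : gateA_da g (g.τ w.1) ≤ Cs / g.len := div_le_div_of_nonneg_right (H.Cs_bd _) hl.le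
  have h3 := gateA_bound (mul_nonneg hk.le h1) (mul_le_mul_of_nonneg_left h2 hk.le)
    (H.τ_abs _ hw u hu) (B := g.b w.2) (pl_nonneg _ _ _) (pl_le_one _ _ _)
  have h4 := H.rate1
  rw [mul_div_assoc] at h4
  linarith

theorem gateA_rate_T (H : g.Hyp q h Bφ Cs) {w : L.E × ℝ} (hw : w.1 ∈ L.Om) {u : L.E}
    (hu : u ∈ L.K w.1) (b : Bool) : fderiv ℝ (g.site.T b) w (u, g.site.fo w) ≤ q.eta / 8 := by
  have hl := H.len_pos
  have e : g.cut (g.τ w.1) * (gateA_dT g (if b then w.2 else -w.2) *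
      (if b then g.site.fo w else -g.site.fo w)) = 0 := by
    rcases le_total (g.τ w.1) (g.τ1 - 2 * g.len) with h1 | h1
    · rw [gateA_fo_zero H (Or.inr h1), neg_zero, ite_self, mul_zero, mul_zero]
    · rw [gateA_cut_zero H h1, zero_mul]
  rw [gateA_T_der H, e, sub_zero]
  have h1 : 0 ≤ gateA_dc g (g.τ w.1) := div_nonneg (deriv_st_nonneg _) (by linarith)
  have h2 : gateA_dc g (g.τ w.1) ≤ Cs / (g.len / 2) :=
    div_le_div_of_nonneg_right (H.Cs_bd _) (by linarith)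
  have h3 := gateA_bound h1 h2 (H.τ_abs _ hw u hu)
    (gateA_T0_mem H (if b then w.2 else -w.2)).1 (gateA_T0_mem H _).2
  have h4 := H.rate2
  have h5 : Cs / (g.len / 2) * q.c = 2 * Cs * q.c / g.len := by field_simp
  linarith

theorem gateA_lead (H : g.Hyp q h Bφ Cs) (w : L.E × ℝ) (b b' : Bool) :
    fderiv ℝ (g.site.T b) w (0, g.site.psh b' w) ≤ 1 := by
  have h1 : -1 ≤ g.site.psh b' w ∧ g.site.psh b' w ≤ 1 := by
    have a1 := gateA_spP_mem (g := g) w
    have a2 := gateA_spM_mem (g := g) w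
    cases b'
    · change -1 ≤ -g.site.spM w ∧ -g.site.spM w ≤ 1
      constructor <;> linarith [a2.1, a2.2]
    · change -1 ≤ g.site.spP w ∧ g.site.spP w ≤ 1
      constructor <;> linarith [a1.1, a1.2]
  have h2 : -(if b then g.site.psh b' w else -g.site.psh b' w) ≤ 1 := by
    cases b
    · simp only [Bool.false_eq_true, if_false]
      linarith [h1.2]
    · simp only [if_true]
      linarith [h1.1]
  have h3 : 0 ≤ g.cut (g.τ w.1) * gateA_dT g (if b then w.2 else -w.2) ∧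
      g.cut (g.τ w.1) * gateA_dT g (if b then w.2 else -w.2) ≤ 1 :=
    gateA_mul_mem (gateA_st_mem _) (gateA_dT_mem H _)
  have h4 := mul_le_of_le_one_right h3.1 h2
  rw [gateA_T_der H, map_zero, mul_zero, zero_mul]
  linarith [h3.2]

theorem gateA_sp_one (H : g.Hyp q h Bφ Cs) {y : ℝ} (h1 : -(5 / 10 * g.Y) ≤ y)
    (h2 : y ≤ 8 / 10 * g.Y) : g.inw (-y) = 1 ∧ g.room y = 1 := by
  have hY := gateA_Y H
  exact ⟨st_one ((one_le_div (by linarith)).2 (by linarith)),
    st_one ((one_le_div (by linarith)).2 (by linarith))⟩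

theorem gateA_resp (H : g.Hyp q h Bφ Cs) {w : L.E × ℝ} (hw : 0 < g.site.th w) (b : Bool)
    (hb : g.site.valid b w) : fderiv ℝ (g.site.T b) w (0, g.site.psh b w) ≤ -1 ∧
      fderiv ℝ g.site.th w (0, g.site.psh b w) ≤ 0 := by
  have hY := gateA_Y H
  obtain ⟨h1, h2⟩ := gateA_th_pos H hw
  obtain ⟨h2, h3⟩ := abs_le.1 h2
  have hc := gateA_cut_one H h1
  have hk : 0 ≤ g.k0 * g.a (g.τ w.1) := by
    rw [H.k0_eq]
    exact mul_nonneg H.goodq.k0_pos.le (st_nonneg _)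
  rw [gateA_T_der H, gateA_th_der, map_zero, mul_zero, zero_mul, mul_zero, zero_mul, hc]
  cases b
  · change g.cut (g.τ w.1) * g.T0 (-w.2) ≤ g.cut (g.τ w.1) * g.T0 w.2 + g.Y / 2 at hb
    rw [hc, one_mul, one_mul] at hb
    have h4 := gateA_gap H (y := -w.2) (by linarith) (by rw [neg_neg]; exact hb)
    have h5 := gateA_sp_one H h4 (by linarith)
    rw [neg_neg] at h5
    have h6 : g.site.psh false w = -1 := by
      change -(g.cut (g.τ w.1) * g.inw w.2 * g.room (-w.2)) = -1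
      rw [hc, h5.1, h5.2]
      norm_num
    have h7 : 0 ≤ deriv g.b w.2 := pl_deriv_nonneg (by linarith) (by linarith)
    have h8 := mul_nonneg hk h7
    simp only [Bool.false_eq_true, if_false]
    rw [h6, gateA_dT_one H h4 (by linarith)]
    constructor <;> linarith
  · change g.cut (g.τ w.1) * g.T0 w.2 ≤ g.cut (g.τ w.1) * g.T0 (-w.2) + g.Y / 2 at hb
    rw [hc, one_mul, one_mul] at hb
    have h4 := gateA_gap H h2 hb
    have h5 := gateA_sp_one H h4 h3
    have h6 : g.site.psh true w = 1 := by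
      change g.cut (g.τ w.1) * g.inw (-w.2) * g.room w.2 = 1
      rw [hc, h5.1, h5.2]
      norm_num
    have h7 : deriv g.b w.2 ≤ 0 := pl_deriv_nonpos (by linarith) (by linarith)
    have h8 := mul_nonpos_of_nonneg_of_nonpos hk h7
    simp only [if_true]
    rw [h6, gateA_dT_one H h4 h3]
    constructor <;> linarith

theorem gateA_far (H : g.Hyp q h Bφ Cs) {w : L.E × ℝ} (hw : w.1 ∈ L.Om)
    (hV : 3 * L.H ≤ L.V w.1) (b : Bool) : fderiv ℝ (g.site.T b) w (L.one, 0) = 0 := by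
  have hl := H.len_pos
  have h1 := H.dom _ hw
  have h2 := H.one_le
  have h3 := H.h_le
  have h4 := H.τ1_lt
  have h5 : gateA_dc g (g.τ w.1) = 0 := by
    unfold gateA_dc
    rw [deriv_st_zero (Or.inl (div_nonpos_of_nonpos_of_nonneg (by linarith) (by linarith))),
      zero_div]
  rw [gateA_T_der H, h5, gateA_cut_zero H (by linarith)]
  ring

theorem gateA_room_zero (H : g.Hyp q h Bφ Cs) {y : ℝ} (hy : 12 / 10 * g.Y ≤ y) :
    g.room y = 0 := by
  have hY := gateA_Y H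
  exact st_zero (div_nonpos_of_nonpos_of_nonneg (by linarith) (by linarith))

theorem gateA_inv (H : g.Hyp q h Bφ Cs) {Y : ℝ → L.E × ℝ} {a b : ℝ} (hY : g.site.STraj q Y a b)
    {s : ℝ} (hs : s ∈ Icc a b) : Y s ∈ g.site.O := by
  have hY0 := gateA_Y H
  have hK : BddK (g.site.Ky q) := Site.Ky_bdd H.goodL gateA_fo_smooth.continuous
    gateA_spP_smooth.continuous gateA_spM_smooth.continuous
  have h0 : (Y a).2 = 0 := hY.2.2
  have k1 := hY.1.barrier_lin hK (ContinuousLinearMap.snd ℝ L.E ℝ) (c := 12 / 10 * g.Y)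
    (fun r _ hr κ hκ => by
      obtain ⟨s', α, β, u, -, s0, -, -, -, b0, -, -, -, e2⟩ := hκ
      change 12 / 10 * g.Y < (Y r).2 at hr
      change κ.2 ≤ 0
      have a1 := gateA_room_zero H hr.le
      have a2 : g.site.spP (Y r) = 0 := by
        change g.cut _ * g.inw _ * g.room (Y r).2 = 0
        rw [a1, mul_zero]
      have a3 : g.site.fo (Y r) ≤ 0 := by
        rw [gateA_fo_eq, a1, mul_zero, zero_sub]
        exact mul_nonpos_of_nonneg_of_nonpos (mul_nonneg hY0.le (gateA_kap_nonneg H _))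
          (neg_nonpos.2 (mul_nonneg (st_nonneg _) (st_nonneg _)))
      have a4 := mul_nonpos_of_nonpos_of_nonneg a3 s0
      have a5 := mul_nonneg (gateA_spM_mem (g := g) (Y r)).1 b0
      rw [e2, a2]
      linarith)
    (by change (Y a).2 ≤ _; linarith) s hs
  have k2 := hY.1.barrier_lin hK (-ContinuousLinearMap.snd ℝ L.E ℝ) (c := 12 / 10 * g.Y)
    (fun r _ hr κ hκ => by
      obtain ⟨s', α, β, u, -, s0, -, a0, -, -, -, -, -, e2⟩ := hκ
      change 12 / 10 * g.Y < -(Y r).2 at hr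
      change -κ.2 ≤ 0
      have a1 := gateA_room_zero H hr.le
      have a2 : g.site.spM (Y r) = 0 := by
        change g.cut _ * g.inw _ * g.room (-(Y r).2) = 0
        rw [a1, mul_zero]
      have a3 : 0 ≤ g.site.fo (Y r) := by
        rw [gateA_fo_eq, a1, mul_zero, sub_zero]
        exact mul_nonneg (mul_nonneg hY0.le (gateA_kap_nonneg H _))
          (mul_nonneg (st_nonneg _) (st_nonneg _))
      have a4 := mul_nonneg a3 s0
      have a5 := mul_nonneg (gateA_spP_mem (g := g) (Y r)).1 a0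
      rw [e2, a2]
      linarith)
    (by change -(Y a).2 ≤ _; linarith) s hs
  change (Y s).2 ≤ _ at k1
  change -(Y s).2 ≤ _ at k2
  change |(Y s).2| < 2 * g.Y
  exact abs_lt.2 ⟨by linarith, by linarith⟩

/-- Plan: `kap t = 0` unless `τ1 - 2 len < t < τ1`, so `fo = 0` where `cut` or `a` is positive.
`T0` is nonincreasing, between `0` and `1.4 Y`, has slope in `[-1, 0]` and slope `-1` on
`[-Y/2, 0.8 Y]`; a valid sign `true` with `cut = 1` forces `-Y/2 ≤ y`.  The invariant is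
`|y| ≤ 1.2 Y` (`barrier_lin`, `Site.Ky_bdd`). -/
theorem gate_good (H : g.Hyp q h Bφ Cs) : g.site.Good q where
  th_smooth := gateA_th_smooth
  T_smooth := gateA_T_smooth
  fo_smooth := gateA_fo_smooth
  spP_smooth := gateA_spP_smooth
  spM_smooth := gateA_spM_smooth
  th_bd := gateA_th_bd H
  r_pos := half_pos (gateA_Y H)
  th_act := fun w hw h0 => by
    have h1 := (gateA_th_pos H h0).1
    have h2 := H.dom _ hw
    linarith [H.one_le, H.h_le, H.τ1_lt, H.len_pos, H.H_ge]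
  fo_act := fun w hw h0 => by
    have h2 := H.dom _ hw
    exact gateA_fo_zero H (Or.inl (by linarith [H.one_le, H.h_le, H.τ1_lt, H.H_ge]))
  rate_th := fun _ _ hw _ _ hu => gateA_rate_th H hw hu
  rate_T := fun _ _ hw _ _ hu b _ => gateA_rate_T H hw hu b
  lead_push := fun w _ _ b _ b' => gateA_lead H w b b'
  resp_push := fun _ _ _ h0 b hb => gateA_resp H h0 b hb
  far_T := fun _ _ hw hV b => gateA_far H hw hV b
  T_bd := fun w _ _ b => by
    have h1 := gateA_T0_mem H (if b then w.2 else -w.2)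
    have h2 := gateA_st_mem ((g.τ1 - 2 * g.len - g.τ w.1) / (g.len / 2))
    exact ⟨mul_nonneg h2.1 h1.1, (mul_le_of_le_one_left h1.1 h2.2).trans h1.2⟩
  isOpen := isOpen_lt continuous_snd.abs continuous_const
  bdd := ⟨2 * g.Y, fun _ hw => le_of_lt hw⟩
  inv := fun _ _ _ hY _ hs => gateA_inv H hY hs

end Pool.Agent.MP703675
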