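import Pool.Agent.Lib.MP_703675_gt.GateA
import Pool.Agent.Lib.MP_703675_gt.LayerC
import Pool.Agent.Lib.MP_703675_gt.TowerB

set_option autoImplicit false

open Set Metric Filter Topology TopologicalSpace

noncomputable section

namespace Pool.Agent.MP703675

section aux

variable {L : Sys} {g : GP L} {q : Par} {h Bφ Cs : ℝ} {Y : ℝ → L.E × ℝ} {a b : ℝ}

theorem gateB_Y (H : g.Hyp q h Bφ Cs) : 0 < g.Y := by
  rw [H.Y_eq]; exact half_pos H.goodq.c_pos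

theorem gateB_bdd (H : g.Hyp q h Bφ Cs) : BddK (g.site.Ky q) :=
  Site.Ky_bdd H.goodL (gate_good H).fo_smooth.continuous (gate_good H).spP_smooth.continuous
    (gate_good H).spM_smooth.continuous

theorem gateB_kap (H : g.Hyp q h Bφ Cs) {t : ℝ} (ht : g.τ1 ≤ t ∨ t ≤ g.τ1 - 2 * g.len) :
    g.kap t = 0 := by
  have hl := H.len_pos
  unfold GP.kap
  rw [deriv_st_zero, zero_div]
  rcases ht with ht | ht
  · exact Or.inl (div_nonpos_of_nonpos_of_nonneg (by linarith) (by linarith))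
  · exact Or.inr ((one_le_div (by linarith)).2 (by linarith))

theorem gateB_cut (H : g.Hyp q h Bφ Cs) {t : ℝ} (ht : g.τ1 - 2 * g.len ≤ t) : g.cut t = 0 := by
  have hl := H.len_pos
  exact st_zero (div_nonpos_of_nonpos_of_nonneg (by linarith) (by linarith))

/-- the clock `τ` as a functional on the pair -/
def gateB_t (g : GP L) : (L.E × ℝ) →L[ℝ] ℝ := g.τ.comp (ContinuousLinearMap.fst ℝ L.E ℝ)

theorem gateB_om (H : g.Hyp q h Bφ Cs) (hY : g.site.STraj q Y a b) {s : ℝ} (h1 : a ≤ s)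
    (h2 : s ≤ b) : (Y s).1 ∈ L.Om :=
  H.goodL.inv _ a b hY.2.1 s ⟨h1, h2⟩

theorem gateB_anti (H : g.Hyp q h Bφ Cs) (hY : g.site.STraj q Y a b) {s t : ℝ} (hs : a ≤ s)
    (hst : s ≤ t) (ht : t ≤ b) (hh : g.τ (Y s).1 < h) : g.τ (Y t).1 ≤ g.τ (Y s).1 := by
  refine (hY.1.restrict hs le_rfl).barrier_win (gateB_bdd H) (gateB_t g).differentiable
    (c := g.τ (Y s).1) (sub_pos.2 hh) (fun r hr _ h2 κ hκ => ?_) le_rfl t ⟨hst, ht⟩
  obtain ⟨s', _, _, u, hu, s0, -, -, -, -, -, -, e1, -⟩ := hκ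
  rw [ContinuousLinearMap.fderiv]
  change g.τ κ.1 ≤ 0
  have h3 : g.τ (Y r).1 ≤ h := by
    change g.τ (Y r).1 < _ at h2
    linarith
  rw [e1, map_smul, smul_eq_mul]
  exact mul_nonpos_of_nonneg_of_nonpos s0
    (H.τ_irr _ (gateB_om H hY (hs.trans hr.1) hr.2.le) h3 u hu).1

theorem gateB_start (H : g.Hyp q h Bφ Cs) (hY : g.site.STraj q Y a b) : h ≤ g.τ (Y a).1 := by
  obtain ⟨hab, -, T, h1, -, h2⟩ := hY.2.1
  have h3 := H.dom _ (gateB_om H hY le_rfl hab)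
  have h4 : L.V (Y a).1 = T := by
    have : (Y a).1 = L.far T := h2
    rw [this, H.goodL.V_far]
  have := H.one_le
  have := H.h_le
  linarith

theorem gateB_ivt (H : g.Hyp q h Bφ Cs) (hY : g.site.STraj q Y a b) {s c : ℝ} (hs : a ≤ s)
    (hb : s ≤ b) (h1 : g.τ (Y b).1 ≤ c) (h2 : c ≤ g.τ (Y s).1) :
    ∃ t ∈ Icc s b, g.τ (Y t).1 = c :=
  intermediate_value_Icc' hb ((gateB_t g).continuous.comp_continuousOn
    ((hY.1.restrict hs le_rfl).continuousOn (gateB_bdd H))) ⟨h1, h2⟩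

/-- a large value of the site variable persists -/
theorem gateB_persist (H : g.Hyp q h Bφ Cs) (hY : g.site.STraj q Y a b) {ε t : ℝ}
    (hε : ε = 1 ∨ ε = -1) (h1 : a ≤ t) (h2 : t ≤ b) (hτ : g.τ (Y t).1 ≤ g.τ1 - 2 * g.len)
    (hy : 7 / 10 * g.Y ≤ ε * (Y t).2) : 0 < ε * (Y b).2 := by
  have hl := H.len_pos
  have hY0 := gateB_Y H
  have hτ1 := H.τ1_lt
  have key := (hY.1.restrict h1 le_rfl).barrier_win (gateB_bdd H)
    ((-ε) • ContinuousLinearMap.snd ℝ L.E ℝ).differentiable (c := -(7 / 10 * g.Y))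
    (ε := g.Y / 10) (by linarith) (fun r hr _ h4 κ hκ => ?_)
    (by change -ε * (Y t).2 ≤ _; linarith) b ⟨h2, le_rfl⟩
  · change -ε * (Y b).2 ≤ _ at key
    linarith
  obtain ⟨s', α, β, u, -, -, -, a0, -, b0, -, -, -, e2⟩ := hκ
  rw [ContinuousLinearMap.fderiv]
  change -ε * κ.2 ≤ 0
  change -ε * (Y r).2 < _ at h4
  have hk : g.kap (g.τ (Y r).1) = 0 := gateB_kap H (Or.inr
    ((gateB_anti H hY h1 hr.1 hr.2.le (by linarith)).trans hτ))
  have hi : g.inw (ε * (Y r).2) = 0 :=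
    st_zero (div_nonpos_of_nonpos_of_nonneg (by linarith) (by linarith))
  have p1 : 0 ≤ g.site.spP (Y r) * α :=
    mul_nonneg (mul_nonneg (mul_nonneg (st_nonneg _) (st_nonneg _)) (st_nonneg _)) a0
  have p2 : 0 ≤ g.site.spM (Y r) * β :=
    mul_nonneg (mul_nonneg (mul_nonneg (st_nonneg _) (st_nonneg _)) (st_nonneg _)) b0
  have f0 : g.site.fo (Y r) = 0 := by simp only [GP.site, hk, mul_zero, zero_mul]
  rw [e2, f0]
  rcases hε with rfl | rfl
  · have : g.site.spM (Y r) = 0 := by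
      rw [one_mul] at hi
      simp only [GP.site, hi, mul_zero, zero_mul]
    rw [this]
    linarith
  · have : g.site.spP (Y r) = 0 := by
      rw [neg_one_mul] at hi
      simp only [GP.site, hi, mul_zero, zero_mul]
    rw [this]
    linarith

theorem gateB_nonzero (H : g.Hyp q h Bφ Cs) (hY : g.site.STraj q Y a b)
    (hend : g.τ (Y b).1 ≤ g.τ1 - 5 * g.len) : (Y b).2 ≠ 0 := by
  have hl := H.len_pos
  have hY0 := gateB_Y H
  have hτ1 := H.τ1_lt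
  have h0 := gateB_start H hY
  obtain ⟨s1, ⟨m1, m2⟩, e1⟩ := gateB_ivt H hY (c := g.τ1 - 4 * g.len) le_rfl hY.2.1.1
    (by linarith) (by linarith)
  have an : ∀ r ∈ Ico s1 b, g.τ (Y r).1 ≤ g.τ1 - 4 * g.len := fun r hr =>
    e1 ▸ gateB_anti H hY m1 hr.1 hr.2.le (by linarith)
  by_cases hc : ∀ r ∈ Ico s1 b, |(Y r).2| ≤ 7 / 10 * g.Y
  · have key := (hY.1.restrict m1 le_rfl).const_lin (gateB_bdd H) (gateB_t g)
      (fun r hr κ hκ => ?_) b ⟨m2, le_rfl⟩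
    · change g.τ (Y b).1 = g.τ (Y s1).1 at key
      linarith
    obtain ⟨s', _, _, u, -, -, -, -, -, -, -, e0, e2, -⟩ := hκ
    have h1 : g.a (g.τ (Y r).1) = 1 := st_one ((one_le_div hl).2 (by linarith [an r hr]))
    have h2 : g.b (Y r).2 = 1 := pl_one (by linarith) (hc r hr)
    have h3 : g.site.th (Y r) = q.k0 := by simp only [GP.site, h1, h2, mul_one, H.k0_eq]
    change g.τ κ.1 = 0
    rw [e2, e0 h3, zero_smul, map_zero]
  · push Not at hc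
    obtain ⟨r, hr, h1⟩ := hc
    intro h2
    rcases lt_abs.1 h1 with h3 | h3
    · have := gateB_persist H hY (Or.inl rfl) (m1.trans hr.1) hr.2.le (by linarith [an r hr])
        (by linarith)
      rw [h2, mul_zero] at this
      exact lt_irrefl _ this
    · have := gateB_persist H hY (Or.inr rfl) (m1.trans hr.1) hr.2.le (by linarith [an r hr])
        (by linarith)
      rw [h2, mul_zero] at this
      exact lt_irrefl _ this

theorem gateB_zero (H : g.Hyp q h Bφ Cs) (hY : g.site.STraj q Y a b) {s : ℝ} (h1 : a ≤ s)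
    (h2 : s ≤ b) (e1 : g.τ (Y s).1 = g.τ1) : (Y s).2 = 0 := by
  have hl := H.len_pos
  have hτ1 := H.τ1_lt
  have key := (hY.1.restrict le_rfl h2).const_lin (gateB_bdd H) (ContinuousLinearMap.snd ℝ L.E ℝ)
    (fun r hr κ hκ => ?_) s ⟨h1, le_rfl⟩
  · exact key.trans hY.2.2
  obtain ⟨s', α, β, u, -, -, -, -, -, -, -, -, -, e2⟩ := hκ
  have h3 : g.τ1 ≤ g.τ (Y r).1 := by
    by_contra k
    have := gateB_anti H hY hr.1 hr.2.le h2 (by linarith)
    linarith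
  have hk := gateB_kap H (Or.inl h3)
  have hc := gateB_cut H (t := g.τ (Y r).1) (by linarith)
  change κ.2 = 0
  rw [e2]
  simp only [GP.site, hk, hc, mul_zero, zero_mul, add_zero, sub_zero]

theorem gateB_der (g : GP L) (ε : ℝ) (w : L.E × ℝ) :
    HasFDerivAt (fun w : L.E × ℝ => g.Y * g.Gam (g.τ w.1) - ε * w.2)
      ((-(g.Y * g.kap (g.τ w.1))) • gateB_t g - ε • ContinuousLinearMap.snd ℝ L.E ℝ) w := by
  have h1 : HasDerivAt (fun t => g.Y * g.Gam t) (-(g.Y * g.kap (g.τ w.1))) (g.τ w.1) := by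
    have h2 := ((hasDerivAt_id' (g.τ w.1)).const_sub g.τ1).div_const (2 * g.len)
    refine (((st_hasDerivAt _).comp _ h2).const_mul g.Y).congr_deriv ?_
    unfold GP.kap
    ring
  exact (h1.comp_hasFDerivAt w (gateB_t g).hasFDerivAt).sub
    (ε • ContinuousLinearMap.snd ℝ L.E ℝ).hasFDerivAt

/-- the forcing term while the gate is crossed -/
theorem gateB_force (H : g.Hyp q h Bφ Cs) {ε m : ℝ} (hε : (ε = 1 ∧ m = g.lo) ∨ (ε = -1 ∧ m = -g.hi))
    {w : L.E × ℝ} (h1 : ε * g.φ w.1 ≤ m + 2 * g.e) (h2 : ε * w.2 ≤ g.Y) :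
    ε * g.site.fo w = g.Y * g.kap (g.τ w.1) := by
  have hY0 := gateB_Y H
  have he : g.hi - g.lo = 6 * g.e := by unfold GP.e; ring
  have he0 : 0 < g.e := by linarith [H.lo_lt]
  have hr : g.room (ε * w.2) = 1 := st_one ((one_le_div (by linarith)).2 (by linarith))
  rcases hε with ⟨rfl, rfl⟩ | ⟨rfl, rfl⟩
  · have p1 : g.psP (g.φ w.1) = 1 := st_one ((one_le_div he0).2 (by linarith))
    have p2 : g.psM (g.φ w.1) = 0 := st_zero (div_nonpos_of_nonpos_of_nonneg (by linarith) he0.le)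
    rw [one_mul] at hr
    simp only [GP.site, p1, p2, hr]
    ring
  · have p1 : g.psM (g.φ w.1) = 1 := st_one ((one_le_div he0).2 (by linarith))
    have p2 : g.psP (g.φ w.1) = 0 := st_zero (div_nonpos_of_nonpos_of_nonneg (by linarith) he0.le)
    rw [neg_one_mul] at hr
    simp only [GP.site, p1, p2, hr]
    ring

theorem gateB_sign (H : g.Hyp q h Bφ Cs) (hY : g.site.STraj q Y a b)
    (hend : g.τ (Y b).1 ≤ g.τ1 - 5 * g.len) {ε m s : ℝ}
    (hε : (ε = 1 ∧ m = g.lo) ∨ (ε = -1 ∧ m = -g.hi)) (h1 : a ≤ s) (h2 : s ≤ b)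
    (e1 : g.τ (Y s).1 = g.τ1) (hm : ε * g.φ (Y s).1 ≤ m) : 0 < ε * (Y b).2 := by
  have hl := H.len_pos
  have hY0 := gateB_Y H
  have hτ1 := H.τ1_lt
  have hε' : ε = 1 ∨ ε = -1 := hε.imp And.left And.left
  obtain ⟨s2, ⟨m1, m2⟩, e2⟩ := gateB_ivt H hY (c := g.τ1 - 2 * g.len) h1 h2
    (by linarith) (by linarith)
  have up : ∀ r ∈ Icc s s2, g.τ (Y r).1 ≤ g.τ1 := fun r hr =>
    e1 ▸ gateB_anti H hY h1 hr.1 (hr.2.trans m2) (by linarith)
  have dn : ∀ r ∈ Icc s s2, g.τ1 - 2 * g.len ≤ g.τ (Y r).1 := fun r hr =>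
    e2 ▸ gateB_anti H hY (h1.trans hr.1) hr.2 m2 (by linarith [up r hr])
  have tr := hY.1.restrict h1 m2
  have ph : ∀ r ∈ Icc s s2, ε * g.φ (Y r).1 ≤ m + 2 * g.e := fun r hr => by
    have key := tr.le_rate_lin (gateB_bdd H)
      (ε • g.φ.comp (ContinuousLinearMap.fst ℝ L.E ℝ) + Bφ • gateB_t g) (ρ := 0)
      (fun t ht κ hκ => ?_) le_rfl hr.1 hr.2
    · change ε * g.φ (Y r).1 + Bφ * g.τ (Y r).1 - (ε * g.φ (Y s).1 + Bφ * g.τ (Y s).1) ≤ _ at key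
      have h3 := mul_le_mul_of_nonneg_left (dn r hr) H.Bφ_nonneg
      have h4 := H.len_φ
      rw [e1] at key
      linarith
    obtain ⟨s', _, _, u, hu, s0, -, -, -, -, -, -, e3, -⟩ := hκ
    change ε * g.φ κ.1 + Bφ * g.τ κ.1 ≤ 0
    have h3 := abs_le.1 (H.τ_irr _ (gateB_om H hY (h1.trans ht.1) (ht.2.le.trans m2))
      (by linarith [up t ⟨ht.1, ht.2.le⟩]) u hu).2
    have h4 : ε * g.φ u + Bφ * g.τ u ≤ 0 := by
      rcases hε' with rfl | rfl <;> linarith [h3.1, h3.2]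
    rw [e3, map_smul, map_smul, smul_eq_mul, smul_eq_mul]
    linarith [mul_nonpos_of_nonneg_of_nonpos s0 h4]
  have key := tr.barrier (gateB_bdd H) (fun w => (gateB_der g ε w).differentiableAt) (c := 0)
    (fun t ht h3 κ hκ => ?_) ?_ s2 ⟨m1, le_rfl⟩
  · have h3 : g.Gam (g.τ (Y s2).1) = 1 := st_one ((one_le_div (by linarith)).2 (by linarith))
    rw [h3] at key
    exact gateB_persist H hY hε' (h1.trans m1) m2 e2.le (by linarith)
  · obtain ⟨s', α, β, u, hu, s0, -, -, -, -, -, -, e3, e4⟩ := hκ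
    have ht' : t ∈ Icc s s2 := ⟨ht.1, ht.2.le⟩
    have h4 : g.Y * g.Gam (g.τ (Y t).1) ≤ g.Y := mul_le_of_le_one_right hY0.le (st_le_one _)
    have h5 := gateB_force H hε (ph t ht') (by linarith)
    have hc := gateB_cut H (dn t ht')
    have p1 : g.site.spP (Y t) = 0 := by simp only [GP.site, hc, zero_mul]
    have p2 : g.site.spM (Y t) = 0 := by simp only [GP.site, hc, zero_mul]
    have h6 := abs_le.1 (H.τ_abs _ (gateB_om H hY (h1.trans ht.1) (ht.2.le.trans m2)) u hu)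
    have h7 : 0 ≤ g.Y * g.kap (g.τ (Y t).1) :=
      mul_nonneg hY0.le (div_nonneg (deriv_st_nonneg _) (by linarith))
    rw [(gateB_der g ε (Y t)).fderiv]
    change -(g.Y * g.kap (g.τ (Y t).1)) * g.τ κ.1 - ε * κ.2 ≤ 0
    rw [e3, e4, p1, p2, map_smul, smul_eq_mul, zero_mul, zero_mul, add_zero, sub_zero,
      ← mul_assoc ε, h5]
    have h8 := mul_nonneg (mul_nonneg h7 s0) (by linarith [h6.1] : 0 ≤ g.τ u + 1)
    linarith
  · have h3 : g.Gam (g.τ (Y s).1) = 0 := st_zero (by rw [e1, sub_self, zero_div])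
    rw [h3, gateB_zero H hY h1 h2 e1]
    simp

end aux

/-- Plan: `τ` is nonincreasing once it is below `h`, and starts above `h`.
Nonzero: take a time `s1` with `τ = τ1 - 4 len`; if `|y| ≤ 0.7 Y` on `[s1, b]` then `th = k0`
and `τ` is constant there, impossible; after a time with `0.7 Y ≤ y` the bound persists
(`barrier_win` with `0.7 Y - y`, window `Y / 10`, `fo = 0`), symmetric for negative `y`.
Sign: `y = 0` up to the time `s` (`const_lin`), on the interval up to a time with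
`τ = τ1 - 2 len` we have `φ + Bφ τ` nonincreasing etc., so `psP = 1`, `psM = 0`, pushes are off,
and `Y * Gam τ - y ≤ 0` by `barrier`. -/
theorem gate_sign {L : Sys} {g : GP L} {q : Par} {h Bφ Cs : ℝ} (H : g.Hyp q h Bφ Cs)
    {Y : ℝ → L.E × ℝ} {a b : ℝ} (hY : g.site.STraj q Y a b)
    (hend : g.τ (Y b).1 ≤ g.τ1 - 5 * g.len) : (Y b).2 ≠ 0 ∧ ∀ s ∈ Icc a b, g.τ (Y s).1 = g.τ1 →
      (g.φ (Y s).1 ≤ g.lo → 0 < (Y b).2) ∧ (g.hi ≤ g.φ (Y s).1 → (Y b).2 < 0) := by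
  refine ⟨gateB_nonzero H hY hend, fun s hs e1 => ⟨fun h1 => ?_, fun h1 => ?_⟩⟩
  · have := gateB_sign H hY hend (Or.inl ⟨rfl, rfl⟩) hs.1 hs.2 e1 (by linarith)
    linarith
  · have := gateB_sign H hY hend (Or.inr ⟨rfl, rfl⟩) hs.1 hs.2 e1 (by linarith)
    linarith

/-- Plan: `τ = B.V ∘ π0`, `φ = f ∘ π0`, `h = B.H`, `Bφ = ‖f‖ * speed`, choose `len`, then
`H = max H0 (64 A.H)`, `eta`, then `Par.exists_good`; use the layer. -/
theorem gate_block {B A : Sys} (hB : B.Good) (hA : A.Good) {π0 : A.E →L[ℝ] B.E} {m n : ℕ}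
    {par : ℕ → Par} {ld : LD A.E} {slk : ℝ} (ht : Tower B 1 A π0 m n par ld slk) (hs : slk ≤ 1)
    (h1 : 1 ≤ B.H) (f : B.E →L[ℝ] ℝ) {τ1 lo hi gap : ℝ} (hgap : 0 < gap) (hτ : τ1 < B.H)
    (hlo : lo < hi) (l : ℕ) {β : ℝ} (hβ : 0 < β) (H0 : ℝ) :
    ∃ (D : Sys) (π : D.E →L[ℝ] A.E) (q : Par) (Yc : D.E →L[ℝ] ℝ),
      Block A l β H0 D π (l + 1) (fun _ => q) ∧ ∀ Z a b, D.Adm Z a b →
        B.V (π0 (π (Z b))) ≤ τ1 - gap → Yc (Z b) ≠ 0 ∧ ∀ s ∈ Icc a b, B.V (π0 (π (Z s))) = τ1 →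
          (f (π0 (π (Z s))) ≤ lo → 0 < Yc (Z b)) ∧ (hi ≤ f (π0 (π (Z s))) → Yc (Z b) < 0) := by
  obtain ⟨Cs, hCs, hC⟩ := exists_Cs
  obtain ⟨Bs, hBs, hsp⟩ := hB.speed
  have hAH : B.H ≤ A.H := by simpa using ht.H_le
  have hBφ : 0 ≤ ‖f‖ * Bs := by positivity
  obtain ⟨len, l0, l1, l2⟩ : ∃ len : ℝ, 0 < len ∧ 5 * len ≤ gap ∧
      ‖f‖ * Bs * len ≤ (hi - lo) / 6 := by
    have h2 : 0 < (hi - lo) / 6 := by linarith
    refine ⟨min (gap / 5) ((hi - lo) / 6 / (‖f‖ * Bs + 1)), by positivity,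
      by linarith [min_le_left (gap / 5) ((hi - lo) / 6 / (‖f‖ * Bs + 1))], ?_⟩
    have h3 := min_le_right (gap / 5) ((hi - lo) / 6 / (‖f‖ * Bs + 1))
    rw [le_div_iff₀ (by linarith)] at h3
    have h4 : 0 < min (gap / 5) ((hi - lo) / 6 / (‖f‖ * Bs + 1)) := by positivity
    linarith
  obtain ⟨Hq, q0, q1, q2⟩ : ∃ Hq : ℝ, 0 < Hq ∧ H0 ≤ Hq ∧ 64 * A.H ≤ Hq :=
    ⟨max H0 (64 * A.H), lt_max_of_lt_right (by linarith), le_max_left _ _, le_max_right _ _⟩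
  obtain ⟨η, t0, t1, t2⟩ : ∃ η : ℝ, 0 < η ∧ η ≤ 1 / 100 ∧ η * Hq ≤ β / 3 :=
    ⟨min (1 / 100) (β / 3 / Hq), by positivity, min_le_left _ _,
      (le_div_iff₀ q0).1 (min_le_right _ _)⟩
  obtain ⟨ε, r0, r1, r2⟩ : ∃ ε : ℝ, 0 < ε ∧ ε ≤ β / 3 ∧ ε * (2 * Cs) ≤ η / 8 * len :=
    ⟨min (β / 3) (η / 8 * len / (2 * Cs)), by positivity, min_le_left _ _,
      (le_div_iff₀ (by linarith)).1 (min_le_right _ _)⟩
  obtain ⟨q, hq, e1, e2, k1, k2, k3⟩ := Par.exists_good q0 t0 t1 r0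
  have hH : 64 * A.H ≤ q.H := e1 ▸ q2
  have pm : ∀ z ∈ A.Om, ∀ u ∈ A.K z, π0 u ∈ B.K (π0 z) := fun z hz u hu => by
    simpa using ht.proj_mem hB hz hu
  let g : GP A := ⟨B.V.comp π0, f.comp π0, τ1, len, lo, hi, q.c / 2, q.k0⟩
  have H : g.Hyp q B.H (‖f‖ * Bs) Cs := by
    refine ⟨hA, hq, hC, hH, h1.trans hAH, hAH, hτ, l0, hlo, rfl, rfl,
      fun z hz u hu => hB.V_le _ _ (pm z hz u hu), fun z hz hV u hu => ?_, fun z hz => ?_, hBφ, l2,
      ?_, ?_⟩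
    · obtain ⟨a1, κ, hκ, a2⟩ := hB.irr _ (ht.mapsTo z hz) hV _ (pm z hz u hu)
      refine ⟨a1, ?_⟩
      change |f (π0 u)| ≤ ‖f‖ * Bs * -B.V (π0 u)
      have a3 : f (π0 u) = -B.V (π0 u) * f κ := by
        rw [← smul_eq_mul, ← map_smul, ← a2]
      have a4 : |f κ| ≤ ‖f‖ * Bs :=
        (f.le_opNorm κ).trans (mul_le_mul_of_nonneg_left (hsp _ (ht.mapsTo z hz) κ hκ)
          (norm_nonneg f))
      rw [a3, abs_mul, abs_of_nonneg (neg_nonneg.2 a1), mul_comm]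
      exact mul_le_mul_of_nonneg_right a4 (neg_nonneg.2 a1)
    · have := ht.dom z hz
      change A.V z ≤ B.V (π0 z) + 1
      linarith
    · change q.k0 * Cs / len ≤ q.eta / 8
      rw [div_le_iff₀ l0, e2]
      have := mul_le_mul_of_nonneg_right k1 (by linarith : 0 ≤ Cs)
      have := mul_pos r0 (by linarith : 0 < Cs)
      linarith
    · change 2 * Cs * q.c / len ≤ q.eta / 8
      rw [div_le_iff₀ l0, e2]
      have := mul_le_mul_of_nonneg_right k2 (by linarith : 0 ≤ Cs)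
      linarith
  have hσ := gate_good H
  refine ⟨layer A q g.site, layerPi A q g.site, q,
    (ContinuousLinearMap.snd ℝ A.E ℝ).comp (ContinuousLinearMap.fst ℝ (A.E × ℝ) (ℝ × ℝ)),
    ⟨Nat.lt_succ_self l, layer_good hA hq hσ hH, ⟨_, layer_ctr hA hq⟩,
      ⟨_, (layer_tower hA hq hσ hH l).slk_mono (by linarith)⟩, ?_, e1 ▸ q1,
      fun j h2 h3 => by omega⟩, fun Z a b hZ hb => ?_⟩
  · rw [Nat.Ico_succ_singleton, Finset.sum_singleton]
    unfold Par.w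
    rw [e1, e2]
    linarith
  · refine gate_sign H (layer_proj hA hq hσ hH hZ) ?_
    change B.V (π0 (layerPi A q g.site (Z b))) ≤ τ1 - 5 * len
    linarith

end Pool.Agent.MP703675
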