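import Pool.Agent.Lib.MP_703675_gt.Tool
import Pool.Agent.Lib.MP_703675_gt.Traj2
import Pool.Agent.Lib.MP_703675_gt.LDI

set_option autoImplicit false

open Set Metric Filter Topology TopologicalSpace

noncomputable section

namespace Pool.Agent.MP703675

section Aux

variable {E : Type} [NormedAddCommGroup E] [NormedSpace ℝ E]

/-- space of raw controls -/
abbrev layerA_W : Type := ℝ × ℝ × ℝ × ℝ × ℝ × ℝ × ℝ

/-- box of raw controls -/
def layerA_C : Set layerA_W :=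
  Icc 0 1 ×ˢ Icc 0 2 ×ˢ Icc 0 2 ×ˢ Icc 0 2 ×ˢ Icc 0 2 ×ˢ Icc 0 2 ×ˢ Icc (-2) 2

theorem layerA_C_compact : IsCompact layerA_C :=
  isCompact_Icc.prod (isCompact_Icc.prod (isCompact_Icc.prod (isCompact_Icc.prod
    (isCompact_Icc.prod (isCompact_Icc.prod isCompact_Icc)))))

def layerA_sp (A : ℝ) (ω : layerA_W) : ℝ := min ω.2.1 ((1 - A) * ω.1)
def layerA_M (e A R : ℝ) (ω : layerA_W) : ℝ := R * (ω.1 - layerA_sp A ω + e * ω.1 / 4)
def layerA_up (e A R : ℝ) (ω : layerA_W) : ℝ := min ω.2.2.1 (layerA_M e A R ω)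
def layerA_a (e A R : ℝ) (ω : layerA_W) : ℝ :=
  min ω.2.2.2.1 (layerA_M e A R ω - layerA_up e A R ω)
def layerA_b (e A R : ℝ) (ω : layerA_W) : ℝ :=
  min ω.2.2.2.2.1 (layerA_M e A R ω - layerA_up e A R ω - layerA_a e A R ω)
def layerA_pay (A : ℝ) (ω : layerA_W) : ℝ := min ω.2.2.2.2.2.1 (A * ω.1)
def layerA_w (ra rb v : ℝ) (ω : layerA_W) : ℝ :=
  max (max (-ω.1) (v - 2 * rb * ω.1)) (min (min (-ω.1 + 2 * ra * ω.1) v) ω.2.2.2.2.2.2)

/-- the clamped parametrisation -/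
def layerA_g (V : E →L[ℝ] ℝ) (e A R ra rb fo sP sM : ℝ) (u : E) (ω : layerA_W) :
    ((E × ℝ) × (ℝ × ℝ)) × ℝ :=
  (((layerA_sp A ω • u, fo * layerA_sp A ω + sP * layerA_a e A R ω - sM * layerA_b e A R ω),
    (layerA_w ra rb (V (layerA_sp A ω • u)) ω, layerA_up e A R ω - layerA_pay A ω)), ω.1)

/-- pairs (velocity, activity) without the last constraint -/
def layerA_P (K : Set E) (V : E →L[ℝ] ℝ) (e A R ra rb fo sP sM : ℝ) :
    Set (((E × ℝ) × (ℝ × ℝ)) × ℝ) :=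
  {p | ∃ s' up pay a b : ℝ, ∃ u ∈ K, 0 ≤ p.2 ∧ p.2 ≤ 1 ∧ 0 ≤ s' ∧ s' ≤ (1 - A) * p.2 ∧
    0 ≤ up ∧ 0 ≤ a ∧ 0 ≤ b ∧ up + a + b ≤ R * (p.2 - s' + e * p.2 / 4) ∧
    0 ≤ pay ∧ pay ≤ A * p.2 ∧ p.1.1.1 = s' • u ∧ p.1.1.2 = fo * s' + sP * a - sM * b ∧
    p.1.2.2 = up - pay ∧ -p.2 ≤ p.1.2.1 ∧ p.1.2.1 ≤ -p.2 + 2 * ra * p.2 ∧
    p.1.2.1 ≤ V p.1.1.1 ∧ V p.1.1.1 - p.1.2.1 ≤ 2 * rb * p.2}

theorem layerA_comb {x y x' y' t t' : ℝ} (ht : 0 ≤ t) (ht' : 0 ≤ t') (h : x ≤ y)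
    (h' : x' ≤ y') : t * x + t' * x' ≤ t * y + t' * y' :=
  add_le_add (mul_le_mul_of_nonneg_left h ht) (mul_le_mul_of_nonneg_left h' ht')

theorem layerA_P_convex [FiniteDimensional ℝ E] {K : Set E} (hK : Convex ℝ K) (h0 : (0 : E) ∈ K)
    (V : E →L[ℝ] ℝ) (e A R ra rb fo sP sM : ℝ) :
    Convex ℝ (layerA_P K V e A R ra rb fo sP sM) := by
  rintro ⟨⟨⟨k1, k2⟩, ⟨k3, k4⟩⟩, s⟩
    ⟨s', up, pay, a, b, u, hu, h1, h2, h3, h4, h5, h6, h7, h8, h9, h10, h11, h12, h13, h14,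
      h15, h16, h17⟩
    ⟨⟨⟨l1, l2⟩, ⟨l3, l4⟩⟩, r⟩
    ⟨r', vp, qay, c, d, v, hv, g1, g2, g3, g4, g5, g6, g7, g8, g9, g10, g11, g12, g13, g14,
      g15, g16, g17⟩ t t' ht ht' htt
  dsimp only at h1 h2 h4 h8 h10 h11 h12 h13 h14 h15 h16 h17 g1 g2 g4 g8 g10 g11 g12 g13 g14 g15 g16 g17
  obtain ⟨u'', hu'', he⟩ := cone_comb hK h0 hu hv (mul_nonneg ht h3) (mul_nonneg ht' g3)
  have hV : V (t • k1 + t' • l1) = t * V k1 + t' * V l1 := by
    rw [map_add, map_smul, map_smul, smul_eq_mul, smul_eq_mul]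
  refine ⟨t * s' + t' * r', t * up + t' * vp, t * pay + t' * qay, t * a + t' * c, t * b + t' * d,
    u'', hu'', ?_, ?_, ?_, ?_, ?_, ?_, ?_, ?_, ?_, ?_, ?_, ?_, ?_, ?_, ?_, ?_, ?_⟩
  · show 0 ≤ t * s + t' * r
    positivity
  · show t * s + t' * r ≤ 1
    linarith [layerA_comb ht ht' h2 g2]
  · positivity
  · show t * s' + t' * r' ≤ (1 - A) * (t * s + t' * r)
    linarith [layerA_comb ht ht' h4 g4]
  · positivity
  · positivity
  · positivity
  · show t * up + t' * vp + (t * a + t' * c) + (t * b + t' * d) ≤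
      R * (t * s + t' * r - (t * s' + t' * r') + e * (t * s + t' * r) / 4)
    linarith [layerA_comb ht ht' h8 g8]
  · positivity
  · show t * pay + t' * qay ≤ A * (t * s + t' * r)
    linarith [layerA_comb ht ht' h10 g10]
  · show t • k1 + t' • l1 = (t * s' + t' * r') • u''
    rw [← he, h11, g11, smul_smul, smul_smul]
  · show t * k2 + t' * l2 = fo * (t * s' + t' * r') + sP * (t * a + t' * c) - sM * (t * b + t' * d)
    rw [h12, g12]
    ring
  · show t * k4 + t' * l4 = t * up + t' * vp - (t * pay + t' * qay)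
    rw [h13, g13]
    ring
  · show -(t * s + t' * r) ≤ t * k3 + t' * l3
    linarith [layerA_comb ht ht' h14 g14]
  · show t * k3 + t' * l3 ≤ -(t * s + t' * r) + 2 * ra * (t * s + t' * r)
    linarith [layerA_comb ht ht' h15 g15]
  · show t * k3 + t' * l3 ≤ V (t • k1 + t' • l1)
    rw [hV]
    exact layerA_comb ht ht' h16 g16
  · show V (t • k1 + t' • l1) - (t * k3 + t' * l3) ≤ 2 * rb * (t * s + t' * r)
    rw [hV]
    linarith [layerA_comb ht ht' h17 g17]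

theorem layerA_V_abs {V : E →L[ℝ] ℝ} {u : E} (hu : |V u| ≤ 1) {s : ℝ} (hs : 0 ≤ s) :
    -s ≤ V (s • u) ∧ V (s • u) ≤ s := by
  rw [map_smul, smul_eq_mul]
  have h := abs_le.1 hu
  constructor
  · linarith [mul_le_mul_of_nonneg_left h.1 hs]
  · linarith [mul_le_mul_of_nonneg_left h.2 hs]

theorem layerA_g_mem {K : Set E} {V : E →L[ℝ] ℝ} {e A R ra rb : ℝ} (fo sP sM : ℝ)
    (hV : ∀ u ∈ K, |V u| ≤ 1) (he : 0 ≤ e) (hA : 0 ≤ A) (hA1 : A ≤ 1) (hR : 0 ≤ R)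
    (hra : 0 ≤ ra) (hrb : 0 ≤ rb) (hr : 1 ≤ ra + rb) {u : E} (hu : u ∈ K) {ω : layerA_W}
    (hω : ω ∈ layerA_C) :
    layerA_g V e A R ra rb fo sP sM u ω ∈ layerA_P K V e A R ra rb fo sP sM := by
  obtain ⟨⟨c1, c2⟩, ⟨c3, -⟩, ⟨c4, -⟩, ⟨c5, -⟩, ⟨c6, -⟩, ⟨c7, -⟩, -⟩ := hω
  have s0 : 0 ≤ layerA_sp A ω := le_min c3 (mul_nonneg (sub_nonneg.2 hA1) c1)
  have s1 : layerA_sp A ω ≤ (1 - A) * ω.1 := min_le_right _ _
  have s2 : layerA_sp A ω ≤ ω.1 := by linarith [mul_nonneg hA c1]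
  have m0 : 0 ≤ layerA_M e A R ω :=
    mul_nonneg hR (by linarith [mul_nonneg he c1])
  have u1 : layerA_up e A R ω ≤ layerA_M e A R ω := min_le_right _ _
  have a1 : layerA_a e A R ω ≤ layerA_M e A R ω - layerA_up e A R ω := min_le_right _ _
  have b1 : layerA_b e A R ω ≤ layerA_M e A R ω - layerA_up e A R ω - layerA_a e A R ω :=
    min_le_right _ _
  have hv := layerA_V_abs (hV u hu) s0
  have p1 := mul_nonneg hra c1
  have p2 := mul_nonneg hrb c1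
  have p3 := mul_le_mul_of_nonneg_right hr c1
  refine ⟨layerA_sp A ω, layerA_up e A R ω, layerA_pay A ω, layerA_a e A R ω, layerA_b e A R ω,
    u, hu, c1, c2, s0, s1, le_min c4 m0, le_min c5 (sub_nonneg.2 u1), le_min c6 (sub_nonneg.2 a1),
    ?_, le_min c7 (mul_nonneg hA c1), min_le_right _ _, rfl, rfl, rfl, ?_, ?_, ?_, ?_⟩
  · show _ ≤ layerA_M e A R ω
    linarith
  · exact le_trans (le_max_left _ _) (le_max_left _ _)
  · show layerA_w ra rb (V (layerA_sp A ω • u)) ω ≤ -ω.1 + 2 * ra * ω.1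
    exact max_le (max_le (by linarith) (by linarith [hv.2]))
      (le_trans (min_le_left _ _) (min_le_left _ _))
  · show layerA_w ra rb (V (layerA_sp A ω • u)) ω ≤ V (layerA_sp A ω • u)
    exact max_le (max_le (by linarith [hv.1]) (by linarith))
      (le_trans (min_le_left _ _) (min_le_right _ _))
  · show V (layerA_sp A ω • u) - layerA_w ra rb (V (layerA_sp A ω • u)) ω ≤ 2 * rb * ω.1
    have h : V (layerA_sp A ω • u) - 2 * rb * ω.1 ≤ layerA_w ra rb (V (layerA_sp A ω • u)) ω :=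
      le_trans (le_max_right _ _) (le_max_left _ _)
    linarith

theorem layerA_P_sub {K : Set E} {V : E →L[ℝ] ℝ} {e A R ra rb fo sP sM : ℝ}
    (hV : ∀ u ∈ K, |V u| ≤ 1) (he : 0 ≤ e) (he1 : e ≤ 1) (hA : 0 ≤ A) (hA1 : A ≤ 1)
    (hR1 : R ≤ 1) {p : ((E × ℝ) × (ℝ × ℝ)) × ℝ} (hp : p ∈ layerA_P K V e A R ra rb fo sP sM) :
    ∃ u ∈ K, ∃ ω ∈ layerA_C, p = layerA_g V e A R ra rb fo sP sM u ω := by
  obtain ⟨⟨⟨k1, k2⟩, ⟨k3, k4⟩⟩, s⟩ := p
  obtain ⟨s', up, pay, a, b, u, hu, h1, h2, h3, h4, h5, h6, h7, h8, h9, h10, h11, h12, h13, h14,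
      h15, h16, h17⟩ := hp
  dsimp only at h1 h2 h4 h8 h10 h11 h12 h13 h14 h15 h16 h17
  subst h11 h12 h13
  have p1 := mul_nonneg hA h1
  have p2 := mul_nonneg he h1
  have p3 := mul_le_mul_of_nonneg_right he1 h1
  have p4 := mul_le_mul_of_nonneg_right hA1 h1
  have p5 : R * (s - s' + e * s / 4) ≤ 1 * (s - s' + e * s / 4) :=
    mul_le_mul_of_nonneg_right hR1 (by linarith)
  have hv := layerA_V_abs (hV u hu) h3
  have e1 : layerA_sp A (s, s', up, a, b, pay, k3) = s' := min_eq_left h4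
  have e2 : layerA_M e A R (s, s', up, a, b, pay, k3) = R * (s - s' + e * s / 4) := by
    unfold layerA_M
    rw [e1]
  have e3 : layerA_up e A R (s, s', up, a, b, pay, k3) = up := by
    unfold layerA_up
    rw [e2]
    exact min_eq_left (show up ≤ _ by linarith)
  have e4 : layerA_a e A R (s, s', up, a, b, pay, k3) = a := by
    unfold layerA_a
    rw [e2, e3]
    exact min_eq_left (show a ≤ _ by linarith)
  have e5 : layerA_b e A R (s, s', up, a, b, pay, k3) = b := by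
    unfold layerA_b
    rw [e2, e3, e4]
    exact min_eq_left (show b ≤ _ by linarith)
  have e6 : layerA_pay A (s, s', up, a, b, pay, k3) = pay := min_eq_left h10
  have e7 : layerA_w ra rb (V (s' • u)) (s, s', up, a, b, pay, k3) = k3 := by
    show max (max (-s) (V (s' • u) - 2 * rb * s)) (min (min (-s + 2 * ra * s) (V (s' • u))) k3) = k3
    rw [min_eq_right (le_min h15 h16)]
    exact max_eq_right (max_le h14 (by linarith))
  refine ⟨u, hu, (s, s', up, a, b, pay, k3), ⟨⟨h1, h2⟩, ⟨h3, show s' ≤ 2 by linarith⟩,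
    ⟨h5, show up ≤ 2 by linarith⟩, ⟨h6, show a ≤ 2 by linarith⟩, ⟨h7, show b ≤ 2 by linarith⟩,
    ⟨h9, show pay ≤ 2 by linarith⟩,
    ⟨show -2 ≤ k3 by linarith, show k3 ≤ 2 by linarith [hv.2]⟩⟩, ?_⟩
  unfold layerA_g
  rw [e1, e3, e4, e5, e6, e7]

theorem layerA_fst {X Y Z : Type} [NormedAddCommGroup X] [NormedAddCommGroup Y]
    [NormedAddCommGroup Z] {f : X → Y × Z} (h : LocallyLipschitz f) :
    LocallyLipschitz (fun x => (f x).1) :=
  LipschitzWith.prod_fst.locallyLipschitz.comp h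

theorem layerA_snd {X Y Z : Type} [NormedAddCommGroup X] [NormedAddCommGroup Y]
    [NormedAddCommGroup Z] {f : X → Y × Z} (h : LocallyLipschitz f) :
    LocallyLipschitz (fun x => (f x).2) :=
  LipschitzWith.prod_snd.locallyLipschitz.comp h

theorem layerA_div {X : Type} [NormedAddCommGroup X] {f : X → ℝ} (h : LocallyLipschitz f)
    (c : ℝ) : LocallyLipschitz (fun x => f x / c) :=
  (contDiff_id.div_const (𝕜 := ℝ) (n := 1) c).locallyLipschitz.comp h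

theorem layerA_cmul {X : Type} [NormedAddCommGroup X] {f : X → ℝ} (h : LocallyLipschitz f)
    (c : ℝ) : LocallyLipschitz (fun x => c * f x) :=
  ((contDiff_const (c := c)).mul (contDiff_id (𝕜 := ℝ) (n := 1))).locallyLipschitz.comp h

theorem layerA_g_lip [FiniteDimensional ℝ E] {X : Type} [NormedAddCommGroup X] [NormedSpace ℝ X]
    [FiniteDimensional ℝ X] (V : E →L[ℝ] ℝ) (e : ℝ) {A R ra rb fo sP sM : X → ℝ} {u : X → E}
    {ω : X → layerA_W} (hA : LocallyLipschitz A) (hR : LocallyLipschitz R)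
    (hra : LocallyLipschitz ra) (hrb : LocallyLipschitz rb) (hfo : LocallyLipschitz fo)
    (hsP : LocallyLipschitz sP) (hsM : LocallyLipschitz sM) (hu : LocallyLipschitz u)
    (hω : LocallyLipschitz ω) :
    LocallyLipschitz (fun x =>
      layerA_g V e (A x) (R x) (ra x) (rb x) (fo x) (sP x) (sM x) (u x) (ω x)) := by
  have w0 := layerA_fst hω
  have t1 := layerA_snd hω
  have w1 := layerA_fst t1
  have t2 := layerA_snd t1
  have w2 := layerA_fst t2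
  have t3 := layerA_snd t2
  have w3 := layerA_fst t3
  have t4 := layerA_snd t3
  have w4 := layerA_fst t4
  have t5 := layerA_snd t4
  have w5 := layerA_fst t5
  have w6 := layerA_snd t5
  have hsp : LocallyLipschitz (fun x => layerA_sp (A x) (ω x)) :=
    w1.min (locLip_mul ((LocallyLipschitz.const (1 : ℝ)).sub hA) w0)
  have hM : LocallyLipschitz (fun x => layerA_M e (A x) (R x) (ω x)) :=
    locLip_mul hR ((w0.sub hsp).add (layerA_div (layerA_cmul w0 e) 4))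
  have hup : LocallyLipschitz (fun x => layerA_up e (A x) (R x) (ω x)) := w2.min hM
  have ha : LocallyLipschitz (fun x => layerA_a e (A x) (R x) (ω x)) := w3.min (hM.sub hup)
  have hb : LocallyLipschitz (fun x => layerA_b e (A x) (R x) (ω x)) :=
    w4.min ((hM.sub hup).sub ha)
  have hpay : LocallyLipschitz (fun x => layerA_pay (A x) (ω x)) := w5.min (locLip_mul hA w0)
  have hk : LocallyLipschitz (fun x => layerA_sp (A x) (ω x) • u x) := locLip_smul hsp hu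
  have hv : LocallyLipschitz (fun x => V (layerA_sp (A x) (ω x) • u x)) :=
    V.lipschitz.locallyLipschitz.comp hk
  have hn : LocallyLipschitz (fun x => -(ω x).1) := w0.neg
  have hw : LocallyLipschitz
      (fun x => layerA_w (ra x) (rb x) (V (layerA_sp (A x) (ω x) • u x)) (ω x)) :=
    (hn.max (hv.sub (locLip_mul (layerA_cmul hrb 2) w0))).max
      (((hn.add (locLip_mul (layerA_cmul hra 2) w0)).min hv).min w6)
  exact ((hk.prodMk (((locLip_mul hfo hsp).add (locLip_mul hsP ha)).sub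
    (locLip_mul hsM hb))).prodMk (hw.prodMk (hup.sub hpay))).prodMk w0

/-- the functional of the last constraint -/
def layerA_l (D : (E × ℝ) →L[ℝ] ℝ) (c : ℝ) : (((E × ℝ) × (ℝ × ℝ)) × ℝ) →L[ℝ] ℝ :=
  D.comp ((ContinuousLinearMap.fst ℝ (E × ℝ) (ℝ × ℝ)).comp
      (ContinuousLinearMap.fst ℝ ((E × ℝ) × (ℝ × ℝ)) ℝ)) -
    (ContinuousLinearMap.snd ℝ ℝ ℝ).comp ((ContinuousLinearMap.snd ℝ (E × ℝ) (ℝ × ℝ)).comp
      (ContinuousLinearMap.fst ℝ ((E × ℝ) × (ℝ × ℝ)) ℝ)) -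
    c • ContinuousLinearMap.snd ℝ ((E × ℝ) × (ℝ × ℝ)) ℝ

theorem layerA_l_apply (D : (E × ℝ) →L[ℝ] ℝ) (c : ℝ) (p : ((E × ℝ) × (ℝ × ℝ)) × ℝ) :
    layerA_l D c p = D p.1.1 - p.1.2.2 - c * p.2 := rfl

theorem layerA_l_lip [FiniteDimensional ℝ E] {X : Type} [NormedAddCommGroup X] [NormedSpace ℝ X]
    [FiniteDimensional ℝ X] {D : X → ((E × ℝ) →L[ℝ] ℝ)} {c : X → ℝ} (hD : LocallyLipschitz D)
    (hc : LocallyLipschitz c) : LocallyLipschitz (fun x => layerA_l (D x) (c x)) :=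
  ((locLip_clm_comp hD _).sub (LocallyLipschitz.const _)).sub
    (locLip_smul (G := (((E × ℝ) × (ℝ × ℝ)) × ℝ) →L[ℝ] ℝ) hc (LocallyLipschitz.const _))

end Aux

theorem layerA_rab {q : Par} (hq : q.Good) (v : ℝ) : q.ra v = 1 ∨ q.rb v = 1 := by
  rcases le_total v (2 * q.H) with h | h
  · exact Or.inr (cl01_one ((one_le_div hq.H_pos).2 (by linarith)))
  · exact Or.inl (cl01_one ((one_le_div hq.H_pos).2 (by linarith)))

theorem layerA_rsum {q : Par} (hq : q.Good) (v : ℝ) : 1 ≤ q.ra v + q.rb v := by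
  have h1 : 0 ≤ q.ra v := cl01_nonneg _
  have h2 : 0 ≤ q.rb v := cl01_nonneg _
  rcases layerA_rab hq v with h | h <;> linarith

variable {L : Sys} {q : Par} {σ : Site L}

/-- the pair set at a state -/
def layerA_Q (L : Sys) (q : Par) (σ : Site L) (x : (L.E × ℝ) × (ℝ × ℝ)) :
    Set (((L.E × ℝ) × (ℝ × ℝ)) × ℝ) :=
  layerA_P (L.K x.1.1) L.V q.eta (q.al x.2.1 * q.S x.2.2) (q.al x.2.1 * q.rho x.2.2)
    (q.ra x.2.1) (q.rb x.2.1) (σ.fo x.1) (σ.spP x.1) (σ.spM x.1)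

/-- the functional at a state -/
def layerA_f (L : Sys) (q : Par) (σ : Site L) (x : (L.E × ℝ) × (ℝ × ℝ)) :
    (((L.E × ℝ) × (ℝ × ℝ)) × ℝ) →L[ℝ] ℝ :=
  layerA_l (fderiv ℝ σ.th x.1) (max (x.2.2 - σ.th x.1) 0 / q.lam + q.lam / (2 * q.H))

theorem layerA_eq (L : Sys) (q : Par) (σ : Site L) (x : (L.E × ℝ) × (ℝ × ℝ)) :
    layerK L q σ x = (ContinuousLinearMap.fst ℝ ((L.E × ℝ) × (ℝ × ℝ)) ℝ) ''
      {p | p ∈ layerA_Q L q σ x ∧ layerA_f L q σ x p ≤ 0} := by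
  ext κ
  constructor
  · rintro ⟨s, s', up, pay, a, b, u, hu, h1, h2, h3, h4, h5, h6, h7, h8, h9, h10, h11, h12, h13,
      h14, h15, h16, h17, h18⟩
    refine ⟨(κ, s), ⟨⟨s', up, pay, a, b, u, hu, h1, h2, h3, h4, h5, h6, h7, h8, h9, h10, h11, h12,
      h13, h14, h15, h16, h17⟩, ?_⟩, rfl⟩
    exact sub_nonpos.2 h18
  · rintro ⟨⟨k, s⟩, ⟨⟨s', up, pay, a, b, u, hu, h1, h2, h3, h4, h5, h6, h7, h8, h9, h10, h11, h12,
      h13, h14, h15, h16, h17⟩, h18⟩, rfl⟩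
    exact ⟨s, s', up, pay, a, b, u, hu, h1, h2, h3, h4, h5, h6, h7, h8, h9, h10, h11, h12,
      h13, h14, h15, h16, h17, sub_nonpos.1 h18⟩

theorem layerA_Q_eq (hL : L.Good) (hq : q.Good) (x : (L.E × ℝ) × (ℝ × ℝ)) :
    layerA_Q L q σ x = {y | ∃ u ∈ L.K x.1.1, ∃ ω ∈ layerA_C,
      y = layerA_g L.V q.eta (q.al x.2.1 * q.S x.2.2) (q.al x.2.1 * q.rho x.2.2)
        (q.ra x.2.1) (q.rb x.2.1) (σ.fo x.1) (σ.spP x.1) (σ.spM x.1) u ω} := by
  have a1 := q.al_mem x.2.1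
  have a2 := hq.S_mem x.2.2
  have a3 := hq.rho_mem x.2.2
  ext y
  constructor
  · intro hy
    exact layerA_P_sub (hL.V_le _) hq.eta_pos.le (by linarith [hq.eta_le])
      (mul_nonneg a1.1 a2.1) (mul_le_one₀ a1.2 a2.1 a2.2) (mul_le_one₀ a1.2 a3.1 a3.2) hy
  · rintro ⟨u, hu, ω, hω, rfl⟩
    exact layerA_g_mem _ _ _ (hL.V_le _) hq.eta_pos.le (mul_nonneg a1.1 a2.1)
      (mul_le_one₀ a1.2 a2.1 a2.2) (mul_nonneg a1.1 a3.1) (cl01_nonneg _) (cl01_nonneg _)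
      (layerA_rsum hq _) hu hω

theorem layerA_Q_convex (hL : L.Good) (x : (L.E × ℝ) × (ℝ × ℝ)) :
    Convex ℝ (layerA_Q L q σ x) :=
  layerA_P_convex (hL.convex _) (hL.zero_mem _) _ _ _ _ _ _ _ _ _

theorem layerA_Q_compact (hL : L.Good) (hq : q.Good) (x : (L.E × ℝ) × (ℝ × ℝ)) :
    IsCompact (layerA_Q L q σ x) := by
  have hc : Continuous (fun z : L.E × layerA_W =>
      layerA_g L.V q.eta (q.al x.2.1 * q.S x.2.2) (q.al x.2.1 * q.rho x.2.2)
        (q.ra x.2.1) (q.rb x.2.1) (σ.fo x.1) (σ.spP x.1) (σ.spM x.1) z.1 z.2) :=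
    (layerA_g_lip L.V q.eta (LocallyLipschitz.const _) (LocallyLipschitz.const _)
      (LocallyLipschitz.const _) (LocallyLipschitz.const _) (LocallyLipschitz.const _)
      (LocallyLipschitz.const _) (LocallyLipschitz.const _)
      LipschitzWith.prod_fst.locallyLipschitz LipschitzWith.prod_snd.locallyLipschitz).continuous
  have h := ((hL.compact x.1.1).prod layerA_C_compact).image hc
  have e : layerA_Q L q σ x = (fun z : L.E × layerA_W =>
      layerA_g L.V q.eta (q.al x.2.1 * q.S x.2.2) (q.al x.2.1 * q.rho x.2.2)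
        (q.ra x.2.1) (q.rb x.2.1) (σ.fo x.1) (σ.spP x.1) (σ.spM x.1) z.1 z.2) ''
      (L.K x.1.1 ×ˢ layerA_C) := by
    rw [layerA_Q_eq hL hq]
    ext y
    constructor
    · rintro ⟨u, hu, ω, hω, rfl⟩
      exact ⟨(u, ω), ⟨hu, hω⟩, rfl⟩
    · rintro ⟨z, hz, rfl⟩
      exact ⟨z.1, hz.1, z.2, hz.2, rfl⟩
  rw [e]
  exact h

theorem layer_convex (hL : L.Good) (hq : q.Good) (x : (layer L q σ).E) :
    Convex ℝ (layerK L q σ x) := by
  have _ := hq
  rw [layerA_eq]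
  exact ((layerA_Q_convex hL x).inter
    (convex_halfSpace_le (layerA_f L q σ x).toLinearMap.isLinear 0)).is_linear_image
      (ContinuousLinearMap.fst ℝ ((L.E × ℝ) × (ℝ × ℝ)) ℝ).toLinearMap.isLinear

theorem layer_compact (hL : L.Good) (hq : q.Good) (x : (layer L q σ).E) :
    IsCompact (layerK L q σ x) := by
  rw [layerA_eq]
  exact ((layerA_Q_compact hL hq x).inter_right
    (isClosed_le (layerA_f L q σ x).continuous continuous_const)).image
      (ContinuousLinearMap.fst ℝ ((L.E × ℝ) × (ℝ × ℝ)) ℝ).continuous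

theorem layerA_coef (hq : q.Good) (t : ℝ) :
    q.lam / (2 * q.H) ≤ max t 0 / q.lam + q.lam / (2 * q.H) ∧ 0 < q.lam / (2 * q.H) :=
  ⟨le_add_of_nonneg_left (div_nonneg (le_max_right _ _) hq.lam_pos.le),
    div_pos hq.lam_pos (mul_pos two_pos hq.H_pos)⟩

/-- points with idle controls -/
theorem layerA_idle (hL : L.Good) (hq : q.Good) (x : (L.E × ℝ) × (ℝ × ℝ)) {s w : ℝ}
    (h0 : 0 ≤ s) (h1 : s ≤ 1) (w1 : -s ≤ w) (w2 : w ≤ -s + 2 * q.ra x.2.1 * s) (w3 : w ≤ 0)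
    (w4 : -w ≤ 2 * q.rb x.2.1 * s) :
    (((((0 : L.E), (0 : ℝ)), (w, (0 : ℝ))), s) : ((L.E × ℝ) × (ℝ × ℝ)) × ℝ) ∈ layerA_Q L q σ x ∧
      layerA_f L q σ x ((((0 : L.E), (0 : ℝ)), (w, (0 : ℝ))), s) ≤ -(q.lam / (2 * q.H) * s) := by
  have a1 := q.al_mem x.2.1
  have a2 := hq.S_mem x.2.2
  have a3 := hq.rho_mem x.2.2
  constructor
  · refine ⟨0, 0, 0, 0, 0, 0, hL.zero_mem _, h0, h1, le_rfl,
      mul_nonneg (sub_nonneg.2 (mul_le_one₀ a1.2 a2.1 a2.2)) h0, le_rfl, le_rfl, le_rfl, ?_,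
      le_rfl, mul_nonneg (mul_nonneg a1.1 a2.1) h0, (zero_smul ℝ (0 : L.E)).symm, ?_,
      (sub_zero (0 : ℝ)).symm, w1, w2, ?_, ?_⟩
    · show (0 : ℝ) + 0 + 0 ≤ q.al x.2.1 * q.rho x.2.2 * (s - 0 + q.eta * s / 4)
      rw [add_zero, add_zero]
      exact mul_nonneg (mul_nonneg a1.1 a3.1) (by linarith [mul_nonneg hq.eta_pos.le h0])
    · show (0 : ℝ) = _
      ring
    · show w ≤ L.V 0
      rw [map_zero]
      exact w3
    · show L.V 0 - w ≤ 2 * q.rb x.2.1 * s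
      rw [map_zero, zero_sub]
      exact w4
  · show fderiv ℝ σ.th x.1 0 - 0 -
      (max (x.2.2 - σ.th x.1) 0 / q.lam + q.lam / (2 * q.H)) * s ≤ _
    rw [map_zero]
    linarith [mul_le_mul_of_nonneg_right (layerA_coef hq (x.2.2 - σ.th x.1)).1 h0]

theorem layer_zero (hL : L.Good) (hq : q.Good) (x : (layer L q σ).E) :
    (0 : (layer L q σ).E) ∈ layerK L q σ x := by
  have h := layerA_idle (σ := σ) hL hq x (s := 0) (w := 0) le_rfl zero_le_one (by simp) (by simp)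
    le_rfl (by simp)
  rw [layerA_eq]
  exact ⟨_, ⟨h.1, h.2.trans (by simp)⟩, rfl⟩

theorem layer_V_le (x : (layer L q σ).E) (κ : (layer L q σ).E) (hκ : κ ∈ layerK L q σ x) :
    |κ.2.1| ≤ 1 := by
  obtain ⟨s, s', up, pay, a, b, u, -, h1, h2, -, -, -, -, -, -, -, -, -, -, -, h14, h15, -⟩ := hκ
  have h : q.ra x.2.1 * s ≤ 1 * s := mul_le_mul_of_nonneg_right (cl01_le_one _) h1
  exact abs_le.2 ⟨by linarith, by linarith⟩

theorem layer_ctr (hL : L.Good) (hq : q.Good) :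
    (layer L q σ).HasCtr (layerCtr L q σ) ∧ layerPi L q σ (layerCtr L q σ) = 0 := by
  refine ⟨⟨rfl, fun z hz => ?_⟩, rfl⟩
  have hz' : z.2.1 ≤ q.H := hz
  have hb : q.rb z.2.1 = 1 := cl01_one ((one_le_div hq.H_pos).2 (by linarith [hq.H_pos]))
  have ha : 0 ≤ q.ra z.2.1 := cl01_nonneg _
  have h := layerA_idle (σ := σ) hL hq z (s := 1) (w := -1) zero_le_one le_rfl le_rfl
    (by linarith) (by norm_num) (by rw [hb]; norm_num)
  show _ ∈ layerK L q σ z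
  rw [layerA_eq]
  exact ⟨_, ⟨h.1, h.2.trans (by linarith [(layerA_coef hq 0).2])⟩, rfl⟩

theorem layerA_Q_ldi (hL : L.Good) (hq : q.Good) (hσ : σ.Good q) : LDI (layerA_Q L q σ) := by
  have hx : LocallyLipschitz (fun p : ((L.E × ℝ) × (ℝ × ℝ)) × L.E × layerA_W => p.1) :=
    LipschitzWith.prod_fst.locallyLipschitz
  have hy : LocallyLipschitz (fun p : ((L.E × ℝ) × (ℝ × ℝ)) × L.E × layerA_W => p.2) :=
    LipschitzWith.prod_snd.locallyLipschitz
  have h1 := layerA_fst hx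
  have h21 := layerA_fst (layerA_snd hx)
  have h22 := layerA_snd (layerA_snd hx)
  have hal : LocallyLipschitz
      (fun p : ((L.E × ℝ) × (ℝ × ℝ)) × L.E × layerA_W => q.al p.1.2.1) :=
    cl01_lip.locallyLipschitz.comp
      ((LocallyLipschitz.const (2 : ℝ)).sub (layerA_div (layerA_cmul h21 4) q.H))
  have hS : LocallyLipschitz
      (fun p : ((L.E × ℝ) × (ℝ × ℝ)) × L.E × layerA_W => q.S p.1.2.2) :=
    (lr_locLip hq.p_pos hq.lam_pos).comp h22
  have hrho : LocallyLipschitz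
      (fun p : ((L.E × ℝ) × (ℝ × ℝ)) × L.E × layerA_W => q.rho p.1.2.2) :=
    (LocallyLipschitz.const (1 : ℝ)).sub ((lr_locLip hq.p_pos hq.kap_pos).comp h22)
  have hra : LocallyLipschitz
      (fun p : ((L.E × ℝ) × (ℝ × ℝ)) × L.E × layerA_W => q.ra p.1.2.1) :=
    cl01_lip.locallyLipschitz.comp (layerA_div (h21.sub (LocallyLipschitz.const q.H)) q.H)
  have hrb : LocallyLipschitz
      (fun p : ((L.E × ℝ) × (ℝ × ℝ)) × L.E × layerA_W => q.rb p.1.2.1) :=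
    cl01_lip.locallyLipschitz.comp (layerA_div ((LocallyLipschitz.const (3 * q.H)).sub h21) q.H)
  have hf := layerA_g_lip L.V q.eta (locLip_mul hal hS) (locLip_mul hal hrho) hra hrb
    (hσ.fo_smooth.locallyLipschitz.comp h1) (hσ.spP_smooth.locallyLipschitz.comp h1)
    (hσ.spM_smooth.locallyLipschitz.comp h1) (layerA_fst hy) (layerA_snd hy)
  have h := (hL.ldi.comp (layerPi L q σ)).param layerA_C_compact.isBounded hf
  have e : layerA_Q L q σ = _ := funext fun x => layerA_Q_eq (σ := σ) hL hq x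
  rw [e]
  exact h

/-- Work with pairs (velocity, s).  Without the last constraint the set is a parametrised
image (`LDI.param`) with clamped controls.  Then `LDI.cut` with the point `s = 1`, all other
controls `0`, margin `lam / (2 H)`, then `LDI.image`. -/
theorem layer_ldi (hL : L.Good) (hq : q.Good) (hσ : σ.Good q) : LDI (layerK L q σ) := by
  have h1 : LocallyLipschitz (fun x : (L.E × ℝ) × (ℝ × ℝ) => x.1) :=
    LipschitzWith.prod_fst.locallyLipschitz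
  have h2 : LocallyLipschitz (fun x : (L.E × ℝ) × (ℝ × ℝ) => x.2) :=
    LipschitzWith.prod_snd.locallyLipschitz
  have hth : LocallyLipschitz (fun x : (L.E × ℝ) × (ℝ × ℝ) => σ.th x.1) :=
    (hσ.th_smooth.of_le (m := 1) (by norm_num)).locallyLipschitz.comp h1
  have hl : LocallyLipschitz (layerA_f L q σ) :=
    layerA_l_lip ((locLip_fderiv hσ.th_smooth).comp h1)
      ((layerA_div (((layerA_snd h2).sub hth).max_const 0) q.lam).add (LocallyLipschitz.const _))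
  have hs : ∀ x, ∃ p ∈ layerA_Q L q σ x, layerA_f L q σ x p ≤ 0 - q.lam / (2 * q.H) := by
    intro x
    have ha : 0 ≤ q.ra x.2.1 := cl01_nonneg _
    have hb : 0 ≤ q.rb x.2.1 := cl01_nonneg _
    rcases layerA_rab hq x.2.1 with h | h
    · have h3 := layerA_idle (σ := σ) hL hq x (s := 1) (w := 0) zero_le_one le_rfl (by norm_num)
        (by rw [h]; norm_num) le_rfl (by linarith)
      exact ⟨_, h3.1, h3.2.trans (by linarith)⟩
    · have h3 := layerA_idle (σ := σ) hL hq x (s := 1) (w := -1) zero_le_one le_rfl le_rfl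
        (by linarith) (by norm_num) (by rw [h]; norm_num)
      exact ⟨_, h3.1, h3.2.trans (by linarith)⟩
  have h := (LDI.cut (layerA_Q_ldi hL hq hσ) (layerA_Q_convex hL) hl
    (LocallyLipschitz.const (0 : ℝ)) (layerA_coef hq 0).2 hs).image
      (ContinuousLinearMap.fst ℝ ((L.E × ℝ) × (ℝ × ℝ)) ℝ)
  have e : layerK L q σ = _ := funext fun x => layerA_eq L q σ x
  rw [e]
  exact h

end Pool.Agent.MP703675
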