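import Pool.Agent.Lib.MP_703675_gt.LayerA

set_option autoImplicit false

open Set Metric Filter Topology TopologicalSpace

noncomputable section

namespace Pool.Agent.MP703675

variable {L : Sys} {q : Par} {σ : Site L}

private theorem layerB_cbd {f : L.E × ℝ → ℝ} (h : Continuous f) (R : ℝ) :
    ∃ C : ℝ, 0 ≤ C ∧ ∀ w : L.E × ℝ, ‖w‖ ≤ R → |f w| ≤ C := by
  obtain ⟨C, hC⟩ := (isCompact_closedBall (0 : L.E × ℝ) R).exists_bound_of_continuousOn
    h.continuousOn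
  refine ⟨max C 0, le_max_right _ _, fun w hw => ?_⟩
  have := hC w (by simpa using hw)
  exact (Real.norm_eq_abs _ ▸ this).trans (le_max_left _ _)

private theorem layerB_arith {f p m s a b F P M : ℝ} (hf : |f| ≤ F) (hp : |p| ≤ P) (hm : |m| ≤ M)
    (s0 : 0 ≤ s) (s1 : s ≤ 1) (a0 : 0 ≤ a) (a2 : a ≤ 2) (b0 : 0 ≤ b) (b2 : b ≤ 2) :
    |f * s + p * a - m * b| ≤ F + 2 * P + 2 * M := by
  have h1 : |f * s| ≤ F := by
    rw [abs_mul, abs_of_nonneg s0]
    calc |f| * s ≤ F * 1 := mul_le_mul hf s1 s0 ((abs_nonneg _).trans hf)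
      _ = F := mul_one _
  have h2 : |p * a| ≤ 2 * P := by
    rw [abs_mul, abs_of_nonneg a0]
    calc |p| * a ≤ P * 2 := mul_le_mul hp a2 a0 ((abs_nonneg _).trans hp)
      _ = 2 * P := mul_comm _ _
  have h3 : |m * b| ≤ 2 * M := by
    rw [abs_mul, abs_of_nonneg b0]
    calc |m| * b ≤ M * 2 := mul_le_mul hm b2 b0 ((abs_nonneg _).trans hm)
      _ = 2 * M := mul_comm _ _
  rw [abs_le] at h1 h2 h3 ⊢
  constructor <;> linarith [h1.1, h1.2, h2.1, h2.2, h3.1, h3.2]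

theorem Site.Ky_bdd (hL : L.Good) (h1 : Continuous σ.fo) (h2 : Continuous σ.spP)
    (h3 : Continuous σ.spM) : BddK (σ.Ky q) := by
  intro R
  obtain ⟨B, hB⟩ := hL.bddK R
  obtain ⟨F, _, hF⟩ := layerB_cbd h1 R
  obtain ⟨P, _, hP⟩ := layerB_cbd h2 R
  obtain ⟨M, _, hM⟩ := layerB_cbd h3 R
  refine ⟨max B (F + 2 * P + 2 * M), fun w hw κ hκ => ?_⟩
  obtain ⟨s', a, b, u, hu, s0, s1, a0, a2, b0, b2, -, e1, e2⟩ := hκ
  rw [Prod.norm_def]
  refine max_le_max ?_ ?_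
  · rw [e1]
    exact hB w.1 ((norm_fst_le w).trans hw) _ (hL.star w.1 hu s0 s1)
  · rw [e2, Real.norm_eq_abs]
    exact layerB_arith (hF w hw) (hP w hw) (hM w hw) s0 s1 a0 a2 b0 b2

private theorem layerB_s' {al S s s' : ℝ} (a0 : 0 ≤ al) (S0 : 0 ≤ S) (s0 : 0 ≤ s)
    (h : s' ≤ (1 - al * S) * s) : s' ≤ s := by
  have : 0 ≤ al * S * s := by positivity
  linarith [h, this, show (1 - al * S) * s = s - al * S * s by ring]

/-- the lower velocity -/
private theorem layerB_low (hL : L.Good) (hq : q.Good) {x κ : (L.E × ℝ) × (ℝ × ℝ)}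
    (hκ : κ ∈ layerK L q σ x) : κ.1.1 ∈ L.K x.1.1 := by
  obtain ⟨s, s', up, pay, a, b, u, hu, s0, s1, s0', hs', -, -, -, -, -, -, e1, -⟩ := hκ
  rw [e1]
  exact hL.star _ hu s0' ((layerB_s' (q.al_mem _).1 (hq.S_mem _).1 s0 hs').trans s1)

/-- the clock of the layer -/
private def cV (L : Sys) : ((L.E × ℝ) × (ℝ × ℝ)) →L[ℝ] ℝ :=
  (ContinuousLinearMap.fst ℝ ℝ ℝ).comp (ContinuousLinearMap.snd ℝ (L.E × ℝ) (ℝ × ℝ))

/-- the debt of the layer -/
private def cD (L : Sys) : ((L.E × ℝ) × (ℝ × ℝ)) →L[ℝ] ℝ :=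
  (ContinuousLinearMap.snd ℝ ℝ ℝ).comp (ContinuousLinearMap.snd ℝ (L.E × ℝ) (ℝ × ℝ))

/-- the lower state of the layer -/
private def cP (L : Sys) : ((L.E × ℝ) × (ℝ × ℝ)) →L[ℝ] L.E :=
  (ContinuousLinearMap.fst ℝ L.E ℝ).comp (ContinuousLinearMap.fst ℝ (L.E × ℝ) (ℝ × ℝ))

/-- the clock gap -/
private def cG (L : Sys) : ((L.E × ℝ) × (ℝ × ℝ)) →L[ℝ] ℝ := L.V.comp (cP L) - cV L

private theorem cV_apply (x : (L.E × ℝ) × (ℝ × ℝ)) : cV L x = x.2.1 := rfl
private theorem cD_apply (x : (L.E × ℝ) × (ℝ × ℝ)) : cD L x = x.2.2 := rfl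
private theorem cP_apply (x : (L.E × ℝ) × (ℝ × ℝ)) : cP L x = x.1.1 := rfl
private theorem cG_apply (x : (L.E × ℝ) × (ℝ × ℝ)) : cG L x = L.V x.1.1 - x.2.1 := rfl

private theorem layerB_far (T : ℝ) :
    (layer L q σ).far T = ((L.far T, σ.y0), (T, 0)) := by
  simp [Sys.far]

private theorem layerB_phi_der (hσ : σ.Good q) (hq : q.Good) (x : (L.E × ℝ) × (ℝ × ℝ)) :
    HasFDerivAt (fun x : (L.E × ℝ) × (ℝ × ℝ) =>
        σ.th x.1 - x.2.2 + q.lam / (2 * q.H) * Aint (q.H / 4) x.2.1)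
      ((fderiv ℝ σ.th x.1).comp (ContinuousLinearMap.fst ℝ (L.E × ℝ) (ℝ × ℝ)) - cD L +
        (q.lam / (2 * q.H)) • (st (2 - x.2.1 / (q.H / 4)) • cV L)) x := by
  have hN : 0 < q.H / 4 := by have := hq.H_pos; positivity
  have h1 : HasFDerivAt (fun x : (L.E × ℝ) × (ℝ × ℝ) => σ.th x.1)
      ((fderiv ℝ σ.th x.1).comp (ContinuousLinearMap.fst ℝ (L.E × ℝ) (ℝ × ℝ))) x :=
    ((hσ.th_smooth.differentiable (by norm_num)) x.1).hasFDerivAt.comp x hasFDerivAt_fst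
  have h2 : HasFDerivAt (fun x : (L.E × ℝ) × (ℝ × ℝ) => x.2.2) (cD L) x := (cD L).hasFDerivAt
  have h3 : HasFDerivAt (fun x : (L.E × ℝ) × (ℝ × ℝ) => Aint (q.H / 4) x.2.1)
      (st (2 - x.2.1 / (q.H / 4)) • cV L) x :=
    HasDerivAt.comp_hasFDerivAt (h₂ := Aint (q.H / 4)) (f := cV L) x
      (Aint_hasDerivAt hN x.2.1) (cV L).hasFDerivAt
  exact (h1.sub h2).add (h3.const_mul _)

private theorem layerB_gap {s rb g : ℝ} (s0 : 0 ≤ s) (s1 : s ≤ 1) (r1 : rb ≤ 1)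
    (h : g ≤ 2 * rb * s) : g ≤ 2 := by
  have : rb * s ≤ 1 * 1 := mul_le_mul r1 s1 s0 zero_le_one
  linarith

/-- Plan: the lower component is admissible (`IsTraj.proj`), `v ≤ V z` (`le_rate_lin`),
`V z - v ≤ 6 H` (rate `0` until time `a + T - 3 H`, rate `2` afterwards), `0 ≤ Δ` and
`Δ ≤ kap (exp (1/p) - 1)` by `barrier_lin`, and `th - Δ + lam / (2 H) * Aint (H/4) v ≤ lam / 4`
by `barrier`. -/
theorem layer_facts (hL : L.Good) (hq : q.Good) (hσ : σ.Good q) (hH : 64 * L.H ≤ q.H)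
    {Z : ℝ → (layer L q σ).E} {a b : ℝ} (hZ : (layer L q σ).Adm Z a b) :
    L.Adm (fun s => (Z s).1.1) a b ∧ ∀ s ∈ Icc a b, (Z s).2.1 ≤ L.V (Z s).1.1 ∧
      L.V (Z s).1.1 - (Z s).2.1 ≤ 6 * q.H ∧ 0 ≤ (Z s).2.1 ∧ 0 ≤ (Z s).2.2 ∧ (Z s).2.2 < q.cap ∧
      σ.th (Z s).1 - (Z s).2.2 < q.lam := by
  obtain ⟨hab, hT, T, hT3, hbT, hZa⟩ := hZ
  have hT : IsTraj (layerK L q σ) Z a b := hT
  have hT3 : 3 * q.H ≤ T := hT3
  rw [layerB_far] at hZa
  have hK : BddK (layerK L q σ) := (layer_ldi hL hq hσ).bddK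
  have Hp := hq.H_pos
  have LHp := hL.H_pos
  have lp := hq.lam_pos
  have hadm : L.Adm (fun s => (Z s).1.1) a b := by
    refine ⟨hab, hT.proj (cP L) ⟨0, hL.zero_mem _⟩ (fun s _ κ hκ => layerB_low hL hq hκ),
      T, by linarith, hbT, ?_⟩
    simp only [hZa]
  have hG0 : cG L (Z a) = 0 := by
    rw [cG_apply, hZa]; simp only [hL.V_far]; ring
  have hv : ∀ s ∈ Icc a b, T - (s - a) ≤ (Z s).2.1 := by
    intro s hs
    have := hT.le_rate_lin hK (-cV L) (ρ := 1) (fun s _ κ hκ => by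
      have := layer_V_le (L := L) (q := q) (σ := σ) _ κ hκ
      show -κ.2.1 ≤ 1
      linarith [(abs_le.1 this).1]) le_rfl hs.1 hs.2
    have e1 : (-cV L) (Z s) = -(Z s).2.1 := rfl
    have e2 : (-cV L) (Z a) = -T := by rw [hZa]; rfl
    rw [e1, e2] at this
    linarith
  have h1 : ∀ s ∈ Icc a b, (Z s).2.1 ≤ L.V (Z s).1.1 := by
    intro s hs
    have := hT.le_rate_lin hK (-cG L) (ρ := 0) (fun s _ κ hκ => by
      obtain ⟨s, s', up, pay, a, b, u, hu, -, -, -, -, -, -, -, -, -, -, -, -, -, -, -, h, -⟩ := hκ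
      show -(L.V κ.1.1 - κ.2.1) ≤ 0
      linarith) le_rfl hs.1 hs.2
    have e1 : (-cG L) (Z s) = -(L.V (Z s).1.1 - (Z s).2.1) := rfl
    have e2 : (-cG L) (Z a) = -cG L (Z a) := rfl
    rw [e1, e2, hG0] at this
    linarith
  have h2a : ∀ s ∈ Icc a b, s ≤ a + T - 3 * q.H → cG L (Z s) ≤ 0 := by
    intro s hs hs'
    have := (hT.restrict le_rfl hs.2).le_rate_lin hK (cG L) (ρ := 0) (fun t ht κ hκ => by
      obtain ⟨s, s', up, pay, a, b, u, hu, -, -, -, -, -, -, -, -, -, -, -, -, -, -, -, -, h, -⟩ :=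
        hκ
      have h3 := hv t ⟨ht.1, ht.2.le.trans hs.2⟩
      have h4 : q.rb (Z t).2.1 = 0 := cl01_zero
        (div_nonpos_of_nonpos_of_nonneg (by linarith [ht.2]) Hp.le)
      rw [h4] at h
      rw [cG_apply]
      linarith) le_rfl hs.1 le_rfl
    rw [hG0] at this
    linarith
  have h2 : ∀ s ∈ Icc a b, L.V (Z s).1.1 - (Z s).2.1 ≤ 6 * q.H := by
    intro s hs
    rw [← cG_apply]
    by_cases hs' : s ≤ a + T - 3 * q.H
    · linarith [h2a s hs hs']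
    · have hs'' := (not_le.1 hs').le
      have h3 := h2a (a + T - 3 * q.H) ⟨by linarith, hs''.trans hs.2⟩ le_rfl
      have := hT.le_rate_lin hK (cG L) (ρ := 2) (fun t ht κ hκ => by
        obtain ⟨s, s', up, pay, a, b, u, hu, s0, s1, -, -, -, -, -, -, -, -, -, -, -, -, -, -, h,
          -⟩ := hκ
        exact layerB_gap s0 s1 (cl01_le_one _) h) (by linarith : a ≤ a + T - 3 * q.H) hs'' hs.2
      linarith [hs.2]
  have h4 : ∀ s ∈ Icc a b, 0 ≤ (Z s).2.2 := by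
    intro s hs
    have := hT.barrier_lin hK (-cD L) (c := 0) (fun t ht hc κ hκ => by
      obtain ⟨s, s', up, pay, a, b, u, hu, -, -, -, -, u0, -, -, -, -, hp, -, -, e, -⟩ := hκ
      have hc : 0 < -(Z t).2.2 := hc
      have h5 : q.S (Z t).2.2 = 0 := lr_zero (by linarith)
      rw [h5] at hp
      show -κ.2.2 ≤ 0
      linarith) (by rw [hZa]; show -(0 : ℝ) ≤ 0; simp) s hs
    have e1 : (-cD L) (Z s) = -(Z s).2.2 := rfl
    rw [e1] at this
    linarith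
  have h5 : ∀ s ∈ Icc a b, (Z s).2.2 < q.cap := by
    intro s hs
    have kp := hq.kap_pos
    have := hT.barrier_lin hK (cD L) (c := q.kap * (Real.exp (1 / q.p) - 1))
      (fun t ht hc κ hκ => by
        obtain ⟨s, s', up, pay, a, b, u, hu, -, -, -, -, u0, a0, b0, hup, p0, -, -, -, e, -⟩ := hκ
        have hc : q.kap * (Real.exp (1 / q.p) - 1) < (Z t).2.2 := hc
        have h5 : q.rho (Z t).2.2 = 0 := by
          unfold Par.rho; rw [lr_one hq.p_pos kp hc.le]; ring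
        rw [h5] at hup
        show κ.2.2 ≤ 0
        linarith) (by
          rw [hZa]
          show (0 : ℝ) ≤ _
          have : 1 ≤ Real.exp (1 / q.p) := Real.one_le_exp (by have := hq.p_pos; positivity)
          exact mul_nonneg kp.le (by linarith)) s hs
    rw [cD_apply] at this
    unfold Par.cap
    linarith
  have hN : 0 < q.H / 4 := by positivity
  have hlam : 0 < q.lam / (2 * q.H) := by positivity
  have hA : ∀ v, q.lam / (2 * q.H) * Aint (q.H / 4) v ≤ q.lam / 4 := by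
    intro v
    calc q.lam / (2 * q.H) * Aint (q.H / 4) v ≤ q.lam / (2 * q.H) * (2 * (q.H / 4)) :=
          mul_le_mul_of_nonneg_left (Aint_le hN v) hlam.le
      _ = q.lam / 4 := by field_simp
  have h6 := hT.barrier hK (Φ := fun x : (L.E × ℝ) × (ℝ × ℝ) =>
      σ.th x.1 - x.2.2 + q.lam / (2 * q.H) * Aint (q.H / 4) x.2.1) (c := q.lam / 4)
    (fun x => (layerB_phi_der hσ hq x).differentiableAt) (fun t ht hc κ hκ => by
      have ht' : t ∈ Icc a b := ⟨ht.1, ht.2.le⟩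
      have hc : q.lam / 4 < σ.th (Z t).1 - (Z t).2.2 +
        q.lam / (2 * q.H) * Aint (q.H / 4) (Z t).2.1 := hc
      have k1 : (Z t).2.2 < σ.th (Z t).1 := by linarith [hA (Z t).2.1]
      have k2 : L.V (Z t).1.1 ≤ q.H / 8 :=
        hσ.th_act _ (hL.inv _ _ _ hadm t ht') (by linarith [h4 t ht'])
      have k3 : (Z t).2.1 ≤ q.H / 8 := (h1 t ht').trans k2
      have k4 : st (2 - (Z t).2.1 / (q.H / 4)) = 1 := by
        apply st_one
        have : (Z t).2.1 / (q.H / 4) ≤ 1 := by rw [div_le_one hN]; linarith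
        linarith
      have k5 : q.ra (Z t).2.1 = 0 := cl01_zero
        (div_nonpos_of_nonpos_of_nonneg (by linarith) Hp.le)
      obtain ⟨s, s', up, pay, a, b, u, hu, -, -, -, -, -, -, -, -, -, -, -, -, -, -, g1, -, -,
        g2⟩ := hκ
      rw [(layerB_phi_der hσ hq (Z t)).fderiv, k4]
      show fderiv ℝ σ.th (Z t).1 κ.1 - κ.2.2 + q.lam / (2 * q.H) * (1 * κ.2.1) ≤ 0
      rw [max_eq_right (by linarith), zero_div, zero_add] at g2
      rw [k5] at g1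
      have : q.lam / (2 * q.H) * (1 * κ.2.1) ≤ q.lam / (2 * q.H) * (-s) :=
        mul_le_mul_of_nonneg_left (by linarith) hlam.le
      linarith) (by
        show σ.th (Z a).1 - (Z a).2.2 + q.lam / (2 * q.H) * Aint (q.H / 4) (Z a).2.1 ≤ q.lam / 4
        have k1 : σ.th (Z a).1 ≤ 0 := by
          by_contra hc
          have := hσ.th_act _ (hL.inv _ _ _ hadm a ⟨le_rfl, hab⟩) (not_le.1 hc)
          rw [hZa] at this
          simp only [hL.V_far] at this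
          linarith
        have k2 : (Z a).2.2 = 0 := by rw [hZa]
        linarith [hA (Z a).2.1])
  refine ⟨hadm, fun s hs => ⟨h1 s hs, h2 s hs, by linarith [hv s hs, hs.2], h4 s hs, h5 s hs, ?_⟩⟩
  have k1 : σ.th (Z s).1 - (Z s).2.2 + q.lam / (2 * q.H) * Aint (q.H / 4) (Z s).2.1 ≤ q.lam / 4 :=
    h6 s hs
  have k2 : 0 ≤ Aint (q.H / 4) (Z s).2.1 :=
    le_trans (le_min (by linarith [hv s hs, hs.2]) (by positivity)) (Aint_ge hN _)
  have k3 := mul_nonneg hlam.le k2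
  linarith

private theorem layerB_two {al rho s s' eta x : ℝ} (a1 : al ≤ 1) (r0 : 0 ≤ rho)
    (r1 : rho ≤ 1) (s0 : 0 ≤ s) (s1 : s ≤ 1) (s0' : 0 ≤ s') (hs : s' ≤ s) (e0 : 0 < eta)
    (e1 : eta ≤ 1 / 100) (h : x ≤ al * rho * (s - s' + eta * s / 4)) : x ≤ 2 := by
  have h1 : al * rho ≤ 1 * 1 := mul_le_mul a1 r1 r0 zero_le_one
  have h2 : eta * s ≤ 1 / 100 * 1 := mul_le_mul e1 s1 s0 (by norm_num)
  have h3 : 0 ≤ eta * s := by positivity
  have h4 : al * rho * (s - s' + eta * s / 4) ≤ 1 * 2 :=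
    mul_le_mul (by linarith) (by linarith) (by linarith) zero_le_one
  linarith

theorem layer_proj (hL : L.Good) (hq : q.Good) (hσ : σ.Good q) (hH : 64 * L.H ≤ q.H)
    {Z : ℝ → (layer L q σ).E} {a b : ℝ} (hZ : (layer L q σ).Adm Z a b) :
    σ.STraj q (fun s => (Z s).1) a b := by
  obtain ⟨hadm, hf⟩ := layer_facts hL hq hσ hH hZ
  obtain ⟨hab, hT, T, hT3, hbT, hZa⟩ := hZ
  have hT : IsTraj (layerK L q σ) Z a b := hT
  rw [layerB_far] at hZa
  refine ⟨hT.proj (ContinuousLinearMap.fst ℝ (L.E × ℝ) (ℝ × ℝ)) ?_ ?_, hadm, by simp only [hZa]⟩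
  · refine ⟨(0, 0), 0, 0, 0, 0, hL.zero_mem _, le_rfl, zero_le_one, le_rfl, by norm_num, le_rfl,
      by norm_num, fun _ => rfl, by simp, by simp⟩
  · intro t ht κ hκ
    have ht' : t ∈ Icc a b := ⟨ht.1, ht.2.le⟩
    obtain ⟨f1, -, -, -, -, f6⟩ := hf t ht'
    obtain ⟨s, s', up, pay, a, b, u, hu, s0, s1, s0', hs', u0, a0, b0, hup, -, -, e1, e2, -⟩ := hκ
    have hss := layerB_s' (q.al_mem _).1 (hq.S_mem _).1 s0 hs'
    have h2 := layerB_two (q.al_mem _).2 (hq.rho_mem _).1 (hq.rho_mem _).2 s0 s1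
      s0' hss hq.eta_pos hq.eta_le hup
    refine ⟨s', a, b, u, hu, s0', hss.trans s1, a0, by linarith, b0, by linarith, fun hk => ?_,
      e1, e2⟩
    have hk : σ.th (Z t).1 = q.k0 := hk
    have k2 : L.V (Z t).1.1 ≤ q.H / 8 :=
      hσ.th_act _ (hL.inv _ _ _ hadm t ht') (by rw [hk]; exact hq.k0_pos)
    have k3 : q.al (Z t).2.1 = 1 := hq.al_one (by linarith [hq.H_pos])
    have k4 : q.S (Z t).2.2 = 1 := hq.S_one (by linarith)
    rw [k3, k4] at hs'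
    linarith

private theorem layerB_irr (hL : L.Good) (hq : q.Good) {x κ : (L.E × ℝ) × (ℝ × ℝ)}
    (hx : x.2.1 ≤ q.H) (hκ : κ ∈ layerK L q σ x) :
    κ.2.1 ≤ 0 ∧ ∃ κ' ∈ layerK L q σ x, κ = (-κ.2.1) • κ' := by
  obtain ⟨s, s', up, pay, a, b, u, hu, s0, s1, s0', hs', u0, a0, b0, hup, p0, hp, e1, e2, e3, g0,
    g1, g2, g3, g4⟩ := hκ
  have k5 : q.ra x.2.1 = 0 := cl01_zero
    (div_nonpos_of_nonpos_of_nonneg (by linarith) hq.H_pos.le)
  have hv : κ.2.1 = -s := by rw [k5] at g1; linarith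
  refine ⟨by linarith, ?_⟩
  rw [hv, neg_neg]
  rcases s0.eq_or_lt with h0 | h0
  · subst h0
    refine ⟨0, layer_zero (σ := σ) hL hq x, ?_⟩
    have z1 : s' = 0 := by linarith
    subst z1
    have z2 : a = 0 := by linarith
    have z3 : b = 0 := by linarith
    have z4 : up = 0 := by linarith
    have z5 : pay = 0 := by linarith
    subst z2 z3 z4 z5
    refine Prod.ext (Prod.ext ?_ ?_) (Prod.ext ?_ ?_)
    · simpa using e1
    · simpa using e2
    · simpa using hv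
    · simpa using e3
  · have hi : 0 < s⁻¹ := inv_pos.2 h0
    have his : s⁻¹ * s = 1 := inv_mul_cancel₀ h0.ne'
    have sc : ∀ {x y : ℝ}, x ≤ y * s → s⁻¹ * x ≤ y * 1 := by
      intro x y h
      calc s⁻¹ * x ≤ s⁻¹ * (y * s) := mul_le_mul_of_nonneg_left h hi.le
        _ = y * (s⁻¹ * s) := by ring
        _ = y * 1 := by rw [his]
    refine ⟨s⁻¹ • κ, ⟨1, s⁻¹ * s', s⁻¹ * up, s⁻¹ * pay, s⁻¹ * a, s⁻¹ * b, u, hu, zero_le_one,
      le_rfl, by positivity, sc hs', by positivity, by positivity, by positivity, ?_,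
      by positivity, sc hp, ?_, ?_, ?_, ?_, ?_, ?_, ?_, ?_⟩, ?_⟩
    · calc s⁻¹ * up + s⁻¹ * a + s⁻¹ * b = s⁻¹ * (up + a + b) := by ring
        _ ≤ s⁻¹ * (q.al x.2.1 * q.rho x.2.2 * (s - s' + q.eta * s / 4)) :=
          mul_le_mul_of_nonneg_left hup hi.le
        _ = q.al x.2.1 * q.rho x.2.2 * (s⁻¹ * s - s⁻¹ * s' + q.eta * (s⁻¹ * s) / 4) := by ring
        _ = _ := by rw [his]
    · show s⁻¹ • κ.1.1 = _
      rw [e1, smul_smul]
    · show s⁻¹ * κ.1.2 = _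
      rw [e2]; ring
    · show s⁻¹ * κ.2.2 = _
      rw [e3]; ring
    · show -1 ≤ s⁻¹ * κ.2.1
      rw [hv, mul_neg, his]
    · show s⁻¹ * κ.2.1 ≤ _
      rw [hv, mul_neg, his, k5]; linarith
    · show s⁻¹ * κ.2.1 ≤ L.V (s⁻¹ • κ.1.1)
      rw [map_smul, smul_eq_mul]
      exact mul_le_mul_of_nonneg_left g2 hi.le
    · show L.V (s⁻¹ • κ.1.1) - s⁻¹ * κ.2.1 ≤ _
      rw [map_smul, smul_eq_mul, ← mul_sub]
      exact sc g3
    · show fderiv ℝ σ.th x.1 (s⁻¹ • κ.1) - s⁻¹ * κ.2.2 ≤ _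
      rw [map_smul, smul_eq_mul, ← mul_sub]
      exact sc g4
    · rw [smul_smul, mul_inv_cancel₀ h0.ne', one_smul]

private theorem layerB_open (hL : L.Good) (hσ : σ.Good q) : IsOpen (layer L q σ).Om := by
  have c1 : Continuous (fun x : (L.E × ℝ) × (ℝ × ℝ) => L.V x.1.1) := by fun_prop
  have c2 : Continuous (fun x : (L.E × ℝ) × (ℝ × ℝ) => σ.th x.1) :=
    hσ.th_smooth.continuous.comp continuous_fst
  have c3 : Continuous (fun x : (L.E × ℝ) × (ℝ × ℝ) => x.2.1) := by fun_prop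
  have c4 : Continuous (fun x : (L.E × ℝ) × (ℝ × ℝ) => x.2.2) := by fun_prop
  have o1 : IsOpen {x : (L.E × ℝ) × (ℝ × ℝ) | x.1.1 ∈ L.Om} :=
    hL.isOpen.preimage (continuous_fst.comp continuous_fst)
  have o2 : IsOpen {x : (L.E × ℝ) × (ℝ × ℝ) | x.1 ∈ σ.O} := hσ.isOpen.preimage continuous_fst
  have o3 := isOpen_lt c3 (c1.add (continuous_const (y := q.c)))
  have o4 := isOpen_lt (c1.sub c3) (continuous_const (y := 7 * q.H))
  have o5 := isOpen_lt (continuous_const (y := (-1 : ℝ))) c3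
  have o6 := isOpen_lt (continuous_const (y := -q.c)) c4
  have o7 := isOpen_lt c4 (continuous_const (y := q.cap))
  have o8 := isOpen_lt (c2.sub c4) (continuous_const (y := q.lam))
  exact o1.inter (o2.inter (o3.inter (o4.inter (o5.inter (o6.inter (o7.inter o8))))))

private theorem layerB_bdd (hL : L.Good) (hσ : σ.Good q) (N : ℝ) :
    ∃ R : ℝ, ∀ z ∈ (layer L q σ).Om, z.2.1 ≤ N → ‖z‖ ≤ R := by
  obtain ⟨R, hR⟩ := hL.bdd (N + 7 * q.H)
  obtain ⟨Ym, hY⟩ := hσ.bdd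
  refine ⟨max (max R Ym) (max (max 1 N) (max q.c q.cap)), fun z hz hN => ?_⟩
  obtain ⟨h1, h2, -, h4, h5, h6, h7, -⟩ := hz
  rw [Prod.norm_def, Prod.norm_def, Prod.norm_def]
  refine max_le_max (max_le_max (hR _ h1 (by linarith)) (hY _ h2)) (max_le_max ?_ ?_)
  · rw [Real.norm_eq_abs, abs_le]
    exact ⟨by linarith [le_max_left 1 N], hN.trans (le_max_right _ _)⟩
  · rw [Real.norm_eq_abs, abs_le]
    exact ⟨by linarith [le_max_left q.c q.cap], h7.le.trans (le_max_right _ _)⟩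

private theorem layerB_farLaw (hL : L.Good) (hq : q.Good) (hσ : σ.Good q) (hH : 64 * L.H ≤ q.H)
    {x : (L.E × ℝ) × (ℝ × ℝ)} (hx : x ∈ (layer L q σ).Om) (hv : 3 * q.H ≤ x.2.1)
    (κ : (L.E × ℝ) × (ℝ × ℝ)) : κ ∈ layerK L q σ x ↔ ∃ c : ℝ, |c| ≤ 1 ∧
      κ = c • (((L.one, 0), (1, 0)) : (L.E × ℝ) × (ℝ × ℝ)) := by
  obtain ⟨h1, -, h3, -⟩ := hx
  have Hp := hq.H_pos
  have LHp := hL.H_pos
  have hc := hq.c_le
  have k1 : q.al x.2.1 = 0 := hq.al_zero (by linarith)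
  have k2 : q.rb x.2.1 = 0 := cl01_zero (div_nonpos_of_nonpos_of_nonneg (by linarith) Hp.le)
  have k3 : q.ra x.2.1 = 1 := cl01_one (by rw [le_div_iff₀ Hp]; linarith)
  have k4 : σ.fo x.1 = 0 := hσ.fo_act _ h1 (by linarith)
  have k5 := hL.farLaw _ h1 (by linarith)
  have k6 : σ.th x.1 ≤ 0 := by
    by_contra h
    have := hσ.th_act _ h1 (not_le.1 h)
    linarith
  have k7 : fderiv ℝ σ.th x.1 = 0 :=
    IsLocalMin.fderiv_eq_zero (Filter.Eventually.of_forall fun w => k6.trans (hσ.th_bd w).1)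
  constructor
  · rintro ⟨s, s', up, pay, a, b, u, hu, s0, s1, s0', hs', u0, a0, b0, hup, p0, hp, e1, e2, e3, -,
      -, g2, g3, -⟩
    obtain ⟨c, c1, rfl⟩ := (k5 u).1 hu
    rw [k1] at hs' hup hp
    rw [k2] at g3
    have z2 : a = 0 := by linarith
    have z3 : b = 0 := by linarith
    have z4 : up = 0 := by linarith
    have z5 : pay = 0 := by linarith
    subst z2 z3 z4 z5
    rw [smul_smul] at e1
    have e4 : L.V κ.1.1 = s' * c := by rw [e1, map_smul, hL.V_one, smul_eq_mul, mul_one]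
    refine ⟨s' * c, ?_, Prod.ext (Prod.ext e1 ?_) (Prod.ext ?_ ?_)⟩
    · rw [abs_mul, abs_of_nonneg s0']
      calc s' * |c| ≤ 1 * 1 := mul_le_mul (by linarith) c1 (abs_nonneg _) zero_le_one
        _ = 1 := one_mul _
    · rw [e2, k4]; simp
    · show κ.2.1 = s' * c * 1
      linarith
    · rw [e3]; simp
  · rintro ⟨c, c1, rfl⟩
    have e4 : L.V (c • L.one) = c := by rw [map_smul, hL.V_one, smul_eq_mul, mul_one]
    have c2 := abs_le.1 c1
    refine ⟨1, 1, 0, 0, 0, 0, c • L.one, (k5 _).2 ⟨c, c1, rfl⟩, zero_le_one, le_rfl, zero_le_one,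
      by rw [k1]; linarith, le_rfl, le_rfl, le_rfl, by rw [k1]; linarith, le_rfl,
      by rw [k1]; linarith, by simp, by rw [k4]; simp, by simp, ?_, ?_, ?_, ?_, ?_⟩
    · show -1 ≤ c * 1
      linarith [c2.1]
    · show c * 1 ≤ _
      rw [k3]; linarith [c2.2]
    · show c * 1 ≤ L.V (c • L.one)
      rw [e4]; linarith
    · show L.V (c • L.one) - c * 1 ≤ _
      rw [e4, k2]; linarith
    · rw [k7]
      show (0 : ℝ) - c * 0 ≤ _
      have := hq.lam_pos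
      have h0 : 0 ≤ (max (x.2.2 - σ.th x.1) 0 / q.lam + q.lam / (2 * q.H)) * 1 := by positivity
      linarith

theorem layer_good (hL : L.Good) (hq : q.Good) (hσ : σ.Good q) (hH : 64 * L.H ≤ q.H) :
    (layer L q σ).Good where
  H_pos := hq.H_pos
  V_one := rfl
  V_z0 := rfl
  convex := layer_convex hL hq
  compact := layer_compact hL hq
  zero_mem := layer_zero hL hq
  ldi := layer_ldi hL hq hσ
  V_le := fun z κ hκ => layer_V_le z κ hκ
  irr := fun _ _ hv _ hκ => layerB_irr hL hq hv hκ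
  isOpen := layerB_open hL hσ
  bdd := fun N => layerB_bdd hL hσ N
  farLaw := fun _ hx hv κ => layerB_farLaw hL hq hσ hH hx hv κ
  inv := by
    intro Z a b hZ s hs
    obtain ⟨hadm, hf⟩ := layer_facts hL hq hσ hH hZ
    obtain ⟨f1, f2, f3, f4, f5, f6⟩ := hf s hs
    have Hp := hq.H_pos
    have cp := hq.c_pos
    exact ⟨hL.inv _ _ _ hadm s hs, hσ.inv _ _ _ (layer_proj hL hq hσ hH hZ) s hs, by linarith,
      by linarith, by linarith, by linarith, f5, f6⟩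

end Pool.Agent.MP703675
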