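import Pool.Agent.Lib.MP_703675_gt.Lifta

set_option autoImplicit false

open Set Metric Filter Topology TopologicalSpace

noncomputable section

namespace Pool.Agent.MP703675

/-- total debt -/
def liftPsi {E : Type} [NormedAddCommGroup E] [NormedSpace ℝ E] (ld : LD E) (m n : ℕ) (z : E) : ℝ :=
  ∑ j ∈ Finset.Ico m n, (ld.Dj j z + min (ld.T j true z) (ld.T j false z))

theorem lift_level {E : Type} [NormedAddCommGroup E] [NormedSpace ℝ E] (D l : E →L[ℝ] ℝ)
    {z z' κ : E} {δ C B M M' f f' : ℝ} (hM : 0 ≤ M) (hMM : M ≤ M')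
    (h1 : ‖z' - z - δ • κ‖ ≤ C * δ ^ 2) (h2 : ‖z' - z‖ ≤ B * δ) (h3 : ‖l‖ ≤ M)
    (h4 : f' - f - l (z' - z) ≤ M * ‖z' - z‖ ^ 2) :
    D z' + f' - (D z + f) ≤ δ * (D κ + l κ) + ((‖D‖ + M') * C + M' * B ^ 2) * δ ^ 2 := by
  have e1 : D z' - D z = δ * D κ + D (z' - z - δ • κ) := by
    simp only [map_sub, map_smul, smul_eq_mul]; ring
  have e2 : l (z' - z) = δ * l κ + l (z' - z - δ • κ) := by
    simp only [map_sub, map_smul, smul_eq_mul]; ring
  have e3 : D (z' - z - δ • κ) ≤ ‖D‖ * (C * δ ^ 2) :=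
    ((le_abs_self _).trans (D.le_opNorm _)).trans (mul_le_mul_of_nonneg_left h1 (norm_nonneg _))
  have e4 : l (z' - z - δ • κ) ≤ M' * (C * δ ^ 2) :=
    ((le_abs_self _).trans (l.le_opNorm _)).trans
      (mul_le_mul (h3.trans hMM) h1 (norm_nonneg _) (hM.trans hMM))
  have e5 : M * ‖z' - z‖ ^ 2 ≤ M' * (B * δ) ^ 2 :=
    mul_le_mul hMM (pow_le_pow_left₀ (norm_nonneg _) h2 2) (sq_nonneg _) (hM.trans hMM)
  linarith

section

variable {B T : Sys} {π : T.E →L[ℝ] B.E} {m n : ℕ} {par : ℕ → Par} {ld : LD T.E} {slk : ℝ}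

/-- one Euler step -/
theorem lift_step (hT : T.Good) (h : Tower B 1 T π m n par ld slk) {Y : ℝ → B.E} {b e : ℝ}
    (hbe : b ≤ e) (hY : IsTraj B.K Y b e) : ∃ C B1 : ℝ, 0 ≤ C ∧ 0 ≤ B1 ∧ ∀ R : ℝ, ∃ C2 : ℝ,
      0 ≤ C2 ∧ ∀ (δ : ℝ) (x : T.E × ℝ), 0 ≤ δ → δ ≤ e - b → π x.1 = Y x.2 → b ≤ x.2 →
        x.2 + δ ≤ e → ∃ x' : T.E × ℝ, (∃ κ ∈ T.K x.1, ‖x'.1 - x.1 - δ • κ‖ ≤ C * δ ^ 2) ∧
          ‖x'.1 - x.1‖ ≤ B1 * δ ∧ x.2 ≤ x'.2 ∧ x'.2 ≤ x.2 + δ ∧ π x'.1 = Y x'.2 ∧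
          (x.1 ∈ T.Om → ‖x.1‖ ≤ R → ‖x'.1‖ ≤ R → liftPsi ld m n x'.1 - liftPsi ld m n x.1 ≤
            x'.2 - x.2 - δ + δ * ∑ j ∈ Finset.Ico m n, ld.er par j x.1 + C2 * δ ^ 2) := by
  obtain ⟨CY, hCY⟩ := hY
  obtain ⟨Bs, hBs, hsp⟩ := hT.speed
  obtain ⟨g, hg⟩ := (π : T.E →ₗ[ℝ] B.E).exists_rightInverse_of_surjective
    (LinearMap.range_eq_top.2 h.surj)
  obtain ⟨Rs, hRs⟩ : ∃ Rs : B.E →L[ℝ] T.E, ∀ v, π (Rs v) = v :=
    ⟨LinearMap.toContinuousLinearMap g, fun v => LinearMap.congr_fun hg v⟩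
  have hC : 0 ≤ ‖Rs‖ * |CY| := by positivity
  have hB1 : 0 ≤ Bs + ‖Rs‖ * |CY| * (e - b) := add_nonneg hBs.le (mul_nonneg hC (by linarith))
  refine ⟨‖Rs‖ * |CY|, Bs + ‖Rs‖ * |CY| * (e - b), hC, hB1, fun R => ?_⟩
  generalize hCe : ‖Rs‖ * |CY| = C at hC hB1
  generalize hBe : Bs + C * (e - b) = B1 at hB1
  choose M hM0 hM using fun j b => lift_taylor (h.smooth j b) R
  refine ⟨∑ j ∈ Finset.Ico m n, ((‖ld.Dj j‖ + (M j true + M j false)) * C +
    (M j true + M j false) * B1 ^ 2), Finset.sum_nonneg fun j _ => ?_, ?_⟩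
  · have := hM0 j true
    have := hM0 j false
    positivity
  rintro δ ⟨z, p⟩ h0 h1 h2 h3 h4
  simp only at h2 h3 h4 ⊢
  by_cases hz : z ∈ T.Om
  swap
  · refine ⟨(z, p), ⟨0, hT.zero_mem _, ?_⟩, ?_, le_rfl, by linarith, h2, fun h => absurd h hz⟩
    · simp only [sub_self, smul_zero, norm_zero]; positivity
    · simp only [sub_self, norm_zero]; positivity
  obtain ⟨sg, hsg⟩ := ld.exists_valid h.r_pos z
  obtain ⟨σ, s0, s1, hσ⟩ := h.move_or_pay hz (b := sg) fun j _ _ => (hsg j).1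
  have a1 : 0 ≤ δ * σ := mul_nonneg h0 s0
  have a2 : δ * σ ≤ δ := mul_le_of_le_one_right h0 s1
  obtain ⟨u, hu, eu⟩ := hCY p (p + δ * σ) h3 (by linarith) (by linarith)
  rw [add_sub_cancel_left] at eu
  rw [← h2] at hu
  obtain ⟨κ, hκ, e1, -, e2⟩ := hσ u hu
  rw [div_one] at e1
  have a3 : ‖Y (p + δ * σ) - Y p - (δ * σ) • u‖ ≤ |CY| * δ ^ 2 :=
    eu.trans (mul_le_mul (le_abs_self _) (pow_le_pow_left₀ a1 a2 2) (sq_nonneg _) (abs_nonneg _))
  generalize hv : Y (p + δ * σ) - Y p - (δ * σ) • u = v at a3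
  have a4 : ‖z + δ • κ + Rs v - z - δ • κ‖ ≤ C * δ ^ 2 := by
    have : z + δ • κ + Rs v - z - δ • κ = Rs v := by abel
    rw [this, ← hCe, mul_assoc]
    exact (Rs.le_opNorm v).trans (mul_le_mul_of_nonneg_left a3 (norm_nonneg _))
  have a5 : ‖z + δ • κ + Rs v - z‖ ≤ B1 * δ := by
    have b1 := norm_le_insert' (z + δ • κ + Rs v - z) (δ • κ)
    have b2 : ‖δ • κ‖ ≤ δ * Bs := by
      rw [norm_smul, Real.norm_eq_abs, abs_of_nonneg h0]
      exact mul_le_mul_of_nonneg_left (hsp z hz κ hκ) h0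
    have b3 : C * δ * δ ≤ C * δ * (e - b) := mul_le_mul_of_nonneg_left h1 (mul_nonneg hC h0)
    rw [← hBe]
    linarith
  refine ⟨(z + δ • κ + Rs v, p + δ * σ), ⟨κ, hκ, a4⟩, a5, by simpa using a1, by simpa using a2,
    ?_, fun _ r1 r2 => ?_⟩
  · simp only [map_add, map_smul, hRs, e1, h2, smul_smul]
    rw [← hv]
    abel
  · simp only at r2 ⊢
    generalize z + δ • κ + Rs v = z' at a4 a5 r2
    have a6 : liftPsi ld m n z' - liftPsi ld m n z ≤ ∑ j ∈ Finset.Ico m n,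
        (δ * (ld.Dj j κ + fderiv ℝ (ld.T j (sg j)) z κ) + ((‖ld.Dj j‖ + (M j true + M j false)) * C +
          (M j true + M j false) * B1 ^ 2) * δ ^ 2) := by
      unfold liftPsi
      rw [← Finset.sum_sub_distrib]
      refine Finset.sum_le_sum fun j _ => ?_
      have c1 := hM j (sg j) z z' r1 r2
      have c2 : M j (sg j) ≤ M j true + M j false := by
        have := hM0 j true
        have := hM0 j false
        cases sg j <;> linarith
      have c3 := lift_level (ld.Dj j) (fderiv ℝ (ld.T j (sg j)) z) (hM0 j (sg j)) c2 a4 a5 c1.1 c1.2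
      have c4 : min (ld.T j true z') (ld.T j false z') ≤ ld.T j (sg j) z' := by
        cases sg j
        · exact min_le_right _ _
        · exact min_le_left _ _
      have c5 : ld.T j (sg j) z ≤ min (ld.T j true z) (ld.T j false z) := by
        have := (hsg j).2
        revert this
        cases sg j
        · exact fun this => le_min this le_rfl
        · exact fun this => le_min le_rfl this
      linarith
    rw [Finset.sum_add_distrib, ← Finset.mul_sum, ← Finset.sum_mul] at a6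
    have a7 := mul_le_mul_of_nonneg_left e2 h0
    linarith

/-- the Euler scheme -/
theorem lift_scheme (hT : T.Good) (h : Tower B 1 T π m n par ld slk) {Y : ℝ → B.E} {b e : ℝ}
    (hbe : b ≤ e) (hY : IsTraj B.K Y b e) {z0 : T.E} (h0 : π z0 = Y b) :
    ∃ C B1 C2 R : ℝ, 0 ≤ C ∧ 0 ≤ B1 ∧ 0 ≤ C2 ∧ ∀ (δ : ℝ) (N : ℕ), ∃ (z : ℕ → T.E) (p : ℕ → ℝ),
      0 < δ → ((N + 1 : ℕ) : ℝ) * δ = e - b → z 0 = z0 ∧ p 0 = b ∧
      (∀ k ≤ N + 1, ‖z k‖ ≤ R ∧ π (z k) = Y (p k) ∧ p k ∈ Icc b e) ∧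
      ∀ k < N + 1, (∃ κ ∈ T.K (z k), ‖z (k + 1) - z k - δ • κ‖ ≤ C * δ ^ 2) ∧
        ‖z (k + 1) - z k‖ ≤ B1 * δ ∧ p k ≤ p (k + 1) ∧ p (k + 1) ≤ p k + δ ∧
        (z k ∈ T.Om → liftPsi ld m n (z (k + 1)) - liftPsi ld m n (z k) ≤
          p (k + 1) - p k - δ + δ * ∑ j ∈ Finset.Ico m n, ld.er par j (z k) + C2 * δ ^ 2) := by
  obtain ⟨C, B1, hC, hB1, hs⟩ := lift_step hT h hbe hY
  obtain ⟨C2, hC2, hs⟩ := hs (‖z0‖ + B1 * (e - b))
  refine ⟨C, B1, C2, ‖z0‖ + B1 * (e - b), hC, hB1, hC2, fun δ N => ?_⟩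
  choose! F hF using hs δ
  refine ⟨fun k => (F^[k] (z0, b)).1, fun k => (F^[k] (z0, b)).2, fun hδ hN => ?_⟩
  have hk : ∀ k : ℕ, k ≤ N + 1 → (k : ℝ) * δ ≤ e - b := fun k hk =>
    hN ▸ mul_le_mul_of_nonneg_right (Nat.cast_le.2 hk) hδ.le
  have h1 : δ ≤ e - b := by simpa using hk 1 (by omega)
  have inv : ∀ k : ℕ, k ≤ N + 1 → π (F^[k] (z0, b)).1 = Y (F^[k] (z0, b)).2 ∧
      b ≤ (F^[k] (z0, b)).2 ∧ (F^[k] (z0, b)).2 ≤ b + k * δ := by
    intro k
    induction k with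
    | zero => exact fun _ => ⟨h0, le_rfl, by simp⟩
    | succ k ih =>
      intro hk'
      obtain ⟨a1, a2, a3⟩ := ih (by omega)
      have a4 := hk (k + 1) hk'
      push_cast at a4 ⊢
      obtain ⟨-, -, b1, b2, b3, -⟩ := hF _ hδ.le h1 a1 a2 (by linarith)
      rw [Function.iterate_succ_apply']
      exact ⟨b3, a2.trans b1, by linarith⟩
  have stp : ∀ k < N + 1, _ := fun k hk' => hF (F^[k] (z0, b)) hδ.le h1 (inv k hk'.le).1
    (inv k hk'.le).2.1 (by
      have a3 := (inv k hk'.le).2.2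
      have a4 := hk (k + 1) hk'
      push_cast at a4
      linarith)
  have hR : ∀ k ≤ N + 1, ‖(F^[k] (z0, b)).1‖ ≤ ‖z0‖ + B1 * (e - b) := by
    intro k hk'
    have a1 := lift_disc_lip (z := fun k => (F^[k] (z0, b)).1) (N := N + 1) (c := B1 * δ)
      (fun k hk' => by
        simp only [Function.iterate_succ_apply']
        exact (stp k hk').2.1) 0 k (by omega)
    simp only [zero_add, Function.iterate_zero, id] at a1
    have a2 := norm_le_insert' (F^[k] (z0, b)).1 z0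
    have a3 := mul_le_mul_of_nonneg_left (hk k hk') hB1
    linarith
  refine ⟨rfl, rfl, fun k hk' => ⟨hR k hk', (inv k hk').1, (inv k hk').2.1, ?_⟩, fun k hk' => ?_⟩
  · have := (inv k hk').2.2
    have := hk k hk'
    simp only
    linarith
  · have a1 := hR (k + 1) hk'
    simp only [Function.iterate_succ_apply'] at a1 ⊢
    obtain ⟨b1, b2, b3, b4, -, b5⟩ := stp k hk'
    exact ⟨b1, b2, b3, b4, fun hz => b5 hz (hR k hk'.le) a1⟩

theorem lift_er (h : Tower B 1 T π m n par ld slk) (hs : slk ≤ 1) {z : T.E} (hz : z ∈ T.Om)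
    {e t δ : ℝ} (hδ : 0 ≤ δ) (hV : e - t - 1 < T.V z) {j : ℕ} (hj : j ∈ Finset.Ico m n) :
    δ * ld.er par j z ≤ (par j).eta * max (t + δ - (e - (par j).H - 2)) 0 -
      (par j).eta * max (t - (e - (par j).H - 2)) 0 := by
  obtain ⟨j1, j2⟩ := Finset.mem_Ico.1 hj
  have he := (h.pgood j j1 j2).eta_pos
  have hd := h.dom1 z hz j j1 j2
  unfold LD.er Par.ind
  split_ifs with hv
  · rw [max_eq_left (by linarith), max_eq_left (by linarith)]
    linarith
  · have := mul_le_mul_of_nonneg_left (max_le_max_right 0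
      (show t - (e - (par j).H - 2) ≤ t + δ - (e - (par j).H - 2) by linarith)) he.le
    linarith

theorem lift_budget (h : Tower B 1 T π m n par ld slk) (h1 : 1 ≤ B.H) {z z' : T.E}
    (hz : z ∈ T.Om) (hz' : z' ∈ T.Om) {e t : ℝ} (ht : t ≤ e) :
    liftPsi ld m n z - liftPsi ld m n z' +
      ∑ j ∈ Finset.Ico m n, (par j).eta * max (t - (e - (par j).H - 2)) 0 ≤
      4 * ∑ j ∈ Finset.Ico m n, (par j).w := by
  unfold liftPsi
  rw [← Finset.sum_sub_distrib, ← Finset.sum_add_distrib, Finset.mul_sum]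
  refine Finset.sum_le_sum fun j hj => ?_
  obtain ⟨j1, j2⟩ := Finset.mem_Ico.1 hj
  have hg := h.pgood j j1 j2
  have a1 := (h.D_bd z hz j j1 j2).2
  have a2 := (h.D_bd z' hz' j j1 j2).1
  have a3 := (min_le_left (ld.T j true z) (ld.T j false z)).trans (h.T_bd z hz j j1 j2 true).2
  have a4 := le_min (h.T_bd z' hz' j j1 j2 true).1 (h.T_bd z' hz' j j1 j2 false).1
  have a5 := (h.lev_H j j1 j2).1
  have a6 : max (t - (e - (par j).H - 2)) 0 ≤ 4 * (par j).H := max_le (by linarith) (by linarith)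
  have a7 := mul_le_mul_of_nonneg_left a6 hg.eta_pos.le
  have a8 := hg.cap_pos
  have a9 := hg.c_pos
  unfold Par.w
  linarith

/-- the delay of the scheme -/
theorem lift_delay (h : Tower B 1 T π m n par ld slk) (hs : slk ≤ 1) (h1 : 1 ≤ B.H)
    {b e δ C2 : ℝ} {N : ℕ} {z : ℕ → T.E} {p : ℕ → ℝ} (hδ : 0 < δ) (hC : 0 ≤ C2)
    (hN : ((N + 1 : ℕ) : ℝ) * δ = e - b) (hp : p 0 = b)
    (hU : ∀ k : ℕ, k ≤ N + 1 → z k ∈ T.Om ∧ e - (b + k * δ) - 1 < T.V (z k))
    (hst : ∀ k < N + 1, z k ∈ T.Om → liftPsi ld m n (z (k + 1)) - liftPsi ld m n (z k) ≤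
      p (k + 1) - p k - δ + δ * ∑ j ∈ Finset.Ico m n, ld.er par j (z k) + C2 * δ ^ 2)
    (k : ℕ) (hk : k ≤ N + 1) :
    b + k * δ - 4 * ∑ j ∈ Finset.Ico m n, (par j).w - (e - b) * (C2 * δ) ≤ p k := by
  have key : ∀ k : ℕ, k ≤ N + 1 → liftPsi ld m n (z k) - liftPsi ld m n (z 0) ≤
      p k - (b + k * δ) + ∑ j ∈ Finset.Ico m n,
        (par j).eta * max (b + k * δ - (e - (par j).H - 2)) 0 + k * (C2 * δ ^ 2) := by
    intro k
    induction k with
    | zero =>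
      intro _
      have : 0 ≤ ∑ j ∈ Finset.Ico m n,
          (par j).eta * max (b + ((0 : ℕ) : ℝ) * δ - (e - (par j).H - 2)) 0 :=
        Finset.sum_nonneg fun j hj => mul_nonneg
          (h.pgood j (Finset.mem_Ico.1 hj).1 (Finset.mem_Ico.1 hj).2).eta_pos.le (le_max_right _ _)
      rw [hp]
      push_cast at this ⊢
      linarith
    | succ k ih =>
      intro hk
      have a1 := ih (by omega)
      have a2 := hU k (by omega)
      have a3 := hst k hk a2.1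
      have a4 := Finset.sum_le_sum fun j hj => lift_er h hs a2.1 hδ.le a2.2 (j := j) hj
      rw [← Finset.mul_sum, Finset.sum_sub_distrib] at a4
      have a5 : b + ((k + 1 : ℕ) : ℝ) * δ = b + k * δ + δ := by push_cast; ring
      rw [a5]
      push_cast
      linarith
  have a0 : (k : ℝ) * δ ≤ e - b := hN ▸ mul_le_mul_of_nonneg_right (Nat.cast_le.2 hk) hδ.le
  have a1 := key k hk
  have a2 := lift_budget h h1 (hU 0 (by omega)).1 (hU k hk).1 (e := e) (t := b + k * δ)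
    (by linarith)
  have a3 := mul_le_mul_of_nonneg_right a0 (mul_nonneg hC hδ.le)
  linarith

end

/-- Plan: Euler scheme.  Let `Rs` be a continuous linear right inverse of `π`.  At a state `z`
over `Y φ` choose signs with minimal `T` (`LD.exists_valid`), get `σ` from `move_or_pay`, a base
velocity `u` from the trajectory property of `Y` between `φ` and `φ + h σ`, the response `κ`, and
put `z' = z + h κ + Rs (error)`, so that `π z' = Y (φ + h σ)` exactly.  The potential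
`φ - ∑ (D j + min T j) + ∑ eta j * max (t - (e - H j - 2)) 0 - t` is almost nondecreasing.
Pass to the limit along an ultrafilter (`Good.limit`); this gives an extension for a short time
as long as a ball around the state lies in `Om`.  Continuation: the supremum of the times up to
which a lift exists is attained (ultrafilter limit of lifts, `Good.normalC`), the end state
is in the open set `Om` by `Good.inv`, so the supremum is `e`. -/
theorem Tower.lift {B T : Sys} (hB : B.Good) (hT : T.Good) {π : T.E →L[ℝ] B.E} {m n : ℕ}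
    {par : ℕ → Par} {ld : LD T.E} {slk : ℝ} (h : Tower B 1 T π m n par ld slk) (hs : slk ≤ 1)
    (h1 : 1 ≤ B.H) (Z : ℝ → T.E) (Y : ℝ → B.E) (a b e T0 : ℝ) (hab : a ≤ b) (hbe : b ≤ e)
    (hZ : IsTraj T.K Z a b) (hZa : Z a = T.far T0) (hT0 : 3 * T.H ≤ T0) (he : e - a ≤ T0)
    (hY : IsTraj B.K Y b e) (hb : π (Z b) = Y b) :
    ∃ (Z' : ℝ → T.E) (φ : ℝ → ℝ), (∀ s, s ≤ b → Z' s = Z s) ∧ IsTraj T.K Z' a e ∧ φ b = b ∧
      (∀ s t, b ≤ s → s ≤ t → t ≤ e → φ s ≤ φ t ∧ φ t - φ s ≤ t - s) ∧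
      ∀ s, b ≤ s → s ≤ e → s - 4 * ∑ j ∈ Finset.Ico m n, (par j).w ≤ φ s ∧
        π (Z' s) = Y (φ s) := by
  rcases hbe.eq_or_lt with rfl | hlt
  · refine ⟨Z, fun s => s, fun _ _ => rfl, hZ, rfl, fun s t _ hst _ => ⟨hst, le_rfl⟩,
      fun s h2 h3 => ?_⟩
    obtain rfl : s = b := le_antisymm h3 h2
    have : 0 ≤ ∑ j ∈ Finset.Ico m n, (par j).w := Finset.sum_nonneg fun j hj =>
      (h.pgood j (Finset.mem_Ico.1 hj).1 (Finset.mem_Ico.1 hj).2).w_pos.le
    exact ⟨by linarith, hb⟩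
  obtain ⟨δ, i, hp, hN, h0, i1, i0, i2, i3⟩ := lift_grid hlt
  obtain ⟨C, B1, C2, R, hC, hB1, hC2, hsch⟩ := lift_scheme hT h hbe hY hb
  choose z p hzp using hsch
  have hq := fun N => hzp (δ N) N (hp N) (hN N)
  have := FiniteDimensional.proper_real T.E
  choose W _ hW using fun s => lift_ulim (isCompact_closedBall (0 : T.E) R)
    (fun N => z (δ N) N (i N s)) fun N => mem_closedBall_zero_iff.2 ((hq N).2.2.1 _ (i1 N s)).1
  choose φ hφm hφ using fun s => lift_ulim (isCompact_Icc (a := b) (b := e))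
    (fun N => p (δ N) N (i N s)) fun N => ((hq N).2.2.1 _ (i1 N s)).2.2
  have hWb : W b = Z b := by
    refine tendsto_nhds_unique (hW b) ?_
    simp only [i0, (hq _).1]
    exact tendsto_const_nhds
  have hφb : φ b = b := by
    refine tendsto_nhds_unique (hφ b) ?_
    simp only [i0, (hq _).2.1]
    exact tendsto_const_nhds
  have hWt : IsTraj T.K W b e := lift_limit hT (z := fun N => z (δ N) N) hC hB1 hp hN h0 i1 i2 i3
    (fun N k hk => ((hq N).2.2.1 k hk).1) (fun N k hk => ((hq N).2.2.2 k hk).2.1)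
    (fun N k hk => ((hq N).2.2.2 k hk).1) hW
  have hZW : ∀ s, b ≤ s → (if s ≤ b then Z s else W s) = W s := by
    intro s h2
    split_ifs with h3
    · rw [le_antisymm h3 h2, hWb]
    · rfl
  have hZ' : IsTraj T.K (fun s => if s ≤ b then Z s else W s) a e :=
    hT.concat (hZ.congr fun s h2 => if_pos h2.2) (hWt.congr fun s h2 => hZW s h2.1)
  have hA : T.Adm (fun s => if s ≤ b then Z s else W s) a e :=
    ⟨hab.trans hbe, hZ', T0, hT0, he, by simp only [if_pos hab, hZa]⟩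
  have hU : IsOpen {x : ℝ × T.E | x.2 ∈ T.Om ∧ e - x.1 - 1 < T.V x.2} :=
    (hT.isOpen.preimage continuous_snd).inter (isOpen_lt (f := fun x : ℝ × T.E => e - x.1 - 1)
      (g := fun x : ℝ × T.E => T.V x.2) (by fun_prop) (by fun_prop))
  have hstay := lift_stay (z := fun N => z (δ N) N) hB1 hp hN h0 i1 i3
    (fun N k hk => ((hq N).2.2.2 k hk).2.1) hW hU (fun s h2 => by
      have a1 := hT.inv _ _ _ hA s ⟨hab.trans h2.1, h2.2⟩
      have a2 := hT.adm_V_ge hA (s := s) ⟨hab.trans h2.1, h2.2⟩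
      simp only [hZW s h2.1] at a1 a2
      exact ⟨a1, by simp only; linarith⟩)
  refine ⟨_, φ, fun s h2 => if_pos h2, hZ', hφb, fun s t h2 hst h3 => ?_, fun s h2 h3 => ⟨?_, ?_⟩⟩
  · have key : ∀ N, p (δ N) N (i N s) ≤ p (δ N) N (i N t) ∧
        p (δ N) N (i N t) - p (δ N) N (i N s) ≤ t - s + δ N := by
      intro N
      obtain ⟨j, hj⟩ := Nat.exists_eq_add_of_le (i2 N s t hst)
      have a1 : ∀ j : ℕ, i N s + j ≤ N + 1 → p (δ N) N (i N s) ≤ p (δ N) N (i N s + j) ∧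
          p (δ N) N (i N s + j) - p (δ N) N (i N s) ≤ j * δ N := by
        intro j
        induction j with
        | zero => exact fun _ => ⟨le_rfl, by simp⟩
        | succ j ih =>
          intro hj
          obtain ⟨b1, b2⟩ := ih (by omega)
          obtain ⟨-, -, b3, b4, -⟩ := (hq N).2.2.2 (i N s + j) (by omega)
          rw [← add_assoc]
          push_cast
          exact ⟨b1.trans b3, by linarith⟩
      have a2 := a1 j (hj ▸ i1 N t)
      have a3 := (i3 N s h2 (hst.trans h3)).2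
      have a4 := (i3 N t (h2.trans hst) h3).1
      rw [hj] at a4 ⊢
      push_cast at a4
      exact ⟨a2.1, by linarith [a2.2]⟩
    refine ⟨le_of_tendsto_of_tendsto' (hφ s) (hφ t) fun N => (key N).1, ?_⟩
    have := le_of_tendsto_of_tendsto' ((hφ t).sub (hφ s)) (h0.const_add (t - s))
      fun N => (key N).2
    rwa [add_zero] at this
  · have t1 : Tendsto (fun N => s - δ N - 4 * ∑ j ∈ Finset.Ico m n, (par j).w -
        (e - b) * (C2 * δ N)) (hyperfilter ℕ)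
        (𝓝 (s - 0 - 4 * ∑ j ∈ Finset.Ico m n, (par j).w - (e - b) * (C2 * 0))) :=
      ((h0.const_sub s).sub_const _).sub ((h0.const_mul _).const_mul _)
    have t2 := le_of_tendsto_of_tendsto t1 (hφ s) (by
      filter_upwards [hstay] with N hU'
      have a1 := lift_delay h hs h1 (hp N) hC2 (hN N) (hq N).2.1 hU'
        (fun k hk => ((hq N).2.2.2 k hk).2.2.2.2) _ (i1 N s)
      have a2 := (i3 N s h2 h3).2
      linarith)
    simpa using t2
  · simp only [hZW s h2]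
    have t1 := (π.continuous.tendsto _).comp (hW s)
    have t2 := ((hY.continuousOn hB.bddK) _ (hφm s)).tendsto.comp
      (tendsto_nhdsWithin_iff.2 ⟨hφ s,
        Eventually.of_forall fun N => ((hq N).2.2.1 _ (i1 N s)).2.2⟩)
    refine tendsto_nhds_unique t1 (t2.congr fun N => ?_)
    exact ((hq N).2.2.1 _ (i1 N s)).2.1.symm

end Pool.Agent.MP703675
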