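import Pool.Agent.Lib.MP_703675_gt.TowerB

set_option autoImplicit false

open Set Metric Filter Topology TopologicalSpace

noncomputable section

namespace Pool.Agent.MP703675

theorem lift_ulim {X : Type} [TopologicalSpace X] {K : Set X} (hK : IsCompact K) (f : ℕ → X)
    (hf : ∀ n, f n ∈ K) : ∃ x ∈ K, Tendsto f (hyperfilter ℕ) (𝓝 x) := by
  obtain ⟨x, hx, h⟩ := hK.ultrafilter_le_nhds ((hyperfilter ℕ).map f)
    (by rw [le_principal_iff]; exact Filter.mem_map.2 (Eventually.of_forall hf))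
  exact ⟨x, hx, h⟩

/-- uniform grids on an interval -/
theorem lift_grid {b e : ℝ} (hbe : b < e) : ∃ (h : ℕ → ℝ) (i : ℕ → ℝ → ℕ),
    (∀ N, 0 < h N) ∧ (∀ N : ℕ, ((N + 1 : ℕ) : ℝ) * h N = e - b) ∧
    Tendsto h (hyperfilter ℕ) (𝓝 0) ∧ (∀ N s, i N s ≤ N + 1) ∧ (∀ N, i N b = 0) ∧
    (∀ N s t, s ≤ t → i N s ≤ i N t) ∧
    ∀ N s, b ≤ s → s ≤ e → b + i N s * h N ≤ s ∧ s ≤ b + i N s * h N + h N := by
  have hp : ∀ N : ℕ, 0 < (e - b) * (1 / ((N : ℝ) + 1)) := fun N => by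
    have : 0 < e - b := by linarith
    positivity
  have he : ∀ N : ℕ, ((N + 1 : ℕ) : ℝ) * ((e - b) * (1 / ((N : ℝ) + 1))) = e - b := fun N => by
    push_cast
    field_simp
  refine ⟨fun N => (e - b) * (1 / ((N : ℝ) + 1)),
    fun N s => min ⌊(s - b) / ((e - b) * (1 / ((N : ℝ) + 1)))⌋₊ (N + 1), hp, he, ?_,
    fun N s => min_le_right _ _, fun N => by simp, fun N s t hst => ?_, fun N s h1 h2 => ?_⟩
  · have := (tendsto_one_div_add_atTop_nhds_zero_nat (𝕜 := ℝ)).const_mul (e - b)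
    rw [mul_zero] at this
    exact this.mono_left Nat.hyperfilter_le_atTop
  · exact min_le_min_right _ (Nat.floor_le_floor
      (div_le_div_of_nonneg_right (by linarith) (hp N).le))
  · have hN := hp N
    have h3 := he N
    simp only
    generalize (e - b) * (1 / ((N : ℝ) + 1)) = h at hN h3
    have h0 : 0 ≤ (s - b) / h := div_nonneg (by linarith) hN.le
    have h4 : ⌊(s - b) / h⌋₊ ≤ N + 1 := by
      refine Nat.floor_le_of_le ?_
      rw [div_le_iff₀ hN]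
      linarith
    rw [min_eq_left h4]
    have h5 := Nat.floor_le h0
    have h6 := (Nat.lt_floor_add_one ((s - b) / h)).le
    rw [le_div_iff₀ hN] at h5
    rw [div_le_iff₀ hN] at h6
    exact ⟨by linarith, by linarith⟩

theorem lift_taylor {E : Type} [NormedAddCommGroup E] [NormedSpace ℝ E] [FiniteDimensional ℝ E]
    {f : E → ℝ} (hf : ContDiff ℝ 2 f) (R : ℝ) : ∃ M : ℝ, 0 ≤ M ∧ ∀ z z' : E, ‖z‖ ≤ R → ‖z'‖ ≤ R →
      ‖fderiv ℝ f z‖ ≤ M ∧ f z' - f z - fderiv ℝ f z (z' - z) ≤ M * ‖z' - z‖ ^ 2 := by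
  have := FiniteDimensional.proper_real E
  have hg : ContDiff ℝ 1 (fderiv ℝ f) := hf.fderiv_right (m := 1) (by norm_num)
  have hK := isCompact_closedBall (0 : E) R
  obtain ⟨M0, h0⟩ := hK.exists_bound_of_continuousOn hg.continuous.continuousOn
  obtain ⟨M1, h1⟩ := hK.exists_bound_of_continuousOn
    (hg.continuous_fderiv (by norm_num)).continuousOn
  refine ⟨|M0| + |M1|, by positivity, fun z z' hz hz' => ⟨?_, ?_⟩⟩
  · have := h0 z (mem_closedBall_zero_iff.2 hz)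
    have := le_abs_self M0
    have := abs_nonneg M1
    linarith
  · have hl : ∀ w ∈ closedBall (0 : E) R ∩ closedBall z ‖z' - z‖,
        ‖fderiv ℝ f w - fderiv ℝ f z‖ ≤ |M1| * ‖z' - z‖ := by
      intro w hw
      have e1 := (convex_closedBall (0 : E) R).norm_image_sub_le_of_norm_fderiv_le
        (f := fderiv ℝ f) (C := |M1|) (fun x _ => hg.differentiable (by norm_num) x)
        (fun x hx => (h1 x hx).trans (le_abs_self _)) (mem_closedBall_zero_iff.2 hz) hw.1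
      exact e1.trans (mul_le_mul_of_nonneg_left (mem_closedBall_iff_norm.1 hw.2) (abs_nonneg _))
    have e2 := ((convex_closedBall (0 : E) R).inter
      (convex_closedBall z ‖z' - z‖)).norm_image_sub_le_of_norm_fderiv_le' (f := f)
      (fun x _ => hf.differentiable (by norm_num) x) hl
      (x := z) (y := z') ⟨mem_closedBall_zero_iff.2 hz, mem_closedBall_self (norm_nonneg _)⟩
      ⟨mem_closedBall_zero_iff.2 hz', mem_closedBall_iff_norm.2 le_rfl⟩
    have e3 := (le_abs_self _).trans e2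
    have e4 : 0 ≤ |M0| * ‖z' - z‖ ^ 2 := by positivity
    linarith

variable {S : Sys}

/-- speed of an Euler scheme -/
theorem lift_disc_lip {E : Type} [NormedAddCommGroup E] {z : ℕ → E} {N : ℕ} {c : ℝ}
    (hz : ∀ k < N, ‖z (k + 1) - z k‖ ≤ c) (k j : ℕ) (hj : k + j ≤ N) :
    ‖z (k + j) - z k‖ ≤ j * c := by
  induction j with
  | zero => simp
  | succ j ih =>
    have e1 := ih (by omega)
    have e2 := hz (k + j) (by omega)
    have e3 := norm_sub_le_norm_sub_add_norm_sub (z (k + j + 1)) (z (k + j)) (z k)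
    push_cast
    rw [← add_assoc]
    linarith

/-- several Euler steps at once -/
theorem lift_disc (hS : S.Good) {z : ℕ → S.E} {N : ℕ} {h C B L R : ℝ} (h0 : 0 ≤ h) (hB : 0 ≤ B)
    (hL : 0 ≤ L) (hR : ∀ k ≤ N, ‖z k‖ ≤ R)
    (hK : ∀ x x' : S.E, ‖x‖ ≤ R → ‖x'‖ ≤ R → ∀ κ ∈ S.K x, ∃ κ' ∈ S.K x', ‖κ - κ'‖ ≤ L * ‖x - x'‖)
    (h1 : ∀ k < N, ‖z (k + 1) - z k‖ ≤ B * h)
    (h2 : ∀ k < N, ∃ κ ∈ S.K (z k), ‖z (k + 1) - z k - h • κ‖ ≤ C * h ^ 2) (k j : ℕ)
    (hj : k + j ≤ N) : ∃ κ ∈ S.K (z k), ‖z (k + j) - z k - (j * h) • κ‖ ≤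
      L * B * (j * h) ^ 2 + j * (C * h ^ 2) := by
  induction j with
  | zero => exact ⟨0, hS.zero_mem _, by simp⟩
  | succ j ih =>
    obtain ⟨κ, hκ, e1⟩ := ih (by omega)
    obtain ⟨κ1, hκ1, e2⟩ := h2 (k + j) (by omega)
    obtain ⟨κ2, hκ2, e3⟩ := hK _ _ (hR (k + j) (by omega)) (hR k (by omega)) κ1 hκ1
    have hjh : 0 ≤ (j : ℝ) * h := by positivity
    obtain ⟨κ3, hκ3, e4⟩ := cone_comb (hS.convex (z k)) (hS.zero_mem _) hκ hκ2 hjh h0
    refine ⟨κ3, hκ3, ?_⟩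
    have e5 := lift_disc_lip h1 k j (by omega)
    have e6 : ‖h • (κ1 - κ2)‖ ≤ h * (L * (j * (B * h))) := by
      rw [norm_smul, Real.norm_eq_abs, abs_of_nonneg h0]
      exact mul_le_mul_of_nonneg_left (e3.trans (mul_le_mul_of_nonneg_left e5 hL)) h0
    have e7 : z (k + (j + 1)) - z k - (((j + 1 : ℕ) : ℝ) * h) • κ3 =
        (z (k + j) - z k - (j * h) • κ) + (z (k + j + 1) - z (k + j) - h • κ1) +
          h • (κ1 - κ2) := by
      have : (((j + 1 : ℕ) : ℝ) * h) = j * h + h := by push_cast; ring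
      rw [this, ← e4, ← add_assoc, smul_sub]
      abel
    rw [e7]
    refine norm_add₃_le.trans ?_
    have e8 : 0 ≤ L * B * (j * h ^ 2) := by positivity
    have e9 : 0 ≤ L * B * h ^ 2 := by positivity
    push_cast
    linarith

theorem lift_real {L B C h D x δ K : ℝ} (hLB : 0 ≤ L * B) (hC : 0 ≤ C) (h0 : 0 ≤ h) (hx : 0 ≤ x)
    (h1 : x ≤ δ + h) (h2 : x ≤ D) :
    L * B * x ^ 2 + x * (C * h) + h * K ≤ L * B * (δ + h) ^ 2 + D * (C * h) + h * K := by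
  have e1 : L * B * x ^ 2 ≤ L * B * (δ + h) ^ 2 :=
    mul_le_mul_of_nonneg_left (pow_le_pow_left₀ hx h1 2) hLB
  have e2 : x * (C * h) ≤ D * (C * h) := mul_le_mul_of_nonneg_right h2 (mul_nonneg hC h0)
  linarith

/-- limits of Euler schemes are trajectories -/
theorem lift_limit (hS : S.Good) {b e C B R : ℝ} {h : ℕ → ℝ} {i : ℕ → ℝ → ℕ}
    {z : ℕ → ℕ → S.E} (hC : 0 ≤ C) (hB : 0 ≤ B) (hp : ∀ N, 0 < h N)
    (he : ∀ N : ℕ, ((N + 1 : ℕ) : ℝ) * h N = e - b) (h0 : Tendsto h (hyperfilter ℕ) (𝓝 0))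
    (i1 : ∀ N s, i N s ≤ N + 1) (i2 : ∀ N s t, s ≤ t → i N s ≤ i N t)
    (i3 : ∀ N s, b ≤ s → s ≤ e → b + i N s * h N ≤ s ∧ s ≤ b + i N s * h N + h N)
    (hR : ∀ N, ∀ k ≤ N + 1, ‖z N k‖ ≤ R)
    (h1 : ∀ N, ∀ k < N + 1, ‖z N (k + 1) - z N k‖ ≤ B * h N)
    (h2 : ∀ N, ∀ k < N + 1, ∃ κ ∈ S.K (z N k), ‖z N (k + 1) - z N k - h N • κ‖ ≤ C * h N ^ 2)
    {Z : ℝ → S.E} (hZ : ∀ s, Tendsto (fun N => z N (i N s)) (hyperfilter ℕ) (𝓝 (Z s))) :
    IsTraj S.K Z b e := by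
  obtain ⟨L, K, hL, hK, k1, k2⟩ := hS.ldi R
  refine ⟨L * B, fun s t hs hst ht => ?_⟩
  have hZR : ‖Z s‖ ≤ R := le_of_tendsto (hZ s).norm (Eventually.of_forall fun N => hR N _ (i1 N s))
  have key : ∀ N, ∃ κ ∈ S.K (Z s), ‖z N (i N t) - z N (i N s) - (t - s) • κ‖ ≤
      L * B * (t - s + h N) ^ 2 + (e - b) * (C * h N) + h N * K +
        (t - s) * (L * ‖z N (i N s) - Z s‖) := by
    intro N
    obtain ⟨j, hj⟩ := Nat.exists_eq_add_of_le (i2 N s t hst)
    have hjN : i N s + j ≤ N + 1 := hj ▸ i1 N t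
    obtain ⟨κ, hκ, e1⟩ := lift_disc hS (hp N).le hB hL (hR N) k2 (h1 N) (h2 N) (i N s) j hjN
    obtain ⟨κ', hκ', e2⟩ := k2 _ _ (hR N _ (i1 N s)) hZR κ hκ
    refine ⟨κ', hκ', ?_⟩
    have a1 := i3 N s hs (hst.trans ht)
    have a2 := i3 N t (hs.trans hst) ht
    rw [hj] at a2
    push_cast at a2
    have a3 : |(j : ℝ) * h N - (t - s)| ≤ h N := abs_le.2 ⟨by linarith, by linarith⟩
    have a4 : (j : ℝ) * h N ≤ e - b := by
      rw [← he N]
      exact mul_le_mul_of_nonneg_right (Nat.cast_le.2 (by omega)) (hp N).le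
    have a5 : ‖((j : ℝ) * h N - (t - s)) • κ‖ ≤ h N * K := by
      rw [norm_smul, Real.norm_eq_abs]
      exact mul_le_mul a3 (k1 _ (hR N _ (i1 N s)) κ hκ) (norm_nonneg _) (hp N).le
    have a6 : ‖(t - s) • (κ - κ')‖ ≤ (t - s) * (L * ‖z N (i N s) - Z s‖) := by
      rw [norm_smul, Real.norm_eq_abs, abs_of_nonneg (by linarith)]
      exact mul_le_mul_of_nonneg_left e2 (by linarith)
    have a7 : z N (i N t) - z N (i N s) - (t - s) • κ' =
        (z N (i N s + j) - z N (i N s) - ((j : ℝ) * h N) • κ) + ((j : ℝ) * h N - (t - s)) • κ +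
          (t - s) • (κ - κ') := by
      rw [← hj]
      module
    have a8 := lift_real (K := K) (mul_nonneg hL hB) hC (hp N).le
      (mul_nonneg (Nat.cast_nonneg j) (hp N).le) (show (j : ℝ) * h N ≤ t - s + h N by
        linarith [(abs_le.1 a3).2]) a4
    rw [a7]
    refine norm_add₃_le.trans ?_
    linarith
  choose κ hκ hκ' using key
  obtain ⟨κ0, hκ0, hl⟩ := lift_ulim (hS.compact (Z s)) κ hκ
  refine ⟨κ0, hκ0, ?_⟩
  have t1 := (((hZ t).sub (hZ s)).sub (hl.const_smul (t - s))).norm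
  have t2 : Tendsto (fun N => L * B * (t - s + h N) ^ 2 + (e - b) * (C * h N) + h N * K +
      (t - s) * (L * ‖z N (i N s) - Z s‖)) (hyperfilter ℕ)
      (𝓝 (L * B * (t - s + 0) ^ 2 + (e - b) * (C * 0) + 0 * K + (t - s) * (L * ‖Z s - Z s‖))) :=
    (((((h0.const_add _).pow 2).const_mul _).add ((h0.const_mul _).const_mul _)).add
      (h0.mul_const _)).add ((((hZ s).sub_const _).norm.const_mul _).const_mul _)
  have t3 := le_of_tendsto_of_tendsto' t1 t2 hκ'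
  simpa using t3

/-- eventually the whole scheme stays in an open set that contains the graph of the limit -/
theorem lift_stay {E : Type} [NormedAddCommGroup E] {b e B : ℝ} {h : ℕ → ℝ} {i : ℕ → ℝ → ℕ}
    {z : ℕ → ℕ → E} (hB : 0 ≤ B) (hp : ∀ N, 0 < h N)
    (he : ∀ N : ℕ, ((N + 1 : ℕ) : ℝ) * h N = e - b) (h0 : Tendsto h (hyperfilter ℕ) (𝓝 0))
    (i1 : ∀ N s, i N s ≤ N + 1)
    (i3 : ∀ N s, b ≤ s → s ≤ e → b + i N s * h N ≤ s ∧ s ≤ b + i N s * h N + h N)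
    (h1 : ∀ N, ∀ k < N + 1, ‖z N (k + 1) - z N k‖ ≤ B * h N)
    {Z : ℝ → E} (hZ : ∀ s, Tendsto (fun N => z N (i N s)) (hyperfilter ℕ) (𝓝 (Z s)))
    {U : Set (ℝ × E)} (hU : IsOpen U) (hZU : ∀ s ∈ Icc b e, (s, Z s) ∈ U) :
    ∀ᶠ N in hyperfilter ℕ, ∀ k : ℕ, k ≤ N + 1 → (b + k * h N, z N k) ∈ U := by
  have key : ∀ N, ∃ k : ℕ, k ≤ N + 1 ∧ ((b + k * h N, z N k) ∈ U →
      ∀ k : ℕ, k ≤ N + 1 → (b + k * h N, z N k) ∈ U) := by
    intro N
    by_cases hN : ∀ k : ℕ, k ≤ N + 1 → (b + k * h N, z N k) ∈ U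
    · exact ⟨0, Nat.zero_le _, fun _ => hN⟩
    · push Not at hN
      obtain ⟨k, hk, hk'⟩ := hN
      exact ⟨k, hk, fun h => absurd h hk'⟩
  choose k hk hk' using key
  have hm : ∀ N, b + k N * h N ∈ Icc b e := by
    intro N
    have a1 : (k N : ℝ) * h N ≤ e - b := by
      rw [← he N]
      exact mul_le_mul_of_nonneg_right (Nat.cast_le.2 (hk N)) (hp N).le
    have a2 : 0 ≤ (k N : ℝ) * h N := mul_nonneg (Nat.cast_nonneg _) (hp N).le
    exact ⟨by linarith, by linarith⟩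
  obtain ⟨τ, hτ, hl⟩ := lift_ulim isCompact_Icc _ hm
  have hd : ∀ N, ‖z N (k N) - z N (i N τ)‖ ≤ B * (|b + k N * h N - τ| + h N) := by
    intro N
    have a1 := i3 N τ hτ.1 hτ.2
    have a2 := le_abs_self (b + k N * h N - τ)
    have a3 := neg_abs_le (b + k N * h N - τ)
    rcases le_total (i N τ) (k N) with hle | hle
    · obtain ⟨j, hj⟩ := Nat.exists_eq_add_of_le hle
      have a4 := lift_disc_lip (h1 N) (i N τ) j (hj ▸ hk N)
      rw [← hj] at a4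
      have a5 : (k N : ℝ) = i N τ + j := by rw [hj]; push_cast; ring
      have a6 : (j : ℝ) * h N ≤ |b + k N * h N - τ| + h N := by
        rw [a5] at a2 ⊢; linarith
      have := mul_le_mul_of_nonneg_left a6 hB
      linarith
    · obtain ⟨j, hj⟩ := Nat.exists_eq_add_of_le hle
      have a4 := lift_disc_lip (h1 N) (k N) j (hj ▸ i1 N τ)
      rw [← hj, norm_sub_rev] at a4
      have a5 : (i N τ : ℝ) = k N + j := by rw [hj]; push_cast; ring
      have a6 : (j : ℝ) * h N ≤ |b + k N * h N - τ| + h N := by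
        rw [a5] at a1; linarith [hp N]
      have := mul_le_mul_of_nonneg_left a6 hB
      linarith
  have t1 : Tendsto (fun N => B * (|b + k N * h N - τ| + h N)) (hyperfilter ℕ) (𝓝 0) := by
    have := (((hl.sub_const τ).abs).add h0).const_mul B
    simpa using this
  have t2 : Tendsto (fun N => z N (k N) - z N (i N τ)) (hyperfilter ℕ) (𝓝 0) :=
    squeeze_zero_norm hd t1
  have t3 : Tendsto (fun N => z N (k N)) (hyperfilter ℕ) (𝓝 (Z τ)) := by
    simpa using t2.add (hZ τ)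
  filter_upwards [(hl.prodMk_nhds t3).eventually (hU.mem_nhds (hZU τ hτ))] with N hN
  exact hk' N hN

end Pool.Agent.MP703675
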