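import Pool.Agent.Lib.MP_703675_gt.ProdAb

set_option autoImplicit false

open Set Metric Filter Topology TopologicalSpace

noncomputable section

namespace Pool.Agent.MP703675

variable {d : PD} {Tm Qc η Emax M' ν Bq : ℝ}

theorem prodA_ll_cl {X : Type} [NormedAddCommGroup X] [NormedSpace ℝ X] {f : X → ℝ}
    (hf : ContDiff ℝ 1 f) : LocallyLipschitz (fun x => cl01 (f x)) :=
  cl01_lip.locallyLipschitz.comp hf.locallyLipschitz

theorem prodA_ll_t (d : PD) : ContDiff ℝ 1 (fun x : d.E => x.2.1.1) := by fun_prop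

theorem prodA_ll_y (d : PD) : ContDiff ℝ 1 (fun x : d.E => x.2.1.2) := by fun_prop

theorem prodA_ll_ra (d : PD) : LocallyLipschitz (fun x : d.E => d.ra x.2.1.1) :=
  prodA_ll_cl (((prodA_ll_t d).sub contDiff_const).div_const _)

theorem prodA_ll_rb (d : PD) : LocallyLipschitz (fun x : d.E => d.rb x.2.1.1) :=
  prodA_ll_cl ((contDiff_const.sub (prodA_ll_t d)).div_const _)

theorem prodA_ll_bs (d : PD) : LocallyLipschitz (fun x : d.E => d.bs x.2.1.1) :=
  prodA_ll_cl (contDiff_const.sub ((contDiff_const.mul (prodA_ll_t d)).div_const _))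

theorem prodA_ll_al (d : PD) : LocallyLipschitz (fun x : d.E => d.al x.2.1.1) :=
  prodA_ll_cl (contDiff_const.sub ((contDiff_const.mul (prodA_ll_t d)).div_const _))

theorem prodA_ll_omg (d : PD) : LocallyLipschitz (fun x : d.E => d.omg x.2.1.2) :=
  prodA_ll_cl (contDiff_const.sub (contDiff_const.mul (prodA_ll_y d)))

theorem prodA_ll_room (d : PD) : LocallyLipschitz (fun x : d.E => d.room x.2.1.2) :=
  prodA_ll_cl (contDiff_const.sub (prodA_ll_y d))

theorem prodA_dev_smooth (H : d.Hyp Tm Qc η Emax M' ν Bq) : ContDiff ℝ 1 d.dev := by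
  have h1 : ContDiff ℝ 1 (fun x : d.E => (x.1.1, x.2.2)) := by fun_prop
  have h2 : ContDiff ℝ 1 d.Gd := H.Gd_smooth.of_le (by norm_num)
  have h3 : ContDiff ℝ 1 d.N := H.N_smooth.of_le (by norm_num)
  have h4 : ContDiff ℝ 1 st := st_smooth 1
  exact (h4.comp (((h2.comp h1).div_const _).sub contDiff_const)).add
    (h4.comp (((h3.comp (prodA_arg d).contDiff).div_const _).sub contDiff_const))

theorem prodA_ll_ell (H : d.Hyp Tm Qc η Emax M' ν Bq) : LocallyLipschitz (prodA_ell d) := by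
  have ht := (prodA_ll_t d).locallyLipschitz
  have h1 := locLip_mul (prodA_ll_omg d) (prodA_ll_al d)
  have h2 : LocallyLipschitz (fun x : d.E => d.Ex x.2.1.1) :=
    (H.Ex_smooth.of_le (by norm_num : (1 : WithTop ℕ∞) ≤ 2)).locallyLipschitz.comp ht
  have h3 := locLip_clm_comp (locLip_fderiv (prodA_Phi_smooth H))
    (ContinuousLinearMap.fst ℝ d.E ℝ)
  have h4 : LocallyLipschitz (fun x : d.E => deriv d.Ex x.2.1.1) :=
    (locLip_deriv H.Ex_smooth).comp ht
  have h5 : LocallyLipschitz (fun x : d.E => deriv d.Th x.2.1.1) :=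
    (locLip_deriv H.Th_smooth).comp ht
  have h6 : LocallyLipschitz (fun x : d.E => max (d.Phi x) 0) :=
    ((prodA_Phi_smooth H).of_le (by norm_num : (1 : WithTop ℕ∞) ≤ 2)).locallyLipschitz.max_const 0
  have h7 := ((LocallyLipschitz.const d.μ).add (locLip_mul h4 h6)).add h5
  exact ((locLip_smul (locLip_mul h1 h2) h3).sub
    (locLip_smul (locLip_mul h1 (LocallyLipschitz.const d.Kw))
      (LocallyLipschitz.const (prodA_py d)))).sub
    (locLip_smul h7 (LocallyLipschitz.const (ContinuousLinearMap.snd ℝ d.E ℝ)))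

theorem prodA_ll_fst (d : PD) : LocallyLipschitz (fun p : prodA_T d => p.1) :=
  LipschitzWith.prod_fst.locallyLipschitz

theorem prodA_ll_s (d : PD) : LocallyLipschitz (fun p : prodA_T d => p.2.2.1) :=
  (by fun_prop : ContDiff ℝ 1 (fun p : prodA_T d => p.2.2.1)).locallyLipschitz

theorem prodA_ll_cc (d : PD) : LocallyLipschitz (fun p : prodA_T d => p.2.2.2.1) :=
  (by fun_prop : ContDiff ℝ 1 (fun p : prodA_T d => p.2.2.2.1)).locallyLipschitz

theorem prodA_ll_ka (d : PD) : LocallyLipschitz (prodA_ka d) := by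
  have hb : LocallyLipschitz (fun p : prodA_T d => d.bs p.1.2.1.1) :=
    (prodA_ll_bs d).comp (prodA_ll_fst d)
  have hu : LocallyLipschitz (fun p : prodA_T d => p.2.1.1) :=
    (by fun_prop : ContDiff ℝ 1 (fun p : prodA_T d => p.2.1.1)).locallyLipschitz
  exact locLip_smul (prodA_ll_s d)
    ((locLip_smul ((LocallyLipschitz.const 1).sub hb)
      (locLip_smul (prodA_ll_cc d) (LocallyLipschitz.const d.A.one))).add (locLip_smul hb hu))

theorem prodA_ll_kc (d : PD) : LocallyLipschitz (prodA_kc d) := by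
  have hb : LocallyLipschitz (fun p : prodA_T d => d.bs p.1.2.1.1) :=
    (prodA_ll_bs d).comp (prodA_ll_fst d)
  have hu : LocallyLipschitz (fun p : prodA_T d => p.2.1.2) :=
    (by fun_prop : ContDiff ℝ 1 (fun p : prodA_T d => p.2.1.2)).locallyLipschitz
  exact locLip_smul (prodA_ll_s d)
    ((locLip_smul ((LocallyLipschitz.const 1).sub hb)
      (locLip_smul (prodA_ll_cc d) (LocallyLipschitz.const d.C.one))).add (locLip_smul hb hu))

theorem prodA_ll_Va (d : PD) : LocallyLipschitz (fun p => d.A.V (prodA_ka d p)) :=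
  (locLip_clm d.A.V).comp (prodA_ll_ka d)

theorem prodA_ll_Vc (d : PD) : LocallyLipschitz (fun p => d.C.V (prodA_kc d p)) :=
  (locLip_clm d.C.V).comp (prodA_ll_kc d)

theorem prodA_ll_lo (d : PD) : LocallyLipschitz (prodA_lo d) := by
  have hr : LocallyLipschitz (fun p : prodA_T d => d.rb p.1.2.1.1) :=
    (prodA_ll_rb d).comp (prodA_ll_fst d)
  exact (prodA_ll_s d).neg.max ((prodA_ll_Va d).sub
    (locLip_mul (locLip_mul (LocallyLipschitz.const 2) hr) (prodA_ll_s d)))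

theorem prodA_ll_hi (d : PD) : LocallyLipschitz (prodA_hi d) := by
  have hr : LocallyLipschitz (fun p : prodA_T d => d.ra p.1.2.1.1) :=
    (prodA_ll_ra d).comp (prodA_ll_fst d)
  exact ((prodA_ll_s d).neg.add
    (locLip_mul (locLip_mul (LocallyLipschitz.const 2) hr) (prodA_ll_s d))).min
    ((prodA_ll_Va d).min (prodA_ll_Vc d))

theorem prodA_ll_kt (d : PD) : LocallyLipschitz (prodA_kt d) := by
  have hσ : LocallyLipschitz (fun p : prodA_T d => p.2.2.2.2) :=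
    (by fun_prop : ContDiff ℝ 1 (fun p : prodA_T d => p.2.2.2.2)).locallyLipschitz
  exact (prodA_ll_lo d).add (locLip_mul hσ ((prodA_ll_hi d).sub (prodA_ll_lo d)))

theorem prodA_ll_ky (H : d.Hyp Tm Qc η Emax M' ν Bq) : LocallyLipschitz (prodA_ky d) := by
  have h1 : LocallyLipschitz (fun p : prodA_T d => d.room p.1.2.1.2) :=
    (prodA_ll_room d).comp (prodA_ll_fst d)
  have h2 : LocallyLipschitz (fun p : prodA_T d => d.al p.1.2.1.1) :=
    (prodA_ll_al d).comp (prodA_ll_fst d)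
  have h3 : LocallyLipschitz (fun p : prodA_T d => d.dev p.1) :=
    (prodA_dev_smooth H).locallyLipschitz.comp (prodA_ll_fst d)
  have h4 := locLip_mul (locLip_mul h1 (((prodA_ll_Va d).sub (prodA_ll_kt d)).add
    (locLip_mul (locLip_mul h2 h3) (prodA_ll_s d)))) (LocallyLipschitz.const d.δ⁻¹)
  have e : prodA_ky d = fun p : prodA_T d => d.room p.1.2.1.2 *
      ((d.A.V (prodA_ka d p) - prodA_kt d p) + d.al p.1.2.1.1 * d.dev p.1 * p.2.2.1) * d.δ⁻¹ := by
    funext p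
    exact div_eq_mul_inv _ _
  rw [e]
  exact h4

theorem prodA_ll_f (H : d.Hyp Tm Qc η Emax M' ν Bq) : LocallyLipschitz (prodA_f d) := by
  have hg : LocallyLipschitz (fun p : prodA_T d => d.g p.1.2.1.1) :=
    H.tgt.g_locLip.comp ((prodA_ll_t d).locallyLipschitz.comp (prodA_ll_fst d))
  exact (((prodA_ll_ka d).prodMk (prodA_ll_kc d)).prodMk
    (((prodA_ll_kt d).prodMk (prodA_ll_ky H)).prodMk
      (locLip_smul (prodA_ll_kt d).neg hg))).prodMk (prodA_ll_s d)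

theorem prodA_ldi_Cn (H : d.Hyp Tm Qc η Emax M' ν Bq) :
    LDI (fun x : d.E => {p : d.E × ℝ | p ∈ prodA_Cn d x ∧ p.2 ≤ 1}) := by
  have h1 : LDI (fun x : d.E => d.A.K x.1.1 ×ˢ d.C.K x.1.2) :=
    (H.goodA.ldi.comp d.pa).prod (H.goodC.ldi.comp d.pc)
  have h2 := h1.param prodA_Cs_compact.isBounded (prodA_ll_f H)
  have e : (fun x : d.E => {p : d.E × ℝ | p ∈ prodA_Cn d x ∧ p.2 ≤ 1}) = fun x : d.E =>
      {y | ∃ κ ∈ d.A.K x.1.1 ×ˢ d.C.K x.1.2, ∃ ω ∈ prodA_Cs, y = prodA_f d (x, κ, ω)} := by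
    funext x
    exact (prodA_param H x).symm
  rw [e]
  exact h2

theorem prodA_compact_Cn (H : d.Hyp Tm Qc η Emax M' ν Bq) (x : d.E) :
    IsCompact {p : d.E × ℝ | p ∈ prodA_Cn d x ∧ p.2 ≤ 1} := by
  have h1 := ((H.goodA.compact x.1.1).prod (H.goodC.compact x.1.2)).prod prodA_Cs_compact
  have h2 : Continuous (fun u : (d.A.E × d.C.E) × (ℝ × ℝ × ℝ) => prodA_f d (x, u)) :=
    (prodA_ll_f H).continuous.comp (Continuous.prodMk_right x)
  have h3 := h1.image h2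
  have e : {p : d.E × ℝ | p ∈ prodA_Cn d x ∧ p.2 ≤ 1} =
      (fun u : (d.A.E × d.C.E) × (ℝ × ℝ × ℝ) => prodA_f d (x, u)) ''
        ((d.A.K x.1.1 ×ˢ d.C.K x.1.2) ×ˢ prodA_Cs) := by
    rw [← prodA_param H x]
    ext y
    constructor
    · rintro ⟨κ, hκ, ω, hω, rfl⟩
      exact ⟨(κ, ω), ⟨hκ, hω⟩, rfl⟩
    · rintro ⟨u, ⟨hκ, hω⟩, rfl⟩
      exact ⟨u.1, hκ, u.2, hω, rfl⟩
  rw [e]
  exact h3

theorem prodA_K_eq (x : d.E) : d.K x = ContinuousLinearMap.fst ℝ d.E ℝ ''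
    {p | p ∈ {p : d.E × ℝ | p ∈ prodA_Cn d x ∧ p.2 ≤ 1} ∧ prodA_ell d x p ≤ 0} := by
  ext κ
  rw [prodA_mem_K]
  constructor
  · rintro ⟨s, h1, h2, h3⟩
    exact ⟨(κ, s), ⟨⟨h2, h1⟩, h3⟩, rfl⟩
  · rintro ⟨p, ⟨⟨h2, h1⟩, h3⟩, rfl⟩
    exact ⟨p.2, h1, h2, h3⟩

theorem prodA_rate_ge (H : d.Hyp Tm Qc η Emax M' ν Bq) (x : d.E) :
    d.μ ≤ d.μ + deriv d.Ex x.2.1.1 * max (d.Phi x) 0 + deriv d.Th x.2.1.1 := by
  have h1 := mul_nonneg (H.Ex_bd x.2.1.1).2.2.1 (le_max_right (d.Phi x) 0)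
  have h2 := (H.Th_bd x.2.1.1).1
  linarith

/-- the strictly feasible point -/
theorem prodA_slater (H : d.Hyp Tm Qc η Emax M' ν Bq) (x : d.E) :
    ∃ p ∈ {p : d.E × ℝ | p ∈ prodA_Cn d x ∧ p.2 ≤ 1}, prodA_ell d x p ≤ 0 - d.μ := by
  have hH := prodA_H_pos H
  have hmem : prodA_f d (x, (0, 0), (1, 0, 0)) ∈ {p : d.E × ℝ | p ∈ prodA_Cn d x ∧ p.2 ≤ 1} := by
    rw [← prodA_param H x]
    exact ⟨(0, 0), ⟨H.goodA.zero_mem _, H.goodC.zero_mem _⟩, (1, 0, 0),
      ⟨⟨zero_le_one, le_rfl⟩, ⟨by norm_num, by norm_num⟩, ⟨le_rfl, zero_le_one⟩⟩, rfl⟩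
  refine ⟨_, hmem, ?_⟩
  have hr := prodA_rate_ge H x
  have key : d.omg x.2.1.2 * d.al x.2.1.1 *
      (d.Ex x.2.1.1 * fderiv ℝ d.Phi x (prodA_f d (x, (0, 0), (1, 0, 0))).1 -
        d.Kw * prodA_ky d (x, (0, 0), (1, 0, 0))) ≤ 0 := by
    rcases le_total d.H (2 * x.2.1.1) with h | h
    · rw [prodA_al_zero hH h, mul_zero, zero_mul]
    rcases le_total (3 / 2) x.2.1.2 with h' | h'
    · have : d.omg x.2.1.2 = 0 := cl01_zero (by linarith)
      rw [this, zero_mul, zero_mul]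
    have ea : prodA_ka d (x, (0, 0), (1, 0, 0)) = 0 := by
      simp only [prodA_ka, zero_smul, smul_zero, add_zero]
    have ec : prodA_kc d (x, (0, 0), (1, 0, 0)) = 0 := by
      simp only [prodA_kc, zero_smul, smul_zero, add_zero]
    have et : prodA_kt d (x, (0, 0), (1, 0, 0)) = -1 := by
      simp only [prodA_kt, prodA_lo, ea, map_zero, zero_mul, add_zero,
        prodA_rb_one hH (by linarith : x.2.1.1 ≤ 2 * d.H)]
      norm_num
    have hroom : d.room x.2.1.2 = 1 := cl01_one (by linarith)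
    have ey : prodA_ky d (x, (0, 0), (1, 0, 0)) = (1 + d.al x.2.1.1 * d.dev x) / d.δ := by
      simp only [prodA_ky, ea, et, hroom, map_zero]
      ring
    have ep : fderiv ℝ d.Phi x (prodA_f d (x, (0, 0), (1, 0, 0))).1 =
        fderiv ℝ d.N (d.pS x.1.2 - x.2.2) (-d.g x.2.1.1) := by
      rw [prodA_Phi_fderiv H]
      simp only [prodA_f, ec, et, map_zero, neg_neg, one_smul, zero_sub, mul_zero, add_zero]
    rw [ep, ey]
    have s1 := H.slater (d.pS x.1.2 - x.2.2) x.2.1.1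
    have s2 : d.Kw / d.δ ≤ d.Kw * ((1 + d.al x.2.1.1 * d.dev x) / d.δ) := by
      rw [div_eq_mul_one_div]
      refine mul_le_mul_of_nonneg_left (div_le_div_of_nonneg_right ?_ H.δ_pos.le) H.Kw_nonneg
      exact le_add_of_nonneg_right (mul_nonneg (cl01_nonneg _) (prodA_dev_nonneg x))
    exact mul_nonpos_of_nonneg_of_nonpos (mul_nonneg (cl01_nonneg _) (cl01_nonneg _))
      (by linarith)
  have e := prodA_ell_apply x (prodA_f d (x, (0, 0), (1, 0, 0))).1 1
  have e2 : prodA_ell d x (prodA_f d (x, (0, 0), (1, 0, 0))) =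
      prodA_ell d x ((prodA_f d (x, (0, 0), (1, 0, 0))).1, 1) := rfl
  have e3 : (prodA_f d (x, (0, 0), (1, 0, 0))).1.2.1.2 = prodA_ky d (x, (0, 0), (1, 0, 0)) := rfl
  rw [e2, e, e3]
  linarith

end Pool.Agent.MP703675
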