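import Pool.Agent.Lib.MP_703675_gt.Target
import Pool.Agent.Lib.MP_703675_gt.LDI
import Pool.Agent.Lib.MP_703675_gt.ProdAc

set_option autoImplicit false

open Set Metric Filter Topology TopologicalSpace

noncomputable section

namespace Pool.Agent.MP703675

variable {d : PD} {Tm Qc η Emax M' ν Bq : ℝ}

theorem prod_Phi_smooth (H : d.Hyp Tm Qc η Emax M' ν Bq) : ContDiff ℝ 2 d.Phi :=
  prodA_Phi_smooth H

theorem prod_Phi_fderiv (H : d.Hyp Tm Qc η Emax M' ν Bq) (x κ : d.E) : fderiv ℝ d.Phi x κ =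
    fderiv ℝ d.N (d.pS x.1.2 - x.2.2) (d.pS κ.1.2 - κ.2.2) + d.M * d.Ds κ.1.2 :=
  prodA_Phi_fderiv H x κ

theorem prod_convex (H : d.Hyp Tm Qc η Emax M' ν Bq) (x : d.E) : Convex ℝ (d.K x) := by
  rw [prodA_K_eq]
  have h1 : Convex ℝ {p : d.E × ℝ | prodA_ell d x p ≤ 0} :=
    convex_halfSpace_le (prodA_ell d x).toLinearMap.isLinear 0
  exact ((prodA_Cn_convex H x).inter h1).linear_image
    (ContinuousLinearMap.fst ℝ d.E ℝ).toLinearMap

theorem prod_compact (H : d.Hyp Tm Qc η Emax M' ν Bq) (x : d.E) : IsCompact (d.K x) := by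
  rw [prodA_K_eq]
  have h1 : IsClosed {p : d.E × ℝ | prodA_ell d x p ≤ 0} :=
    isClosed_le (prodA_ell d x).continuous continuous_const
  exact ((prodA_compact_Cn H x).inter_right h1).image
    (ContinuousLinearMap.fst ℝ d.E ℝ).continuous

theorem prod_zero (H : d.Hyp Tm Qc η Emax M' ν Bq) (x : d.E) : (0 : d.E) ∈ d.K x := by
  rw [prodA_mem_K]
  obtain ⟨p, hp, -⟩ := prodA_slater H x
  have h1 := prodA_Cn_smul hp.1 le_rfl
  rw [zero_smul] at h1
  exact ⟨0, zero_le_one, h1, (map_zero (prodA_ell d x)).le⟩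

theorem prod_V_le (x κ : d.E) (hκ : κ ∈ d.K x) : |κ.2.1.1| ≤ 1 := by
  obtain ⟨s, cc, ua, hua, uc, huc, h0, h1, h2, h3, h4, h5, h6, -⟩ := hκ
  have h7 : d.ra x.2.1.1 * s ≤ 1 * s := mul_le_mul_of_nonneg_right (cl01_le_one _) h0
  exact abs_le.2 ⟨by linarith, by linarith⟩

/-- Plan: as for the layer: pairs (velocity, s), `LDI.param` over `LDI.prod` with controls
`s, cc, σ` and clock rate `lo + σ (hi - lo)`, `lo = max (-s) (V ua - 2 rb s)`,
`hi = min (-s + 2 ra s) (min (V ua) (V uc))`; then `LDI.cut` with the point `s = 1`, `cc = 0`,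
`ua = uc = 0`, `σ = 0`, margin `μ` (field `slater`), then `LDI.image`. -/
theorem prod_ldi (H : d.Hyp Tm Qc η Emax M' ν Bq) : LDI d.K := by
  have h1 := (prodA_ldi_Cn H).cut (prodA_Cn_convex H) (prodA_ll_ell H)
    (LocallyLipschitz.const (0 : ℝ)) H.μ_pos (prodA_slater H)
  have h2 := h1.image (ContinuousLinearMap.fst ℝ d.E ℝ)
  have e : d.K = fun x => ContinuousLinearMap.fst ℝ d.E ℝ ''
      {p | p ∈ {p : d.E × ℝ | p ∈ prodA_Cn d x ∧ p.2 ≤ 1} ∧ prodA_ell d x p ≤ 0} := by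
    funext x
    exact prodA_K_eq x
  rw [e]
  exact h2

theorem prod_irr (H : d.Hyp Tm Qc η Emax M' ν Bq) (x : d.E) (hx : x.2.1.1 ≤ d.H) (κ : d.E)
    (hκ : κ ∈ d.K x) : κ.2.1.1 ≤ 0 ∧ ∃ κ' ∈ d.K x, κ = (-κ.2.1.1) • κ' := by
  obtain ⟨s, h1, h2, h3⟩ := (prodA_mem_K x κ).1 hκ
  have hs : 0 ≤ s ∧ κ.2.1.1 = -s := by
    obtain ⟨cc, ua, hua, uc, huc, h0, -, -, -, h5, h6, -⟩ := h2
    rw [prodA_ra_zero (prodA_H_pos H) hx] at h6
    dsimp only at h0 h5 h6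
    exact ⟨h0, by linarith⟩
  refine ⟨by linarith [hs.1, hs.2], ?_⟩
  rw [hs.2, neg_neg]
  rcases eq_or_lt_of_le hs.1 with h | h
  · refine ⟨0, prod_zero H x, ?_⟩
    rw [smul_zero]
    exact prodA_Cn_zero h2 h.symm
  · refine ⟨s⁻¹ • κ, (prodA_mem_K x _).2 ⟨s⁻¹ * s, (inv_mul_cancel₀ h.ne').le,
      prodA_Cn_smul h2 (inv_nonneg.2 hs.1), ?_⟩, (smul_inv_smul₀ h.ne' κ).symm⟩
    have e : prodA_ell d x (s⁻¹ • κ, s⁻¹ * s) = s⁻¹ * prodA_ell d x (κ, s) :=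
      map_smul (prodA_ell d x) s⁻¹ (κ, s)
    rw [e]
    exact mul_nonpos_of_nonneg_of_nonpos (inv_nonneg.2 hs.1) h3

theorem prod_farLaw (H : d.Hyp Tm Qc η Emax M' ν Bq) (x : d.E) (hx : 3 * d.H ≤ x.2.1.1) (κ : d.E) :
    κ ∈ d.K x ↔ ∃ c : ℝ, |c| ≤ 1 ∧ κ = c • d.sys.one := by
  have hH := prodA_H_pos H
  have hb : d.bs x.2.1.1 = 0 := prodA_bs_zero hH (by linarith)
  have ha : d.al x.2.1.1 = 0 := prodA_al_zero hH (by linarith)
  have hra : d.ra x.2.1.1 = 1 := prodA_ra_one hH (by linarith)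
  have hrb : d.rb x.2.1.1 = 0 := prodA_rb_zero hH hx
  have hT : Tm ≤ x.2.1.1 := by
    have h1 := H.goodA.H_pos
    have h2 := H.goodC.H_pos
    have h3 := H.Tm_nonneg
    have h4 := H.H_ge
    linarith
  have hg : d.g x.2.1.1 = -(d.γ⁻¹ • d.S.one) := (H.tgt.far _ hT).2
  constructor
  · rintro ⟨s, cc, ua, hua, uc, huc, h0, h1, h2, h3, h4, h5, h6, h7, h8, h9, h10, h11, -⟩
    rw [hb, sub_zero, one_smul, zero_smul, add_zero, smul_smul] at h3 h4
    have e1 : d.A.V κ.1.1 = s * cc := by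
      rw [h3, map_smul, H.goodA.V_one, smul_eq_mul, mul_one]
    rw [hrb, e1] at h9
    rw [e1] at h7
    have et : κ.2.1.1 = s * cc := by linarith
    rw [e1, et, ha] at h10
    rw [hg, et, neg_smul, smul_neg, neg_neg] at h11
    refine ⟨s * cc, ?_, Prod.ext (Prod.ext h3 h4) (Prod.ext (Prod.ext ?_ ?_) h11)⟩
    · rw [abs_mul, abs_of_nonneg h0]
      exact mul_le_one₀ h1 (abs_nonneg _) h2
    · exact et.trans (mul_one _).symm
    · refine h10.trans ?_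
      change _ = s * cc * 0
      ring
  · rintro ⟨c, hc, rfl⟩
    have h1 := abs_le.1 hc
    have e1 : (c • d.sys.one).1.1 = c • d.A.one := rfl
    have e2 : (c • d.sys.one).1.2 = c • d.C.one := rfl
    have e3 : (c • d.sys.one).2.1.1 = c := mul_one c
    have e4 : (c • d.sys.one).2.1.2 = 0 := mul_zero c
    have e5 : (c • d.sys.one).2.2 = c • d.γ⁻¹ • d.S.one := rfl
    have e6 : d.A.V (c • d.A.one) = c := by rw [map_smul, H.goodA.V_one, smul_eq_mul, mul_one]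
    have e7 : d.C.V (c • d.C.one) = c := by rw [map_smul, H.goodC.V_one, smul_eq_mul, mul_one]
    refine ⟨1, c, 0, H.goodA.zero_mem _, 0, H.goodC.zero_mem _, zero_le_one, le_rfl, hc,
      ?_, ?_, ?_, ?_, ?_, ?_, ?_, ?_, ?_, ?_⟩
    · rw [e1, hb, sub_zero, one_smul, one_smul, zero_smul, add_zero]
    · rw [e2, hb, sub_zero, one_smul, one_smul, zero_smul, add_zero]
    · rw [e3]; exact h1.1
    · rw [e3, hra]; linarith [h1.2]
    · rw [e3, e1, e6]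
    · rw [e3, e2, e7]
    · rw [e3, e1, e6, hrb]; linarith
    · rw [e4, e3, e1, e6, ha]; ring
    · rw [e5, e3, hg, neg_smul, smul_neg, neg_neg]
    · rw [ha, mul_zero, zero_mul, mul_one]
      exact H.μ_pos.le.trans (prodA_rate_ge H x)

theorem prod_isOpen (H : d.Hyp Tm Qc η Emax M' ν Bq) : IsOpen d.sys.Om := by
  have ca : Continuous (fun x : d.E => x.1.1) := by fun_prop
  have cc : Continuous (fun x : d.E => x.1.2) := by fun_prop
  have ct : Continuous (fun x : d.E => x.2.1.1) := by fun_prop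
  have cy : Continuous (fun x : d.E => x.2.1.2) := by fun_prop
  have cq : Continuous (fun x : d.E => x.2.2) := by fun_prop
  have va : Continuous (fun x : d.E => d.A.V x.1.1) := d.A.V.continuous.comp ca
  have vc : Continuous (fun x : d.E => d.C.V x.1.2) := d.C.V.continuous.comp cc
  have cz : Continuous (fun x : d.E => ‖x.2.2 - d.ζ x.2.1.1‖) :=
    (cq.sub (H.tgt.zeta_cont.comp ct)).norm
  have cN : Continuous (fun x : d.E => d.N (d.pS x.1.2 - x.2.2)) :=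
    H.N_smooth.continuous.comp (prodA_arg d).continuous
  have cG : Continuous (fun x : d.E => d.Gd (x.1.1, x.2.2)) :=
    H.Gd_smooth.continuous.comp (ca.prodMk cq)
  exact (H.goodA.isOpen.preimage ca).inter ((H.goodC.isOpen.preimage cc).inter
    ((isOpen_lt ct (va.add continuous_const)).inter
    ((isOpen_lt ct (vc.add continuous_const)).inter
    ((isOpen_lt (va.sub ct) continuous_const).inter
    ((isOpen_lt (vc.sub ct) continuous_const).inter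
    ((isOpen_lt continuous_const ct).inter
    ((isOpen_lt continuous_const cy).inter
    ((isOpen_lt cy continuous_const).inter
    ((isOpen_lt cz continuous_const).inter
    ((isOpen_lt continuous_const cy).union
    ((isOpen_lt continuous_const ct).union
    ((isOpen_lt cN continuous_const).inter (isOpen_lt cG continuous_const)))))))))))))

theorem prod_bdd (H : d.Hyp Tm Qc η Emax M' ν Bq) (N : ℝ) :
    ∃ R : ℝ, ∀ z ∈ d.sys.Om, d.sys.V z ≤ N → ‖z‖ ≤ R := by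
  obtain ⟨Ra, hRa⟩ := H.goodA.bdd (N + 7 * d.H)
  obtain ⟨Rc, hRc⟩ := H.goodC.bdd (N + 8 * d.H)
  obtain ⟨Rz, hRz⟩ := (isCompact_Icc (a := (-1 : ℝ)) (b := N)).exists_bound_of_continuousOn
    H.tgt.zeta_cont.continuousOn
  refine ⟨max (max Ra Rc) (max (max (max 1 N) 4) (1 + Rz)), ?_⟩
  rintro z ⟨h1, h2, -, -, h5, h6, h7, h8, h9, h10, -⟩ hN
  have hN' : z.2.1.1 ≤ N := hN
  have a1 := hRa _ h1 (by linarith)
  have a2 := hRc _ h2 (by linarith)
  have a3 : ‖z.2.1.1‖ ≤ max 1 N := by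
    have := le_max_left 1 N
    have := le_max_right 1 N
    exact abs_le.2 ⟨by linarith, by linarith⟩
  have a4 : ‖z.2.1.2‖ ≤ 4 := abs_le.2 ⟨by linarith, by linarith⟩
  have a5 : ‖z.2.2‖ ≤ 1 + Rz := by
    have b1 := hRz _ ⟨h7.le, hN'⟩
    have b2 := norm_le_norm_sub_add z.2.2 (d.ζ z.2.1.1)
    have b3 := H.slk_le
    linarith
  exact max_le_max (max_le_max a1 a2) (max_le_max (max_le_max a3 a4) a5)

/-- structure of the velocities over good component states -/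
theorem prod_vel (H : d.Hyp Tm Qc η Emax M' ν Bq) {x : d.E} (ha : x.1.1 ∈ d.A.Om)
    (hc : x.1.2 ∈ d.C.Om) (h1 : x.2.1.1 ≤ d.A.V x.1.1 + 1) (h2 : x.2.1.1 ≤ d.C.V x.1.2 + 1)
    {κ : d.E} (hκ : κ ∈ d.K x) : ∃ s : ℝ, ∃ ua ∈ d.A.K x.1.1, ∃ uc ∈ d.C.K x.1.2, 0 ≤ s ∧ s ≤ 1 ∧
      κ.1.1 = s • ua ∧ κ.1.2 = s • uc ∧ (x.2.1.1 ≤ d.H → κ.2.1.1 = -s) ∧
      κ.2.1.1 ≤ d.A.V κ.1.1 ∧ κ.2.1.1 ≤ d.C.V κ.1.2 ∧
      κ.2.1.2 = d.room x.2.1.2 *
        ((d.A.V κ.1.1 - κ.2.1.1) + d.al x.2.1.1 * d.dev x * s) / d.δ ∧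
      κ.2.2 = (-κ.2.1.1) • d.g x.2.1.1 ∧
      d.omg x.2.1.2 * d.al x.2.1.1 * (d.Ex x.2.1.1 * fderiv ℝ d.Phi x κ - d.Kw * κ.2.1.2) ≤
        (d.μ + deriv d.Ex x.2.1.1 * max (d.Phi x) 0 + deriv d.Th x.2.1.1) * s := by
  obtain ⟨s, cc, ua, hua, uc, huc, h0, h3, h4, h5, h6, h7, h8, h9, h10, -, h12, h13, h14⟩ := hκ
  have hH := prodA_H_pos H
  have p1 := H.goodA.H_pos
  have p2 := H.goodC.H_pos
  have p3 := H.Tm_nonneg
  have p4 := H.H_ge
  have b0 : 0 ≤ d.bs x.2.1.1 := cl01_nonneg _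
  have b1 : 0 ≤ 1 - d.bs x.2.1.1 := sub_nonneg.2 (cl01_le_one _)
  have ma : (1 - d.bs x.2.1.1) • (cc • d.A.one) + d.bs x.2.1.1 • ua ∈ d.A.K x.1.1 := by
    rcases le_total (10 * x.2.1.1) (3 * d.H) with h | h
    · rw [prodA_bs_one hH h, sub_self, zero_smul, zero_add, one_smul]
      exact hua
    · exact H.goodA.convex _ ((H.goodA.farLaw _ ha (by linarith) _).2 ⟨cc, h4, rfl⟩) hua b1 b0
        (sub_add_cancel _ _)
  have mc : (1 - d.bs x.2.1.1) • (cc • d.C.one) + d.bs x.2.1.1 • uc ∈ d.C.K x.1.2 := by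
    rcases le_total (10 * x.2.1.1) (3 * d.H) with h | h
    · rw [prodA_bs_one hH h, sub_self, zero_smul, zero_add, one_smul]
      exact huc
    · exact H.goodC.convex _ ((H.goodC.farLaw _ hc (by linarith) _).2 ⟨cc, h4, rfl⟩) huc b1 b0
        (sub_add_cancel _ _)
  refine ⟨s, _, ma, _, mc, h0, h3, h5, h6, fun ht => ?_, h9, h10, h12, h13, h14⟩
  rw [prodA_ra_zero hH ht] at h8
  linarith

end Pool.Agent.MP703675
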