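import Pool.Agent.Lib.MP_703675_gt.Target
import Pool.Agent.Lib.MP_703675_gt.LDI

set_option autoImplicit false

open Set Metric Filter Topology TopologicalSpace

noncomputable section

namespace Pool.Agent.MP703675

variable {d : PD} {Tm Qc η Emax M' ν Bq : ℝ}

theorem prodA_H_ge (H : d.Hyp Tm Qc η Emax M' ν Bq) : 10 ≤ d.H := by
  have h1 := H.goodA.H_pos
  have h2 := H.goodC.H_pos
  have h3 := H.Tm_nonneg
  have h4 := H.H_ge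
  linarith

theorem prodA_H_pos (H : d.Hyp Tm Qc η Emax M' ν Bq) : 0 < d.H := by
  have := prodA_H_ge H
  linarith

theorem prodA_ra_zero (hH : 0 < d.H) {t : ℝ} (h : t ≤ d.H) : d.ra t = 0 :=
  cl01_zero (div_nonpos_of_nonpos_of_nonneg (by linarith) hH.le)

theorem prodA_ra_one (hH : 0 < d.H) {t : ℝ} (h : 2 * d.H ≤ t) : d.ra t = 1 :=
  cl01_one ((one_le_div hH).2 (by linarith))

theorem prodA_rb_one (hH : 0 < d.H) {t : ℝ} (h : t ≤ 2 * d.H) : d.rb t = 1 :=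
  cl01_one ((one_le_div hH).2 (by linarith))

theorem prodA_rb_zero (hH : 0 < d.H) {t : ℝ} (h : 3 * d.H ≤ t) : d.rb t = 0 :=
  cl01_zero (div_nonpos_of_nonpos_of_nonneg (by linarith) hH.le)

theorem prodA_bs_zero (hH : 0 < d.H) {t : ℝ} (h : 2 * d.H ≤ 5 * t) : d.bs t = 0 := by
  apply cl01_zero
  have : 4 ≤ 10 * t / d.H := (le_div_iff₀ hH).2 (by linarith)
  linarith

theorem prodA_bs_one (hH : 0 < d.H) {t : ℝ} (h : 10 * t ≤ 3 * d.H) : d.bs t = 1 := by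
  apply cl01_one
  have : 10 * t / d.H ≤ 3 := (div_le_iff₀ hH).2 (by linarith)
  linarith

theorem prodA_al_zero (hH : 0 < d.H) {t : ℝ} (h : d.H ≤ 2 * t) : d.al t = 0 := by
  apply cl01_zero
  have : 10 ≤ 20 * t / d.H := (le_div_iff₀ hH).2 (by linarith)
  linarith

theorem prodA_dev_nonneg (x : d.E) : 0 ≤ d.dev x := add_nonneg (st_nonneg _) (st_nonneg _)

theorem prodA_mix_add {X : Type} [AddCommGroup X] [Module ℝ X] (e u u' u'' : X)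
    (b s s' c c' c'' : ℝ) (hc : s * c + s' * c' = (s + s') * c'')
    (hu : s • u + s' • u' = (s + s') • u'') :
    s • ((1 - b) • (c • e) + b • u) + s' • ((1 - b) • (c' • e) + b • u') =
      (s + s') • ((1 - b) • (c'' • e) + b • u'') := by
  have h1 : s • ((1 - b) • (c • e) + b • u) + s' • ((1 - b) • (c' • e) + b • u') =
      (1 - b) • ((s * c + s' * c') • e) + b • (s • u + s' • u') := by module
  rw [h1, hc, hu]
  module

theorem prodA_mix_V {S : Sys} (hS : S.Good) {z u : S.E} (hu : u ∈ S.K z) {b s c : ℝ}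
    (hb0 : 0 ≤ b) (hb1 : b ≤ 1) (hs : 0 ≤ s) (hc : |c| ≤ 1) :
    -s ≤ S.V (s • ((1 - b) • (c • S.one) + b • u)) ∧
      S.V (s • ((1 - b) • (c • S.one) + b • u)) ≤ s := by
  have h1 := abs_le.1 (hS.V_le z u hu)
  have h2 := abs_le.1 hc
  have h3 : S.V (s • ((1 - b) • (c • S.one) + b • u)) = s * ((1 - b) * c + b * S.V u) := by
    simp only [map_smul, map_add, hS.V_one, smul_eq_mul, mul_one]
  have h4 : -1 ≤ (1 - b) * c + b * S.V u := by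
    have := mul_le_mul_of_nonneg_left h2.1 (sub_nonneg.2 hb1)
    have := mul_le_mul_of_nonneg_left h1.1 hb0
    linarith
  have h5 : (1 - b) * c + b * S.V u ≤ 1 := by
    have := mul_le_mul_of_nonneg_left h2.2 (sub_nonneg.2 hb1)
    have := mul_le_mul_of_nonneg_left h1.2 hb0
    linarith
  rw [h3]
  have := mul_le_mul_of_nonneg_left h4 hs
  have := mul_le_mul_of_nonneg_left h5 hs
  constructor <;> linarith

theorem prodA_between {lo hi x : ℝ} (h1 : lo ≤ x) (h2 : x ≤ hi) :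
    ∃ σ : ℝ, 0 ≤ σ ∧ σ ≤ 1 ∧ x = lo + σ * (hi - lo) := by
  rcases eq_or_lt_of_le (h1.trans h2) with h | h
  · refine ⟨0, le_rfl, zero_le_one, ?_⟩
    linarith
  · have hp : 0 < hi - lo := sub_pos.2 h
    refine ⟨(x - lo) / (hi - lo), div_nonneg (by linarith) hp.le,
      (div_le_one hp).2 (by linarith), ?_⟩
    rw [div_mul_cancel₀ _ hp.ne']
    ring

/-- cone of pairs (velocity, activity) without the last constraint -/
def prodA_Cn (d : PD) (x : d.E) : Set (d.E × ℝ) :=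
  {p | ∃ cc : ℝ, ∃ ua ∈ d.A.K x.1.1, ∃ uc ∈ d.C.K x.1.2,
    0 ≤ p.2 ∧ |cc| ≤ 1 ∧
    p.1.1.1 = p.2 • ((1 - d.bs x.2.1.1) • (cc • d.A.one) + d.bs x.2.1.1 • ua) ∧
    p.1.1.2 = p.2 • ((1 - d.bs x.2.1.1) • (cc • d.C.one) + d.bs x.2.1.1 • uc) ∧
    -p.2 ≤ p.1.2.1.1 ∧ p.1.2.1.1 ≤ -p.2 + 2 * d.ra x.2.1.1 * p.2 ∧
    p.1.2.1.1 ≤ d.A.V p.1.1.1 ∧ p.1.2.1.1 ≤ d.C.V p.1.1.2 ∧
    d.A.V p.1.1.1 - p.1.2.1.1 ≤ 2 * d.rb x.2.1.1 * p.2 ∧
    p.1.2.1.2 = d.room x.2.1.2 *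
      ((d.A.V p.1.1.1 - p.1.2.1.1) + d.al x.2.1.1 * d.dev x * p.2) / d.δ ∧
    p.1.2.2 = (-p.1.2.1.1) • d.g x.2.1.1}

/-- the second real coordinate of the velocity -/
def prodA_py (d : PD) : (d.E × ℝ) →L[ℝ] ℝ :=
  (ContinuousLinearMap.snd ℝ ℝ ℝ).comp ((ContinuousLinearMap.fst ℝ (ℝ × ℝ) d.S.E).comp
    ((ContinuousLinearMap.snd ℝ (d.A.E × d.C.E) ((ℝ × ℝ) × d.S.E)).comp
      (ContinuousLinearMap.fst ℝ d.E ℝ)))

/-- the functional of the last constraint -/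
def prodA_ell (d : PD) (x : d.E) : (d.E × ℝ) →L[ℝ] ℝ :=
  (d.omg x.2.1.2 * d.al x.2.1.1 * d.Ex x.2.1.1) •
      (fderiv ℝ d.Phi x).comp (ContinuousLinearMap.fst ℝ d.E ℝ) -
    (d.omg x.2.1.2 * d.al x.2.1.1 * d.Kw) • prodA_py d -
    (d.μ + deriv d.Ex x.2.1.1 * max (d.Phi x) 0 + deriv d.Th x.2.1.1) •
      ContinuousLinearMap.snd ℝ d.E ℝ

theorem prodA_ell_apply (x κ : d.E) (s : ℝ) : prodA_ell d x (κ, s) =
    d.omg x.2.1.2 * d.al x.2.1.1 * (d.Ex x.2.1.1 * fderiv ℝ d.Phi x κ - d.Kw * κ.2.1.2) -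
      (d.μ + deriv d.Ex x.2.1.1 * max (d.Phi x) 0 + deriv d.Th x.2.1.1) * s := by
  have h1 : prodA_ell d x (κ, s) =
      (d.omg x.2.1.2 * d.al x.2.1.1 * d.Ex x.2.1.1) * fderiv ℝ d.Phi x κ -
        (d.omg x.2.1.2 * d.al x.2.1.1 * d.Kw) * κ.2.1.2 -
        (d.μ + deriv d.Ex x.2.1.1 * max (d.Phi x) 0 + deriv d.Th x.2.1.1) * s := rfl
  rw [h1]
  ring

theorem prodA_mem_K (x κ : d.E) :
    κ ∈ d.K x ↔ ∃ s : ℝ, s ≤ 1 ∧ (κ, s) ∈ prodA_Cn d x ∧ prodA_ell d x (κ, s) ≤ 0 := by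
  constructor
  · rintro ⟨s, cc, ua, hua, uc, huc, h0, h1, h2, h3, h4, h5, h6, h7, h8, h9, h10, h11, h12⟩
    refine ⟨s, h1, ⟨cc, ua, hua, uc, huc, h0, h2, h3, h4, h5, h6, h7, h8, h9, h10, h11⟩, ?_⟩
    rw [prodA_ell_apply]
    linarith
  · rintro ⟨s, h1, ⟨cc, ua, hua, uc, huc, h0, h2, h3, h4, h5, h6, h7, h8, h9, h10, h11⟩, h12⟩
    refine ⟨s, cc, ua, hua, uc, huc, h0, h1, h2, h3, h4, h5, h6, h7, h8, h9, h10, h11, ?_⟩
    rw [prodA_ell_apply] at h12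
    linarith

theorem prodA_Cn_smul {x : d.E} {p : d.E × ℝ} (hp : p ∈ prodA_Cn d x) {r : ℝ} (hr : 0 ≤ r) :
    r • p ∈ prodA_Cn d x := by
  obtain ⟨cc, ua, hua, uc, huc, h0, h2, h3, h4, h5, h6, h7, h8, h9, h10, h11⟩ := hp
  have e1 : (r • p).2 = r * p.2 := rfl
  have e2 : (r • p).1.1.1 = r • p.1.1.1 := rfl
  have e3 : (r • p).1.1.2 = r • p.1.1.2 := rfl
  have e4 : (r • p).1.2.1.1 = r * p.1.2.1.1 := rfl
  have e5 : (r • p).1.2.1.2 = r * p.1.2.1.2 := rfl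
  have e6 : (r • p).1.2.2 = r • p.1.2.2 := rfl
  have e7 : d.A.V (r • p.1.1.1) = r * d.A.V p.1.1.1 := by rw [map_smul, smul_eq_mul]
  have e8 : d.C.V (r • p.1.1.2) = r * d.C.V p.1.1.2 := by rw [map_smul, smul_eq_mul]
  refine ⟨cc, ua, hua, uc, huc, ?_, h2, ?_, ?_, ?_, ?_, ?_, ?_, ?_, ?_, ?_⟩
  · rw [e1]; exact mul_nonneg hr h0
  · rw [e1, e2, h3, mul_smul]
  · rw [e1, e3, h4, mul_smul]
  · rw [e1, e4]
    have := mul_le_mul_of_nonneg_left h5 hr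
    linarith
  · rw [e1, e4]
    have := mul_le_mul_of_nonneg_left h6 hr
    linarith
  · rw [e2, e4, e7]
    exact mul_le_mul_of_nonneg_left h7 hr
  · rw [e3, e4, e8]
    exact mul_le_mul_of_nonneg_left h8 hr
  · rw [e1, e2, e4, e7]
    have := mul_le_mul_of_nonneg_left h9 hr
    linarith
  · rw [e1, e2, e4, e5, e7, h10]
    ring
  · rw [e4, e6, h11, smul_smul, mul_neg]

theorem prodA_Cn_add (H : d.Hyp Tm Qc η Emax M' ν Bq) {x : d.E} {p p' : d.E × ℝ}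
    (hp : p ∈ prodA_Cn d x) (hp' : p' ∈ prodA_Cn d x) : p + p' ∈ prodA_Cn d x := by
  obtain ⟨cc, ua, hua, uc, huc, h0, h2, h3, h4, h5, h6, h7, h8, h9, h10, h11⟩ := hp
  obtain ⟨cc', ua', hua', uc', huc', g0, g2, g3, g4, g5, g6, g7, g8, g9, g10, g11⟩ := hp'
  obtain ⟨cc2, hcc2, ecc⟩ := cone_comb (convex_Icc (-1 : ℝ) 1) ⟨by norm_num, by norm_num⟩
    (abs_le.1 h2) (abs_le.1 g2) h0 g0
  obtain ⟨ua2, hua2, eua⟩ := cone_comb (H.goodA.convex _) (H.goodA.zero_mem _) hua hua' h0 g0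
  obtain ⟨uc2, huc2, euc⟩ := cone_comb (H.goodC.convex _) (H.goodC.zero_mem _) huc huc' h0 g0
  have e1 : (p + p').2 = p.2 + p'.2 := rfl
  have e2 : (p + p').1.1.1 = p.1.1.1 + p'.1.1.1 := rfl
  have e3 : (p + p').1.1.2 = p.1.1.2 + p'.1.1.2 := rfl
  have e4 : (p + p').1.2.1.1 = p.1.2.1.1 + p'.1.2.1.1 := rfl
  have e5 : (p + p').1.2.1.2 = p.1.2.1.2 + p'.1.2.1.2 := rfl
  have e6 : (p + p').1.2.2 = p.1.2.2 + p'.1.2.2 := rfl
  have e7 : d.A.V (p.1.1.1 + p'.1.1.1) = d.A.V p.1.1.1 + d.A.V p'.1.1.1 := map_add _ _ _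
  have e8 : d.C.V (p.1.1.2 + p'.1.1.2) = d.C.V p.1.1.2 + d.C.V p'.1.1.2 := map_add _ _ _
  refine ⟨cc2, ua2, hua2, uc2, huc2, ?_, abs_le.2 hcc2, ?_, ?_, ?_, ?_, ?_, ?_, ?_, ?_, ?_⟩
  · rw [e1]; exact add_nonneg h0 g0
  · rw [e1, e2, h3, g3]
    exact prodA_mix_add _ _ _ _ _ _ _ _ _ _ ecc eua
  · rw [e1, e3, h4, g4]
    exact prodA_mix_add _ _ _ _ _ _ _ _ _ _ ecc euc
  · rw [e1, e4]; linarith
  · rw [e1, e4]; linarith
  · rw [e2, e4, e7]; linarith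
  · rw [e3, e4, e8]; linarith
  · rw [e1, e2, e4, e7]; linarith
  · rw [e1, e2, e4, e5, e7, h10, g10]
    ring
  · rw [e4, e6, h11, g11, ← add_smul, neg_add]

theorem prodA_Cn_convex (H : d.Hyp Tm Qc η Emax M' ν Bq) (x : d.E) :
    Convex ℝ {p : d.E × ℝ | p ∈ prodA_Cn d x ∧ p.2 ≤ 1} := by
  rintro p ⟨hp, hp1⟩ p' ⟨hp', hp1'⟩ a b ha hb hab
  refine ⟨prodA_Cn_add H (prodA_Cn_smul hp ha) (prodA_Cn_smul hp' hb), ?_⟩
  have e : (a • p + b • p').2 = a * p.2 + b * p'.2 := rfl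
  rw [e]
  have := mul_le_mul_of_nonneg_left hp1 ha
  have := mul_le_mul_of_nonneg_left hp1' hb
  linarith

theorem prodA_Cn_zero {x : d.E} {p : d.E × ℝ} (hp : p ∈ prodA_Cn d x) (h : p.2 = 0) :
    p.1 = 0 := by
  obtain ⟨cc, ua, hua, uc, huc, h0, h2, h3, h4, h5, h6, h7, h8, h9, h10, h11⟩ := hp
  rw [h] at h3 h4 h5 h6 h10
  rw [zero_smul] at h3 h4
  have ht : p.1.2.1.1 = 0 := by linarith
  rw [h3, ht, map_zero] at h10
  rw [ht, neg_zero, zero_smul] at h11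
  have hy : p.1.2.1.2 = 0 := by rw [h10]; ring
  exact Prod.ext (Prod.ext h3 h4) (Prod.ext (Prod.ext ht hy) h11)

end Pool.Agent.MP703675
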