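import Pool.Agent.Lib.MP_703675_gt.ProdAa

set_option autoImplicit false

open Set Metric Filter Topology TopologicalSpace

noncomputable section

namespace Pool.Agent.MP703675

variable {d : PD} {Tm Qc η Emax M' ν Bq : ℝ}

/-- argument of the smooth norm, as a linear map -/
def prodA_arg (d : PD) : d.E →L[ℝ] d.S.E :=
  d.pS.comp ((ContinuousLinearMap.snd ℝ d.A.E d.C.E).comp
      (ContinuousLinearMap.fst ℝ (d.A.E × d.C.E) ((ℝ × ℝ) × d.S.E))) -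
    (ContinuousLinearMap.snd ℝ (ℝ × ℝ) d.S.E).comp
      (ContinuousLinearMap.snd ℝ (d.A.E × d.C.E) ((ℝ × ℝ) × d.S.E))

/-- the debt functional, as a linear map -/
def prodA_debt (d : PD) : d.E →L[ℝ] ℝ :=
  d.Ds.comp ((ContinuousLinearMap.snd ℝ d.A.E d.C.E).comp
    (ContinuousLinearMap.fst ℝ (d.A.E × d.C.E) ((ℝ × ℝ) × d.S.E)))

theorem prodA_arg_apply (x : d.E) : prodA_arg d x = d.pS x.1.2 - x.2.2 := rfl

theorem prodA_debt_apply (x : d.E) : prodA_debt d x = d.Ds x.1.2 := rfl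

theorem prodA_Phi_eq (d : PD) :
    d.Phi = fun x => d.N (prodA_arg d x) + d.M * (prodA_debt d x + d.om) := rfl

theorem prodA_Phi_smooth (H : d.Hyp Tm Qc η Emax M' ν Bq) : ContDiff ℝ 2 d.Phi := by
  rw [prodA_Phi_eq]
  exact (H.N_smooth.comp (prodA_arg d).contDiff).add
    (contDiff_const.mul ((prodA_debt d).contDiff.add contDiff_const))

theorem prodA_Phi_fderiv (H : d.Hyp Tm Qc η Emax M' ν Bq) (x κ : d.E) : fderiv ℝ d.Phi x κ =
    fderiv ℝ d.N (d.pS x.1.2 - x.2.2) (d.pS κ.1.2 - κ.2.2) + d.M * d.Ds κ.1.2 := by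
  have h1 : HasFDerivAt d.N (fderiv ℝ d.N (prodA_arg d x)) (prodA_arg d x) :=
    ((H.N_smooth.differentiable (by norm_num)) _).hasFDerivAt
  have h2 := h1.comp x (prodA_arg d).hasFDerivAt
  have h3 := ((prodA_debt d).hasFDerivAt (x := x)).add_const d.om
  have h4 := h2.add (h3.const_mul d.M)
  have h5 : fderiv ℝ d.Phi x = (fderiv ℝ d.N (prodA_arg d x)).comp (prodA_arg d) +
      d.M • prodA_debt d := h4.fderiv
  rw [h5]
  rfl

/-- parameter space -/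
abbrev prodA_T (d : PD) : Type := d.E × (d.A.E × d.C.E) × (ℝ × ℝ × ℝ)

def prodA_ka (d : PD) (p : prodA_T d) : d.A.E :=
  p.2.2.1 • ((1 - d.bs p.1.2.1.1) • (p.2.2.2.1 • d.A.one) + d.bs p.1.2.1.1 • p.2.1.1)

def prodA_kc (d : PD) (p : prodA_T d) : d.C.E :=
  p.2.2.1 • ((1 - d.bs p.1.2.1.1) • (p.2.2.2.1 • d.C.one) + d.bs p.1.2.1.1 • p.2.1.2)

def prodA_lo (d : PD) (p : prodA_T d) : ℝ :=
  max (-p.2.2.1) (d.A.V (prodA_ka d p) - 2 * d.rb p.1.2.1.1 * p.2.2.1)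

def prodA_hi (d : PD) (p : prodA_T d) : ℝ :=
  min (-p.2.2.1 + 2 * d.ra p.1.2.1.1 * p.2.2.1)
    (min (d.A.V (prodA_ka d p)) (d.C.V (prodA_kc d p)))

def prodA_kt (d : PD) (p : prodA_T d) : ℝ :=
  prodA_lo d p + p.2.2.2.2 * (prodA_hi d p - prodA_lo d p)

def prodA_ky (d : PD) (p : prodA_T d) : ℝ :=
  d.room p.1.2.1.2 *
    ((d.A.V (prodA_ka d p) - prodA_kt d p) + d.al p.1.2.1.1 * d.dev p.1 * p.2.2.1) / d.δ

def prodA_f (d : PD) (p : prodA_T d) : d.E × ℝ :=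
  (((prodA_ka d p, prodA_kc d p), ((prodA_kt d p, prodA_ky d p),
    (-prodA_kt d p) • d.g p.1.2.1.1)), p.2.2.1)

/-- control set -/
def prodA_Cs : Set (ℝ × ℝ × ℝ) := Icc (0 : ℝ) 1 ×ˢ (Icc (-1 : ℝ) 1 ×ˢ Icc (0 : ℝ) 1)

theorem prodA_Cs_compact : IsCompact prodA_Cs :=
  isCompact_Icc.prod (isCompact_Icc.prod isCompact_Icc)

theorem prodA_lo_le_hi (H : d.Hyp Tm Qc η Emax M' ν Bq) (p : prodA_T d)
    (ha : p.2.1.1 ∈ d.A.K p.1.1.1) (hc : p.2.1.2 ∈ d.C.K p.1.1.2) (hs : 0 ≤ p.2.2.1)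
    (hcc : |p.2.2.2.1| ≤ 1) : prodA_lo d p ≤ prodA_hi d p := by
  have hH := prodA_H_pos H
  have b0 : 0 ≤ d.bs p.1.2.1.1 := cl01_nonneg _
  have b1 : d.bs p.1.2.1.1 ≤ 1 := cl01_le_one _
  have hA : -p.2.2.1 ≤ d.A.V (prodA_ka d p) ∧ d.A.V (prodA_ka d p) ≤ p.2.2.1 :=
    prodA_mix_V H.goodA ha b0 b1 hs hcc
  have hC : -p.2.2.1 ≤ d.C.V (prodA_kc d p) ∧ d.C.V (prodA_kc d p) ≤ p.2.2.1 :=
    prodA_mix_V H.goodC hc b0 b1 hs hcc
  have r0 : 0 ≤ d.ra p.1.2.1.1 * p.2.2.1 := mul_nonneg (cl01_nonneg _) hs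
  have r1 : 0 ≤ d.rb p.1.2.1.1 * p.2.2.1 := mul_nonneg (cl01_nonneg _) hs
  unfold prodA_lo prodA_hi
  refine max_le (le_min (by linarith) (le_min hA.1 hC.1)) ?_
  rcases le_total p.1.2.1.1 (2 * d.H) with h | h
  · rw [prodA_rb_one hH h]
    refine le_min (by linarith) (le_min (by linarith) (by linarith))
  · have hb : d.bs p.1.2.1.1 = 0 := prodA_bs_zero hH (by linarith)
    have e1 : d.A.V (prodA_ka d p) = p.2.2.1 * p.2.2.2.1 := by
      simp only [prodA_ka, hb, sub_zero, one_smul, zero_smul, add_zero, map_smul,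
        H.goodA.V_one, smul_eq_mul, mul_one]
    have e2 : d.C.V (prodA_kc d p) = p.2.2.1 * p.2.2.2.1 := by
      simp only [prodA_kc, hb, sub_zero, one_smul, zero_smul, add_zero, map_smul,
        H.goodC.V_one, smul_eq_mul, mul_one]
    rw [prodA_ra_one hH h]
    refine le_min (by linarith) (le_min (by linarith) (by linarith))

theorem prodA_param (H : d.Hyp Tm Qc η Emax M' ν Bq) (x : d.E) :
    {y | ∃ κ ∈ d.A.K x.1.1 ×ˢ d.C.K x.1.2, ∃ ω ∈ prodA_Cs, y = prodA_f d (x, κ, ω)} =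
      {p : d.E × ℝ | p ∈ prodA_Cn d x ∧ p.2 ≤ 1} := by
  ext y
  constructor
  · rintro ⟨κ, ⟨ha, hc⟩, ω, ⟨⟨s0, s1⟩, hcc, ⟨σ0, σ1⟩⟩, rfl⟩
    have hcc' : |ω.2.1| ≤ 1 := abs_le.2 hcc
    have hle := prodA_lo_le_hi H (x, κ, ω) ha hc s0 hcc'
    have k1 : prodA_lo d (x, κ, ω) ≤ prodA_kt d (x, κ, ω) :=
      le_add_of_nonneg_right (mul_nonneg σ0 (sub_nonneg.2 hle))
    have k2 : prodA_kt d (x, κ, ω) ≤ prodA_hi d (x, κ, ω) := by
      have := mul_le_mul_of_nonneg_right σ1 (sub_nonneg.2 hle)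
      unfold prodA_kt
      dsimp only
      linarith
    have l1 := (le_max_left _ _).trans k1
    have l2 := (le_max_right _ _).trans k1
    have u1 := k2.trans (min_le_left _ _)
    have u2 := k2.trans ((min_le_right _ _).trans (min_le_left _ _))
    have u3 := k2.trans ((min_le_right _ _).trans (min_le_right _ _))
    refine ⟨⟨ω.2.1, κ.1, ha, κ.2, hc, s0, hcc', rfl, rfl, l1, u1, u2, u3, ?_, rfl, rfl⟩, s1⟩
    exact sub_le_comm.1 l2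
  · rintro ⟨⟨cc, ua, hua, uc, huc, h0, h2, h3, h4, h5, h6, h7, h8, h9, h10, h11⟩, h1⟩
    have hlo : max (-y.2) (d.A.V y.1.1.1 - 2 * d.rb x.2.1.1 * y.2) ≤ y.1.2.1.1 :=
      max_le h5 (sub_le_comm.1 h9)
    have hhi : y.1.2.1.1 ≤ min (-y.2 + 2 * d.ra x.2.1.1 * y.2)
        (min (d.A.V y.1.1.1) (d.C.V y.1.1.2)) := le_min h6 (le_min h7 h8)
    obtain ⟨σ, σ0, σ1, hσ⟩ := prodA_between hlo hhi
    refine ⟨(ua, uc), ⟨hua, huc⟩, (y.2, cc, σ), ⟨⟨h0, h1⟩, abs_le.1 h2, ⟨σ0, σ1⟩⟩, ?_⟩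
    have ea : prodA_ka d (x, (ua, uc), (y.2, cc, σ)) = y.1.1.1 := h3.symm
    have ec : prodA_kc d (x, (ua, uc), (y.2, cc, σ)) = y.1.1.2 := h4.symm
    have et : prodA_kt d (x, (ua, uc), (y.2, cc, σ)) = y.1.2.1.1 := by
      unfold prodA_kt prodA_lo prodA_hi
      rw [ea, ec]
      exact hσ.symm
    have ey : prodA_ky d (x, (ua, uc), (y.2, cc, σ)) = y.1.2.1.2 := by
      unfold prodA_ky
      rw [ea, et]
      exact h10.symm
    unfold prodA_f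
    rw [ea, ec, et, ey]
    exact Prod.ext (Prod.ext rfl (Prod.ext rfl h11)) rfl

end Pool.Agent.MP703675
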