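import Pool.Agent.Lib.MP_703675_gt.ProdA

set_option autoImplicit false

open Set Metric Filter Topology TopologicalSpace

noncomputable section

namespace Pool.Agent.MP703675

variable {d : PD} {Tm Qc η Emax M' ν Bq : ℝ}

/-- first component -/
def prodB_a (d : PD) : d.E →L[ℝ] d.A.E :=
  (ContinuousLinearMap.fst ℝ d.A.E d.C.E).comp
    (ContinuousLinearMap.fst ℝ (d.A.E × d.C.E) ((ℝ × ℝ) × d.S.E))

/-- second component -/
def prodB_c (d : PD) : d.E →L[ℝ] d.C.E :=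
  (ContinuousLinearMap.snd ℝ d.A.E d.C.E).comp
    (ContinuousLinearMap.fst ℝ (d.A.E × d.C.E) ((ℝ × ℝ) × d.S.E))

/-- clock -/
def prodB_t (d : PD) : d.E →L[ℝ] ℝ :=
  (ContinuousLinearMap.fst ℝ ℝ ℝ).comp
    ((ContinuousLinearMap.fst ℝ (ℝ × ℝ) d.S.E).comp
      (ContinuousLinearMap.snd ℝ (d.A.E × d.C.E) ((ℝ × ℝ) × d.S.E)))

/-- counter -/
def prodB_y (d : PD) : d.E →L[ℝ] ℝ :=
  (ContinuousLinearMap.snd ℝ ℝ ℝ).comp
    ((ContinuousLinearMap.fst ℝ (ℝ × ℝ) d.S.E).comp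
      (ContinuousLinearMap.snd ℝ (d.A.E × d.C.E) ((ℝ × ℝ) × d.S.E)))

theorem prodB_a_apply (x : d.E) : prodB_a d x = x.1.1 := rfl
theorem prodB_c_apply (x : d.E) : prodB_c d x = x.1.2 := rfl
theorem prodB_t_apply (x : d.E) : prodB_t d x = x.2.1.1 := rfl
theorem prodB_y_apply (x : d.E) : prodB_y d x = x.2.1.2 := rfl

theorem prodB_H_pos (H : d.Hyp Tm Qc η Emax M' ν Bq) : 0 < d.H := by
  have h1 := H.goodA.H_pos
  have h2 := H.goodC.H_pos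
  have h3 := H.Tm_nonneg
  have h4 := H.H_ge
  linarith

theorem prodB_bdd (H : d.Hyp Tm Qc η Emax M' ν Bq) : BddK d.K := (prod_ldi H).bddK

/-- the starting point -/
theorem prodB_start {Z : ℝ → d.E} {a b : ℝ} (hZ : d.sys.Adm Z a b) :
    a ≤ b ∧ IsTraj d.K Z a b ∧ ∃ T : ℝ, 3 * d.H ≤ T ∧ b - a ≤ T ∧ (Z a).1.1 = d.A.far T ∧
      (Z a).1.2 = d.C.far T ∧ (Z a).2.1.1 = T ∧ (Z a).2.1.2 = 0 ∧
      (Z a).2.2 = d.S.far (T / d.γ) := by
  obtain ⟨hab, htr, T, h1, h2, h3⟩ := hZ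
  refine ⟨hab, htr, T, h1, h2, ?_, ?_, ?_, ?_, ?_⟩
  · rw [h3]; rfl
  · rw [h3]; rfl
  · rw [h3]
    show (0 : ℝ) + T * 1 = T
    ring
  · rw [h3]
    show (0 : ℝ) + T * 0 = 0
    ring
  · rw [h3]
    show d.S.z0 + T • (d.γ⁻¹ • d.S.one) = d.S.z0 + (T / d.γ) • d.S.one
    rw [smul_smul, div_eq_mul_inv]

theorem prodB_comb {s cc β v : ℝ} (h0 : 0 ≤ s) (h1 : s ≤ 1) (hc : |cc| ≤ 1) (hb0 : 0 ≤ β)
    (hb1 : β ≤ 1) (hv : |v| ≤ 1) : |s * ((1 - β) * cc + β * v)| ≤ 1 := by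
  have e1 := abs_le.1 hc
  have e2 := abs_le.1 hv
  have a1 : (1 - β) * cc ≤ (1 - β) * 1 := mul_le_mul_of_nonneg_left e1.2 (by linarith)
  have a2 : (1 - β) * (-1) ≤ (1 - β) * cc := mul_le_mul_of_nonneg_left e1.1 (by linarith)
  have a3 : β * v ≤ β * 1 := mul_le_mul_of_nonneg_left e2.2 hb0
  have a4 : β * (-1) ≤ β * v := mul_le_mul_of_nonneg_left e2.1 hb0
  have a5 : |(1 - β) * cc + β * v| ≤ 1 := abs_le.2 ⟨by linarith, by linarith⟩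
  rw [abs_mul, abs_of_nonneg h0]
  exact mul_le_one₀ h1 (abs_nonneg _) a5

/-- elementary rates of all velocities -/
theorem prodB_rates (H : d.Hyp Tm Qc η Emax M' ν Bq) {x κ : d.E} (hκ : κ ∈ d.K x) :
    κ.2.1.1 ≤ d.A.V κ.1.1 ∧ κ.2.1.1 ≤ d.C.V κ.1.2 ∧ d.A.V κ.1.1 - κ.2.1.1 ≤ 2 ∧
      (3 * d.H ≤ x.2.1.1 → d.A.V κ.1.1 - κ.2.1.1 ≤ 0) ∧ |d.A.V κ.1.1| ≤ 1 ∧ |d.C.V κ.1.2| ≤ 1 ∧
      (4 / 10 * d.H ≤ x.2.1.1 → ∃ r : ℝ, κ.1.1 = r • d.A.one ∧ κ.1.2 = r • d.C.one) ∧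
      0 ≤ κ.2.1.2 ∧ (3 < x.2.1.2 → κ.2.1.2 ≤ 0) ∧ (x.2.1.1 ≤ 3 / 2 * d.H → κ.2.1.1 ≤ 0) ∧
      κ.2.2 = (-κ.2.1.1) • d.g x.2.1.1 := by
  have hH := prodB_H_pos H
  obtain ⟨s, cc, ua, hua, uc, huc, h0, h1, hcc, ea, ec, -, l2, l3, l4, l5, ey, eq, -⟩ := hκ
  have rb0 : 0 ≤ d.rb x.2.1.1 := cl01_nonneg _
  have rb1 : d.rb x.2.1.1 ≤ 1 := cl01_le_one _
  have bs0 : 0 ≤ d.bs x.2.1.1 := cl01_nonneg _
  have bs1 : d.bs x.2.1.1 ≤ 1 := cl01_le_one _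
  refine ⟨l3, l4, ?_, ?_, ?_, ?_, ?_, ?_, ?_, ?_, eq⟩
  · have : d.rb x.2.1.1 * s ≤ 1 := mul_le_one₀ rb1 h0 h1
    linarith
  · intro h
    have : d.rb x.2.1.1 = 0 := cl01_zero (div_nonpos_of_nonpos_of_nonneg (by linarith) hH.le)
    rw [this] at l5
    linarith
  · rw [ea]
    simp only [map_smul, map_add, H.goodA.V_one, smul_eq_mul, mul_one]
    exact prodB_comb h0 h1 hcc bs0 bs1 (H.goodA.V_le _ _ hua)
  · rw [ec]
    simp only [map_smul, map_add, H.goodC.V_one, smul_eq_mul, mul_one]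
    exact prodB_comb h0 h1 hcc bs0 bs1 (H.goodC.V_le _ _ huc)
  · intro h
    have hb : d.bs x.2.1.1 = 0 := by
      refine cl01_zero ?_
      have : 4 ≤ 10 * x.2.1.1 / d.H := by
        rw [le_div_iff₀ hH]; linarith
      linarith
    refine ⟨s * cc, ?_, ?_⟩
    · rw [ea, hb, zero_smul, add_zero, sub_zero, one_smul, smul_smul]
    · rw [ec, hb, zero_smul, add_zero, sub_zero, one_smul, smul_smul]
  · rw [ey]
    have r0 : 0 ≤ d.room x.2.1.2 := cl01_nonneg _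
    have a0 : 0 ≤ d.al x.2.1.1 := cl01_nonneg _
    have d0 : 0 ≤ d.dev x := add_nonneg (st_nonneg _) (st_nonneg _)
    exact div_nonneg (mul_nonneg r0 (add_nonneg (by linarith) (mul_nonneg (mul_nonneg a0 d0) h0)))
      H.δ_pos.le
  · intro h
    have : d.room x.2.1.2 = 0 := cl01_zero (by linarith)
    rw [ey, this, zero_mul, zero_div]
  · intro h
    have hr : d.ra x.2.1.1 ≤ 1 / 2 := by
      have : (x.2.1.1 - d.H) / d.H ≤ 1 / 2 := by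
        rw [div_le_iff₀ hH]; linarith
      exact max_le (by norm_num) ((min_le_right _ _).trans this)
    have : d.ra x.2.1.1 * s ≤ 1 / 2 * s := mul_le_mul_of_nonneg_right hr h0
    linarith

theorem prodB_t_lip (H : d.Hyp Tm Qc η Emax M' ν Bq) {Z : ℝ → d.E} {a b : ℝ}
    (hZ : IsTraj d.K Z a b) {s t : ℝ} (hs : a ≤ s) (hst : s ≤ t) (ht : t ≤ b) :
    |(Z t).2.1.1 - (Z s).2.1.1| ≤ t - s := by
  have h1 := hZ.le_rate_lin (prodB_bdd H) (prodB_t d) (ρ := 1)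
    (fun s _ κ hκ => (abs_le.1 (prod_V_le _ κ hκ)).2) hs hst ht
  have h2 := hZ.le_rate_lin (prodB_bdd H) (-prodB_t d) (ρ := 1)
    (fun s _ κ hκ => by
      have := (abs_le.1 (prod_V_le _ κ hκ)).1
      show -κ.2.1.1 ≤ 1
      linarith) hs hst ht
  simp only [neg_apply, prodB_t_apply] at h1 h2
  exact abs_le.2 ⟨by linarith, by linarith⟩

/-- two time phases -/
theorem prodB_phase (H : d.Hyp Tm Qc η Emax M' ν Bq) {Z : ℝ → d.E} {a b T L : ℝ}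
    (hZ : IsTraj d.K Z a b) (hL : 0 ≤ L) (hLT : L ≤ T) (hb : b - a ≤ T) (hT : (Z a).2.1.1 = T)
    (f : d.E →L[ℝ] ℝ) (h2 : ∀ x, ∀ κ ∈ d.K x, f κ ≤ 2)
    (h0 : ∀ x : d.E, L ≤ x.2.1.1 → ∀ κ ∈ d.K x, f κ ≤ 0) {s : ℝ} (hs : s ∈ Icc a b) :
    f (Z s) ≤ f (Z a) + 2 * L := by
  have key : ∀ u, a ≤ u → u ≤ b → u ≤ a + T - L → f (Z u) ≤ f (Z a) := by
    intro u h1 h3 h4
    have := (hZ.restrict le_rfl h3).le_rate_lin (prodB_bdd H) f (ρ := 0)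
      (fun v hv κ hκ => h0 _ (by
        have := (abs_le.1 (prodB_t_lip H hZ le_rfl hv.1 (hv.2.le.trans h3))).1
        have := hv.2
        linarith) κ hκ) le_rfl h1 le_rfl
    linarith
  by_cases h : s ≤ a + T - L
  · have := key s hs.1 hs.2 h
    linarith
  · have h' : a + T - L ≤ s := (not_le.1 h).le
    have e1 := key (a + T - L) (by linarith) (h'.trans hs.2) le_rfl
    have e2 := hZ.le_rate_lin (prodB_bdd H) f (ρ := 2) (fun v _ κ hκ => h2 _ κ hκ)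
      (show a ≤ a + T - L by linarith) h' hs.2
    have := hs.2
    linarith

theorem prodB_le_V (H : d.Hyp Tm Qc η Emax M' ν Bq) {Z : ℝ → d.E} {a b : ℝ}
    (hZ : d.sys.Adm Z a b) {s : ℝ} (hs : s ∈ Icc a b) :
    (Z s).2.1.1 ≤ d.A.V (Z s).1.1 ∧ (Z s).2.1.1 ≤ d.C.V (Z s).1.2 := by
  obtain ⟨-, htr, T, -, -, ea, ec, et, -, -⟩ := prodB_start hZ
  have h1 := htr.le_rate_lin (prodB_bdd H) (prodB_t d - d.A.V.comp (prodB_a d)) (ρ := 0)
    (fun s _ κ hκ => by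
      have := (prodB_rates H hκ).1
      show κ.2.1.1 - d.A.V κ.1.1 ≤ 0
      linarith) le_rfl hs.1 hs.2
  have h2 := htr.le_rate_lin (prodB_bdd H) (prodB_t d - d.C.V.comp (prodB_c d)) (ρ := 0)
    (fun s _ κ hκ => by
      have := (prodB_rates H hκ).2.1
      show κ.2.1.1 - d.C.V κ.1.2 ≤ 0
      linarith) le_rfl hs.1 hs.2
  simp only [sub_apply, ContinuousLinearMap.comp_apply, prodB_t_apply,
    prodB_a_apply, prodB_c_apply, ea, ec, et, H.goodA.V_far, H.goodC.V_far] at h1 h2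
  exact ⟨by linarith, by linarith⟩

theorem prodB_Om (H : d.Hyp Tm Qc η Emax M' ν Bq) {Z : ℝ → d.E} {a b : ℝ}
    (hZ : d.sys.Adm Z a b) : ∀ s ∈ Icc a b, (Z s).1.1 ∈ d.A.Om ∧ (Z s).1.2 ∈ d.C.Om := by
  obtain ⟨-, htr, T, hT, hb, ea, ec, -, -, -⟩ := prodB_start hZ
  have hU : IsOpen {x : d.E | x.1.1 ∈ d.A.Om ∧ x.1.2 ∈ d.C.Om} :=
    (H.goodA.isOpen.preimage (prodB_a d).continuous).inter
      (H.goodC.isOpen.preimage (prodB_c d).continuous)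
  have h1 := H.goodA.H_pos
  have h2 := H.goodC.H_pos
  have h3 := H.Tm_nonneg
  have h4 := H.H_ge
  refine boot (htr.continuousOn (prodB_bdd H)) hU ?_
  intro t ht hin
  have hv : ∀ s ∈ Ico a t, ∀ κ ∈ d.K (Z s), κ.1.1 ∈ d.A.K (Z s).1.1 ∧ κ.1.2 ∈ d.C.K (Z s).1.2 := by
    intro s hs κ hκ
    have hV := prodB_le_V H hZ (s := s) ⟨hs.1, hs.2.le.trans ht.2⟩
    obtain ⟨σ, ua, hua, uc, huc, s0, s1, e1, e2, -⟩ :=
      prod_vel H (hin s hs).1 (hin s hs).2 (by linarith [hV.1]) (by linarith [hV.2]) hκ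
    rw [e1, e2]
    exact ⟨H.goodA.star _ hua s0 s1, H.goodC.star _ huc s0 s1⟩
  have htr' := htr.restrict le_rfl ht.2
  have hA : d.A.Adm (fun s => prodB_a d (Z s)) a t :=
    ⟨ht.1, htr'.proj (prodB_a d) ⟨0, H.goodA.zero_mem _⟩ (fun s hs κ hκ => (hv s hs κ hκ).1),
      T, by linarith, by linarith [ht.2], ea⟩
  have hC : d.C.Adm (fun s => prodB_c d (Z s)) a t :=
    ⟨ht.1, htr'.proj (prodB_c d) ⟨0, H.goodC.zero_mem _⟩ (fun s hs κ hκ => (hv s hs κ hκ).2),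
      T, by linarith, by linarith [ht.2], ec⟩
  exact ⟨H.goodA.inv _ _ _ hA t ⟨ht.1, le_rfl⟩, H.goodC.inv _ _ _ hC t ⟨ht.1, le_rfl⟩⟩

theorem prod_y_mono (H : d.Hyp Tm Qc η Emax M' ν Bq) {Z : ℝ → d.E} {a b : ℝ}
    (hZ : d.sys.Adm Z a b) {s t : ℝ} (hs : a ≤ s) (hst : s ≤ t) (ht : t ≤ b) :
    (Z s).2.1.2 ≤ (Z t).2.1.2 := by
  obtain ⟨-, htr, -⟩ := prodB_start hZ
  have h := htr.le_rate_lin (prodB_bdd H) (-prodB_y d) (ρ := 0)
    (fun s _ κ hκ => by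
      have := (prodB_rates H hκ).2.2.2.2.2.2.2.1
      show -κ.2.1.2 ≤ 0
      linarith) hs hst ht
  simp only [neg_apply, prodB_y_apply] at h
  linarith

theorem prodB_q_id {G : Type} [AddCommGroup G] [Module ℝ G] (q q' z z' g : G) (h k t t' : ℝ) :
    q' - z' - (q - z) = (q' - q - h • ((-k) • g)) + (t' - t - h * k) • g -
      (z' - z + (t' - t) • g) := by
  module

theorem prodB_q (H : d.Hyp Tm Qc η Emax M' ν Bq) {Z : ℝ → d.E} {a b : ℝ}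
    (hZ : d.sys.Adm Z a b) : ∀ s ∈ Icc a b, (Z s).2.2 = d.ζ (Z s).2.1.1 := by
  obtain ⟨-, htr, T, hT, hb, -, -, et, -, eq⟩ := prodB_start hZ
  have hH := prodB_H_pos H
  have h1 := H.goodA.H_pos
  have h2 := H.goodC.H_pos
  have h3 := H.Tm_nonneg
  have h4 := H.H_ge
  have hQ := H.tgt.Qc_nonneg
  obtain ⟨C, hC⟩ := id htr
  have hg : ∀ s, a ≤ s → s ≤ b → ‖d.g (Z s).2.1.1‖ ≤ ‖d.g T‖ + Qc * T := by
    intro s hs hs'
    have e1 := prodB_t_lip H htr le_rfl hs hs'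
    rw [et] at e1
    have e2 := H.tgt.lip T (Z s).2.1.1
    have e3 : Qc * |(Z s).2.1.1 - T| ≤ Qc * T := mul_le_mul_of_nonneg_left (by linarith) hQ
    have e4 := norm_le_insert' (d.g (Z s).2.1.1) (d.g T)
    linarith
  have key := const_of_sq (f := fun s => (Z s).2.2 - d.ζ (Z s).2.1.1) (a := a) (b := b)
    (C := |C| + |C| * (‖d.g T‖ + Qc * T) + Qc) (by
      intro s t hs hst ht
      obtain ⟨κ, hκ, he⟩ := hC s t hs hst ht
      have he' : ‖Z t - Z s - (t - s) • κ‖ ≤ |C| * (t - s) ^ 2 :=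
        he.trans (mul_le_mul_of_nonneg_right (le_abs_self C) (sq_nonneg _))
      have ek := (prodB_rates H hκ).2.2.2.2.2.2.2.2.2.2
      have n1 : ‖(Z t).2.2 - (Z s).2.2 - (t - s) • ((-κ.2.1.1) • d.g (Z s).2.1.1)‖ ≤
          |C| * (t - s) ^ 2 := by
        rw [← ek]
        exact ((norm_snd_le (Z t - Z s - (t - s) • κ).2).trans (norm_snd_le _)).trans he'
      have n2 : |(Z t).2.1.1 - (Z s).2.1.1 - (t - s) * κ.2.1.1| ≤ |C| * (t - s) ^ 2 :=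
        (((norm_fst_le (Z t - Z s - (t - s) • κ).2.1).trans (norm_fst_le _)).trans
          (norm_snd_le _)).trans he'
      have n3 := H.tgt.taylor (Z s).2.1.1 (Z t).2.1.1
      have n4 : ((Z t).2.1.1 - (Z s).2.1.1) ^ 2 ≤ (t - s) ^ 2 := by
        have := abs_le.1 (prodB_t_lip H htr hs hst ht)
        exact sq_le_sq' this.1 this.2
      have n5 : Qc * ((Z t).2.1.1 - (Z s).2.1.1) ^ 2 ≤ Qc * (t - s) ^ 2 :=
        mul_le_mul_of_nonneg_left n4 hQ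
      have n6 : ‖((Z t).2.1.1 - (Z s).2.1.1 - (t - s) * κ.2.1.1) • d.g (Z s).2.1.1‖ ≤
          |C| * (t - s) ^ 2 * (‖d.g T‖ + Qc * T) := by
        rw [norm_smul, Real.norm_eq_abs]
        exact mul_le_mul n2 (hg s hs (hst.trans ht)) (norm_nonneg _) (by positivity)
      show ‖(Z t).2.2 - d.ζ (Z t).2.1.1 - ((Z s).2.2 - d.ζ (Z s).2.1.1)‖ ≤ _
      rw [prodB_q_id _ _ _ _ (d.g (Z s).2.1.1) (t - s) κ.2.1.1 (Z s).2.1.1 (Z t).2.1.1]
      refine (norm_sub_le _ _).trans ?_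
      refine (add_le_add_left (norm_add_le _ _) _).trans ?_
      linarith)
  intro s hs
  have e := key s hs
  rw [et, eq, (H.tgt.far T (by linarith)).1, sub_self] at e
  exact sub_eq_zero.1 e

/-- Plan: `t ≤ V a`, `t ≤ V c` by `le_rate_lin`; membership in `Om` by `boot` with `prod_vel`
and `IsTraj.proj`; the gaps by two time phases (rate `0` while `3 H ≤ t`, resp. `0.4 H ≤ t`);
`q = ζ t` by `const_of_sq` and `Target.taylor`. -/
theorem prod_basic (H : d.Hyp Tm Qc η Emax M' ν Bq) {Z : ℝ → d.E} {a b : ℝ}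
    (hZ : d.sys.Adm Z a b) : ∀ s ∈ Icc a b, (Z s).1.1 ∈ d.A.Om ∧ (Z s).1.2 ∈ d.C.Om ∧
      (Z s).2.1.1 ≤ d.A.V (Z s).1.1 ∧ (Z s).2.1.1 ≤ d.C.V (Z s).1.2 ∧
      d.A.V (Z s).1.1 - (Z s).2.1.1 ≤ 6 * d.H ∧ d.C.V (Z s).1.2 - (Z s).2.1.1 ≤ 7 * d.H ∧
      0 ≤ (Z s).2.1.1 ∧ 0 ≤ (Z s).2.1.2 ∧ (Z s).2.1.2 ≤ 3 ∧ (Z s).2.2 = d.ζ (Z s).2.1.1 := by
  intro s hs
  have hO := prodB_Om H hZ s hs
  have hV := prodB_le_V H hZ hs
  have hq := prodB_q H hZ s hs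
  have hy := prod_y_mono H hZ le_rfl hs.1 hs.2
  obtain ⟨-, htr, T, hT, hb, ea, ec, et, ey, -⟩ := prodB_start hZ
  have hH := prodB_H_pos H
  have g1 := prodB_phase H htr (L := 3 * d.H) (by linarith) hT hb et
    (d.A.V.comp (prodB_a d) - prodB_t d) (fun x κ hκ => (prodB_rates H hκ).2.2.1)
    (fun x hx κ hκ => (prodB_rates H hκ).2.2.2.1 hx) hs
  have g2 := prodB_phase H htr (L := 4 / 10 * d.H) (by linarith) (by linarith) hb et
    (d.C.V.comp (prodB_c d) - d.A.V.comp (prodB_a d))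
    (fun x κ hκ => by
      have e1 := abs_le.1 (prodB_rates H hκ).2.2.2.2.1
      have e2 := abs_le.1 (prodB_rates H hκ).2.2.2.2.2.1
      show d.C.V κ.1.2 - d.A.V κ.1.1 ≤ 2
      linarith [e1.1, e2.2])
    (fun x hx κ hκ => by
      obtain ⟨r, e1, e2⟩ := (prodB_rates H hκ).2.2.2.2.2.2.1 hx
      show d.C.V κ.1.2 - d.A.V κ.1.1 ≤ 0
      rw [e1, e2, map_smul, map_smul, H.goodA.V_one, H.goodC.V_one, sub_self]) hs
  simp only [sub_apply, ContinuousLinearMap.comp_apply, prodB_t_apply,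
    prodB_a_apply, prodB_c_apply, ea, ec, et, H.goodA.V_far, H.goodC.V_far] at g1 g2
  have g3 := (abs_le.1 (prodB_t_lip H htr le_rfl hs.1 hs.2)).1
  have g4 := htr.barrier_lin (prodB_bdd H) (prodB_y d) (c := 3)
    (fun v _ hv κ hκ => (prodB_rates H hκ).2.2.2.2.2.2.2.2.1 hv)
    (by rw [prodB_y_apply, ey]; norm_num) s hs
  have := hs.2
  exact ⟨hO.1, hO.2, hV.1, hV.2, by linarith, by linarith, by linarith, by linarith, g4, hq⟩

theorem prod_t_anti (H : d.Hyp Tm Qc η Emax M' ν Bq) {Z : ℝ → d.E} {a b : ℝ}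
    (hZ : d.sys.Adm Z a b) {s t : ℝ} (hs : a ≤ s) (hst : s ≤ t) (ht : t ≤ b)
    (hV : (Z s).2.1.1 ≤ d.H) : (Z t).2.1.1 ≤ (Z s).2.1.1 := by
  obtain ⟨-, htr, -⟩ := prodB_start hZ
  have hH := prodB_H_pos H
  exact (htr.restrict hs le_rfl).barrier_win (prodB_bdd H) (Φ := prodB_t d)
    (prodB_t d).differentiable (c := (Z s).2.1.1) (ε := d.H / 2) (by linarith)
    (fun v _ _ h2 κ hκ => by
      rw [ContinuousLinearMap.fderiv]
      rw [prodB_t_apply] at h2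
      exact (prodB_rates H hκ).2.2.2.2.2.2.2.2.2.1 (by linarith)) le_rfl t ⟨hst, ht⟩

theorem prod_exists_time (H : d.Hyp Tm Qc η Emax M' ν Bq) {Z : ℝ → d.E} {a b : ℝ}
    (hZ : d.sys.Adm Z a b) {s : ℝ} (hs : s ∈ Icc a b) (ht : (Z s).2.1.1 ≤ 4 / 10 * d.H) :
    ∃ s0 ∈ Icc a s, (Z s0).2.1.1 = 4 / 10 * d.H := by
  obtain ⟨-, htr, T, hT, -, -, -, et, -, -⟩ := prodB_start hZ
  have hH := prodB_H_pos H
  have hc : ContinuousOn (fun u => prodB_t d (Z u)) (Icc a s) :=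
    (prodB_t d).continuous.comp_continuousOn
      ((htr.restrict le_rfl hs.2).continuousOn (prodB_bdd H))
  exact intermediate_value_Icc' hs.1 hc
    ⟨ht, by show 4 / 10 * d.H ≤ (Z a).2.1.1; linarith⟩

theorem prod_early (H : d.Hyp Tm Qc η Emax M' ν Bq) {Z : ℝ → d.E} {a b : ℝ}
    (hZ : d.sys.Adm Z a b) {s : ℝ} (hs : s ∈ Icc a b) (ht : 4 / 10 * d.H ≤ (Z s).2.1.1) :
    ∃ v : ℝ, (Z s).2.1.1 ≤ v ∧ (Z s).1.1 = d.A.far v ∧ (Z s).1.2 = d.C.far v := by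
  have hV := prodB_le_V H hZ hs
  have hH := prodB_H_pos H
  have hu : ∀ u ∈ Ico a s, 4 / 10 * d.H ≤ (Z u).2.1.1 := by
    intro u hu
    by_contra h
    have h' := not_le.1 h
    have := prod_t_anti H hZ hu.1 hu.2.le hs.2 (by linarith)
    linarith
  obtain ⟨-, htr, T, -, -, ea, ec, -, -, -⟩ := prodB_start hZ
  have htr' := htr.restrict le_rfl hs.2
  have h1 := htr'.const_lin (prodB_bdd H)
    (prodB_a d - (d.A.V.comp (prodB_a d)).smulRight d.A.one)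
    (fun u hu' κ hκ => by
      obtain ⟨r, e1, -⟩ := (prodB_rates H hκ).2.2.2.2.2.2.1 (hu u hu')
      show κ.1.1 - d.A.V κ.1.1 • d.A.one = 0
      rw [e1, map_smul, H.goodA.V_one, smul_eq_mul, mul_one, sub_self]) s ⟨hs.1, le_rfl⟩
  have h2 := htr'.const_lin (prodB_bdd H)
    (prodB_c d - (d.A.V.comp (prodB_a d)).smulRight d.C.one)
    (fun u hu' κ hκ => by
      obtain ⟨r, e1, e2⟩ := (prodB_rates H hκ).2.2.2.2.2.2.1 (hu u hu')
      show κ.1.2 - d.A.V κ.1.1 • d.C.one = 0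
      rw [e1, e2, map_smul, H.goodA.V_one, smul_eq_mul, mul_one, sub_self]) s ⟨hs.1, le_rfl⟩
  simp only [sub_apply, ContinuousLinearMap.comp_apply,
    ContinuousLinearMap.smulRight_apply, prodB_a_apply, prodB_c_apply, ea, ec,
    H.goodA.V_far] at h1 h2
  refine ⟨d.A.V (Z s).1.1, hV.1, ?_, ?_⟩
  · have e := sub_eq_iff_eq_add.1 h1
    simp only [Sys.far, add_sub_cancel_right] at e ⊢
    exact e
  · have e := sub_eq_iff_eq_add.1 h2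
    simp only [Sys.far, add_sub_cancel_right] at e ⊢
    exact e

end Pool.Agent.MP703675
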