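import Pool.Agent.Lib.MP_703675_gt.ProdA

set_option autoImplicit false

open Set Metric Filter Topology TopologicalSpace

noncomputable section

namespace Pool.Agent.MP703675

variable {d : PD} {Tm Qc η Emax M' ν Bq : ℝ}

theorem prodC_H (H : d.Hyp Tm Qc η Emax M' ν Bq) : 0 < d.H := by
  linarith [H.H_ge, H.goodA.H_pos, H.goodC.H_pos, H.Tm_nonneg]

theorem prodC_dev (d : PD) (x : d.E) : 0 ≤ d.dev x := add_nonneg (st_nonneg _) (st_nonneg _)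

theorem prodC_rb (H : d.Hyp Tm Qc η Emax M' ν Bq) {t : ℝ} (ht : t ≤ 2 * d.H) : d.rb t = 1 :=
  cl01_one (by rw [le_div_iff₀ (prodC_H H)]; linarith)

theorem prodC_ra (H : d.Hyp Tm Qc η Emax M' ν Bq) {t : ℝ} (ht : 2 * d.H ≤ t) : d.ra t = 1 :=
  cl01_one (by rw [le_div_iff₀ (prodC_H H)]; linarith)

theorem prodC_bs (H : d.Hyp Tm Qc η Emax M' ν Bq) {t : ℝ} (ht : t ≤ d.H / 5) : d.bs t = 1 := by
  have : 10 * t / d.H ≤ 2 := by rw [div_le_iff₀ (prodC_H H)]; linarith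
  exact cl01_one (by linarith)

theorem prodC_al (H : d.Hyp Tm Qc η Emax M' ν Bq) {t : ℝ} (ht : d.H / 2 ≤ t) : d.al t = 0 := by
  have : 10 ≤ 20 * t / d.H := by rw [le_div_iff₀ (prodC_H H)]; linarith
  exact cl01_zero (by linarith)

theorem prodC_rhs (H : d.Hyp Tm Qc η Emax M' ν Bq) (x : d.E) :
    0 ≤ deriv d.Ex x.2.1.1 * max (d.Phi x) 0 + deriv d.Th x.2.1.1 :=
  add_nonneg (mul_nonneg (H.Ex_bd _).2.2.1 (le_max_right _ _)) (H.Th_bd _).1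

/-- the wall inequality follows from a bound for the bracket where the wall is on -/
theorem prodC_wall (H : d.Hyp Tm Qc η Emax M' ν Bq) (x : d.E) {X : ℝ}
    (h : x.2.1.2 < 3 / 2 → x.2.1.1 < d.H / 2 →
      X ≤ deriv d.Ex x.2.1.1 * max (d.Phi x) 0 + deriv d.Th x.2.1.1) :
    d.omg x.2.1.2 * d.al x.2.1.1 * X ≤
      (d.μ + deriv d.Ex x.2.1.1 * max (d.Phi x) 0 + deriv d.Th x.2.1.1) * 1 := by
  have h0 := prodC_rhs H x
  have hμ := H.μ_pos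
  rcases le_or_gt (3 / 2) x.2.1.2 with h1 | h1
  · rw [show d.omg x.2.1.2 = 0 from cl01_zero (by linarith)]; linarith
  rcases le_or_gt (d.H / 2) x.2.1.1 with h2 | h2
  · rw [prodC_al H h2]; linarith
  have a1 : 0 ≤ d.omg x.2.1.2 * d.al x.2.1.1 := mul_nonneg (cl01_nonneg _) (cl01_nonneg _)
  have a2 : d.omg x.2.1.2 * d.al x.2.1.1 ≤ 1 :=
    mul_le_one₀ (cl01_le_one _) (cl01_nonneg _) (cl01_le_one _)
  have a3 := mul_le_mul_of_nonneg_left (h h1 h2) a1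
  have a4 := mul_le_of_le_one_left h0 a2
  linarith

theorem prodC_room (d : PD) {y : ℝ} (h : y < 3 / 2) : d.room y = 1 := cl01_one (by linarith)

/-- the explicit response below `H / 5` -/
theorem prodC_low (H : d.Hyp Tm Qc η Emax M' ν Bq) {z : d.E} (ht : z.2.1.1 ≤ d.H / 5)
    {u : d.A.E} (hu : u ∈ d.A.K z.1.1) {u' : d.C.E} (hu' : u' ∈ d.C.K z.1.2)
    (hw : z.2.1.2 < 3 / 2 →
      d.Ex z.2.1.1 * (fderiv ℝ d.N (d.pS z.1.2 - z.2.2) (d.pS u' - d.g z.2.1.1) + d.M * d.Ds u') -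
        d.Kw / d.δ * (d.A.V u + 1) ≤ deriv d.Ex z.2.1.1 * max (d.Phi z) 0 + deriv d.Th z.2.1.1) :
    ∃ κ ∈ d.K z, d.pa κ = u ∧ d.pc κ = u' ∧ d.sys.V κ = -1 := by
  have hH := prodC_H H
  have a1 := abs_le.1 (H.goodA.V_le _ _ hu)
  have a2 := abs_le.1 (H.goodC.V_le _ _ hu')
  refine ⟨((u, u'), ((-1, d.room z.2.1.2 * ((d.A.V u - -1) + d.al z.2.1.1 * d.dev z * 1) / d.δ),
    (-(-1 : ℝ)) • d.g z.2.1.1)), ⟨1, 0, u, hu, u', hu', zero_le_one, le_rfl, by simp,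
      by simp [prodC_bs H ht], by simp [prodC_bs H ht], le_rfl, ?_, a1.1, a2.1, ?_, rfl, rfl,
      prodC_wall H z fun h1 _ => le_trans ?_ (hw h1)⟩, rfl, rfl, rfl⟩
  · have : 0 ≤ d.ra z.2.1.1 := cl01_nonneg _
    simp only
    linarith
  · rw [prodC_rb H (by linarith)]
    simp only
    linarith
  · rw [prod_Phi_fderiv H, prodC_room d h1]
    simp only [neg_neg, one_smul, one_mul, mul_one]
    have b1 : 0 ≤ d.Kw / d.δ * (d.al z.2.1.1 * d.dev z) :=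
      mul_nonneg (div_nonneg H.Kw_nonneg H.δ_pos.le) (mul_nonneg (cl01_nonneg _) (prodC_dev d z))
    have b2 : d.Kw * ((d.A.V u - -1 + d.al z.2.1.1 * d.dev z) / d.δ) =
        d.Kw / d.δ * (d.A.V u + 1) + d.Kw / d.δ * (d.al z.2.1.1 * d.dev z) := by ring
    linarith

theorem prod_far (H : d.Hyp Tm Qc η Emax M' ν Bq) {z : d.E} (hz : z ∈ d.sys.Om)
    (ht : d.H / 5 ≤ d.sys.V z) :
    3 * d.A.H ≤ d.A.V (d.pa z) ∧ 3 * d.C.H ≤ d.C.V (d.pc z) := by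
  have h1 : z.2.1.1 < d.A.V (d.pa z) + d.slk := hz.2.2.1
  have h2 : z.2.1.1 < d.C.V (d.pc z) + d.slk := hz.2.2.2.1
  have h3 : d.H / 5 ≤ z.2.1.1 := ht
  constructor <;> linarith [H.H_ge, H.goodA.H_pos, H.goodC.H_pos, H.Tm_nonneg, H.slk_le]

/-- Plan: `s = 1`, `cc = c`, clock rate `max (-1) (c - 2 rb)`; the wall holds by `slater`
because the derivative of the lock potential is `(c + 1) * dN (-g)`. -/
theorem prod_mirror (H : d.Hyp Tm Qc η Emax M' ν Bq) {z : d.E} (hz : z ∈ d.sys.Om)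
    (ht : d.H / 5 ≤ d.sys.V z) {c : ℝ} (hc : |c| ≤ 1) : ∃ κ ∈ d.K z, d.pa κ = c • d.A.one ∧
      d.pc κ = c • d.C.one ∧ (d.sys.V z ≤ d.H → d.sys.V κ = -1) := by
  have hH := prodC_H H
  obtain ⟨f1, f2⟩ := prod_far H hz ht
  have h3 : d.H / 5 ≤ z.2.1.1 := ht
  have c1 := abs_le.1 hc
  have vA : d.A.V (c • d.A.one) = c := by simp [H.goodA.V_one]
  have vC : d.C.V (c • d.C.one) = c := by simp [H.goodC.V_one]
  have r1 : 0 ≤ d.ra z.2.1.1 := cl01_nonneg _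
  have r2 : 0 ≤ d.rb z.2.1.1 := cl01_nonneg _
  obtain ⟨r, hr⟩ : ∃ r, r = max (-1) (c - 2 * d.rb z.2.1.1) := ⟨_, rfl⟩
  have r3 : z.2.1.1 ≤ 2 * d.H → r = -1 := fun h => by
    rw [hr, prodC_rb H h]; exact max_eq_left (by linarith)
  have r4 : r ≤ c := by rw [hr]; exact max_le c1.1 (by linarith)
  refine ⟨((c • d.A.one, c • d.C.one), ((r, d.room z.2.1.2 * ((d.A.V (c • d.A.one) - r) +
    d.al z.2.1.1 * d.dev z * 1) / d.δ), (-r) • d.g z.2.1.1)), ⟨1, c, c • d.A.one,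
      (H.goodA.farLaw _ hz.1 f1 _).2 ⟨c, hc, rfl⟩, c • d.C.one,
      (H.goodC.farLaw _ hz.2.1 f2 _).2 ⟨c, hc, rfl⟩, zero_le_one, le_rfl, hc,
      by simp only; module, by simp only; module, hr ▸ le_max_left _ _, ?_, vA.symm ▸ r4,
      vC.symm ▸ r4, ?_, rfl, rfl, prodC_wall H z fun h1 h2 => le_trans ?_ (prodC_rhs H z)⟩,
    rfl, rfl, fun h => r3 (by have : z.2.1.1 ≤ d.H := h; linarith)⟩
  · simp only
    rcases le_total z.2.1.1 (2 * d.H) with h | h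
    · rw [r3 h]; linarith
    · rw [prodC_ra H h]; linarith
  · simp only
    have := hr ▸ le_max_right (-1) (c - 2 * d.rb z.2.1.1)
    rw [vA]; linarith
  · have g1 := (H.tgt.far z.2.1.1 (by linarith [H.H_ge, H.goodA.H_pos, H.goodC.H_pos])).2
    have e : d.pS (c • d.C.one) - (-(-1 : ℝ)) • d.g z.2.1.1 = (c + 1) • (-d.g z.2.1.1) := by
      rw [map_smul, H.pS_one, g1]; module
    rw [prod_Phi_fderiv H, prodC_room d h1, r3 (by linarith)]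
    simp only
    rw [e, vA, map_smul, map_smul, H.Ds_one]
    have b1 : 0 ≤ d.Kw / d.δ * (d.al z.2.1.1 * d.dev z) :=
      mul_nonneg (div_nonneg H.Kw_nonneg H.δ_pos.le) (mul_nonneg (cl01_nonneg _) (prodC_dev d z))
    have b2 : d.Kw * (1 * (c - -1 + d.al z.2.1.1 * d.dev z * 1) / d.δ) =
        (c + 1) * (d.Kw / d.δ) + d.Kw / d.δ * (d.al z.2.1.1 * d.dev z) := by ring
    have b3 := mul_le_mul_of_nonneg_left (H.slater (d.pS z.1.2 - z.2.2) z.2.1.1)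
      (show 0 ≤ c + 1 by linarith)
    simp only [smul_eq_mul, mul_zero, add_zero]
    linarith

theorem prod_free_or_locked (H : d.Hyp Tm Qc η Emax M' ν Bq) {z : d.E} (hz : z ∈ d.sys.Om)
    (ht : d.sys.V z ≤ d.H / 5) :
    (∀ u ∈ d.A.K (d.pa z), ∀ u' ∈ d.C.K (d.pc z), ∃ κ ∈ d.K z, d.pa κ = u ∧ d.pc κ = u' ∧
      d.sys.V κ = -1) ∨
    ∃ q : d.S.E, ‖q - d.ζ (d.sys.V z)‖ < d.slk ∧ ‖d.pS (d.pc z) - q‖ < 4 * d.w ∧
      d.Gd (d.pa z, q) < 4 * d.w := by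
  obtain ⟨-, -, -, -, -, -, -, -, -, h1, h2 | h2 | h2⟩ := hz
  · exact Or.inl fun u hu u' hu' => prodC_low H ht hu hu' fun h => absurd h2 h.not_gt
  · exact absurd h2 ht.not_gt
  · exact Or.inr ⟨z.2.2, h1, (H.N_ge _).trans_lt h2.1, h2.2⟩

theorem prodC_vel (H : d.Hyp Tm Qc η Emax M' ν Bq) {z : d.E} (hz : z ∈ d.sys.Om) {κ : d.E}
    (hκ : κ ∈ d.K z) : d.pa κ ∈ d.A.K (d.pa z) ∧ d.pc κ ∈ d.C.K (d.pc z) ∧
      d.sys.V κ ≤ d.A.V (d.pa κ) ∧ d.sys.V κ ≤ d.C.V (d.pc κ) := by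
  obtain ⟨s, ua, h1, uc, h2, s0, s1, e1, e2, -, v1, v2, -⟩ := prod_vel H hz.1 hz.2.1
    (by linarith [hz.2.2.1, H.slk_le]) (by linarith [hz.2.2.2.1, H.slk_le]) hκ
  refine ⟨?_, ?_, v1, v2⟩
  · rw [show d.pa κ = s • ua from e1]
    exact (H.goodA.convex _).smul_mem_of_zero_mem (H.goodA.zero_mem _) h1 ⟨s0, s1⟩
  · rw [show d.pc κ = s • uc from e2]
    exact (H.goodC.convex _).smul_mem_of_zero_mem (H.goodC.zero_mem _) h2 ⟨s0, s1⟩

theorem prodC_respA (H : d.Hyp Tm Qc η Emax M' ν Bq) {z : d.E} (hz : z ∈ d.sys.Om) {u : d.A.E}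
    (hu : u ∈ d.A.K (d.pa z)) : ∃ κ ∈ d.K z, d.pa κ = u ∧ (d.sys.V z ≤ d.H → d.sys.V κ = -1) := by
  rcases le_total (d.H / 5) (d.sys.V z) with ht | ht
  · obtain ⟨c, hc, rfl⟩ := (H.goodA.farLaw _ hz.1 (prod_far H hz ht).1 _).1 hu
    obtain ⟨κ, k1, k2, -, k3⟩ := prod_mirror H hz ht hc
    exact ⟨κ, k1, k2, k3⟩
  obtain ⟨-, hC, -, h0, -, -, h3, -, -, h1, h2 | h2 | h2⟩ := hz
  · obtain ⟨κ, k1, k2, -, k3⟩ := prodC_low H ht hu (H.goodC.zero_mem _)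
      fun h => absurd h2 h.not_gt
    exact ⟨κ, k1, k2, fun _ => k3⟩
  · exact absurd h2 ht.not_gt
  · obtain ⟨u', hu', hw⟩ := H.wresp z.1.2 hC z.2.2 z.2.1.1 h3 h0 h1 h2.1
    obtain ⟨κ, k1, k2, -, k3⟩ := prodC_low H ht hu hu' fun _ => by
      have a1 := (abs_le.1 (H.goodA.V_le _ _ hu)).1
      have b1 : 0 ≤ d.Kw / d.δ * (d.A.V u + 1) :=
        mul_nonneg (div_nonneg H.Kw_nonneg H.δ_pos.le) (by linarith)
      have b2 : deriv d.Ex z.2.1.1 * (d.N (d.pS z.1.2 - z.2.2) + d.M * (d.Ds z.1.2 + d.om)) ≤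
          deriv d.Ex z.2.1.1 * max (d.Phi z) 0 :=
        mul_le_mul_of_nonneg_left (le_max_left (d.Phi z) 0) (H.Ex_bd z.2.1.1).2.2.1
      linarith
    exact ⟨κ, k1, k2, fun _ => k3⟩

theorem prodC_respC (H : d.Hyp Tm Qc η Emax M' ν Bq) {z : d.E} (hz : z ∈ d.sys.Om) {u : d.C.E}
    (hu : u ∈ d.C.K (d.pc z)) : ∃ κ ∈ d.K z, d.pc κ = u ∧ (d.sys.V z ≤ d.H → d.sys.V κ = -1) := by
  rcases le_total (d.H / 5) (d.sys.V z) with ht | ht
  · obtain ⟨c, hc, rfl⟩ := (H.goodC.farLaw _ hz.2.1 (prod_far H hz ht).2 _).1 hu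
    obtain ⟨κ, k1, -, k2, k3⟩ := prod_mirror H hz ht hc
    exact ⟨κ, k1, k2, k3⟩
  · obtain ⟨κ, k1, -, k2, k3⟩ := prodC_low H ht (H.goodA.zero_mem _) hu fun _ => by
      have a1 := H.wlead z.1.2 hz.2.1 u hu (d.pS z.1.2 - z.2.2) z.2.1.1
      have a2 := prodC_rhs H z
      rw [map_zero, zero_add, mul_one]
      linarith
    exact ⟨κ, k1, k2, fun _ => k3⟩

/-- Plan for `resp`: `prod_mirror` above `H / 5`; below, if `3/2 ≤ y` the wall is off,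
otherwise use `wresp`. -/
theorem prod_towerA (H : d.Hyp Tm Qc η Emax M' ν Bq) (n : ℕ) (par : ℕ → Par) :
    Tower d.A 1 d.sys d.pa n n par (LD.triv _) d.slk where
  pos := one_pos
  le := le_rfl
  slk_nonneg := H.slk_pos.le
  norm_le := fun z => (norm_fst_le z.1).trans (norm_fst_le z)
  surj := fun a => ⟨((a, 0), 0), rfl⟩
  map_one := by rw [inv_one, one_smul]; rfl
  map_z0 := rfl
  mapsTo := fun _ hz => hz.1
  H_le := by
    show 1 * d.A.H ≤ d.H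
    linarith [H.H_ge, H.goodA.H_pos, H.goodC.H_pos, H.Tm_nonneg]
  pgood := fun _ h1 h2 => absurd h2 h1.not_gt
  lev_H := fun _ h1 h2 => absurd h2 h1.not_gt
  smooth := fun _ _ => contDiff_const
  r_pos := fun _ => one_pos
  D_bd := fun _ _ _ h1 h2 => absurd h2 h1.not_gt
  T_bd := fun _ _ _ h1 h2 => absurd h2 h1.not_gt
  dom := fun z hz => by rw [one_mul]; exact hz.2.2.1.le
  dom1 := fun _ _ _ h1 h2 => absurd h2 h1.not_gt
  dom2 := fun _ _ _ h1 h2 => absurd h2 h1.not_gt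
  vel := fun z hz κ hκ => by rw [one_mul]; exact (prodC_vel H hz hκ).2.2.1
  quiet := fun _ _ _ h1 h2 => absurd h2 h1.not_gt
  lead := fun z hz κ hκ => ⟨fun _ => 1, rfl, ⟨_, (prodC_vel H hz hκ).1, by simp⟩,
    fun _ h1 h2 => absurd h2 h1.not_gt⟩
  resp := fun z hz _ _ s _ hs u hu => by
    obtain ⟨κ, k1, k2, k3⟩ := prodC_respA H hz hu
    exact ⟨κ, k1, by rw [hs.1, div_one, one_smul, k2], k3,
      fun _ h1 h2 => absurd h2 h1.not_gt, trivial⟩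

/-- Plan for `resp`: as before, in the locked case take `ua = 0` and use `wlead`. -/
theorem prod_towerC (H : d.Hyp Tm Qc η Emax M' ν Bq) (n : ℕ) (par : ℕ → Par) :
    Tower d.C 1 d.sys d.pc n n par (LD.triv _) d.slk where
  pos := one_pos
  le := le_rfl
  slk_nonneg := H.slk_pos.le
  norm_le := fun z => (norm_snd_le z.1).trans (norm_fst_le z)
  surj := fun a => ⟨((0, a), 0), rfl⟩
  map_one := by rw [inv_one, one_smul]; rfl
  map_z0 := rfl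
  mapsTo := fun _ hz => hz.2.1
  H_le := by
    show 1 * d.C.H ≤ d.H
    linarith [H.H_ge, H.goodA.H_pos, H.goodC.H_pos, H.Tm_nonneg]
  pgood := fun _ h1 h2 => absurd h2 h1.not_gt
  lev_H := fun _ h1 h2 => absurd h2 h1.not_gt
  smooth := fun _ _ => contDiff_const
  r_pos := fun _ => one_pos
  D_bd := fun _ _ _ h1 h2 => absurd h2 h1.not_gt
  T_bd := fun _ _ _ h1 h2 => absurd h2 h1.not_gt
  dom := fun z hz => by rw [one_mul]; exact hz.2.2.2.1.le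
  dom1 := fun _ _ _ h1 h2 => absurd h2 h1.not_gt
  dom2 := fun _ _ _ h1 h2 => absurd h2 h1.not_gt
  vel := fun z hz κ hκ => by rw [one_mul]; exact (prodC_vel H hz hκ).2.2.2
  quiet := fun _ _ _ h1 h2 => absurd h2 h1.not_gt
  lead := fun z hz κ hκ => ⟨fun _ => 1, rfl, ⟨_, (prodC_vel H hz hκ).2.1, by simp⟩,
    fun _ h1 h2 => absurd h2 h1.not_gt⟩
  resp := fun z hz _ _ s _ hs u hu => by
    obtain ⟨κ, k1, k2, k3⟩ := prodC_respC H hz hu
    exact ⟨κ, k1, by rw [hs.1, div_one, one_smul, k2], k3,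
      fun _ h1 h2 => absurd h2 h1.not_gt, trivial⟩

end Pool.Agent.MP703675
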