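import Pool.Agent.Lib.MP_703675_gt.CoupleOn
import Pool.Agent.Lib.MP_703675_gt.CoupleOff
import Pool.Agent.Lib.MP_703675_gt.GateB
import Pool.Agent.Lib.MP_703675_gt.Lift

set_option autoImplicit false

open Set Metric Filter Topology TopologicalSpace

noncomputable section

namespace Pool.Agent.MP703675

/-! ### General tools for the recursion -/

theorem rec_seq {X : Type 1} (x0 : X) (Spec : ∀ i : ℕ, ((j : ℕ) → j ≤ i → X) → X → Prop)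
    (h : ∀ i H, ∃ x, Spec i H x) :
    ∃ s : ℕ → X, s 0 = x0 ∧ ∀ i, Spec i (fun j _ => s j) (s (i + 1)) := by
  let F : (n : ℕ) → ((m : ℕ) → m < n → X) → X := fun n =>
    Nat.casesOn (motive := fun n => ((m : ℕ) → m < n → X) → X) n (fun _ => x0)
      (fun i ih => (h i (fun j hj => ih j (Nat.lt_succ_of_le hj))).choose)
  let s : ℕ → X := WellFounded.fix (Nat.lt_wfRel.wf) F
  have hs : ∀ n, s n = F n (fun m _ => s m) := fun n => WellFounded.fix_eq _ F n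
  refine ⟨s, hs 0, fun i => ?_⟩
  rw [hs (i + 1)]
  exact (h i (fun j _ => s j)).choose_spec

theorem rec_min (i : ℕ) (Q : (m : ℕ) → m ≤ i → ℝ → Prop)
    (mono : ∀ m hm t t', Q m hm t → t' ≤ t → Q m hm t')
    (ex : ∀ m hm, ∃ t, 0 < t ∧ Q m hm t) : ∃ t, 0 < t ∧ ∀ m hm, Q m hm t := by
  choose f hf0 hf using ex
  obtain ⟨a, ha⟩ := Finite.exists_min (fun a : Fin (i + 1) => f a.1 (Nat.le_of_lt_succ a.2))
  exact ⟨_, hf0 a.1 (Nat.le_of_lt_succ a.2), fun m hm =>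
    mono m hm _ _ (hf m hm) (ha ⟨m, Nat.lt_succ_of_le hm⟩)⟩

theorem rec_enum (T : Type) [Countable T] [Nonempty T] :
    ∃ f : ℕ → T, ∀ t i0, ∃ i, i0 ≤ i ∧ f i = t := by
  obtain ⟨g, hg⟩ := exists_surjective_nat T
  refine ⟨fun i => g (Nat.unpair i).1, fun t i0 => ?_⟩
  obtain ⟨a, rfl⟩ := hg t
  exact ⟨Nat.pair a i0, Nat.right_le_pair _ _, by simp only [Nat.unpair_pair]⟩

theorem rec_sep (S : Sys) : ∃ F : ℕ → (S.E →L[ℝ] ℝ), ∀ z, (∀ i, F i z = 0) → z = 0 := by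
  let b := Module.finBasis ℝ S.E
  refine ⟨fun i => if h : i < Module.finrank ℝ S.E then
    LinearMap.toContinuousLinearMap (b.coord ⟨i, h⟩) else 0, fun z hz => ?_⟩
  refine b.forall_coord_eq_zero_iff.mp fun i => ?_
  have h1 := hz i.1
  simp only [dif_pos i.2] at h1
  exact h1

/-- bundled maps between systems -/
abbrev Arr : Type 1 := Σ X Y : Sys, (Y.E →L[ℝ] X.E)

open Classical in
/-- decoding of a bundled map -/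
def dec (a : Arr) (X Y : Sys) : Y.E →L[ℝ] X.E :=
  if h : ∃ f : Y.E →L[ℝ] X.E, a = ⟨X, Y, f⟩ then h.choose else 0

theorem dec_mk (X Y : Sys) (f : Y.E →L[ℝ] X.E) : dec ⟨X, Y, f⟩ X Y = f := by
  have h : ∃ f' : Y.E →L[ℝ] X.E, (⟨X, Y, f⟩ : Arr) = ⟨X, Y, f'⟩ := ⟨f, rfl⟩
  unfold dec
  rw [dif_pos h]
  have h1 : ∀ f' : Y.E →L[ℝ] X.E, (⟨X, Y, f⟩ : Arr) = ⟨X, Y, f'⟩ → f' = f := by
    intro f' h2
    simp only [Sigma.mk.injEq, heq_eq_eq, true_and] at h2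
    exact h2.symm
  exact h1 _ h.choose_spec

/-! ### The first system -/

/-- the first system -/
@[reducible] def sys0 : Sys where
  E := ℝ
  K := fun v => Icc (-1) (cl01 ((v - 10) / 10))
  V := ContinuousLinearMap.id ℝ ℝ
  one := 1
  z0 := 0
  H := 10
  Om := Ioi (-1)

theorem sys0_ldi : LDI sys0.K := by
  intro R
  refine ⟨1, 1, zero_le_one, zero_le_one, fun z _ κ hκ => ?_, fun z z' _ _ κ hκ => ?_⟩
  · rw [Real.norm_eq_abs, abs_le]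
    exact ⟨hκ.1, hκ.2.trans (cl01_le_one _)⟩
  · have h0 := cl01_nonneg ((z' - 10) / 10)
    refine ⟨min κ (cl01 ((z' - 10) / 10)), ⟨le_min hκ.1 (by linarith), min_le_right _ _⟩, ?_⟩
    have h1 := cl01_lip.dist_le_mul ((z - 10) / 10) ((z' - 10) / 10)
    rw [Real.dist_eq, Real.dist_eq, NNReal.coe_one, one_mul] at h1
    have h2 : |(z - 10) / 10 - (z' - 10) / 10| ≤ |z - z'| := by
      have e : (z - 10) / 10 - (z' - 10) / 10 = (z - z') / 10 := by ring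
      rw [e, abs_div, abs_of_pos (by norm_num : (0 : ℝ) < 10)]
      have := abs_nonneg (z - z')
      linarith
    have h3 := le_abs_self (cl01 ((z - 10) / 10) - cl01 ((z' - 10) / 10))
    have h4 : κ ≤ cl01 ((z - 10) / 10) := hκ.2
    have h5 := abs_nonneg (z - z')
    rw [Real.norm_eq_abs, Real.norm_eq_abs, one_mul]
    rcases le_total κ (cl01 ((z' - 10) / 10)) with h | h
    · rw [min_eq_left h, sub_self, abs_zero]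
      exact h5
    · rw [min_eq_right h, abs_of_nonneg (by linarith)]
      linarith

theorem sys0_good : sys0.Good where
  H_pos := by norm_num
  V_one := rfl
  V_z0 := rfl
  convex := fun _ => convex_Icc _ _
  compact := fun _ => isCompact_Icc
  zero_mem := fun _ => ⟨by norm_num, cl01_nonneg _⟩
  ldi := sys0_ldi
  V_le := fun _ κ hκ => abs_le.mpr ⟨hκ.1, hκ.2.trans (cl01_le_one _)⟩
  irr := fun z _ hz κ hκ => by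
    have h1 : z ≤ 10 := hz
    have h2 : cl01 ((z - 10) / 10) = 0 := cl01_zero (by linarith)
    refine ⟨hκ.2.trans h2.le, -1, ⟨le_rfl, by rw [h2]; norm_num⟩, ?_⟩
    change κ = -κ * -1
    ring
  isOpen := isOpen_Ioi
  bdd := fun N => ⟨|N| + 1, fun z hz hN => by
    have h1 : -1 < z := hz
    have h2 : z ≤ N := hN
    have h3 := le_abs_self N
    have h4 := abs_nonneg N
    rw [Real.norm_eq_abs, abs_le]
    constructor <;> linarith⟩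
  farLaw := fun z _ hz κ => by
    have h1 : 3 * 10 ≤ z := hz
    have h2 : cl01 ((z - 10) / 10) = 1 := cl01_one (by linarith)
    constructor
    · intro hκ
      exact ⟨κ, abs_le.mpr ⟨hκ.1, hκ.2.trans h2.le⟩, (mul_one κ).symm⟩
    · rintro ⟨c, hc, rfl⟩
      obtain ⟨h3, h4⟩ := abs_le.mp hc
      exact ⟨by change -1 ≤ c * 1; linarith, by rw [h2]; change c * 1 ≤ 1; linarith⟩
  inv := by
    rintro Z a b ⟨-, hZ, T, -, h2, h3⟩ s hs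
    have h4 := hZ.le_rate_lin sys0_ldi.bddK (-ContinuousLinearMap.id ℝ ℝ) (ρ := 1)
      (fun s _ κ hκ => by
        have h5 : -1 ≤ κ := hκ.1
        change -κ ≤ 1
        linarith) le_rfl hs.1 hs.2
    have h5 : Z a = 0 + T * 1 := h3
    have h6 : -Z s - -Z a ≤ 1 * (s - a) := h4
    have h7 := hs.2
    change -1 < Z s
    linarith

theorem sys0_start : ∃ Z a b, sys0.Adm Z a b ∧ a ≤ b - 2 ∧ sys0.V (Z (b - 2)) < sys0.H := by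
  refine ⟨fun s => -s, -30, 0, ⟨by norm_num, ⟨0, fun s t _ _ _ => ⟨-1, ⟨le_rfl, ?_⟩, ?_⟩⟩,
    30, by norm_num, by norm_num, ?_⟩, by norm_num, ?_⟩
  · exact le_trans (by norm_num) (cl01_nonneg _)
  · have e : -t - -s - (t - s) • (-1 : ℝ) = 0 := by
      rw [smul_eq_mul]
      ring
    rw [e]
    simp
  · change -(-30 : ℝ) = 0 + 30 * 1
    norm_num
  · change -((0 : ℝ) - 2) < 10
    norm_num

/-! ### The coupling statements as predicates -/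

/-- the lock property -/
def Lock (A D S : Sys) (π : D.E →L[ℝ] A.E) (ψ : D.E →L[ℝ] S.E) (ζ : ℝ → S.E) (δ ε' : ℝ) : Prop :=
  ∀ Z a b, D.Adm Z a b → (∀ s ∈ Icc a b, A.V (π (Z s)) - D.V (Z s) ≤ δ) →
    ∀ s ∈ Icc a b, ‖ψ (Z s) - ζ (D.V (Z s))‖ ≤ ε'

def OffD (S : Sys) (ε' ϑ' γ : ℝ) (ζ : ℝ → S.E) (δ : ℝ) : Prop :=
  ∀ (A : Sys) (k n : ℕ) (par : ℕ → Par), A.Good → k < n →
    (∀ j, k ≤ j → j < n → (par j).Good) → ∑ j ∈ Finset.Ico k n, (par j).w ≤ ϑ' →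
    200 * S.H ≤ (par k).H → Growth par k n → ∀ β H0 : ℝ, 0 < β →
    ∃ (D : Sys) (π : D.E →L[ℝ] A.E) (ψ : D.E →L[ℝ] S.E) (n' : ℕ) (par' : ℕ → Par),
      (∀ j, j < n → par' j = par j) ∧ Block A n β H0 D π n' par' ∧
      (∃ ld, Tower S γ D ψ k n' par' ld (∑ j ∈ Finset.Ico k n, (par j).w + β)) ∧
      Lock A D S π ψ ζ δ ε'

def OffT (S : Sys) (ε' ϑ' : ℝ) : Prop :=
  ∀ (γ Tm Qc η : ℝ) (ζ g : ℝ → S.E), 1 / 3 ≤ γ → γ ≤ 3 → η ≤ ϑ' → Target S γ Tm Qc η ζ g →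
    ∃ δ : ℝ, 0 < δ ∧ OffD S ε' ϑ' γ ζ δ

theorem OffD.mono {S : Sys} {ε' ϑ' ϑ'' γ δ δ' : ℝ} {ζ : ℝ → S.E} (h : OffD S ε' ϑ' γ ζ δ)
    (h1 : ϑ'' ≤ ϑ') (h2 : δ' ≤ δ) : OffD S ε' ϑ'' γ ζ δ' := by
  intro A k n par a1 a2 a3 a4 a5 a6 β H0 a7
  obtain ⟨D, π, ψ, n', par', b1, b2, b3, b4⟩ := h A k n par a1 a2 a3 (a4.trans h1) a5 a6 β H0 a7
  exact ⟨D, π, ψ, n', par', b1, b2, b3, fun Z a b hZ hg =>
    b4 Z a b hZ fun s hs => (hg s hs).trans h2⟩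

theorem OffT.mono {S : Sys} {ε' ϑ' ϑ'' : ℝ} (h : OffT S ε' ϑ') (h1 : ϑ'' ≤ ϑ') :
    OffT S ε' ϑ'' := by
  intro γ Tm Qc η ζ g a1 a2 a3 a4
  obtain ⟨δ, b1, b2⟩ := h γ Tm Qc η ζ g a1 a2 (a3.trans h1) a4
  exact ⟨δ, b1, b2.mono h1 le_rfl⟩

theorem rec_off {S : Sys} (hS : S.Good) {ε' : ℝ} (hε : 0 < ε') : ∃ ϑ' : ℝ, 0 < ϑ' ∧ OffT S ε' ϑ' :=
  coupling_off hS hε

/-- closeness and the conditional lock property -/
def LockOn (B A D S : Sys) (pr : A.E →L[ℝ] B.E) (φ : S.E →L[ℝ] B.E) (π : D.E →L[ℝ] A.E)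
    (ψ : D.E →L[ℝ] S.E) (ζ : ℝ → S.E) (ε ϑ θ δ ε' : ℝ) : Prop :=
  (∀ Z a b, D.Adm Z a b → ∀ s ∈ Icc a b, B.Close ε (pr (π (Z s))) (φ (ψ (Z s)))) ∧
    ∀ Z a b, D.Adm Z a b → (∀ s ∈ Icc a b, A.V (π (Z s)) - D.V (Z s) ≤ δ) →
      (∀ s ∈ Icc a b, B.Dev θ (pr (π (Z s))) (φ (ζ (D.V (Z s)))) ϑ) →
      ∀ s ∈ Icc a b, ‖ψ (Z s) - ζ (D.V (Z s))‖ ≤ ε'

def OnD (B : Sys) (ε ϑ : ℝ) (S : Sys) (ε' ϑ' γ γ' : ℝ) (φ : S.E →L[ℝ] B.E) (ζ : ℝ → S.E)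
    (δ : ℝ) : Prop :=
  ∀ (A : Sys) (pr : A.E →L[ℝ] B.E) (m k n : ℕ) (par : ℕ → Par)
    (ld1 : LD S.E) (ld2 : LD A.E) (s1 s2 : ℝ), A.Good → k < n →
    Tower B γ' S φ m k par ld1 s1 → Tower B 1 A pr m n par ld2 s2 → s1 ≤ ϑ → s2 ≤ ϑ →
    ∑ j ∈ Finset.Ico m n, (par j).w ≤ ϑ → ∑ j ∈ Finset.Ico k n, (par j).w ≤ ϑ' →
    200 * S.H ≤ (par k).H → Growth par k n → ∀ β H0 : ℝ, 0 < β →
    ∃ (D : Sys) (π : D.E →L[ℝ] A.E) (ψ : D.E →L[ℝ] S.E) (n' : ℕ) (par' : ℕ → Par),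
      (∀ j, j < n → par' j = par j) ∧ Block A n β H0 D π n' par' ∧
      (∃ ld, Tower S γ D ψ k n' par' ld (∑ j ∈ Finset.Ico k n, (par j).w + β)) ∧
      LockOn B A D S pr φ π ψ ζ ε ϑ (γ * γ') δ ε'

def OnT (B : Sys) (ε ϑ : ℝ) (S : Sys) (ε' ϑ' : ℝ) : Prop :=
  ∀ (γ γ' Tm Qc η : ℝ) (φ : S.E →L[ℝ] B.E) (ζ g : ℝ → S.E), 1 / 3 ≤ γ → γ ≤ 3 →
    |γ * γ' - 1| ≤ ϑ → η ≤ ϑ' → Target S γ Tm Qc η ζ g →
    ∃ δ : ℝ, 0 < δ ∧ OnD B ε ϑ S ε' ϑ' γ γ' φ ζ δ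

def OnB (B : Sys) (ε ϑ : ℝ) : Prop :=
  ∀ (S : Sys) (ε' : ℝ), S.Good → 0 < ε' → ∃ ϑ' : ℝ, 0 < ϑ' ∧ OnT B ε ϑ S ε' ϑ'

theorem OnD.mono {B S : Sys} {ε ϑ ε' ϑ' ϑ'' γ γ' δ δ' : ℝ} {φ : S.E →L[ℝ] B.E} {ζ : ℝ → S.E}
    (h : OnD B ε ϑ S ε' ϑ' γ γ' φ ζ δ) (h1 : ϑ'' ≤ ϑ') (h2 : δ' ≤ δ) :
    OnD B ε ϑ S ε' ϑ'' γ γ' φ ζ δ' := by
  intro A pr m k n par ld1 ld2 s1 s2 a1 a2 a3 a4 a5 a6 a7 a8 a9 a10 β H0 a11
  obtain ⟨D, π, ψ, n', par', b1, b2, b3, b4, b5⟩ :=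
    h A pr m k n par ld1 ld2 s1 s2 a1 a2 a3 a4 a5 a6 a7 (a8.trans h1) a9 a10 β H0 a11
  exact ⟨D, π, ψ, n', par', b1, b2, b3, b4, fun Z a b hZ hg =>
    b5 Z a b hZ fun s hs => (hg s hs).trans h2⟩

theorem OnT.mono {B S : Sys} {ε ϑ ε' ϑ' ϑ'' : ℝ} (h : OnT B ε ϑ S ε' ϑ') (h1 : ϑ'' ≤ ϑ') :
    OnT B ε ϑ S ε' ϑ'' := by
  intro γ γ' Tm Qc η φ ζ g a1 a2 a3 a4 a5
  obtain ⟨δ, b1, b2⟩ := h γ γ' Tm Qc η φ ζ g a1 a2 a3 (a4.trans h1) a5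
  exact ⟨δ, b1, b2.mono h1 le_rfl⟩

theorem rec_on {B : Sys} (hB : B.Good) {ε : ℝ} (hε : 0 < ε) :
    ∃ ϑ : ℝ, 0 < ϑ ∧ ϑ ≤ 1 ∧ OnB B ε ϑ :=
  coupling_on hB hε

/-- the gate property -/
def GateP (B A D : Sys) (π0 : A.E →L[ℝ] B.E) (π : D.E →L[ℝ] A.E) (f : B.E →L[ℝ] ℝ)
    (τ lo hi gap : ℝ) : Prop :=
  ∃ Yc : D.E →L[ℝ] ℝ, ∀ Z a b, D.Adm Z a b → B.V (π0 (π (Z b))) ≤ τ - gap → Yc (Z b) ≠ 0 ∧
    ∀ s ∈ Icc a b, B.V (π0 (π (Z s))) = τ →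
      (f (π0 (π (Z s))) ≤ lo → 0 < Yc (Z b)) ∧ (hi ≤ f (π0 (π (Z s))) → Yc (Z b) < 0)

end Pool.Agent.MP703675
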