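import Pool.Agent.Lib.MP_703675_gt.RecurA

set_option autoImplicit false

open Set Metric Filter Topology TopologicalSpace

noncomputable section

namespace Pool.Agent.MP703675

/-- one stage of the construction -/
structure St : Type 1 where
  S : Sys
  l : ℕ
  par : ℕ → Par
  P : ℕ → Arr
  ψ : Arr
  γ : ℝ
  β : ℝ
  ϑ : ℝ
  e : ℝ
  η : ℝ

def prj (m : ℕ) (x y : St) : y.S.E →L[ℝ] x.S.E := dec (y.P m) x.S y.S

def cpl (x y : St) : y.S.E →L[ℝ] x.S.E := dec y.ψ x.S y.S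

/-- constants attached to one system -/
structure OwnC (k : ℕ) (S : Sys) (β ϑ e η : ℝ) : Prop where
  β_pos : 0 < β
  β_ϑ : 2 * β ≤ ϑ
  β_η : 2 * β ≤ η
  β_le : 4 * β ≤ (1 / 2) ^ k
  ϑ_le : ϑ ≤ 1
  onB : OnB S ((1 / 2) ^ k) ϑ
  e_pos : 0 < e
  e_le : e ≤ (1 / 2) ^ k
  e_small : ∀ v : S.E, ‖v‖ ≤ e → ‖S.J v‖ ≤ ϑ / 2 / 4 ∧ 2 * |S.V v| ≤ ϑ / 2 / 4
  η_le : 4 * η ≤ e
  offT : OffT S (e / 2) η

structure Own (k : ℕ) (x : St) : Prop where
  good : x.S.Good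
  H_ge : 10 ≤ x.S.H
  id : prj k x x = ContinuousLinearMap.id ℝ x.S.E
  c : OwnC k x.S x.β x.ϑ x.e x.η

structure Cross (m : ℕ) (B : Sys) (ϑ : ℝ) (S : Sys) (e η : ℝ) : Prop where
  onT : OnT B ((1 / 2) ^ m) ϑ S (e / 2) η
  small : (‖B.J‖ + 2 * ‖B.V‖) * (2 * η) ≤ ϑ / 2

structure Rel (m : ℕ) (x y : St) : Prop where
  lt : x.l < y.l
  agree : ∀ j, j < x.l → y.par j = x.par j
  tower : ∃ ld, Tower x.S 1 y.S (prj m x y) x.l y.l y.par ld (2 * x.β - 2 * y.β)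
  wsum : ∑ j ∈ Finset.Ico x.l y.l, (y.par j).w ≤ 2 * x.β - 2 * y.β
  H0 : 200 * x.S.H ≤ (y.par x.l).H
  growth : Growth y.par x.l y.l
  cross : Cross m x.S x.ϑ y.S y.e y.η

theorem rec_ownC {D : Sys} (hD : D.Good) (k : ℕ) : ∃ ϑ e η0 : ℝ, 0 < e ∧ 0 < η0 ∧
    ∀ η, 0 < η → η ≤ η0 → ∀ β0, 0 < β0 → ∃ β, 2 * β ≤ β0 ∧ OwnC k D β ϑ e η := by
  have hk : (0 : ℝ) < (1 / 2) ^ k := by positivity
  obtain ⟨ϑ, h0, h1, hon⟩ := rec_on hD hk
  obtain ⟨e, he, he1, he2⟩ : ∃ e : ℝ, 0 < e ∧ e ≤ (1 / 2) ^ k ∧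
      e * (‖D.J‖ + 2 * ‖D.V‖ + 1) ≤ ϑ / 8 :=
    ⟨min ((1 / 2) ^ k) (ϑ / 8 / (‖D.J‖ + 2 * ‖D.V‖ + 1)), lt_min hk (by positivity),
      min_le_left _ _, (le_div_iff₀ (by positivity)).mp (min_le_right _ _)⟩
  obtain ⟨ϑ', h2, hoff⟩ := rec_off hD (ε' := e / 2) (by linarith)
  refine ⟨ϑ, e, min ϑ' (e / 4), he, lt_min h2 (by linarith), fun η hη hη' β0 hβ0 => ?_⟩
  obtain ⟨t, t0, t1, t2, t3, t4⟩ : ∃ t : ℝ, 0 < t ∧ t ≤ β0 ∧ t ≤ ϑ ∧ t ≤ η ∧ t ≤ (1 / 2) ^ k :=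
    ⟨min (min β0 ϑ) (min η ((1 / 2) ^ k)), lt_min (lt_min hβ0 h0) (lt_min hη hk),
      (min_le_left _ _).trans (min_le_left _ _), (min_le_left _ _).trans (min_le_right _ _),
      (min_le_right _ _).trans (min_le_left _ _), (min_le_right _ _).trans (min_le_right _ _)⟩
  have h3 := hη'.trans (min_le_right _ _)
  refine ⟨t / 4, by linarith, by linarith, by linarith, by linarith, by linarith, h1, hon, he, he1,
    fun v hv => ?_, by linarith, hoff.mono (hη'.trans (min_le_left _ _))⟩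
  have a1 := (D.J.le_opNorm v).trans (mul_le_mul_of_nonneg_left hv (norm_nonneg _))
  have a2 : |D.V v| ≤ ‖D.V‖ * e :=
    (D.V.le_opNorm v).trans (mul_le_mul_of_nonneg_left hv (norm_nonneg _))
  have a3 : 0 ≤ ‖D.J‖ * e := by positivity
  have a4 : 0 ≤ ‖D.V‖ * e := by positivity
  constructor <;> linarith

theorem rec_cross {m : ℕ} {x : St} (hx : Own m x) {D : Sys} (hD : D.Good) {e : ℝ} (he : 0 < e) :
    ∃ t, 0 < t ∧ Cross m x.S x.ϑ D e t := by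
  obtain ⟨t, t0, t1⟩ := hx.c.onB D (e / 2) hD (by linarith)
  have h0 : 0 < x.ϑ := by linarith [hx.c.β_pos, hx.c.β_ϑ]
  have h1 : 0 < min t (x.ϑ / 4 / (‖x.S.J‖ + 2 * ‖x.S.V‖ + 1)) := lt_min t0 (by positivity)
  refine ⟨_, h1, t1.mono (min_le_left _ _), ?_⟩
  have h2 := (le_div_iff₀ (by positivity)).mp
    (min_le_right t (x.ϑ / 4 / (‖x.S.J‖ + 2 * ‖x.S.V‖ + 1)))
  linarith

theorem Cross.mono {m : ℕ} {B S : Sys} {ϑ e η η' : ℝ} (h : Cross m B ϑ S e η) (h1 : η' ≤ η) :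
    Cross m B ϑ S e η' :=
  ⟨h.onT.mono h1, le_trans (mul_le_mul_of_nonneg_left (by linarith) (by positivity)) h.small⟩

theorem rel_base {i : ℕ} {a y : St}
    (hb : Block a.S a.l a.β (200 * a.S.H) y.S (prj i a y) y.l y.par)
    (agree : ∀ j, j < a.l → y.par j = a.par j) (half : 2 * y.β ≤ a.β)
    (cross : Cross i a.S a.ϑ y.S y.e y.η) : Rel i a y := by
  obtain ⟨ld, hT⟩ := hb.tower
  exact ⟨hb.lt, agree, ⟨ld, hT.slk_mono (by linarith)⟩, hb.wsum.trans (by linarith), hb.H0_le,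
    hb.growth, cross⟩

theorem rel_step {m i : ℕ} {x a y : St} (h : Rel m x a) (ha : a.S.Good)
    (hb : Block a.S a.l a.β (200 * a.S.H) y.S (prj i a y) y.l y.par)
    (agree : ∀ j, j < a.l → y.par j = a.par j)
    (comp : prj m x y = (prj m x a).comp (prj i a y)) (half : 2 * y.β ≤ a.β)
    (cross : Cross m x.S x.ϑ y.S y.e y.η) : Rel m x y := by
  obtain ⟨ld, hT⟩ := hb.tower
  obtain ⟨ld', hT'⟩ := h.tower
  refine ⟨h.lt.trans hb.lt, fun j hj => (agree j (hj.trans h.lt)).trans (h.agree j hj), ?_, ?_, ?_,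
    ?_, cross⟩
  · rw [comp]
    exact ⟨_, (hT.comp (hT'.congr_par fun j _ hj => agree j hj)).slk_mono (by linarith)⟩
  · rw [← Finset.sum_Ico_consecutive _ h.lt.le hb.lt.le]
    have e : ∑ j ∈ Finset.Ico x.l a.l, (y.par j).w = ∑ j ∈ Finset.Ico x.l a.l, (a.par j).w :=
      Finset.sum_congr rfl fun j hj => by rw [agree j (Finset.mem_Ico.mp hj).2]
    have h1 := h.wsum
    have h2 := hb.wsum
    linarith
  · rw [agree _ h.lt]
    exact h.H0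
  · intro j h1 h2
    rcases lt_trichotomy (j + 1) a.l with h3 | h3 | h3
    · rw [agree j (by omega), agree (j + 1) h3]
      exact h.growth j h1 h3
    · have h4 := (hT'.lev_H j h1 (by omega)).2
      have h5 := hb.H0_le
      have h6 := ha.H_pos
      rw [agree j (by omega), h3]
      linarith
    · exact hb.growth j (by omega) h2

/-! ### Tasks -/

theorem rec_targets (S : Sys) (γ η : ℝ) : ∃ tz : ℕ × ℕ × ℕ → ℝ → S.E, S.Good → 1 / 3 ≤ γ →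
    γ ≤ 3 → 0 < η → ∀ w P, S.TPath w P → ∃ a Tm Qc g, Target S γ Tm Qc η (tz a) g ∧
      ∀ t, ‖tz a t - P (t / γ)‖ ≤ 2 * η := by
  choose fam hfam using fun Tm Qc : ℕ => target_family S γ Tm Qc η
  refine ⟨fun a => (fam a.1 a.2.1 a.2.2).1, fun hS h1 h2 hη w P hP => ?_⟩
  obtain ⟨Tn, Qn, ζ, g, h3, h4⟩ := exists_target hS hP h1 h2 hη
  obtain ⟨i, h5, h6⟩ := hfam Tn Qn ζ g h3 η hη
  refine ⟨(Tn, Qn, i), Tn, Qn, _, h5, fun t => ?_⟩
  have h7 := norm_sub_le_norm_sub_add_norm_sub ((fam Tn Qn i).1 t) (ζ t) (P (t / γ))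
  have h8 := h4 t
  have h9 := h6 t
  change ‖(fam Tn Qn i).1 t - P (t / γ)‖ ≤ 2 * η
  linarith

/-- countable family of targets -/
def tz (S : Sys) (γ η : ℝ) : ℕ × ℕ × ℕ → ℝ → S.E := (rec_targets S γ η).choose

/-- separating family of functionals -/
def sepF (S : Sys) : ℕ → (S.E →L[ℝ] ℝ) := (rec_sep S).choose

abbrev Task : Type :=
  (ℕ × ℕ × ℚ × ℚ × ℚ × ℚ) ⊕ (ℕ × ℚ × (ℕ × ℕ × ℕ) × ℕ) ⊕ (ℕ × ℕ × ℚ × (ℕ × ℕ × ℕ) × ℕ)

/-- a coupling tower with small slack -/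
def CplT (x : St) (γ : ℝ) (D : Sys) (ψ : D.E →L[ℝ] x.S.E) (n : ℕ) (par : ℕ → Par) : Prop :=
  ∃ ld slk, Tower x.S γ D ψ x.l n par ld slk ∧ slk ≤ x.ϑ

/-- the task is carried out -/
def Done (i : ℕ) (H : (j : ℕ) → j ≤ i → St) (D : Sys) (π : D.E →L[ℝ] (H i le_rfl).S.E) (n : ℕ)
    (par : ℕ → Par) (ψ : Arr) (γ0 : ℝ) : Task → Prop
  | Sum.inl (m, idx, τ, lo, hi, gap) => ∀ hm : m ≤ i, m < i → 0 < gap → (τ : ℝ) < (H m hm).S.H →
      lo < hi → GateP (H m hm).S (H i le_rfl).S D (prj m (H m hm) (H i le_rfl)) π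
        (sepF (H m hm).S idx) τ lo hi gap
  | Sum.inr (Sum.inl (k, γ, a, j)) => ∀ hk : k ≤ i, k < i →
      OffD (H k hk).S ((H k hk).e / 2) (H k hk).η γ (tz (H k hk).S γ (H k hk).η a) (1 / (j + 1)) →
      γ0 = γ ∧ CplT (H k hk) γ D (dec ψ (H k hk).S D) n par ∧
        Lock (H i le_rfl).S D (H k hk).S π (dec ψ (H k hk).S D) (tz (H k hk).S γ (H k hk).η a)
          (1 / (j + 1)) ((H k hk).e / 2)
  | Sum.inr (Sum.inr (m, k, γ, a, j)) => ∀ (hm : m ≤ i) (hk : k ≤ i), m < i → k < i →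
      CplT (H m hm) (H k hk).γ (H k hk).S (cpl (H m hm) (H k hk)) (H k hk).l (H k hk).par →
      OnD (H m hm).S ((1 / 2) ^ m) (H m hm).ϑ (H k hk).S ((H k hk).e / 2) (H k hk).η γ (H k hk).γ
        (cpl (H m hm) (H k hk)) (tz (H k hk).S γ (H k hk).η a) (1 / (j + 1)) →
      γ0 = γ ∧ CplT (H k hk) γ D (dec ψ (H k hk).S D) n par ∧
        LockOn (H m hm).S (H i le_rfl).S D (H k hk).S (prj m (H m hm) (H i le_rfl))
          (cpl (H m hm) (H k hk)) π (dec ψ (H k hk).S D) (tz (H k hk).S γ (H k hk).η a)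
          ((1 / 2) ^ m) (H m hm).ϑ (γ * (H k hk).γ) (1 / (j + 1)) ((H k hk).e / 2)

def Inv (i : ℕ) (H : (j : ℕ) → j ≤ i → St) : Prop :=
  (∀ m hm, Own m (H m hm)) ∧ ∀ m hm, m < i → Rel m (H m hm) (H i le_rfl)

/-- outcome of the geometric part of a step -/
def Geo (i : ℕ) (H : (j : ℕ) → j ≤ i → St) (t : Task) : Prop :=
  ∃ (D : Sys) (π : D.E →L[ℝ] (H i le_rfl).S.E) (n : ℕ) (par : ℕ → Par) (ψ : Arr) (γ0 : ℝ),
    (∀ j, j < (H i le_rfl).l → par j = (H i le_rfl).par j) ∧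
    Block (H i le_rfl).S (H i le_rfl).l (H i le_rfl).β (200 * (H i le_rfl).S.H) D π n par ∧
    Done i H D π n par ψ γ0 t

theorem geo_one {i : ℕ} {H : (j : ℕ) → j ≤ i → St} {t : Task} {D : Sys}
    {π : D.E →L[ℝ] (H i le_rfl).S.E} {q : Par}
    (hb : Block (H i le_rfl).S (H i le_rfl).l (H i le_rfl).β (200 * (H i le_rfl).S.H) D π
      ((H i le_rfl).l + 1) (fun _ => q)) (hd : ∀ n par ψ γ0, Done i H D π n par ψ γ0 t) :
    Geo i H t :=
  ⟨D, π, _, fun j => if j < (H i le_rfl).l then (H i le_rfl).par j else q,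
    ⟨D, D, ContinuousLinearMap.id ℝ D.E⟩, 0, fun _ hj => if_pos hj,
    hb.congr_par fun _ hj _ => if_neg (not_lt.mpr hj), hd _ _ _ _⟩

theorem geo_pure {i : ℕ} {H : (j : ℕ) → j ≤ i → St} (hI : Inv i H) {t : Task}
    (hd : ∀ D π n par ψ γ0, Done i H D π n par ψ γ0 t) : Geo i H t := by
  obtain ⟨D, π, q, hb⟩ := pure_block (hI.1 i le_rfl).good (H i le_rfl).l
    (hI.1 i le_rfl).c.β_pos (200 * (H i le_rfl).S.H)
  exact geo_one hb (hd D π)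

theorem geo_exists {i : ℕ} {H : (j : ℕ) → j ≤ i → St} (hI : Inv i H) (t : Task) : Geo i H t := by
  have ha := hI.1 i le_rfl
  have hβ := ha.c.β_pos
  rcases t with ⟨m, idx, τ, lo, hi, gap⟩ | ⟨k, γ, a, j⟩ | ⟨m, k, γ, a, j⟩
  · by_cases h : ∃ hm : m ≤ i, m < i ∧ 0 < gap ∧ (τ : ℝ) < (H m hm).S.H ∧ lo < hi
    · obtain ⟨hm, h1, h2, h3, h4⟩ := h
      have hx := hI.1 m hm
      obtain ⟨ld, hT⟩ := (hI.2 m hm h1).tower
      obtain ⟨D, π, q, Yc, hb, hg⟩ := gate_block hx.good ha.good hT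
        (by linarith [hx.c.β_ϑ, hx.c.ϑ_le]) (by linarith [hx.H_ge]) (sepF (H m hm).S idx)
        (gap := gap) (lo := lo) (hi := hi) (by exact_mod_cast h2) h3 (by exact_mod_cast h4)
        (H i le_rfl).l hβ (200 * (H i le_rfl).S.H)
      exact geo_one hb fun _ _ _ _ _ _ _ _ _ => ⟨Yc, hg⟩
    · exact geo_pure hI fun _ _ _ _ _ _ hm h1 h2 h3 h4 => (h ⟨hm, h1, h2, h3, h4⟩).elim
  · by_cases h : ∃ hk : k ≤ i, k < i ∧ OffD (H k hk).S ((H k hk).e / 2) (H k hk).η γ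
        (tz (H k hk).S γ (H k hk).η a) (1 / (j + 1))
    · obtain ⟨hk, h1, h2⟩ := h
      have hx := hI.1 k hk
      have hr := hI.2 k hk h1
      obtain ⟨ld, hT⟩ := hr.tower
      have hw := hr.wsum
      obtain ⟨D, π, ψ, n, par, b1, b2, ⟨ld', b3⟩, b4⟩ := h2 _ _ _ _ ha.good hr.lt hT.pgood
        (by linarith [hx.c.β_η]) hr.H0 hr.growth _ (200 * (H i le_rfl).S.H) hβ
      refine ⟨D, π, n, par, ⟨_, D, ψ⟩, γ, b1, b2, fun _ _ _ => ?_⟩
      rw [dec_mk]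
      exact ⟨rfl, ⟨ld', _, b3, by linarith [hx.c.β_ϑ]⟩, b4⟩
    · exact geo_pure hI fun _ _ _ _ _ _ hk h1 h2 => (h ⟨hk, h1, h2⟩).elim
  · by_cases h : ∃ (hm : m ≤ i) (hk : k ≤ i), m < i ∧ k < i ∧
        CplT (H m hm) (H k hk).γ (H k hk).S (cpl (H m hm) (H k hk)) (H k hk).l (H k hk).par ∧
        OnD (H m hm).S ((1 / 2) ^ m) (H m hm).ϑ (H k hk).S ((H k hk).e / 2) (H k hk).η γ
          (H k hk).γ (cpl (H m hm) (H k hk)) (tz (H k hk).S γ (H k hk).η a) (1 / (j + 1))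
    · obtain ⟨hm, hk, h0, h1, ⟨ld1, s1, c1, c2⟩, h2⟩ := h
      have hx := hI.1 k hk
      have hr := hI.2 k hk h1
      have hx' := hI.1 m hm
      have hr' := hI.2 m hm h0
      obtain ⟨ld, hT⟩ := hr'.tower
      have hw := hr.wsum
      have hw' := hr'.wsum
      obtain ⟨D, π, ψ, n, par, b1, b2, ⟨ld', b3⟩, b4⟩ := h2 _ _ _ _ _ _ _ _ _ _ ha.good hr.lt
        (c1.congr_par fun j _ hj => hr.agree j hj) hT c2 (by linarith [hx'.c.β_ϑ])
        (by linarith [hx'.c.β_ϑ]) (by linarith [hx.c.β_η]) hr.H0 hr.growth _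
        (200 * (H i le_rfl).S.H) hβ
      refine ⟨D, π, n, par, ⟨_, D, ψ⟩, γ, b1, b2, fun _ _ _ _ _ _ => ?_⟩
      rw [dec_mk]
      exact ⟨rfl, ⟨ld', _, b3, by linarith [hx.c.β_ϑ]⟩, b4⟩
    · exact geo_pure hI fun _ _ _ _ _ _ hm hk h0 h1 h2 h3 => (h ⟨hm, hk, h0, h1, h2, h3⟩).elim

/-- one step of the construction -/
structure Step (t : Task) (i : ℕ) (H : (j : ℕ) → j ≤ i → St) (y : St) : Prop where
  block : Block (H i le_rfl).S (H i le_rfl).l (H i le_rfl).β (200 * (H i le_rfl).S.H) y.S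
    (prj i (H i le_rfl) y) y.l y.par
  agree : ∀ j, j < (H i le_rfl).l → y.par j = (H i le_rfl).par j
  comp : ∀ m hm, prj m (H m hm) y = (prj m (H m hm) (H i le_rfl)).comp (prj i (H i le_rfl) y)
  own : Own (i + 1) y
  half : 2 * y.β ≤ (H i le_rfl).β
  cross : ∀ m hm, Cross m (H m hm).S (H m hm).ϑ y.S y.e y.η
  done : Done i H y.S (prj i (H i le_rfl) y) y.l y.par y.ψ y.γ t

theorem step_exists {i : ℕ} {H : (j : ℕ) → j ≤ i → St} (hI : Inv i H) (t : Task) :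
    ∃ y, Step t i H y := by
  obtain ⟨D, π, n, par, ψ, γ0, h1, h2, h3⟩ := geo_exists hI t
  have ha := hI.1 i le_rfl
  obtain ⟨ϑ, e, η0, he, hη0, hc⟩ := rec_ownC h2.good (i + 1)
  obtain ⟨η1, hη1, hcr⟩ := rec_min i (fun m hm t => Cross m (H m hm).S (H m hm).ϑ D e t)
    (fun _ _ _ _ h h' => h.mono h') (fun m hm => rec_cross (hI.1 m hm) h2.good he)
  obtain ⟨β, hβ, hown⟩ := hc (min η0 η1) (lt_min hη0 hη1) (min_le_left _ _) _ ha.c.β_pos
  let y : St := ⟨D, n, par, fun m => if h : m ≤ i then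
    ⟨(H m h).S, D, (prj m (H m h) (H i le_rfl)).comp π⟩ else ⟨D, D, ContinuousLinearMap.id ℝ D.E⟩,
    ψ, γ0, β, ϑ, e, min η0 η1⟩
  have e1 : ∀ m hm, prj m (H m hm) y = (prj m (H m hm) (H i le_rfl)).comp π := by
    intro m hm
    change dec (if h : m ≤ i then _ else _) _ D = _
    rw [dif_pos hm, dec_mk]
  have e2 : prj i (H i le_rfl) y = π := by
    rw [e1, ha.id]
    rfl
  have e3 : prj (i + 1) y y = ContinuousLinearMap.id ℝ D.E := by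
    change dec (if h : i + 1 ≤ i then _ else _) D D = _
    rw [dif_neg (by omega), dec_mk]
  refine ⟨y, by rw [e2]; exact h2, h1, fun m hm => by rw [e2, e1], ⟨h2.good, ?_, e3, hown⟩, hβ,
    fun m hm => (hcr m hm).mono (min_le_right _ _), by rw [e2]; exact h3⟩
  obtain ⟨ld, hT⟩ := h2.tower
  have h4 := hT.H_le
  have h5 := ha.H_ge
  change 10 ≤ D.H
  linarith

theorem rec_stages (tk : ℕ → Task) : ∃ s : ℕ → St, (s 0).S = sys0 ∧
    (∀ i, Step (tk i) i (fun j _ => s j) (s (i + 1))) ∧ (∀ k, Own k (s k)) ∧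
    ∀ m n, m < n → Rel m (s m) (s n) := by
  obtain ⟨ϑ, e, η0, -, hη0, hc⟩ := rec_ownC sys0_good 0
  obtain ⟨β, -, hown⟩ := hc η0 hη0 le_rfl 1 one_pos
  let x0 : St := ⟨sys0, 0, fun _ => ⟨0, 0, 0, 0, 0, 0⟩,
    fun _ => ⟨sys0, sys0, ContinuousLinearMap.id ℝ ℝ⟩, ⟨sys0, sys0, ContinuousLinearMap.id ℝ ℝ⟩,
    0, β, ϑ, e, η0⟩
  have h0 : Own 0 x0 := ⟨sys0_good, le_rfl, dec_mk _ _ _, hown⟩
  obtain ⟨s, hs0, hs⟩ := rec_seq x0 (fun i H y => Inv i H → Step (tk i) i H y) (fun i H => by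
    by_cases h : Inv i H
    · obtain ⟨y, hy⟩ := step_exists h (tk i)
      exact ⟨y, fun _ => hy⟩
    · exact ⟨x0, fun h' => (h h').elim⟩)
  have hI : ∀ i, Inv i (fun j _ => s j) := by
    intro i
    induction i with
    | zero =>
      refine ⟨fun m hm => ?_, fun m _ hm => absurd hm (Nat.not_lt_zero m)⟩
      obtain rfl : m = 0 := Nat.le_zero.mp hm
      change Own 0 (s 0)
      rw [hs0]
      exact h0
    | succ i ih =>
      have h := hs i ih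
      refine ⟨fun m hm => ?_, fun m _ hm => ?_⟩
      · rcases Nat.lt_or_eq_of_le hm with h1 | rfl
        · exact ih.1 m (Nat.le_of_lt_succ h1)
        · exact h.own
      · rcases Nat.lt_or_eq_of_le (Nat.le_of_lt_succ hm) with h1 | rfl
        · exact rel_step (ih.2 m h1.le h1) (ih.1 i le_rfl).good h.block h.agree (h.comp m h1.le)
            h.half (h.cross m h1.le)
        · exact rel_base h.block h.agree h.half (h.cross m le_rfl)
  exact ⟨s, by rw [hs0], fun i => hs i (hI i), fun k => (hI k).1 k le_rfl,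
    fun m n h => (hI n).2 m h.le h⟩

end Pool.Agent.MP703675
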