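import Pool.Agent.Lib.MP_703675_gt.TrackB

set_option autoImplicit false

open Set Metric Filter Topology TopologicalSpace

noncomputable section

namespace Pool.Agent.MP703675

namespace World

variable {Wd : World}

theorem Fam.burn {w : ℝ} {P : ∀ n, ℝ → (Wd.W n).E} (h : Wd.Fam w P) (n : ℕ) {t : ℝ} (ht : w ≤ t) :
    t ≤ (Wd.W n).V (P n t) ∧ (Wd.W n).V (P n t) - t ≤ (Wd.W n).V (P n w) - w := by
  refine ⟨(h.path n).le_V t ht, ?_⟩
  have h1 := (h.path n).V_lip (Wd.good n) t w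
  rw [abs_of_nonneg (sub_nonneg.2 ht)] at h1
  have h2 := le_abs_self ((Wd.W n).V (P n t) - (Wd.W n).V (P n w))
  linarith

theorem Fam.cut {w : ℝ} {P : ∀ n, ℝ → (Wd.W n).E} (h : Wd.Fam w P) {t : ℝ} (ht : w ≤ t) :
    Wd.Fam t (fun n s => P n (max s t)) := by
  refine ⟨fun n => (h.path n).cut (Wd.good n) ht, fun m n hmn s => h.compat m n hmn _, ?_⟩
  simp only [max_self]
  have h1 : Tendsto (fun n => (Wd.W n).V (P n w) - w + t) atTop (𝓝 (w - w + t)) :=
    (h.tail.sub_const w).add_const t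
  rw [sub_self, zero_add] at h1
  refine tendsto_of_tendsto_of_tendsto_of_le_of_le tendsto_const_nhds h1
    (fun n => (h.burn n ht).1) (fun n => ?_)
  have h2 := (h.burn n ht).2
  simp only
  linarith

theorem trk_Ici {S : Sys} (hS : S.Good) {w : ℝ} {P : ℝ → S.E} (hP : S.TPath w P) {T : ℝ}
    (hw : w ≤ T) (hT : 3 * S.H ≤ T) :
    S.trk P (Ici w) = S.trk (fun s => P (-s)) (Icc (-T) (-w)) := by
  have hH := hS.H_pos
  apply Subset.antisymm
  · rintro _ ⟨t, ht, rfl⟩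
    have ht' : w ≤ t := ht
    by_cases h : t ≤ T
    · exact ⟨-t, ⟨neg_le_neg h, neg_le_neg ht'⟩, by simp only [neg_neg]⟩
    · refine ⟨-T, ⟨le_rfl, neg_le_neg hw⟩, ?_⟩
      have h1 := hP.le_V t ht'
      have h2 := hP.le_V T hw
      have h3 := lt_of_not_ge h
      simp only [neg_neg]
      rw [S.Q_of_ge (by linarith), S.Q_of_ge (by linarith)]
  · rintro _ ⟨s, hs, rfl⟩
    exact ⟨-s, by have := hs.2; simp only [mem_Ici]; linarith, rfl⟩

/-- the track of a true time path is a member of the space of tracks -/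
theorem repA_exists {S : Sys} (hS : S.Good) {w : ℝ} {P : ℝ → S.E} (hP : S.TPath w P) :
    ∃ x ∈ S.Y, (x : Set (ℝ × S.E)) = S.trk P (Ici w) := by
  obtain ⟨x, hx, he⟩ := hS.exists_trk
    (hP.adm hS (le_max_left w (3 * S.H)) (le_max_right w (3 * S.H)))
  exact ⟨x, hx, he.trans (trk_Ici hS hP (le_max_left _ _) (le_max_right _ _)).symm⟩

theorem repA_mem {S : Sys} {w : ℝ} {P : ℝ → S.E} (hP : S.TPath w P) (t : ℝ) :
    S.Q (P t) ∈ S.trk P (Ici w) := by
  rcases le_total w t with h | h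
  · exact ⟨t, h, rfl⟩
  · exact ⟨w, le_refl w, by simp only [hP.const t h]⟩

theorem repA_side {S : Sys} {C : ℝ} (hC : 0 ≤ C) {P : ℝ → S.E}
    (h : ∀ t t', dist (S.Q (P t)) (S.Q (P t')) ≤ C * |t - t'|) (t t' : ℝ) :
    ∀ q ∈ S.trk P (Ici t), ∃ q' ∈ S.trk P (Ici t'), dist q q' ≤ C * |t - t'| := by
  rintro _ ⟨s, hs, rfl⟩
  have hs' : t ≤ s := hs
  refine ⟨S.Q (P (max s t')), ⟨max s t', le_max_right s t', rfl⟩, (h _ _).trans ?_⟩
  refine mul_le_mul_of_nonneg_left ?_ hC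
  rcases le_total s t' with h1 | h1
  · rw [max_eq_right h1, abs_of_nonpos (sub_nonpos.2 h1),
      abs_of_nonpos (sub_nonpos.2 (hs'.trans h1))]
    linarith
  · rw [max_eq_left h1, sub_self, abs_zero]
    exact abs_nonneg _

/-- Plan: all points lie on one track, use `Y_graph` and `TPath.V_lip`. -/
theorem trk_dist {S : Sys} (hS : S.Good) : ∃ C : ℝ, 0 < C ∧ ∀ (w : ℝ) (P : ℝ → S.E), S.TPath w P →
    (∀ t t', dist (S.Q (P t)) (S.Q (P t')) ≤ C * |t - t'|) ∧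
    ∀ (t t' : ℝ) (x x' : NonemptyCompacts (ℝ × S.E)), (x : Set (ℝ × S.E)) = S.trk P (Ici t) →
      (x' : Set (ℝ × S.E)) = S.trk P (Ici t') → dist x x' ≤ C * |t - t'| := by
  obtain ⟨B, hB, hg⟩ := hS.Y_graph
  refine ⟨B + 1, by linarith, fun w P hP => ?_⟩
  have key : ∀ t t', dist (S.Q (P t)) (S.Q (P t')) ≤ (B + 1) * |t - t'| := by
    intro t t'
    obtain ⟨x, hx, he⟩ := repA_exists hS hP
    have h1 := hg x hx (S.Q (P t)) (he ▸ repA_mem hP t) (S.Q (P t')) (he ▸ repA_mem hP t')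
    have h2 : |(S.Q (P t)).1 - (S.Q (P t')).1| ≤ |t - t'| :=
      (abs_min_sub_min_le_max _ _ _ _).trans
        (max_le (hP.V_lip hS t t') (by rw [sub_self, abs_zero]; exact abs_nonneg _))
    have h3 : 0 ≤ |t - t'| := abs_nonneg _
    have h4 : B * |(S.Q (P t)).1 - (S.Q (P t')).1| ≤ B * |t - t'| :=
      mul_le_mul_of_nonneg_left h2 hB.le
    have h5 : 0 ≤ B * |t - t'| := mul_nonneg hB.le h3
    rw [Prod.dist_eq, Real.dist_eq, dist_eq_norm]
    refine max_le ?_ ?_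
    · linarith
    · linarith
  refine ⟨key, fun t t' x x' hx hx' => ?_⟩
  have hC : 0 ≤ B + 1 := by linarith
  rw [NonemptyCompacts.dist_eq, hx, hx']
  refine hausdorffDist_le_of_mem_dist (mul_nonneg hC (abs_nonneg _)) (repA_side hC key t t') ?_
  rw [abs_sub_comm]
  exact repA_side hC key t' t

theorem Fam.exists_point {w : ℝ} {P : ∀ n, ℝ → (Wd.W n).E} (h : Wd.Fam w P) :
    ∃ x : Wd.X, Wd.Rep x w P := by
  choose x hx he using fun n => repA_exists (Wd.good n) (h.path n)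
  refine ⟨⟨x, hx, fun m n hmn => ?_⟩, h, he⟩
  have hw : w ≤ max w (3 * (Wd.W n).H) := le_max_left _ _
  have hT : 3 * (Wd.W n).H ≤ max w (3 * (Wd.W n).H) := le_max_right _ _
  have hH := (Wd.mor m n hmn).H_le
  have h1 := push_spec (Wd.good m) (Wd.good n) (Wd.mor m n hmn)
    ((h.path n).adm (Wd.good n) hw hT) ((he n).trans (trk_Ici (Wd.good n) (h.path n) hw hT))
  apply NonemptyCompacts.ext
  rw [h1, he m, trk_Ici (Wd.good m) (h.path m) hw (by linarith)]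
  simp only [h.compat m n hmn]

theorem Rep.vm_eq {x : Wd.X} {w : ℝ} {P : ∀ n, ℝ → (Wd.W n).E} (h : Wd.Rep x w P) (n : ℕ) :
    vm (x.1 n) = min ((Wd.W n).V (P n w)) (Wd.W n).H := by
  have hw : w ≤ max w (3 * (Wd.W n).H) := le_max_left _ _
  have hT : 3 * (Wd.W n).H ≤ max w (3 * (Wd.W n).H) := le_max_right _ _
  have h1 := (Wd.good n).vm_trk ((h.1.path n).adm (Wd.good n) hw hT)
    ((h.2 n).trans (trk_Ici (Wd.good n) (h.1.path n) hw hT))
  simpa only [neg_neg] using h1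

theorem repA_H_tendsto (Wd : World) : Tendsto (fun n => (Wd.W n).H) atTop atTop := by
  refine tendsto_atTop_mono (fun n => ?_) tendsto_natCast_atTop_atTop
  have h1 := Wd.H_ge n
  have h2 : (0 : ℝ) ≤ n := Nat.cast_nonneg n
  linarith

theorem repA_lt {w : ℝ} {P : ∀ n, ℝ → (Wd.W n).E} (h : Wd.Fam w P) :
    ∀ᶠ n in atTop, (Wd.W n).V (P n w) < (Wd.W n).H := by
  filter_upwards [h.tail.eventually (gt_mem_nhds (lt_add_one w)),
    (repA_H_tendsto Wd).eventually_ge_atTop (w + 1)] with n h1 h2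
  exact lt_of_lt_of_le h1 h2

theorem repA_vm_tendsto {x : Wd.X} {w : ℝ} {P : ∀ n, ℝ → (Wd.W n).E} (h : Wd.Rep x w P) :
    Tendsto (fun n => vm (x.1 n)) atTop (𝓝 w) := by
  refine h.1.tail.congr' ?_
  filter_upwards [repA_lt h.1] with n hn
  rw [h.vm_eq n, min_eq_left hn.le]

theorem Rep.ne_root {x : Wd.X} {w : ℝ} {P : ∀ n, ℝ → (Wd.W n).E} (h : Wd.Rep x w P) :
    x ≠ Wd.root := by
  intro he
  obtain ⟨n, hn⟩ := (repA_lt h.1).exists
  have h1 : (Wd.W n).Q (P n w) ∈ (x.1 n : Set (ℝ × (Wd.W n).E)) := by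
    rw [h.2 n]
    exact repA_mem (h.1.path n) w
  rw [he] at h1
  have h2 : (Wd.W n).Q (P n w) = ((Wd.W n).H, 0) := h1
  have h3 : min ((Wd.W n).V (P n w)) (Wd.W n).H = (Wd.W n).H := congrArg Prod.fst h2
  rw [min_eq_left hn.le] at h3
  exact hn.ne h3

theorem Rep.cut_le {y z : Wd.X} {t t' : ℝ} {P : ∀ n, ℝ → (Wd.W n).E}
    (hy : Wd.Rep y t (fun n s => P n (max s t))) (hz : Wd.Rep z t' (fun n s => P n (max s t')))
    (htt : t ≤ t') : Wd.le z y := by
  intro n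
  rw [hy.2 n, hz.2 n]
  rintro _ ⟨s, hs, rfl⟩
  have hs' : t' ≤ s := hs
  exact ⟨s, htt.trans hs', by simp only [max_eq_left hs', max_eq_left (htt.trans hs')]⟩

theorem Rep.cut_le' {x y : Wd.X} {w t : ℝ} {P : ∀ n, ℝ → (Wd.W n).E} (hx : Wd.Rep x w P)
    (hy : Wd.Rep y t (fun n s => P n (max s t))) (ht : w ≤ t) : Wd.le y x := by
  intro n
  rw [hy.2 n, hx.2 n]
  rintro _ ⟨s, hs, rfl⟩
  have hs' : t ≤ s := hs
  exact ⟨s, ht.trans hs', by simp only [max_eq_left hs']⟩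

theorem Rep.w_unique {x : Wd.X} {w w' : ℝ} {P P' : ∀ n, ℝ → (Wd.W n).E} (h : Wd.Rep x w P)
    (h' : Wd.Rep x w' P') : w = w' :=
  tendsto_nhds_unique (repA_vm_tendsto h) (repA_vm_tendsto h')

/-- two subtracks of one track with the same lowest level coincide -/
theorem repA_eq {x y z : Wd.X} (hy : Wd.le y x) (hz : Wd.le z x) {n : ℕ}
    (h : vm (y.1 n) = vm (z.1 n)) : y.1 n = z.1 n := by
  apply NonemptyCompacts.ext
  rw [(Wd.good n).Y_subset (y.2.1 n) (x.2.1 n) (hy n),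
    (Wd.good n).Y_subset (z.2.1 n) (x.2.1 n) (hz n), h]

theorem repA_down {y z : Wd.X} {m n : ℕ} (hmn : m ≤ n) (h : y.1 n = z.1 n) : y.1 m = z.1 m := by
  rw [← y.2.2 m n hmn, ← z.2.2 m n hmn, h]

/-- Plan: the sets `I n = {t ≥ w | min (V (P n t)) H = vm (y n)}` are closed, nonempty,
decreasing in `n`, and bounded as soon as `vm (y n) < H`. -/
theorem Rep.of_le {x y : Wd.X} {w : ℝ} {P : ∀ n, ℝ → (Wd.W n).E} (hx : Wd.Rep x w P)
    (hy : Wd.le y x) (hr : y ≠ Wd.root) :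
    ∃ t, w ≤ t ∧ Wd.Rep y t (fun n s => P n (max s t)) := by
  have hc : ∀ t, w ≤ t → ∃ c : Wd.X, Wd.Rep c t (fun n s => P n (max s t)) :=
    fun t ht => (hx.1.cut ht).exists_point
  let I : ℕ → Set ℝ := fun n =>
    {t | w ≤ t ∧ min ((Wd.W n).V (P n t)) (Wd.W n).H = vm (y.1 n)}
  have hI : ∀ n t (c : Wd.X), w ≤ t → Wd.Rep c t (fun n s => P n (max s t)) →
      (t ∈ I n ↔ c.1 n = y.1 n) := by
    intro n t c ht hct
    have h1 := hct.vm_eq n
    simp only [max_self] at h1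
    constructor
    · intro h
      exact repA_eq (hx.cut_le' hct ht) hy (h1.trans h.2)
    · intro h
      exact ⟨ht, by rw [← h1, h]⟩
  have hanti : ∀ m n, m ≤ n → I n ⊆ I m := by
    intro m n hmn t ht
    obtain ⟨c, hct⟩ := hc t ht.1
    exact (hI m t c ht.1 hct).2 (repA_down hmn ((hI n t c ht.1 hct).1 ht))
  have hne : ∀ n, (I n).Nonempty := by
    intro n
    obtain ⟨q, hq, he⟩ := vm_mem (y.1 n)
    have h1 := hy n hq
    rw [hx.2 n] at h1
    obtain ⟨t, ht, rfl⟩ := h1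
    exact ⟨t, ht, he⟩
  have hcl : ∀ n, IsClosed (I n) := by
    intro n
    have h1 : Continuous fun t => (Wd.W n).V (P n t) := by
      refine (LipschitzWith.of_dist_le_mul (K := 1) fun t t' => ?_).continuous
      rw [Real.dist_eq, Real.dist_eq, NNReal.coe_one, one_mul]
      exact (hx.1.path n).V_lip (Wd.good n) t t'
    exact isClosed_Ici.inter (isClosed_eq (h1.min continuous_const) continuous_const)
  obtain ⟨m, hm⟩ := Wd.ne_root hr
  have hcp : IsCompact (I m) := by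
    refine (isCompact_Icc (a := w) (b := (Wd.W m).H)).of_isClosed_subset (hcl m) fun t ht => ?_
    refine ⟨ht.1, ?_⟩
    have h1 := (hx.1.path m).le_V t ht.1
    have h2 := ht.2
    rcases le_total ((Wd.W m).V (P m t)) (Wd.W m).H with h3 | h3
    · linarith
    · rw [min_eq_right h3] at h2
      linarith
  obtain ⟨t, ht⟩ := IsCompact.nonempty_iInter_of_sequence_nonempty_isCompact_isClosed
    (fun i => I (m + i)) (fun i => hanti _ _ (Nat.le_succ _)) (fun i => hne _) hcp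
    (fun i => hcl _)
  have ht' : ∀ n, t ∈ I n := fun n => hanti n (m + n) (Nat.le_add_left n m) (mem_iInter.1 ht n)
  obtain ⟨c, hct⟩ := hc t (ht' 0).1
  have he : c = y := Subtype.ext (funext fun n => (hI n t c (ht' 0).1 hct).1 (ht' n))
  exact ⟨t, (ht' 0).1, he ▸ hct⟩

theorem repA_burn {x z : Wd.X} {P : ∀ n, ℝ → (Wd.W n).E} (hx : Wd.Rep x 0 P)
    (hz : Wd.le x z) {m n : ℕ} (hmn : m ≤ n) (hn : (Wd.W n).V (P n 0) < (Wd.W n).H) :
    vm (x.1 m) - (Wd.W n).V (P n 0) ≤ vm (z.1 m) := by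
  obtain ⟨Z, a, b, hZ, he⟩ := z.2.1 n
  have hM := Wd.mor m n hmn
  have h1 : (Wd.W n).Q (P n 0) ∈ (x.1 n : Set (ℝ × (Wd.W n).E)) := by
    rw [hx.2 n]
    exact repA_mem (hx.1.path n) 0
  have h2 := hz n h1
  rw [he] at h2
  obtain ⟨s, hs, hs'⟩ := h2
  have h3 : P n 0 = Z s := (Wd.W n).Q_inj hn hs'.symm
  have h4 := hM.burn Z a b hZ s b hs.1 hs.2 le_rfl
  have h5 := (Wd.good n).adm_V_ge hZ (s := b) ⟨hZ.1, le_rfl⟩
  have h6 := push_spec (Wd.good m) (Wd.good n) hM hZ he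
  rw [z.2.2 m n hmn] at h6
  have h7 := (Wd.good m).vm_trk (hM.adm_one hZ) h6
  have h8 := (hx.1.path n).le_V 0 le_rfl
  rw [← h3, hx.1.compat m n hmn 0] at h4
  rw [h7, hx.vm_eq m]
  have h9 := min_le_left ((Wd.W m).V (P m 0)) (Wd.W m).H
  have h10 := min_le_right ((Wd.W m).V (P m 0)) (Wd.W m).H
  refine le_min ?_ ?_
  · linarith
  · linarith

/-- Plan: for a witness of `z n` the field `burn` of `Mor` gives
`vm (x m) - vm (z m) ≤ vm (x n)`, which tends to zero; then `Y_subset`. -/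
theorem Rep.max_of_zero {x z : Wd.X} {P : ∀ n, ℝ → (Wd.W n).E} (hx : Wd.Rep x 0 P)
    (hz : Wd.le x z) : z = x := by
  refine Subtype.ext (funext fun m => ?_)
  have h1 : vm (x.1 m) ≤ vm (z.1 m) := by
    have h2 : Tendsto (fun n => vm (x.1 m) - (Wd.W n).V (P n 0)) atTop (𝓝 (vm (x.1 m) - 0)) :=
      hx.1.tail.const_sub _
    rw [sub_zero] at h2
    refine le_of_tendsto h2 ?_
    filter_upwards [repA_lt hx.1, eventually_ge_atTop m] with n hn hmn
    exact repA_burn hx hz hmn hn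
  apply NonemptyCompacts.ext
  rw [(Wd.good m).Y_subset (x.2.1 m) (z.2.1 m) (hz m)]
  ext q
  exact ⟨fun hq => ⟨hq, h1.trans (vm_le _ hq)⟩, fun hq => hq.1⟩

end World

end Pool.Agent.MP703675
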