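import Pool.Agent.Lib.MP_703675_gt.Tool
import Pool.Agent.Lib.MP_703675_gt.Traj2

set_option autoImplicit false

open Set Metric Filter Topology TopologicalSpace

noncomputable section

namespace Pool.Agent.MP703675

variable {L : Sys} {g : SP L} {q : Par} {Kd Cs ρ : ℝ}

theorem sel_Y_pos (H : g.Hyp q Kd Cs ρ) : 0 < g.Y := by
  have := H.goodq.c_pos
  rw [H.Y_eq]; positivity

theorem sel_zeta_smooth (H : g.Hyp q Kd Cs ρ) : ContDiff ℝ 2 g.ζ :=
  (H.smooth2.sub H.smooth1).div_const 2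

theorem sel_zeta_far (H : g.Hyp q Kd Cs ρ) {z : L.E} (hz : z ∈ L.Om) (hV : 3 * L.H ≤ L.V z)
    {u : L.E} (hu : u ∈ L.K z) : fderiv ℝ g.ζ z u = 0 := by
  obtain ⟨c, -, rfl⟩ := (H.goodL.farLaw z hz hV u).1 hu
  have h1 : HasFDerivAt g.Φ1 (fderiv ℝ g.Φ1 z) z :=
    (H.smooth1.differentiable (by norm_num) z).hasFDerivAt
  have h2 : HasFDerivAt g.Φ2 (fderiv ℝ g.Φ2 z) z :=
    (H.smooth2.differentiable (by norm_num) z).hasFDerivAt
  have h3 : HasFDerivAt g.ζ ((2 : ℝ)⁻¹ • (fderiv ℝ g.Φ2 z - fderiv ℝ g.Φ1 z)) z := by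
    have h4 := (h2.sub h1).const_smul (2 : ℝ)⁻¹
    have e : g.ζ = (2 : ℝ)⁻¹ • (g.Φ2 - g.Φ1) := by
      funext x
      simp only [SP.ζ, Pi.smul_apply, Pi.sub_apply, smul_eq_mul]
      ring
    rw [e]; exact h4
  rw [h3.fderiv]
  simp [H.far1 z hz hV, H.far2 z hz hV]

theorem selA_j_nonneg (H : g.Hyp q Kd Cs ρ) (y : ℝ) : 0 ≤ g.j y := by
  have hY := sel_Y_pos H
  exact div_nonneg (deriv_st_nonneg _) (by positivity)

theorem sel_wt_ge (H : g.Hyp q Kd Cs ρ) (x y : ℝ) : 1 ≤ g.wt x y := by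
  have hY := sel_Y_pos H
  have h1 : 0 ≤ 5 * g.Y * g.m x * g.j y :=
    mul_nonneg (mul_nonneg (by positivity) (st_nonneg _)) (selA_j_nonneg H _)
  have h2 : 0 ≤ 5 * g.Y * g.m (-x) * g.j (-y) :=
    mul_nonneg (mul_nonneg (by positivity) (st_nonneg _)) (selA_j_nonneg H _)
  unfold SP.wt
  linarith

theorem selA_mul_mem {a b : ℝ} (ha : 0 ≤ a ∧ a ≤ 1) (hb : 0 ≤ b ∧ b ≤ 1) :
    0 ≤ a * b ∧ a * b ≤ 1 :=
  ⟨mul_nonneg ha.1 hb.1, mul_le_one₀ ha.2 hb.1 hb.2⟩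

theorem selA_one_sub_mem {a : ℝ} (ha : 0 ≤ a ∧ a ≤ 1) : 0 ≤ 1 - a ∧ 1 - a ≤ 1 :=
  ⟨by linarith [ha.2], by linarith [ha.1]⟩

theorem selA_st_mem (x : ℝ) : 0 ≤ st x ∧ st x ≤ 1 := ⟨st_nonneg x, st_le_one x⟩

theorem selA_pl_mem (u v x : ℝ) : 0 ≤ pl u v x ∧ pl u v x ≤ 1 :=
  ⟨pl_nonneg u v x, pl_le_one u v x⟩

theorem sel_drift_mem (x y : ℝ) : 0 ≤ g.drift x y ∧ g.drift x y ≤ 1 :=
  selA_mul_mem (selA_mul_mem (selA_st_mem _) (selA_one_sub_mem
    (selA_mul_mem (selA_one_sub_mem (selA_st_mem _)) (selA_one_sub_mem (selA_st_mem _)))))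
    (selA_st_mem _)

theorem sel_drift_zero (H : g.Hyp q Kd Cs ρ) {x : ℝ} (hx : x ≤ g.ra) (y : ℝ) :
    g.drift x y = 0 := by
  have h1 := H.r5_pos
  have h2 := H.ra_le
  have hn : g.n x = 0 :=
    st_zero (div_nonpos_of_nonpos_of_nonneg (by linarith) (by linarith))
  unfold SP.drift
  rw [hn, zero_mul, zero_mul]

theorem selA_div_mem {a c : ℝ} (ha : 0 ≤ a ∧ a ≤ 1) (hc : 1 ≤ c) : 0 ≤ a / c ∧ a / c ≤ 1 :=
  ⟨div_nonneg ha.1 (by linarith), (div_le_one (by linarith)).2 (by linarith [ha.2])⟩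

theorem sel_sp_mem (H : g.Hyp q Kd Cs ρ) (w : L.E × ℝ) :
    0 ≤ g.site.spP w ∧ g.site.spP w ≤ 1 ∧ 0 ≤ g.site.spM w ∧ g.site.spM w ≤ 1 := by
  have h1 : 0 ≤ g.site.spP w ∧ g.site.spP w ≤ 1 :=
    selA_div_mem (selA_mul_mem (selA_pl_mem _ _ _) (selA_st_mem _)) (sel_wt_ge H _ _)
  have h2 : 0 ≤ g.site.spM w ∧ g.site.spM w ≤ 1 :=
    selA_div_mem (selA_mul_mem (selA_pl_mem _ _ _) (selA_st_mem _)) (sel_wt_ge H _ _)
  exact ⟨h1.1, h1.2, h2.1, h2.2⟩

theorem selA_T0_eq (H : g.Hyp q Kd Cs ρ) (y : ℝ) :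
    g.T0 y = g.Y / 10 * (rmp (17 - 10 * (y / g.Y)) - rmp (-16 - 10 * (y / g.Y))) := by
  have hY := (sel_Y_pos H).ne'
  have e1 : (17 / 10 * g.Y - y) / (g.Y / 10) = 17 - 10 * (y / g.Y) := by field_simp
  have e2 : (-(16 / 10 * g.Y) - y) / (g.Y / 10) = -16 - 10 * (y / g.Y) := by field_simp
  unfold SP.T0
  rw [e1, e2]

theorem sel_T0_mem (H : g.Hyp q Kd Cs ρ) (y : ℝ) : 0 ≤ g.T0 y ∧ g.T0 y ≤ 33 / 10 * g.Y := by
  have hY := sel_Y_pos H
  rw [selA_T0_eq H]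
  have hle : -16 - 10 * (y / g.Y) ≤ 17 - 10 * (y / g.Y) := by linarith
  have h1 := rmp_mono hle
  have h2 := rmp_sub_le hle
  constructor
  · exact mul_nonneg (by positivity) (by linarith)
  · calc _ ≤ g.Y / 10 * 33 := mul_le_mul_of_nonneg_left (by linarith) (by positivity)
      _ = _ := by ring

theorem selA_chi_neg (x : ℝ) : g.chi (-x) = g.chi x := pl_neg _ _ _

theorem selA_J_zero (H : g.Hyp q Kd Cs ρ) {y : ℝ} (hy : -(12 / 10 * g.Y) ≤ y) : g.J y = 0 := by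
  have hY := sel_Y_pos H
  exact st_zero (div_nonpos_of_nonpos_of_nonneg (by linarith) (by positivity))

theorem selA_J_one (H : g.Hyp q Kd Cs ρ) {y : ℝ} (hy : y ≤ -(14 / 10 * g.Y)) : g.J y = 1 := by
  have hY := sel_Y_pos H
  exact st_one ((one_le_div (by positivity)).2 (by linarith))

theorem selA_m_zero (H : g.Hyp q Kd Cs ρ) {x : ℝ} (hx : x ≤ 0) : g.m x = 0 :=
  st_zero (div_nonpos_of_nonpos_of_nonneg hx H.ra_pos.le)

/-- the unnatural sign is invalid above the bump -/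
theorem sel_gap1 (H : g.Hyp q Kd Cs ρ) {x y : ℝ} (hx : g.ra ≤ x) (hy : -(12 / 10 * g.Y) ≤ y) :
    g.chi x * g.Y ≤ g.Tt (-x) (-y) - g.Tt x y := by
  have hY := sel_Y_pos H
  have hra := H.ra_pos
  have h1 : g.m x = 1 := st_one ((one_le_div hra).2 hx)
  have h2 : g.m (-x) = 0 := selA_m_zero H (by linarith)
  have h3 : g.J y = 0 := selA_J_zero H hy
  have h4 := (sel_T0_mem H y).2
  have h5 := (sel_T0_mem H (-y)).1
  have hc : 0 ≤ g.chi x := pl_nonneg _ _ _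
  unfold SP.Tt
  rw [neg_neg, neg_neg, selA_chi_neg, h1, h2, h3, ← mul_sub]
  exact mul_le_mul_of_nonneg_left (by linarith) hc

theorem selA_rmp_gap {t : ℝ} (ht : 15 ≤ t) :
    30 ≤ (rmp (17 + t) - rmp (-16 + t)) - (rmp (17 - t) - rmp (-16 - t)) := by
  have h0 : rmp (-16 - t) = 0 := rmp_zero (by linarith)
  rcases le_total t 16 with h | h
  · have h1 : rmp (-16 + t) = 0 := rmp_zero (by linarith)
    have h2 := rmp_sub_eq (x := 17 - t) (y := 17 + t) (by linarith) (by linarith)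
    linarith
  · have h1 := rmp_ge (17 + t)
    have h2 : rmp (-16 + t) ≤ -16 + t :=
      (rmp_le _).trans (max_le le_rfl (by linarith))
    have h3 : rmp (17 - t) ≤ 1 := (rmp_le _).trans (max_le (by linarith) zero_le_one)
    linarith

theorem selA_T0_gap (H : g.Hyp q Kd Cs ρ) {y : ℝ} (hy : 15 / 10 * g.Y ≤ y) :
    3 * g.Y ≤ g.T0 (-y) - g.T0 y := by
  have hY := sel_Y_pos H
  have ht : 15 ≤ 10 * (y / g.Y) := by
    have : 15 / 10 ≤ y / g.Y := (le_div_iff₀ hY).2 hy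
    linarith
  have h := selA_rmp_gap ht
  rw [selA_T0_eq H, selA_T0_eq H, ← mul_sub]
  have e1 : 17 - 10 * (-y / g.Y) = 17 + 10 * (y / g.Y) := by ring
  have e2 : -16 - 10 * (-y / g.Y) = -16 + 10 * (y / g.Y) := by ring
  rw [e1, e2]
  calc 3 * g.Y = g.Y / 10 * 30 := by ring
    _ ≤ _ := mul_le_mul_of_nonneg_left h (by positivity)

/-- the inward sign is invalid outside the core -/
theorem sel_gap2 (H : g.Hyp q Kd Cs ρ) (x : ℝ) {y : ℝ} (hy : 15 / 10 * g.Y ≤ y) :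
    g.chi x * (3 * g.Y) ≤ g.Tt (-x) (-y) - g.Tt x y := by
  have hY := sel_Y_pos H
  have h1 : g.J y = 0 := selA_J_zero H (by linarith)
  have h2 : g.J (-y) = 1 := selA_J_one H (by linarith)
  have h3 := selA_T0_gap H hy
  have h4 : 0 ≤ 5 * g.Y * g.m x := mul_nonneg (by positivity) (st_nonneg _)
  have h5 : 0 ≤ 5 * g.Y * g.m (-x) := mul_nonneg (by positivity) (st_nonneg _)
  have hc : 0 ≤ g.chi x := pl_nonneg _ _ _
  unfold SP.Tt
  rw [neg_neg, neg_neg, selA_chi_neg, h1, h2, ← mul_sub]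
  exact mul_le_mul_of_nonneg_left (by linarith) hc

theorem selA_st_comp {E : Type} [NormedAddCommGroup E] [NormedSpace ℝ E] {n : ℕ} {f : E → ℝ}
    (hf : ContDiff ℝ n f) : ContDiff ℝ n (fun x => st (f x)) := (st_smooth n).comp hf

theorem selA_a_smooth (n : ℕ) : ContDiff ℝ n g.a := pl_smooth _ _ n
theorem selA_chi_smooth (n : ℕ) : ContDiff ℝ n g.chi := pl_smooth _ _ n
theorem selA_b_smooth (n : ℕ) : ContDiff ℝ n g.b := pl_smooth _ _ n
theorem selA_ex_smooth (n : ℕ) : ContDiff ℝ n g.ex :=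
  selA_st_comp ((contDiff_id.sub contDiff_const).div_const _)
theorem selA_n_smooth (n : ℕ) : ContDiff ℝ n g.n :=
  selA_st_comp ((contDiff_id.sub contDiff_const).div_const _)
theorem selA_m_smooth (n : ℕ) : ContDiff ℝ n g.m :=
  selA_st_comp (contDiff_id.div_const _)
theorem selA_bar_smooth (n : ℕ) : ContDiff ℝ n g.bar :=
  contDiff_const.add (contDiff_const.mul
    (selA_st_comp ((contDiff_id.sub contDiff_const).div_const _)))
theorem selA_lay_smooth (n : ℕ) : ContDiff ℝ n g.lay :=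
  selA_st_comp ((contDiff_id.add contDiff_const).div_const _)
theorem selA_room_smooth (n : ℕ) : ContDiff ℝ n g.room :=
  selA_st_comp ((contDiff_const.sub contDiff_id).div_const _)
theorem selA_J_smooth (n : ℕ) : ContDiff ℝ n g.J :=
  selA_st_comp ((contDiff_const.sub contDiff_id).div_const _)
theorem selA_j_smooth (n : ℕ) : ContDiff ℝ n g.j :=
  ((deriv_st_smooth n).comp ((contDiff_const.sub contDiff_id).div_const _)).div_const _
theorem selA_T0_smooth (n : ℕ) : ContDiff ℝ n g.T0 :=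
  contDiff_const.mul
    (((rmp_smooth n).comp ((contDiff_const.sub contDiff_id).div_const _)).sub
      ((rmp_smooth n).comp ((contDiff_const.sub contDiff_id).div_const _)))
theorem selA_al3_smooth (n : ℕ) : ContDiff ℝ n g.al3 :=
  selA_st_comp (contDiff_const.sub ((contDiff_const.mul contDiff_id).div_const _))

section comp

variable {E : Type} [NormedAddCommGroup E] [NormedSpace ℝ E] {n : ℕ} {f h : E → ℝ}

theorem selA_Tt_comp (hf : ContDiff ℝ n f) (hh : ContDiff ℝ n h) :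
    ContDiff ℝ n (fun w => g.Tt (f w) (h w)) :=
  ((selA_chi_smooth n).comp hf).mul
    ((((selA_T0_smooth n).comp hh).add
      ((contDiff_const.mul ((selA_m_smooth n).comp hf)).mul ((selA_J_smooth n).comp hh))).add
      ((contDiff_const.mul ((selA_m_smooth n).comp hf.neg)).mul
        (contDiff_const.sub ((selA_J_smooth n).comp hh.neg))))

theorem selA_wt_comp (hf : ContDiff ℝ n f) (hh : ContDiff ℝ n h) :
    ContDiff ℝ n (fun w => g.wt (f w) (h w)) :=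
  (contDiff_const.add
      ((contDiff_const.mul ((selA_m_smooth n).comp hf)).mul ((selA_j_smooth n).comp hh))).add
      ((contDiff_const.mul ((selA_m_smooth n).comp hf.neg)).mul ((selA_j_smooth n).comp hh.neg))

theorem selA_drift_comp (hf : ContDiff ℝ n f) (hh : ContDiff ℝ n h) :
    ContDiff ℝ n (fun w => g.drift (f w) (h w)) :=
  (((selA_n_smooth n).comp hf).mul (contDiff_const.sub
    ((contDiff_const.sub ((selA_lay_smooth n).comp hh)).mul
      (contDiff_const.sub ((selA_ex_smooth n).comp hf))))).mul ((selA_room_smooth n).comp hh)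

end comp

theorem selA_z2 (H : g.Hyp q Kd Cs ρ) :
    ContDiff ℝ (2 : ℕ) (fun w : L.E × ℝ => g.ζ w.1) := (sel_zeta_smooth H).comp contDiff_fst

theorem selA_z1 (H : g.Hyp q Kd Cs ρ) :
    ContDiff ℝ (1 : ℕ) (fun w : L.E × ℝ => g.ζ w.1) := (selA_z2 H).of_le (by norm_num)

theorem selA_V_smooth (n : ℕ) : ContDiff ℝ n (fun w : L.E × ℝ => g.al3 (L.V w.1)) :=
  (selA_al3_smooth n).comp (L.V.contDiff.comp contDiff_fst)

theorem sel_th_smooth (H : g.Hyp q Kd Cs ρ) : ContDiff ℝ 2 g.site.th :=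
  ((contDiff_const.mul ((selA_a_smooth 2).comp (selA_z2 H))).mul
    ((selA_b_smooth 2).comp contDiff_snd)).mul (selA_V_smooth 2)

theorem selA_T_true : g.site.T true = fun w => g.Tt (g.ζ w.1) w.2 := rfl
theorem selA_T_false : g.site.T false = fun w => g.Tt (-g.ζ w.1) (-w.2) := rfl

theorem sel_T_smooth (H : g.Hyp q Kd Cs ρ) (b : Bool) : ContDiff ℝ 2 (g.site.T b) := by
  cases b
  · rw [selA_T_false]
    exact selA_Tt_comp (n := 2) (selA_z2 H).neg contDiff_snd.neg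
  · rw [selA_T_true]
    exact selA_Tt_comp (n := 2) (selA_z2 H) contDiff_snd

theorem sel_fo_smooth (H : g.Hyp q Kd Cs ρ) : ContDiff ℝ 1 g.site.fo :=
  (contDiff_const.mul (selA_V_smooth 1)).mul
    ((selA_drift_comp (n := 1) (selA_z1 H) contDiff_snd).sub
      (selA_drift_comp (n := 1) (selA_z1 H).neg contDiff_snd.neg))

theorem selA_wt_ne (H : g.Hyp q Kd Cs ρ) (x y : ℝ) : g.wt x y ≠ 0 := by
  have := sel_wt_ge H x y
  linarith

theorem sel_spP_smooth (H : g.Hyp q Kd Cs ρ) : ContDiff ℝ 1 g.site.spP :=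
  (((selA_chi_smooth 1).comp (selA_z1 H)).mul ((selA_room_smooth 1).comp contDiff_snd)).div
    (selA_wt_comp (n := 1) (selA_z1 H) contDiff_snd) (fun _ => selA_wt_ne H _ _)

theorem sel_spM_smooth (H : g.Hyp q Kd Cs ρ) : ContDiff ℝ 1 g.site.spM :=
  (((selA_chi_smooth 1).comp (selA_z1 H)).mul ((selA_room_smooth 1).comp contDiff_snd.neg)).div
    (selA_wt_comp (n := 1) (selA_z1 H) contDiff_snd) (fun _ => selA_wt_ne H _ _)

theorem selA_th_eq (w : L.E × ℝ) :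
    g.site.th w = g.k0 * g.a (g.ζ w.1) * g.b w.2 * g.al3 (L.V w.1) := rfl

theorem sel_th_bd (H : g.Hyp q Kd Cs ρ) (w : L.E × ℝ) :
    0 ≤ g.site.th w ∧ g.site.th w ≤ q.k0 := by
  have hk := H.goodq.k0_pos
  have h : 0 ≤ g.a (g.ζ w.1) * g.b w.2 * g.al3 (L.V w.1) ∧
      g.a (g.ζ w.1) * g.b w.2 * g.al3 (L.V w.1) ≤ 1 :=
    selA_mul_mem (selA_mul_mem (selA_pl_mem _ _ _) (selA_pl_mem _ _ _)) (selA_st_mem _)
  have e : g.site.th w = q.k0 * (g.a (g.ζ w.1) * g.b w.2 * g.al3 (L.V w.1)) := by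
    rw [selA_th_eq, H.k0_eq]; ring
  rw [e]
  exact ⟨mul_nonneg hk.le h.1, mul_le_of_le_one_right hk.le h.2⟩

theorem selA_al3_zero (H : g.Hyp q Kd Cs ρ) {v : ℝ} (hv : q.H / 8 ≤ v) : g.al3 v = 0 := by
  have hH := H.goodq.H_pos
  refine st_zero ?_
  rw [H.H_eq]
  have : 2 ≤ 16 * v / q.H := (le_div_iff₀ hH).2 (by linarith)
  linarith

theorem sel_th_act (H : g.Hyp q Kd Cs ρ) (w : L.E × ℝ) (h : 0 < g.site.th w) :
    L.V w.1 ≤ q.H / 8 ∧ |g.ζ w.1| < 4 / 10 * g.r5 ∧ |w.2| < 16 / 10 * g.Y := by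
  have hY := sel_Y_pos H
  have hr := H.r5_pos
  rw [selA_th_eq] at h
  refine ⟨?_, ?_, ?_⟩
  · by_contra hc
    rw [selA_al3_zero H (not_le.1 hc).le, mul_zero] at h
    exact lt_irrefl _ h
  · by_contra hc
    have : g.a (g.ζ w.1) = 0 := pl_zero (by linarith) (not_lt.1 hc)
    rw [this, mul_zero, zero_mul, zero_mul] at h
    exact lt_irrefl _ h
  · by_contra hc
    have : g.b w.2 = 0 := pl_zero (by linarith) (not_lt.1 hc)
    rw [this, mul_zero, zero_mul] at h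
    exact lt_irrefl _ h

theorem sel_fo_act (H : g.Hyp q Kd Cs ρ) (w : L.E × ℝ) (h : q.H / 8 ≤ L.V w.1) :
    g.site.fo w = 0 := by
  change g.k * g.al3 (L.V w.1) * _ = 0
  rw [selA_al3_zero H h, mul_zero, zero_mul]

theorem selA_Tt_bd (H : g.Hyp q Kd Cs ρ) (x y : ℝ) : 0 ≤ g.Tt x y ∧ g.Tt x y ≤ q.c := by
  have hY := sel_Y_pos H
  have hc : q.c = 10 * g.Y := by rw [H.Y_eq]; ring
  have h0 := sel_T0_mem H y
  have h1 : 0 ≤ g.m x * g.J y ∧ g.m x * g.J y ≤ 1 := selA_mul_mem (selA_st_mem _) (selA_st_mem _)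
  have h2 : 0 ≤ g.m (-x) * (1 - g.J (-y)) ∧ g.m (-x) * (1 - g.J (-y)) ≤ 1 :=
    selA_mul_mem (selA_st_mem _) (selA_one_sub_mem (selA_st_mem _))
  have h3 : g.m x * g.J y + g.m (-x) * (1 - g.J (-y)) ≤ 1 := by
    rcases le_total x 0 with hx | hx
    · rw [selA_m_zero H hx, zero_mul, zero_add]; exact h2.2
    · rw [selA_m_zero H (x := -x) (by linarith), zero_mul, add_zero]; exact h1.2
  have h4 : 0 ≤ 5 * g.Y * (g.m x * g.J y + g.m (-x) * (1 - g.J (-y))) :=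
    mul_nonneg (by positivity) (add_nonneg h1.1 h2.1)
  have h5 : 5 * g.Y * (g.m x * g.J y + g.m (-x) * (1 - g.J (-y))) ≤ 5 * g.Y :=
    mul_le_of_le_one_right (by positivity) h3
  have e : g.Tt x y =
      g.chi x * (g.T0 y + 5 * g.Y * (g.m x * g.J y + g.m (-x) * (1 - g.J (-y)))) := by
    unfold SP.Tt; ring
  have hc0 : 0 ≤ g.chi x := pl_nonneg _ _ _
  have hc1 : g.chi x ≤ 1 := pl_le_one _ _ _
  rw [e]
  refine ⟨mul_nonneg hc0 (add_nonneg h0.1 h4), ?_⟩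
  refine (mul_le_of_le_one_left (add_nonneg h0.1 h4) hc1).trans ?_
  linarith [h0.2]

theorem sel_T_bd (H : g.Hyp q Kd Cs ρ) (w : L.E × ℝ) (b : Bool) :
    0 ≤ g.site.T b w ∧ g.site.T b w ≤ q.c := by
  cases b
  · exact selA_Tt_bd H _ _
  · exact selA_Tt_bd H _ _

theorem sel_isOpen (H : g.Hyp q Kd Cs ρ) : IsOpen g.site.O := by
  have hz : Continuous (fun w : L.E × ℝ => g.ζ w.1) := (selA_z2 H).continuous
  have hb : Continuous g.bar := (selA_bar_smooth 1).continuous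
  exact (isOpen_lt continuous_snd.abs continuous_const).inter
    ((isOpen_lt hz.abs continuous_const).inter
      ((isOpen_lt ((hb.comp hz).sub continuous_const) continuous_snd).inter
        (isOpen_lt ((hb.comp hz.neg).sub continuous_const) continuous_snd.neg)))

theorem selA_far {F : ℝ × ℝ → ℝ} (hF : ContDiff ℝ (1 : ℕ) F) (H : g.Hyp q Kd Cs ρ)
    (w : L.E × ℝ) (hw : w.1 ∈ L.Om) (hV : 3 * L.H ≤ L.V w.1) :
    fderiv ℝ (fun w : L.E × ℝ => F (g.ζ w.1, w.2)) w (L.one, 0) = 0 := by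
  have hone : L.one ∈ L.K w.1 :=
    (H.goodL.farLaw w.1 hw hV _).2 ⟨1, by norm_num, (one_smul ℝ _).symm⟩
  have h0 := sel_zeta_far H hw hV hone
  have h1 : HasFDerivAt g.ζ (fderiv ℝ g.ζ w.1) w.1 :=
    ((sel_zeta_smooth H).differentiable (by norm_num) w.1).hasFDerivAt
  have h2 : HasFDerivAt (fun w : L.E × ℝ => (g.ζ w.1, w.2))
      (((fderiv ℝ g.ζ w.1).comp (ContinuousLinearMap.fst ℝ L.E ℝ)).prod
        (ContinuousLinearMap.snd ℝ L.E ℝ)) w :=
    (h1.comp w hasFDerivAt_fst).prodMk hasFDerivAt_snd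
  have h3 : HasFDerivAt F (fderiv ℝ F (g.ζ w.1, w.2)) (g.ζ w.1, w.2) :=
    (hF.differentiable (by norm_num) _).hasFDerivAt
  have h4 := (h3.comp w h2).fderiv
  change fderiv ℝ (F ∘ fun w : L.E × ℝ => (g.ζ w.1, w.2)) w (L.one, 0) = 0
  rw [h4, ContinuousLinearMap.comp_apply, ContinuousLinearMap.prod_apply,
    ContinuousLinearMap.comp_apply]
  change fderiv ℝ F (g.ζ w.1, w.2) (fderiv ℝ g.ζ w.1 L.one, 0) = 0
  rw [h0]
  exact map_zero _

theorem sel_far_T (H : g.Hyp q Kd Cs ρ) (w : L.E × ℝ) (hw : w.1 ∈ L.Om) (hV : 3 * L.H ≤ L.V w.1)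
    (b : Bool) : fderiv ℝ (g.site.T b) w (L.one, 0) = 0 := by
  cases b
  · exact selA_far (F := fun p => g.Tt (-p.1) (-p.2))
      (selA_Tt_comp contDiff_fst.neg contDiff_snd.neg) H w hw hV
  · exact selA_far (F := fun p => g.Tt p.1 p.2)
      (selA_Tt_comp contDiff_fst contDiff_snd) H w hw hV

/-- derivative in the direction of the site variable -/
theorem selA_fd {E : Type} [NormedAddCommGroup E] [NormedSpace ℝ E] {f : E × ℝ → ℝ} {w : E × ℝ}
    (hf : DifferentiableAt ℝ f w) {D : ℝ} (hD : HasDerivAt (fun t => f (w.1, t)) D w.2) (p : ℝ) :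
    fderiv ℝ f w (0, p) = D * p := by
  have h1 : HasDerivAt (fun t : ℝ => (w.1, t)) ((0 : E), (1 : ℝ)) w.2 :=
    (hasDerivAt_const _ _).prodMk (hasDerivAt_id _)
  have h2 : HasDerivAt (fun t => f (w.1, t)) (fderiv ℝ f w ((0 : E), (1 : ℝ))) w.2 :=
    HasFDerivAt.comp_hasDerivAt (f := fun t : ℝ => (w.1, t)) w.2 hf.hasFDerivAt h1
  have h3 := h2.unique hD
  have e : ((0 : E), p) = p • ((0 : E), (1 : ℝ)) := by simp
  rw [e, map_smul, h3, smul_eq_mul, mul_comm]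

/-- minus the derivative of `T0` -/
def selA_w0 (g : SP L) (y : ℝ) : ℝ := st (17 - 10 * (y / g.Y)) - st (-16 - 10 * (y / g.Y))

theorem selA_w0_mem (y : ℝ) : 0 ≤ selA_w0 g y ∧ selA_w0 g y ≤ 1 := by
  have h1 : st (-16 - 10 * (y / g.Y)) ≤ st (17 - 10 * (y / g.Y)) := st_mono (by linarith)
  have h2 := st_le_one (17 - 10 * (y / g.Y))
  have h3 := st_nonneg (-16 - 10 * (y / g.Y))
  unfold selA_w0
  constructor <;> linarith

theorem selA_w0_one (H : g.Hyp q Kd Cs ρ) {y : ℝ} (hy : |y| ≤ 16 / 10 * g.Y) :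
    selA_w0 g y = 1 := by
  have hY := sel_Y_pos H
  obtain ⟨h1, h2⟩ := abs_le.1 hy
  have h3 : y / g.Y ≤ 16 / 10 := (div_le_iff₀ hY).2 h2
  have h4 : -(16 / 10) ≤ y / g.Y := (le_div_iff₀ hY).2 (by linarith)
  unfold selA_w0
  rw [st_one (by linarith), st_zero (by linarith), sub_zero]

theorem selA_T0_deriv (H : g.Hyp q Kd Cs ρ) (y : ℝ) : HasDerivAt g.T0 (-selA_w0 g y) y := by
  have hY := (sel_Y_pos H).ne'
  have h0 : ∀ c : ℝ, HasDerivAt (fun t : ℝ => rmp (c - 10 * (t / g.Y)))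
      (st (c - 10 * (y / g.Y)) * (-(10 * (1 / g.Y)))) y := fun c =>
    (rmp_hasDerivAt _).comp y ((((hasDerivAt_id y).div_const g.Y).const_mul 10).const_sub c)
  have h1 := ((h0 17).sub (h0 (-16))).const_mul (g.Y / 10)
  have e : g.T0 = fun t => g.Y / 10 * (rmp (17 - 10 * (t / g.Y)) - rmp (-16 - 10 * (t / g.Y))) :=
    funext (selA_T0_eq H)
  rw [e]
  refine h1.congr_deriv ?_
  unfold selA_w0
  field_simp
  ring

theorem selA_J_deriv (y : ℝ) : HasDerivAt g.J (-g.j y) y := by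
  have h1 := (st_hasDerivAt _).comp y
    (((hasDerivAt_id y).const_sub (-(12 / 10 * g.Y))).div_const (2 / 10 * g.Y))
  refine h1.congr_deriv ?_
  unfold SP.j
  simp only [id]
  ring

/-- derivative of `Tt x` -/
theorem selA_Tt_deriv (H : g.Hyp q Kd Cs ρ) (x y : ℝ) :
    HasDerivAt (g.Tt x) (-(g.chi x * (selA_w0 g y + (g.wt x y - 1)))) y := by
  have h1 := selA_T0_deriv H y
  have h2 := (selA_J_deriv (g := g) y).const_mul (5 * g.Y * g.m x)
  have h3 := (((selA_J_deriv (g := g) (-y)).comp y (hasDerivAt_neg y)).const_sub 1).const_mul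
    (5 * g.Y * g.m (-x))
  have h4 := ((h1.add h2).add h3).const_mul (g.chi x)
  refine h4.congr_deriv ?_
  unfold SP.wt
  ring

theorem selA_wt_neg (x y : ℝ) : g.wt (-x) (-y) = g.wt x y := by
  unfold SP.wt
  rw [neg_neg, neg_neg]; ring

theorem selA_fd_true (H : g.Hyp q Kd Cs ρ) (w : L.E × ℝ) (p : ℝ) :
    fderiv ℝ (g.site.T true) w (0, p) =
      -(g.chi (g.ζ w.1) * (selA_w0 g w.2 + (g.wt (g.ζ w.1) w.2 - 1))) * p :=
  selA_fd ((sel_T_smooth H true).differentiable (by norm_num) w)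
    (selA_Tt_deriv H (g.ζ w.1) w.2) p

theorem selA_fd_false (H : g.Hyp q Kd Cs ρ) (w : L.E × ℝ) (p : ℝ) :
    fderiv ℝ (g.site.T false) w (0, p) =
      g.chi (g.ζ w.1) * (selA_w0 g (-w.2) + (g.wt (g.ζ w.1) w.2 - 1)) * p := by
  refine selA_fd ((sel_T_smooth H false).differentiable (by norm_num) w) ?_ p
  have h := (selA_Tt_deriv H (-g.ζ w.1) (-w.2)).comp w.2 (hasDerivAt_neg w.2)
  refine h.congr_deriv ?_
  rw [selA_chi_neg, selA_wt_neg]
  ring

theorem selA_arith {c u W e : ℝ} (hc : 0 ≤ c ∧ c ≤ 1) (hu : 0 ≤ u ∧ u ≤ 1) (hW : 1 ≤ W)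
    (he : 0 ≤ e ∧ e ≤ 1) :
    0 ≤ c * (u + (W - 1)) * (e / W) ∧ c * (u + (W - 1)) * (e / W) ≤ 1 := by
  have hW0 : 0 < W := by linarith
  have h1 : 0 ≤ (u + (W - 1)) / W ∧ (u + (W - 1)) / W ≤ 1 :=
    ⟨div_nonneg (by linarith [hu.1]) hW0.le, (div_le_one hW0).2 (by linarith [hu.2])⟩
  have e1 : c * (u + (W - 1)) * (e / W) = c * ((u + (W - 1)) / W) * e := by ring
  rw [e1]
  exact selA_mul_mem (selA_mul_mem hc h1) he

theorem selA_psh_true (w : L.E × ℝ) :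
    g.site.psh true w = g.chi (g.ζ w.1) * g.room w.2 / g.wt (g.ζ w.1) w.2 := rfl

theorem selA_psh_false (w : L.E × ℝ) :
    g.site.psh false w = -(g.chi (g.ζ w.1) * g.room (-w.2) / g.wt (g.ζ w.1) w.2) := rfl

/-- The derivative of `Tt x` in `y` is `-chi x * (w0 y + (wt x y - 1))` with `0 ≤ w0 ≤ 1` and
`w0 = 1` on `|y| ≤ 1.6 Y`; `wt (-x) (-y) = wt x y`. -/
theorem sel_lead_push (H : g.Hyp q Kd Cs ρ) (w : L.E × ℝ) (b b' : Bool) :
    fderiv ℝ (g.site.T b) w (0, g.site.psh b' w) ≤ 1 := by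
  have hc : 0 ≤ g.chi (g.ζ w.1) ∧ g.chi (g.ζ w.1) ≤ 1 := selA_pl_mem _ _ _
  have hW := sel_wt_ge H (g.ζ w.1) w.2
  have hP : 0 ≤ g.chi (g.ζ w.1) * g.room w.2 ∧ g.chi (g.ζ w.1) * g.room w.2 ≤ 1 :=
    selA_mul_mem hc (selA_st_mem _)
  have hM : 0 ≤ g.chi (g.ζ w.1) * g.room (-w.2) ∧ g.chi (g.ζ w.1) * g.room (-w.2) ≤ 1 :=
    selA_mul_mem hc (selA_st_mem _)
  cases b <;> cases b'
  · have := (selA_arith hc (selA_w0_mem (g := g) (-w.2)) hW hM).1
    rw [selA_fd_false H, selA_psh_false, mul_neg]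
    linarith
  · rw [selA_fd_false H, selA_psh_true]
    exact (selA_arith hc (selA_w0_mem (g := g) (-w.2)) hW hP).2
  · rw [selA_fd_true H, selA_psh_false, neg_mul_neg]
    exact (selA_arith hc (selA_w0_mem (g := g) w.2) hW hM).2
  · have := (selA_arith hc (selA_w0_mem (g := g) w.2) hW hP).1
    rw [selA_fd_true H, selA_psh_true, neg_mul]
    linarith

theorem selA_fd_th (H : g.Hyp q Kd Cs ρ) (w : L.E × ℝ) (p : ℝ) :
    fderiv ℝ g.site.th w (0, p) =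
      g.k0 * g.a (g.ζ w.1) * g.al3 (L.V w.1) * (deriv g.b w.2 * p) := by
  have hb : HasDerivAt g.b (deriv g.b w.2) w.2 :=
    ((selA_b_smooth 1).differentiable (by norm_num) w.2).hasDerivAt
  have h := (hb.const_mul (g.k0 * g.a (g.ζ w.1))).mul_const (g.al3 (L.V w.1))
  rw [selA_fd ((sel_th_smooth H).differentiable (by norm_num) w) h p]
  ring

theorem sel_resp_push (H : g.Hyp q Kd Cs ρ) (w : L.E × ℝ) (h : 0 < g.site.th w) (b : Bool)
    (hb : g.site.valid b w) : fderiv ℝ (g.site.T b) w (0, g.site.psh b w) ≤ -1 ∧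
      fderiv ℝ g.site.th w (0, g.site.psh b w) ≤ 0 := by
  have hY := sel_Y_pos H
  have hr := H.r5_pos
  have hrs := H.rs_le
  obtain ⟨-, hz, hy⟩ := sel_th_act H w h
  obtain ⟨hy1, hy2⟩ := abs_lt.1 hy
  have hc : g.chi (g.ζ w.1) = 1 := pl_one (by linarith) hz.le
  have hP : g.room w.2 = 1 := st_one ((one_le_div (by positivity)).2 (by linarith))
  have hM : g.room (-w.2) = 1 := st_one ((one_le_div (by positivity)).2 (by linarith))
  have hW := sel_wt_ge H (g.ζ w.1) w.2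
  have hW0 : 0 < g.wt (g.ζ w.1) w.2 := by linarith
  have hk : 0 ≤ g.k0 * g.a (g.ζ w.1) * g.al3 (L.V w.1) :=
    mul_nonneg (mul_nonneg (by rw [H.k0_eq]; exact H.goodq.k0_pos.le) (pl_nonneg _ _ _))
      (st_nonneg _)
  have huv : 15 / 10 * g.Y < 16 / 10 * g.Y := by linarith
  cases b
  · have hv : g.Tt (-g.ζ w.1) (-w.2) ≤ g.Tt (g.ζ w.1) w.2 + g.rs := hb
    have hy' : w.2 ≤ 15 / 10 * g.Y := by
      by_contra hn
      have := sel_gap2 H (g.ζ w.1) (not_le.1 hn).le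
      rw [hc] at this
      linarith
    have hd : 0 ≤ deriv g.b w.2 := pl_deriv_nonneg huv hy'
    rw [selA_fd_false H, selA_fd_th H, selA_psh_false, hc, hM,
      selA_w0_one H (by rw [abs_neg]; exact hy.le)]
    constructor
    · apply le_of_eq
      field_simp
      ring
    · refine mul_nonpos_of_nonneg_of_nonpos hk (mul_nonpos_of_nonneg_of_nonpos hd ?_)
      exact neg_nonpos.2 (by positivity)
  · have hv : g.Tt (g.ζ w.1) w.2 ≤ g.Tt (-g.ζ w.1) (-w.2) + g.rs := hb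
    have hy' : -(15 / 10 * g.Y) ≤ w.2 := by
      by_contra hn
      have := sel_gap2 H (-g.ζ w.1) (y := -w.2) (by linarith [not_le.1 hn])
      rw [selA_chi_neg, hc, neg_neg, neg_neg] at this
      linarith
    have hd : deriv g.b w.2 ≤ 0 := pl_deriv_nonpos huv hy'
    rw [selA_fd_true H, selA_fd_th H, selA_psh_true, hc, hP, selA_w0_one H hy.le]
    constructor
    · apply le_of_eq
      field_simp
      ring
    · exact mul_nonpos_of_nonneg_of_nonpos hk (mul_nonpos_of_nonpos_of_nonneg hd (by positivity))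

end Pool.Agent.MP703675
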