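import Pool.Agent.Lib.MP_703675_gt.SelBa

set_option autoImplicit false

open Set Metric Filter Topology TopologicalSpace

noncomputable section

namespace Pool.Agent.MP703675

variable {L : Sys} {g : SP L} {q : Par} {Kd Cs ρ : ℝ}

theorem selB_ex_zero (H : g.Hyp q Kd Cs ρ) {x : ℝ} (hx : x ≤ 6 / 10 * g.r5) : g.ex x = 0 := by
  have := H.r5_pos
  exact selB_st_zero (by linarith) (by linarith)

theorem selB_lay_zero (H : g.Hyp q Kd Cs ρ) {y : ℝ} (hy : y ≤ -(11 / 10 * g.Y)) : g.lay y = 0 := by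
  have := sel_Y_pos H
  exact selB_st_zero (by linarith) (by linarith)

theorem selB_drift_zero (H : g.Hyp q Kd Cs ρ) {x y : ℝ} (hx : x ≤ 6 / 10 * g.r5)
    (hy : y ≤ -(11 / 10 * g.Y)) : g.drift x y = 0 := by
  unfold SP.drift
  rw [selB_ex_zero H hx, selB_lay_zero H hy]
  ring

theorem selB_drift_room (H : g.Hyp q Kd Cs ρ) (x : ℝ) {y : ℝ} (hy : 18 / 10 * g.Y ≤ y) :
    g.room y = 0 ∧ g.drift x y = 0 := by
  have hY := sel_Y_pos H
  have h : g.room y = 0 := selB_st_zero (by linarith) (by linarith)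
  refine ⟨h, ?_⟩
  unfold SP.drift
  rw [h]
  ring

theorem selB_drift_one (H : g.Hyp q Kd Cs ρ) {x y : ℝ} (hx : 8 / 10 * g.r5 ≤ x)
    (hy : y ≤ 16 / 10 * g.Y) : g.drift x y = 1 := by
  have hY := sel_Y_pos H
  have hr := H.r5_pos
  have hra := H.ra_le
  have h1 : g.room y = 1 := selB_st_one (by linarith) (by linarith)
  have h2 : g.ex x = 1 := selB_st_one (by linarith) (by linarith)
  have h3 : g.n x = 1 := selB_st_one (by linarith) (by linarith)
  unfold SP.drift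
  rw [h1, h2, h3]
  ring

/-- the `y` term of the derivative of `th` -/
theorem selB_th_y (H : g.Hyp q Kd Cs ρ) (x y : ℝ) :
    g.a x * (deriv g.b y * (g.drift x y - g.drift (-x) (-y))) ≤ 0 := by
  have hY := sel_Y_pos H
  have hr := H.r5_pos
  by_cases hx : 4 / 10 * g.r5 ≤ |x|
  · have : g.a x = 0 := pl_zero (by linarith) hx
    rw [this]; simp
  have hx' : |x| < 4 / 10 * g.r5 := lt_of_not_ge hx
  have hx1 := (abs_lt.1 hx').1
  have hx2 := (abs_lt.1 hx').2
  have ha : 0 ≤ g.a x := pl_nonneg _ _ _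
  apply mul_nonpos_of_nonneg_of_nonpos ha
  have h1 : deriv g.b y * g.drift x y ≤ 0 := by
    by_cases hy : -(15 / 10 * g.Y) ≤ y
    · have : deriv g.b y ≤ 0 := pl_deriv_nonpos (by linarith) hy
      exact mul_nonpos_of_nonpos_of_nonneg this (sel_drift_mem x y).1
    · rw [selB_drift_zero H (by linarith) (by linarith [lt_of_not_ge hy])]; simp
  have h2 : 0 ≤ deriv g.b y * g.drift (-x) (-y) := by
    by_cases hy : y ≤ 15 / 10 * g.Y
    · have : 0 ≤ deriv g.b y := pl_deriv_nonneg (by linarith) hy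
      exact mul_nonneg this (sel_drift_mem (-x) (-y)).1
    · rw [selB_drift_zero H (by linarith) (by linarith [lt_of_not_ge hy])]; simp
  linarith [mul_sub (deriv g.b y) (g.drift x y) (g.drift (-x) (-y))]

theorem selB_abs3 {A B C a b c : ℝ} (hA : |A| ≤ a) (hB : |B| ≤ b) (hC0 : 0 ≤ C) (hC : C ≤ c) :
    A * B * C ≤ a * b * c := by
  have ha : 0 ≤ a := (abs_nonneg A).trans hA
  have hb : 0 ≤ b := (abs_nonneg B).trans hB
  have h1 : |A * B| ≤ a * b := by
    rw [abs_mul]; exact mul_le_mul hA hB (abs_nonneg B) ha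
  have h2 : A * B ≤ a * b := (le_abs_self _).trans h1
  calc A * B * C ≤ a * b * C := mul_le_mul_of_nonneg_right h2 hC0
    _ ≤ a * b * c := mul_le_mul_of_nonneg_left hC (mul_nonneg ha hb)

theorem selB_br_mem (H : g.Hyp q Kd Cs ρ) (x y : ℝ) :
    0 ≤ selB_br g x y ∧ selB_br g x y ≤ 9 * g.Y := by
  have hY := sel_Y_pos H
  have hra := H.ra_pos
  obtain ⟨h0, h1⟩ := sel_T0_mem H y
  have m1 : 0 ≤ g.m x ∧ g.m x ≤ 1 := ⟨st_nonneg _, st_le_one _⟩
  have m2 : 0 ≤ g.m (-x) ∧ g.m (-x) ≤ 1 := ⟨st_nonneg _, st_le_one _⟩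
  have j1 : 0 ≤ g.J y ∧ g.J y ≤ 1 := ⟨st_nonneg _, st_le_one _⟩
  have j2 : 0 ≤ 1 - g.J (-y) ∧ 1 - g.J (-y) ≤ 1 := by
    have a1 : 0 ≤ g.J (-y) := st_nonneg _
    have a2 : g.J (-y) ≤ 1 := st_le_one _
    constructor <;> linarith
  have p1 : 0 ≤ g.m x * g.J y := mul_nonneg m1.1 j1.1
  have p2 : 0 ≤ g.m (-x) * (1 - g.J (-y)) := mul_nonneg m2.1 j2.1
  have p3 : g.m x * g.J y + g.m (-x) * (1 - g.J (-y)) ≤ 1 := by
    rcases le_total x 0 with hx | hx
    · have : g.m x = 0 := selB_st_zero hra hx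
      rw [this]
      have := mul_le_one₀ m2.2 j2.1 j2.2
      linarith
    · have : g.m (-x) = 0 := selB_st_zero hra (by linarith)
      rw [this]
      have := mul_le_one₀ m1.2 j1.1 j1.2
      linarith
  have e : selB_br g x y =
      g.T0 y + 5 * g.Y * (g.m x * g.J y + g.m (-x) * (1 - g.J (-y))) := by
    unfold selB_br; ring
  rw [e]
  have q1 : 0 ≤ 5 * g.Y * (g.m x * g.J y + g.m (-x) * (1 - g.J (-y))) :=
    mul_nonneg (by linarith) (by linarith)
  have q2 : 5 * g.Y * (g.m x * g.J y + g.m (-x) * (1 - g.J (-y))) ≤ 5 * g.Y * 1 :=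
    mul_le_mul_of_nonneg_left p3 (by linarith)
  constructor <;> linarith

theorem selB_by_nonneg (H : g.Hyp q Kd Cs ρ) (x y : ℝ) : 0 ≤ selB_by g x y := by
  have hY := sel_Y_pos H
  have h0 := (selB_w0_mem H y).1
  have h1 : 0 ≤ 5 * g.Y * g.m x * g.j y :=
    mul_nonneg (mul_nonneg (by linarith) (st_nonneg _)) (selB_j_nonneg H y)
  have h2 : 0 ≤ 5 * g.Y * g.m (-x) * g.j (-y) :=
    mul_nonneg (mul_nonneg (by linarith) (st_nonneg _)) (selB_j_nonneg H (-y))
  unfold selB_by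
  linarith

/-- the `m'` terms vanish -/
theorem selB_bx_zero (H : g.Hyp q Kd Cs ρ) {x y A dx : ℝ} (hA : A ≤ 1) (hfar : A < 1 → dx = 0)
    (hth : g.a x * g.b y * A < 1) (hv : g.Tt x y ≤ g.Tt (-x) (-y) + g.rs) :
    selB_bx g x y * dx = 0 := by
  have hY := sel_Y_pos H
  have hr := H.r5_pos
  have hra := H.ra_pos
  have hra' := H.ra_le
  rcases lt_or_eq_of_le hA with hA | hA
  · rw [hfar hA]; simp
  by_cases hx : g.ra ≤ |x|
  · have h1 : deriv st (x / g.ra) = 0 := by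
      apply deriv_st_zero
      rcases le_total x 0 with h | h
      · exact Or.inl (div_nonpos_of_nonpos_of_nonneg h hra.le)
      · right; rw [abs_of_nonneg h] at hx; exact (one_le_div hra).2 hx
    have h2 : deriv st (-x / g.ra) = 0 := by
      apply deriv_st_zero
      rcases le_total x 0 with h | h
      · right; rw [abs_of_nonpos h] at hx; exact (one_le_div hra).2 hx
      · exact Or.inl (div_nonpos_of_nonpos_of_nonneg (by linarith) hra.le)
    unfold selB_bx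
    rw [h1, h2]; simp
  have hx' : |x| < g.ra := lt_of_not_ge hx
  have ha : g.a x = 1 := pl_one (by linarith) (by linarith)
  have hchi : g.chi (-x) = 1 := pl_one (by linarith) (by rw [abs_neg]; linarith)
  rw [ha, hA] at hth
  have hb : 15 / 10 * g.Y < |y| := by
    by_contra hc
    have : g.b y = 1 := pl_one (by linarith) (le_of_not_gt hc)
    rw [this] at hth
    linarith
  rcases le_total 0 y with hy | hy
  · rw [abs_of_nonneg hy] at hb
    have h1 : g.J y = 0 := selB_st_zero (by linarith) (by linarith)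
    have h2 : g.J (-y) = 1 := selB_st_one (by linarith) (by linarith)
    unfold selB_bx
    rw [h1, h2]; simp
  · exfalso
    rw [abs_of_nonpos hy] at hb
    have h := sel_gap2 H (-x) (y := -y) hb.le
    rw [neg_neg, neg_neg, hchi] at h
    have := H.rs_le
    linarith

/-- the drift term against the sign -/
theorem selB_anti (H : g.Hyp q Kd Cs ρ) {x y : ℝ} (hv : g.Tt x y ≤ g.Tt (-x) (-y) + g.rs) :
    g.chi x * selB_by g x y * g.drift (-x) (-y) ≤ g.rs / g.Y := by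
  have hY := sel_Y_pos H
  have hr := H.r5_pos
  have hra := H.ra_pos
  have hrs := H.rs_pos
  have hpos : 0 ≤ g.rs / g.Y := div_nonneg hrs.le hY.le
  by_cases hx : -x ≤ g.ra
  · rw [sel_drift_zero H hx]; simpa using hpos
  have hx' : g.ra < -x := lt_of_not_ge hx
  by_cases hx2 : 6 / 10 * g.r5 ≤ |x|
  · have : g.chi x = 0 := pl_zero (by linarith) hx2
    rw [this]; simpa using hpos
  have hx3 : |x| < 6 / 10 * g.r5 := lt_of_not_ge hx2
  have hx4 := (abs_lt.1 hx3).1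
  by_cases hy : -y ≤ -(11 / 10 * g.Y)
  · rw [selB_drift_zero H (by linarith) hy]; simpa using hpos
  have hy' : -(11 / 10 * g.Y) < -y := lt_of_not_ge hy
  have hm : g.m x = 0 := selB_st_zero hra (by linarith)
  have hj : g.j (-y) = 0 := by
    unfold SP.j
    rw [deriv_st_zero (Or.inl (div_nonpos_of_nonpos_of_nonneg (by linarith) (by linarith)))]
    simp
  have hby : selB_by g x y = selB_w0 g y := by
    unfold selB_by
    rw [hm, hj]; ring
  have h := sel_gap1 H (x := -x) (y := -y) hx'.le (by linarith)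
  rw [neg_neg, neg_neg] at h
  have hc : g.chi (-x) = g.chi x := pl_neg _ _ _
  rw [hc] at h
  have hc0 : 0 ≤ g.chi x := pl_nonneg _ _ _
  have hc1 : g.chi x ≤ g.rs / g.Y := by
    rw [le_div_iff₀ hY]; linarith
  rw [hby]
  obtain ⟨w0, w1⟩ := selB_w0_mem H y
  obtain ⟨d0, d1⟩ := sel_drift_mem (g := g) (-x) (-y)
  have p : selB_w0 g y * g.drift (-x) (-y) ≤ 1 := mul_le_one₀ w1 d0 d1
  calc g.chi x * selB_w0 g y * g.drift (-x) (-y)
      = g.chi x * (selB_w0 g y * g.drift (-x) (-y)) := by ring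
    _ ≤ g.chi x * 1 := mul_le_mul_of_nonneg_left p hc0
    _ ≤ g.rs / g.Y := by linarith

/-- real form of the rate of `Tt` -/
theorem selB_rate_real (H : g.Hyp q Kd Cs ρ) {x y A dx : ℝ} (hA0 : 0 ≤ A) (hA : A ≤ 1)
    (hdx : |dx| ≤ Kd) (hfar : A < 1 → dx = 0) (hth : g.a x * g.b y * A < 1)
    (hv : g.Tt x y ≤ g.Tt (-x) (-y) + g.rs) :
    deriv g.chi x * dx * selB_br g x y + g.chi x * (selB_bx g x y * dx -
      selB_by g x y * (g.k * A * (g.drift x y - g.drift (-x) (-y)))) ≤ q.eta / 8 := by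
  have hY := sel_Y_pos H
  have hr := H.r5_pos
  have hk := H.k_pos
  have hrs := H.rs_pos
  have h1 : |deriv g.chi x| ≤ 2 * Cs / (6 / 10 * g.r5 - 4 / 10 * g.r5) :=
    pl_deriv_abs (by linarith) H.Cs_bd x
  obtain ⟨b0, b1⟩ := selB_br_mem H x y
  have t1 := selB_abs3 h1 hdx b0 b1
  have e1 : 2 * Cs / (6 / 10 * g.r5 - 4 / 10 * g.r5) * Kd * (9 * g.Y) =
      90 * Cs * Kd * g.Y / g.r5 := by
    have : g.r5 ≠ 0 := hr.ne'
    have e : 6 / 10 * g.r5 - 4 / 10 * g.r5 = g.r5 / 5 := by ring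
    rw [e]
    field_simp
    ring
  rw [e1] at t1
  rw [selB_bx_zero H hA hfar hth hv]
  have t2 := selB_anti H hv
  have hc0 : 0 ≤ g.chi x := pl_nonneg _ _ _
  have t3 : 0 ≤ g.chi x * selB_by g x y * g.drift x y :=
    mul_nonneg (mul_nonneg hc0 (selB_by_nonneg H x y)) (sel_drift_mem x y).1
  have hkA : 0 ≤ g.k * A := mul_nonneg hk.le hA0
  have hkA' : g.k * A ≤ g.k := by nlinarith
  have t4 : g.k * A * (g.chi x * selB_by g x y * g.drift (-x) (-y)) ≤ g.k * A * (g.rs / g.Y) :=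
    mul_le_mul_of_nonneg_left t2 hkA
  have t5 : g.k * A * (g.rs / g.Y) ≤ g.k * (g.rs / g.Y) :=
    mul_le_mul_of_nonneg_right hkA' (div_nonneg hrs.le hY.le)
  have t6 : 0 ≤ g.k * A * (g.chi x * selB_by g x y * g.drift x y) := mul_nonneg hkA t3
  have e2 : g.k * (g.rs / g.Y) = g.rs * g.k / g.Y := by ring
  have e3 : g.chi x * (0 - selB_by g x y * (g.k * A * (g.drift x y - g.drift (-x) (-y)))) =
      g.k * A * (g.chi x * selB_by g x y * g.drift (-x) (-y)) -
        g.k * A * (g.chi x * selB_by g x y * g.drift x y) := by ring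
  have n2 := H.n2
  rw [e3]
  linarith

theorem selB_bar_has (x : ℝ) : HasDerivAt g.bar
    (35 / 10 * g.Y * (deriv st ((x - 8 / 10 * g.r5) / (2 / 10 * g.r5)) / (2 / 10 * g.r5))) x :=
  ((selB_st_aff (8 / 10 * g.r5) (2 / 10 * g.r5) x).const_mul (35 / 10 * g.Y)).const_add _

theorem selB_bar_le (H : g.Hyp q Kd Cs ρ) (x : ℝ) : g.bar x ≤ 15 / 10 * g.Y := by
  have hY := sel_Y_pos H
  have h := st_le_one ((x - 8 / 10 * g.r5) / (2 / 10 * g.r5))
  have h2 := mul_le_mul_of_nonneg_left h (show 0 ≤ 35 / 10 * g.Y by linarith)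
  unfold SP.bar
  linarith

theorem selB_bar_low (H : g.Hyp q Kd Cs ρ) {x : ℝ} (hx : x ≤ 8 / 10 * g.r5) :
    g.bar x = -(2 * g.Y) := by
  have hr := H.r5_pos
  unfold SP.bar
  rw [selB_st_zero (by linarith) (by linarith)]
  ring

/-- real form of the barrier inequality -/
theorem selB_bar_real (H : g.Hyp q Kd Cs ρ) {x y A dx s : ℝ} (hA0 : 0 ≤ A) (hA : A ≤ 1)
    (hdx : |dx| ≤ Kd) (hfar : A < 1 → dx = 0) (hs : 0 ≤ s) (hy : -(18 / 10 * g.Y) ≤ y)
    (hb : y < g.bar x) : g.chi x = 0 ∧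
    35 / 10 * g.Y * (deriv st ((x - 8 / 10 * g.r5) / (2 / 10 * g.r5)) / (2 / 10 * g.r5)) *
      (s * dx) - g.k * A * (g.drift x y - g.drift (-x) (-y)) * s ≤ 0 := by
  have hY := sel_Y_pos H
  have hr := H.r5_pos
  have hra := H.ra_pos
  have hk := H.k_pos
  have hx : 8 / 10 * g.r5 < x := by
    by_contra hc
    rw [selB_bar_low H (le_of_not_gt hc)] at hb
    linarith
  have hle := selB_bar_le H x
  refine ⟨pl_zero (by linarith) (by rw [abs_of_nonneg (by linarith)]; linarith), ?_⟩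
  rw [selB_drift_one H hx.le (by linarith), sel_drift_zero H (by linarith)]
  rcases lt_or_eq_of_le hA with hA | hA
  · rw [hfar hA]
    have : 0 ≤ g.k * A * s := mul_nonneg (mul_nonneg hk.le hA0) hs
    linarith
  · have d0 := deriv_st_nonneg ((x - 8 / 10 * g.r5) / (2 / 10 * g.r5))
    have d1 := H.Cs_bd ((x - 8 / 10 * g.r5) / (2 / 10 * g.r5))
    have hC := selB_Cs H
    have hK := H.Kd_nonneg
    generalize deriv st ((x - 8 / 10 * g.r5) / (2 / 10 * g.r5)) = D at d0 d1 ⊢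
    have p1 : D * dx ≤ Cs * Kd := by
      calc D * dx ≤ D * Kd := mul_le_mul_of_nonneg_left ((le_abs_self _).trans hdx) d0
        _ ≤ Cs * Kd := mul_le_mul_of_nonneg_right d1 hK
    have e : 35 / 10 * g.Y * (D / (2 / 10 * g.r5)) * (s * dx) =
        s * (35 / 2 * (g.Y / g.r5) * (D * dx)) := by
      ring
    have hq : 0 ≤ g.Y / g.r5 := div_nonneg hY.le hr.le
    have p2 : 35 / 2 * (g.Y / g.r5) * (D * dx) ≤ 35 / 2 * (g.Y / g.r5) * (Cs * Kd) :=
      mul_le_mul_of_nonneg_left p1 (by linarith)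
    have p3 : 0 ≤ g.Y / g.r5 * (Cs * Kd) := mul_nonneg hq (mul_nonneg hC hK)
    have n3 := H.n3
    have e2 : 18 * g.Y * Cs * Kd / g.r5 = 18 * (g.Y / g.r5 * (Cs * Kd)) := by ring
    have p4 : 35 / 2 * (g.Y / g.r5) * (D * dx) ≤ g.k := by linarith
    have p5 := mul_le_mul_of_nonneg_left p4 hs
    rw [e, hA]
    linarith

end Pool.Agent.MP703675
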