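import Pool.Agent.Lib.MP_703675_gt.SelA
import Pool.Agent.Lib.MP_703675_gt.LayerB
import Pool.Agent.Lib.MP_703675_gt.SelBb

set_option autoImplicit false

open Set Metric Filter Topology TopologicalSpace

noncomputable section

namespace Pool.Agent.MP703675

variable {L : Sys} {g : SP L} {q : Par} {Kd Cs ρ : ℝ}

theorem selB_zeta_DD (H : g.Hyp q Kd Cs ρ) (w κ : L.E × ℝ) :
    selB_DD (fun z : L.E × ℝ => g.ζ z.1) w κ (fderiv ℝ g.ζ w.1 κ.1) :=
  selB_DD_fst ((sel_zeta_smooth H).differentiable (by simp) w.1)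

theorem selB_V_DD (w κ : L.E × ℝ) : selB_DD (fun z : L.E × ℝ => L.V z.1) w κ (L.V κ.1) :=
  selB_DD_clm (L.V.comp (ContinuousLinearMap.fst ℝ L.E ℝ))

/-- Plan: three terms; the `y` term is nonpositive because where `a > 0` the drift points in the
direction of the sign of `ζ` and lives on `-1.1 Y < y` (resp. `y < 1.1 Y`). -/
theorem sel_rate_th (H : g.Hyp q Kd Cs ρ) (w : L.E × ℝ) (hw : w.1 ∈ L.Om) {u : L.E}
    (hu : u ∈ L.K w.1) : fderiv ℝ g.site.th w (u, g.site.fo w) ≤ q.eta / 8 := by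
  have hr := H.r5_pos
  have hH := selB_H_pos H
  have hC := selB_Cs H
  have hk0 : 0 ≤ g.k0 := by rw [H.k0_eq]; exact H.goodq.k0_pos.le
  have ha : HasDerivAt g.a (deriv g.a (g.ζ w.1)) (g.ζ w.1) := selB_pl_has _ _ _
  have hb : HasDerivAt g.b (deriv g.b w.2) w.2 := selB_pl_has _ _ _
  have h1 := selB_DD_cmul g.k0 (selB_DD_comp (F := fun z : L.E × ℝ => g.ζ z.1) ha
    (selB_zeta_DD H w (u, g.site.fo w)))
  have h2 := selB_DD_comp (F := fun z : L.E × ℝ => z.2) hb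
    (selB_DD_snd (w := w) (κ := (u, g.site.fo w)))
  have h3 := selB_DD_comp (F := fun z : L.E × ℝ => L.V z.1) (selB_al3_has (g := g) (L.V w.1))
    (selB_V_DD w (u, g.site.fo w))
  have h := (selB_DD_mul (selB_DD_mul h1 h2) h3).2
  have e0 : g.site.th = fun z : L.E × ℝ => g.k0 * g.a (g.ζ z.1) * g.b z.2 * g.al3 (L.V z.1) := rfl
  have efo : g.site.fo w = g.k * g.al3 (L.V w.1) *
      (g.drift (g.ζ w.1) w.2 - g.drift (-g.ζ w.1) (-w.2)) := rfl
  rw [e0, h]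
  dsimp only
  rw [efo]
  have hdx := H.Kd_bd w.1 hw u hu
  have hdv := H.goodL.V_le w.1 u hu
  have ty := selB_th_y H (g.ζ w.1) w.2
  obtain ⟨A0, A1⟩ := selB_al3_mem (g := g) (L.V w.1)
  have da : |deriv g.a (g.ζ w.1)| ≤ 2 * Cs / (4 / 10 * g.r5 - 2 / 10 * g.r5) :=
    pl_deriv_abs (by linarith) H.Cs_bd _
  have a0 : 0 ≤ g.a (g.ζ w.1) := pl_nonneg _ _ _
  have a1 : g.a (g.ζ w.1) ≤ 1 := pl_le_one _ _ _
  have b0 : 0 ≤ g.b w.2 := pl_nonneg _ _ _
  have b1 : g.b w.2 ≤ 1 := pl_le_one _ _ _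
  have s0 := deriv_st_nonneg (2 - 16 * L.V w.1 / g.H)
  have s1 := H.Cs_bd (2 - 16 * L.V w.1 / g.H)
  have hk := H.k_pos
  have n1 := H.n1
  rw [← H.k0_eq, ← H.H_eq] at n1
  generalize deriv st (2 - 16 * L.V w.1 / g.H) = D at s0 s1 ⊢
  generalize g.drift (g.ζ w.1) w.2 - g.drift (-g.ζ w.1) (-w.2) = dr at ty ⊢
  generalize g.al3 (L.V w.1) = A at A0 A1 ⊢
  generalize deriv g.a (g.ζ w.1) = a' at da ⊢
  generalize deriv g.b w.2 = b' at ty ⊢
  generalize g.a (g.ζ w.1) = a at a0 a1 ty ⊢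
  generalize g.b w.2 = b at b0 b1 ⊢
  generalize fderiv ℝ g.ζ w.1 u = dx at hdx ⊢
  generalize L.V u = dv at hdv ⊢
  have t1 := selB_abs3 da hdx (mul_nonneg b0 A0) (mul_le_one₀ b1 A0 A1)
  have e1 : 2 * Cs / (4 / 10 * g.r5 - 2 / 10 * g.r5) * Kd * 1 = 10 * Cs * Kd / g.r5 := by
    have : g.r5 ≠ 0 := hr.ne'
    have e : 4 / 10 * g.r5 - 2 / 10 * g.r5 = g.r5 / 5 := by ring
    rw [e]
    field_simp
    ring
  rw [e1] at t1
  have hD : |-(D * (16 / g.H))| ≤ 16 * Cs / g.H := by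
    have p : 0 ≤ 16 / g.H := by positivity
    rw [abs_neg, abs_of_nonneg (mul_nonneg s0 p)]
    calc D * (16 / g.H) ≤ Cs * (16 / g.H) := mul_le_mul_of_nonneg_right s1 p
      _ = 16 * Cs / g.H := by ring
  have t3 := selB_abs3 hD hdv (mul_nonneg a0 b0) (mul_le_one₀ a1 b0 b1)
  have t2 : g.k * A * A * (a * (b' * dr)) ≤ 0 :=
    mul_nonpos_of_nonneg_of_nonpos (mul_nonneg (mul_nonneg hk.le A0) A0) ty
  have tt : a' * dx * (b * A) + g.k * A * A * (a * (b' * dr)) + -(D * (16 / g.H)) * dv * (a * b) ≤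
      10 * Cs * Kd / g.r5 + 16 * Cs / g.H := by linarith
  have t := mul_le_mul_of_nonneg_left tt hk0
  have e : (g.k0 * (a' * dx) * b + g.k0 * a * (b' * (g.k * A * dr))) * A +
      g.k0 * a * b * (-(D * (16 / g.H)) * dv) = g.k0 * (a' * dx * (b * A) +
        g.k * A * A * (a * (b' * dr)) + -(D * (16 / g.H)) * dv * (a * b)) := by ring
  rw [e]
  linarith

/-- Plan: the `chi'` term is at most `90 Cs Kd Y / r5`.  The `m'` terms need `|ζ| < ra`, so `a = 1`,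
`chi = 1`; as `th < k0` either `al3 < 1` (then the lower system is far and `dζ u = 0`) or
`1.5 Y < |y|` (then the factors `J y`, `1 - J (-y)` vanish for the outward sign and the inward
sign is invalid by `sel_gap2`).  The drift term is nonpositive for the natural sign; for the other
sign `sel_gap1` and validity give `chi * Y ≤ rs`, and `j = 0` there. -/
theorem sel_rate_T (H : g.Hyp q Kd Cs ρ) (w : L.E × ℝ) (hw : w.1 ∈ L.Om) (hth : g.site.th w < q.k0)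
    {u : L.E} (hu : u ∈ L.K w.1) (b : Bool) (hb : g.site.valid b w) :
    fderiv ℝ (g.site.T b) w (u, g.site.fo w) ≤ q.eta / 8 := by
  have hk0 : 0 < g.k0 := by rw [H.k0_eq]; exact H.goodq.k0_pos
  have efo : g.site.fo w = g.k * g.al3 (L.V w.1) *
      (g.drift (g.ζ w.1) w.2 - g.drift (-g.ζ w.1) (-w.2)) := rfl
  have hth' : g.a (g.ζ w.1) * g.b w.2 * g.al3 (L.V w.1) < 1 := by
    have e : g.site.th w = g.k0 * (g.a (g.ζ w.1) * g.b w.2 * g.al3 (L.V w.1)) := by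
      show g.k0 * g.a (g.ζ w.1) * g.b w.2 * g.al3 (L.V w.1) = _
      ring
    rw [e, ← H.k0_eq] at hth
    by_contra hc
    have := mul_le_mul_of_nonneg_left (le_of_not_gt hc) hk0.le
    linarith
  have hdx := H.Kd_bd w.1 hw u hu
  obtain ⟨A0, A1⟩ := selB_al3_mem (g := g) (L.V w.1)
  have hfar : g.al3 (L.V w.1) < 1 → fderiv ℝ g.ζ w.1 u = 0 := fun h => selB_far H hw h hu
  have hX := selB_zeta_DD H w (u, g.site.fo w)
  have hY := selB_DD_snd (w := w) (κ := (u, g.site.fo w))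
  cases b with
  | true =>
    have h := (selB_Tt_DD H hX hY).2
    have e0 : g.site.T true = fun z : L.E × ℝ => g.Tt (g.ζ z.1) z.2 := rfl
    rw [e0, h]
    dsimp only
    rw [efo]
    exact selB_rate_real H A0 A1 hdx hfar hth' hb
  | false =>
    have h := (selB_Tt_DD H (selB_DD_neg hX) (selB_DD_neg hY)).2
    have e0 : g.site.T false = fun z : L.E × ℝ => g.Tt (-g.ζ z.1) (-z.2) := rfl
    rw [e0, h]
    dsimp only
    rw [efo]
    have hv : g.Tt (-g.ζ w.1) (-w.2) ≤ g.Tt (- -g.ζ w.1) (- -w.2) + g.rs := by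
      rw [neg_neg, neg_neg]; exact hb
    have hth2 : g.a (-g.ζ w.1) * g.b (-w.2) * g.al3 (L.V w.1) < 1 := by
      have e1 : g.a (-g.ζ w.1) = g.a (g.ζ w.1) := pl_neg _ _ _
      have e2 : g.b (-w.2) = g.b w.2 := pl_neg _ _ _
      rw [e1, e2]; exact hth'
    have r := selB_rate_real H (dx := -fderiv ℝ g.ζ w.1 u) A0 A1 (by rw [abs_neg]; exact hdx)
      (fun h => by rw [hfar h, neg_zero]) hth2 hv
    rw [neg_neg, neg_neg] at r
    have e : -(g.k * g.al3 (L.V w.1) * (g.drift (g.ζ w.1) w.2 - g.drift (-g.ζ w.1) (-w.2))) =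
        g.k * g.al3 (L.V w.1) * (g.drift (-g.ζ w.1) (-w.2) - g.drift (g.ζ w.1) w.2) := by ring
    rw [e]
    exact r

theorem selB_Ky_bdd (H : g.Hyp q Kd Cs ρ) : BddK (g.site.Ky q) :=
  Site.Ky_bdd H.goodL (sel_fo_smooth H).continuous (sel_spP_smooth H).continuous
    (sel_spM_smooth H).continuous

theorem selB_y0 (H : g.Hyp q Kd Cs ρ) : |g.y0| ≤ 18 / 10 * g.Y := by
  have hY := sel_Y_pos H
  rcases H.y0_eq with h | h
  · rw [h.2, abs_of_nonneg (by linarith)]; linarith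
  · rw [h.2, abs_neg, abs_of_nonneg (by linarith)]; linarith

theorem selB_inv1 (H : g.Hyp q Kd Cs ρ) {Y : ℝ → L.E × ℝ} {a b : ℝ} (hY : g.site.STraj q Y a b) :
    ∀ s ∈ Icc a b, (Y s).2 ≤ 18 / 10 * g.Y := by
  have hk := H.k_pos
  refine hY.1.barrier_lin (selB_Ky_bdd H) (ContinuousLinearMap.snd ℝ L.E ℝ) ?_ ?_
  · intro s _ hc κ hκ
    obtain ⟨s', α, β, u, _, hs0, _, _, _, hβ, _, _, _, h2⟩ := hκ
    have hc' : 18 / 10 * g.Y < (Y s).2 := hc
    show κ.2 ≤ 0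
    obtain ⟨r0, d0⟩ := selB_drift_room H (g.ζ (Y s).1) hc'.le
    have e1 : g.site.spP (Y s) = 0 := by
      show g.chi (g.ζ (Y s).1) * g.room (Y s).2 / g.wt (g.ζ (Y s).1) (Y s).2 = 0
      rw [r0]; simp
    have e2 : g.site.fo (Y s) ≤ 0 := by
      show g.k * g.al3 (L.V (Y s).1) *
        (g.drift (g.ζ (Y s).1) (Y s).2 - g.drift (-g.ζ (Y s).1) (-(Y s).2)) ≤ 0
      rw [d0]
      have := (sel_drift_mem (g := g) (-g.ζ (Y s).1) (-(Y s).2)).1
      exact mul_nonpos_of_nonneg_of_nonpos (mul_nonneg hk.le (selB_al3_mem _).1) (by linarith)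
    have e3 := mul_nonneg (sel_sp_mem H (Y s)).2.2.1 hβ
    have e4 := mul_nonpos_of_nonpos_of_nonneg e2 hs0
    rw [h2, e1]
    linarith
  · show (Y a).2 ≤ 18 / 10 * g.Y
    rw [hY.2.2]
    exact (le_abs_self _).trans (selB_y0 H)

theorem selB_inv2 (H : g.Hyp q Kd Cs ρ) {Y : ℝ → L.E × ℝ} {a b : ℝ} (hY : g.site.STraj q Y a b) :
    ∀ s ∈ Icc a b, -(Y s).2 ≤ 18 / 10 * g.Y := by
  have hk := H.k_pos
  refine hY.1.barrier_lin (selB_Ky_bdd H) (-ContinuousLinearMap.snd ℝ L.E ℝ) ?_ ?_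
  · intro s _ hc κ hκ
    obtain ⟨s', α, β, u, _, hs0, _, hα, _, _, _, _, _, h2⟩ := hκ
    have hc' : 18 / 10 * g.Y < -(Y s).2 := hc
    show -κ.2 ≤ 0
    obtain ⟨r0, d0⟩ := selB_drift_room H (-g.ζ (Y s).1) hc'.le
    have e1 : g.site.spM (Y s) = 0 := by
      show g.chi (g.ζ (Y s).1) * g.room (-(Y s).2) / g.wt (g.ζ (Y s).1) (Y s).2 = 0
      rw [r0]; simp
    have e2 : 0 ≤ g.site.fo (Y s) := by
      show 0 ≤ g.k * g.al3 (L.V (Y s).1) *
        (g.drift (g.ζ (Y s).1) (Y s).2 - g.drift (-g.ζ (Y s).1) (-(Y s).2))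
      rw [d0]
      have := (sel_drift_mem (g := g) (g.ζ (Y s).1) (Y s).2).1
      exact mul_nonneg (mul_nonneg hk.le (selB_al3_mem _).1) (by linarith)
    have e3 := mul_nonneg (sel_sp_mem H (Y s)).1 hα
    have e4 := mul_nonneg e2 hs0
    rw [h2, e1]
    linarith
  · show -(Y a).2 ≤ 18 / 10 * g.Y
    rw [hY.2.2]
    exact (neg_le_abs _).trans (selB_y0 H)

theorem selB_bar_diff : Differentiable ℝ g.bar := fun x => (selB_bar_has x).differentiableAt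

theorem selB_sp_zero {w : L.E × ℝ} (h : g.chi (g.ζ w.1) = 0) :
    g.site.spP w = 0 ∧ g.site.spM w = 0 := by
  constructor
  · show g.chi (g.ζ w.1) * g.room w.2 / g.wt (g.ζ w.1) w.2 = 0
    rw [h]; simp
  · show g.chi (g.ζ w.1) * g.room (-w.2) / g.wt (g.ζ w.1) w.2 = 0
    rw [h]; simp

theorem selB_inv3 (H : g.Hyp q Kd Cs ρ) {Y : ℝ → L.E × ℝ} {a b : ℝ} (hY : g.site.STraj q Y a b) :
    ∀ s ∈ Icc a b, g.bar (g.ζ (Y s).1) + -(Y s).2 ≤ 0 := by
  have hYp := sel_Y_pos H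
  have hr := H.r5_pos
  have DD : ∀ w κ : L.E × ℝ, selB_DD (fun z : L.E × ℝ => g.bar (g.ζ z.1) + -z.2) w κ _ :=
    fun w κ => selB_DD_add (selB_DD_comp (F := fun z : L.E × ℝ => g.ζ z.1)
      (selB_bar_has (g := g) (g.ζ w.1)) (selB_zeta_DD H w κ)) (selB_DD_neg selB_DD_snd)
  refine hY.1.barrier (selB_Ky_bdd H) (Φ := fun z : L.E × ℝ => g.bar (g.ζ z.1) + -z.2)
    (fun w => (DD w 0).1) ?_ ?_
  · intro s hs hc κ hκ
    have hs' : s ∈ Icc a b := Ico_subset_Icc_self hs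
    obtain ⟨s', α, β, u, hu, hs0, _, _, _, _, _, _, h1, h2⟩ := hκ
    have hO : (Y s).1 ∈ L.Om := H.goodL.inv _ a b hY.2.1 s hs'
    have hc' : (Y s).2 < g.bar (g.ζ (Y s).1) := by
      have : 0 < g.bar (g.ζ (Y s).1) + -(Y s).2 := hc
      linarith
    have hlow := selB_inv2 H hY s hs'
    obtain ⟨A0, A1⟩ := selB_al3_mem (g := g) (L.V (Y s).1)
    obtain ⟨c0, r⟩ := selB_bar_real H A0 A1 (H.Kd_bd _ hO u hu) (fun h => selB_far H hO h hu) hs0
      (by linarith) hc'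
    obtain ⟨p0, m0⟩ := selB_sp_zero c0
    rw [(DD (Y s) κ).2, h1, h2, p0, m0, map_smul, smul_eq_mul]
    have efo : g.site.fo (Y s) = g.k * g.al3 (L.V (Y s).1) *
      (g.drift (g.ζ (Y s).1) (Y s).2 - g.drift (-g.ζ (Y s).1) (-(Y s).2)) := rfl
    rw [efo]
    linarith
  · show g.bar (g.ζ (Y a).1) + -(Y a).2 ≤ 0
    obtain ⟨T, hT, _, hTa⟩ := hY.2.1.2.2
    have e : (Y a).2 = g.y0 := hY.2.2
    have hTa' : (Y a).1 = L.far T := hTa
    rw [e, hTa']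
    rcases H.y0_eq with h | h
    · rw [h.2]; linarith [selB_bar_le H (g.ζ (L.far T))]
    · rw [h.2, selB_bar_low H (by linarith [h.1 T hT])]; linarith

theorem selB_inv4 (H : g.Hyp q Kd Cs ρ) {Y : ℝ → L.E × ℝ} {a b : ℝ} (hY : g.site.STraj q Y a b) :
    ∀ s ∈ Icc a b, g.bar (-g.ζ (Y s).1) + (Y s).2 ≤ 0 := by
  have hYp := sel_Y_pos H
  have hr := H.r5_pos
  have DD : ∀ w κ : L.E × ℝ, selB_DD (fun z : L.E × ℝ => g.bar (-g.ζ z.1) + z.2) w κ _ :=
    fun w κ => selB_DD_add (selB_DD_comp (F := fun z : L.E × ℝ => -g.ζ z.1)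
      (selB_bar_has (g := g) (-g.ζ w.1)) (selB_DD_neg (selB_zeta_DD H w κ))) selB_DD_snd
  refine hY.1.barrier (selB_Ky_bdd H) (Φ := fun z : L.E × ℝ => g.bar (-g.ζ z.1) + z.2)
    (fun w => (DD w 0).1) ?_ ?_
  · intro s hs hc κ hκ
    have hs' : s ∈ Icc a b := Ico_subset_Icc_self hs
    obtain ⟨s', α, β, u, hu, hs0, _, _, _, _, _, _, h1, h2⟩ := hκ
    have hO : (Y s).1 ∈ L.Om := H.goodL.inv _ a b hY.2.1 s hs'
    have hc' : -(Y s).2 < g.bar (-g.ζ (Y s).1) := by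
      have : 0 < g.bar (-g.ζ (Y s).1) + (Y s).2 := hc
      linarith
    have hlow := selB_inv1 H hY s hs'
    obtain ⟨A0, A1⟩ := selB_al3_mem (g := g) (L.V (Y s).1)
    obtain ⟨c0, r⟩ := selB_bar_real H (dx := -fderiv ℝ g.ζ (Y s).1 u) A0 A1
      (by rw [abs_neg]; exact H.Kd_bd _ hO u hu) (fun h => by rw [selB_far H hO h hu, neg_zero])
      hs0 (by linarith) hc'
    have c1 : g.chi (g.ζ (Y s).1) = 0 := by
      have e1 : g.chi (-g.ζ (Y s).1) = g.chi (g.ζ (Y s).1) := pl_neg _ _ _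
      rw [← e1]; exact c0
    obtain ⟨p0, m0⟩ := selB_sp_zero c1
    rw [neg_neg, neg_neg] at r
    rw [(DD (Y s) κ).2, h1, h2, p0, m0, map_smul, smul_eq_mul]
    have efo : g.site.fo (Y s) = g.k * g.al3 (L.V (Y s).1) *
      (g.drift (g.ζ (Y s).1) (Y s).2 - g.drift (-g.ζ (Y s).1) (-(Y s).2)) := rfl
    rw [efo]
    linarith
  · show g.bar (-g.ζ (Y a).1) + (Y a).2 ≤ 0
    obtain ⟨T, hT, _, hTa⟩ := hY.2.1.2.2
    have e : (Y a).2 = g.y0 := hY.2.2
    have hTa' : (Y a).1 = L.far T := hTa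
    rw [e, hTa']
    rcases H.y0_eq with h | h
    · rw [h.2, selB_bar_low H (by linarith [h.1 T hT])]; linarith
    · rw [h.2]; linarith [selB_bar_le H (-g.ζ (L.far T))]

/-- Plan: `|y| ≤ 1.8 Y` and `bar ζ - y ≤ 0`, `bar (-ζ) + y ≤ 0` by `barrier`. -/
theorem sel_inv (H : g.Hyp q Kd Cs ρ) {Y : ℝ → L.E × ℝ} {a b : ℝ} (hY : g.site.STraj q Y a b) :
    ∀ s ∈ Icc a b, Y s ∈ g.site.O := by
  intro s hs
  have hYp := sel_Y_pos H
  have h1 := selB_inv1 H hY s hs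
  have h2 := selB_inv2 H hY s hs
  have h3 := selB_inv3 H hY s hs
  have h4 := selB_inv4 H hY s hs
  refine ⟨abs_lt.2 ⟨by linarith, by linarith⟩, H.Z_bd _ a b hY.2.1 s hs, by linarith, by linarith⟩

theorem sel_good (H : g.Hyp q Kd Cs ρ) : g.site.Good q where
  th_smooth := sel_th_smooth H
  T_smooth := sel_T_smooth H
  fo_smooth := sel_fo_smooth H
  spP_smooth := sel_spP_smooth H
  spM_smooth := sel_spM_smooth H
  th_bd := sel_th_bd H
  r_pos := H.rs_pos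
  th_act := fun w _ h => (sel_th_act H w h).1
  fo_act := fun w _ h => sel_fo_act H w h
  rate_th := fun w _ hw _ _ hu => sel_rate_th H w hw hu
  rate_T := fun w _ hw hth _ hu b hb => sel_rate_T H w hw hth hu b hb
  lead_push := fun w _ _ b _ b' => sel_lead_push H w b b'
  resp_push := fun w _ _ h b hb => sel_resp_push H w h b hb
  far_T := fun w _ hw hV b => sel_far_T H w hw hV b
  T_bd := fun w _ _ b => sel_T_bd H w b
  isOpen := sel_isOpen H
  bdd := ⟨2 * g.Y, fun _ hw => hw.1.le⟩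
  inv := fun _ _ _ hY => sel_inv H hY

end Pool.Agent.MP703675
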