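import Pool.Agent.Lib.MP_703675_gt.SelA

set_option autoImplicit false

open Set Metric Filter Topology TopologicalSpace

noncomputable section

namespace Pool.Agent.MP703675

/-- directional derivative bookkeeping -/
def selB_DD {E : Type} [NormedAddCommGroup E] [NormedSpace ℝ E] (F : E → ℝ) (w κ : E) (d : ℝ) :
    Prop :=
  DifferentiableAt ℝ F w ∧ fderiv ℝ F w κ = d

section DD

variable {E : Type} [NormedAddCommGroup E] [NormedSpace ℝ E] {F G : E → ℝ} {w κ : E} {d e : ℝ}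

theorem selB_DD_mul (h1 : selB_DD F w κ d) (h2 : selB_DD G w κ e) :
    selB_DD (fun z => F z * G z) w κ (d * G w + F w * e) := by
  refine ⟨h1.1.mul h2.1, ?_⟩
  have h := (h1.1.hasFDerivAt.mul h2.1.hasFDerivAt).fderiv
  have h' : fderiv ℝ (fun z => F z * G z) w = F w • fderiv ℝ G w + G w • fderiv ℝ F w := h
  rw [h']
  simp only [add_apply, smul_apply, smul_eq_mul, h1.2, h2.2]
  ring

theorem selB_DD_add (h1 : selB_DD F w κ d) (h2 : selB_DD G w κ e) :
    selB_DD (fun z => F z + G z) w κ (d + e) := by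
  refine ⟨h1.1.add h2.1, ?_⟩
  have h := (h1.1.hasFDerivAt.add h2.1.hasFDerivAt).fderiv
  have h' : fderiv ℝ (fun z => F z + G z) w = fderiv ℝ F w + fderiv ℝ G w := h
  rw [h']
  simp only [add_apply, h1.2, h2.2]

theorem selB_DD_const (c : ℝ) : selB_DD (fun _ : E => c) w κ 0 := by
  refine ⟨differentiableAt_const c, ?_⟩
  simp

theorem selB_DD_comp {φ : ℝ → ℝ} {φ' : ℝ} (hφ : HasDerivAt φ φ' (F w)) (h1 : selB_DD F w κ d) :
    selB_DD (fun z => φ (F z)) w κ (φ' * d) := by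
  have h := hφ.comp_hasFDerivAt w h1.1.hasFDerivAt
  refine ⟨h.differentiableAt, ?_⟩
  have h' : fderiv ℝ (fun z => φ (F z)) w = φ' • fderiv ℝ F w := h.fderiv
  rw [h']
  simp only [smul_apply, smul_eq_mul, h1.2]

theorem selB_DD_neg (h1 : selB_DD F w κ d) : selB_DD (fun z => -F z) w κ (-d) := by
  have h := selB_DD_comp (φ := fun t : ℝ => -t) (φ' := -1) (hasDerivAt_neg (F w)) h1
  have e : (-1 : ℝ) * d = -d := by ring
  rw [e] at h
  exact h

theorem selB_DD_cmul (c : ℝ) (h1 : selB_DD F w κ d) : selB_DD (fun z => c * F z) w κ (c * d) := by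
  have h := selB_DD_mul (selB_DD_const (w := w) (κ := κ) c) h1
  have e : 0 * F w + c * d = c * d := by ring
  rw [e] at h
  exact h

theorem selB_DD_clm (f : E →L[ℝ] ℝ) : selB_DD (fun z => f z) w κ (f κ) := by
  refine ⟨f.differentiableAt, ?_⟩
  have h' : fderiv ℝ (fun z => f z) w = f := f.fderiv
  rw [h']

theorem selB_DD_fst {φ : E → ℝ} {w κ : E × ℝ} (hφ : DifferentiableAt ℝ φ w.1) :
    selB_DD (fun z : E × ℝ => φ z.1) w κ (fderiv ℝ φ w.1 κ.1) := by
  have h := hφ.hasFDerivAt.comp w (hasFDerivAt_fst (𝕜 := ℝ) (E := E) (F := ℝ) (p := w))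
  refine ⟨h.differentiableAt, ?_⟩
  have h' : fderiv ℝ (fun z : E × ℝ => φ z.1) w =
      (fderiv ℝ φ w.1).comp (ContinuousLinearMap.fst ℝ E ℝ) := h.fderiv
  rw [h']
  rfl

theorem selB_DD_snd {w κ : E × ℝ} : selB_DD (fun z : E × ℝ => z.2) w κ κ.2 :=
  selB_DD_clm (ContinuousLinearMap.snd ℝ E ℝ)

end DD

theorem selB_st_aff (A B x : ℝ) :
    HasDerivAt (fun t => st ((t - A) / B)) (deriv st ((x - A) / B) / B) x := by
  have h1 : HasDerivAt (fun t : ℝ => (t - A) / B) (1 / B) x :=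
    ((hasDerivAt_id x).sub_const A).div_const B
  have h := (st_hasDerivAt ((x - A) / B)).comp x h1
  have e : deriv st ((x - A) / B) * (1 / B) = deriv st ((x - A) / B) / B := by ring
  rw [e] at h
  exact h

theorem selB_st_aff' (A B x : ℝ) :
    HasDerivAt (fun t => st ((A - t) / B)) (-(deriv st ((A - x) / B) / B)) x := by
  have h1 : HasDerivAt (fun t : ℝ => (A - t) / B) (-1 / B) x :=
    ((hasDerivAt_id x).const_sub A).div_const B
  have h := (st_hasDerivAt ((A - x) / B)).comp x h1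
  have e : deriv st ((A - x) / B) * (-1 / B) = -(deriv st ((A - x) / B) / B) := by ring
  rw [e] at h
  exact h

theorem selB_rmp_aff' (A B x : ℝ) :
    HasDerivAt (fun t => rmp ((A - t) / B)) (-(st ((A - x) / B) / B)) x := by
  have h1 : HasDerivAt (fun t : ℝ => (A - t) / B) (-1 / B) x :=
    ((hasDerivAt_id x).const_sub A).div_const B
  have h := (rmp_hasDerivAt ((A - x) / B)).comp x h1
  have e : st ((A - x) / B) * (-1 / B) = -(st ((A - x) / B) / B) := by ring
  rw [e] at h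
  exact h

theorem selB_pl_has (u v x : ℝ) : HasDerivAt (pl u v) (deriv (pl u v) x) x :=
  ((pl_smooth u v 1).differentiable (by simp) x).hasDerivAt

theorem selB_st_zero {A B : ℝ} (hB : 0 < B) (h : A ≤ 0) : st (A / B) = 0 :=
  st_zero (div_nonpos_of_nonpos_of_nonneg h hB.le)

theorem selB_st_one {A B : ℝ} (hB : 0 < B) (h : B ≤ A) : st (A / B) = 1 :=
  st_one ((one_le_div hB).2 h)

variable {L : Sys} {g : SP L} {q : Par} {Kd Cs ρ : ℝ}

theorem selB_Cs (H : g.Hyp q Kd Cs ρ) : 0 ≤ Cs := (deriv_st_nonneg 0).trans (H.Cs_bd 0)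

theorem selB_H_pos (H : g.Hyp q Kd Cs ρ) : 0 < g.H := by
  rw [H.H_eq]; exact H.goodq.H_pos

theorem selB_al3_mem (v : ℝ) : 0 ≤ g.al3 v ∧ g.al3 v ≤ 1 := ⟨st_nonneg _, st_le_one _⟩

theorem selB_al3_has (v : ℝ) :
    HasDerivAt g.al3 (-(deriv st (2 - 16 * v / g.H) * (16 / g.H))) v := by
  have h1 : HasDerivAt (fun t : ℝ => 2 - 16 * t / g.H) (-(16 * 1 / g.H)) v :=
    (((hasDerivAt_id v).const_mul 16).div_const g.H).const_sub 2
  have h := (st_hasDerivAt (2 - 16 * v / g.H)).comp v h1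
  have e : deriv st (2 - 16 * v / g.H) * -(16 * 1 / g.H) =
      -(deriv st (2 - 16 * v / g.H) * (16 / g.H)) := by ring
  rw [e] at h
  exact h

/-- where `al3 < 1` the lower system is far -/
theorem selB_far (H : g.Hyp q Kd Cs ρ) {z : L.E} (hz : z ∈ L.Om) (h : g.al3 (L.V z) < 1)
    {u : L.E} (hu : u ∈ L.K z) : fderiv ℝ g.ζ z u = 0 := by
  refine sel_zeta_far H hz ?_ hu
  by_contra hc
  have hc' : L.V z < 3 * L.H := lt_of_not_ge hc
  have hH := selB_H_pos H
  have h64 : 64 * L.H ≤ g.H := by rw [H.H_eq]; exact H.H_ge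
  have hL := H.goodL.H_pos
  have h1 : 16 * L.V z / g.H ≤ 1 := by
    rw [div_le_one hH]; linarith
  have h2 : g.al3 (L.V z) = 1 := st_one (by linarith)
  linarith

/-- slope of `T0` -/
def selB_w0 (g : SP L) (y : ℝ) : ℝ :=
  st ((17 / 10 * g.Y - y) / (g.Y / 10)) - st ((-(16 / 10 * g.Y) - y) / (g.Y / 10))

theorem selB_w0_mem (H : g.Hyp q Kd Cs ρ) (y : ℝ) : 0 ≤ selB_w0 g y ∧ selB_w0 g y ≤ 1 := by
  have hY := sel_Y_pos H
  unfold selB_w0
  constructor
  · have : st ((-(16 / 10 * g.Y) - y) / (g.Y / 10)) ≤ st ((17 / 10 * g.Y - y) / (g.Y / 10)) := by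
      apply st_mono
      apply div_le_div_of_nonneg_right _ (by linarith)
      linarith
    linarith
  · have h1 := st_le_one ((17 / 10 * g.Y - y) / (g.Y / 10))
    have h2 := st_nonneg ((-(16 / 10 * g.Y) - y) / (g.Y / 10))
    linarith

theorem selB_T0_has (H : g.Hyp q Kd Cs ρ) (y : ℝ) : HasDerivAt g.T0 (-selB_w0 g y) y := by
  have hY := sel_Y_pos H
  have h := ((selB_rmp_aff' (17 / 10 * g.Y) (g.Y / 10) y).sub
    (selB_rmp_aff' (-(16 / 10 * g.Y)) (g.Y / 10) y)).const_mul (g.Y / 10)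
  have e : g.Y / 10 * (-(st ((17 / 10 * g.Y - y) / (g.Y / 10)) / (g.Y / 10)) -
      -(st ((-(16 / 10 * g.Y) - y) / (g.Y / 10)) / (g.Y / 10))) = -selB_w0 g y := by
    unfold selB_w0
    have : g.Y ≠ 0 := hY.ne'
    field_simp
    ring
  rw [e] at h
  exact h

theorem selB_J_has (y : ℝ) : HasDerivAt g.J (-g.j y) y :=
  selB_st_aff' (-(12 / 10 * g.Y)) (2 / 10 * g.Y) y

theorem selB_m_has (x : ℝ) : HasDerivAt g.m (deriv st (x / g.ra) / g.ra) x := by
  have h1 : HasDerivAt (fun t : ℝ => t / g.ra) (1 / g.ra) x := (hasDerivAt_id x).div_const g.ra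
  have h := (st_hasDerivAt (x / g.ra)).comp x h1
  have e : deriv st (x / g.ra) * (1 / g.ra) = deriv st (x / g.ra) / g.ra := by ring
  rw [e] at h
  exact h

theorem selB_j_nonneg (H : g.Hyp q Kd Cs ρ) (y : ℝ) : 0 ≤ g.j y := by
  have hY := sel_Y_pos H
  exact div_nonneg (deriv_st_nonneg _) (by linarith)

/-- the bracket of `Tt` -/
def selB_br (g : SP L) (x y : ℝ) : ℝ :=
  g.T0 y + 5 * g.Y * g.m x * g.J y + 5 * g.Y * g.m (-x) * (1 - g.J (-y))

/-- derivative of the bracket in `x` -/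
def selB_bx (g : SP L) (x y : ℝ) : ℝ :=
  5 * g.Y * (deriv st (x / g.ra) / g.ra * g.J y - deriv st (-x / g.ra) / g.ra * (1 - g.J (-y)))

/-- minus the derivative of the bracket in `y` -/
def selB_by (g : SP L) (x y : ℝ) : ℝ :=
  selB_w0 g y + 5 * g.Y * g.m x * g.j y + 5 * g.Y * g.m (-x) * g.j (-y)

theorem selB_Tt_DD (H : g.Hyp q Kd Cs ρ) {E : Type} [NormedAddCommGroup E] [NormedSpace ℝ E]
    {X Y : E → ℝ} {w κ : E} {dx dy : ℝ} (hX : selB_DD X w κ dx) (hY : selB_DD Y w κ dy) :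
    selB_DD (fun z => g.Tt (X z) (Y z)) w κ
      (deriv g.chi (X w) * dx * selB_br g (X w) (Y w) +
        g.chi (X w) * (selB_bx g (X w) (Y w) * dx - selB_by g (X w) (Y w) * dy)) := by
  have hchi : HasDerivAt g.chi (deriv g.chi (X w)) (X w) := selB_pl_has _ _ _
  have h1 := selB_DD_comp hchi hX
  have h2 := selB_DD_comp (selB_T0_has H (Y w)) hY
  have h3 := selB_DD_mul (selB_DD_cmul (5 * g.Y) (selB_DD_comp (selB_m_has (g := g) (X w)) hX))
    (selB_DD_comp (selB_J_has (g := g) (Y w)) hY)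
  have h4a := selB_DD_comp (F := fun z => -X z) (selB_m_has (g := g) (-X w)) (selB_DD_neg hX)
  have h4b := selB_DD_comp (F := fun z => -Y z) (selB_J_has (g := g) (-Y w)) (selB_DD_neg hY)
  have h4 := selB_DD_mul (selB_DD_cmul (5 * g.Y) h4a)
    (selB_DD_add (selB_DD_const (w := w) (κ := κ) 1) (selB_DD_neg h4b))
  have h := selB_DD_mul h1 (selB_DD_add (selB_DD_add h2 h3) h4)
  refine ⟨?_, ?_⟩
  · have := h.1
    simpa only [SP.Tt, sub_eq_add_neg] using this
  · have h' := h.2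
    have e : (fun z => g.Tt (X z) (Y z)) = fun z => g.chi (X z) * (g.T0 (Y z) +
        5 * g.Y * g.m (X z) * g.J (Y z) + 5 * g.Y * g.m (-X z) * (1 + -g.J (-Y z))) := by
      funext z
      simp only [SP.Tt, sub_eq_add_neg]
    rw [e, h']
    unfold selB_br selB_bx selB_by
    ring

end Pool.Agent.MP703675
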