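import Pool.Agent.Lib.MP_703675_gt.SelA

set_option autoImplicit false

open Set Metric Filter Topology TopologicalSpace

noncomputable section

namespace Pool.Agent.MP703675

variable {L : Sys} {g : SP L} {q : Par} {Kd Cs ρ : ℝ}

theorem sel_Phi_smooth (H : g.Hyp q Kd Cs ρ) : ContDiff ℝ 2 g.Phi := by
  have h0 : ContDiff ℝ 2 (fun w : L.E × ℝ => lg (w.2 / g.d)) :=
    (lg_smooth 2).comp (contDiff_snd.div_const _)
  exact (h0.mul (H.smooth1.comp contDiff_fst)).add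
    ((contDiff_const.sub h0).mul (H.smooth2.comp contDiff_fst))

/-- the derivative of the merged potential -/
theorem selC_fd (H : g.Hyp q Kd Cs ρ) (w : L.E × ℝ) (v : L.E) (p : ℝ) :
    fderiv ℝ g.Phi w (v, p) = lg (w.2 / g.d) * fderiv ℝ g.Φ1 w.1 v +
      (1 - lg (w.2 / g.d)) * fderiv ℝ g.Φ2 w.1 v -
      2 * g.ζ w.1 * (lg (w.2 / g.d) * (1 - lg (w.2 / g.d))) / g.d * p := by
  have h1 : HasFDerivAt (fun w : L.E × ℝ => g.Φ1 w.1)
      ((fderiv ℝ g.Φ1 w.1).comp (ContinuousLinearMap.fst ℝ L.E ℝ)) w :=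
    (H.smooth1.differentiable (by norm_num) w.1).hasFDerivAt.comp w hasFDerivAt_fst
  have h2 : HasFDerivAt (fun w : L.E × ℝ => g.Φ2 w.1)
      ((fderiv ℝ g.Φ2 w.1).comp (ContinuousLinearMap.fst ℝ L.E ℝ)) w :=
    (H.smooth2.differentiable (by norm_num) w.1).hasFDerivAt.comp w hasFDerivAt_fst
  have h3 : HasDerivAt (fun t : ℝ => lg (t / g.d))
      (lg (w.2 / g.d) * (1 - lg (w.2 / g.d)) * (1 / g.d)) w.2 :=
    HasDerivAt.comp (h₂ := lg) (h := fun t : ℝ => t / g.d) w.2 (lg_hasDerivAt (w.2 / g.d))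
      ((hasDerivAt_id w.2).div_const g.d)
  have h4 : HasFDerivAt (fun w : L.E × ℝ => lg (w.2 / g.d))
      ((lg (w.2 / g.d) * (1 - lg (w.2 / g.d)) * (1 / g.d)) • ContinuousLinearMap.snd ℝ L.E ℝ) w :=
    h3.comp_hasFDerivAt w hasFDerivAt_snd
  have h5 := ((h4.mul h1).add ((h4.const_sub 1).mul h2)).fderiv
  have e : fderiv ℝ g.Phi w = _ := h5
  rw [e]
  simp only [add_apply, smul_apply, neg_apply,
    ContinuousLinearMap.comp_apply, ContinuousLinearMap.coe_fst',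
    ContinuousLinearMap.coe_snd', smul_eq_mul, SP.ζ]
  ring

theorem selC_dzeta (H : g.Hyp q Kd Cs ρ) (z u : L.E) :
    fderiv ℝ g.ζ z u = (fderiv ℝ g.Φ2 z u - fderiv ℝ g.Φ1 z u) / 2 := by
  have h1 : HasFDerivAt g.Φ1 (fderiv ℝ g.Φ1 z) z :=
    (H.smooth1.differentiable (by norm_num) z).hasFDerivAt
  have h2 : HasFDerivAt g.Φ2 (fderiv ℝ g.Φ2 z) z :=
    (H.smooth2.differentiable (by norm_num) z).hasFDerivAt
  have h3 : HasFDerivAt g.ζ ((2 : ℝ)⁻¹ • (fderiv ℝ g.Φ2 z - fderiv ℝ g.Φ1 z)) z := by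
    have h4 := (h2.sub h1).const_smul (2 : ℝ)⁻¹
    have e : g.ζ = (2 : ℝ)⁻¹ • (g.Φ2 - g.Φ1) := by
      funext x
      simp only [SP.ζ, Pi.smul_apply, Pi.sub_apply, smul_eq_mul]
      ring
    rw [e]; exact h4
  rw [h3.fderiv]
  simp only [smul_apply, sub_apply, smul_eq_mul]
  ring

theorem sel_Phi_far (H : g.Hyp q Kd Cs ρ) (w : L.E × ℝ) (hw : w.1 ∈ L.Om)
    (hV : 3 * L.H ≤ L.V w.1) : fderiv ℝ g.Phi w (L.one, 0) = 0 := by
  rw [selC_fd H, H.far1 _ hw hV, H.far2 _ hw hV]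
  ring

/-- the logistic weight far on the negative side -/
theorem selC_lg_small (H : g.Hyp q Kd Cs ρ) {y : ℝ} (hy : y ≤ -g.Y) :
    lg (y / g.d) ≤ Real.exp (-(g.Y / g.d)) := by
  refine (lg_le_exp _).trans (Real.exp_le_exp.2 ?_)
  rw [← neg_div]
  exact div_le_div_of_nonneg_right hy H.d_pos.le

theorem selC_lg_small' (H : g.Hyp q Kd Cs ρ) {y : ℝ} (hy : g.Y ≤ y) :
    1 - lg (y / g.d) ≤ Real.exp (-(g.Y / g.d)) := by
  rw [← lg_neg, ← neg_div]
  exact selC_lg_small H (by linarith)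

theorem selC_bar (H : g.Hyp q Kd Cs ρ) {x : ℝ} (hx : g.r5 ≤ x) : g.bar x = 15 / 10 * g.Y := by
  have hr := H.r5_pos
  have h : st ((x - 8 / 10 * g.r5) / (2 / 10 * g.r5)) = 1 :=
    st_one ((one_le_div (by positivity)).2 (by linarith))
  unfold SP.bar
  rw [h]; ring

/-- weight times gap is small on the domain -/
theorem selC_gapw (H : g.Hyp q Kd Cs ρ) {x y l : ℝ} (hl0 : 0 ≤ l) (hl1 : l ≤ 1) (hZ : |x| < g.Z)
    (hb : g.bar x - 4 / 10 * g.Y < y) (hl : g.Y ≤ y → l ≤ Real.exp (-(g.Y / g.d))) :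
    l * (2 * x) ≤ ρ := by
  have hr := H.r5_pos
  have hY := sel_Y_pos H
  have h1 := H.ρ1
  rcases le_total x g.r5 with hx | hx
  · calc l * (2 * x) ≤ l * (2 * g.r5) := mul_le_mul_of_nonneg_left (by linarith) hl0
      _ ≤ 2 * g.r5 := mul_le_of_le_one_left (by linarith) hl1
      _ ≤ ρ := h1
  · rw [selC_bar H hx] at hb
    have h2 := hl (by linarith)
    have h3 : x ≤ g.Z := (le_abs_self x).trans hZ.le
    calc l * (2 * x) ≤ Real.exp (-(g.Y / g.d)) * (2 * g.Z) :=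
          mul_le_mul h2 (by linarith) (by linarith) (Real.exp_pos _).le
      _ = 2 * g.Z * Real.exp (-(g.Y / g.d)) := mul_comm _ _
      _ ≤ ρ := H.ρ2

theorem selC_Phi1 (w : L.E × ℝ) : g.Phi w = g.Φ1 w.1 + (1 - lg (w.2 / g.d)) * (2 * g.ζ w.1) := by
  unfold SP.Phi SP.ζ; ring

theorem selC_Phi2 (w : L.E × ℝ) : g.Phi w = g.Φ2 w.1 + lg (w.2 / g.d) * (2 * -g.ζ w.1) := by
  unfold SP.Phi SP.ζ; ring

theorem sel_Phi_bd (H : g.Hyp q Kd Cs ρ) (w : L.E × ℝ) (hw : w ∈ g.site.O) :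
    min (g.Φ1 w.1) (g.Φ2 w.1) ≤ g.Phi w ∧ g.Phi w ≤ min (g.Φ1 w.1) (g.Φ2 w.1) + ρ := by
  obtain ⟨-, hZ, hb1, hb2⟩ := hw
  have hl0 := (lg_pos (w.2 / g.d)).le
  have hl1 := (lg_lt_one (w.2 / g.d)).le
  constructor
  · have h1 := mul_le_mul_of_nonneg_left (min_le_left (g.Φ1 w.1) (g.Φ2 w.1)) hl0
    have h2 := mul_le_mul_of_nonneg_left (min_le_right (g.Φ1 w.1) (g.Φ2 w.1)) (sub_nonneg.2 hl1)
    unfold SP.Phi
    linarith
  · rw [← min_add_add_right]
    refine le_min ?_ ?_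
    · have := selC_gapw H (sub_nonneg.2 hl1) (by linarith) hZ hb1 (selC_lg_small' H)
      rw [selC_Phi1]; linarith
    · have := selC_gapw H hl0 hl1 (by rwa [abs_neg]) hb2
        (fun h => selC_lg_small H (by linarith))
      rw [selC_Phi2]; linarith

theorem selC_fo_eq (w : L.E × ℝ) : g.site.fo w =
    g.k * g.al3 (L.V w.1) * (g.drift (g.ζ w.1) w.2 - g.drift (-g.ζ w.1) (-w.2)) := rfl

theorem selC_th_eq (w : L.E × ℝ) :
    g.site.th w = g.k0 * g.a (g.ζ w.1) * g.b w.2 * g.al3 (L.V w.1) := rfl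

/-- the drift has the sign of the gap -/
theorem selC_sign (H : g.Hyp q Kd Cs ρ) (x y : ℝ) :
    0 ≤ x * (g.drift x y - g.drift (-x) (-y)) := by
  have hra := H.ra_pos
  rcases le_total 0 x with hx | hx
  · rw [sel_drift_zero H (x := -x) (by linarith), sub_zero]
    exact mul_nonneg hx (sel_drift_mem x y).1
  · rw [sel_drift_zero H (x := x) (by linarith), zero_sub, mul_neg, ← neg_mul]
    exact mul_nonneg (by linarith) (sel_drift_mem _ _).1

theorem selC_drift_one (H : g.Hyp q Kd Cs ρ) {x y : ℝ} (hx : 2 / 10 * g.r5 ≤ x) (hy : |y| ≤ g.Y) :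
    g.drift x y = 1 := by
  have hr := H.r5_pos
  have hY := sel_Y_pos H
  have hra := H.ra_le
  obtain ⟨h1, h2⟩ := abs_le.1 hy
  have e1 : g.n x = 1 := st_one ((one_le_div (by linarith)).2 (by linarith))
  have e2 : g.lay y = 1 := st_one ((one_le_div (by positivity)).2 (by linarith))
  have e3 : g.room y = 1 := st_one ((one_le_div (by positivity)).2 (by linarith))
  unfold SP.drift
  rw [e1, e2, e3]; ring

theorem selC_strong (H : g.Hyp q Kd Cs ρ) {x y : ℝ} (hx : 2 / 10 * g.r5 ≤ |x|) (hy : |y| ≤ g.Y) :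
    2 / 10 * g.r5 ≤ x * (g.drift x y - g.drift (-x) (-y)) := by
  have hr := H.r5_pos
  have hra := H.ra_pos
  rcases le_abs.1 hx with h | h
  · rw [sel_drift_zero H (x := -x) (by linarith), selC_drift_one H h hy]; linarith
  · rw [sel_drift_zero H (x := x) (by linarith), selC_drift_one H h (by rwa [abs_neg])]; linarith

theorem selC_real1 {l D K F s e ρ : ℝ} (hl0 : 0 ≤ l) (hle : l ≤ e) (hD : D ≤ K) (hK : 0 ≤ K)
    (hF : 0 ≤ F) (hs0 : 0 ≤ s) (hs1 : s ≤ 1) (hρ : 2 * K * e ≤ ρ / 2) :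
    s * (2 * l * D - F) ≤ ρ / 2 := by
  have h1 : l * D ≤ e * K := (mul_le_mul_of_nonneg_left hD hl0).trans
    (mul_le_mul_of_nonneg_right hle hK)
  have h2 : 0 ≤ e * K := mul_nonneg (hl0.trans hle) hK
  calc s * (2 * l * D - F) ≤ s * (2 * (e * K)) := mul_le_mul_of_nonneg_left (by linarith) hs0
    _ ≤ 2 * (e * K) := mul_le_of_le_one_left (by linarith) hs1
    _ ≤ ρ / 2 := by linarith

theorem selC_real2 {l D K d r k A : ℝ} (hl0 : 0 ≤ l) (hl : l ≤ 1 / 2) (hD : D ≤ K) (hK : 0 ≤ K)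
    (hd : 0 < d) (hr : 0 < r) (hk : 10 * K * d / r ≤ k) (hA : 2 / 10 * r ≤ A) :
    2 * l * D - 2 * (l * (1 - l)) / d * (k * A) ≤ 0 := by
  rw [div_le_iff₀ hr] at hk
  have hKd : 0 ≤ K * d := mul_nonneg hK hd.le
  have hk0 : 0 ≤ k := by
    by_contra hc
    have := mul_neg_of_neg_of_pos (not_le.1 hc) hr
    linarith
  have h1 : 2 * (K * d) ≤ k * A := by
    have := mul_le_mul_of_nonneg_left hA hk0
    linarith
  have h2 : 2 * K ≤ k * A / d := by rw [le_div_iff₀ hd]; linarith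
  have h3 : K ≤ (1 - l) * (k * A / d) := by
    have := mul_le_mul (show 1 / 2 ≤ 1 - l by linarith) h2 (by linarith) (by linarith)
    linarith
  have h4 := mul_le_mul_of_nonneg_left (hD.trans h3) hl0
  have e : 2 * (l * (1 - l)) / d * (k * A) = 2 * (l * ((1 - l) * (k * A / d))) := by ring
  rw [e]; linarith

/-- the cross term together with the drift term -/
theorem selC_cross (H : g.Hyp q Kd Cs ρ) (w : L.E × ℝ) {l D s' : ℝ} (hl0 : 0 ≤ l) (hl : l ≤ 1 / 2)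
    (hle : g.Y ≤ |w.2| → l ≤ Real.exp (-(g.Y / g.d))) (hD : D ≤ Kd)
    (hfar : 3 * L.H ≤ L.V w.1 → D = 0) (hs0 : 0 ≤ s') (hs1 : s' ≤ 1)
    (hth : g.site.th w = q.k0 → s' = 0) :
    s' * (2 * l * D - 2 * g.ζ w.1 * (l * (1 - l)) / g.d * g.site.fo w) ≤ ρ / 2 := by
  have hr := H.r5_pos
  have hY := sel_Y_pos H
  have hd := H.d_pos
  have hρ : 0 ≤ ρ / 2 := by linarith [H.ρ1]
  have e : 2 * g.ζ w.1 * (l * (1 - l)) / g.d * g.site.fo w = 2 * (l * (1 - l)) / g.d *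
      (g.k * (g.al3 (L.V w.1) *
        (g.ζ w.1 * (g.drift (g.ζ w.1) w.2 - g.drift (-g.ζ w.1) (-w.2))))) := by
    rw [selC_fo_eq]; ring
  have hF : 0 ≤ 2 * g.ζ w.1 * (l * (1 - l)) / g.d * g.site.fo w := by
    rw [e]
    exact mul_nonneg (div_nonneg (mul_nonneg zero_le_two (mul_nonneg hl0 (by linarith))) hd.le)
      (mul_nonneg H.k_pos.le (mul_nonneg (st_nonneg _) (selC_sign H _ _)))
  rcases le_total g.Y |w.2| with hy | hy
  · exact selC_real1 hl0 (hle hy) hD H.Kd_nonneg hF hs0 hs1 H.ρ3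
  rcases le_total (3 * L.H) (L.V w.1) with hV | hV
  · rw [hfar hV, mul_zero, zero_sub, mul_neg]
    linarith [mul_nonneg hs0 hF]
  have ha : g.al3 (L.V w.1) = 1 := by
    refine st_one ?_
    have hH := H.goodq.H_pos
    have hL := H.goodL.H_pos
    have h1 : 16 * L.V w.1 / g.H ≤ 1 := by
      rw [H.H_eq, div_le_one hH]; linarith [H.H_ge]
    linarith
  rcases le_total |g.ζ w.1| (2 / 10 * g.r5) with hx | hx
  · have h1 : g.a (g.ζ w.1) = 1 := pl_one (by linarith) hx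
    have h2 : g.b w.2 = 1 := pl_one (by linarith) (by linarith)
    rw [hth (by rw [selC_th_eq, h1, h2, ha, H.k0_eq]; ring), zero_mul]
    exact hρ
  · rw [e, ha, one_mul]
    have := selC_real2 hl0 hl hD H.Kd_nonneg hd hr H.n4 (selC_strong H hx hy)
    exact (mul_nonpos_of_nonneg_of_nonpos hs0 this).trans hρ

/-- sharper form of the first gap -/
theorem selC_gap (H : g.Hyp q Kd Cs ρ) {x y : ℝ} (hx : g.ra ≤ x) (hx' : x ≤ 4 / 10 * g.r5)
    (hv : g.Tt (-x) (-y) ≤ g.Tt x y + g.rs) : y ≤ -g.Y := by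
  by_contra hy
  have hY := sel_Y_pos H
  have hr := H.r5_pos
  have hra := H.ra_pos
  have h1 : g.m x = 1 := st_one ((one_le_div hra).2 hx)
  have h2 : g.m (-x) = 0 := st_zero (div_nonpos_of_nonpos_of_nonneg (by linarith) hra.le)
  have h3 : g.J y = 0 :=
    st_zero (div_nonpos_of_nonpos_of_nonneg (by linarith [not_le.1 hy]) (by positivity))
  have h4 := (sel_T0_mem H y).2
  have h5 := (sel_T0_mem H (-y)).1
  have h6 : g.chi x = 1 := pl_one (by linarith) (abs_le.2 ⟨by linarith, hx'⟩)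
  have h7 : g.chi (-x) = 1 := pl_one (by linarith) (abs_le.2 ⟨by linarith, by linarith⟩)
  unfold SP.Tt at hv
  rw [neg_neg, neg_neg, h1, h2, h3, h6, h7] at hv
  linarith [H.rs_le]

theorem selC_real3 {x m d P c : ℝ} (hm : 0 ≤ m) (hd : 0 < d) (hP0 : 0 ≤ P) (hP1 : P ≤ 1)
    (hc : 0 ≤ c) (h : 0 ≤ x → 2 * x * m / d ≤ c) : 2 * x * m / d * P ≤ c := by
  rcases le_total 0 x with hx | hx
  · exact (mul_le_of_le_one_right (by positivity) hP1).trans (h hx)
  · refine le_trans (mul_nonpos_of_nonpos_of_nonneg ?_ hP0) hc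
    exact div_nonpos_of_nonpos_of_nonneg (mul_nonpos_of_nonpos_of_nonneg (by linarith) hm) hd.le

/-- the push against the gap is small -/
theorem selC_push1 (H : g.Hyp q Kd Cs ρ) {x y m P : ℝ} (hm0 : 0 ≤ m) (hm : m ≤ 1 / 4)
    (hme : y ≤ -g.Y → m ≤ Real.exp (-(g.Y / g.d))) (hP0 : 0 ≤ P) (hP1 : P ≤ 1)
    (hx' : x ≤ 4 / 10 * g.r5) (hv : g.Tt (-x) (-y) ≤ g.Tt x y + g.rs) :
    2 * x * m / g.d * P ≤ ρ / 2 := by
  have hr := H.r5_pos
  have hd := H.d_pos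
  refine selC_real3 hm0 hd hP0 hP1 (by linarith [H.ρ1]) fun hx0 => ?_
  rcases le_total g.ra x with hx | hx
  · refine le_trans (div_le_div_of_nonneg_right ?_ hd.le) H.ρ4
    exact mul_le_mul (by linarith) (hme (selC_gap H hx hx' hv)) hm0 (by linarith)
  · rw [div_le_iff₀ hd]
    have := mul_le_mul hx hm hm0 H.ra_pos.le
    linarith [H.ρ5]

theorem selC_push (H : g.Hyp q Kd Cs ρ) (w : L.E × ℝ) {amt : ℝ} {b : Bool}
    (hv : g.site.valid b w) (h0 : 0 ≤ amt) (h1 : amt ≤ 1) (hth : 0 < amt → 0 < g.site.th w) :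
    -(2 * g.ζ w.1 * (lg (w.2 / g.d) * (1 - lg (w.2 / g.d))) / g.d * (g.site.psh b w * amt)) ≤
      ρ / 2 := by
  rcases h0.eq_or_lt with h | h
  · rw [← h, mul_zero, mul_zero, neg_zero]
    linarith [H.ρ1, H.r5_pos]
  obtain ⟨-, hx, -⟩ := sel_th_act H w (hth h)
  obtain ⟨hx1, hx2⟩ := abs_lt.1 hx
  have hl0 := (lg_pos (w.2 / g.d)).le
  have hl1 := (lg_lt_one (w.2 / g.d)).le
  have hm0 : 0 ≤ lg (w.2 / g.d) * (1 - lg (w.2 / g.d)) := mul_nonneg hl0 (sub_nonneg.2 hl1)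
  have hm : lg (w.2 / g.d) * (1 - lg (w.2 / g.d)) ≤ 1 / 4 := by
    linarith [sq_nonneg (lg (w.2 / g.d) - 1 / 2)]
  obtain ⟨p0, p1, m0, m1⟩ := sel_sp_mem H w
  cases b
  · have := selC_push1 H (x := g.ζ w.1) (y := w.2) (P := g.site.spM w * amt) hm0 hm
      (fun hy => (mul_le_of_le_one_right hl0 (by linarith)).trans (selC_lg_small H hy))
      (mul_nonneg m0 h0) (mul_le_one₀ m1 h0 h1) hx2.le hv
    have e : g.site.psh false w = -g.site.spM w := rfl
    rw [e]; linarith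
  · have hv' : g.Tt (g.ζ w.1) w.2 ≤ g.Tt (-g.ζ w.1) (-w.2) + g.rs := hv
    have := selC_push1 H (x := -g.ζ w.1) (y := -w.2) (P := g.site.spP w * amt) hm0 hm
      (fun hy => (mul_le_of_le_one_left (sub_nonneg.2 hl1) hl1).trans
        (selC_lg_small' H (by linarith)))
      (mul_nonneg p0 h0) (mul_le_one₀ p1 h0 h1) (by linarith) (by rwa [neg_neg, neg_neg])
    have e : g.site.psh true w = g.site.spP w := rfl
    have e2 : ∀ a m d P : ℝ, -(2 * a * m / d * P) = 2 * -a * m / d * P := fun a m d P => by ring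
    rw [e, e2]; exact this

theorem selC_near (H : g.Hyp q Kd Cs ρ) {x y l : ℝ} (hl0 : 0 ≤ l) (hl1 : l ≤ 1)
    (hb : g.bar x - 4 / 10 * g.Y < y) (hy : y ≤ 0) : l * (2 * x) ≤ ρ := by
  have hr := H.r5_pos
  have hY := sel_Y_pos H
  rcases le_total x g.r5 with hx | hx
  · calc l * (2 * x) ≤ l * (2 * g.r5) := mul_le_mul_of_nonneg_left (by linarith) hl0
      _ ≤ 2 * g.r5 := mul_le_of_le_one_left (by linarith) hl1
      _ ≤ ρ := H.ρ1
  · rw [selC_bar H hx] at hb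
    linarith

/-- Plan: take `Φ1` if `0 ≤ y`, else `Φ2`.  With `l = lg (y / d)`,
`dPhi = s' (l dΦ1 u + (1 - l) dΦ2 u) - 2 ζ l (1 - l) / d * (fo s' + psh amt)` and `ζ fo ≥ 0`.
Cross term: `Y ≤ |y|` use `ρ3`; else `b = 1`, so `th = k0` (then `s' = 0`), or `al3 < 1` (far),
or `0.2 r5 < |ζ|` where `ζ fo = k |ζ|` compensates by `n4`.  Push term: natural sign is good;
other sign: `ra ≤ |ζ|` gives `1.2 Y < |y|` on the far side by `sel_gap1` (`ρ4`), else `ρ5`. -/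
theorem sel_Phi_resp (H : g.Hyp q Kd Cs ρ) (w : L.E × ℝ) (hw : w ∈ g.site.O) (hw' : w.1 ∈ L.Om) :
    ∃ Φ : L.E → ℝ, (Φ = g.Φ1 ∨ Φ = g.Φ2) ∧ Φ w.1 ≤ g.Phi w + ρ ∧
      ∀ (s' amt μ : ℝ) (b : Bool), ∀ u ∈ L.K w.1, 0 ≤ s' → s' ≤ 1 → (g.site.th w = q.k0 → s' = 0) →
        g.site.valid b w → 0 ≤ amt → amt ≤ 1 → (0 < amt → 0 < g.site.th w) → 0 ≤ μ →
        fderiv ℝ Φ w.1 u ≤ μ →
        fderiv ℝ g.Phi w (s' • u, g.site.fo w * s' + g.site.psh b w * amt) ≤ μ + ρ := by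
  obtain ⟨-, -, hb1, hb2⟩ := hw
  have hl0 := (lg_pos (w.2 / g.d)).le
  have hl1 := (lg_lt_one (w.2 / g.d)).le
  have hd := H.d_pos
  rcases le_total 0 w.2 with hy | hy
  · refine ⟨g.Φ1, Or.inl rfl, ?_, ?_⟩
    · have := selC_near H (sub_nonneg.2 hl1) (by linarith) hb2 (by linarith)
      rw [selC_Phi1]; linarith
    · intro s' amt μ b u hu hs0 hs1 hth hv h0 h1 hact hμ hΦ
      have hh := lg_ge_half (div_nonneg hy hd.le)
      have hc := selC_cross H w (l := 1 - lg (w.2 / g.d)) (D := fderiv ℝ g.ζ w.1 u)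
        (sub_nonneg.2 hl1) (by linarith)
        (fun h => selC_lg_small' H (by rwa [abs_of_nonneg hy] at h))
        ((le_abs_self _).trans (H.Kd_bd _ hw' u hu)) (fun h => sel_zeta_far H hw' h hu) hs0 hs1 hth
      have hp := selC_push H w hv h0 h1 hact
      have hm : s' * fderiv ℝ g.Φ1 w.1 u ≤ μ :=
        (mul_le_mul_of_nonneg_left hΦ hs0).trans (mul_le_of_le_one_left hμ hs1)
      rw [selC_dzeta H] at hc
      rw [selC_fd H, map_smul, map_smul, smul_eq_mul, smul_eq_mul]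
      have e : ∀ l A B s x d f P : ℝ, l * (s * A) + (1 - l) * (s * B) -
          2 * x * (l * (1 - l)) / d * (f * s + P) =
          s * A + s * (2 * (1 - l) * ((B - A) / 2) - 2 * x * ((1 - l) * (1 - (1 - l))) / d * f) +
            -(2 * x * (l * (1 - l)) / d * P) := fun l A B s x d f P => by ring
      rw [e]; linarith
  · refine ⟨g.Φ2, Or.inr rfl, ?_, ?_⟩
    · have := selC_near H hl0 hl1 hb1 hy
      rw [selC_Phi2]; linarith
    · intro s' amt μ b u hu hs0 hs1 hth hv h0 h1 hact hμ hΦ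
      have hh := lg_ge_half (x := -(w.2 / g.d))
        (neg_nonneg.2 (div_nonpos_of_nonpos_of_nonneg hy hd.le))
      rw [lg_neg] at hh
      have hc := selC_cross H w (l := lg (w.2 / g.d)) (D := -fderiv ℝ g.ζ w.1 u)
        hl0 (by linarith)
        (fun h => selC_lg_small H (by rw [abs_of_nonpos hy] at h; linarith))
        ((neg_le_abs _).trans (H.Kd_bd _ hw' u hu))
        (fun h => by rw [sel_zeta_far H hw' h hu, neg_zero]) hs0 hs1 hth
      have hp := selC_push H w hv h0 h1 hact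
      have hm : s' * fderiv ℝ g.Φ2 w.1 u ≤ μ :=
        (mul_le_mul_of_nonneg_left hΦ hs0).trans (mul_le_of_le_one_left hμ hs1)
      rw [selC_dzeta H] at hc
      rw [selC_fd H, map_smul, map_smul, smul_eq_mul, smul_eq_mul]
      have e : ∀ l A B s x d f P : ℝ, l * (s * A) + (1 - l) * (s * B) -
          2 * x * (l * (1 - l)) / d * (f * s + P) =
          s * B + s * (2 * l * -((B - A) / 2) - 2 * x * (l * (1 - l)) / d * f) +
            -(2 * x * (l * (1 - l)) / d * P) := fun l A B s x d f P => by ring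
      rw [e]; linarith

end Pool.Agent.MP703675
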