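import Pool.Agent.Lib.MP_703675_gt.SelB
import Pool.Agent.Lib.MP_703675_gt.SelC
import Pool.Agent.Lib.MP_703675_gt.LayerC

set_option autoImplicit false

open Set Metric Filter Topology TopologicalSpace

noncomputable section

namespace Pool.Agent.MP703675

/-- above `3 H` the derivative vanishes on all velocities -/
theorem selD_far {L : Sys} (hL : L.Good) {ζ : L.E → ℝ}
    (f : ∀ z ∈ L.Om, 3 * L.H ≤ L.V z → fderiv ℝ ζ z L.one = 0) {z : L.E} (hz : z ∈ L.Om)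
    (hV : 3 * L.H ≤ L.V z) {u : L.E} (hu : u ∈ L.K z) : fderiv ℝ ζ z u = 0 := by
  obtain ⟨c, -, rfl⟩ := (hL.farLaw z hz hV u).1 hu
  rw [map_smul, f z hz hV, smul_zero]

/-- global bound of the derivative along velocities -/
theorem selD_Kd {L : Sys} (hL : L.Good) {ζ : L.E → ℝ} (s : ContDiff ℝ 1 ζ)
    (f : ∀ z ∈ L.Om, 3 * L.H ≤ L.V z → fderiv ℝ ζ z L.one = 0) :
    ∃ Kd : ℝ, 0 ≤ Kd ∧ ∀ z ∈ L.Om, ∀ u ∈ L.K z, |fderiv ℝ ζ z u| ≤ Kd := by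
  obtain ⟨R, hR⟩ := hL.bdd (3 * L.H)
  obtain ⟨C, hC0, hC⟩ := fderiv_bound hL.bddK s R
  refine ⟨C, hC0, fun z hz u hu => ?_⟩
  rcases le_total (L.V z) (3 * L.H) with h | h
  · exact hC z (hR z hz h) u hu
  · rw [selD_far hL f hz h hu, abs_zero]
    exact hC0

/-- constancy on the far ray -/
theorem selD_const {L : Sys} (hL : L.Good) {ζ : L.E → ℝ} (s : Differentiable ℝ ζ)
    (f : ∀ z ∈ L.Om, 3 * L.H ≤ L.V z → fderiv ℝ ζ z L.one = 0) {t : ℝ} (ht : 3 * L.H ≤ t) :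
    ζ (L.far t) = ζ (L.far (3 * L.H)) := by
  have hd : ∀ x : ℝ, HasDerivAt (fun r => ζ (L.far r)) (fderiv ℝ ζ (L.far x) L.one) x := by
    intro x
    have h1 : HasDerivAt (fun r : ℝ => L.far r) L.one x := by
      have := ((hasDerivAt_id x).smul_const L.one).const_add L.z0
      simpa [Sys.far] using this
    exact (s (L.far x)).hasFDerivAt.comp_hasDerivAt x h1
  have := constant_of_has_deriv_right_zero (f := fun r => ζ (L.far r)) (a := 3 * L.H) (b := t)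
    (fun x _ => (hd x).continuousAt.continuousWithinAt)
    (fun x hx => by
      have h0 : fderiv ℝ ζ (L.far x) L.one = 0 :=
        f _ (hL.far_mem hx.1) (by rw [hL.V_far]; exact hx.1)
      have := hd x
      rw [h0] at this
      exact this.hasDerivWithinAt) t ⟨ht, le_rfl⟩
  exact this

/-- one sided bound along admissible trajectories -/
theorem selD_Z1 {L : Sys} (hL : L.Good) {ζ : L.E → ℝ} (s : Differentiable ℝ ζ)
    (f : ∀ z ∈ L.Om, 3 * L.H ≤ L.V z → fderiv ℝ ζ z L.one = 0) :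
    ∃ M : ℝ, ∀ Z a b, L.Adm Z a b → ∀ t ∈ Icc a b, ζ (Z t) ≤ M := by
  obtain ⟨R, hR⟩ := hL.bdd (3 * L.H)
  obtain ⟨C, hC⟩ := (isCompact_closedBall (0 : L.E) R).bddAbove_image
    s.continuous.continuousOn
  refine ⟨max C (ζ (L.far (3 * L.H))), fun Z a b hZ => ?_⟩
  have hinv := hL.inv Z a b hZ
  obtain ⟨-, hT, T, hT1, -, hT3⟩ := hZ
  refine hT.barrier hL.bddK s (fun r hr hc κ hκ => ?_) ?_
  · have hm : Z r ∈ L.Om := hinv r ⟨hr.1, hr.2.le⟩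
    rcases le_total (L.V (Z r)) (3 * L.H) with h | h
    · exfalso
      have h1 : ζ (Z r) ≤ C := hC ⟨Z r, mem_closedBall_zero_iff.2 (hR _ hm h), rfl⟩
      exact absurd (lt_of_le_of_lt (le_max_left _ _) hc) (not_lt.2 h1)
    · exact (selD_far hL f hm h hκ).le
  · rw [hT3, selD_const hL s f hT1]
    exact le_max_right _ _

theorem selD_Z {L : Sys} (hL : L.Good) {ζ : L.E → ℝ} (s : Differentiable ℝ ζ)
    (f : ∀ z ∈ L.Om, 3 * L.H ≤ L.V z → fderiv ℝ ζ z L.one = 0) :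
    ∃ M : ℝ, 0 < M ∧ ∀ Z a b, L.Adm Z a b → ∀ t ∈ Icc a b, |ζ (Z t)| < M := by
  obtain ⟨M1, h1⟩ := selD_Z1 hL s f
  obtain ⟨M2, h2⟩ := selD_Z1 hL (ζ := fun z => -ζ z) s.neg (fun z hz hV => by
    rw [fderiv_fun_neg, neg_apply, f z hz hV, neg_zero])
  refine ⟨|M1| + |M2| + 1, by positivity, fun Z a b hZ t ht => ?_⟩
  have a1 := h1 Z a b hZ t ht
  have a2 := h2 Z a b hZ t ht
  have b1 := le_abs_self M1
  have b2 := le_abs_self M2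
  have c1 := abs_nonneg M1
  have c2 := abs_nonneg M2
  rw [abs_lt]
  constructor <;> linarith

theorem selD_exp {x : ℝ} (hx : 0 < x) : Real.exp (-x) ≤ 2 / x ^ 2 := by
  have h := Real.quadratic_le_exp_of_nonneg hx.le
  rw [Real.exp_neg, inv_eq_one_div, div_le_div_iff₀ (Real.exp_pos x) (by positivity)]
  nlinarith

/-- choice of the width of the logistic transition -/
theorem selD_d {Y ε : ℝ} (hY : 0 < Y) (hε : 0 < ε) :
    ∃ d : ℝ, 0 < d ∧ Real.exp (-(Y / d)) ≤ ε ∧ Real.exp (-(Y / d)) / d ≤ ε := by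
  refine ⟨min 1 (ε * Y ^ 2 / 2), by positivity, ?_⟩
  set d := min 1 (ε * Y ^ 2 / 2) with hd
  have d0 : 0 < d := by positivity
  have d1 : d ≤ 1 := min_le_left _ _
  have d2 : d ≤ ε * Y ^ 2 / 2 := min_le_right _ _
  have h1 : Real.exp (-(Y / d)) ≤ 2 / (Y / d) ^ 2 := selD_exp (by positivity)
  have h2 : 2 / (Y / d) ^ 2 = 2 * d / Y ^ 2 * d := by field_simp
  have h3 : 2 * d / Y ^ 2 ≤ ε := by
    rw [div_le_iff₀ (by positivity)]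
    linarith
  have h4 : Real.exp (-(Y / d)) ≤ ε * d := by
    rw [h2] at h1
    exact h1.trans (mul_le_mul_of_nonneg_right h3 d0.le)
  constructor
  · exact h4.trans (by nlinarith)
  · rw [div_le_iff₀ d0]
    exact h4

theorem selD_small {A ε : ℝ} (hA : 0 ≤ A) (hε : 0 < ε) :
    ∃ δ : ℝ, 0 < δ ∧ ∀ x : ℝ, x ≤ δ → x * A ≤ ε := by
  refine ⟨ε / (A + 1), by positivity, fun x hx => ?_⟩
  have h1 : x * A ≤ ε / (A + 1) * A := mul_le_mul_of_nonneg_right hx hA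
  have h2 : ε / (A + 1) * A ≤ ε := by
    rw [div_mul_eq_mul_div, div_le_iff₀ (by positivity)]
    nlinarith
  exact h1.trans h2

/-- existence of selector data -/
theorem selD_hyp {L : Sys} (hL : L.Good) {Φ1 Φ2 : L.E → ℝ} (s1 : ContDiff ℝ 2 Φ1)
    (s2 : ContDiff ℝ 2 Φ2) (f1 : ∀ z ∈ L.Om, 3 * L.H ≤ L.V z → fderiv ℝ Φ1 z L.one = 0)
    (f2 : ∀ z ∈ L.Om, 3 * L.H ≤ L.V z → fderiv ℝ Φ2 z L.one = 0) {ρ : ℝ} (hρ : 0 < ρ)
    {β : ℝ} (hβ : 0 < β) (H0 : ℝ) :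
    ∃ (g : SP L) (q : Par) (Kd Cs : ℝ), g.Φ1 = Φ1 ∧ g.Φ2 = Φ2 ∧ q.w ≤ β ∧ q.c ≤ β ∧ H0 ≤ q.H ∧
      g.Hyp q Kd Cs ρ := by
  have d1 : Differentiable ℝ Φ1 := s1.differentiable (by norm_num)
  have d2 : Differentiable ℝ Φ2 := s2.differentiable (by norm_num)
  have sζ : ContDiff ℝ 2 (fun z => (Φ2 z - Φ1 z) / 2) := (s2.sub s1).div_const 2
  have dζ : Differentiable ℝ (fun z => (Φ2 z - Φ1 z) / 2) := sζ.differentiable (by norm_num)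
  have fζ : ∀ z ∈ L.Om, 3 * L.H ≤ L.V z →
      fderiv ℝ (fun z => (Φ2 z - Φ1 z) / 2) z L.one = 0 := by
    intro z hz hV
    have h := (((d2 z).hasFDerivAt.sub (d1 z).hasFDerivAt).mul_const (1 / 2 : ℝ))
    have e : (fun z => (Φ2 z - Φ1 z) / 2) = fun y => (Φ2 - Φ1) y * (1 / 2 : ℝ) := by
      funext y
      simp only [Pi.sub_apply]
      ring
    rw [e, h.fderiv]
    simp [f1 z hz hV, f2 z hz hV]
  obtain ⟨Kd, hKd0, hKd⟩ := selD_Kd hL (sζ.of_le (by norm_num)) fζ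
  obtain ⟨Z, hZ0, hZ⟩ := selD_Z hL dζ fζ
  obtain ⟨Cs, hCs1, hCs⟩ := exists_Cs
  have hLH := hL.H_pos
  obtain ⟨H, hH0, hH1⟩ : ∃ H : ℝ, H0 ≤ H ∧ 64 * L.H ≤ H := ⟨max H0 (64 * L.H), le_max_left _ _,
    le_max_right _ _⟩
  have hH : 0 < H := by linarith
  obtain ⟨r5, hr5, hr5'⟩ : ∃ r5 : ℝ, 0 < r5 ∧ 2 * r5 = ρ := ⟨ρ / 2, by positivity, by ring⟩
  obtain ⟨η0, hη0, hη0'⟩ := selD_small hH.le (half_pos hβ)
  obtain ⟨η, hη, hη1, hη2⟩ : ∃ η : ℝ, 0 < η ∧ η ≤ 1 / 100 ∧ η ≤ η0 :=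
    ⟨min (1 / 100) η0, by positivity, min_le_left _ _, min_le_right _ _⟩
  obtain ⟨ε1, hε1, hε1'⟩ := selD_small (A := 10 * Cs * Kd / r5 + 16 * Cs / H) (ε := η / 8)
    (by positivity) (by positivity)
  obtain ⟨ε2, hε2, hε2'⟩ := selD_small (A := 9 * Cs * Kd / r5) (ε := η / 16)
    (by positivity) (by positivity)
  obtain ⟨ε, hε, he1, he2, he3⟩ : ∃ ε : ℝ, 0 < ε ∧ ε ≤ ε1 ∧ ε ≤ ε2 ∧ ε ≤ β / 4 :=
    ⟨min ε1 (min ε2 (β / 4)), by positivity, min_le_left _ _,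
      (min_le_right _ _).trans (min_le_left _ _), (min_le_right _ _).trans (min_le_right _ _)⟩
  obtain ⟨q, hq, hqH, hqη, hk0, hc, hcap⟩ := Par.exists_good hH hη hη1 hε
  have hc0 := hq.c_pos
  obtain ⟨Y, hY, hY'⟩ : ∃ Y : ℝ, 0 < Y ∧ Y = q.c / 10 := ⟨q.c / 10, by positivity, rfl⟩
  obtain ⟨τ1, hτ1, hτ1'⟩ := selD_small (A := 2 * Z) (ε := ρ) (by positivity) hρ
  obtain ⟨τ2, hτ2, hτ2'⟩ := selD_small (A := 2 * Kd) (ε := ρ / 2) (by positivity) (by positivity)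
  obtain ⟨τ3, hτ3, hτ3'⟩ := selD_small (A := 2 * r5) (ε := ρ / 2) (by positivity) (by positivity)
  obtain ⟨τ, hτ, ht1, ht2, ht3⟩ : ∃ τ : ℝ, 0 < τ ∧ τ ≤ τ1 ∧ τ ≤ τ2 ∧ τ ≤ τ3 :=
    ⟨min τ1 (min τ2 τ3), by positivity, min_le_left _ _,
      (min_le_right _ _).trans (min_le_left _ _), (min_le_right _ _).trans (min_le_right _ _)⟩
  obtain ⟨d, hd, hd1, hd2⟩ := selD_d hY hτ
  obtain ⟨ra, hra, hra1, hra2⟩ : ∃ ra : ℝ, 0 < ra ∧ ra ≤ r5 / 10 ∧ ra ≤ ρ * d :=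
    ⟨min (r5 / 10) (ρ * d), by positivity, min_le_left _ _, min_le_right _ _⟩
  obtain ⟨k, hk, hk1, hk2⟩ : ∃ k : ℝ, 0 < k ∧ 18 * Y * Cs * Kd / r5 ≤ k ∧ 10 * Kd * d / r5 ≤ k := by
    have a1 : 0 ≤ 18 * Y * Cs * Kd / r5 := by positivity
    have a2 : 0 ≤ 10 * Kd * d / r5 := by positivity
    exact ⟨18 * Y * Cs * Kd / r5 + 10 * Kd * d / r5 + 1, by linarith, by linarith, by linarith⟩
  obtain ⟨s0, hs0, hs0'⟩ := selD_small (A := k / Y) (ε := η / 16) (by positivity) (by positivity)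
  obtain ⟨rs, hrs, hrs1, hrs2⟩ : ∃ rs : ℝ, 0 < rs ∧ rs ≤ Y ∧ rs ≤ s0 :=
    ⟨min Y s0, by positivity, min_le_left _ _, min_le_right _ _⟩
  obtain ⟨y0, hy0⟩ : ∃ y0 : ℝ,
      ((∀ t, 3 * L.H ≤ t → 0 ≤ (Φ2 (L.far t) - Φ1 (L.far t)) / 2) ∧ y0 = 15 / 10 * Y) ∨
      ((∀ t, 3 * L.H ≤ t → (Φ2 (L.far t) - Φ1 (L.far t)) / 2 ≤ 0) ∧ y0 = -(15 / 10 * Y)) := by
    rcases le_total 0 ((Φ2 (L.far (3 * L.H)) - Φ1 (L.far (3 * L.H))) / 2) with h | h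
    · refine ⟨_, Or.inl ⟨fun t ht => ?_, rfl⟩⟩
      exact h.trans (selD_const hL dζ fζ ht).ge
    · refine ⟨_, Or.inr ⟨fun t ht => ?_, rfl⟩⟩
      exact (selD_const hL dζ fζ ht).le.trans h
  refine ⟨⟨Φ1, Φ2, r5, Y, d, ra, k, rs, q.k0, q.H, y0, Z⟩, q, Kd, Cs, rfl, rfl, ?_, by linarith,
    by linarith, ?_⟩
  · have := hη0' η hη2
    unfold Par.w
    rw [hqH, hqη]
    linarith
  · refine
      { goodL := hL, goodq := hq, Cs_bd := hCs, H_ge := by linarith, smooth1 := s1, smooth2 := s2,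
        far1 := f1, far2 := f2, Kd_nonneg := hKd0, Kd_bd := hKd, Z_bd := hZ, y0_eq := hy0,
        r5_pos := hr5, d_pos := hd, ra_pos := hra, rs_pos := hrs, k_pos := hk, Y_eq := hY',
        k0_eq := rfl, H_eq := rfl, ra_le := hra1, rs_le := hrs1, n1 := ?_, n2 := ?_, n3 := hk1,
        n4 := hk2, ρ1 := hr5'.le, ρ2 := ?_, ρ3 := ?_, ρ4 := ?_, ρ5 := hra2 }
    · show q.k0 * (10 * Cs * Kd / r5 + 16 * Cs / q.H) ≤ q.eta / 8
      rw [hqH, hqη]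
      exact hε1' _ (hk0.trans he1)
    · show 90 * Cs * Kd * Y / r5 + rs * k / Y ≤ q.eta / 8
      have a1 := hε2' _ (hc.trans he2)
      have a2 := hs0' _ hrs2
      have a3 : 90 * Cs * Kd * Y / r5 = q.c * (9 * Cs * Kd / r5) := by
        rw [hY']
        ring
      have a4 : rs * k / Y = rs * (k / Y) := by ring
      rw [hqη, a3, a4]
      linarith
    · show 2 * Z * Real.exp (-(Y / d)) ≤ ρ
      have := hτ1' _ (hd1.trans ht1)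
      linarith
    · show 2 * Kd * Real.exp (-(Y / d)) ≤ ρ / 2
      have := hτ2' _ (hd1.trans ht2)
      linarith
    · show 2 * r5 * Real.exp (-(Y / d)) / d ≤ ρ / 2
      have := hτ3' _ (hd2.trans ht3)
      have a : 2 * r5 * Real.exp (-(Y / d)) / d = Real.exp (-(Y / d)) / d * (2 * r5) := by ring
      rw [a]
      exact this

theorem selD_fderiv {A B : Type} [NormedAddCommGroup A] [NormedSpace ℝ A] [NormedAddCommGroup B]
    [NormedSpace ℝ B] {F : A → ℝ} (hF : Differentiable ℝ F) (x κ : A × B) :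
    fderiv ℝ (fun z : A × B => F z.1) x κ = fderiv ℝ F x.1 κ.1 := by
  have h : HasFDerivAt (fun z : A × B => F z.1)
      ((fderiv ℝ F x.1).comp (ContinuousLinearMap.fst ℝ A B)) x :=
    (hF x.1).hasFDerivAt.comp x hasFDerivAt_fst
  rw [h.fderiv]
  rfl

/-- Plan: `Kd` from `fderiv_bound` below `3 H` and zero above; `ζ` is constant on the far ray;
`Z` by `barrier`.  Choose in this order: `r5 = ρ / 2`, `H = max H0 (64 L.H)`, `eta`,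
`q` (small `k0`, `c`, `cap`), `Y = c / 10`, `d` small, `ra`, `k` large, `rs` small.
Then `D = layer L q site`, `Φ' = Phi ∘ fst`, `layer_resp_plus` with `RespAt.mono`. -/
theorem selector {L : Sys} (hL : L.Good) {Φ1 Φ2 : L.E → ℝ} (s1 : ContDiff ℝ 2 Φ1)
    (s2 : ContDiff ℝ 2 Φ2) (f1 : ∀ z ∈ L.Om, 3 * L.H ≤ L.V z → fderiv ℝ Φ1 z L.one = 0)
    (f2 : ∀ z ∈ L.Om, 3 * L.H ≤ L.V z → fderiv ℝ Φ2 z L.one = 0) {ρ : ℝ} (hρ : 0 < ρ) (n : ℕ)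
    {β : ℝ} (hβ : 0 < β) (H0 : ℝ) :
    ∃ (D : Sys) (π : D.E →L[ℝ] L.E) (q : Par) (ld : LD D.E) (Φ' : D.E → ℝ),
      q.w ≤ β ∧ H0 ≤ q.H ∧ D.Good ∧ Tower L 1 D π n (n + 1) (fun _ => q) ld β ∧
      (∃ c, D.HasCtr c ∧ π c = 0 ∧ ∀ z, fderiv ℝ Φ' z c = 0) ∧ ContDiff ℝ 2 Φ' ∧
      (∀ z ∈ D.Om, 3 * D.H ≤ D.V z → fderiv ℝ Φ' z D.one = 0) ∧
      (∀ z ∈ D.Om, min (Φ1 (π z)) (Φ2 (π z)) ≤ Φ' z ∧ Φ' z ≤ min (Φ1 (π z)) (Φ2 (π z)) + ρ) ∧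
      ∀ z ∈ D.Om, ∃ Φ : L.E → ℝ, (Φ = Φ1 ∨ Φ = Φ2) ∧ Φ (π z) ≤ Φ' z + ρ ∧
        RespAt L 1 D π n (n + 1) (fun _ => q) ld z
          (fun _ u κ => ∀ μ : ℝ, 0 ≤ μ → fderiv ℝ Φ (π z) u ≤ μ → fderiv ℝ Φ' z κ ≤ μ + ρ) := by
  obtain ⟨g, q, Kd, Cs, rfl, rfl, hw, hc, hH0, H⟩ := selD_hyp hL s1 s2 f1 f2 hρ hβ H0
  have hq := H.goodq
  have hσ := sel_good H
  have hH := H.H_ge
  have hs := sel_Phi_smooth H
  have hd : Differentiable ℝ g.Phi := hs.differentiable (by norm_num)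
  refine ⟨layer L q g.site, layerPi L q g.site, q, layerLD L q g.site, fun x => g.Phi x.1, hw, hH0,
    layer_good hL hq hσ hH, (layer_tower hL hq hσ hH n).slk_mono hc,
    ⟨layerCtr L q g.site, (layer_ctr hL hq).1, (layer_ctr hL hq).2, fun z => ?_⟩,
    hs.comp contDiff_fst, fun z hz hV => ?_, fun z hz => sel_Phi_bd H z.1 hz.2.1,
    fun z hz => ?_⟩
  · refine (selD_fderiv hd z (layerCtr L q g.site)).trans ?_
    exact map_zero (fderiv ℝ g.Phi z.1)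
  · refine (selD_fderiv hd z (layer L q g.site).one).trans ?_
    refine sel_Phi_far H z.1 hz.1 ?_
    have a1 : z.2.1 < L.V z.1.1 + q.c := hz.2.2.1
    have a2 : 3 * q.H ≤ z.2.1 := hV
    have a3 := hq.c_le
    have a4 := hL.H_pos
    linarith
  · obtain ⟨Φ, hΦ, hle, hresp⟩ := sel_Phi_resp H z.1 hz.2.1 hz.1
    refine ⟨Φ, hΦ, hle, ?_⟩
    refine (layer_resp_plus hL hq hσ hH n hz).mono (Nat.le_succ n) (fun _ _ _ => hq) ?_
    rintro s' u κ h0 h1 hu - - - ⟨e1, e2, b, amt, hb, a0, a1, a2, e3⟩ μ hμ hdμ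
    refine le_of_eq_of_le (selD_fderiv hd z κ) ?_
    have e : κ.1 = (s' • u, g.site.fo z.1 * s' + g.site.psh b z.1 * amt) := Prod.ext e1 e3
    rw [e]
    exact hresp s' amt μ b u hu h0 h1 e2 hb a0 a1 a2 hμ hdμ

end Pool.Agent.MP703675
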