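import Pool.Agent.Lib.MP_703675_gt.Tool
import Pool.Agent.Lib.MP_703675_gt.Traj2

set_option autoImplicit false

open Set Metric Filter Topology TopologicalSpace

noncomputable section

namespace Pool.Agent.MP703675

variable {S : Sys} {γ Tm Qc η : ℝ} {ζ g : ℝ → S.E}

theorem Target.hasDerivAt (h : Target S γ Tm Qc η ζ g) (t : ℝ) : HasDerivAt ζ (-g t) t := by
  rw [hasDerivAt_iff_isLittleO]
  have h1 : (fun t' => ζ t' - ζ t - (t' - t) • -g t) =O[𝓝 t] fun t' => ‖t' - t‖ ^ 2 := by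
    refine Asymptotics.IsBigO.of_bound Qc (Eventually.of_forall fun t' => ?_)
    have := h.taylor t t'
    rw [smul_neg, sub_neg_eq_add, norm_pow, norm_norm, Real.norm_eq_abs, sq_abs]
    exact this
  exact h1.trans_isLittleO (Asymptotics.isLittleO_pow_sub_sub t one_lt_two)

theorem Target.zeta_cont (h : Target S γ Tm Qc η ζ g) : Continuous ζ :=
  continuous_iff_continuousAt.2 fun t => (h.hasDerivAt t).continuousAt

theorem Target.g_locLip (h : Target S γ Tm Qc η ζ g) : LocallyLipschitz g := by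
  have : LipschitzWith ⟨Qc, h.Qc_nonneg⟩ g := LipschitzWith.of_dist_le_mul fun t t' => by
    rw [dist_eq_norm, Real.dist_eq]
    exact h.lip t' t
  exact this.locallyLipschitz

theorem Target.eta_nonneg (h : Target S γ Tm Qc η ζ g) : 0 ≤ η := by
  obtain ⟨z, -, κ, -, h1, -⟩ := h.near 0
  exact (norm_nonneg _).trans h1

theorem target_mvt {E : Type} [NormedAddCommGroup E] [NormedSpace ℝ E] {f f' : ℝ → E} {C a b : ℝ}
    (hf : ∀ x, HasDerivAt f (f' x) x) (hC : ∀ x ∈ uIcc a b, ‖f' x‖ ≤ C) :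
    ‖f b - f a‖ ≤ C * |b - a| :=
  (convex_uIcc a b).norm_image_sub_le_of_norm_hasDerivWithin_le
    (fun x _ => (hf x).hasDerivWithinAt) hC left_mem_uIcc right_mem_uIcc

theorem Target.zeta_lip (h : Target S γ Tm Qc η ζ g) {Bs : ℝ} (hg : ∀ t, ‖g t‖ ≤ Bs) (t t' : ℝ) :
    ‖ζ t - ζ t'‖ ≤ Bs * |t - t'| :=
  target_mvt h.hasDerivAt fun x _ => by simpa using hg x

theorem target_taylor {E : Type} [NormedAddCommGroup E] [NormedSpace ℝ E] {f k : ℝ → E} {Q : ℝ}
    (hQ : 0 ≤ Q) (hf : ∀ t, HasDerivAt f (-k t) t) (hk : ∀ t t', ‖k t' - k t‖ ≤ Q * |t' - t|)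
    (t t' : ℝ) : ‖f t' - f t + (t' - t) • k t‖ ≤ Q * (t' - t) ^ 2 := by
  have h1 : ∀ x, HasDerivAt (fun x => f x + (x - t) • k t) (-k x + k t) x := fun x => by
    simpa using (hf x).fun_add (((hasDerivAt_id x).sub_const t).smul_const (k t))
  have h2 := target_mvt (a := t) (b := t') (C := Q * |t' - t|) h1 fun x hx => by
    rw [neg_add_eq_sub, norm_sub_rev]
    exact (hk t x).trans (mul_le_mul_of_nonneg_left (abs_sub_left_of_mem_uIcc hx) hQ)
  rw [mul_assoc, abs_mul_abs_self, ← sq] at h2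
  simpa [add_sub_right_comm] using h2

/-- Steklov average of a Lipschitz path -/
theorem target_steklov {E : Type} [NormedAddCommGroup E] [NormedSpace ℝ E] [CompleteSpace E]
    {R : ℝ → E} {L h : ℝ} (hL : 0 ≤ L) (hh : 0 < h) (hR : ∀ s s', ‖R s - R s'‖ ≤ L * |s - s'|) :
    ∃ f : ℝ → E, (∀ t, HasDerivAt f (-((2 * h)⁻¹ • (R (t - h) - R (t + h)))) t) ∧
      (∀ t, ‖f t - R t‖ ≤ L * h) ∧
      ∀ t a b, (∀ s ∈ Icc (t - h) (t + h), R s = a + s • b) → f t = a + t • b := by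
  have hc : Continuous R := (LipschitzWith.of_dist_le_mul (K := ⟨L, hL⟩) fun t t' => by
    rw [dist_eq_norm, Real.dist_eq]
    exact hR t t').continuous
  let F : ℝ → E := fun x => ∫ s in (0 : ℝ)..x, R s
  have hF : ∀ x, HasDerivAt F (R x) x := fun x => (hc.integral_hasStrictDerivAt 0 x).hasDerivAt
  have h2 : (0 : ℝ) < 2 * h := by linarith
  have hu : ∀ t, uIcc (t - h) (t + h) = Icc (t - h) (t + h) := fun t => uIcc_of_le (by linarith)
  have ha : ∀ t, |t + h - (t - h)| = 2 * h := fun t => by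
    rw [abs_of_nonneg (by linarith)]; ring
  refine ⟨fun t => (2 * h)⁻¹ • (F (t + h) - F (t - h)), fun t => ?_, fun t => ?_,
    fun t a b hab => ?_⟩
  · have := (((hF (t + h)).comp_add_const t h).sub ((hF (t - h)).comp_sub_const t h)).const_smul
      (2 * h)⁻¹
    rw [← smul_neg, neg_sub]
    exact this
  · have h3 : ∀ x, HasDerivAt (fun x => F x - x • R t) (R x - R t) x := fun x => by
      simpa using (hF x).fun_sub ((hasDerivAt_id x).smul_const (R t))
    have h4 := target_mvt (a := t - h) (b := t + h) (C := L * h) h3 fun x hx => by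
      rw [hu] at hx
      exact (hR x t).trans (mul_le_mul_of_nonneg_left
        (abs_le.2 ⟨by linarith [hx.1], by linarith [hx.2]⟩) hL)
    have e : (2 * h)⁻¹ • (F (t + h) - F (t - h)) - R t =
        (2 * h)⁻¹ • (F (t + h) - (t + h) • R t - (F (t - h) - (t - h) • R t)) := by
      have : (2 * h)⁻¹ • (((t + h) - (t - h)) • R t) = R t := by
        rw [smul_smul, show t + h - (t - h) = 2 * h by ring, inv_mul_cancel₀ h2.ne', one_smul]
      nth_rewrite 1 [← this]
      rw [← smul_sub, sub_smul]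
      congr 1
      abel
    rw [e, norm_smul, norm_inv, Real.norm_of_nonneg h2.le, inv_mul_le_iff₀ h2]
    rw [ha] at h4
    linarith
  · have h3 : ∀ x, HasDerivAt (fun x => F x - (x • a + (x ^ 2 / 2) • b))
        (R x - (a + x • b)) x := fun x => by
      have := (hF x).fun_sub (((hasDerivAt_id x).smul_const a).fun_add
        (((hasDerivAt_pow 2 x).div_const 2).smul_const b))
      simpa using this
    have h4 := target_mvt (a := t - h) (b := t + h) (C := 0) h3 fun x hx => by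
      rw [hu] at hx
      simp [hab x hx]
    rw [zero_mul, norm_le_zero_iff, sub_sub_sub_comm, sub_eq_zero] at h4
    change (2 * h)⁻¹ • (F (t + h) - F (t - h)) = _
    rw [h4]
    have e1 : (2 * h)⁻¹ * (t + h) - (2 * h)⁻¹ * (t - h) = 1 := by field_simp; ring
    have e2 : (2 * h)⁻¹ * ((t + h) ^ 2 / 2) - (2 * h)⁻¹ * ((t - h) ^ 2 / 2) = t := by
      field_simp; ring
    rw [smul_sub, smul_add, smul_add, smul_smul, smul_smul, smul_smul, smul_smul, add_sub_add_comm,
      ← sub_smul, ← sub_smul, e1, e2, one_smul]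

theorem target_le_V {w : ℝ} {P : ℝ → S.E} (hP : S.TPath w P) (u : ℝ) : u ≤ S.V (P u) := by
  rcases le_total w u with h | h
  · exact hP.le_V u h
  · rw [hP.const u h]
    exact h.trans (hP.le_V w le_rfl)

/-- one step along a true time path -/
theorem target_step (hS : S.Good) {w : ℝ} {P : ℝ → S.E} (hP : S.TPath w P) {U : ℝ} (hU : w ≤ U) :
    ∃ C : ℝ, 0 ≤ C ∧ ∀ u u', u ≤ u' → u' ≤ U →
      ∃ κ ∈ S.K (P u'), ‖P u - P u' - (u' - u) • κ‖ ≤ C * (u' - u) ^ 2 := by
  obtain ⟨C, hC⟩ := hP.traj U hU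
  refine ⟨|C|, abs_nonneg _, fun u u' h1 h2 => ?_⟩
  rcases le_total u' w with h3 | h3
  · refine ⟨0, hS.zero_mem _, ?_⟩
    rw [hP.const u (h1.trans h3), hP.const u' h3]
    simp only [sub_self, smul_zero, norm_zero]
    positivity
  rcases eq_or_lt_of_le h1 with rfl | h4
  · exact ⟨0, hS.zero_mem _, by simp⟩
  have hm : max u w ≤ u' := max_le h1 h3
  obtain ⟨κ, k1, k2⟩ := hC (-u') (-max u w) (by linarith) (by linarith)
    (by linarith [le_max_right u w])
  simp only [neg_neg] at k1 k2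
  have e : P (max u w) = P u := by
    rcases le_total u w with h | h
    · rw [max_eq_right h, hP.const u h]
    · rw [max_eq_left h]
  have d0 : 0 ≤ u' - max u w := by linarith
  have d1 : u' - max u w ≤ u' - u := by linarith [le_max_left u w]
  have d2 : 0 < u' - u := by linarith
  refine ⟨((u' - max u w) / (u' - u)) • κ,
    hS.star _ k1 (div_nonneg d0 d2.le) ((div_le_one d2).2 d1), ?_⟩
  rw [smul_smul, mul_div_cancel₀ _ d2.ne']
  rw [e, show -max u w - -u' = u' - max u w by ring] at k2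
  exact k2.trans (mul_le_mul (le_abs_self C) (pow_le_pow_left₀ d0 d1 2) (by positivity)
    (abs_nonneg _))

theorem target_arith {c c' v v' u u' ε U : ℝ} (h0 : 0 ≤ c') (h1 : c' ≤ 1) (hu : u < u')
    (hv : |v' - v| ≤ u' - u) (hc : |c' - c| ≤ (u' - u) / U) (he : |v - u| ≤ ε) :
    ∃ a : ℝ, |a| ≤ 1 ∧
      |c * v + (1 - c) * u - (c' * v' + (1 - c') * u') - (u' - u) * a| ≤ ε / U * (u' - u) := by
  have d : 0 < u' - u := by linarith
  refine ⟨-((c' * (v' - v) + (1 - c') * (u' - u)) / (u' - u)), ?_, ?_⟩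
  · rw [abs_neg, abs_div, abs_of_pos d, div_le_one d]
    obtain ⟨a1, a2⟩ := abs_le.1 hv
    have b1 := mul_le_mul_of_nonneg_left a1 h0
    have b2 := mul_le_mul_of_nonneg_left a2 h0
    have b3 := mul_nonneg (sub_nonneg.2 h1) d.le
    exact abs_le.2 ⟨by linarith, by linarith⟩
  · have e : c * v + (1 - c) * u - (c' * v' + (1 - c') * u') -
        (u' - u) * -((c' * (v' - v) + (1 - c') * (u' - u)) / (u' - u)) = -((c' - c) * (v - u)) := by
      field_simp; ring
    rw [e, abs_neg, abs_mul]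
    calc _ ≤ (u' - u) / U * ε := mul_le_mul hc he (abs_nonneg _) ((abs_nonneg _).trans hc)
      _ = _ := by ring

theorem target_prod_lip {c c' e e' d ε : ℝ} (h0 : 0 ≤ c) (h1 : c ≤ 1) (hc : |c - c'| ≤ d)
    (he : |e - e'| ≤ 2 * d) (he' : |e'| ≤ ε) (hε : ε ≤ 1) :
    |(1 - c) * e - (1 - c') * e'| ≤ 3 * d := by
  have hd : 0 ≤ d := (abs_nonneg _).trans hc
  have e1 : (1 - c) * e - (1 - c') * e' = (1 - c) * (e - e') - (c - c') * e' := by ring
  have a1 : |(1 - c) * (e - e')| ≤ 1 * (2 * d) := by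
    rw [abs_mul]
    exact mul_le_mul (abs_le.2 ⟨by linarith, by linarith⟩) he (abs_nonneg _) zero_le_one
  have a2 : |(c - c') * e'| ≤ d * 1 := by
    rw [abs_mul]
    exact mul_le_mul hc (he'.trans hε) (abs_nonneg _) hd
  rw [e1]
  exact (abs_sub _ _).trans (by linarith)

/-- blending of a true time path with the far ray -/
theorem target_blend (hS : S.Good) {w : ℝ} {P : ℝ → S.E} (hP : S.TPath w P) {ε : ℝ} (hε : 0 < ε)
    (hε1 : ε ≤ 1) : ∃ (U : ℕ) (R : ℝ → S.E) (L C : ℝ), 3 * S.H + 6 ≤ U ∧ 0 ≤ L ∧ 0 ≤ C ∧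
      (∀ u, u ≤ 0 → R u = P w) ∧ (∀ u, 2 * (U : ℝ) ≤ u → R u = S.far u) ∧
      (∀ u, ‖R u - P u‖ ≤ ε * ‖S.one‖) ∧ (∀ u u', ‖R u - R u'‖ ≤ L * |u - u'|) ∧
      (∀ u, u ≤ S.V (R u)) ∧ (∀ u, R u ∈ S.Om) ∧
      ∀ u u', u < u' → u' - u ≤ 6 → ∃ κ ∈ S.K (R u'),
        ‖R u - R u' - (u' - u) • κ‖ ≤ C * (u' - u) ^ 2 + ε / U * (u' - u) * ‖S.one‖ := by
  obtain ⟨U0, hU0⟩ := eventually_atTop.1 (hP.tends.eventually (gt_mem_nhds hε))
  obtain ⟨U, hU⟩ := exists_nat_ge (max U0 (max w (3 * S.H)) + 6)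
  have hH := hS.H_pos
  have u1 : U0 + 6 ≤ U := by linarith [le_max_left U0 (max w (3 * S.H))]
  have u2 : w + 6 ≤ U := by
    linarith [le_max_right U0 (max w (3 * S.H)), le_max_left w (3 * S.H)]
  have u3 : 3 * S.H + 6 ≤ U := by
    linarith [le_max_right U0 (max w (3 * S.H)), le_max_right w (3 * S.H)]
  have hU0' : (0 : ℝ) < U := by linarith
  obtain ⟨B, hB, hlip⟩ := hS.tpath_lip
  obtain ⟨C, hC, hstep⟩ := target_step hS hP (U := U) (by linarith)
  let c : ℝ → ℝ := fun u => cl01 (2 - u / U)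
  let e : ℝ → ℝ := fun u => S.V (P (max u U)) - max u U
  have c0 : ∀ u, 0 ≤ c u := fun u => cl01_nonneg _
  have c1 : ∀ u, c u ≤ 1 := fun u => cl01_le_one _
  have c2 : ∀ u : ℝ, u ≤ U → c u = 1 := fun u hu =>
    cl01_one (by linarith [(div_le_one hU0').2 hu])
  have c3 : ∀ u u', |c u - c u'| ≤ |u - u'| / U := fun u u' => by
    have := cl01_lip.dist_le_mul (2 - u / U) (2 - u' / U)
    rw [Real.dist_eq, Real.dist_eq, NNReal.coe_one, one_mul,
      show 2 - u / U - (2 - u' / U) = -((u - u') / U) by ring, abs_neg, abs_div,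
      abs_of_pos hU0'] at this
    exact this
  have e0 : ∀ u : ℝ, U - 6 ≤ u → |S.V (P u) - u| ≤ ε := fun u hu =>
    abs_le.2 ⟨by linarith [target_le_V hP u], (hU0 u (by linarith)).le⟩
  have e1 : ∀ u, |e u| ≤ ε := fun u => e0 _ (by linarith [le_max_right u (U : ℝ)])
  let R : ℝ → S.E := fun u => P u - ((1 - c u) * e u) • S.one
  have r1 : ∀ u : ℝ, u ≤ U → R u = P u := fun u hu => by simp [R, c2 u hu]
  have r2 : ∀ u : ℝ, U - 6 ≤ u → R u = S.far (c u * S.V (P u) + (1 - c u) * u) := fun u hu => by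
    have a1 : (1 - c u) * e u = (1 - c u) * (S.V (P u) - u) := by
      rcases le_total u U with h | h
      · simp [c2 u h]
      · simp only [e, max_eq_left h]
    change P u - ((1 - c u) * e u) • S.one = _
    nth_rewrite 1 [hP.far u (by linarith) (by linarith)]
    rw [a1, Sys.far, Sys.far, add_sub_assoc, ← sub_smul]
    congr 2
    ring
  have r3 : ∀ u, u ≤ c u * S.V (P u) + (1 - c u) * u := fun u => by
    have := mul_le_mul_of_nonneg_left (target_le_V hP u) (c0 u)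
    linarith
  have r4 : ∀ u, R u ∈ S.Om := fun u => by
    rcases le_total u U with h | h
    · rw [r1 u h]
      exact hP.mem hS u
    · rw [r2 u (by linarith)]
      exact hS.far_mem (by linarith [r3 u])
  refine ⟨U, R, B + 3 * ‖S.one‖, C, u3, by positivity, hC, fun u hu => ?_, fun u hu => ?_,
    fun u => ?_, fun u u' => ?_, fun u => ?_, r4, fun u u' h1 h2 => ?_⟩
  · rw [r1 u (by linarith), hP.const u (hu.trans hP.nonneg)]
  · have : c u = 0 := cl01_zero (by linarith [(le_div_iff₀ hU0').2 hu])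
    rw [r2 u (by linarith), this]
    simp
  · simp only [R, sub_sub_cancel_left, norm_neg, norm_smul, Real.norm_eq_abs, abs_mul]
    refine mul_le_mul_of_nonneg_right ?_ (norm_nonneg _)
    calc _ ≤ 1 * ε := mul_le_mul (abs_le.2 ⟨by linarith [c1 u], by linarith [c0 u]⟩) (e1 u)
          (abs_nonneg _) zero_le_one
      _ = _ := one_mul _
  · have a1 : |c u - c u'| ≤ |u - u'| := (c3 u u').trans (div_le_self (abs_nonneg _) (by linarith))
    have a2 : |e u - e u'| ≤ 2 * |u - u'| := by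
      have b1 := hP.V_lip hS (max u U) (max u' U)
      have b2 := abs_max_sub_max_le_abs u u' (U : ℝ)
      have b3 : e u - e u' = (S.V (P (max u U)) - S.V (P (max u' U))) - (max u U - max u' U) := by
        simp only [e]; ring
      rw [b3]
      exact (abs_sub _ _).trans (by linarith)
    have a3 := target_prod_lip (c0 u) (c1 u) a1 a2 (e1 u') hε1
    have a4 : R u - R u' = (P u - P u') - ((1 - c u) * e u - (1 - c u') * e u') • S.one := by
      simp only [R, sub_smul]; abel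
    rw [a4]
    refine (norm_sub_le _ _).trans ?_
    rw [norm_smul, Real.norm_eq_abs]
    have a5 := mul_le_mul_of_nonneg_right a3 (norm_nonneg S.one)
    linarith [hlip w P hP u u']
  · rcases le_total u U with h | h
    · rw [r1 u h]
      exact target_le_V hP u
    · rw [r2 u (by linarith), hS.V_far]
      exact r3 u
  · have hd : 0 < u' - u := by linarith
    rcases le_total u' U with h | h
    · obtain ⟨κ, k1, k2⟩ := hstep u u' h1.le h
      rw [r1 u (by linarith), r1 u' h]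
      exact ⟨κ, k1, k2.trans (le_add_of_nonneg_right (by positivity))⟩
    · obtain ⟨a, a1, a2⟩ := target_arith (c := c u) (v := S.V (P u)) (v' := S.V (P u')) (U := U)
        (c0 u') (c1 u') h1 (by simpa [abs_of_pos hd] using hP.V_lip hS u' u)
        (by simpa [abs_of_pos hd] using c3 u' u) (e0 u (by linarith))
      refine ⟨a • S.one, (hS.farLaw _ (r4 u') ?_ _).2 ⟨a, a1, rfl⟩, ?_⟩
      · rw [r2 u' (by linarith), hS.V_far]
        linarith [r3 u']
      · rw [r2 u (by linarith), r2 u' (by linarith), Sys.far, Sys.far, add_sub_add_left_eq_sub,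
          smul_smul, ← sub_smul, ← sub_smul, norm_smul, Real.norm_eq_abs]
        exact (mul_le_mul_of_nonneg_right a2 (norm_nonneg _)).trans
          (le_add_of_nonneg_left (by positivity))

theorem target_small {A x : ℝ} (hA : 0 ≤ A) (hx : 0 < x) : ∃ h : ℝ, 0 < h ∧ h ≤ 1 ∧ A * h ≤ x := by
  refine ⟨min 1 (x / (A + 1)), lt_min one_pos (by positivity), min_le_left _ _, ?_⟩
  calc A * min 1 (x / (A + 1)) ≤ (A + 1) * (x / (A + 1)) :=
        mul_le_mul (by linarith) (min_le_right _ _) (le_min zero_le_one (by positivity))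
          (by linarith)
    _ = x := by field_simp

theorem target_vel {C h γ ε U o η : ℝ} (hC : 0 ≤ C) (hh : 0 < h) (h1 : 1 / 3 ≤ γ) (hε : 0 ≤ ε)
    (ho : 0 ≤ o) (hU : 6 ≤ U) (a1 : 36 * C * (6 * U + 2) * h ≤ η) (a2 : 42 * o * ε ≤ η) :
    (2 * h)⁻¹ * (C * (2 * h / γ) ^ 2 + ε / U * (2 * h / γ) * o) ≤ η / (6 * U + 1 + 1) := by
  have hγ : 0 < γ := by linarith
  have hU0 : 0 < U := by linarith
  have g1 : γ⁻¹ ≤ 3 := by rw [inv_le_comm₀ hγ (by norm_num)]; linarith
  have g0 : 0 ≤ γ⁻¹ := by positivity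
  have e : (2 * h)⁻¹ * (C * (2 * h / γ) ^ 2 + ε / U * (2 * h / γ) * o) =
      2 * C * h * γ⁻¹ ^ 2 + o * ε / U * γ⁻¹ := by field_simp
  have b1 : 2 * C * h * γ⁻¹ ^ 2 ≤ 2 * C * h * 3 ^ 2 := by gcongr
  have b2 : o * ε / U * γ⁻¹ ≤ o * ε / U * 3 := by gcongr
  have b3 : o * ε / U * (6 * U + 2) ≤ o * ε / U * (7 * U) := by gcongr; linarith
  have b4 : o * ε / U * (7 * U) = 7 * (o * ε) := by field_simp
  rw [e, le_div_iff₀ (by linarith)]
  have b5 : (2 * C * h * γ⁻¹ ^ 2 + o * ε / U * γ⁻¹) * (6 * U + 1 + 1) ≤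
      (2 * C * h * 3 ^ 2 + o * ε / U * 3) * (6 * U + 1 + 1) := by gcongr
  linarith

/-- Plan: choose a natural `T1 ≥ 3 γ H + γ w + 2` with `V (P (t/γ)) - t/γ` tiny for `t ≥ T1 - 2`.
Put `R t = P (t/γ)` for `t ≤ T1` and `R t = far (t/γ + cl01 (2 - t/T1) * (V (P (t/γ)) - t/γ))`
for `T1 ≤ t`.  `R` is Lipschitz, `R t ∈ Om`, `t/γ ≤ V (R t)`.  With a small `h ≤ 1` put
`ζ t = (2h)⁻¹ ∫ over [t-h, t+h] of R`, `g t = (2h)⁻¹ (R (t-h) - R (t+h))`, `Tm = 2 T1 + 1`.
The witness for `near` is `z = R (t + h)`. -/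
theorem exists_target (hS : S.Good) {w : ℝ} {P : ℝ → S.E} (hP : S.TPath w P) (h1 : 1 / 3 ≤ γ)
    (h2 : γ ≤ 3) (hη : 0 < η) : ∃ (Tn Qn : ℕ) (ζ g : ℝ → S.E), Target S γ Tn Qn η ζ g ∧
      ∀ t, ‖ζ t - P (t / γ)‖ ≤ η := by
  have : CompleteSpace S.E := FiniteDimensional.complete ℝ S.E
  have hγ : 0 < γ := by linarith
  have hH := hS.H_pos
  obtain ⟨ε, e0, e1, e2⟩ := target_small (A := 42 * ‖S.one‖) (by positivity) hη
  obtain ⟨U, R, L, C, hU, hL, hC, r1, r2, r3, r4, r5, r6, r7⟩ := target_blend hS hP e0 e1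
  have hU6 : (6 : ℝ) ≤ U := by linarith
  obtain ⟨h, k0, k1, k2⟩ := target_small
    (A := 6 * L + ‖S.V‖ * (3 * L) + 36 * C * (6 * U + 2)) (by positivity) hη
  have p1 : 0 ≤ 6 * L * h := by positivity
  have p2 : 0 ≤ ‖S.V‖ * (3 * L) * h := by positivity
  have p3 : 0 ≤ 36 * C * (6 * U + 2) * h := by positivity
  have hR : ∀ s s', ‖R (s / γ) - R (s' / γ)‖ ≤ 3 * L * |s - s'| := fun s s' => by
    refine (r4 _ _).trans ?_
    rw [← sub_div, abs_div, abs_of_pos hγ, mul_comm 3 L, mul_assoc]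
    refine mul_le_mul_of_nonneg_left ?_ hL
    rw [div_le_iff₀ hγ]
    have := mul_le_mul_of_nonneg_left h1 (abs_nonneg (s - s'))
    linarith
  obtain ⟨f, f1, f2, f3⟩ := target_steklov (R := fun s => R (s / γ)) (by positivity) k0 hR
  have h2h : (0 : ℝ) < 2 * h := by linarith
  have hQ : 3 * L / h ≤ (⌈3 * L / h⌉₊ : ℝ) := Nat.le_ceil _
  have hlip : ∀ t t', ‖(2 * h)⁻¹ • (R ((t' - h) / γ) - R ((t' + h) / γ)) -
      (2 * h)⁻¹ • (R ((t - h) / γ) - R ((t + h) / γ))‖ ≤ (⌈3 * L / h⌉₊ : ℝ) * |t' - t| := by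
    intro t t'
    rw [← smul_sub, sub_sub_sub_comm, norm_smul, norm_inv, Real.norm_of_nonneg h2h.le]
    have a1 := hR (t' - h) (t - h)
    have a2 := hR (t' + h) (t + h)
    rw [sub_sub_sub_cancel_right] at a1
    rw [add_sub_add_right_eq_sub] at a2
    calc _ ≤ (2 * h)⁻¹ * (3 * L * |t' - t| + 3 * L * |t' - t|) :=
          mul_le_mul_of_nonneg_left ((norm_sub_le _ _).trans (add_le_add a1 a2)) (by positivity)
      _ = 3 * L / h * |t' - t| := by field_simp; ring
      _ ≤ _ := mul_le_mul_of_nonneg_right hQ (abs_nonneg _)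
  have hfar : ∀ s, 6 * (U : ℝ) ≤ s → R (s / γ) = S.z0 + s • γ⁻¹ • S.one := fun s hs => by
    have : 2 * (U : ℝ) * γ ≤ 2 * U * 3 := by gcongr
    rw [r2 _ ((le_div_iff₀ hγ).2 (by linarith)), Sys.far, smul_smul, div_eq_mul_inv]
  have hlow : ∀ s, s ≤ 0 → R (s / γ) = P w := fun s hs =>
    r1 _ (div_nonpos_of_nonpos_of_nonneg hs hγ.le)
  have hlow' : ∀ t, t ≤ -1 → f t = P w := fun t ht => by
    simpa using f3 t (P w) 0 fun s hs => by simpa using hlow s (by linarith [hs.2])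
  refine ⟨6 * U + 1, ⌈3 * L / h⌉₊, f,
    fun t => (2 * h)⁻¹ • (R ((t - h) / γ) - R ((t + h) / γ)), ⟨?_, Nat.cast_nonneg _,
      target_taylor (Nat.cast_nonneg _) f1 hlip, hlip, fun t ht => ⟨?_, ?_⟩, fun t ht => ⟨?_, ?_⟩,
      fun t => ?_, fun t => ?_⟩, fun t => ?_⟩
  · have : γ * S.H ≤ 3 * S.H := by gcongr
    push_cast
    linarith
  · push_cast at ht
    rw [f3 t S.z0 (γ⁻¹ • S.one) fun s hs => hfar s (by linarith [hs.1]), Sys.far, smul_smul,
      div_eq_mul_inv]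
  · push_cast at ht
    rw [hfar _ (by linarith), hfar _ (by linarith), add_sub_add_left_eq_sub, ← sub_smul, smul_smul,
      show t - h - (t + h) = -(2 * h) by ring, mul_neg, inv_mul_cancel₀ h2h.ne', neg_one_smul]
  · rw [hlow' t ht, hlow' (-1) le_rfl]
  · rw [hlow _ (by linarith), hlow _ (by linarith), sub_self, smul_zero]
  · have a1 := S.V.le_opNorm (f t - R (t / γ))
    have a2 := mul_le_mul_of_nonneg_left (f2 t) (norm_nonneg S.V)
    have a3 := (abs_le.1 (a1.trans a2)).1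
    rw [map_sub] at a3
    linarith [r5 (t / γ)]
  · have d : (t + h) / γ - (t - h) / γ = 2 * h / γ := by ring
    obtain ⟨κ, a1, a2⟩ := r7 ((t - h) / γ) ((t + h) / γ)
      (div_lt_div_of_pos_right (by linarith) hγ) (by
        rw [d, div_le_iff₀ hγ]; linarith)
    refine ⟨_, r6 _, κ, a1, ?_, ?_⟩
    · have a3 := hR t (t + h)
      rw [show t - (t + h) = -h by ring, abs_neg, abs_of_pos k0] at a3
      have a4 := norm_sub_le_norm_sub_add_norm_sub (f t) (R (t / γ)) (R ((t + h) / γ))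
      linarith [f2 t]
    · have a3 : γ⁻¹ • κ = (2 * h)⁻¹ • (2 * h / γ) • κ := by
        rw [smul_smul]; congr 1; field_simp
      change ‖(2 * h)⁻¹ • (R ((t - h) / γ) - R ((t + h) / γ)) - γ⁻¹ • κ‖ ≤ _
      rw [d] at a2
      rw [a3, ← smul_sub, norm_smul, norm_inv, Real.norm_of_nonneg h2h.le]
      push_cast
      exact (mul_le_mul_of_nonneg_left a2 (by positivity)).trans
        (target_vel hC k0 h1 e0.le (norm_nonneg _) hU6 (by linarith) e2)
  · have a4 := norm_sub_le_norm_sub_add_norm_sub (f t) (R (t / γ)) (P (t / γ))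
    have a5 : 0 ≤ ‖S.one‖ * ε := by positivity
    linarith [f2 t, r3 (t / γ)]

/-- Plan: the targets, seen through the restriction of `ζ` to `[-1, Tm]` in the separable space
of continuous maps, have a countable dense subfamily. -/
theorem target_family (S : Sys) (γ Tm Qc η : ℝ) : ∃ fam : ℕ → (ℝ → S.E) × (ℝ → S.E),
    ∀ ζ g, Target S γ Tm Qc η ζ g → ∀ κ : ℝ, 0 < κ → ∃ i,
      Target S γ Tm Qc η (fam i).1 (fam i).2 ∧ ∀ t, ‖(fam i).1 t - ζ t‖ ≤ κ := by
  let T := {p : (ℝ → S.E) × (ℝ → S.E) // Target S γ Tm Qc η p.1 p.2}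
  let Φ : T → C(Icc (-1 : ℝ) (max Tm (-1)), S.E) := fun p =>
    ⟨fun t => p.1.1 t, p.2.zeta_cont.comp continuous_subtype_val⟩
  rcases isEmpty_or_nonempty T with hT | hT
  · exact ⟨fun _ => 0, fun ζ g h => (hT.false ⟨(ζ, g), h⟩).elim⟩
  obtain ⟨D, hD1, hD2, hD3⟩ :=
    (IsSeparable.of_separableSpace (range Φ)).exists_countable_dense_subset
  have hne : D.Nonempty := closure_nonempty_iff.1 ((range_nonempty Φ).mono hD3)
  obtain ⟨d, rfl⟩ := hD2.exists_eq_range hne
  choose p hp using fun i => hD1 (mem_range_self i)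
  refine ⟨fun i => (p i).1, fun ζ g h κ hκ => ?_⟩
  obtain ⟨_, ⟨i, rfl⟩, hi⟩ := Metric.mem_closure_iff.1 (hD3 (mem_range_self ⟨(ζ, g), h⟩)) κ hκ
  have key : ∀ t ∈ Icc (-1 : ℝ) (max Tm (-1)), ‖(p i).1.1 t - ζ t‖ ≤ κ := fun t ht => by
    have := ContinuousMap.dist_apply_le_dist (f := Φ ⟨(ζ, g), h⟩) (g := d i) ⟨t, ht⟩
    rw [← hp i, dist_comm, dist_eq_norm] at this
    rw [← hp i] at hi
    exact this.trans hi.le
  refine ⟨i, (p i).2, fun t => ?_⟩
  rcases le_total t (-1) with h1 | h1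
  · change ‖(p i).1.1 t - ζ t‖ ≤ κ
    rw [((p i).2.low t h1).1, (h.low t h1).1]
    exact key _ ⟨le_rfl, le_max_right _ _⟩
  rcases le_total t Tm with h2 | h2
  · exact key t ⟨h1, h2.trans (le_max_left _ _)⟩
  · change ‖(p i).1.1 t - ζ t‖ ≤ κ
    rw [((p i).2.far t h2).1, (h.far t h2).1, sub_self, norm_zero]
    exact hκ.le

end Pool.Agent.MP703675
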