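import Pool.Agent.Lib.MP_703675_gt.RepA

set_option autoImplicit false

open Set Metric Filter Topology TopologicalSpace

noncomputable section

namespace Pool.Agent.MP703675

/-- dependent choice starting at level `k` -/
theorem threadA_rec {α : ℕ → Type} [∀ n, Inhabited (α n)] (k : ℕ) (P : ∀ n, α n → Prop)
    (R : ∀ n, α n → α (n + 1) → Prop) (x0 : α k) (h0 : P k x0)
    (hs : ∀ n, k ≤ n → ∀ x, P n x → ∃ y, P (n + 1) y ∧ R n x y) :
    ∃ f : ∀ n, α n, f k = x0 ∧ ∀ n, k ≤ n → P n (f n) ∧ R n (f n) (f (n + 1)) := by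
  classical
  choose! g hg using hs
  let x1 : ∀ n, α n := Function.update (fun _ => default) k x0
  let f : ∀ n, α n := fun n =>
    Nat.rec (motive := α) (x1 0) (fun m y => if m + 1 ≤ k then x1 (m + 1) else g m y) n
  have hk : f k = x0 := by
    have h1 : f k = x1 k := by
      cases k with
      | zero => rfl
      | succ m => exact if_pos le_rfl
    rw [h1]
    exact Function.update_self _ _ _
  have hsucc : ∀ n, k ≤ n → f (n + 1) = g n (f n) := fun n hn => if_neg (by omega)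
  have hP : ∀ n, k ≤ n → P n (f n) := by
    intro n hn
    induction n, hn using Nat.le_induction with
    | base => rw [hk]; exact h0
    | succ m hm ih => rw [hsucc m hm]; exact (hg m hm _ ih).1
  exact ⟨f, hk, fun n hn => ⟨hP n hn, by rw [hsucc n hn]; exact (hg n hn _ (hP n hn)).2⟩⟩

/-- properties of a time change -/
def threadA_Ch (n : ℕ) (e c : ℝ) (ψ : ℝ → ℝ) : Prop :=
  (∀ s, s ≤ c → ψ s = s) ∧ (∀ s t, s ≤ t → t ≤ e → ψ s ≤ ψ t ∧ ψ t - ψ s ≤ t - s) ∧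
    ∀ s, s ≤ e → s - (1 / 2) ^ n ≤ ψ s ∧ ψ s ≤ s

/-- iterated time changes -/
def threadA_E (e : ℝ) (ψ : ℕ → ℝ → ℝ) : ℕ → ℕ → ℝ
  | 0, _ => e
  | m + 1, n => ψ n (threadA_E e ψ m (n + 1))

/-- limit of the cut times -/
theorem threadA_times (k : ℕ) (e : ℝ) (c : ℕ → ℝ) (ψ : ℕ → ℝ → ℝ)
    (h : ∀ n, k ≤ n → threadA_Ch n e (c n) (ψ n)) :
    ∃ t : ℕ → ℝ, ∀ n, k ≤ n → e - 2 * (1 / 2) ^ n ≤ t n ∧ t n ≤ e ∧ ψ n (t (n + 1)) = t n := by
  have h1 : ∀ m n, k ≤ n → e - 2 * (1 / 2) ^ n ≤ threadA_E e ψ m n ∧ threadA_E e ψ m n ≤ e := by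
    intro m
    induction m with
    | zero =>
      intro n _
      have : (0 : ℝ) ≤ (1 / 2) ^ n := by positivity
      exact ⟨by simp only [threadA_E]; linarith, le_rfl⟩
    | succ m ih =>
      intro n hn
      obtain ⟨i1, i2⟩ := ih (n + 1) (by omega)
      obtain ⟨j1, j2⟩ := (h n hn).2.2 _ i2
      rw [pow_succ] at i1
      simp only [threadA_E]
      constructor <;> linarith
  have h2 : ∀ m n, k ≤ n → threadA_E e ψ (m + 1) n ≤ threadA_E e ψ m n := by
    intro m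
    induction m with
    | zero => intro n hn; exact (h1 1 n hn).2
    | succ m ih =>
      intro n hn
      exact ((h n hn).2.1 _ _ (ih (n + 1) (by omega)) (h1 m (n + 1) (by omega)).2).1
  have hb : ∀ n, k ≤ n → BddBelow (range fun m => threadA_E e ψ m n) := fun n hn =>
    ⟨e - 2 * (1 / 2) ^ n, by rintro _ ⟨m, rfl⟩; exact (h1 m n hn).1⟩
  refine ⟨fun n => ⨅ m, threadA_E e ψ m n, fun n hn => ⟨le_ciInf fun m => (h1 m n hn).1,
    (ciInf_le (hb n hn) 0).trans (h1 0 n hn).2, le_antisymm ?_ ?_⟩⟩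
  · refine le_ciInf fun m => le_trans ?_ (h2 m n hn)
    exact ((h n hn).2.1 _ _ (ciInf_le (hb (n + 1) (by omega)) m) (h1 m (n + 1) (by omega)).2).1
  · have h3 : (⨅ m, threadA_E e ψ m n) - ψ n (⨅ m, threadA_E e ψ m (n + 1)) +
        (⨅ m, threadA_E e ψ m (n + 1)) ≤ ⨅ m, threadA_E e ψ m (n + 1) := by
      refine le_ciInf fun m => ?_
      have a1 : (⨅ m, threadA_E e ψ m n) ≤ ψ n (threadA_E e ψ m (n + 1)) :=
        ciInf_le (hb n hn) (m + 1)
      have a2 := ((h n hn).2.1 _ _ (ciInf_le (hb (n + 1) (by omega)) m)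
        (h1 m (n + 1) (by omega)).2).2
      linarith
    linarith

/-- image of an interval under a time change -/
theorem threadA_image {n : ℕ} {e c a t : ℝ} {ψ : ℝ → ℝ} (h : threadA_Ch n e c ψ) (hac : a ≤ c)
    (hat : a ≤ t) (hte : t ≤ e) : ψ '' Icc a t = Icc a (ψ t) := by
  have ha : ψ a = a := h.1 a hac
  apply Subset.antisymm
  · rintro _ ⟨s, hs, rfl⟩
    exact ⟨ha.symm.le.trans (h.2.1 _ _ hs.1 (hs.2.trans hte)).1, (h.2.1 _ _ hs.2 hte).1⟩
  · have hc : ContinuousOn ψ (Icc a t) := by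
      refine (LipschitzOnWith.of_dist_le' (K := 1) fun x hx y hy => ?_).continuousOn
      rw [Real.dist_eq, Real.dist_eq, one_mul]
      rcases le_total x y with hxy | hxy
      · obtain ⟨b1, b2⟩ := h.2.1 _ _ hxy (hy.2.trans hte)
        rw [abs_of_nonpos (by linarith), abs_of_nonpos (by linarith)]
        linarith
      · obtain ⟨b1, b2⟩ := h.2.1 _ _ hxy (hx.2.trans hte)
        rw [abs_of_nonneg (by linarith), abs_of_nonneg (by linarith)]
        linarith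
    have := intermediate_value_Icc hat hc
    rwa [ha] at this

/-- a path that is far before time `a` has the same track on `Iic t` and on `Icc a' t` -/
theorem threadA_trk {S : Sys} (hS : S.Good) {G : ℝ → S.E} {a a' t : ℝ} (h1 : a' ≤ a) (h2 : a ≤ t)
    (hfar : ∀ s, s ≤ a → ∃ T, 3 * S.H ≤ T ∧ G s = S.far T) :
    S.trk G (Icc a' t) = S.trk G (Iic t) := by
  have hQ : ∀ s, s ≤ a → S.Q (G s) = (S.H, 0) := fun s hs => by
    obtain ⟨T, hT, he⟩ := hfar s hs
    apply S.Q_of_ge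
    rw [he, hS.V_far]
    linarith [hS.H_pos]
  apply Subset.antisymm
  · exact image_mono fun s hs => hs.2
  · rintro _ ⟨s, hs, rfl⟩
    rcases le_total a' s with h | h
    · exact ⟨s, ⟨h, hs⟩, rfl⟩
    · exact ⟨a', ⟨le_rfl, h1.trans h2⟩, (hQ a' h1).trans (hQ s (h.trans h1)).symm⟩

namespace World

variable (Wd : World)

/-- one lifting step -/
theorem threadA_step (n : ℕ) (F : ℝ → (Wd.W (n + 1)).E) (G : ℝ → (Wd.W n).E) (a b e T : ℝ)
    (hab : a ≤ b) (hbe : b ≤ e) (hF : ∀ a', IsTraj (Wd.W (n + 1)).K F a' b)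
    (hG : ∀ a', IsTraj (Wd.W n).K G a' e) (hT : 3 * (Wd.W (n + 1)).H ≤ T) (hT' : e - a ≤ T)
    (hFa : F a = (Wd.W (n + 1)).far T) (hc : ∀ s, s ≤ b → Wd.pr n (n + 1) (F s) = G s) :
    ∃ G' : ℝ → (Wd.W (n + 1)).E, ((∀ a', IsTraj (Wd.W (n + 1)).K G' a' e) ∧
      ∀ s, s ≤ b → G' s = F s) ∧ ∃ ψ : ℝ → ℝ, threadA_Ch n e b ψ ∧
        ∀ s, s ≤ e → Wd.pr n (n + 1) (G' s) = G (ψ s) := by
  obtain ⟨G', φ, h1, h2, h3, h4, h5⟩ :=
    Wd.lift n F G a b e T hab hbe (hF a) hFa hT hT' (hG b) (hc b le_rfl)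
  have hp : (0 : ℝ) ≤ (1 / 2) ^ n := by positivity
  refine ⟨G', ⟨fun a' => ?_, h1⟩, fun s => if s ≤ b then s else φ s, ⟨fun s hs => if_pos hs,
    fun s t hst hte => ?_, fun s hs => ?_⟩, fun s hs => ?_⟩
  · exact (Wd.good (n + 1)).concat ((hF a').congr fun s hs => h1 s hs.2) (h2.restrict hab le_rfl)
  · by_cases c1 : t ≤ b
    · simp only [if_pos c1, if_pos (hst.trans c1)]
      exact ⟨hst, le_rfl⟩
    · by_cases c2 : s ≤ b
      · simp only [if_neg c1, if_pos c2]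
        obtain ⟨i1, i2⟩ := h4 b t le_rfl (not_le.1 c1).le hte
        constructor <;> linarith
      · simp only [if_neg c1, if_neg c2]
        exact h4 s t (not_le.1 c2).le hst hte
  · by_cases c : s ≤ b
    · simp only [if_pos c]
      constructor <;> linarith
    · simp only [if_neg c]
      obtain ⟨-, i2⟩ := h4 b s le_rfl (not_le.1 c).le hs
      exact ⟨(h5 s (not_le.1 c).le hs).1, by linarith⟩
  · by_cases c : s ≤ b
    · simp only [if_pos c]
      rw [h1 s c, hc s c]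
    · simp only [if_neg c]
      exact (h5 s (not_le.1 c).le hs).2

/-- Plan: define `Z n` for `n ≥ k` recursively with `Wd.lift` (from time `b (n+1)`), extend
`φ n` by the identity below `b (n+1)`, let `e n` be the decreasing limit of
`φ n (φ (n+1) (... (φ m e)))`; then `φ n (e (n+1)) = e n`, `e - 2 (1/2)^n ≤ e n`, and the tracks
of `Z n` up to time `e n` are compatible (`push_spec`, `exists_point`). -/
theorem thread (k : ℕ) (F : ∀ n, ℝ → (Wd.W n).E) (a b : ℕ → ℝ) (e : ℝ) (Z : ℝ → (Wd.W k).E)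
    (hb : ∀ n, k ≤ n → b (n + 1) ≤ b n) (hab : ∀ n, k ≤ n → a n ≤ b n)
    (hF : ∀ n, k < n → ∀ a', IsTraj (Wd.W n).K (F n) a' (b n))
    (hZ : ∀ a', IsTraj (Wd.W k).K Z a' e)
    (hfar : ∀ n, k ≤ n → ∀ s, s ≤ a n → ∃ T, 3 * (Wd.W n).H ≤ T ∧ e - s ≤ T ∧
      F n s = (Wd.W n).far T)
    (hc : ∀ n, k ≤ n → ∀ s, s ≤ b (n + 1) → Wd.pr n (n + 1) (F (n + 1) s) = F n s)
    (hZF : ∀ s, s ≤ b k → Z s = F k s) (he : b k ≤ e - 2 * (1 / 2) ^ k) :
    ∃ (x : Wd.X) (e' : ℝ), e - 2 * (1 / 2) ^ k ≤ e' ∧ e' ≤ e ∧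
      (x.1 k : Set (ℝ × (Wd.W k).E)) = (Wd.W k).trk Z (Iic e') ∧
      ∀ n, k ≤ n → ∀ s, s ≤ b n → (Wd.W n).Q (F n s) ∈ (x.1 n : Set (ℝ × (Wd.W n).E)) := by
  have hbk : ∀ n, k ≤ n → b n ≤ e - 2 * (1 / 2) ^ n := by
    intro n hn
    induction n, hn using Nat.le_induction with
    | base => exact he
    | succ m hm ih =>
      have h1 := hb m hm
      have h2 : (0 : ℝ) ≤ (1 / 2) ^ m := by positivity
      rw [pow_succ]
      linarith
  have hbe : ∀ n, k ≤ n → b n ≤ e := fun n hn => by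
    have h1 := hbk n hn
    have h2 : (0 : ℝ) ≤ (1 / 2) ^ n := by positivity
    linarith
  have : ∀ n, Inhabited (ℝ → (Wd.W n).E) := fun n => ⟨fun _ => 0⟩
  obtain ⟨G, hGk, hG⟩ := threadA_rec (α := fun n => ℝ → (Wd.W n).E) k
    (fun n G => (∀ a', IsTraj (Wd.W n).K G a' e) ∧ ∀ s, s ≤ b n → G s = F n s)
    (fun n G G' => ∃ ψ : ℝ → ℝ, threadA_Ch n e (b (n + 1)) ψ ∧
      ∀ s, s ≤ e → Wd.pr n (n + 1) (G' s) = G (ψ s)) Z ⟨hZ, hZF⟩
    (fun n hn G hG => by
      obtain ⟨T, h1, h2, h3⟩ := hfar (n + 1) (by omega) (a (n + 1)) le_rfl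
      exact Wd.threadA_step n (F (n + 1)) G (a (n + 1)) (b (n + 1)) e T (hab _ (by omega))
        (hbe _ (by omega)) (hF _ (by omega)) hG.1 h1 h2 h3
        (fun s hs => by rw [hc n hn s hs, hG.2 s (hs.trans (hb n hn))]))
  have hG2 := fun n hn => (hG n hn).2
  choose! ψ hψ hπ using hG2
  obtain ⟨t, ht⟩ := threadA_times k e (fun n => b (n + 1)) ψ hψ
  have hbt : ∀ n, k ≤ n → b n ≤ t n := fun n hn => (hbk n hn).trans (ht n hn).1
  have hadm : ∀ n, k ≤ n → ∀ a', a' ≤ a n → (Wd.W n).Adm (G n) a' (t n) ∧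
      (Wd.W n).trk (G n) (Icc a' (t n)) = (Wd.W n).trk (G n) (Iic (t n)) := by
    intro n hn a' ha'
    have h0 : a n ≤ t n := (hab n hn).trans (hbt n hn)
    obtain ⟨T, h1, h2, h3⟩ := hfar n hn a' ha'
    refine ⟨⟨ha'.trans h0, ((hG n hn).1.1 a').restrict le_rfl (ht n hn).2.1, T, h1, ?_, ?_⟩,
      threadA_trk (Wd.good n) ha' h0 fun s hs => ?_⟩
    · linarith [(ht n hn).2.1]
    · rw [(hG n hn).1.2 a' (ha'.trans (hab n hn)), h3]
    · obtain ⟨T, h1, -, h3⟩ := hfar n hn s hs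
      exact ⟨T, h1, by rw [(hG n hn).1.2 s (hs.trans (hab n hn)), h3]⟩
  have hx : ∀ n, ∃ y : NonemptyCompacts (ℝ × (Wd.W n).E), k ≤ n → y ∈ (Wd.W n).Y ∧
      (y : Set (ℝ × (Wd.W n).E)) = (Wd.W n).trk (G n) (Iic (t n)) := by
    intro n
    by_cases hn : k ≤ n
    · obtain ⟨h1, h2⟩ := hadm n hn (a n) le_rfl
      obtain ⟨y, hy, hy'⟩ := (Wd.good n).exists_trk h1
      exact ⟨y, fun _ => ⟨hy, hy'.trans h2⟩⟩
    · exact ⟨Wd.rootAmb n, fun h => absurd h hn⟩
  choose x hx using hx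
  obtain ⟨y, hy⟩ := Wd.exists_point k x (fun n hn => (hx n hn).1) (fun n hn => by
    have hn' : k ≤ n + 1 := by omega
    obtain ⟨h1, h2⟩ := hadm (n + 1) hn' (min (a n) (a (n + 1))) (min_le_right _ _)
    obtain ⟨-, h4⟩ := hadm n hn (min (a n) (a (n + 1))) (min_le_left _ _)
    apply SetLike.coe_injective
    have h5 := push_spec (Wd.good n) (Wd.good (n + 1)) (Wd.mor n (n + 1) (by omega)) h1
      ((hx (n + 1) hn').2.trans h2.symm)
    have h6 := threadA_image (hψ n hn) ((min_le_right (a n) _).trans (hab _ hn')) h1.1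
      (ht (n + 1) hn').2.1
    rw [(ht n hn).2.2] at h6
    refine h5.trans (Eq.trans ?_ (hx n hn).2.symm)
    rw [← h4, ← h6]
    unfold Sys.trk
    rw [image_image]
    exact image_congr fun s hs => congrArg _ (hπ n hn s (hs.2.trans (ht (n + 1) hn').2.1)))
  refine ⟨y, t k, (ht k le_rfl).1, (ht k le_rfl).2.1, ?_, fun n hn s hs => ?_⟩
  · rw [hy k le_rfl, (hx k le_rfl).2, hGk]
  · rw [hy n hn, (hx n hn).2, ← (hG n hn).1.2 s hs]
    exact ⟨s, hs.trans (hbt n hn), rfl⟩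

/-- Plan: `thread` with `k = 0`, far rays as `F`, the path of `Wd.start` extended backwards. -/
theorem nontriv : ∃ x : Wd.X, x ≠ Wd.root := by
  obtain ⟨Z, a, b, ⟨hab, hZ, T, hT, hT', hZa⟩, ha, hV⟩ := Wd.start
  have hZ' : ∀ s, a ≤ s → (if s ≤ a then (Wd.W 0).far (T + a - s) else Z s) = Z s := by
    intro s hs
    by_cases c : s ≤ a
    · rw [if_pos c, le_antisymm c hs, hZa, add_sub_cancel_right]
    · rw [if_neg c]
  obtain ⟨x, e', h1, -, h3, -⟩ := Wd.thread 0 (fun n s => (Wd.W n).far (T + a - s))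
    (fun n => min a (T + a - 3 * (Wd.W n).H)) (fun n => min a (T + a - 3 * (Wd.W n).H)) b
    (fun s => if s ≤ a then (Wd.W 0).far (T + a - s) else Z s)
    (fun n _ => by
      have h1 := Wd.H_grow n
      have h2 := (Wd.good n).H_pos
      exact min_le_min le_rfl (by linarith))
    (fun _ _ => le_rfl)
    (fun n _ a' => (Wd.good n).isTraj_far _ _ _
      (by linarith [min_le_right a (T + a - 3 * (Wd.W n).H)]))
    (fun a' => (Wd.good 0).concat
      (((Wd.good 0).isTraj_far (T + a) a' a (by linarith)).congr fun s hs => if_pos hs.2)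
      (hZ.congr fun s hs => hZ' s hs.1))
    (fun n _ s hs => ⟨T + a - s, by linarith [hs.trans (min_le_right _ _)], by linarith, rfl⟩)
    (fun n _ s _ => by rw [(Wd.mor n (n + 1) (by omega)).far, div_one])
    (fun s hs => if_pos (hs.trans (min_le_left _ _)))
    (by
      have := min_le_left a (T + a - 3 * (Wd.W 0).H)
      simp only [pow_zero]
      linarith)
  refine ⟨x, fun hx => ?_⟩
  simp only [pow_zero, mul_one] at h1
  have h4 : (Wd.W 0).Q (Z (b - 2)) ∈ (x.1 0 : Set (ℝ × (Wd.W 0).E)) := by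
    rw [h3, ← hZ' _ ha]
    exact ⟨b - 2, h1, rfl⟩
  rw [hx] at h4
  have h5 : (Wd.W 0).Q (Z (b - 2)) = ((Wd.W 0).H, 0) := h4
  have h6 : min ((Wd.W 0).V (Z (b - 2))) (Wd.W 0).H = (Wd.W 0).H := congrArg Prod.fst h5
  rw [min_eq_left hV.le] at h6
  exact hV.ne h6

end World

end Pool.Agent.MP703675
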