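import Pool.Agent.Lib.MP_703675_gt.Defs

set_option autoImplicit false

open Set Metric Filter Topology TopologicalSpace

noncomputable section

namespace Pool.Agent.MP703675

theorem st_smooth (n : ℕ) : ContDiff ℝ n st := Real.smoothTransition.contDiff (n := n)
theorem st_zero {x : ℝ} (h : x ≤ 0) : st x = 0 := Real.smoothTransition.zero_of_nonpos h
theorem st_one {x : ℝ} (h : 1 ≤ x) : st x = 1 := Real.smoothTransition.one_of_one_le h
theorem st_nonneg (x : ℝ) : 0 ≤ st x := Real.smoothTransition.nonneg x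
theorem st_le_one (x : ℝ) : st x ≤ 1 := Real.smoothTransition.le_one x
theorem st_mono : Monotone st := Real.smoothTransition.monotone
theorem st_pos {x : ℝ} (h : 0 < x) : 0 < st x := Real.smoothTransition.pos_of_pos h
theorem st_lt_one {x : ℝ} (h : x < 1) : st x < 1 := Real.smoothTransition.lt_one_of_lt_one h
theorem st_hasDerivAt (x : ℝ) : HasDerivAt st (deriv st x) x :=
  (((st_smooth 1).differentiable (by simp)) x).hasDerivAt
theorem deriv_st_smooth (n : ℕ) : ContDiff ℝ n (deriv st) := by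
  have h := st_smooth (n + 1)
  rw [Nat.cast_succ, contDiff_succ_iff_deriv] at h
  exact h.2.2
theorem deriv_st_nonneg (x : ℝ) : 0 ≤ deriv st x := st_mono.deriv_nonneg
theorem deriv_st_zero {x : ℝ} (h : x ≤ 0 ∨ 1 ≤ x) : deriv st x = 0 := by
  rcases h with h | h
  · refine IsLocalMin.deriv_eq_zero (Filter.Eventually.of_forall fun y => ?_)
    rw [st_zero h]; exact st_nonneg y
  · refine IsLocalMax.deriv_eq_zero (Filter.Eventually.of_forall fun y => ?_)
    rw [st_one h]; exact st_le_one y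
theorem exists_Cs : ∃ Cs : ℝ, 1 ≤ Cs ∧ ∀ x, deriv st x ≤ Cs := by
  obtain ⟨C, hC⟩ := (isCompact_Icc (a := (0 : ℝ)) (b := 1)).bddAbove_image
    (deriv_st_smooth 0).continuous.continuousOn
  refine ⟨max 1 C, le_max_left _ _, fun x => ?_⟩
  by_cases h : x ≤ 0 ∨ 1 ≤ x
  · rw [deriv_st_zero h]; exact le_trans zero_le_one (le_max_left _ _)
  · push Not at h
    exact le_trans (hC ⟨x, ⟨h.1.le, h.2.le⟩, rfl⟩) (le_max_right _ _)

theorem rmp_hasDerivAt (x : ℝ) : HasDerivAt rmp (st x) x :=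
  ((st_smooth 0).continuous.integral_hasStrictDerivAt 0 x).hasDerivAt
theorem rmp_smooth (n : ℕ) : ContDiff ℝ n rmp := by
  have e : deriv rmp = st := funext fun x => (rmp_hasDerivAt x).deriv
  have h : ContDiff ℝ ((n : WithTop ℕ∞) + 1) rmp := by
    rw [contDiff_succ_iff_deriv, e]
    exact ⟨fun x => (rmp_hasDerivAt x).differentiableAt, by simp, st_smooth n⟩
  exact h.of_le le_self_add
theorem tool_rmp_sub (x y : ℝ) : rmp y - rmp x = ∫ t in x..y, st t :=
  intervalIntegral.integral_interval_sub_left ((st_smooth 0).continuous.intervalIntegrable _ _)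
    ((st_smooth 0).continuous.intervalIntegrable _ _)
theorem tool_rmp_lip {x y : ℝ} (h : x ≤ y) : rmp y - rmp x ≤ y - x := by
  have h1 := intervalIntegral.integral_mono (μ := MeasureTheory.volume) h
    ((st_smooth 0).continuous.intervalIntegrable x y)
    ((continuous_const (y := (1 : ℝ))).intervalIntegrable x y) st_le_one
  rw [tool_rmp_sub]
  simpa using h1
theorem tool_rmp_eq {x y : ℝ} (hx : 1 ≤ x) (hy : 1 ≤ y) : rmp y - rmp x = y - x := by
  rw [tool_rmp_sub, intervalIntegral.integral_congr (g := fun _ => (1 : ℝ))]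
  · simp
  · intro t ht
    exact st_one (le_trans (le_min hx hy) ht.1)
theorem rmp_zero {x : ℝ} (h : x ≤ 0) : rmp x = 0 := by
  unfold rmp
  rw [intervalIntegral.integral_congr (g := fun _ => (0 : ℝ))]
  · simp
  · intro t ht
    rw [uIcc_of_ge h] at ht
    exact st_zero ht.2
theorem rmp_nonneg (x : ℝ) : 0 ≤ rmp x := by
  rcases le_total x 0 with h | h
  · rw [rmp_zero h]
  · exact intervalIntegral.integral_nonneg h fun t _ => st_nonneg t
theorem rmp_le (x : ℝ) : rmp x ≤ max x 0 := by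
  rcases le_total x 0 with h | h
  · rw [rmp_zero h]; exact le_max_right _ _
  · have h1 := tool_rmp_lip h
    rw [rmp_zero le_rfl] at h1
    exact le_trans (by linarith) (le_max_left _ _)
theorem rmp_ge (x : ℝ) : x - 1 ≤ rmp x := by
  rcases le_total x 1 with h | h
  · linarith [rmp_nonneg x]
  · linarith [tool_rmp_eq le_rfl h, rmp_nonneg 1]
theorem rmp_mono : Monotone rmp :=
  monotone_of_deriv_nonneg (fun x => (rmp_hasDerivAt x).differentiableAt) fun x => by
    rw [(rmp_hasDerivAt x).deriv]; exact st_nonneg x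
theorem rmp_sub_le {x y : ℝ} (h : x ≤ y) : rmp y - rmp x ≤ y - x := tool_rmp_lip h
theorem rmp_sub_eq {x y : ℝ} (hx : 1 ≤ x) (hy : 1 ≤ y) : rmp y - rmp x = y - x :=
  tool_rmp_eq hx hy

theorem Aint_smooth {N : ℝ} (n : ℕ) : ContDiff ℝ n (Aint N) :=
  contDiff_const.mul (contDiff_const.sub ((rmp_smooth n).comp
    (contDiff_const.sub (contDiff_id.div_const N))))
theorem Aint_hasDerivAt {N : ℝ} (hN : 0 < N) (t : ℝ) :
    HasDerivAt (Aint N) (st (2 - t / N)) t := by
  have h1 : HasDerivAt (fun t : ℝ => 2 - t / N) (-(1 / N)) t :=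
    ((hasDerivAt_id t).div_const N).const_sub 2
  have h2 := (((rmp_hasDerivAt (2 - t / N)).comp t h1).const_sub 2).const_mul N
  have e : N * -(st (2 - t / N) * -(1 / N)) = st (2 - t / N) := by field_simp
  rw [e] at h2
  exact h2
theorem Aint_le {N : ℝ} (hN : 0 < N) (t : ℝ) : Aint N t ≤ 2 * N := by
  unfold Aint
  nlinarith [mul_nonneg hN.le (rmp_nonneg (2 - t / N))]
theorem Aint_ge {N : ℝ} (hN : 0 < N) (t : ℝ) : min t (2 * N) ≤ Aint N t := by
  unfold Aint
  have h1 := mul_le_mul_of_nonneg_left (rmp_le (2 - t / N)) hN.le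
  have e : N * (2 - t / N) = 2 * N - t := by field_simp
  rcases le_total (2 - t / N) 0 with h | h
  · rw [max_eq_right h] at h1
    exact le_trans (min_le_right _ _) (by linarith)
  · rw [max_eq_left h, e] at h1
    exact le_trans (min_le_left _ _) (by linarith)

theorem cl01_nonneg (x : ℝ) : 0 ≤ cl01 x := le_max_left _ _
theorem cl01_le_one (x : ℝ) : cl01 x ≤ 1 := max_le zero_le_one (min_le_left _ _)
theorem cl01_zero {x : ℝ} (h : x ≤ 0) : cl01 x = 0 :=
  max_eq_left (le_trans (min_le_right _ _) h)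
theorem cl01_one {x : ℝ} (h : 1 ≤ x) : cl01 x = 1 := by
  unfold cl01
  rw [min_eq_left h, max_eq_right zero_le_one]
theorem cl01_lip : LipschitzWith 1 cl01 := (LipschitzWith.id.const_min 1).const_max 0

theorem tool_one_le {u v a : ℝ} (huv : u < v) (h : v - u ≤ a) : 1 ≤ a / (v - u) :=
  (one_le_div (sub_pos.2 huv)).2 h
theorem tool_le_zero {u v a : ℝ} (huv : u < v) (h : a ≤ 0) : a / (v - u) ≤ 0 :=
  div_nonpos_of_nonpos_of_nonneg h (sub_pos.2 huv).le
theorem tool_pl_deriv (u v x : ℝ) : deriv (pl u v) x =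
    (st ((v - x) / (v - u)) * deriv st ((v + x) / (v - u)) -
      deriv st ((v - x) / (v - u)) * st ((v + x) / (v - u))) / (v - u) := by
  have h1 : HasDerivAt (fun t : ℝ => (v - t) / (v - u)) (-1 / (v - u)) x :=
    ((hasDerivAt_id x).const_sub v).div_const _
  have h2 : HasDerivAt (fun t : ℝ => (v + t) / (v - u)) (1 / (v - u)) x :=
    ((hasDerivAt_id x).const_add v).div_const _
  have h3 := ((st_hasDerivAt _).comp x h1).mul ((st_hasDerivAt _).comp x h2)
  refine h3.deriv.trans ?_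
  simp only [Function.comp]
  ring
theorem pl_smooth (u v : ℝ) (n : ℕ) : ContDiff ℝ n (pl u v) :=
  ((st_smooth n).comp ((contDiff_const.sub contDiff_id).div_const _)).mul
    ((st_smooth n).comp ((contDiff_const.add contDiff_id).div_const _))
theorem pl_nonneg (u v x : ℝ) : 0 ≤ pl u v x := mul_nonneg (st_nonneg _) (st_nonneg _)
theorem pl_le_one (u v x : ℝ) : pl u v x ≤ 1 :=
  mul_le_one₀ (st_le_one _) (st_nonneg _) (st_le_one _)
theorem pl_neg (u v x : ℝ) : pl u v (-x) = pl u v x := by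
  unfold pl
  rw [sub_neg_eq_add, ← sub_eq_add_neg, mul_comm]
theorem pl_one {u v x : ℝ} (huv : u < v) (h : |x| ≤ u) : pl u v x = 1 := by
  have h1 := abs_le.1 h
  unfold pl
  rw [st_one (tool_one_le huv (by linarith)), st_one (tool_one_le huv (by linarith)), mul_one]
theorem pl_zero {u v x : ℝ} (huv : u < v) (h : v ≤ |x|) : pl u v x = 0 := by
  unfold pl
  rcases le_abs.1 h with h1 | h1
  · rw [st_zero (tool_le_zero huv (show v - x ≤ 0 by linarith)), zero_mul]
  · rw [st_zero (tool_le_zero huv (show v + x ≤ 0 by linarith)), mul_zero]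
theorem pl_deriv_abs {u v Cs : ℝ} (huv : u < v) (hC : ∀ x, deriv st x ≤ Cs) (x : ℝ) :
    |deriv (pl u v) x| ≤ 2 * Cs / (v - u) := by
  rw [tool_pl_deriv, abs_div, abs_of_pos (sub_pos.2 huv)]
  refine div_le_div_of_nonneg_right ?_ (sub_pos.2 huv).le
  have a1 := mul_nonneg (st_nonneg ((v - x) / (v - u))) (deriv_st_nonneg ((v + x) / (v - u)))
  have a2 := mul_nonneg (deriv_st_nonneg ((v - x) / (v - u))) (st_nonneg ((v + x) / (v - u)))
  have a3 := mul_le_mul (st_le_one ((v - x) / (v - u))) (hC ((v + x) / (v - u)))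
    (deriv_st_nonneg _) zero_le_one
  have a0 : 0 ≤ Cs := le_trans (deriv_st_nonneg 0) (hC 0)
  have a4 := mul_le_mul (hC ((v - x) / (v - u))) (st_le_one ((v + x) / (v - u)))
    (st_nonneg _) a0
  rw [abs_le]
  constructor <;> linarith
theorem pl_deriv_nonpos {u v x : ℝ} (huv : u < v) (h : -u ≤ x) : deriv (pl u v) x ≤ 0 := by
  rw [tool_pl_deriv, deriv_st_zero (Or.inr (tool_one_le huv (show v - u ≤ v + x by linarith)))]
  refine div_nonpos_of_nonpos_of_nonneg ?_ (sub_pos.2 huv).le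
  have a2 := mul_nonneg (deriv_st_nonneg ((v - x) / (v - u))) (st_nonneg ((v + x) / (v - u)))
  linarith
theorem pl_deriv_nonneg {u v x : ℝ} (huv : u < v) (h : x ≤ u) : 0 ≤ deriv (pl u v) x := by
  rw [tool_pl_deriv, deriv_st_zero (Or.inr (tool_one_le huv (show v - u ≤ v - x by linarith)))]
  refine div_nonneg ?_ (sub_pos.2 huv).le
  have a1 := mul_nonneg (st_nonneg ((v - x) / (v - u))) (deriv_st_nonneg ((v + x) / (v - u)))
  linarith
theorem pl_deriv_zero {u v x : ℝ} (huv : u < v) (h : |x| ≤ u ∨ v ≤ |x|) :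
    deriv (pl u v) x = 0 := by
  rcases h with h | h
  · have h1 := abs_le.1 h
    exact le_antisymm (pl_deriv_nonpos huv h1.1) (pl_deriv_nonneg huv h1.2)
  · rw [tool_pl_deriv]
    rcases le_abs.1 h with h1 | h1
    · have h2 := tool_le_zero huv (show v - x ≤ 0 by linarith)
      rw [st_zero h2, deriv_st_zero (Or.inl h2)]; simp
    · have h2 := tool_le_zero huv (show v + x ≤ 0 by linarith)
      rw [st_zero h2, deriv_st_zero (Or.inl h2)]; simp

theorem psi_smooth (c : ℝ) (n : ℕ) : ContDiff ℝ n (psi c) :=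
  contDiff_const.mul ((rmp_smooth n).comp ((contDiff_id.div_const c).sub contDiff_const))
theorem psi_hasDerivAt {c : ℝ} (hc : 0 < c) (h : ℝ) : HasDerivAt (psi c) (st (h / c - 1)) h := by
  have h1 : HasDerivAt (fun t : ℝ => t / c - 1) (1 / c) h :=
    ((hasDerivAt_id h).div_const c).sub_const 1
  have h2 := ((rmp_hasDerivAt (h / c - 1)).comp h h1).const_mul c
  have e : c * (st (h / c - 1) * (1 / c)) = st (h / c - 1) := by field_simp
  rw [e] at h2
  exact h2
theorem psi_nonneg {c : ℝ} (hc : 0 < c) (h : ℝ) : 0 ≤ psi c h := mul_nonneg hc.le (rmp_nonneg _)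
theorem psi_le {c : ℝ} (hc : 0 < c) (h : ℝ) : psi c h ≤ max (h - c) 0 := by
  have h1 := mul_le_mul_of_nonneg_left (rmp_le (h / c - 1)) hc.le
  have e : c * (h / c - 1) = h - c := by field_simp
  rw [mul_max_of_nonneg _ _ hc.le, e, mul_zero] at h1
  exact h1
theorem psi_ge {c : ℝ} (hc : 0 < c) (h : ℝ) : h - 2 * c ≤ psi c h := by
  have h1 := mul_le_mul_of_nonneg_left (rmp_ge (h / c - 1)) hc.le
  have e : c * (h / c - 1 - 1) = h - 2 * c := by field_simp; ring
  rw [e] at h1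
  exact h1
theorem psi_mono {c : ℝ} (hc : 0 < c) : Monotone (psi c) := fun _ _ h =>
  mul_le_mul_of_nonneg_left (rmp_mono (sub_le_sub_right (div_le_div_of_nonneg_right h hc.le) 1))
    hc.le

theorem lg_smooth (n : ℕ) : ContDiff ℝ n lg :=
  contDiff_const.div (contDiff_const.add (Real.contDiff_exp.comp contDiff_neg)) fun _ =>
    (add_pos one_pos (Real.exp_pos _)).ne'
theorem lg_hasDerivAt (x : ℝ) : HasDerivAt lg (lg x * (1 - lg x)) x := by
  have h0 : (1 + Real.exp (-x)) ≠ 0 := (add_pos one_pos (Real.exp_pos _)).ne'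
  have h1 : HasDerivAt (fun t : ℝ => 1 + Real.exp (-t)) (Real.exp (-x) * -1) x :=
    ((hasDerivAt_neg x).exp).const_add 1
  have h2 := (hasDerivAt_const x (1 : ℝ)).div h1 h0
  have e : (0 * (1 + Real.exp (-x)) - 1 * (Real.exp (-x) * -1)) / (1 + Real.exp (-x)) ^ 2 =
      lg x * (1 - lg x) := by
    unfold lg; field_simp; ring
  rw [e] at h2
  exact h2
theorem lg_pos (x : ℝ) : 0 < lg x := one_div_pos.2 (add_pos one_pos (Real.exp_pos _))
theorem lg_lt_one (x : ℝ) : lg x < 1 := by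
  unfold lg
  rw [div_lt_one (add_pos one_pos (Real.exp_pos _))]
  linarith [Real.exp_pos (-x)]
theorem lg_neg (x : ℝ) : lg (-x) = 1 - lg x := by
  unfold lg
  have h0 := Real.exp_pos x
  rw [neg_neg, Real.exp_neg]
  field_simp
  ring
theorem lg_le_exp (x : ℝ) : lg x ≤ Real.exp x := by
  unfold lg
  have h0 := Real.exp_pos x
  rw [div_le_iff₀ (add_pos one_pos (Real.exp_pos _)), mul_add, ← Real.exp_add, add_neg_cancel,
    Real.exp_zero]
  linarith
theorem lg_ge_half {x : ℝ} (h : 0 ≤ x) : 1 / 2 ≤ lg x := by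
  unfold lg
  refine one_div_le_one_div_of_le (add_pos one_pos (Real.exp_pos _)) ?_
  have := Real.exp_le_one_iff.2 (neg_nonpos.2 h)
  linarith

theorem tool_arg {l : ℝ} (hl : 0 < l) (x : ℝ) : 1 ≤ 1 + max x 0 / l :=
  le_add_of_nonneg_right (div_nonneg (le_max_right _ _) hl.le)
theorem tool_log3 : Real.log 3 ≤ 3 / 2 := by
  rw [Real.log_le_iff_le_exp (by norm_num)]
  have h := Real.quadratic_le_exp_of_nonneg (show (0 : ℝ) ≤ 3 / 2 by norm_num)
  linarith
theorem tool_min {a b d : ℝ} (hd : 0 ≤ d) (h : a ≤ b + d) : min 1 a ≤ min 1 b + d := by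
  rw [← min_add_add_right]
  exact min_le_min (by linarith) h
theorem tool_log_step {l x x' D : ℝ} (hl : 0 < l) (hD : 0 ≤ D) (h : x ≤ x' + D) :
    Real.log (1 + max x 0 / l) ≤ Real.log (1 + max x' 0 / l) + D / l := by
  have hd : 0 ≤ D / l := div_nonneg hD hl.le
  have h1 : max x 0 / l ≤ max x' 0 / l + D / l := by
    rw [← add_div]
    refine div_le_div_of_nonneg_right (max_le ?_ ?_) hl.le
    · linarith [le_max_left x' 0]
    · linarith [le_max_right x' 0]
  have h2 := mul_nonneg (div_nonneg (le_max_right x' 0) hl.le) hd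
  have h3 : Real.log (1 + max x 0 / l) ≤ Real.log ((1 + max x' 0 / l) * (1 + D / l)) :=
    Real.log_le_log (lt_of_lt_of_le one_pos (tool_arg hl x)) (by linarith)
  rw [Real.log_mul (lt_of_lt_of_le one_pos (tool_arg hl x')).ne' (by linarith)] at h3
  have h4 := Real.log_le_sub_one_of_pos (show 0 < 1 + D / l by linarith)
  linarith
theorem tool_lr_scale {p l g x : ℝ} (hg : 0 < g) : lr p (g * l) (g * x) = lr p l x := by
  have e : max (g * x) 0 = g * max x 0 := by rw [mul_max_of_nonneg _ _ hg.le, mul_zero]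
  unfold lr
  rw [e, mul_div_mul_left _ _ hg.ne']
theorem lr_nonneg {p l : ℝ} (hp : 0 < p) (hl : 0 < l) (x : ℝ) : 0 ≤ lr p l x :=
  le_min zero_le_one (mul_nonneg hp.le (Real.log_nonneg (tool_arg hl x)))
theorem lr_le_one (p l x : ℝ) : lr p l x ≤ 1 := min_le_left _ _
theorem lr_zero {p l x : ℝ} (h : x ≤ 0) : lr p l x = 0 := by
  unfold lr
  rw [max_eq_right h]; simp
theorem lr_one {p l x : ℝ} (hp : 0 < p) (hl : 0 < l) (h : l * (Real.exp (1 / p) - 1) ≤ x) :
    lr p l x = 1 := by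
  refine min_eq_left ?_
  have h1 : Real.exp (1 / p) ≤ 1 + max x 0 / l := by
    have : Real.exp (1 / p) - 1 ≤ max x 0 / l := by
      rw [le_div_iff₀ hl, mul_comm]; exact le_trans h (le_max_left _ _)
    linarith
  have h2 := (Real.le_log_iff_exp_le (lt_of_lt_of_le one_pos (tool_arg hl x))).2 h1
  rw [div_le_iff₀ hp, mul_comm] at h2
  exact h2
theorem lr_le_lin {p l : ℝ} (hp : 0 < p) (hl : 0 < l) (x : ℝ) : lr p l x ≤ p * (max x 0 / l) := by
  refine le_trans (min_le_right _ _) (mul_le_mul_of_nonneg_left ?_ hp.le)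
  have := Real.log_le_sub_one_of_pos (lt_of_lt_of_le one_pos (tool_arg hl x))
  linarith
theorem lr_le_of_le_two {p l x : ℝ} (hp : 0 < p) (hl : 0 < l) (h : x ≤ 2 * l) :
    lr p l x ≤ 3 / 2 * p := by
  refine le_trans (min_le_right _ _) ?_
  rw [mul_comm (3 / 2 : ℝ)]
  refine mul_le_mul_of_nonneg_left (le_trans (Real.log_le_log
    (lt_of_lt_of_le one_pos (tool_arg hl x)) ?_) tool_log3) hp.le
  have : max x 0 / l ≤ 2 := by
    rw [div_le_iff₀ hl]; exact max_le h (by linarith)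
  linarith
theorem lr_cmp {p l l' x x' D : ℝ} (hp : 0 < p) (hl : 0 < l) (hl' : 0 < l') (hll : l' ≤ 3 * l)
    (hD : 0 ≤ D) (h : x ≤ x' + D) : lr p l x ≤ lr p l' x' + p * (2 + D / l') := by
  have hd : 0 ≤ D / l' := div_nonneg hD hl'.le
  refine tool_min (mul_nonneg hp.le (by linarith)) ?_
  rw [← mul_add]
  refine mul_le_mul_of_nonneg_left ?_ hp.le
  have h1 : max x 0 / l ≤ 3 * (max x 0 / l') := by
    rw [← mul_div_assoc, div_le_div_iff₀ hl hl']
    nlinarith [mul_le_mul_of_nonneg_left hll (le_max_right x 0)]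
  have h2 : Real.log (1 + max x 0 / l) ≤ Real.log (3 * (1 + max x 0 / l')) :=
    Real.log_le_log (lt_of_lt_of_le one_pos (tool_arg hl x)) (by linarith)
  rw [Real.log_mul (by norm_num) (lt_of_lt_of_le one_pos (tool_arg hl' x)).ne'] at h2
  linarith [tool_log_step hl' hD h, tool_log3]
theorem lr_locLip {p l : ℝ} (hp : 0 < p) (hl : 0 < l) : LocallyLipschitz (lr p l) := by
  have hK : 0 ≤ p / l := div_nonneg hp.le hl.le
  refine (LipschitzWith.of_le_add_mul (⟨p / l, hK⟩ : NNReal) fun x y => ?_).locallyLipschitz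
  refine tool_min (mul_nonneg hK dist_nonneg) ?_
  have h1 := tool_log_step hl (dist_nonneg (x := x) (y := y))
    (show x ≤ y + dist x y by rw [Real.dist_eq]; linarith [le_abs_self (x - y)])
  have h2 := mul_le_mul_of_nonneg_left h1 hp.le
  have e : p * (dist x y / l) = p / l * dist x y := by ring
  rw [mul_add, e] at h2
  exact h2

namespace Par

theorem Good.kap_pos {q : Par} (h : q.Good) : 0 < q.kap :=
  lt_of_lt_of_le (mul_pos (mul_pos (by norm_num) h.lam_pos) (Real.exp_pos _)) h.kap_ge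
theorem Good.cap_pos {q : Par} (h : q.Good) : 0 < q.cap := mul_pos h.kap_pos (Real.exp_pos _)
theorem Good.k0_pos {q : Par} (h : q.Good) : 0 < q.k0 :=
  mul_pos (mul_pos two_pos h.lam_pos) (Real.exp_pos _)
theorem Good.w_pos {q : Par} (h : q.Good) : 0 < q.w :=
  add_pos (add_pos (mul_pos h.eta_pos h.H_pos) h.cap_pos) h.c_pos
theorem Good.c_le_w {q : Par} (h : q.Good) : q.cap + q.c ≤ q.w := by
  unfold w
  linarith [mul_pos h.eta_pos h.H_pos]
theorem Good.eta_le_w {q : Par} (h : q.Good) : q.eta * q.H ≤ q.w := by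
  unfold w
  linarith [h.cap_pos, h.c_pos]
theorem Good.two_p_le {q : Par} (h : q.Good) : 2 * q.p ≤ q.eta := by
  have h1 := h.p_le
  have h2 : 0 ≤ q.p * (8 * q.c / q.lam) :=
    mul_nonneg h.p_pos.le (div_nonneg (by linarith [h.c_pos]) h.lam_pos.le)
  linarith
theorem Good.S_mem {q : Par} (h : q.Good) (x : ℝ) : 0 ≤ q.S x ∧ q.S x ≤ 1 :=
  ⟨lr_nonneg h.p_pos h.lam_pos x, lr_le_one _ _ _⟩
theorem Good.rho_mem {q : Par} (h : q.Good) (x : ℝ) : 0 ≤ q.rho x ∧ q.rho x ≤ 1 :=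
  ⟨sub_nonneg.2 (lr_le_one _ _ _), sub_le_self _ (lr_nonneg h.p_pos h.kap_pos x)⟩
theorem al_mem (q : Par) (v : ℝ) : 0 ≤ q.al v ∧ q.al v ≤ 1 := ⟨cl01_nonneg _, cl01_le_one _⟩
theorem Good.al_one {q : Par} (h : q.Good) {v : ℝ} (hv : v ≤ q.H / 4) : q.al v = 1 := by
  refine cl01_one ?_
  have : 4 * v / q.H ≤ 1 := by rw [div_le_one h.H_pos]; linarith
  linarith
theorem Good.al_zero {q : Par} (h : q.Good) {v : ℝ} (hv : q.H / 2 ≤ v) : q.al v = 0 := by
  refine cl01_zero ?_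
  have : 2 ≤ 4 * v / q.H := by rw [le_div_iff₀ h.H_pos]; linarith
  linarith
theorem Good.S_one {q : Par} (h : q.Good) {x : ℝ} (hx : q.k0 - q.lam ≤ x) : q.S x = 1 := by
  refine lr_one h.p_pos h.lam_pos ?_
  unfold k0 at hx
  linarith [mul_pos h.lam_pos (Real.exp_pos (1 / q.p))]
theorem Good.rho_ge {q : Par} (h : q.Good) {x : ℝ} (hx : x ≤ q.k0 + 2 * q.lam) :
    1 - q.eta / 4 ≤ q.rho x := by
  have h1 := lr_le_lin h.p_pos h.kap_pos x
  have h2 : 1 ≤ Real.exp (1 / q.p) := Real.one_le_exp (one_div_pos.2 h.p_pos).le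
  have h3 := mul_le_mul_of_nonneg_left h2 h.lam_pos.le
  have h4 : max x 0 / q.kap ≤ 1 / 2 := by
    rw [div_le_iff₀ h.kap_pos]
    unfold k0 at hx
    exact max_le (by linarith [h.kap_ge]) (by linarith [h.kap_pos])
  have h5 := mul_le_mul_of_nonneg_left h4 h.p_pos.le
  unfold rho
  linarith [h.two_p_le]
theorem Good.scale {q : Par} (h : q.Good) {g : ℝ} (hg : 0 < g) : (q.scale g).Good := by
  refine ⟨mul_pos hg h.H_pos, mul_pos hg h.lam_pos, h.p_pos, mul_pos hg h.c_pos, h.eta_pos,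
    h.eta_le, ?_, ?_, ?_⟩
  · have := mul_le_mul_of_nonneg_left h.kap_ge hg.le
    show 8 * (g * q.lam) * Real.exp (1 / q.p) ≤ g * q.kap
    linarith
  · have e : 8 * (g * q.c) / (g * q.lam) = 8 * q.c / q.lam := by
      have := h.lam_pos
      field_simp
    show q.p * (2 + 8 * (g * q.c) / (g * q.lam)) ≤ q.eta
    rw [e]; exact h.p_le
  · have := mul_le_mul_of_nonneg_left h.c_le hg.le
    show 100 * (g * q.c) ≤ g * q.H
    linarith
theorem scale_w (q : Par) (g : ℝ) : (q.scale g).w = g * q.w := by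
  simp only [w, cap, Par.scale]; ring
theorem scale_cap (q : Par) (g : ℝ) : (q.scale g).cap = g * q.cap := by
  simp only [cap, Par.scale]; ring
theorem scale_al (q : Par) {g : ℝ} (hg : 0 < g) (v : ℝ) : (q.scale g).al (g * v) = q.al v := by
  have e : 4 * (g * v) / (g * q.H) = 4 * v / q.H := by
    rw [mul_left_comm, mul_div_mul_left _ _ hg.ne']
  show cl01 (2 - 4 * (g * v) / (g * q.H)) = _
  rw [e]; rfl
theorem scale_S (q : Par) {g : ℝ} (hg : 0 < g) (x : ℝ) : (q.scale g).S (g * x) = q.S x :=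
  tool_lr_scale hg
theorem scale_rho (q : Par) {g : ℝ} (hg : 0 < g) (x : ℝ) :
    (q.scale g).rho (g * x) = q.rho x := congrArg (fun t => 1 - t) (tool_lr_scale hg)
theorem scale_ind (q : Par) {g : ℝ} (hg : 0 < g) (v : ℝ) :
    (q.scale g).ind (g * v) = q.ind v := by
  show (if g * v ≤ g * q.H then (1 : ℝ) else 0) = _
  simp only [mul_le_mul_iff_right₀ hg]; rfl
theorem scale_scale (q : Par) (g g' : ℝ) : (q.scale g).scale g' = q.scale (g' * g) := by
  simp only [Par.scale, mul_assoc]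
theorem scale_one (q : Par) : q.scale 1 = q := by
  simp only [Par.scale, one_mul]

/-- take `p = η / 10`, `c = lam`, `kap = 8 lam exp (1/p)`, `lam` tiny -/
theorem exists_good {H η ε : ℝ} (hH : 0 < H) (hη : 0 < η) (hη' : η ≤ 1 / 100) (hε : 0 < ε) :
    ∃ q : Par, q.Good ∧ q.H = H ∧ q.eta = η ∧ q.k0 ≤ ε ∧ q.c ≤ ε ∧ q.cap ≤ ε := by
  have hp : 0 < η / 10 := by linarith
  obtain ⟨e, he⟩ : ∃ e, e = Real.exp (1 / (η / 10)) := ⟨_, rfl⟩
  have h1 : 1 ≤ e := by rw [he]; exact Real.one_le_exp (one_div_pos.2 hp).le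
  have h0 : 0 < 8 * e * e := by positivity
  obtain ⟨l, hl, hl1, hl2⟩ : ∃ l : ℝ, 0 < l ∧ l ≤ H / 100 ∧ l ≤ ε / (8 * e * e) :=
    ⟨min (H / 100) (ε / (8 * e * e)), lt_min (by linarith) (div_pos hε h0), min_le_left _ _,
      min_le_right _ _⟩
  rw [le_div_iff₀ h0] at hl2
  have h2 : l ≤ l * e := le_mul_of_one_le_right hl.le h1
  have h3 : l * e ≤ l * e * e := le_mul_of_one_le_right (by linarith) h1
  refine ⟨⟨H, l, η / 10, 8 * l * e, η, l⟩, ⟨hH, hl, hp, hl, hη, hη', ?_, ?_, ?_⟩, rfl, rfl, ?_, ?_, ?_⟩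
  · show 8 * l * Real.exp (1 / (η / 10)) ≤ 8 * l * e
    rw [he]
  · show η / 10 * (2 + 8 * l / l) ≤ η
    rw [mul_div_assoc, div_self hl.ne']; linarith
  · show 100 * l ≤ H
    linarith
  · show 2 * l * Real.exp (1 / (η / 10)) ≤ ε
    rw [← he]; linarith
  · show l ≤ ε
    linarith
  · show 8 * l * e * Real.exp (1 / (η / 10)) ≤ ε
    rw [← he]; linarith

end Par

theorem tool_sqrt (a : ℝ) {s t d : ℝ} (hs : 0 ≤ s) (ht : 0 ≤ t) (hd : 0 ≤ d) (h : s ≤ t + d) :
    Real.sqrt (a ^ 2 + s ^ 2) ≤ Real.sqrt (a ^ 2 + t ^ 2) + d := by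
  have h1 : t ≤ Real.sqrt (a ^ 2 + t ^ 2) := Real.le_sqrt_of_sq_le (by linarith [sq_nonneg a])
  have h2 := Real.sq_sqrt (show 0 ≤ a ^ 2 + t ^ 2 by positivity)
  have h3 := mul_le_mul_of_nonneg_right h1 hd
  have h4 := pow_le_pow_left₀ hs h 2
  refine Real.sqrt_le_iff.2 ⟨by linarith, ?_⟩
  linarith [add_sq (Real.sqrt (a ^ 2 + t ^ 2)) d, add_sq t d]

/-- smooth approximation of the norm -/
theorem exists_smooth_norm (E : Type) [NormedAddCommGroup E] [NormedSpace ℝ E]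
    [FiniteDimensional ℝ E] : ∃ M' : ℝ, 1 ≤ M' ∧ ∀ ν : ℝ, 0 < ν → ∃ N : E → ℝ, ContDiff ℝ 2 N ∧
      (∀ v, ‖v‖ ≤ N v) ∧ (∀ v, N v ≤ M' * ‖v‖ + ν) ∧ ∀ v u, |fderiv ℝ N v u| ≤ M' * ‖u‖ := by
  obtain ⟨T⟩ : Nonempty (E ≃L[ℝ] EuclideanSpace ℝ (Fin (Module.finrank ℝ E))) := ⟨toEuclidean⟩
  obtain ⟨A, hA, hA1⟩ : ∃ A : ℝ, 0 < A ∧ ∀ v, ‖v‖ ≤ A * ‖T v‖ := by
    refine ⟨‖(T.symm : EuclideanSpace ℝ (Fin (Module.finrank ℝ E)) →L[ℝ] E)‖ + 1,
      by positivity, fun v => ?_⟩
    have h1 := (T.symm : EuclideanSpace ℝ (Fin (Module.finrank ℝ E)) →L[ℝ] E).le_opNorm (T v)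
    simp only [ContinuousLinearEquiv.coe_coe, ContinuousLinearEquiv.symm_apply_apply] at h1
    linarith [norm_nonneg (T v)]
  obtain ⟨B, hB, hB1⟩ : ∃ B : ℝ, 0 ≤ B ∧ ∀ v, ‖T v‖ ≤ B * ‖v‖ :=
    ⟨‖(T : E →L[ℝ] EuclideanSpace ℝ (Fin (Module.finrank ℝ E)))‖, norm_nonneg _, fun v =>
      (T : E →L[ℝ] EuclideanSpace ℝ (Fin (Module.finrank ℝ E))).le_opNorm v⟩
  have hAB : 0 ≤ A * B := mul_nonneg hA.le hB
  refine ⟨1 + A * B, by linarith, fun ν hν => ?_⟩
  have ha : 0 < ν / A := div_pos hν hA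
  refine ⟨fun v => A * Real.sqrt ((ν / A) ^ 2 + ‖T v‖ ^ 2), ?_, fun v => ?_, fun v => ?_,
    fun v u => ?_⟩
  · refine contDiff_const.mul (ContDiff.sqrt (contDiff_const.add
      ((contDiff_norm_sq ℝ).comp T.contDiff)) fun v => ?_)
    positivity
  · refine le_trans (hA1 v) (mul_le_mul_of_nonneg_left ?_ hA.le)
    exact Real.le_sqrt_of_sq_le (by linarith [sq_nonneg (ν / A)])
  · have h1 := tool_sqrt (ν / A) (s := ‖T v‖) (t := 0) (d := ‖T v‖) (norm_nonneg _) le_rfl
      (norm_nonneg _) (by linarith)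
    rw [zero_pow two_ne_zero, add_zero, Real.sqrt_sq ha.le] at h1
    have h2 := mul_le_mul_of_nonneg_left h1 hA.le
    have h3 := mul_le_mul_of_nonneg_left (hB1 v) hA.le
    have e : A * (ν / A) = ν := by field_simp
    rw [mul_add, e] at h2
    linarith [norm_nonneg v]
  · have hL : LipschitzWith (⟨A * B, hAB⟩ : NNReal)
        (fun v => A * Real.sqrt ((ν / A) ^ 2 + ‖T v‖ ^ 2)) := by
      refine LipschitzWith.of_le_add_mul _ fun x y => ?_
      have h0 : ‖T x‖ ≤ ‖T y‖ + B * dist x y := by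
        have h1 := hB1 (x - y)
        rw [map_sub, ← dist_eq_norm x y] at h1
        linarith [norm_sub_norm_le (T x) (T y)]
      have h1 := tool_sqrt (ν / A) (norm_nonneg _) (norm_nonneg _) (mul_nonneg hB dist_nonneg) h0
      have h2 := mul_le_mul_of_nonneg_left h1 hA.le
      rw [mul_add, ← mul_assoc] at h2
      exact h2
    have h1 : ‖fderiv ℝ (fun v => A * Real.sqrt ((ν / A) ^ 2 + ‖T v‖ ^ 2)) v‖ ≤ A * B :=
      norm_fderiv_le_of_lipschitz ℝ hL (x₀ := v)
    have h2 := (fderiv ℝ (fun v => A * Real.sqrt ((ν / A) ^ 2 + ‖T v‖ ^ 2)) v).le_opNorm u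
    have h3 := mul_le_mul_of_nonneg_right h1 (norm_nonneg u)
    rw [Real.norm_eq_abs] at h2
    linarith [norm_nonneg u]

end Pool.Agent.MP703675
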