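import Pool.Agent.Lib.MP_703675_gt.Traj2

set_option autoImplicit false

open Set Metric Filter Topology TopologicalSpace

noncomputable section

namespace Pool.Agent.MP703675

section vm

variable {E : Type} [NormedAddCommGroup E]

theorem vm_mem (x : NonemptyCompacts (ℝ × E)) : ∃ q ∈ (x : Set (ℝ × E)), q.1 = vm x := by
  have h1 : IsCompact (Prod.fst '' (x : Set (ℝ × E))) := x.isCompact.image continuous_fst
  exact h1.sInf_mem (x.nonempty.image _)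

theorem vm_le (x : NonemptyCompacts (ℝ × E)) {q : ℝ × E} (hq : q ∈ (x : Set (ℝ × E))) :
    vm x ≤ q.1 := by
  have h1 : IsCompact (Prod.fst '' (x : Set (ℝ × E))) := x.isCompact.image continuous_fst
  exact csInf_le h1.bddBelow (mem_image_of_mem _ hq)

theorem trackA_near (x y : NonemptyCompacts (ℝ × E)) {q : ℝ × E} (hq : q ∈ (y : Set (ℝ × E))) :
    ∃ p ∈ (x : Set (ℝ × E)), dist p q ≤ dist x y := by
  obtain ⟨p, hp, hpe⟩ := x.isCompact.exists_infDist_eq_dist x.nonempty q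
  refine ⟨p, hp, ?_⟩
  have h2 : infDist q (x : Set (ℝ × E)) ≤ hausdorffDist (y : Set (ℝ × E)) x :=
    infDist_le_hausdorffDist_of_mem hq
      (hausdorffEDist_ne_top_of_nonempty_of_bounded y.nonempty x.nonempty y.isCompact.isBounded
        x.isCompact.isBounded)
  rw [dist_comm p q, ← hpe, dist_comm x y, NonemptyCompacts.dist_eq]
  exact h2

theorem trackA_vm_lip : LipschitzWith 1 (vm : NonemptyCompacts (ℝ × E) → ℝ) := by
  refine LipschitzWith.of_le_add fun x y => ?_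
  obtain ⟨q, hq, hqe⟩ := vm_mem y
  obtain ⟨p, hp, hpd⟩ := trackA_near x y hq
  have h1 := vm_le x hp
  have h2 : dist p.1 q.1 ≤ dist p q := by
    rw [Prod.dist_eq]; exact le_max_left _ _
  rw [Real.dist_eq] at h2
  have h3 := le_abs_self (p.1 - q.1)
  linarith

theorem vm_cont : Continuous (vm : NonemptyCompacts (ℝ × E) → ℝ) := trackA_vm_lip.continuous

end vm

variable {S : Sys}

theorem Sys.Q_cont (S : Sys) : Continuous S.Q := by
  unfold Sys.Q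
  exact (S.V.continuous.min continuous_const).prodMk
    (((continuous_const.sub S.V.continuous).max continuous_const).smul continuous_id)

theorem Sys.Q_of_ge (S : Sys) {z : S.E} (h : S.H ≤ S.V z) : S.Q z = (S.H, 0) := by
  unfold Sys.Q
  rw [min_eq_right h, max_eq_right (by linarith), zero_smul]

theorem trackA_Q_of_le (S : Sys) {z : S.E} (h : S.V z ≤ S.H) :
    S.Q z = (S.V z, (S.H - S.V z) • z) := by
  unfold Sys.Q
  rw [min_eq_left h, max_eq_left (by linarith)]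

theorem Sys.Q_inj (S : Sys) {z z' : S.E} (h : S.V z < S.H) (he : S.Q z = S.Q z') : z = z' := by
  rcases le_total (S.V z') S.H with h' | h'
  · rw [trackA_Q_of_le S h.le, trackA_Q_of_le S h'] at he
    obtain ⟨h1, h2⟩ := Prod.mk.inj he
    rw [← h1] at h2
    have h3 : S.H - S.V z ≠ 0 := by linarith
    exact smul_right_injective S.E h3 h2
  · rw [trackA_Q_of_le S h.le, S.Q_of_ge h'] at he
    obtain ⟨h1, -⟩ := Prod.mk.inj he
    linarith

theorem Sys.Good.exists_trk (h : S.Good) {Z : ℝ → S.E} {a b : ℝ} (hZ : S.Adm Z a b) :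
    ∃ x ∈ S.Y, (x : Set (ℝ × S.E)) = S.trk Z (Icc a b) := by
  have hc : IsCompact (S.trk Z (Icc a b)) :=
    isCompact_Icc.image_of_continuousOn (S.Q_cont.comp_continuousOn (h.adm_continuousOn hZ))
  have hn : (S.trk Z (Icc a b)).Nonempty := (nonempty_Icc.2 hZ.1).image _
  exact ⟨⟨⟨S.trk Z (Icc a b), hc⟩, hn⟩, ⟨Z, a, b, hZ, rfl⟩, rfl⟩

theorem Sys.Good.vm_trk (h : S.Good) {Z : ℝ → S.E} {a b : ℝ} (hZ : S.Adm Z a b)
    {x : NonemptyCompacts (ℝ × S.E)} (hx : (x : Set (ℝ × S.E)) = S.trk Z (Icc a b)) :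
    vm x = min (S.V (Z b)) S.H := by
  apply le_antisymm
  · have hb : S.Q (Z b) ∈ (x : Set (ℝ × S.E)) := by
      rw [hx]; exact ⟨b, ⟨hZ.1, le_rfl⟩, rfl⟩
    exact vm_le x hb
  · obtain ⟨q, hq, hqe⟩ := vm_mem x
    rw [hx] at hq
    obtain ⟨s, hs, rfl⟩ := hq
    rw [← hqe]
    show min (S.V (Z b)) S.H ≤ min (S.V (Z s)) S.H
    rcases le_total (S.V (Z s)) S.H with h1 | h1
    · exact min_le_min_right _ (h.V_anti hZ hs.1 hs.2 le_rfl h1)
    · rw [min_eq_right h1]; exact min_le_right _ _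

theorem trackA_start (h : S.Good) {Z : ℝ → S.E} {a b : ℝ} (hZ : S.Adm Z a b) :
    S.Q (Z a) = (S.H, 0) := by
  obtain ⟨-, -, T, hT, -, hZa⟩ := hZ
  apply S.Q_of_ge
  rw [hZa, h.V_far]
  have := h.H_pos
  linarith

theorem Sys.Good.Y_top (h : S.Good) {x : NonemptyCompacts (ℝ × S.E)} (hx : x ∈ S.Y) :
    (S.H, (0 : S.E)) ∈ (x : Set (ℝ × S.E)) ∧ 0 ≤ vm x ∧
      ∀ q ∈ (x : Set (ℝ × S.E)), q.1 ≤ S.H := by
  obtain ⟨Z, a, b, hZ, hx⟩ := hx
  refine ⟨?_, ?_, ?_⟩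
  · rw [hx]; exact ⟨a, ⟨le_rfl, hZ.1⟩, trackA_start h hZ⟩
  · rw [h.vm_trk hZ hx]
    have h1 := h.adm_V_ge hZ (s := b) ⟨hZ.1, le_rfl⟩
    exact le_min (by linarith) h.H_pos.le
  · intro q hq
    rw [hx] at hq
    obtain ⟨s, -, rfl⟩ := hq
    exact min_le_right _ _

theorem trackA_smul_sub {E : Type} [NormedAddCommGroup E] [NormedSpace ℝ E] (p q : ℝ) (z z' : E) :
    ‖p • z - q • z'‖ ≤ |p| * ‖z - z'‖ + |p - q| * ‖z'‖ := by
  have h1 : p • z - q • z' = p • (z - z') + (p - q) • z' := by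
    rw [smul_sub, sub_smul]; abel
  rw [h1]
  refine (norm_add_le _ _).trans ?_
  rw [norm_smul, norm_smul, Real.norm_eq_abs, Real.norm_eq_abs]

theorem trackA_graph (h : S.Good) : ∃ B : ℝ, 0 < B ∧ ∀ Z a b, S.Adm Z a b → ∀ s t, a ≤ s → s ≤ t →
    t ≤ b → ‖(S.Q (Z s)).2 - (S.Q (Z t)).2‖ ≤ B * |(S.Q (Z s)).1 - (S.Q (Z t)).1| := by
  obtain ⟨B, hB, hg⟩ := h.graph
  obtain ⟨R, hR⟩ := h.bdd S.H
  have hH := h.H_pos
  refine ⟨S.H * B + |R| + 1, by positivity, ?_⟩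
  intro Z a b hZ s t hs hst ht
  have hsI : s ∈ Icc a b := ⟨hs, hst.trans ht⟩
  have htI : t ∈ Icc a b := ⟨hs.trans hst, ht⟩
  have hR' : S.V (Z t) ≤ S.H → ‖Z t‖ ≤ |R| := fun h1 =>
    (hR _ (h.inv Z a b hZ t htI) h1).trans (le_abs_self R)
  have hHB : 0 ≤ S.H * B := by positivity
  rcases le_total (S.V (Z s)) S.H with h1 | h1
  · have h2 := h.V_anti hZ hs hst ht h1
    have h3 := hg Z a b hZ s t hs hst ht h1
    have h4 := hR' (h2.trans h1)
    have h5 : 0 ≤ S.V (Z s) := by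
      have := h.adm_V_ge hZ hsI
      linarith [hsI.2]
    rw [trackA_Q_of_le S h1, trackA_Q_of_le S (h2.trans h1)]
    show ‖(S.H - S.V (Z s)) • Z s - (S.H - S.V (Z t)) • Z t‖ ≤
      (S.H * B + |R| + 1) * |S.V (Z s) - S.V (Z t)|
    have hd : 0 ≤ S.V (Z s) - S.V (Z t) := by linarith
    refine (trackA_smul_sub _ _ _ _).trans ?_
    have e1 : |S.H - S.V (Z s) - (S.H - S.V (Z t))| = S.V (Z s) - S.V (Z t) := by
      rw [abs_sub_comm, abs_of_nonneg (by linarith)]; ring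
    rw [e1, abs_of_nonneg hd, abs_of_nonneg (by linarith : 0 ≤ S.H - S.V (Z s)), norm_sub_rev]
    have h6 : (S.H - S.V (Z s)) * ‖Z t - Z s‖ ≤ S.H * (B * (S.V (Z s) - S.V (Z t))) :=
      mul_le_mul (by linarith) h3 (norm_nonneg _) hH.le
    have h7 : (S.V (Z s) - S.V (Z t)) * ‖Z t‖ ≤ (S.V (Z s) - S.V (Z t)) * |R| :=
      mul_le_mul_of_nonneg_left h4 hd
    have h8 : (S.H * B + |R| + 1) * (S.V (Z s) - S.V (Z t)) = S.H * (B * (S.V (Z s) - S.V (Z t))) +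
      (S.V (Z s) - S.V (Z t)) * |R| + (S.V (Z s) - S.V (Z t)) := by ring
    linarith
  · rw [S.Q_of_ge h1]
    rcases le_total (S.V (Z t)) S.H with h2 | h2
    · rw [trackA_Q_of_le S h2]
      show ‖(0 : S.E) - (S.H - S.V (Z t)) • Z t‖ ≤ (S.H * B + |R| + 1) * |S.H - S.V (Z t)|
      rw [zero_sub, norm_neg, norm_smul, Real.norm_eq_abs, mul_comm]
      refine mul_le_mul_of_nonneg_right ?_ (abs_nonneg _)
      have := hR' h2
      linarith
    · rw [S.Q_of_ge h2, sub_self, sub_self, norm_zero, abs_zero, mul_zero]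

/-- tracks are uniformly Lipschitz graphs over the first coordinate -/
theorem Sys.Good.Y_graph (h : S.Good) : ∃ B : ℝ, 0 < B ∧ ∀ x ∈ S.Y, ∀ q ∈ (x : Set (ℝ × S.E)),
    ∀ q' ∈ (x : Set (ℝ × S.E)), ‖q.2 - q'.2‖ ≤ B * |q.1 - q'.1| := by
  obtain ⟨B, hB, hg⟩ := trackA_graph h
  refine ⟨B, hB, ?_⟩
  rintro x ⟨Z, a, b, hZ, hx⟩ q hq q' hq'
  rw [hx] at hq hq'
  obtain ⟨s, hs, rfl⟩ := hq
  obtain ⟨t, ht, rfl⟩ := hq'
  rcases le_total s t with hst | hst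
  · exact hg Z a b hZ s t hs.1 hst ht.2
  · rw [norm_sub_rev, abs_sub_comm]
    exact hg Z a b hZ t s ht.1 hst hs.2

theorem Sys.Good.Y_ivt (h : S.Good) {x : NonemptyCompacts (ℝ × S.E)} (hx : x ∈ S.Y) {v : ℝ}
    (h1 : vm x ≤ v) (h2 : v ≤ S.H) : ∃ q ∈ (x : Set (ℝ × S.E)), q.1 = v := by
  obtain ⟨Z, a, b, hZ, hx⟩ := hx
  have hc : ContinuousOn (fun s => (S.Q (Z s)).1) (Icc a b) :=
    (continuous_fst.comp S.Q_cont).comp_continuousOn (h.adm_continuousOn hZ)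
  have hb : (S.Q (Z b)).1 ≤ v := by
    rw [h.vm_trk hZ hx] at h1; exact h1
  have ha : v ≤ (S.Q (Z a)).1 := by
    rw [trackA_start h hZ]; exact h2
  obtain ⟨s, hs, hsv⟩ := intermediate_value_Icc' hZ.1 hc ⟨hb, ha⟩
  refine ⟨S.Q (Z s), ?_, hsv⟩
  rw [hx]; exact ⟨s, hs, rfl⟩

theorem trackA_eq (h : S.Good) {x : NonemptyCompacts (ℝ × S.E)} (hx : x ∈ S.Y) {q q' : ℝ × S.E}
    (hq : q ∈ (x : Set (ℝ × S.E))) (hq' : q' ∈ (x : Set (ℝ × S.E))) (he : q.1 = q'.1) :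
    q = q' := by
  obtain ⟨B, -, hg⟩ := h.Y_graph
  have h1 := hg x hx q hq q' hq'
  rw [he, sub_self, abs_zero, mul_zero] at h1
  exact Prod.ext he (sub_eq_zero.1 (norm_le_zero_iff.1 h1))

theorem Sys.Good.Y_subset (h : S.Good) {x y : NonemptyCompacts (ℝ × S.E)} (hx : x ∈ S.Y)
    (hy : y ∈ S.Y) (hxy : (x : Set (ℝ × S.E)) ⊆ y) :
    (x : Set (ℝ × S.E)) = {q | q ∈ (y : Set (ℝ × S.E)) ∧ vm x ≤ q.1} := by
  ext q
  constructor
  · intro hq
    exact ⟨hxy hq, vm_le x hq⟩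
  · rintro ⟨hq, hv⟩
    obtain ⟨q', hq', he⟩ := h.Y_ivt hx hv ((h.Y_top hy).2.2 q hq)
    rw [← trackA_eq h hy (hxy hq') hq he]
    exact hq'

/-- the last point of a track depends continuously on the track -/
theorem Sys.Good.lastpt (h : S.Good) : ∃ lp : NonemptyCompacts (ℝ × S.E) → ℝ × S.E,
    ContinuousOn lp S.Y ∧ ∀ Z a b, S.Adm Z a b → ∀ x : NonemptyCompacts (ℝ × S.E),
      (x : Set (ℝ × S.E)) = S.trk Z (Icc a b) → lp x = S.Q (Z b) := by
  choose lp hlp hlv using (vm_mem : ∀ x : NonemptyCompacts (ℝ × S.E), _)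
  obtain ⟨B, hB, hg⟩ := h.Y_graph
  refine ⟨lp, ?_, ?_⟩
  · refine (LipschitzOnWith.of_dist_le' (K := 2 * B + 1) ?_).continuousOn
    intro x hx y _
    obtain ⟨p, hp, hpd⟩ := trackA_near x y (hlp y)
    have h1 : |(lp x).1 - (lp y).1| ≤ dist x y := by
      have := trackA_vm_lip.dist_le_mul x y
      rw [NNReal.coe_one, one_mul, Real.dist_eq, ← hlv x, ← hlv y] at this
      exact this
    have h2 : |p.1 - (lp y).1| ≤ dist x y := by
      refine le_trans ?_ hpd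
      rw [Prod.dist_eq, ← Real.dist_eq]; exact le_max_left _ _
    have h3 : dist p.2 (lp y).2 ≤ dist x y := by
      refine le_trans ?_ hpd
      rw [Prod.dist_eq]; exact le_max_right _ _
    have h4 : |(lp x).1 - p.1| ≤ 2 * dist x y := by
      have e : (lp x).1 - p.1 = ((lp x).1 - (lp y).1) - (p.1 - (lp y).1) := by ring
      rw [e]
      refine (abs_sub _ _).trans ?_
      linarith
    have h5 : dist (lp x).2 p.2 ≤ B * (2 * dist x y) := by
      rw [dist_eq_norm]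
      exact (hg x hx _ (hlp x) p hp).trans (mul_le_mul_of_nonneg_left h4 hB.le)
    have h6 := dist_triangle (lp x).2 p.2 (lp y).2
    have h7 : 0 ≤ B * dist x y := mul_nonneg hB.le dist_nonneg
    have h8 : (2 * B + 1) * dist x y = 2 * (B * dist x y) + dist x y := by ring
    have h9 : B * (2 * dist x y) = 2 * (B * dist x y) := by ring
    rw [Prod.dist_eq]
    refine max_le ?_ ?_
    · rw [Real.dist_eq]; linarith
    · linarith
  · intro Z a b hZ x hx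
    have hxY : x ∈ S.Y := ⟨Z, a, b, hZ, hx⟩
    have hb : S.Q (Z b) ∈ (x : Set (ℝ × S.E)) := by
      rw [hx]; exact ⟨b, ⟨hZ.1, le_rfl⟩, rfl⟩
    refine trackA_eq h hxY (hlp x) hb ?_
    rw [hlv x, h.vm_trk hZ hx]
    rfl

theorem trackA_Q_lip (S : Sys) {R : ℝ} (hH : 0 < S.H) (hR : 0 ≤ R) {z z' : S.E} (hz : ‖z‖ ≤ R)
    (hd : ‖z - z'‖ ≤ 1) :
    dist (S.Q z) (S.Q z') ≤ (S.H + ‖S.V‖ * (2 * R + 2) + 1) * ‖z - z'‖ := by
  have hV : |S.V z - S.V z'| ≤ ‖S.V‖ * ‖z - z'‖ := by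
    rw [← map_sub, ← Real.norm_eq_abs]; exact S.V.le_opNorm _
  have hVz : |S.V z| ≤ ‖S.V‖ * R := by
    rw [← Real.norm_eq_abs]
    exact (S.V.le_opNorm _).trans (mul_le_mul_of_nonneg_left hz (norm_nonneg _))
  have hz' : ‖z'‖ ≤ R + 1 := by
    have e : z' = z - (z - z') := by abel
    have := norm_sub_le z (z - z')
    rw [← e] at this
    linarith
  have hn := norm_nonneg (z - z')
  have hv := norm_nonneg S.V
  have hVR : 0 ≤ ‖S.V‖ * R := mul_nonneg hv hR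
  have p1 : 0 ≤ S.H * ‖z - z'‖ := mul_nonneg hH.le hn
  have p2 : 0 ≤ ‖S.V‖ * ‖z - z'‖ := mul_nonneg hv hn
  have p3 : 0 ≤ ‖S.V‖ * R * ‖z - z'‖ := mul_nonneg hVR hn
  have e0 : (S.H + ‖S.V‖ * (2 * R + 2) + 1) * ‖z - z'‖ = S.H * ‖z - z'‖ +
    2 * (‖S.V‖ * R * ‖z - z'‖) + 2 * (‖S.V‖ * ‖z - z'‖) + ‖z - z'‖ := by ring
  rw [Prod.dist_eq]
  refine max_le ?_ ?_
  · show dist (min (S.V z) S.H) (min (S.V z') S.H) ≤ _
    rw [Real.dist_eq]
    have := abs_min_sub_min_le_max (S.V z) S.H (S.V z') S.H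
    rw [sub_self, abs_zero, max_eq_left (abs_nonneg _)] at this
    linarith
  · show dist (max (S.H - S.V z) 0 • z) (max (S.H - S.V z') 0 • z') ≤ _
    rw [dist_eq_norm]
    refine (trackA_smul_sub _ _ _ _).trans ?_
    have h1 : |max (S.H - S.V z) 0| ≤ S.H + ‖S.V‖ * R := by
      rw [abs_of_nonneg (le_max_right _ _)]
      have := neg_abs_le (S.V z)
      exact max_le (by linarith) (by linarith)
    have h2 : |max (S.H - S.V z) 0 - max (S.H - S.V z') 0| ≤ ‖S.V‖ * ‖z - z'‖ := by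
      refine (abs_max_sub_max_le_abs _ _ _).trans ?_
      have e : S.H - S.V z - (S.H - S.V z') = -(S.V z - S.V z') := by ring
      rw [e, abs_neg]; exact hV
    have h3 := mul_le_mul_of_nonneg_right h1 hn
    have h4 := mul_le_mul h2 hz' (norm_nonneg _) p2
    have e1 : (S.H + ‖S.V‖ * R) * ‖z - z'‖ = S.H * ‖z - z'‖ + ‖S.V‖ * R * ‖z - z'‖ := by ring
    have e2 : ‖S.V‖ * ‖z - z'‖ * (R + 1) = ‖S.V‖ * R * ‖z - z'‖ + ‖S.V‖ * ‖z - z'‖ := by ring
    linarith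

theorem Sys.Good.Q_lip (h : S.Good) : ∃ C : ℝ, 0 < C ∧ ∀ z ∈ S.Om, ∀ z' ∈ S.Om, ‖z - z'‖ ≤ 1 →
    dist (S.Q z) (S.Q z') ≤ C * ‖z - z'‖ := by
  obtain ⟨R, hR⟩ := h.bdd S.H
  have hH := h.H_pos
  have hC : 0 < S.H + ‖S.V‖ * (2 * |R| + 2) + 1 := by positivity
  refine ⟨_, hC, ?_⟩
  intro z hz z' hz' hd
  rcases le_total (S.V z) S.H with h1 | h1
  · exact trackA_Q_lip S hH (abs_nonneg R) ((hR z hz h1).trans (le_abs_self R)) hd
  · rcases le_total (S.V z') S.H with h2 | h2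
    · rw [dist_comm, norm_sub_rev]
      rw [norm_sub_rev] at hd
      exact trackA_Q_lip S hH (abs_nonneg R) ((hR z' hz' h2).trans (le_abs_self R)) hd
    · rw [S.Q_of_ge h1, S.Q_of_ge h2, dist_self]
      exact mul_nonneg hC.le (norm_nonneg _)

end Pool.Agent.MP703675
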