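import Pool.Agent.Lib.MP_703675_gt.TrackA

set_option autoImplicit false

open Set Metric Filter Topology TopologicalSpace

noncomputable section

namespace Pool.Agent.MP703675

variable {B M T : Sys}

theorem trackB_dom {θ : ℝ} {π : T.E →L[ℝ] B.E} (hB : B.Good) (hT : T.Good) (h : Mor B θ T π)
    {Z : ℝ → T.E} {a b s : ℝ} (hZ : T.Adm Z a b) (hs : s ∈ Icc a b) (hV : T.H ≤ T.V (Z s)) :
    B.H ≤ B.V (π (Z s)) := by
  have h1 := h.dom hB hT hZ hs
  have h2 := h.H_le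
  exact le_of_mul_le_mul_left (by linarith) h.pos

theorem trackB_Q {θ : ℝ} {π : T.E →L[ℝ] B.E} (hB : B.Good) (hT : T.Good) (h : Mor B θ T π)
    {Z Z' : ℝ → T.E} {a b a' b' s s' : ℝ} (hZ : T.Adm Z a b) (hZ' : T.Adm Z' a' b')
    (hs : s ∈ Icc a b) (hs' : s' ∈ Icc a' b') (he : T.Q (Z s) = T.Q (Z' s')) :
    B.Q (π (Z s)) = B.Q (π (Z' s')) := by
  rcases lt_or_ge (T.V (Z s)) T.H with hV | hV
  · rw [T.Q_inj hV he]
  · have h1 : T.H ≤ T.V (Z' s') := by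
      have h2 := congrArg Prod.fst he
      rw [T.Q_of_ge hV] at h2
      have h3 : T.H = min (T.V (Z' s')) T.H := h2
      rw [h3]
      exact min_le_left _ _
    rw [B.Q_of_ge (trackB_dom hB hT h hZ hs hV), B.Q_of_ge (trackB_dom hB hT h hZ' hs' h1)]

theorem trackB_sub {θ : ℝ} {π : T.E →L[ℝ] B.E} (hB : B.Good) (hT : T.Good) (h : Mor B θ T π)
    {Z Z' : ℝ → T.E} {a b a' b' : ℝ} (hZ : T.Adm Z a b) (hZ' : T.Adm Z' a' b')
    (he : T.trk Z (Icc a b) ⊆ T.trk Z' (Icc a' b')) :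
    B.trk (fun s => π (Z s)) (Icc a b) ⊆ B.trk (fun s => π (Z' s)) (Icc a' b') := by
  rintro _ ⟨s, hs, rfl⟩
  obtain ⟨s', hs', h'⟩ := he ⟨s, hs, rfl⟩
  exact ⟨s', hs', (trackB_Q hB hT h hZ hZ' hs hs' h'.symm).symm⟩

theorem trackB_mem {θ a b s : ℝ} (hθ : 0 < θ) (hs : s ∈ Icc a b) :
    s / θ ∈ Icc (a / θ) (b / θ) :=
  ⟨div_le_div_of_nonneg_right hs.1 hθ.le, div_le_div_of_nonneg_right hs.2 hθ.le⟩

theorem trackB_scale (S : Sys) (Y : ℝ → S.E) {θ : ℝ} (hθ : 0 < θ) (a b : ℝ) :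
    S.trk (fun s => Y (θ * s)) (Icc (a / θ) (b / θ)) = S.trk Y (Icc a b) := by
  apply Subset.antisymm
  · rintro _ ⟨s, hs, rfl⟩
    refine ⟨θ * s, ⟨?_, ?_⟩, rfl⟩
    · have := (div_le_iff₀ hθ).1 hs.1
      linarith
    · have := (le_div_iff₀ hθ).1 hs.2
      linarith
  · rintro _ ⟨s, hs, rfl⟩
    refine ⟨s / θ, trackB_mem hθ hs, ?_⟩
    show S.Q (Y (θ * (s / θ))) = S.Q (Y s)
    rw [mul_div_cancel₀ _ hθ.ne']

theorem trackB_Om {θ : ℝ} {π : T.E →L[ℝ] B.E} (hB : B.Good) (h : Mor B θ T π)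
    {Z : ℝ → T.E} {a b s : ℝ} (hZ : T.Adm Z a b) (hs : s ∈ Icc a b) : π (Z s) ∈ B.Om := by
  have h1 := hB.inv _ _ _ (h.adm hZ) (s / θ) (trackB_mem h.pos hs)
  simpa only [mul_div_cancel₀ _ h.pos.ne'] using h1

theorem trackB_exists {θ : ℝ} {π : T.E →L[ℝ] B.E} (hB : B.Good) (h : Mor B θ T π)
    {Z : ℝ → T.E} {a b : ℝ} (hZ : T.Adm Z a b) :
    ∃ y ∈ B.Y, (y : Set (ℝ × B.E)) = B.trk (fun s => π (Z s)) (Icc a b) := by
  obtain ⟨y, hy, he⟩ := hB.exists_trk (h.adm hZ)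
  exact ⟨y, hy, he.trans (trackB_scale B (fun s => π (Z s)) h.pos a b)⟩

theorem trackB_const (h : T.Good) (a b : ℝ) (hab : a ≤ b) (hl : b - a ≤ 3 * T.H) :
    T.Adm (fun _ => T.far (3 * T.H)) a b :=
  ⟨hab, isTraj_const _ (h.zero_mem _) a b, 3 * T.H, le_rfl, hl, rfl⟩

theorem trackB_Qfar (h : T.Good) {z : T.E} (hz : 3 * T.H ≤ T.V z) : T.Q z = (T.H, 0) :=
  T.Q_of_ge (by have := h.H_pos; linarith)

theorem trackB_norm1 (h : T.Good) {Z : ℝ → T.E} {a b : ℝ} (hZ : T.Adm Z a b) :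
    ∃ Z' : ℝ → T.E, T.Adm Z' 0 (3 * T.H) ∧ Z' 0 = T.far (3 * T.H) ∧
      T.trk Z' (Icc 0 (3 * T.H)) = T.trk Z (Icc a b) := by
  have hH := h.H_pos
  rcases h.normalAdm hZ with h1 | ⟨c, hc, hZc, hl, h1⟩
  · refine ⟨fun _ => T.far (3 * T.H), trackB_const h _ _ (by linarith) (by linarith), rfl, ?_⟩
    have h0 : T.Q (T.far (3 * T.H)) = (T.H, 0) := trackB_Qfar h (by rw [h.V_far])
    apply Subset.antisymm
    · rintro _ ⟨s, -, rfl⟩
      exact ⟨a, ⟨le_rfl, hZ.1⟩, (trackB_Qfar h (h1 a ⟨le_rfl, hZ.1⟩)).trans h0.symm⟩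
    · rintro _ ⟨s, hs, rfl⟩
      exact ⟨0, ⟨le_rfl, by linarith⟩, h0.trans (trackB_Qfar h (h1 s hs)).symm⟩
  · have h0 : Z (min (0 + c) b) = T.far (3 * T.H) := by rw [zero_add, min_eq_left hc.2, hZc]
    refine ⟨fun s => Z (min (s + c) b), ⟨by linarith, ?_, 3 * T.H, le_rfl, by linarith, h0⟩, h0, ?_⟩
    · refine hZ.2.1.reparam (fun z κ hκ σ h0 h1 => h.star z hκ h0 h1)
        (φ := fun s => min (s + c) b) ?_ ?_
      · intro s t _ hst _
        refine ⟨min_le_min (by linarith) le_rfl, ?_⟩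
        rcases le_total (s + c) b with h2 | h2
        · rw [min_eq_left h2]
          have := min_le_left (t + c) b
          linarith
        · rw [min_eq_right h2]
          have := min_le_right (t + c) b
          linarith
      · intro s hs
        exact ⟨le_min (by linarith [hs.1, hc.1]) hZ.1, min_le_right _ _⟩
    · apply Subset.antisymm
      · rintro _ ⟨s, hs, rfl⟩
        exact ⟨min (s + c) b, ⟨le_min (by linarith [hs.1, hc.1]) hZ.1, min_le_right _ _⟩, rfl⟩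
      · rintro _ ⟨s, hs, rfl⟩
        rcases le_total s c with h2 | h2
        · refine ⟨0, ⟨le_rfl, by linarith⟩, ?_⟩
          show T.Q (Z (min (0 + c) b)) = T.Q (Z s)
          rw [h0, trackB_Qfar h (h1 s ⟨hs.1, h2⟩), trackB_Qfar h (by rw [h.V_far])]
        · refine ⟨s - c, ⟨by linarith, by linarith [hs.2]⟩, ?_⟩
          show T.Q (Z (min (s - c + c) b)) = T.Q (Z s)
          rw [sub_add_cancel, min_eq_left hs.2]

/-- the compact set of normalised witnesses -/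
def trackB_W (T : Sys) (L : NNReal) (R C : ℝ) : Set (ℝ → T.E) :=
  {Z | LipschitzWith L Z ∧ (∀ s, ‖Z s‖ ≤ R) ∧ Z 0 = T.far (3 * T.H) ∧
    IsTrajC T.K C Z 0 (3 * T.H)}

theorem trackB_W_compact (h : T.Good) (L : NNReal) (R C : ℝ) : IsCompact (trackB_W T L R C) := by
  haveI : ProperSpace T.E := FiniteDimensional.proper ℝ T.E
  have h1 : IsCompact (Set.pi univ (fun _ : ℝ => closedBall (0 : T.E) R)) :=
    isCompact_univ_pi (fun _ => isCompact_closedBall _ _)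
  refine h1.of_isClosed_subset ?_ ?_
  · have c1 : IsClosed {Z : ℝ → T.E | LipschitzWith L Z} := isClosed_setOf_lipschitzWith L
    have c2 : IsClosed {Z : ℝ → T.E | ∀ s, ‖Z s‖ ≤ R} := by
      rw [setOf_forall]
      exact isClosed_iInter fun s => isClosed_le (continuous_apply s).norm continuous_const
    have c3 : IsClosed {Z : ℝ → T.E | Z 0 = T.far (3 * T.H)} :=
      isClosed_eq (continuous_apply 0) continuous_const
    have c4 : IsClosed {Z : ℝ → T.E | IsTrajC T.K C Z 0 (3 * T.H)} := by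
      refine isClosed_of_closure_subset ?_
      intro Z hZ
      haveI := mem_closure_iff_nhdsWithin_neBot.1 hZ
      refine h.limit (l := 𝓝[{Z : ℝ → T.E | IsTrajC T.K C Z 0 (3 * T.H)}] Z) (Zs := fun i => i)
        self_mem_nhdsWithin ?_
      intro s _
      exact ((continuous_apply s).tendsto Z).mono_left nhdsWithin_le_nhds
    exact c1.inter (c2.inter (c3.inter c4))
  · intro Z hZ s _
    exact mem_closedBall_zero_iff.2 (hZ.2.1 s)

theorem trackB_norm (h : T.Good) : ∃ (L : NNReal) (R C : ℝ), ∀ Z a b, T.Adm Z a b →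
    ∃ Z' ∈ trackB_W T L R C, T.trk Z' (Icc 0 (3 * T.H)) = T.trk Z (Icc a b) := by
  have hH := h.H_pos
  obtain ⟨Bs, hBs, hsp⟩ := h.speed
  obtain ⟨C, -, hC⟩ := h.normalC (‖T.far (3 * T.H)‖ + Bs * (3 * T.H))
  refine ⟨⟨Bs, hBs.le⟩, ‖T.far (3 * T.H)‖ + Bs * (3 * T.H), C, ?_⟩
  intro Z a b hZ
  obtain ⟨Y, hY, hY0, he⟩ := trackB_norm1 h hZ
  have hlip : ∀ s t, 0 ≤ s → s ≤ t → t ≤ 3 * T.H → ‖Y t - Y s‖ ≤ Bs * (t - s) := by
    intro s t hs hst ht
    exact hY.2.1.lip_of_bound h.bddK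
      (fun u hu κ hκ => hsp _ (h.inv _ _ _ hY u ⟨hu.1, hu.2.le⟩) κ hκ) hs hst ht
  have hcl : ∀ s : ℝ, max 0 (min s (3 * T.H)) ∈ Icc 0 (3 * T.H) := fun s =>
    ⟨le_max_left _ _, max_le (by linarith) (min_le_right _ _)⟩
  have hid : ∀ s ∈ Icc 0 (3 * T.H), max 0 (min s (3 * T.H)) = s := fun s hs => by
    rw [min_eq_left hs.2, max_eq_right hs.1]
  have hbd : ∀ s ∈ Icc 0 (3 * T.H), ‖Y s‖ ≤ ‖T.far (3 * T.H)‖ + Bs * (3 * T.H) := by
    intro s hs
    have h1 := hlip 0 s le_rfl hs.1 hs.2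
    have h2 : ‖Y s‖ ≤ ‖Y 0‖ + ‖Y s - Y 0‖ := norm_le_norm_add_norm_sub' _ _
    have h3 : Bs * (s - 0) ≤ Bs * (3 * T.H) := mul_le_mul_of_nonneg_left (by linarith [hs.2]) hBs.le
    rw [hY0] at h2
    rw [hY0] at h1
    linarith
  have hlo : LipschitzOnWith ⟨Bs, hBs.le⟩ Y (Icc 0 (3 * T.H)) := by
    refine LipschitzOnWith.of_dist_le_mul ?_
    intro s hs t ht
    show dist (Y s) (Y t) ≤ Bs * dist s t
    rw [dist_eq_norm, Real.dist_eq]
    rcases le_total s t with h1 | h1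
    · rw [norm_sub_rev, abs_sub_comm, abs_of_nonneg (sub_nonneg.2 h1)]
      exact hlip s t hs.1 h1 ht.2
    · rw [abs_of_nonneg (sub_nonneg.2 h1)]
      exact hlip t s ht.1 h1 hs.2
  refine ⟨fun s => Y (max 0 (min s (3 * T.H))), ⟨?_, fun s => hbd _ (hcl s), ?_, ?_⟩, ?_⟩
  · have h1 : LipschitzWith 1 (fun s : ℝ => max 0 (min s (3 * T.H))) :=
      (LipschitzWith.id.min_const _).const_max _
    refine LipschitzWith.of_dist_le_mul ?_
    intro s t
    have h2 := hlo.dist_le_mul _ (hcl s) _ (hcl t)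
    have h3 := h1.dist_le_mul s t
    rw [NNReal.coe_one, one_mul] at h3
    exact h2.trans (mul_le_mul_of_nonneg_left h3 (NNReal.coe_nonneg _))
  · show Y (max 0 (min 0 (3 * T.H))) = _
    rw [hid 0 ⟨le_rfl, by linarith⟩, hY0]
  · refine hC _ _ _ (hY.2.1.congr ?_) (fun s _ => hbd _ (hcl s))
    intro s hs
    show Y (max 0 (min s (3 * T.H))) = Y s
    rw [hid s hs]
  · rw [← he]
    refine image_congr ?_
    intro s hs
    show T.Q (Y (max 0 (min s (3 * T.H)))) = T.Q (Y s)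
    rw [hid s hs]

theorem trackB_W_adm (h : T.Good) {L : NNReal} {R C : ℝ} {Z : ℝ → T.E}
    (hZ : Z ∈ trackB_W T L R C) : T.Adm Z 0 (3 * T.H) :=
  ⟨by have := h.H_pos; linarith, ⟨C, hZ.2.2.2⟩, 3 * T.H, le_rfl, by linarith, hZ.2.2.1⟩

theorem trackB_graph {θ : ℝ} {π : T.E →L[ℝ] B.E} (hB : B.Good) (hT : T.Good)
    (h : Mor B θ T π) : IsCompact {p : NonemptyCompacts (ℝ × T.E) × NonemptyCompacts (ℝ × B.E) |
      ∃ Z a b, T.Adm Z a b ∧ (p.1 : Set (ℝ × T.E)) = T.trk Z (Icc a b) ∧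
        (p.2 : Set (ℝ × B.E)) = B.trk (fun s => π (Z s)) (Icc a b)} := by
  obtain ⟨L, R, C, hn⟩ := trackB_norm hT
  haveI : CompactSpace (trackB_W T L R C) := isCompact_iff_compactSpace.1 (trackB_W_compact hT L R C)
  let I : NonemptyCompacts ℝ :=
    ⟨⟨Icc 0 (3 * T.H), isCompact_Icc⟩, nonempty_Icc.2 (by have := hT.H_pos; linarith)⟩
  have hev : Continuous (fun p : trackB_W T L R C × ℝ => p.1.1 p.2) :=
    continuous_prod_of_continuous_lipschitzWith' _ L (fun a => a.2.1)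
      (fun b => (continuous_apply b).comp continuous_subtype_val)
  have g1 : Continuous (Function.uncurry fun (Z : trackB_W T L R C) (s : ℝ) => T.Q (Z.1 s)) :=
    T.Q_cont.comp hev
  have g2 : Continuous (Function.uncurry fun (Z : trackB_W T L R C) (s : ℝ) => B.Q (π (Z.1 s))) :=
    B.Q_cont.comp (π.continuous.comp hev)
  have f1 := Continuous.nonemptyCompacts_map' (f := fun _ : trackB_W T L R C => I)
    continuous_const g1
  have f2 := Continuous.nonemptyCompacts_map' (f := fun _ : trackB_W T L R C => I)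
    continuous_const g2
  have hc := isCompact_range (f1.prodMk f2)
  refine (congrArg IsCompact ?_).mp hc
  apply Subset.antisymm
  · rintro _ ⟨Z, rfl⟩
    exact ⟨Z.1, 0, 3 * T.H, trackB_W_adm hT Z.2, rfl, rfl⟩
  · rintro p ⟨Z, a, b, hZ, h1, h2⟩
    obtain ⟨Z', hZ', he⟩ := hn Z a b hZ
    have hA := trackB_W_adm hT hZ'
    refine ⟨⟨Z', hZ'⟩, Prod.ext (NonemptyCompacts.ext ?_) (NonemptyCompacts.ext ?_)⟩
    · exact he.trans h1.symm
    · exact (Subset.antisymm (trackB_sub hB hT h hA hZ he.le)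
        (trackB_sub hB hT h hZ hA he.ge)).trans h2.symm

end Pool.Agent.MP703675
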