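import Pool.Agent.Lib.MP_703675_gt.TrackA
import Pool.Agent.Lib.MP_703675_gt.TrackBa

set_option autoImplicit false

open Set Metric Filter Topology TopologicalSpace

noncomputable section

namespace Pool.Agent.MP703675

variable {B M T : Sys}

/-- Plan: by `normalAdm` every track has a witness on `[0, 3 H]` that starts at `far (3 H)`
(extend by a constant, `concat`); these witnesses are uniformly bounded, uniformly Lipschitz and
have a uniform error constant, so an ultrafilter limit is again such a witness and the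
convergence is uniform.  Prove it once for the graph of `push`, see `push_graph_compact`. -/
theorem push_graph_compact {θ : ℝ} {π : T.E →L[ℝ] B.E} (hB : B.Good) (hT : T.Good)
    (h : Mor B θ T π) : IsCompact {p : NonemptyCompacts (ℝ × T.E) × NonemptyCompacts (ℝ × B.E) |
      ∃ Z a b, T.Adm Z a b ∧ (p.1 : Set (ℝ × T.E)) = T.trk Z (Icc a b) ∧
        (p.2 : Set (ℝ × B.E)) = B.trk (fun s => π (Z s)) (Icc a b)} := trackB_graph hB hT h

theorem Sys.Good.Y_compact (h : T.Good) : IsCompact T.Y := by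
  have hc := (push_graph_compact h h (Mor.id T)).image continuous_fst
  refine (congrArg IsCompact ?_).mp hc
  apply Subset.antisymm
  · rintro _ ⟨p, ⟨Z, a, b, hZ, h1, -⟩, rfl⟩
    exact ⟨Z, a, b, hZ, h1⟩
  · rintro x ⟨Z, a, b, hZ, h1⟩
    exact ⟨(x, x), ⟨Z, a, b, hZ, h1, h1⟩, rfl⟩

/-- Plan: the collapsed state of `T` determines the collapsed state of `B`
(`Q_inj` below `H`, `Mor.dom` above). -/
theorem push_spec {θ : ℝ} {π : T.E →L[ℝ] B.E} (hB : B.Good) (hT : T.Good) (h : Mor B θ T π)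
    {Z : ℝ → T.E} {a b : ℝ} (hZ : T.Adm Z a b) {x : NonemptyCompacts (ℝ × T.E)}
    (hx : (x : Set (ℝ × T.E)) = T.trk Z (Icc a b)) :
    (push B T π x : Set (ℝ × B.E)) = B.trk (fun s => π (Z s)) (Icc a b) := by
  have hex : ∃ y : NonemptyCompacts (ℝ × B.E), ∃ Z a b, T.Adm Z a b ∧
      (x : Set (ℝ × T.E)) = T.trk Z (Icc a b) ∧
      (y : Set (ℝ × B.E)) = B.trk (fun s => π (Z s)) (Icc a b) := by
    obtain ⟨y, -, hy⟩ := trackB_exists hB h hZ
    exact ⟨y, Z, a, b, hZ, hx, hy⟩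
  have e : push B T π x = hex.choose := by
    unfold push
    exact dif_pos hex
  obtain ⟨Z', a', b', hZ', h1, h2⟩ := hex.choose_spec
  rw [e, h2]
  have he : T.trk Z' (Icc a' b') = T.trk Z (Icc a b) := h1.symm.trans hx
  exact Subset.antisymm (trackB_sub hB hT h hZ' hZ he.le) (trackB_sub hB hT h hZ hZ' he.ge)

theorem push_mem {θ : ℝ} {π : T.E →L[ℝ] B.E} (hB : B.Good) (hT : T.Good) (h : Mor B θ T π)
    {x : NonemptyCompacts (ℝ × T.E)} (hx : x ∈ T.Y) : push B T π x ∈ B.Y := by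
  obtain ⟨Z, a, b, hZ, h1⟩ := hx
  obtain ⟨y, hy, h2⟩ := trackB_exists hB h hZ
  have e : push B T π x = y := NonemptyCompacts.ext ((push_spec hB hT h hZ h1).trans h2.symm)
  rwa [e]

theorem push_continuousOn {θ : ℝ} {π : T.E →L[ℝ] B.E} (hB : B.Good) (hT : T.Good)
    (h : Mor B θ T π) : ContinuousOn (push B T π) T.Y := by
  rw [continuousOn_iff_isClosed]
  intro C hC
  have hc := ((push_graph_compact hB hT h).inter_right (hC.preimage continuous_snd)).image
    continuous_fst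
  refine ⟨_, hc.isClosed, ?_⟩
  apply Subset.antisymm
  · rintro x ⟨hx, hY⟩
    refine ⟨?_, hY⟩
    obtain ⟨Z, a, b, hZ, h1⟩ := hY
    exact ⟨(x, push B T π x), ⟨⟨Z, a, b, hZ, h1, push_spec hB hT h hZ h1⟩, hx⟩, rfl⟩
  · rintro _ ⟨⟨p, ⟨⟨Z, a, b, hZ, h1, h2⟩, hp⟩, rfl⟩, hY⟩
    refine ⟨?_, hY⟩
    have e : push B T π p.1 = p.2 := NonemptyCompacts.ext ((push_spec hB hT h hZ h1).trans h2.symm)
    show push B T π p.1 ∈ C
    rw [e]
    exact hp

theorem push_comp {θ θ' : ℝ} {π : M.E →L[ℝ] B.E} {π' : T.E →L[ℝ] M.E} (hB : B.Good) (hM : M.Good)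
    (hT : T.Good) (h : Mor B θ M π) (h' : Mor M θ' T π') {x : NonemptyCompacts (ℝ × T.E)}
    (hx : x ∈ T.Y) : push B M π (push M T π' x) = push B T (π.comp π') x := by
  obtain ⟨Z, a, b, hZ, h1⟩ := hx
  have e1 := (push_spec hM hT h' hZ h1).trans
    (trackB_scale M (fun s => π' (Z s)) h'.pos a b).symm
  have e2 := (push_spec hB hM h (h'.adm hZ) e1).trans
    (trackB_scale B (fun s => π (π' (Z s))) h'.pos a b)
  exact NonemptyCompacts.ext (e2.trans (push_spec hB hT (h.comp h') hZ h1).symm)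

theorem push_congr {π π' : T.E →L[ℝ] B.E} (h : ∀ z, π z = π' z) : push B T π = push B T π' := by
  have e : π = π' := ContinuousLinearMap.ext h
  rw [e]

theorem push_mono {θ : ℝ} {π : T.E →L[ℝ] B.E} (hB : B.Good) (hT : T.Good) (h : Mor B θ T π)
    {x y : NonemptyCompacts (ℝ × T.E)} (hx : x ∈ T.Y) (hy : y ∈ T.Y)
    (hxy : (x : Set (ℝ × T.E)) ⊆ y) : (push B T π x : Set (ℝ × B.E)) ⊆ push B T π y := by
  obtain ⟨Z, a, b, hZ, h1⟩ := hx
  obtain ⟨Z', a', b', hZ', h2⟩ := hy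
  rw [push_spec hB hT h hZ h1, push_spec hB hT h hZ' h2]
  refine trackB_sub hB hT h hZ hZ' ?_
  rw [← h1, ← h2]
  exact hxy

theorem trackB_high {θ θ1 : ℝ} {χ : M.E →L[ℝ] B.E} {π : T.E →L[ℝ] M.E} (hB : B.Good)
    (hM : M.Good) (h : Mor B θ M χ) (h1 : Mor M θ1 T π) {Z : ℝ → T.E} {a b s : ℝ}
    (hZ : T.Adm Z a b) (hs : s ∈ Icc a b) (hV : 2 * M.H ≤ M.V (π (Z s))) :
    B.Q (χ (π (Z s))) = (B.H, 0) := by
  have hH := hM.H_pos
  have e : θ1 * (s / θ1) = s := mul_div_cancel₀ _ h1.pos.ne'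
  have h2 := trackB_dom hB hM h (h1.adm hZ) (trackB_mem h1.pos hs) (by rw [e]; linarith)
  rw [e] at h2
  exact B.Q_of_ge h2

/-- close morphisms have close push forwards after any further morphism -/
theorem push_close (hB : B.Good) : ∃ C : ℝ, 0 < C ∧ ∀ (M T : Sys) (θ θ1 θ2 ε : ℝ)
    (χ : M.E →L[ℝ] B.E) (π1 π2 : T.E →L[ℝ] M.E), M.Good → T.Good → Mor B θ M χ → Mor M θ1 T π1 →
    Mor M θ2 T π2 → 0 ≤ ε → ε ≤ 1 →
    (∀ Z a b, T.Adm Z a b → ∀ s ∈ Icc a b, M.Close ε (π1 (Z s)) (π2 (Z s))) →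
    ∀ x ∈ T.Y, dist (push B T (χ.comp π1) x) (push B T (χ.comp π2) x) ≤ C * ε := by
  obtain ⟨C, hC, hQ⟩ := hB.Q_lip
  refine ⟨C, hC, ?_⟩
  intro M T θ θ1 θ2 ε χ π1 π2 hM hT h h1 h2 he0 he1 hcl x hx
  obtain ⟨Z, a, b, hZ, hx⟩ := hx
  have h0 : 0 ≤ C * ε := mul_nonneg hC.le he0
  have key : ∀ s ∈ Icc a b, dist (B.Q (χ (π1 (Z s)))) (B.Q (χ (π2 (Z s)))) ≤ C * ε := by
    intro s hs
    rcases hcl Z a b hZ s hs with ⟨c1, c2⟩ | c
    · rw [trackB_high hB hM h h1 hZ hs c1, trackB_high hB hM h h2 hZ hs c2, dist_self]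
      exact h0
    · have c' : ‖χ (π1 (Z s)) - χ (π2 (Z s))‖ ≤ ε := by
        rw [← map_sub]
        exact (h.norm_le _).trans c
      exact (hQ _ (trackB_Om hB (h.comp h1) hZ hs) _ (trackB_Om hB (h.comp h2) hZ hs)
        (c'.trans he1)).trans (mul_le_mul_of_nonneg_left c' hC.le)
  rw [NonemptyCompacts.dist_eq, push_spec hB hT (h.comp h1) hZ hx,
    push_spec hB hT (h.comp h2) hZ hx]
  refine hausdorffDist_le_of_mem_dist h0 ?_ ?_
  · rintro _ ⟨s, hs, rfl⟩
    exact ⟨_, ⟨s, hs, rfl⟩, key s hs⟩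
  · rintro _ ⟨s, hs, rfl⟩
    refine ⟨_, ⟨s, hs, rfl⟩, ?_⟩
    rw [dist_comm]
    exact key s hs

theorem trackB_push_id (hT : T.Good) {π : T.E →L[ℝ] T.E} (h : ∀ z, π z = z)
    {x : NonemptyCompacts (ℝ × T.E)} (hx : x ∈ T.Y) : push T T π x = x := by
  obtain ⟨Z, a, b, hZ, h1⟩ := hx
  have e : π = ContinuousLinearMap.id ℝ T.E := ContinuousLinearMap.ext h
  rw [e]
  exact NonemptyCompacts.ext ((push_spec hT hT (Mor.id T) hZ h1).trans h1.symm)

theorem trackB_top_trk (T : Sys) {f : ℝ → T.E} (hf : T.H ≤ T.V (f 0)) :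
    T.trk f (Icc 0 0) = {(T.H, 0)} := by
  rw [Icc_self]
  show (fun s => T.Q (f s)) '' {0} = _
  rw [image_singleton, T.Q_of_ge hf]

theorem trackB_vm_le (hT : T.Good) {x : NonemptyCompacts (ℝ × T.E)} (hx : x ∈ T.Y) :
    vm x ≤ T.H := vm_le x (hT.Y_top hx).1

theorem trackB_vm_anti {E : Type} [NormedAddCommGroup E] {x y : NonemptyCompacts (ℝ × E)}
    (hxy : (x : Set (ℝ × E)) ⊆ y) : vm y ≤ vm x := by
  obtain ⟨q, hq, e⟩ := vm_mem x
  rw [← e]
  exact vm_le y (hxy hq)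

theorem trackB_eq_of_vm (hT : T.Good) {x y : NonemptyCompacts (ℝ × T.E)} (hx : x ∈ T.Y)
    (hy : y ∈ T.Y) (hxy : (x : Set (ℝ × T.E)) ⊆ y) (hv : vm x ≤ vm y) : x = y := by
  refine NonemptyCompacts.ext (Subset.antisymm hxy ?_)
  rw [hT.Y_subset hx hy hxy]
  intro q hq
  exact ⟨hq, hv.trans (vm_le y hq)⟩

namespace World

variable (Wd : World)

theorem H_ge (n : ℕ) : 10 * ((n : ℝ) + 1) ≤ (Wd.W n).H := by
  induction n with
  | zero => simpa using Wd.H0
  | succ n ih =>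
    have h1 := Wd.H_grow n
    have h2 : (0 : ℝ) ≤ n := Nat.cast_nonneg n
    push_cast
    linarith

theorem XS_compact : IsCompact Wd.XS := by
  have h1 : IsCompact (Set.pi univ (fun n => (Wd.W n).Y)) :=
    isCompact_univ_pi (fun n => (Wd.good n).Y_compact)
  refine h1.of_isClosed_subset ?_ (fun x hx n _ => hx.1 n)
  have e : Wd.XS = ⋂ m, ⋂ n, ⋂ (_ : m ≤ n), {x ∈ Set.pi univ (fun n => (Wd.W n).Y) |
      push (Wd.W m) (Wd.W n) (Wd.pr m n) (x n) = x m} := by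
    apply Subset.antisymm
    · intro x hx
      simp only [mem_iInter]
      exact fun m n hmn => ⟨fun n _ => hx.1 n, hx.2 m n hmn⟩
    · intro x hx
      simp only [mem_iInter] at hx
      exact ⟨fun n => (hx 0 0 le_rfl).1 n (mem_univ _), fun m n hmn => (hx m n hmn).2⟩
  rw [e]
  refine isClosed_iInter fun m => isClosed_iInter fun n => isClosed_iInter fun hmn => ?_
  refine h1.isClosed.isClosed_eq ?_ (continuous_apply m).continuousOn
  exact (push_continuousOn (Wd.good m) (Wd.good n) (Wd.mor m n hmn)).comp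
    (continuous_apply n).continuousOn (fun x hx => hx n (mem_univ _))

theorem root_mem : Wd.rootAmb ∈ Wd.XS := by
  have hA : ∀ n, (Wd.W n).Adm (fun _ => (Wd.W n).far (3 * (Wd.W n).H)) 0 0 := fun n =>
    trackB_const (Wd.good n) 0 0 le_rfl (by have := (Wd.good n).H_pos; linarith)
  have hV : ∀ n, (Wd.W n).H ≤ (Wd.W n).V ((Wd.W n).far (3 * (Wd.W n).H)) := fun n => by
    rw [(Wd.good n).V_far]
    have := (Wd.good n).H_pos
    linarith
  have hR : ∀ n, (Wd.rootAmb n : Set (ℝ × (Wd.W n).E)) =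
      (Wd.W n).trk (fun _ => (Wd.W n).far (3 * (Wd.W n).H)) (Icc 0 0) := fun n =>
    (trackB_top_trk (Wd.W n) (hV n)).symm
  refine ⟨fun n => ⟨_, 0, 0, hA n, hR n⟩, fun m n hmn => NonemptyCompacts.ext ?_⟩
  rw [push_spec (Wd.good m) (Wd.good n) (Wd.mor m n hmn) (hA n) (hR n)]
  have hd := trackB_dom (s := 0) (Wd.good m) (Wd.good n) (Wd.mor m n hmn) (hA n)
    ⟨le_rfl, le_rfl⟩ (hV n)
  exact trackB_top_trk (Wd.W m) hd

/-- the root -/
def root : Wd.X := ⟨Wd.rootAmb, Wd.root_mem⟩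

theorem compactSpace : CompactSpace Wd.X := isCompact_iff_compactSpace.1 Wd.XS_compact

theorem le_refl' (x : Wd.X) : Wd.le x x := fun _ => Subset.rfl
theorem le_trans' (x y z : Wd.X) : Wd.le x y → Wd.le y z → Wd.le x z :=
  fun h1 h2 n => (h1 n).trans (h2 n)
theorem le_antisymm' (x y : Wd.X) : Wd.le x y → Wd.le y x → x = y :=
  fun h1 h2 => Subtype.ext (funext fun n => NonemptyCompacts.ext (Subset.antisymm (h1 n) (h2 n)))
theorem le_closed : IsClosed {q : Wd.X × Wd.X | Wd.le q.1 q.2} := by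
  have e : {q : Wd.X × Wd.X | Wd.le q.1 q.2} = ⋂ n, {q : Wd.X × Wd.X | q.1.1 n ⊔ q.2.1 n = q.2.1 n} := by
    ext q
    simp only [mem_iInter, mem_ofPred_eq, sup_eq_right]
    rfl
  rw [e]
  refine isClosed_iInter fun n => ?_
  have c1 : Continuous fun q : Wd.X × Wd.X => q.1.1 n :=
    (continuous_apply n).comp (continuous_subtype_val.comp continuous_fst)
  have c2 : Continuous fun q : Wd.X × Wd.X => q.2.1 n :=
    (continuous_apply n).comp (continuous_subtype_val.comp continuous_snd)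
  exact isClosed_eq (c1.sup c2) c2
theorem root_le (x : Wd.X) : Wd.le Wd.root x := fun n =>
  singleton_subset_iff.2 ((Wd.good n).Y_top (x.2.1 n)).1

theorem trackB_term (x : Wd.X) (n : ℕ) :
    ‖(1 / 2 : ℝ) ^ n * (1 - vm (x.1 n) / (Wd.W n).H)‖ ≤ (1 / 2 : ℝ) ^ n := by
  have hH := (Wd.good n).H_pos
  have h0 := ((Wd.good n).Y_top (x.2.1 n)).2.1
  have h1 := trackB_vm_le (Wd.good n) (x.2.1 n)
  have h2 : 0 ≤ vm (x.1 n) / (Wd.W n).H := div_nonneg h0 hH.le
  have h3 : vm (x.1 n) / (Wd.W n).H ≤ 1 := (div_le_one hH).2 h1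
  have h4 : (0 : ℝ) < (1 / 2) ^ n := by positivity
  rw [Real.norm_of_nonneg (mul_nonneg h4.le (by linarith))]
  exact mul_le_of_le_one_right h4.le (by linarith)

theorem U_cont : Continuous Wd.U := by
  refine continuous_tsum (u := fun n : ℕ => (1 / 2 : ℝ) ^ n) ?_ summable_geometric_two
    (fun n x => Wd.trackB_term x n)
  intro n
  have c1 : Continuous fun x : Wd.X => vm (x.1 n) :=
    vm_cont.comp ((continuous_apply n).comp continuous_subtype_val)
  exact continuous_const.mul (continuous_const.sub (c1.div_const _))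
theorem U_mono (x y : Wd.X) : Wd.le x y → x ≠ y → Wd.U x < Wd.U y := by
  intro h hne
  have hs : ∀ z : Wd.X, Summable fun n : ℕ => (1 / 2 : ℝ) ^ n * (1 - vm (z.1 n) / (Wd.W n).H) :=
    fun z => Summable.of_norm_bounded summable_geometric_two (fun n => Wd.trackB_term z n)
  have hi : ∃ i, vm (y.1 i) < vm (x.1 i) := by
    by_contra hc
    apply hne
    refine Subtype.ext (funext fun n => ?_)
    exact trackB_eq_of_vm (Wd.good n) (x.2.1 n) (y.2.1 n) (h n)
      (not_lt.1 fun k => hc ⟨n, k⟩)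
  obtain ⟨i, hi⟩ := hi
  refine Summable.tsum_lt_tsum (i := i) ?_ ?_ (hs x) (hs y)
  · intro n
    have h1 := div_le_div_of_nonneg_right (trackB_vm_anti (h n)) (Wd.good n).H_pos.le
    exact mul_le_mul_of_nonneg_left (by linarith) (by positivity)
  · have h1 := div_lt_div_of_pos_right hi (Wd.good i).H_pos
    exact mul_lt_mul_of_pos_left (by linarith) (by positivity)

/-- it suffices to compare high levels -/
theorem le_of_ge (x y : Wd.X) (k : ℕ)
    (h : ∀ n, k ≤ n → (x.1 n : Set (ℝ × (Wd.W n).E)) ⊆ y.1 n) : Wd.le x y := by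
  intro n
  rcases le_total k n with h1 | h1
  · exact h n h1
  · rw [← x.2.2 n k h1, ← y.2.2 n k h1]
    exact push_mono (Wd.good n) (Wd.good k) (Wd.mor n k h1) (x.2.1 k) (y.2.1 k) (h k le_rfl)

theorem ne_root {x : Wd.X} (hx : x ≠ Wd.root) : ∃ m, vm (x.1 m) < (Wd.W m).H := by
  by_contra hc
  apply hx
  refine Subtype.ext (funext fun n => ?_)
  refine (trackB_eq_of_vm (Wd.good n) (Wd.root.2.1 n) (x.2.1 n) (Wd.root_le x n) ?_).symm
  exact (trackB_vm_le (Wd.good n) (Wd.root.2.1 n)).trans (not_lt.1 fun k => hc ⟨n, k⟩)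

theorem trackB_comp {m k n : ℕ} (h1 : m ≤ k) (h2 : k ≤ n) {x : NonemptyCompacts (ℝ × (Wd.W n).E)}
    (hx : x ∈ (Wd.W n).Y) : push (Wd.W m) (Wd.W k) (Wd.pr m k) (push (Wd.W k) (Wd.W n) (Wd.pr k n) x) =
      push (Wd.W m) (Wd.W n) (Wd.pr m n) x := by
  rw [push_comp (Wd.good m) (Wd.good k) (Wd.good n) (Wd.mor m k h1) (Wd.mor k n h2) hx,
    push_congr (π' := Wd.pr m n) (fun z => Wd.pr_comp m k n h1 h2 z)]

/-- a compatible family of tracks from level `k` on defines a point -/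
theorem exists_point (k : ℕ) (x : Wd.Amb) (h1 : ∀ n, k ≤ n → x n ∈ (Wd.W n).Y)
    (h2 : ∀ n, k ≤ n → push (Wd.W n) (Wd.W (n + 1)) (Wd.pr n (n + 1)) (x (n + 1)) = x n) :
    ∃ y : Wd.X, ∀ n, k ≤ n → y.1 n = x n := by
  have h3 : ∀ m, k ≤ m → ∀ n, m ≤ n → push (Wd.W m) (Wd.W n) (Wd.pr m n) (x n) = x m := by
    intro m hm n hmn
    induction n, hmn using Nat.le_induction with
    | base => exact trackB_push_id (Wd.good m) (Wd.pr_id m) (h1 m hm)
    | succ n hmn ih =>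
      rw [← Wd.trackB_comp hmn (Nat.le_succ n) (h1 _ (by omega)), h2 n (hm.trans hmn), ih]
  let y : Wd.Amb := fun n => if k ≤ n then x n else push (Wd.W n) (Wd.W k) (Wd.pr n k) (x k)
  have y1 : ∀ n, k ≤ n → y n = x n := fun n hn => if_pos hn
  have y2 : ∀ n, ¬ k ≤ n → y n = push (Wd.W n) (Wd.W k) (Wd.pr n k) (x k) := fun n hn => if_neg hn
  refine ⟨⟨y, fun n => ?_, fun m n hmn => ?_⟩, y1⟩
  · by_cases hn : k ≤ n
    · rw [y1 n hn]
      exact h1 n hn
    · rw [y2 n hn]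
      exact push_mem (Wd.good n) (Wd.good k) (Wd.mor n k (by omega)) (h1 k le_rfl)
  · by_cases hm : k ≤ m
    · rw [y1 m hm, y1 n (hm.trans hmn)]
      exact h3 m hm n hmn
    · rw [y2 m hm]
      by_cases hn : k ≤ n
      · rw [y1 n hn, ← h3 k le_rfl n hn]
        exact (Wd.trackB_comp (by omega) hn (h1 n hn)).symm
      · rw [y2 n hn]
        exact Wd.trackB_comp hmn (by omega) (h1 k le_rfl)

end World

end Pool.Agent.MP703675
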