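import Pool.Agent.Lib.MP_703675_gt.Defs

set_option autoImplicit false

open Set Metric Filter Topology TopologicalSpace

noncomputable section

namespace Pool.Agent.MP703675

variable {E G : Type} [NormedAddCommGroup E] [NormedSpace ℝ E] [NormedAddCommGroup G]
  [NormedSpace ℝ G]

theorem LDI.bddK {F : E → Set G} (h : LDI F) : BddK F := fun R => by
  obtain ⟨_, B, _, _, hB, _⟩ := h R
  exact ⟨B, hB⟩

theorem IsTraj.restrict {K : E → Set E} {Z : ℝ → E} {a b a' b' : ℝ} (h : IsTraj K Z a b)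
    (ha : a ≤ a') (hb : b' ≤ b) : IsTraj K Z a' b' := by
  obtain ⟨C, h⟩ := h
  exact ⟨C, fun s t hs hst ht => h s t (ha.trans hs) hst (ht.trans hb)⟩

theorem IsTraj.congr {K : E → Set E} {Z Z' : ℝ → E} {a b : ℝ} (h : IsTraj K Z a b)
    (he : ∀ s ∈ Icc a b, Z' s = Z s) : IsTraj K Z' a b := by
  obtain ⟨C, h⟩ := h
  refine ⟨C, fun s t hs hst ht => ?_⟩
  rw [he s ⟨hs, hst.trans ht⟩, he t ⟨hs.trans hst, ht⟩]
  exact h s t hs hst ht

theorem IsTraj.shift {K : E → Set E} {Z : ℝ → E} {a b : ℝ} (h : IsTraj K Z a b) (c : ℝ) :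
    IsTraj K (fun s => Z (s + c)) (a - c) (b - c) := by
  obtain ⟨C, h⟩ := h
  refine ⟨C, fun s t hs hst ht => ?_⟩
  have := h (s + c) (t + c) (by linarith) (by linarith) (by linarith)
  rwa [add_sub_add_right_eq_sub] at this

theorem IsTraj.mono {K K' : E → Set E} {Z : ℝ → E} {a b : ℝ} (h : IsTraj K Z a b)
    (hK : ∀ s ∈ Icc a b, K (Z s) ⊆ K' (Z s)) : IsTraj K' Z a b := by
  obtain ⟨C, h⟩ := h
  refine ⟨C, fun s t hs hst ht => ?_⟩
  obtain ⟨κ, h1, h2⟩ := h s t hs hst ht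
  exact ⟨κ, hK s ⟨hs, hst.trans ht⟩ h1, h2⟩

theorem isTraj_const {K : E → Set E} (z : E) (h0 : (0 : E) ∈ K z) (a b : ℝ) :
    IsTraj K (fun _ => z) a b := ⟨0, fun s t _ _ _ => ⟨0, h0, by simp⟩⟩

/-- straight motion -/
theorem isTraj_line {K : E → Set E} (z c : E) (a b : ℝ)
    (h : ∀ s ∈ Icc a b, c ∈ K (z + (s - a) • c)) : IsTraj K (fun s => z + (s - a) • c) a b := by
  refine ⟨0, fun s t hs hst ht => ⟨c, h s ⟨hs, hst.trans ht⟩, ?_⟩⟩
  have : z + (t - a) • c - (z + (s - a) • c) - (t - s) • c = 0 := by module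
  rw [this, norm_zero, zero_mul]

theorem IsTraj.traj1_nonneg {K : E → Set E} {Z : ℝ → E} {a b : ℝ} (h : IsTraj K Z a b) :
    ∃ C, 0 ≤ C ∧ IsTrajC K C Z a b := by
  obtain ⟨C, h⟩ := h
  refine ⟨|C|, abs_nonneg C, fun s t hs hst ht => ?_⟩
  obtain ⟨κ, h1, h2⟩ := h s t hs hst ht
  exact ⟨κ, h1, h2.trans (mul_le_mul_of_nonneg_right (le_abs_self C) (sq_nonneg _))⟩

theorem traj1_step {x y κ : E} {s t C B l : ℝ} (hC : 0 ≤ C) (hst : s ≤ t) (hl : t - s ≤ l)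
    (hB : ‖κ‖ ≤ B) (h : ‖y - x - (t - s) • κ‖ ≤ C * (t - s) ^ 2) :
    ‖y - x‖ ≤ (B + C * l) * (t - s) := by
  have h0 : 0 ≤ t - s := sub_nonneg.2 hst
  have h1 : ‖(t - s) • κ‖ ≤ (t - s) * B := by
    rw [norm_smul, Real.norm_of_nonneg h0]; exact mul_le_mul_of_nonneg_left hB h0
  have h2 : C * (t - s) * (t - s) ≤ C * l * (t - s) :=
    mul_le_mul_of_nonneg_right (mul_le_mul_of_nonneg_left hl hC) h0
  have h3 := norm_sub_norm_le (y - x) ((t - s) • κ)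
  nlinarith

theorem IsTraj.bounded {K : E → Set E} {Z : ℝ → E} {a b : ℝ} (h : IsTraj K Z a b) (hK : BddK K) :
    ∃ R : ℝ, ∀ s ∈ Icc a b, ‖Z s‖ ≤ R := by
  obtain ⟨C, hC, h⟩ := h.traj1_nonneg
  obtain ⟨B, hB⟩ := hK ‖Z a‖
  refine ⟨‖Z a‖ + (|B| + C * (b - a)) * (b - a), fun s hs => ?_⟩
  obtain ⟨κ, h1, h2⟩ := h a s le_rfl hs.1 hs.2
  have h3 := traj1_step hC hs.1 (sub_le_sub_right hs.2 a) ((hB _ le_rfl κ h1).trans (le_abs_self B))
    h2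
  have h4 : (|B| + C * (b - a)) * (s - a) ≤ (|B| + C * (b - a)) * (b - a) :=
    mul_le_mul_of_nonneg_left (sub_le_sub_right hs.2 a)
      (add_nonneg (abs_nonneg B) (mul_nonneg hC (sub_nonneg.2 (hs.1.trans hs.2))))
  linarith [norm_sub_norm_le (Z s) (Z a)]

theorem IsTraj.traj1_vel {K : E → Set E} {Z : ℝ → E} {a b : ℝ} (h : IsTraj K Z a b)
    (hK : BddK K) : ∃ B : ℝ, 0 ≤ B ∧ ∀ s ∈ Icc a b, ∀ κ ∈ K (Z s), ‖κ‖ ≤ B := by
  obtain ⟨R, hR⟩ := h.bounded hK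
  obtain ⟨B, hB⟩ := hK R
  exact ⟨|B|, abs_nonneg B, fun s hs κ k => (hB _ (hR s hs) κ k).trans (le_abs_self B)⟩

theorem IsTraj.traj1_lip {K : E → Set E} {Z : ℝ → E} {a b : ℝ} (h : IsTraj K Z a b)
    (hK : BddK K) :
    ∃ L : ℝ, 0 ≤ L ∧ ∀ s t, a ≤ s → s ≤ t → t ≤ b → ‖Z t - Z s‖ ≤ L * (t - s) := by
  obtain ⟨B, hB0, hB⟩ := h.traj1_vel hK
  obtain ⟨C, hC, h⟩ := h.traj1_nonneg
  refine ⟨B + C * |b - a|, by positivity, fun s t hs hst ht => ?_⟩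
  obtain ⟨κ, h1, h2⟩ := h s t hs hst ht
  exact traj1_step hC hst (by linarith [le_abs_self (b - a)]) (hB s ⟨hs, hst.trans ht⟩ κ h1) h2

theorem IsTraj.continuousOn {K : E → Set E} {Z : ℝ → E} {a b : ℝ} (h : IsTraj K Z a b)
    (hK : BddK K) : ContinuousOn Z (Icc a b) := by
  obtain ⟨L, hL, h⟩ := h.traj1_lip hK
  refine (LipschitzOnWith.of_dist_le_mul (K := ⟨L, hL⟩) fun s hs t ht => ?_).continuousOn
  rw [dist_eq_norm, Real.dist_eq]
  rcases le_total s t with k | k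
  · rw [norm_sub_rev, abs_sub_comm, abs_of_nonneg (sub_nonneg.2 k)]
    exact h s t hs.1 k ht.2
  · rw [abs_of_nonneg (sub_nonneg.2 k)]
    exact h t s ht.1 k hs.2

/-- the right Dini derivative along a trajectory -/
theorem IsTraj.traj1_dini {K : E → Set E} {Z : ℝ → E} {a b : ℝ} (h : IsTraj K Z a b)
    (hK : BddK K) {Φ : E → ℝ} (hΦ : Differentiable ℝ Φ) {ρ x r : ℝ} (hx : x ∈ Ico a b)
    (hd : ∀ κ ∈ K (Z x), fderiv ℝ Φ (Z x) κ ≤ ρ) (hr : ρ < r) :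
    ∀ᶠ z in 𝓝[>] x, slope (fun u => Φ (Z u)) x z < r := by
  obtain ⟨L, hL, hl⟩ := h.traj1_lip hK
  have hc := h.continuousOn hK
  obtain ⟨C, hC, h⟩ := h.traj1_nonneg
  have m : Ioc x b ∈ 𝓝[>] x := Ioc_mem_nhdsGT hx.2
  have t1 : Tendsto Z (𝓝[>] x) (𝓝 (Z x)) :=
    ((hc x ⟨hx.1, hx.2.le⟩).mono_of_mem_nhdsWithin
      (mem_of_superset m fun u hu => ⟨hx.1.trans hu.1.le, hu.2⟩)).tendsto
  obtain ⟨ε, hε, e⟩ : ∃ ε : ℝ, 0 < ε ∧ ε * L ≤ (r - ρ) / 2 := by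
    refine ⟨(r - ρ) / 2 / (L + 1), div_pos (by linarith) (by linarith), ?_⟩
    rw [div_mul_eq_mul_div, div_le_iff₀ (by linarith)]
    nlinarith
  have t2 := t1.eventually ((hΦ (Z x)).hasFDerivAt.isLittleO.def hε)
  have t3 : ∀ᶠ z in 𝓝[>] x, ‖fderiv ℝ Φ (Z x)‖ * C * (z - x) < (r - ρ) / 2 := by
    have : Tendsto (fun z => ‖fderiv ℝ Φ (Z x)‖ * C * (z - x)) (𝓝 x)
        (𝓝 (‖fderiv ℝ Φ (Z x)‖ * C * (x - x))) := Continuous.tendsto (by fun_prop) x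
    rw [sub_self, mul_zero] at this
    exact (this.eventually (gt_mem_nhds (by linarith))).filter_mono nhdsWithin_le_nhds
  filter_upwards [m, t2, t3] with z hz k2 k3
  have hzx : 0 < z - x := sub_pos.2 hz.1
  obtain ⟨κ, h1, h2⟩ := h x z hx.1 hz.1.le hz.2
  have a1 := mul_le_mul_of_nonneg_left (hd κ h1) hzx.le
  have a2 : fderiv ℝ Φ (Z x) (Z z - Z x - (z - x) • κ) ≤
      ‖fderiv ℝ Φ (Z x)‖ * (C * (z - x) ^ 2) :=
    (le_abs_self _).trans (((fderiv ℝ Φ (Z x)).le_opNorm _).trans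
      (mul_le_mul_of_nonneg_left h2 (norm_nonneg _)))
  rw [map_sub, map_smul, smul_eq_mul] at a2
  have a3 := (le_abs_self _).trans
    (k2.trans (mul_le_mul_of_nonneg_left (hl x z hx.1 hz.1.le hz.2) hε.le))
  have a4 := mul_lt_mul_of_pos_right k3 hzx
  have a5 := mul_le_mul_of_nonneg_right e hzx.le
  rw [slope_def_field, div_lt_iff₀ hzx]
  nlinarith

/-- monotonicity lemma with a rate -/
theorem IsTraj.le_rate {K : E → Set E} {Z : ℝ → E} {a b : ℝ} (h : IsTraj K Z a b) (hK : BddK K)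
    {Φ : E → ℝ} (hΦ : Differentiable ℝ Φ) {ρ : ℝ}
    (hd : ∀ s ∈ Ico a b, ∀ κ ∈ K (Z s), fderiv ℝ Φ (Z s) κ ≤ ρ) {s t : ℝ} (hs : a ≤ s)
    (hst : s ≤ t) (ht : t ≤ b) : Φ (Z t) - Φ (Z s) ≤ ρ * (t - s) := by
  have hc : ContinuousOn (fun u => Φ (Z u)) (Icc s t) :=
    hΦ.continuous.comp_continuousOn ((h.continuousOn hK).mono (Icc_subset_Icc hs ht))
  have := image_le_of_liminf_slope_right_le_deriv_boundary (B := fun u => Φ (Z s) + ρ * (u - s))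
    (B' := fun _ => ρ) hc (by simp) (by fun_prop)
    (fun x _ => (((hasDerivAt_id' x).sub_const s).const_mul ρ |>.const_add _
      |>.hasDerivWithinAt).congr_deriv (mul_one ρ))
    (fun x hx r hr => by
      have hx' : x ∈ Ico a b := ⟨hs.trans hx.1, hx.2.trans_le ht⟩
      exact (h.traj1_dini hK hΦ hx' (hd x hx') hr).frequently) ⟨hst, le_rfl⟩
  linarith

/-- barrier lemma, window form -/
theorem IsTraj.barrier_win {K : E → Set E} {Z : ℝ → E} {a b : ℝ} (h : IsTraj K Z a b)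
    (hK : BddK K) {Φ : E → ℝ} (hΦ : Differentiable ℝ Φ) {c ε : ℝ} (hε : 0 < ε)
    (hd : ∀ s ∈ Ico a b, c < Φ (Z s) → Φ (Z s) < c + ε → ∀ κ ∈ K (Z s), fderiv ℝ Φ (Z s) κ ≤ 0)
    (ha : Φ (Z a) ≤ c) : ∀ t ∈ Icc a b, Φ (Z t) ≤ c := by
  classical
  intro t ht
  obtain ⟨B, -, hB⟩ := h.traj1_vel hK
  have hc : ContinuousOn (fun u => Φ (Z u)) (Icc a b) :=
    hΦ.continuous.comp_continuousOn (h.continuousOn hK)
  have hab : 0 < 1 + (b - a) := by linarith [ht.1.trans ht.2]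
  refine le_of_forall_pos_le_add fun η hη => ?_
  obtain ⟨δ, hδ, e1, e2⟩ : ∃ δ : ℝ, 0 < δ ∧ δ * (1 + (b - a)) ≤ η ∧ δ * (1 + (b - a)) < ε := by
    refine ⟨min η (ε / 2) / (1 + (b - a)), div_pos (lt_min hη (by linarith)) hab, ?_⟩
    rw [div_mul_cancel₀ _ hab.ne']
    exact ⟨min_le_left _ _, (min_le_right _ _).trans_lt (by linarith)⟩
  have m : ∀ x ∈ Icc a b, 0 < δ * (1 + (x - a)) ∧ δ * (1 + (x - a)) ≤ δ * (1 + (b - a)) :=
    fun x hx => ⟨mul_pos hδ (by linarith [hx.1]),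
      mul_le_mul_of_nonneg_left (by linarith [hx.2]) hδ.le⟩
  have := image_le_of_liminf_slope_right_lt_deriv_boundary'
    (f' := fun x => if c < Φ (Z x) ∧ Φ (Z x) < c + ε then 0 else ‖fderiv ℝ Φ (Z x)‖ * B)
    (B := fun u => c + δ * (1 + (u - a))) (B' := fun _ => δ) hc
    (fun x hx r hr => (h.traj1_dini hK hΦ hx (fun κ k => by
      split_ifs with q
      · exact hd x hx q.1 q.2 κ k
      · exact (le_abs_self _).trans (((fderiv ℝ Φ (Z x)).le_opNorm _).trans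
          (mul_le_mul_of_nonneg_left (hB x ⟨hx.1, hx.2.le⟩ κ k) (norm_nonneg _)))) hr).frequently)
    (by simp only [sub_self, add_zero, mul_one]; linarith) (by fun_prop)
    (fun x _ => ((((hasDerivAt_id' x).sub_const a).const_add 1).const_mul δ |>.const_add _
      |>.hasDerivWithinAt).congr_deriv (mul_one δ))
    (fun x hx q => by
      have := m x ⟨hx.1, hx.2.le⟩
      rw [if_pos ⟨by linarith, by linarith⟩]
      exact hδ) ht
  linarith [(m t ht).2]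

/-- barrier lemma -/
theorem IsTraj.barrier {K : E → Set E} {Z : ℝ → E} {a b : ℝ} (h : IsTraj K Z a b)
    (hK : BddK K) {Φ : E → ℝ} (hΦ : Differentiable ℝ Φ) {c : ℝ}
    (hd : ∀ s ∈ Ico a b, c < Φ (Z s) → ∀ κ ∈ K (Z s), fderiv ℝ Φ (Z s) κ ≤ 0)
    (ha : Φ (Z a) ≤ c) : ∀ t ∈ Icc a b, Φ (Z t) ≤ c := 
  h.barrier_win hK hΦ one_pos (fun s hs k _ => hd s hs k) ha

/-- linear version of the rate lemma -/
theorem IsTraj.le_rate_lin {K : E → Set E} {Z : ℝ → E} {a b : ℝ} (h : IsTraj K Z a b)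
    (hK : BddK K) (f : E →L[ℝ] ℝ) {ρ : ℝ} (hd : ∀ s ∈ Ico a b, ∀ κ ∈ K (Z s), f κ ≤ ρ) {s t : ℝ}
    (hs : a ≤ s) (hst : s ≤ t) (ht : t ≤ b) : f (Z t) - f (Z s) ≤ ρ * (t - s) := 
  h.le_rate hK f.differentiable (fun s hs κ k => by rw [f.fderiv]; exact hd s hs κ k) hs hst ht

/-- linear version of the barrier lemma -/
theorem IsTraj.barrier_lin {K : E → Set E} {Z : ℝ → E} {a b : ℝ} (h : IsTraj K Z a b)
    (hK : BddK K) (f : E →L[ℝ] ℝ) {c : ℝ}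
    (hd : ∀ s ∈ Ico a b, c < f (Z s) → ∀ κ ∈ K (Z s), f κ ≤ 0) (ha : f (Z a) ≤ c) :
    ∀ t ∈ Icc a b, f (Z t) ≤ c := 
  h.barrier hK f.differentiable (fun s hs q κ k => by rw [f.fderiv]; exact hd s hs q κ k) ha

theorem IsTraj.lip_of_bound {K : E → Set E} {Z : ℝ → E} {a b B : ℝ} (h : IsTraj K Z a b)
    (hK : BddK K) (hd : ∀ s ∈ Ico a b, ∀ κ ∈ K (Z s), ‖κ‖ ≤ B) {s t : ℝ} (hs : a ≤ s)
    (hst : s ≤ t) (ht : t ≤ b) : ‖Z t - Z s‖ ≤ B * (t - s) := by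
  obtain ⟨g, h1, h2⟩ := exists_dual_vector'' ℝ (Z t - Z s)
  have := h.le_rate_lin hK g (ρ := B) (fun u hu κ k => (le_abs_self _).trans
    ((g.le_opNorm κ).trans ((mul_le_of_le_one_left (norm_nonneg κ) h1).trans (hd u hu κ k))))
    hs hst ht
  rwa [← map_sub, h2] at this

/-- a vector valued linear quantity with zero velocity is constant -/
theorem IsTraj.const_lin {K : E → Set E} {Z : ℝ → E} {a b : ℝ} (h : IsTraj K Z a b)
    (hK : BddK K) (f : E →L[ℝ] G) (hd : ∀ s ∈ Ico a b, ∀ κ ∈ K (Z s), f κ = 0) :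
    ∀ t ∈ Icc a b, f (Z t) = f (Z a) := by
  intro t ht
  obtain ⟨g, h1, h2⟩ := exists_dual_vector'' ℝ (f (Z t) - f (Z a))
  have := h.le_rate_lin hK (g.comp f) (ρ := 0) (fun u hu κ k => by simp [hd u hu κ k])
    le_rfl ht.1 ht.2
  rw [zero_mul, ContinuousLinearMap.comp_apply, ContinuousLinearMap.comp_apply, ← map_sub,
    h2] at this
  exact sub_eq_zero.1 (norm_le_zero_iff.1 this)

/-- a function with quadratically small increments is constant -/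
theorem const_of_sq {f : ℝ → G} {a b C : ℝ}
    (h : ∀ s t, a ≤ s → s ≤ t → t ≤ b → ‖f t - f s‖ ≤ C * (t - s) ^ 2) :
    ∀ t ∈ Icc a b, f t = f a := by
  intro t ht
  have h1 : IsTraj (fun _ : G => ({0} : Set G)) f a b :=
    ⟨C, fun s t hs hst ht => ⟨0, rfl, by simpa using h s t hs hst ht⟩⟩
  have h2 := h1.lip_of_bound (B := 0) (fun _ => ⟨0, fun _ _ κ k => by simp [mem_singleton_iff.1 k]⟩)
    (fun _ _ κ k => by simp [mem_singleton_iff.1 k]) le_rfl ht.1 ht.2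
  rwa [zero_mul, norm_le_zero_iff, sub_eq_zero] at h2

/-- bootstrap along an interval -/
theorem boot {X : Type} [TopologicalSpace X] {Z : ℝ → X} {a b : ℝ} (hZ : ContinuousOn Z (Icc a b))
    {U : Set X} (hU : IsOpen U) (h : ∀ t ∈ Icc a b, (∀ s ∈ Ico a t, Z s ∈ U) → Z t ∈ U) :
    ∀ t ∈ Icc a b, Z t ∈ U := by
  have key : ∀ t ∈ Icc a b, (∀ u, a ≤ u → Z u ∉ U → t ≤ u) → Z t ∈ U := fun t ht k =>
    h t ht fun s hs => by_contra fun q => absurd (k s hs.1 q) (not_le.2 hs.2)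
  have c : IsClosed {t : ℝ | ∀ u, a ≤ u → Z u ∉ U → t ≤ u} := by
    simp only [ofPred_forall]
    exact isClosed_iInter fun u => isClosed_iInter fun _ => isClosed_iInter fun _ => isClosed_Iic
  have := (c.inter isClosed_Icc).Icc_subset_of_forall_mem_nhdsWithin (fun u hu _ => hu)
    (fun x hx => by
      have hx' : x ∈ Icc a b := ⟨hx.2.1, hx.2.2.le⟩
      have m : Z ⁻¹' U ∈ 𝓝[Icc x b] x :=
        (hZ x hx').mono (Icc_subset_Icc_left hx'.1) (hU.mem_nhds (key x hx' hx.1))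
      rw [nhdsWithin_Icc_eq_nhdsGE hx.2.2] at m
      obtain ⟨y, hy, k⟩ := mem_nhdsGE_iff_exists_Ico_subset.1 m
      filter_upwards [Ioc_mem_nhdsGT hy] with z hz u hu q
      exact hz.2.trans (not_lt.1 fun e => q (k ⟨hx.1 u hu q, e⟩)))
  exact fun t ht => key t ht (this ht)

/-- linear projection of a trajectory -/
theorem IsTraj.proj {K : E → Set E} {K' : G → Set G} {Z : ℝ → E} {a b : ℝ} (h : IsTraj K Z a b)
    (π : E →L[ℝ] G) (h0 : (K' (π (Z b))).Nonempty)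
    (hd : ∀ s ∈ Ico a b, ∀ κ ∈ K (Z s), π κ ∈ K' (π (Z s))) :
    IsTraj K' (fun s => π (Z s)) a b := by
  obtain ⟨C, h⟩ := h
  refine ⟨‖π‖ * C, fun s t hs hst ht => ?_⟩
  rcases (hst.trans ht).lt_or_eq with k | k
  · obtain ⟨κ, h1, h2⟩ := h s t hs hst ht
    refine ⟨π κ, hd s ⟨hs, k⟩ κ h1, ?_⟩
    rw [← map_smul, ← map_sub, ← map_sub, mul_assoc]
    exact (π.le_opNorm _).trans (mul_le_mul_of_nonneg_left h2 (norm_nonneg _))
  · obtain ⟨κ, h1⟩ := h0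
    obtain rfl : t = s := le_antisymm (k ▸ ht) hst
    exact ⟨κ, k ▸ h1, by simp⟩

/-- linear projection with a change of the time unit -/
theorem IsTraj.proj_scale {K : E → Set E} {K' : G → Set G} {Z : ℝ → E} {a b θ : ℝ}
    (h : IsTraj K Z a b) (hθ : 0 < θ) (π : E →L[ℝ] G)
    (hd : ∀ s ∈ Icc a b, ∀ κ ∈ K (Z s), θ • π κ ∈ K' (π (Z s))) :
    IsTraj K' (fun s => π (Z (θ * s))) (a / θ) (b / θ) := by
  obtain ⟨C, h⟩ := h
  refine ⟨‖π‖ * C * θ ^ 2, fun s t hs hst ht => ?_⟩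
  have h3 : a ≤ θ * s := by rwa [div_le_iff₀' hθ] at hs
  have h4 : θ * t ≤ b := by rwa [le_div_iff₀' hθ] at ht
  have h5 := mul_le_mul_of_nonneg_left hst hθ.le
  obtain ⟨κ, h1, h2⟩ := h (θ * s) (θ * t) h3 h5 h4
  refine ⟨θ • π κ, hd _ ⟨h3, h5.trans h4⟩ κ h1, ?_⟩
  rw [smul_smul, ← map_smul, ← map_sub, ← map_sub, show (t - s) * θ = θ * t - θ * s by ring,
    show ‖π‖ * C * θ ^ 2 * (t - s) ^ 2 = ‖π‖ * (C * (θ * t - θ * s) ^ 2) by ring]
  exact (π.le_opNorm _).trans (mul_le_mul_of_nonneg_left h2 (norm_nonneg _))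

/-- slowing down by a monotone contraction -/
theorem IsTraj.reparam {K : E → Set E} {Z : ℝ → E} {a b a' b' : ℝ} (h : IsTraj K Z a b)
    (hstar : ∀ z, ∀ κ ∈ K z, ∀ σ : ℝ, 0 ≤ σ → σ ≤ 1 → σ • κ ∈ K z) {φ : ℝ → ℝ}
    (hφ : ∀ s t, a' ≤ s → s ≤ t → t ≤ b' → φ s ≤ φ t ∧ φ t - φ s ≤ t - s)
    (hm : ∀ s ∈ Icc a' b', φ s ∈ Icc a b) : IsTraj K (fun s => Z (φ s)) a' b' := by
  obtain ⟨C, hC, h⟩ := h.traj1_nonneg
  refine ⟨C, fun s t hs hst ht => ?_⟩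
  obtain ⟨p1, p2⟩ := hφ s t hs hst ht
  have p0 := sub_nonneg.2 p1
  have q0 := sub_nonneg.2 hst
  obtain ⟨κ, h1, h2⟩ := h (φ s) (φ t) (hm s ⟨hs, hst.trans ht⟩).1 p1 (hm t ⟨hs.trans hst, ht⟩).2
  refine ⟨((φ t - φ s) / (t - s)) • κ,
    hstar _ κ h1 _ (div_nonneg p0 q0) (div_le_one_of_le₀ p2 q0), ?_⟩
  have e : (t - s) * ((φ t - φ s) / (t - s)) = φ t - φ s := by
    rcases q0.lt_or_eq with k | k
    · exact mul_div_cancel₀ _ k.ne'
    · rw [← k, zero_mul]; linarith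
  rw [smul_smul, e]
  exact h2.trans (mul_le_mul_of_nonneg_left (pow_le_pow_left₀ p0 p2 2) hC)

/-- mean velocity lies in a closed convex set containing all velocities -/
theorem IsTraj.mean_mem {K : E → Set E} {Z : ℝ → E} {a b : ℝ} (h : IsTraj K Z a b) (hK : BddK K)
    (hab : a ≤ b) {D : Set E} (hD : Convex ℝ D) (hc : IsClosed D) (hne : D.Nonempty)
    (hd : ∀ s ∈ Ico a b, K (Z s) ⊆ D) : ∃ d ∈ D, Z b - Z a = (b - a) • d := by
  rcases hab.lt_or_eq with k | rfl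
  · have k' := sub_pos.2 k
    have e : Z b - Z a = (b - a) • (b - a)⁻¹ • (Z b - Z a) := (smul_inv_smul₀ k'.ne' _).symm
    refine ⟨_, by_contra fun q => ?_, e⟩
    obtain ⟨f, u, h1, h2⟩ := geometric_hahn_banach_closed_point hD hc q
    have := h.le_rate_lin hK f (fun s hs κ m => (h1 κ (hd s hs m)).le) le_rfl hab le_rfl
    rw [← map_sub, e, map_smul, smul_eq_mul] at this
    nlinarith
  · obtain ⟨d, hd⟩ := hne
    exact ⟨d, hd, by simp⟩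

/-- the same with the clock given by a decreasing linear functional -/
theorem IsTraj.mean_mem_clock {K : E → Set E} {Z : ℝ → E} {a b : ℝ} (h : IsTraj K Z a b)
    (hK : BddK K) (hab : a ≤ b) (V : E →L[ℝ] ℝ) {D : Set E} (hD : Convex ℝ D) (hc : IsCompact D)
    (hne : D.Nonempty) (hd : ∀ s ∈ Ico a b, ∀ κ ∈ K (Z s), V κ ≤ 0 ∧ ∃ d ∈ D, κ = (-V κ) • d) :
    ∃ d ∈ D, Z b - Z a = (V (Z a) - V (Z b)) • d := by
  by_contra q
  have q' : Z b - Z a ∉ (fun d => (V (Z a) - V (Z b)) • d) '' D := fun ⟨d, h1, h2⟩ =>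
    q ⟨d, h1, h2.symm⟩
  obtain ⟨f, u, h1, h2⟩ := geometric_hahn_banach_closed_point (hD.smul _)
    (hc.image (continuous_const_smul _)).isClosed q'
  obtain ⟨d0, m0, h0⟩ := hc.exists_isMaxOn hne f.continuous.continuousOn
  have := h.le_rate_lin hK (f + f d0 • V) (ρ := 0) (fun s hs κ m => by
    obtain ⟨k1, d, k2, k3⟩ := hd s hs κ m
    have k4 : f κ = -V κ * f d := by rw [← smul_eq_mul, ← map_smul, ← k3]
    have k5 : f d ≤ f d0 := h0 k2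
    simp only [add_apply, smul_apply, smul_eq_mul, k4]
    nlinarith) le_rfl hab le_rfl
  have k := h1 _ ⟨d0, m0, rfl⟩
  simp only [add_apply, smul_apply, smul_eq_mul, map_smul,
    map_sub] at this k h2
  nlinarith

end Pool.Agent.MP703675
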