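import Pool.Agent.Lib.MP_703675_gt.RepA

set_option autoImplicit false

open Set Metric Filter Topology TopologicalSpace

noncomputable section

namespace Pool.Agent.MP703675

/-- the ratio of the two time units is close to one -/
theorem transA_theta {ρ γ γ' tol : ℝ} (h1 : 1 / 2 ≤ ρ) (h2 : ρ ≤ 2) (ht : tol ≤ 1 / 10)
    (hγ : |γ - ρ| ≤ tol) (hγ' : |γ' - ρ⁻¹| ≤ tol) :
    2 / 5 ≤ γ ∧ γ ≤ 21 / 10 ∧ 2 / 5 ≤ γ' ∧ |γ * γ' - 1| ≤ 5 * tol := by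
  have hρ : 0 < ρ := by linarith
  have hi1 : 1 / 2 ≤ ρ⁻¹ := by
    rw [le_inv_comm₀ (by norm_num) hρ]
    norm_num
    exact h2
  have hi2 : ρ⁻¹ ≤ 2 := by
    rw [inv_le_comm₀ hρ (by norm_num)]
    norm_num
    linarith
  have h0 : 0 ≤ tol := le_trans (abs_nonneg _) hγ
  obtain ⟨a1, a2⟩ := abs_le.1 hγ
  obtain ⟨b1, b2⟩ := abs_le.1 hγ'
  refine ⟨by linarith, by linarith, by linarith, ?_⟩
  have e : γ * γ' - 1 = (γ - ρ) * γ' + ρ * (γ' - ρ⁻¹) := by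
    have : ρ * ρ⁻¹ = 1 := mul_inv_cancel₀ hρ.ne'
    linarith [mul_sub ρ γ' ρ⁻¹, sub_mul γ ρ γ']
  have c1 : |(γ - ρ) * γ'| ≤ tol * 3 := by
    rw [abs_mul]
    refine mul_le_mul hγ ?_ (abs_nonneg _) h0
    rw [abs_le]
    constructor <;> linarith
  have c2 : |ρ * (γ' - ρ⁻¹)| ≤ 2 * tol := by
    rw [abs_mul]
    refine mul_le_mul ?_ hγ' (abs_nonneg _) (by norm_num)
    rw [abs_le]
    constructor <;> linarith
  rw [e]
  linarith [abs_add_le ((γ - ρ) * γ') (ρ * (γ' - ρ⁻¹))]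

/-- the two time changes almost cancel -/
theorem transA_time {ρ γ γ' tol w w' t v v' : ℝ} (h1 : 1 / 2 ≤ ρ) (hw' : 0 ≤ w')
    (hw : w = ρ * w') (hγ : |γ - ρ| ≤ tol) (g1 : 2 / 5 ≤ γ) (g2 : γ ≤ 21 / 10) (g3 : 2 / 5 ≤ γ')
    (ht : w ≤ t) (v1 : t ≤ v) (v2 : v - t ≤ tol) (u1 : max (v / γ) w' ≤ v')
    (u2 : v' - max (v / γ) w' ≤ tol) :
    t ≤ γ * γ' * (v' / γ') ∧ γ * γ' * (v' / γ') - t ≤ tol * (4 + 2 * w) := by
  have h0 : 0 ≤ tol := le_trans (abs_nonneg _) hγ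
  have hγ0 : 0 < γ := by linarith
  have hγ0' : 0 < γ' := by linarith
  have e : γ * γ' * (v' / γ') = γ * v' := by field_simp
  have e1 : γ * (v / γ) = v := by field_simp
  have hw2 : w' ≤ 2 * w := by
    have : 1 / 2 * w' ≤ ρ * w' := mul_le_mul_of_nonneg_right h1 hw'
    linarith
  have hw0 : 0 ≤ w := by linarith
  obtain ⟨a1, a2⟩ := abs_le.1 hγ
  rw [e]
  constructor
  · have : γ * (v / γ) ≤ γ * v' :=
      mul_le_mul_of_nonneg_left (le_trans (le_max_left _ _) u1) hγ0.le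
    linarith
  · have k1 : γ * v' ≤ γ * (max (v / γ) w' + tol) :=
      mul_le_mul_of_nonneg_left (by linarith) hγ0.le
    have k2 : γ * tol ≤ 21 / 10 * tol := mul_le_mul_of_nonneg_right g2 h0
    have k3 : (γ - ρ) * w' ≤ tol * (2 * w) := mul_le_mul a2 hw2 hw' h0
    have k5 : 0 ≤ tol * w := mul_nonneg h0 hw0
    have k4 : γ * max (v / γ) w' ≤ t + tol + tol * (2 * w) := by
      rcases le_total (v / γ) w' with hh | hh
      · rw [max_eq_right hh]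
        linarith [sub_mul γ ρ w']
      · rw [max_eq_left hh, e1]
        linarith
    linarith [mul_add γ (max (v / γ) w') tol]

/-- if one of the times is bounded then the times are close -/
theorem transA_near {θ tol w t t2 T0 : ℝ} (ht : tol ≤ 1 / 10) (hθ : |θ - 1| ≤ 5 * tol)
    (hw : 0 ≤ w) (hT0 : 0 ≤ T0) (h2 : 0 ≤ t2) (a1 : t ≤ θ * t2)
    (a2 : θ * t2 - t ≤ tol * (4 + 2 * w)) (hc : t < T0 ∨ t2 < T0) :
    |t - t2| ≤ tol * (9 + 7 * w + 10 * T0) := by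
  obtain ⟨b1, b2⟩ := abs_le.1 hθ
  have h0 : 0 ≤ tol := by linarith [abs_nonneg (θ - 1)]
  have hb : t2 ≤ 2 * T0 + 1 + w := by
    rcases hc with hc | hc
    · have k1 : 1 / 2 * t2 ≤ θ * t2 := mul_le_mul_of_nonneg_right (by linarith) h2
      have k2 : tol * (4 + 2 * w) ≤ 1 / 10 * (4 + 2 * w) :=
        mul_le_mul_of_nonneg_right ht (by linarith)
      linarith
    · linarith
  have k3 : (θ - 1) * t2 ≤ 5 * tol * (2 * T0 + 1 + w) :=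
    mul_le_mul b2 hb h2 (by linarith)
  have k4 : (1 - θ) * t2 ≤ 5 * tol * (2 * T0 + 1 + w) :=
    mul_le_mul (by linarith) hb h2 (by linarith)
  have k5 : 0 ≤ tol * w := mul_nonneg h0 hw
  rw [abs_le]
  constructor <;> nlinarith

/-- the clock estimate -/
theorem transA_clock {θ tol d G η μ t t2 x x2 y : ℝ} (ht : tol ≤ 1 / 10)
    (hθ : |θ - 1| ≤ 5 * tol) (a1 : t ≤ θ * t2) (a2 : θ * t2 - t ≤ η) (g0 : 0 ≤ x2 - t2)
    (g1 : x2 - t2 ≤ G) (g2 : |(x2 - t2) - (x - t)| ≤ μ) (hy : 2 * |y - x2| ≤ d / 4) :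
    |θ * y - x| ≤ d / 4 + η + 5 * tol * G + μ := by
  obtain ⟨b1, b2⟩ := abs_le.1 hθ
  have h0 : 0 ≤ tol := by linarith [abs_nonneg (θ - 1)]
  have k1 : |θ * (y - x2)| ≤ 2 * |y - x2| := by
    rw [abs_mul]
    refine mul_le_mul_of_nonneg_right ?_ (abs_nonneg _)
    rw [abs_le]
    constructor <;> linarith
  have k2 : |(θ - 1) * (x2 - t2)| ≤ 5 * tol * G := by
    rw [abs_mul, abs_of_nonneg g0]
    exact mul_le_mul hθ g1 g0 (by linarith)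
  have e : θ * y - x = θ * (y - x2) + (θ * t2 - t) + (θ - 1) * (x2 - t2) +
      ((x2 - t2) - (x - t)) := by ring
  obtain ⟨c1, c2⟩ := abs_le.1 (le_trans k1 hy)
  obtain ⟨c3, c4⟩ := abs_le.1 k2
  obtain ⟨c5, c6⟩ := abs_le.1 g2
  rw [e, abs_le]
  constructor <;> linarith

/-- the time of the matching point -/
theorem transA_match {ρ γ ε w w' t' v : ℝ} (hw' : 0 ≤ w') (hw : w = ρ * w') (hγ : |γ - ρ| ≤ ε)
    (g1 : 2 / 5 ≤ γ) (ht : w' ≤ t') (v1 : max w (γ * t') ≤ v) (v2 : v - max w (γ * t') ≤ ε) :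
    |v / γ - t'| ≤ 5 / 2 * (1 + w') * ε := by
  have h0 : 0 ≤ ε := le_trans (abs_nonneg _) hγ
  have hγ0 : 0 < γ := by linarith
  obtain ⟨a1, a2⟩ := abs_le.1 hγ
  have e : v / γ - t' = (v - γ * t') / γ := by field_simp
  have k0 : 0 ≤ v - γ * t' := by linarith [le_max_right w (γ * t')]
  have k5 : 0 ≤ ε * w' := mul_nonneg h0 hw'
  have k1 : v - γ * t' ≤ (1 + w') * ε := by
    rcases le_total w (γ * t') with hh | hh
    · rw [max_eq_right hh] at v2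
      linarith
    · rw [max_eq_left hh] at v2
      have k2 : γ * w' ≤ γ * t' := mul_le_mul_of_nonneg_left ht hγ0.le
      have k3 : (ρ - γ) * w' ≤ ε * w' := mul_le_mul_of_nonneg_right (by linarith) hw'
      linarith [sub_mul ρ γ w']
  rw [e, abs_of_nonneg (div_nonneg k0 hγ0.le), div_le_iff₀ hγ0]
  have k4 : 0 ≤ (1 + w') * ε := mul_nonneg (by linarith) h0
  have k6 : (1 + w') * ε * (2 / 5) ≤ (1 + w') * ε * γ := mul_le_mul_of_nonneg_left g1 k4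
  linarith

namespace World

variable (Wd : World)

/-- the lock property of a coupling between two families -/
def Locked (m k : ℕ) (γ : ℝ) (ψ : (Wd.W k).E →L[ℝ] (Wd.W m).E) (w : ℝ)
    (P P' : ∀ n, ℝ → (Wd.W n).E) : Prop :=
  ∀ t, w ≤ t → ‖ψ (P k t) - P' m ((Wd.W k).V (P k t) / γ)‖ ≤ Wd.e m

theorem transA_tail {w : ℝ} {P : ∀ n, ℝ → (Wd.W n).E} (h : Wd.Fam w P) {δ : ℝ} (hδ : 0 < δ) :
    ∃ i1 : ℕ, ∀ i, i1 ≤ i → (Wd.W i).V (P i w) - w ≤ δ := by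
  have h1 : ∀ᶠ n in atTop, (Wd.W n).V (P n w) < w + δ :=
    h.tail.eventually (gt_mem_nhds (by linarith))
  obtain ⟨i1, hi⟩ := eventually_atTop.1 h1
  exact ⟨i1, fun i hi' => by linarith [hi i hi']⟩

theorem transA_adm {w : ℝ} {P : ∀ n, ℝ → (Wd.W n).E} (h : Wd.Fam w P) (n : ℕ) {t : ℝ}
    (ht : w ≤ t) : ∃ T : ℝ, t ≤ T ∧ w ≤ T ∧ 3 * (Wd.W n).H ≤ T ∧
      (Wd.W n).Adm (fun s => P n (-s)) (-T) (-w) :=
  ⟨max t (3 * (Wd.W n).H), le_max_left _ _, le_trans ht (le_max_left _ _), le_max_right _ _,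
    Sys.TPath.adm (Wd.good n) (h.path n) (le_trans ht (le_max_left _ _)) (le_max_right _ _)⟩

theorem transA_burn {w : ℝ} {P : ∀ n, ℝ → (Wd.W n).E} (h : Wd.Fam w P) {δ : ℝ} {i : ℕ}
    (hi : (Wd.W i).V (P i w) - w ≤ δ) {T : ℝ} : ∀ s ∈ Icc (-T) (-w),
      (Wd.W i).V (Wd.pr i (i + 1) (P (i + 1) (-s))) - (Wd.W (i + 1)).V (P (i + 1) (-s)) ≤ δ := by
  intro s hs
  have hw : w ≤ -s := by linarith [hs.2]
  rw [h.compat i (i + 1) (Nat.le_succ i)]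
  linarith [(h.burn i hw).2, (h.burn (i + 1) hw).1]

/-- first stage, from `Wd.off` -/
theorem stage_off {w w' : ℝ} {P P' : ∀ n, ℝ → (Wd.W n).E} (h : Wd.Fam w P) (h' : Wd.Fam w' P')
    (m : ℕ) (γ : ℚ) (h1 : 1 / 3 ≤ (γ : ℝ)) (h2 : (γ : ℝ) ≤ 3) (i0 : ℕ) :
    ∃ k, i0 ≤ k ∧ ∃ ψ : (Wd.W k).E →L[ℝ] (Wd.W m).E, Wd.Cpl m k γ ψ ∧
      Wd.Locked m k γ ψ w P P' := by
  obtain ⟨δ, hδ, hoff⟩ := Wd.off m γ h1 h2 w' (P' m) (h'.path m)
  obtain ⟨i1, hi1⟩ := Wd.transA_tail h hδ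
  obtain ⟨i, hi, -, ψ, hC, hψ⟩ := hoff (max i0 i1)
  refine ⟨i + 1, le_trans (le_trans (le_max_left _ _) hi) (Nat.le_succ i), ψ, hC, ?_⟩
  intro t ht
  obtain ⟨T, hT, -, -, hA⟩ := Wd.transA_adm h (i + 1) ht
  have := hψ _ _ _ hA (Wd.transA_burn h (hi1 i (le_trans (le_max_right _ _) hi))) (-t)
    ⟨by linarith, by linarith⟩
  simpa only [neg_neg] using this

/-- comparison of two points of one true time path -/
theorem transA_cmp {S : Sys} (hS : S.Good) {w : ℝ} {P : ℝ → S.E} (hP : S.TPath w P) {d : ℝ}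
    (hd : 0 < d) : ∃ T0 B : ℝ, 0 ≤ T0 ∧ 0 ≤ B ∧
      (∀ t t2, T0 ≤ t → T0 ≤ t2 → S.J (P t) = S.J (P t2) ∧
        |(S.V (P t2) - t2) - (S.V (P t) - t)| ≤ d) ∧
      ∀ t t2, ‖S.J (P t) - S.J (P t2)‖ ≤ B * |t - t2| ∧
        |(S.V (P t2) - t2) - (S.V (P t) - t)| ≤ 2 * |t - t2| := by
  obtain ⟨B, hB, hlip⟩ := hS.tpath_lip
  have h1 : ∀ᶠ t in atTop, S.V (P t) - t < d := hP.tends.eventually (gt_mem_nhds hd)
  obtain ⟨T1, hT1⟩ := eventually_atTop.1 h1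
  refine ⟨max T1 (max w (3 * S.H)), ‖S.J‖ * B,
    le_trans hP.nonneg (le_trans (le_max_left _ _) (le_max_right _ _)), by positivity, ?_, ?_⟩
  · intro t t2 ht ht2
    simp only [max_le_iff] at ht ht2
    constructor
    · rw [hP.far t ht.2.1 ht.2.2, hP.far t2 ht2.2.1 ht2.2.2, hS.J_far, hS.J_far]
    · rw [abs_le]
      constructor <;>
        linarith [hT1 t ht.1, hT1 t2 ht2.1, hP.le_V t ht.2.1, hP.le_V t2 ht2.2.1]
  · intro t t2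
    constructor
    · rw [← map_sub, mul_assoc]
      exact le_trans (S.J.le_opNorm _)
        (mul_le_mul_of_nonneg_left (hlip w P hP t t2) (norm_nonneg _))
    · obtain ⟨a1, a2⟩ := abs_le.1 (Sys.TPath.V_lip hS hP t t2)
      rw [abs_le]
      constructor <;> linarith [le_abs_self (t - t2), neg_abs_le (t - t2)]

theorem transA_gap {w : ℝ} {P : ∀ n, ℝ → (Wd.W n).E} (h : Wd.Fam w P) (m : ℕ) {t : ℝ}
    (ht : 0 ≤ t) : 0 ≤ (Wd.W m).V (P m t) - t ∧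
      (Wd.W m).V (P m t) - t ≤ (Wd.W m).V (P m w) := by
  have hw := (h.path m).nonneg
  rcases le_total w t with hh | hh
  · constructor <;> linarith [(h.burn m hh).1, (h.burn m hh).2]
  · rw [(h.path m).const t hh]
    constructor <;> linarith [(h.burn m (le_refl w)).1]

/-- Deviation estimate.  Plan: with `t1 = max (V (P n t) / γ) w'`, `t2 = V (P' k t1) / γ'` the lock
gives `φ (P' k t1)` close to `P m t2`; compare `P m t2` with `P m t`: the `J` parts agree when both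
times exceed `3 H`, otherwise use the Lipschitz bound; for the clock use that
`V (P m t) - t` is bounded, Lipschitz and tends to zero. -/
theorem dev_est {w ρ : ℝ} {P : ∀ n, ℝ → (Wd.W n).E} (h : Wd.Fam w P) (h1 : 1 / 2 ≤ ρ) (h2 : ρ ≤ 2)
    (m : ℕ) : ∃ tol : ℝ, 0 < tol ∧ tol ≤ 1 / 10 ∧ ∀ (w' : ℝ) (P' : ∀ n, ℝ → (Wd.W n).E)
      (k n : ℕ) (γ γ' : ℝ) (φ : (Wd.W k).E →L[ℝ] (Wd.W m).E), Wd.Fam w' P' → w = ρ * w' →
      m ≤ n → |γ - ρ| ≤ tol → |γ' - ρ⁻¹| ≤ tol → (Wd.W k).V (P' k w') - w' ≤ tol →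
      (Wd.W n).V (P n w) - w ≤ tol → Wd.Locked m k γ' φ w' P' P →
      |γ * γ' - 1| ≤ Wd.d m ∧ ∀ t, w ≤ t →
        (Wd.W m).Dev (γ * γ') (P m t) (φ (P' k ((Wd.W n).V (P n t) / γ))) (Wd.d m) := by
  have hd := Wd.d_pos m
  have hw0 : 0 ≤ w := (h.path m).nonneg
  obtain ⟨T0, B, hT0, hB, hfar, hnear⟩ := transA_cmp (Wd.good m) (h.path m) (d := Wd.d m / 4)
    (by linarith)
  obtain ⟨G, hG⟩ : ∃ G, G = (Wd.W m).V (P m w) := ⟨_, rfl⟩
  have hG0 : 0 ≤ G := by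
    rw [hG]
    linarith [(h.burn m (le_refl w)).1]
  obtain ⟨M, hM⟩ : ∃ M, M = 9 + 7 * w + 10 * T0 := ⟨_, rfl⟩
  have hM0 : 0 ≤ M := by linarith
  have hBM : 0 ≤ B * M := mul_nonneg hB hM0
  obtain ⟨A, hA⟩ : ∃ A, A = 5 + (4 + 2 * w) + 5 * G + 2 * M + B * M := ⟨_, rfl⟩
  have hA0 : 0 < A := by linarith
  obtain ⟨tol, ht0, ht1, ht2⟩ : ∃ tol : ℝ, 0 < tol ∧ tol ≤ 1 / 10 ∧ tol * A ≤ Wd.d m / 4 := by
    refine ⟨min (1 / 10) (Wd.d m / 4 / A), lt_min (by norm_num) (by positivity),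
      min_le_left _ _, ?_⟩
    exact (le_div_iff₀ hA0).1 (min_le_right _ _)
  have p1 : 0 ≤ tol * (4 + 2 * w) := by positivity
  have p2 : 0 ≤ tol * G := by positivity
  have p3 : 0 ≤ tol * M := by positivity
  have p4 : 0 ≤ tol * (B * M) := by positivity
  have p5 : tol * 5 + tol * (4 + 2 * w) + 5 * (tol * G) + 2 * (tol * M) + tol * (B * M) ≤
      Wd.d m / 4 := by
    rw [hA] at ht2
    linarith
  refine ⟨tol, ht0, ht1, ?_⟩
  intro w' P' k n γ γ' φ h' hw hmn hγ hγ' hk hn hL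
  obtain ⟨g1, g2, g3, hθ⟩ := transA_theta h1 h2 ht1 hγ hγ'
  refine ⟨by linarith, ?_⟩
  intro t ht
  have hw' : 0 ≤ w' := (h'.path k).nonneg
  obtain ⟨τ, hτ⟩ : ∃ τ, τ = (Wd.W n).V (P n t) / γ := ⟨_, rfl⟩
  have e1 : P' k τ = P' k (max τ w') := by
    rcases le_total τ w' with hh | hh
    · rw [max_eq_right hh, (h'.path k).const τ hh]
    · rw [max_eq_left hh]
  have hb := h.burn n ht
  have hb' := h'.burn k (le_max_right τ w')
  have hl := hL _ (le_max_right τ w')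
  obtain ⟨s1, s2⟩ := Wd.e_small m _ hl
  rw [← hτ, e1]
  obtain ⟨v', hv'⟩ : ∃ v', v' = (Wd.W k).V (P' k (max τ w')) := ⟨_, rfl⟩
  rw [← hv'] at hb' s1 s2
  obtain ⟨z, hz⟩ : ∃ z, z = φ (P' k (max τ w')) := ⟨_, rfl⟩
  rw [← hz] at s1 s2 ⊢
  obtain ⟨a1, a2⟩ := transA_time (v := (Wd.W n).V (P n t)) (v' := v') h1 hw' hw hγ g1 g2 g3 ht hb.1
    (by linarith [hb.2]) (by rw [← hτ]; exact hb'.1) (by rw [← hτ]; linarith [hb'.2])
  have h20 : 0 ≤ v' / γ' :=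
    div_nonneg (le_trans (le_trans hw' (le_max_right τ w')) hb'.1) (by linarith)
  obtain ⟨t2, ht2'⟩ : ∃ t2, t2 = v' / γ' := ⟨_, rfl⟩
  rw [← ht2'] at a1 a2 h20 s1 s2
  rw [map_sub] at s1 s2
  obtain ⟨q0, q1⟩ := Wd.transA_gap h m h20
  rw [← hG] at q1
  have key : ‖(Wd.W m).J (P m t) - (Wd.W m).J (P m t2)‖ ≤ tol * (B * M) ∧
      |((Wd.W m).V (P m t2) - t2) - ((Wd.W m).V (P m t) - t)| ≤ Wd.d m / 4 + 2 * (tol * M) := by
    by_cases hc : t < T0 ∨ t2 < T0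
    · have hn := transA_near ht1 hθ hw0 hT0 h20 a1 a2 hc
      rw [← hM] at hn
      obtain ⟨c1, c2⟩ := hnear t t2
      have c3 : B * |t - t2| ≤ B * (tol * M) := mul_le_mul_of_nonneg_left hn hB
      constructor <;> linarith
    · rw [not_or, not_lt, not_lt] at hc
      obtain ⟨c1, c2⟩ := hfar t t2 hc.1 hc.2
      rw [c1, sub_self, norm_zero]
      constructor <;> linarith
  constructor
  · have := norm_sub_le_norm_sub_add_norm_sub ((Wd.W m).J (P m t)) ((Wd.W m).J (P m t2))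
      ((Wd.W m).J z)
    rw [norm_sub_rev] at s1
    linarith [key.1]
  · have := transA_clock ht1 hθ a1 a2 q0 q1 key.2 s2
    linarith

/-- next stage, from `Wd.on` and `dev_est` -/
theorem stage_on {w ρ : ℝ} {P : ∀ n, ℝ → (Wd.W n).E} (h : Wd.Fam w P) (h1 : 1 / 2 ≤ ρ) (h2 : ρ ≤ 2)
    (m : ℕ) : ∃ tol : ℝ, 0 < tol ∧ tol ≤ 1 / 10 ∧ ∀ (w' : ℝ) (P' : ∀ n, ℝ → (Wd.W n).E)
      (k : ℕ) (γ : ℚ) (γ' : ℝ) (φ : (Wd.W k).E →L[ℝ] (Wd.W m).E), Wd.Fam w' P' → w = ρ * w' →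
      |(γ : ℝ) - ρ| ≤ tol → |γ' - ρ⁻¹| ≤ tol → (Wd.W k).V (P' k w') - w' ≤ tol →
      Wd.Cpl m k γ' φ → Wd.Locked m k γ' φ w' P' P → ∀ i0, ∃ n, i0 ≤ n ∧
        ∃ ψ : (Wd.W n).E →L[ℝ] (Wd.W k).E, Wd.Cpl k n γ ψ ∧ Wd.Locked k n γ ψ w P P' ∧
          ∀ Z a b, (Wd.W n).Adm Z a b → ∀ s ∈ Icc a b,
            (Wd.W m).Close ((1 / 2) ^ m) (Wd.pr m n (Z s)) (φ (ψ (Z s))) := by
  obtain ⟨tol, ht0, ht1, hdev⟩ := Wd.dev_est h h1 h2 m
  refine ⟨tol, ht0, ht1, ?_⟩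
  intro w' P' k γ γ' φ h' hw hγ hγ' hk hC hL i0
  obtain ⟨g1, g2, -, -⟩ := transA_theta h1 h2 ht1 hγ hγ'
  obtain ⟨i2, hi2⟩ := Wd.transA_tail h ht0
  have hθ := (hdev w' P' k (max m i2) γ γ' φ h' hw (le_max_left _ _) hγ hγ' hk
    (hi2 _ (le_max_right _ _)) hL).1
  obtain ⟨δ, hδ, hon⟩ := Wd.on m k γ' φ hC γ (by linarith) (by linarith) hθ w' (P' k) (h'.path k)
  obtain ⟨i1, hi1⟩ := Wd.transA_tail h hδ
  obtain ⟨i, hi, hki, ψ, hC', hcl, hψ⟩ := hon (max i0 (max i1 i2))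
  simp only [max_le_iff] at hi
  have hmi : m ≤ i + 1 := by
    have := (Wd.cpl_mor m k γ' φ hC).1
    omega
  refine ⟨i + 1, le_trans hi.1 (Nat.le_succ i), ψ, hC', ?_, hcl⟩
  intro t ht
  obtain ⟨T, hT, -, -, hA⟩ := Wd.transA_adm h (i + 1) ht
  have hD := (hdev w' P' k (i + 1) γ γ' φ h' hw hmi hγ hγ' hk
    (hi2 _ (le_trans hi.2.2 (Nat.le_succ i))) hL).2
  have := hψ _ _ _ hA (Wd.transA_burn h (hi1 i hi.2.1)) (fun s hs => by
    rw [h.compat m (i + 1) hmi]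
    exact hD (-s) (by linarith [hs.2])) (-t) ⟨by linarith, by linarith⟩
  simpa only [neg_neg] using this

/-- a locked coupling maps the point close to the target point -/
theorem locked_close {w' ρ : ℝ} {P' : ∀ n, ℝ → (Wd.W n).E} {y : Wd.X} (hy : Wd.Rep y w' P')
    (h1 : 1 / 2 ≤ ρ) (h2 : ρ ≤ 2) (j : ℕ) : ∃ C : ℝ, 0 < C ∧ ∀ (w : ℝ) (P : ∀ n, ℝ → (Wd.W n).E)
      (x : Wd.X) (m k : ℕ) (γ ε : ℝ) (ψ : (Wd.W k).E →L[ℝ] (Wd.W m).E), Wd.Rep x w P →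
      w = ρ * w' → j ≤ m → Mor (Wd.W m) γ (Wd.W k) ψ → Wd.Locked m k γ ψ w P P' → ε ≤ 1 / 10 →
      |γ - ρ| ≤ ε → (Wd.W k).V (P k w) - w ≤ ε →
      dist (push (Wd.W j) (Wd.W k) ((Wd.pr j m).comp ψ) (x.1 k)) (y.1 j) ≤
        C * (ε + (1 / 2) ^ m) := by
  obtain ⟨C1, hC1, hQ⟩ := (Wd.good j).Q_lip
  obtain ⟨C2, hC2, hD⟩ := trk_dist (Wd.good j)
  have hw' : 0 ≤ w' := (hy.1.path j).nonneg
  obtain ⟨C3, hC3⟩ : ∃ C3, C3 = C2 * (5 / 2 * (1 + w')) := ⟨_, rfl⟩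
  have hC30 : 0 < C3 := by rw [hC3]; positivity
  refine ⟨C1 + C3, by linarith, ?_⟩
  intro w P x m k γ ε ψ hx hw hjm hM hL hε hγ hk
  have h0 : 0 ≤ ε := le_trans (abs_nonneg _) hγ
  have g1 : 2 / 5 ≤ γ := by linarith [(abs_le.1 hγ).1]
  have hMor := Mor.comp (Wd.mor j m hjm) hM
  have hp0 : (0 : ℝ) ≤ (1 / 2) ^ m := by positivity
  have hp1 : ((1 : ℝ) / 2) ^ m ≤ 1 := pow_le_one₀ (by norm_num) (by norm_num)
  have hspec : ∀ t, w ≤ t → ∃ T, t ≤ T ∧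
      (push (Wd.W j) (Wd.W k) ((Wd.pr j m).comp ψ) (x.1 k) : Set (ℝ × (Wd.W j).E)) =
        (Wd.W j).trk (fun s => ((Wd.pr j m).comp ψ) (P k (-s))) (Icc (-T) (-w)) := by
    intro t ht
    obtain ⟨T, hT, hwT, hHT, hA⟩ := Wd.transA_adm hx.1 k ht
    refine ⟨T, hT, push_spec (Wd.good j) (Wd.good k) hMor hA ?_⟩
    rw [hx.2 k, trk_Ici (Wd.good k) (hx.1.path k) hwT hHT]
  have hclose : ∀ t, w ≤ t → dist ((Wd.W j).Q (((Wd.pr j m).comp ψ) (P k t)))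
      ((Wd.W j).Q (P' j ((Wd.W k).V (P k t) / γ))) ≤ C1 * (1 / 2) ^ m := by
    intro t ht
    obtain ⟨T, hT, hwT, hHT, hA⟩ := Wd.transA_adm hx.1 k ht
    have hθ := hMor.pos
    have hmem : ((Wd.pr j m).comp ψ) (P k t) ∈ (Wd.W j).Om := by
      have := (Wd.good j).inv _ _ _ (hMor.adm hA) (-t / (γ * 1))
        ⟨div_le_div_of_nonneg_right (by linarith) hθ.le,
          div_le_div_of_nonneg_right (by linarith) hθ.le⟩
      have e : -(γ * 1 * (-t / (γ * 1))) = t := by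
        rw [mul_div_cancel₀ _ hθ.ne', neg_neg]
      simpa only [e] using this
    have hn : ‖((Wd.pr j m).comp ψ) (P k t) - P' j ((Wd.W k).V (P k t) / γ)‖ ≤ (1 / 2) ^ m := by
      rw [← hy.1.compat j m hjm, ContinuousLinearMap.comp_apply, ← map_sub]
      exact le_trans ((Wd.mor j m hjm).norm_le _) (le_trans (hL t ht) (Wd.e_le m))
    exact le_trans (hQ _ hmem _ (Sys.TPath.mem (Wd.good j) (hy.1.path j) _) (le_trans hn hp1))
      (mul_le_mul_of_nonneg_left hn hC1.le)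
  have p1 : 0 ≤ C1 * ε := by positivity
  have p2 : 0 ≤ C3 * ε := by positivity
  have p3 : 0 ≤ C3 * (1 / 2) ^ m := by positivity
  have p4 : 0 ≤ C1 * (1 / 2) ^ m := by positivity
  have e0 : (C1 + C3) * (ε + (1 / 2) ^ m) =
      C1 * ε + C3 * ε + C3 * (1 / 2) ^ m + C1 * (1 / 2) ^ m := by ring
  rw [NonemptyCompacts.dist_eq]
  refine hausdorffDist_le_of_mem_dist (by positivity) ?_ ?_
  · intro q hq
    obtain ⟨T, -, hT⟩ := hspec w le_rfl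
    rw [hT] at hq
    obtain ⟨s, hs, rfl⟩ := hq
    have hws : w ≤ -s := by linarith [hs.2]
    refine ⟨(Wd.W j).Q (P' j ((Wd.W k).V (P k (-s)) / γ)), ?_, ?_⟩
    · rw [hy.2 j]
      rcases le_total w' ((Wd.W k).V (P k (-s)) / γ) with hh | hh
      · exact ⟨_, hh, rfl⟩
      · exact ⟨w', le_refl w', by rw [(hy.1.path j).const _ hh]⟩
    · linarith [hclose (-s) hws]
  · intro q hq
    rw [hy.2 j] at hq
    obtain ⟨t', ht', rfl⟩ := hq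
    have hwt : w ≤ max w (γ * t') := le_max_left _ _
    obtain ⟨T, hT, hE⟩ := hspec _ hwt
    have hb := hx.1.burn k hwt
    have hmt := transA_match hw' hw hγ g1 ht' hb.1 (by linarith [hb.2])
    have hc := hclose _ hwt
    obtain ⟨t, ht⟩ : ∃ t, t = max w (γ * t') := ⟨_, rfl⟩
    rw [← ht] at hwt hT hmt hc
    refine ⟨(Wd.W j).Q (((Wd.pr j m).comp ψ) (P k t)), ?_, ?_⟩
    · rw [hE]
      exact ⟨-t, ⟨by linarith, by linarith⟩, by simp only [neg_neg]⟩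
    · have d1 := (hD w' (P' j) (hy.1.path j)).1 ((Wd.W k).V (P k t) / γ) t'
      have d2 : C2 * |(Wd.W k).V (P k t) / γ - t'| ≤ C3 * ε := by
        rw [hC3, mul_assoc C2]
        exact mul_le_mul_of_nonneg_left hmt hC2.le
      have d3 := dist_triangle ((Wd.W j).Q (((Wd.pr j m).comp ψ) (P k t)))
        ((Wd.W j).Q (P' j ((Wd.W k).V (P k t) / γ))) ((Wd.W j).Q (P' j t'))
      rw [dist_comm]
      linarith

end World

end Pool.Agent.MP703675
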