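import Pool.Agent.Lib.MP_703675_gt.Defs

set_option autoImplicit false

open Set Metric Filter Topology TopologicalSpace

noncomputable section

namespace Pool.Agent.MP703675

variable {X : Type} [MetricSpace X] [CompactSpace X] {le : X → X → Prop} {p : X} {U : X → ℝ}

/-- the smallest continuum containing two points -/
def arcSet (a b : X) : Set X := {z : X | ∀ C : Set X, IsClosed C → IsConnected C → a ∈ C → b ∈ C → z ∈ C}

theorem TreeData.lower_closed (h : TreeData X le p U) (x : X) : IsClosed {y | le y x} :=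
  h.closed.preimage (f := fun y => (y, x)) (by fun_prop)

theorem TreeData.treeA_upper_closed (h : TreeData X le p U) (x : X) : IsClosed {y | le x y} :=
  h.closed.preimage (f := fun y => (x, y)) (by fun_prop)

theorem TreeData.treeA_U_le (h : TreeData X le p U) {x y : X} (hxy : le x y) : U x ≤ U y := by
  by_cases hE : x = y
  · rw [hE]
  · exact (h.U_mono x y hxy hE).le

theorem TreeData.treeA_le_of_U (h : TreeData X le p U) {x y z : X} (hy : le y x) (hz : le z x)
    (hU : U y ≤ U z) : le y z := by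
  rcases h.chain x y z hy hz with h1 | h1
  · exact h1
  · by_cases hE : z = y
    · rw [hE]; exact h.refl y
    · exact absurd (h.U_mono z y h1 hE) (not_lt.mpr hU)

theorem TreeData.treeA_inj (h : TreeData X le p U) {x y z : X} (hy : le y x) (hz : le z x)
    (hU : U y = U z) : y = z :=
  h.antisymm y z (h.treeA_le_of_U hy hz hU.le) (h.treeA_le_of_U hz hy hU.ge)

theorem TreeData.treeA_surj (h : TreeData X le p U) (x : X) {t : ℝ} (ht : t ∈ Icc (U p) (U x)) :
    ∃ y, le y x ∧ U y = t := by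
  obtain ⟨y, hy, hyt⟩ := (h.conn x).intermediate_value (a := p) (b := x) (h.root x) (h.refl x)
    h.U_cont.continuousOn ht
  exact ⟨y, hy, hyt⟩

/-- `U` parametrises the lower set of `x` -/
theorem TreeData.exists_param (h : TreeData X le p U) (x : X) : ∃ γ : ℝ → X,
    ContinuousOn γ (Icc (U p) (U x)) ∧ (∀ t ∈ Icc (U p) (U x), le (γ t) x ∧ U (γ t) = t) ∧
      ∀ y, le y x → U y ∈ Icc (U p) (U x) ∧ γ (U y) = y := by
  classical
  have hex : ∀ t : ℝ, ∃ y, t ∈ Icc (U p) (U x) → le y x ∧ U y = t := by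
    intro t
    by_cases ht : t ∈ Icc (U p) (U x)
    · obtain ⟨y, hy⟩ := h.treeA_surj x ht
      exact ⟨y, fun _ => hy⟩
    · exact ⟨p, fun h' => absurd h' ht⟩
  choose γ hγ using hex
  have h3 : ∀ y, le y x → U y ∈ Icc (U p) (U x) ∧ γ (U y) = y := by
    intro y hy
    have hm : U y ∈ Icc (U p) (U x) := ⟨h.treeA_U_le (h.root y), h.treeA_U_le hy⟩
    exact ⟨hm, h.treeA_inj (hγ _ hm).1 hy (hγ _ hm).2⟩
  refine ⟨γ, ?_, hγ, h3⟩
  rw [continuousOn_iff_isClosed]
  intro C hC
  refine ⟨U '' (C ∩ {y | le y x}),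
    ((hC.inter (h.lower_closed x)).isCompact.image h.U_cont).isClosed, ?_⟩
  ext t
  constructor
  · rintro ⟨h1, h2⟩
    exact ⟨⟨γ t, ⟨h1, (hγ t h2).1⟩, (hγ t h2).2⟩, h2⟩
  · rintro ⟨⟨y, ⟨hy1, hy2⟩, rfl⟩, h2⟩
    refine ⟨?_, h2⟩
    show γ (U y) ∈ C
    rw [(h3 y hy2).2]
    exact hy1

theorem TreeData.le_of_U (h : TreeData X le p U) {x y z : X} (hy : le y x) (hz : le z x)
    (hU : U y ≤ U z) : le y z := h.treeA_le_of_U hy hz hU

theorem TreeData.interval_connected (h : TreeData X le p U) {a b : X} (hab : le a b) :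
    IsClosed {z | le a z ∧ le z b} ∧ IsConnected {z | le a z ∧ le z b} := by
  refine ⟨(h.treeA_upper_closed a).inter (h.lower_closed b), ?_⟩
  obtain ⟨γ, h1, h2, h3⟩ := h.exists_param b
  have hsub : Icc (U a) (U b) ⊆ Icc (U p) (U b) :=
    Icc_subset_Icc_left (h.treeA_U_le (h.root a))
  have hE : {z | le a z ∧ le z b} = γ '' Icc (U a) (U b) := by
    ext z
    constructor
    · rintro ⟨hz1, hz2⟩
      exact ⟨U z, ⟨h.treeA_U_le hz1, h.treeA_U_le hz2⟩, (h3 z hz2).2⟩
    · rintro ⟨t, ht, rfl⟩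
      have h4 := h2 t (hsub ht)
      exact ⟨h.le_of_U hab h4.1 (by rw [h4.2]; exact ht.1), h4.1⟩
  rw [hE]
  exact (isConnected_Icc (h.treeA_U_le hab)).image γ (h1.mono hsub)

/-- a component that misses a closed set is separated from it by a clopen set -/
theorem treeA_clopen {Y : Type} [TopologicalSpace Y] [CompactSpace Y] [T2Space Y] (y : Y)
    {F : Set Y} (hF : IsClosed F) (hd : ∀ w ∈ connectedComponent y, w ∉ F) :
    ∃ W : Set Y, IsClopen W ∧ y ∈ W ∧ ∀ w ∈ W, w ∉ F := by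
  have hE : F ∩ ⋂ s : {s : Set Y // IsClopen s ∧ y ∈ s}, (s : Set Y) = ∅ := by
    rw [← connectedComponent_eq_iInter_isClopen]
    ext w
    exact ⟨fun hw => hd w hw.2 hw.1, fun hw => hw.elim⟩
  obtain ⟨u, hu⟩ := hF.isCompact.elim_finite_subfamily_closed
    (fun s : {s : Set Y // IsClopen s ∧ y ∈ s} => (s : Set Y)) (fun s => s.2.1.isClosed) hE
  refine ⟨⋂ s ∈ u, (s : Set Y), isClopen_biInter_finset (fun s _ => s.2.1), ?_, ?_⟩
  · exact mem_iInter₂.mpr fun s _ => s.2.2
  · intro w hw hwF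
    have : w ∈ F ∩ ⋂ s ∈ u, (s : Set Y) := ⟨hwF, hw⟩
    rw [hu] at this
    exact this

/-- boundary bumping -/
theorem treeA_bump {U : X → ℝ} (hU : Continuous U) {C : Set X} (h1 : IsClosed C)
    (h2 : IsPreconnected C) {m v : X} {t : ℝ} (hm : m ∈ C) (hv : v ∈ C) (hmt : U m < t)
    (hvt : t ≤ U v) : ∃ K : Set X, IsClosed K ∧ IsConnected K ∧ v ∈ K ∧ K ⊆ C ∧
      (∀ w ∈ K, t ≤ U w) ∧ ∃ w ∈ K, U w ≤ t := by
  have hD : IsClosed (C ∩ {w | t ≤ U w}) := h1.inter (isClosed_le continuous_const hU)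
  have : CompactSpace (C ∩ {w | t ≤ U w} : Set X) := isCompact_iff_compactSpace.mp hD.isCompact
  let y : (C ∩ {w | t ≤ U w} : Set X) := ⟨v, hv, hvt⟩
  refine ⟨Subtype.val '' connectedComponent y,
    (isClosed_connectedComponent.isCompact.image continuous_subtype_val).isClosed,
    isConnected_connectedComponent.image _ continuous_subtype_val.continuousOn,
    ⟨y, mem_connectedComponent, rfl⟩, ?_, ?_, ?_⟩
  · rintro _ ⟨w, _, rfl⟩
    exact w.2.1
  · rintro _ ⟨w, _, rfl⟩
    exact w.2.2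
  by_contra hcon
  have hF : IsClosed {w : (C ∩ {w | t ≤ U w} : Set X) | U w.1 ≤ t} :=
    isClosed_le (hU.comp continuous_subtype_val) continuous_const
  obtain ⟨W, hW, hyW, hWF⟩ := treeA_clopen y hF
    (fun w hw hwF => hcon ⟨w.1, ⟨w, hw, rfl⟩, hwF⟩)
  obtain ⟨O, hO, hOW⟩ := isOpen_induced_iff.mp hW.isOpen
  have hWc : IsClosed (Subtype.val '' W) :=
    (hW.isClosed.isCompact.image continuous_subtype_val).isClosed
  have hO' : IsOpen (O ∩ {w | t < U w}) := hO.inter (isOpen_lt continuous_const hU)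
  have key := h2 (O ∩ {w | t < U w}) (Subtype.val '' W)ᶜ hO' hWc.isOpen_compl ?_ ?_ ?_
  · obtain ⟨w, hwC, ⟨hwO, hwt⟩, hwW⟩ := key
    apply hwW
    refine ⟨⟨w, hwC, show t ≤ U w from le_of_lt hwt⟩, ?_, rfl⟩
    rw [← hOW]
    exact hwO
  · intro w hw
    by_cases hwW : w ∈ Subtype.val '' W
    · left
      obtain ⟨w', hw', rfl⟩ := hwW
      refine ⟨?_, show t < U w'.1 from not_le.mp (hWF w' hw')⟩
      rw [← hOW] at hw'
      exact hw'
    · right
      exact hwW
  · refine ⟨v, hv, ?_, show t < U y.1 from not_le.mp (hWF y hyW)⟩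
    rw [← hOW] at hyW
    exact hyW
  · refine ⟨m, hm, ?_⟩
    rintro ⟨w, _, rfl⟩
    exact absurd w.2.2 (not_le.mpr hmt)

/-- Boundary bumping: if `z ∉ C`, let `v` be the lowest point of `C` on the interval above
`z`; for `U z < t < U v` the component of `v` in `C ∩ {t ≤ U}` meets `{U = t}`, its
least element lies below `v` at height `t`, contradiction. -/
theorem TreeData.convex (h : TreeData X le p U) {C : Set X} (h1 : IsClosed C) (h2 : IsConnected C)
    {m a z : X} (hm : m ∈ C) (ha : a ∈ C) (hmz : le m z) (hza : le z a) : z ∈ C := by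
  by_contra hz
  have hS : IsClosed (C ∩ {w | le z w ∧ le w a}) := h1.inter (h.interval_connected hza).1
  obtain ⟨v, ⟨hvC, hzv, hva⟩, hvmin⟩ := hS.isCompact.exists_isMinOn ⟨a, ha, hza, h.refl a⟩
    h.U_cont.continuousOn
  have hlt : U z < U v := h.U_mono z v hzv (fun hE => hz (hE ▸ hvC))
  obtain ⟨t, ht1, ht2⟩ := exists_between hlt
  obtain ⟨K, hK1, hK2, hvK, hKC, hKt, w, hwK, hwt⟩ := treeA_bump h.U_cont h1 h2.isPreconnected
    hm hvC (lt_of_le_of_lt (h.treeA_U_le hmz) ht1) ht2.le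
  obtain ⟨k, hkK, hk⟩ := h.least K hK1 hK2
  have hka : le k a := h.trans k v a (hk v hvK) hva
  have hzk : le z k := h.le_of_U hza hka (ht1.le.trans (hKt k hkK))
  have h3 : U v ≤ U k := hvmin (show k ∈ C ∩ {w | le z w ∧ le w a} from ⟨hKC hkK, hzk, hka⟩)
  have h4 : U k ≤ U w := h.treeA_U_le (hk w hwK)
  linarith

theorem TreeData.exists_meet (h : TreeData X le p U) (a b : X) :
    ∃ c, le c a ∧ le c b ∧ ∀ d, le d a → le d b → le d c := by
  have hS : IsClosed ({w | le w a} ∩ {w | le w b}) := (h.lower_closed a).inter (h.lower_closed b)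
  obtain ⟨c, ⟨hca, hcb⟩, hc⟩ := hS.isCompact.exists_isMaxOn ⟨p, h.root a, h.root b⟩
    h.U_cont.continuousOn
  exact ⟨c, hca, hcb, fun d hda hdb =>
    h.le_of_U hda hca (hc (show d ∈ {w | le w a} ∩ {w | le w b} from ⟨hda, hdb⟩))⟩

theorem TreeData.treeA_union (h : TreeData X le p U) {a b c : X} (ha : le c a) (hb : le c b) :
    IsClosed ({z | le c z ∧ le z a} ∪ {z | le c z ∧ le z b}) ∧
      IsConnected ({z | le c z ∧ le z a} ∪ {z | le c z ∧ le z b}) :=
  ⟨(h.interval_connected ha).1.union (h.interval_connected hb).1,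
    IsConnected.union ⟨c, ⟨h.refl c, ha⟩, ⟨h.refl c, hb⟩⟩ (h.interval_connected ha).2
      (h.interval_connected hb).2⟩

theorem TreeData.arcSet_eq (h : TreeData X le p U) {a b c : X} (ha : le c a) (hb : le c b)
    (hc : ∀ d, le d a → le d b → le d c) :
    arcSet a b = {z | le c z ∧ le z a} ∪ {z | le c z ∧ le z b} := by
  apply Subset.antisymm
  · intro z hz
    exact hz _ (h.treeA_union ha hb).1 (h.treeA_union ha hb).2 (Or.inl ⟨ha, h.refl a⟩)
      (Or.inr ⟨hb, h.refl b⟩)
  · intro z hz C h1 h2 haC hbC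
    obtain ⟨m, hmC, hm⟩ := h.least C h1 h2
    have hmc : le m c := hc m (hm a haC) (hm b hbC)
    rcases hz with hz | hz
    · exact h.convex h1 h2 hmC haC (h.trans m c z hmc hz.1) hz.2
    · exact h.convex h1 h2 hmC hbC (h.trans m c z hmc hz.1) hz.2

theorem TreeData.connectedSpace (h : TreeData X le p U) : ConnectedSpace X := by
  rw [connectedSpace_iff_univ]
  exact ⟨⟨p, mem_univ p⟩, isPreconnected_of_forall p fun y _ =>
    ⟨{z | le z y}, subset_univ _, h.root y, h.refl y, h.conn y⟩⟩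

/-- a parametrisation that is continuous on the whole line -/
theorem TreeData.treeA_param (h : TreeData X le p U) (x : X) : ∃ γ : ℝ → X,
    Continuous γ ∧ (∀ t ∈ Icc (U p) (U x), le (γ t) x ∧ U (γ t) = t) ∧
      ∀ y, le y x → γ (U y) = y := by
  obtain ⟨γ, h1, h2, h3⟩ := h.exists_param x
  have hpx : U p ≤ U x := h.treeA_U_le (h.root x)
  have hE : ∀ t ∈ Icc (U p) (U x), max (U p) (min (U x) t) = t := by
    intro t ht
    rw [min_eq_right ht.2, max_eq_right ht.1]
  refine ⟨fun t => γ (max (U p) (min (U x) t)), ?_, ?_, ?_⟩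
  · refine h1.comp_continuous (by fun_prop) fun t => ⟨le_max_left _ _, ?_⟩
    exact max_le hpx (min_le_left _ _)
  · intro t ht
    simp only [hE t ht]
    exact h2 t ht
  · intro y hy
    simp only [hE _ (h3 y hy).1]
    exact (h3 y hy).2

theorem TreeData.arc (h : TreeData X le p U) (a b : X) (hab : a ≠ b) :
    ∃ γ : unitInterval → X, Continuous γ ∧ Function.Injective γ ∧ γ 0 = a ∧ γ 1 = b := by
  classical
  obtain ⟨c, hca, hcb, hc⟩ := h.exists_meet a b
  obtain ⟨α, hα1, hα2, hα3⟩ := h.treeA_param a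
  obtain ⟨β, hβ1, hβ2, hβ3⟩ := h.treeA_param b
  have h1 : U c ≤ U a := h.treeA_U_le hca
  have h2 : U c ≤ U b := h.treeA_U_le hcb
  have h0 : U p ≤ U c := h.treeA_U_le (h.root c)
  have hL : 0 < (U a - U c) + (U b - U c) := by
    by_contra hcon
    have e1 : c = a := h.treeA_inj hca (h.refl a) (by linarith)
    have e2 : c = b := h.treeA_inj hcb (h.refl b) (by linarith)
    exact hab (e1.symm.trans e2)
  let g : ℝ → X := fun s => if s ≤ 0 then α (U c - s) else β (U c + s)
  have hg : Continuous g := by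
    refine Continuous.if_le (by fun_prop) (by fun_prop) continuous_id continuous_const ?_
    intro s hs
    have hs' : s = 0 := hs
    rw [hs', sub_zero, add_zero, hα3 c hca, hβ3 c hcb]
  have hneg : ∀ s, U c - U a ≤ s → s ≤ 0 → le (g s) a ∧ U (g s) = U c - s := by
    intro s hs1 hs2
    simp only [g, if_pos hs2]
    exact hα2 _ ⟨by linarith, by linarith⟩
  have hpos : ∀ s, 0 < s → s ≤ U b - U c → le (g s) b ∧ U (g s) = U c + s := by
    intro s hs1 hs2
    simp only [g, if_neg (not_le.mpr hs1)]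
    exact hβ2 _ ⟨by linarith, by linarith⟩
  have hmix : ∀ s s', U c - U a ≤ s → s ≤ 0 → 0 < s' → s' ≤ U b - U c → g s ≠ g s' := by
    intro s s' hs1 hs2 hs3 hs4 hE
    have e1 := hneg s hs1 hs2
    have e2 := hpos s' hs3 hs4
    have e3 : U (g s') ≤ U c := h.treeA_U_le (hc _ (hE ▸ e1.1) e2.1)
    linarith [e2.2]
  have hinj : ∀ s s', U c - U a ≤ s → s ≤ U b - U c → U c - U a ≤ s' → s' ≤ U b - U c →
      g s = g s' → s = s' := by
    intro s s' hs1 hs2 hs3 hs4 hE
    rcases le_or_gt s 0 with e | e <;> rcases le_or_gt s' 0 with e' | e'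
    · have e1 := (hneg s hs1 e).2
      have e2 := (hneg s' hs3 e').2
      rw [hE] at e1
      linarith
    · exact absurd hE (hmix s s' hs1 e e' hs4)
    · exact absurd hE.symm (hmix s' s hs3 e' e hs2)
    · have e1 := (hpos s e hs2).2
      have e2 := (hpos s' e' hs4).2
      rw [hE] at e1
      linarith
  have hr : ∀ τ : unitInterval, U c - U a ≤ U c - U a + τ.1 * ((U a - U c) + (U b - U c)) ∧
      U c - U a + τ.1 * ((U a - U c) + (U b - U c)) ≤ U b - U c := by
    intro τ
    have e1 : 0 ≤ τ.1 * ((U a - U c) + (U b - U c)) := mul_nonneg τ.2.1 hL.le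
    have e2 : τ.1 * ((U a - U c) + (U b - U c)) ≤ 1 * ((U a - U c) + (U b - U c)) :=
      mul_le_mul_of_nonneg_right τ.2.2 hL.le
    constructor <;> linarith
  refine ⟨fun τ => g (U c - U a + τ.1 * ((U a - U c) + (U b - U c))), hg.comp (by fun_prop),
    ?_, ?_, ?_⟩
  · intro τ τ' hE
    have e := hinj _ _ (hr τ).1 (hr τ).2 (hr τ').1 (hr τ').2 hE
    exact Subtype.ext (mul_right_cancel₀ hL.ne' (add_left_cancel e))
  · show g (U c - U a + 0 * ((U a - U c) + (U b - U c))) = a
    have e := hneg (U c - U a + 0 * ((U a - U c) + (U b - U c))) (by linarith) (by linarith)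
    exact h.treeA_inj e.1 (h.refl a) (by rw [e.2]; ring)
  · show g (U c - U a + 1 * ((U a - U c) + (U b - U c))) = b
    rcases eq_or_lt_of_le h2 with e0 | e0
    · have e := hneg (U c - U a + 1 * ((U a - U c) + (U b - U c))) (by linarith) (by linarith)
      have e2 : c = b := h.treeA_inj hcb (h.refl b) e0
      exact (h.treeA_inj e.1 hca (by rw [e.2, ← e0]; ring)).trans e2
    · have e := hpos (U c - U a + 1 * ((U a - U c) + (U b - U c))) (by linarith) (by linarith)
      exact h.treeA_inj e.1 (h.refl b) (by rw [e.2]; ring)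

theorem TreeData.hu (h : TreeData X le p U) (A B : Set X) (h1 : IsClosed A) (h2 : IsConnected A)
    (h3 : IsClosed B) (h4 : IsConnected B) : IsPreconnected (A ∩ B) := by
  refine isPreconnected_of_forall_pair fun x hx y hy => ?_
  obtain ⟨c, hcx, hcy, hc⟩ := h.exists_meet x y
  refine ⟨arcSet x y, fun z hz => ⟨hz A h1 h2 hx.1 hy.1, hz B h3 h4 hx.2 hy.2⟩,
    fun _ _ _ hx' _ => hx', fun _ _ _ _ hy' => hy', ?_⟩
  rw [h.arcSet_eq hcx hcy hc]
  exact (h.treeA_union hcx hcy).2.isPreconnected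

end Pool.Agent.MP703675
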