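import Pool.Agent.Lib.MP_703675_gt.TreeA

set_option autoImplicit false

open Set Metric Filter Topology TopologicalSpace

noncomputable section

namespace Pool.Agent.MP703675

variable {X : Type} [MetricSpace X] [CompactSpace X] {le : X → X → Prop} {p : X} {U : X → ℝ}

omit [CompactSpace X] in
theorem TreeData.treeB_U (h : TreeData X le p U) {x y : X} (hxy : le x y) : U x ≤ U y := by
  by_cases e : x = y
  · rw [e]
  · exact (h.U_mono x y hxy e).le

theorem TreeData.treeB_down (h : TreeData X le p U) {t a : X} (ha : le a t) :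
    arcSet t a = {w | le a w ∧ le w t} := by
  rw [h.arcSet_eq ha (h.refl a) fun _ _ h2 => h2]
  exact union_eq_left.2 fun z hz => ⟨hz.1, h.trans _ _ _ hz.2 ha⟩

theorem TreeData.treeB_up (h : TreeData X le p U) {t a : X} (ha : le t a) :
    arcSet t a = {w | le t w ∧ le w a} := by
  rw [h.arcSet_eq (h.refl t) ha fun _ h1 _ => h1]
  exact union_eq_right.2 fun z hz => ⟨hz.1, h.trans _ _ _ hz.2 ha⟩

theorem TreeData.treeB_level (h : TreeData X le p U) (x : X) {t : ℝ} (h1 : U p ≤ t)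
    (h2 : t ≤ U x) : ∃ z, le z x ∧ U z = t := by
  obtain ⟨γ, -, g, -⟩ := h.exists_param x
  exact ⟨γ t, g t ⟨h1, h2⟩⟩

theorem TreeData.smooth (h : TreeData X le p U) (x : ℕ → X) (y : X)
    (hx : Tendsto x atTop (𝓝 y)) :
    Tendsto (fun n => hausdorffDist (arcSet p (x n)) (arcSet p y)) atTop (𝓝 0) := by
  rw [Metric.tendsto_nhds]
  intro ε hε
  have hU := h.U_cont
  have c1 : IsClosed {q : (X × X) × X | le q.1.1 q.2 ∧ le q.1.2 y ∧
      min (U q.1.1) (U y) = min (U q.1.2) (U q.2) ∧ ε / 2 ≤ dist q.1.1 q.1.2} := by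
    have b1 : IsClosed {q : (X × X) × X | min (U q.1.1) (U y) = min (U q.1.2) (U q.2)} :=
      isClosed_eq (by fun_prop) (by fun_prop)
    have b2 : IsClosed {q : (X × X) × X | ε / 2 ≤ dist q.1.1 q.1.2} :=
      isClosed_le (by fun_prop) (by fun_prop)
    exact IsClosed.inter (h.closed.preimage (f := fun q : (X × X) × X => (q.1.1, q.2))
      (by fun_prop)) (IsClosed.inter (h.closed.preimage
        (f := fun q : (X × X) × X => (q.1.2, y)) (by fun_prop)) (b1.inter b2))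
  have c2 := (c1.isCompact.image continuous_snd).isClosed
  have c3 : y ∈ (Prod.snd '' {q : (X × X) × X | le q.1.1 q.2 ∧ le q.1.2 y ∧
      min (U q.1.1) (U y) = min (U q.1.2) (U q.2) ∧ ε / 2 ≤ dist q.1.1 q.1.2})ᶜ := by
    rintro ⟨⟨⟨z, w⟩, v⟩, ⟨a1, a2, a3, a4⟩, rfl⟩
    simp only at a1 a2 a3 a4
    rw [min_eq_left (h.treeB_U a1), min_eq_left (h.treeB_U a2)] at a3
    rw [h.antisymm _ _ (h.le_of_U a1 a2 a3.le) (h.le_of_U a2 a1 a3.ge), dist_self] at a4
    linarith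
  filter_upwards [hx (c2.isOpen_compl.mem_nhds c3)] with n hn
  have key : ∀ z w, le z (x n) → le w y → min (U z) (U y) = min (U w) (U (x n)) →
      dist z w ≤ ε / 2 := fun z w a1 a2 a3 =>
    (not_le.1 fun a4 => hn ⟨((z, w), x n), ⟨a1, a2, a3, a4⟩, rfl⟩).le
  have hp : ∀ z, U p ≤ U z := fun z => h.treeB_U (h.root z)
  rw [Real.dist_eq, sub_zero, abs_of_nonneg hausdorffDist_nonneg, h.treeB_up (h.root _),
    h.treeB_up (h.root _)]
  refine lt_of_le_of_lt (hausdorffDist_le_of_mem_dist (r := ε / 2) (by linarith)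
    (fun z hz => ?_) fun w hw => ?_) (by linarith)
  · obtain ⟨w, w1, w2⟩ := h.treeB_level y (le_min (hp z) (hp y)) (min_le_right _ _)
    refine ⟨w, ⟨h.root w, w1⟩, key z w hz.2 w1 ?_⟩
    rw [w2]
    exact (min_eq_left ((min_le_left _ _).trans (h.treeB_U hz.2))).symm
  · obtain ⟨z, z1, z2⟩ := h.treeB_level (x n) (le_min (hp w) (hp (x n))) (min_le_right _ _)
    refine ⟨z, ⟨h.root z, z1⟩, dist_comm z w ▸ key z w z1 hw.2 ?_⟩
    rw [z2]
    exact min_eq_left ((min_le_left _ _).trans (h.treeB_U hw.2))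

/-- local connectedness at a point -/
def LcAt (x : X) : Prop := ∀ N ∈ 𝓝 x, ∃ M ∈ 𝓝 x, M ⊆ N ∧ IsPreconnected M

theorem LcAt.map {x : X} (hx : LcAt x) (f : X ≃ₜ X) : LcAt (f x) := fun N hN => by
  obtain ⟨M, h1, h2, h3⟩ := hx (f ⁻¹' N) (f.continuous.continuousAt hN)
  exact ⟨f '' M, f.isOpenMap.image_mem_nhds h1, image_subset_iff.2 h2,
    h3.image _ f.continuous.continuousOn⟩

theorem TreeData.lc_root (h : TreeData X le p U) : LcAt p := fun N hN => by
  obtain ⟨O, h1, h2, h3⟩ := _root_.mem_nhds_iff.1 hN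
  obtain ⟨t, t1, t2⟩ := h2.isClosed_compl.isCompact.exists_forall_le' h.U_cont.continuousOn
    (a := U p) fun b hb => h.U_mono p b (h.root b) fun e => hb (e ▸ h3)
  refine ⟨{x | U x < t}, (isOpen_lt h.U_cont continuous_const).mem_nhds t1,
    fun x hx => h1 (not_not.1 fun e => (t2 x e).not_gt hx), isPreconnected_of_forall p
      fun y hy => ⟨{z | le z y}, fun z hz => (h.treeB_U hz).trans_lt hy, h.root y, h.refl y,
        h.conn y⟩⟩

/-- Plan: from `branch`; the closure of a small connected neighbourhood has a least element below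
`u'`, but lies in `{U u' < U}`. -/
theorem TreeData.not_lc (h : TreeData X le p U) {x : X} (hx : x ≠ p) : ¬ LcAt x := fun hl => by
  obtain ⟨u, u', -, -, h3, h4, h5⟩ := h.branch x hx
  obtain ⟨t, t1, t2⟩ := exists_between (h.U_mono u' x h3 h4)
  obtain ⟨M, m1, m2, m3⟩ := hl {z | t < U z} ((isOpen_lt continuous_const h.U_cont).mem_nhds t2)
  obtain ⟨z, z1, -, z3⟩ := h5 M m1
  obtain ⟨m, a1, a2⟩ := h.least (closure M) isClosed_closure
    ⟨⟨z, subset_closure z1⟩, m3.closure⟩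
  have a3 : t ≤ U m := closure_minimal (t := {z | t ≤ U z})
    (fun z hz => show t ≤ U z from le_of_lt (m2 hz))
    (isClosed_le continuous_const h.U_cont) a1
  have a4 := h.treeB_U (z3 m (a2 z (subset_closure z1))
    (a2 x (subset_closure (mem_of_mem_nhds m1))))
  linarith

/-- two arcs leave the point -/
def TwoArcs (t : X) : Prop := ∃ a b : X, a ≠ t ∧ b ≠ t ∧ arcSet t a ∩ arcSet t b = {t}

/-- ramification point -/
def Ram (t : X) : Prop := ∃ a b c : X, a ≠ t ∧ b ≠ t ∧ c ≠ t ∧ arcSet t a ∩ arcSet t b = {t} ∧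
  arcSet t a ∩ arcSet t c = {t} ∧ arcSet t b ∩ arcSet t c = {t}

omit [CompactSpace X] in
theorem treeB_arc_mem (f : X ≃ₜ X) {a b w : X} (hw : w ∈ arcSet a b) :
    f w ∈ arcSet (f a) (f b) := fun C h1 h2 h3 h4 =>
  hw (f ⁻¹' C) (h1.preimage f.continuous) (f.isConnected_preimage.2 h2) h3 h4

theorem arcSet_map (f : X ≃ₜ X) (a b : X) : arcSet (f a) (f b) = f '' arcSet a b := by
  ext z
  refine ⟨fun hz => ⟨f.symm z, ?_, f.apply_symm_apply z⟩, ?_⟩
  · have := treeB_arc_mem f.symm hz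
    rwa [f.symm_apply_apply, f.symm_apply_apply] at this
  · rintro ⟨w, hw, rfl⟩
    exact treeB_arc_mem f hw

theorem treeB_inter (f : X ≃ₜ X) {t a b : X} (h : arcSet t a ∩ arcSet t b = {t}) :
    arcSet (f t) (f a) ∩ arcSet (f t) (f b) = {f t} := by
  rw [arcSet_map, arcSet_map, ← image_inter f.injective, h, image_singleton]

theorem TwoArcs.map {t : X} (ht : TwoArcs t) (f : X ≃ₜ X) : TwoArcs (f t) := by
  obtain ⟨a, b, h1, h2, h3⟩ := ht
  exact ⟨f a, f b, f.injective.ne h1, f.injective.ne h2, treeB_inter f h3⟩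

theorem Ram.map {t : X} (ht : Ram t) (f : X ≃ₜ X) : Ram (f t) := by
  obtain ⟨a, b, c, h1, h2, h3, h4, h5, h6⟩ := ht
  exact ⟨f a, f b, f c, f.injective.ne h1, f.injective.ne h2, f.injective.ne h3,
    treeB_inter f h4, treeB_inter f h5, treeB_inter f h6⟩

theorem TreeData.not_twoArcs (h : TreeData X le p U) {e : X} (he : e ≠ p)
    (hm : ∀ z, le e z → z = e) : ¬ TwoArcs e := by
  have _ := he
  rintro ⟨a, b, h1, h2, h3⟩
  obtain ⟨c, c1, c2, c3⟩ := h.exists_meet e a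
  obtain ⟨d, d1, d2, d3⟩ := h.exists_meet e b
  rw [h.arcSet_eq c1 c2 c3, h.arcSet_eq d1 d2 d3] at h3
  have k : ∀ z, le c z → le d z → le z e → z = e := fun z a1 a2 a3 => by
    have : z ∈ ({e} : Set X) := h3 ▸ ⟨Or.inl ⟨a1, a3⟩, Or.inl ⟨a2, a3⟩⟩
    exact this
  rcases h.chain e c d c1 d1 with h4 | h4
  · exact h2 (hm b (k d h4 (h.refl d) d1 ▸ d2))
  · exact h1 (hm a (k c (h.refl c) h4 c1 ▸ c2))

theorem TreeData.treeB_opp (h : TreeData X le p U) {x z : X} (hz : le x z) :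
    arcSet x p ∩ arcSet x z = {x} := by
  rw [h.treeB_down (h.root x), h.treeB_up hz]
  exact eq_singleton_iff_unique_mem.2 ⟨⟨⟨h.root x, h.refl x⟩, h.refl x, hz⟩,
    fun w hw => h.antisymm _ _ hw.1.2 hw.2.1⟩

theorem TreeData.twoArcs (h : TreeData X le p U) {x : X} (hx : x ≠ p) (hm : ∃ z, le x z ∧ z ≠ x) :
    TwoArcs x := by
  obtain ⟨z, h1, h2⟩ := hm
  exact ⟨p, z, hx.symm, h2, h.treeB_opp h1⟩

/-- the meet of `x` and a nearby branching point -/
theorem TreeData.exists_ram (h : TreeData X le p U) :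
    ∃ c, c ≠ p ∧ (∃ z, le c z ∧ z ≠ c) ∧ Ram c := by
  obtain ⟨x, hx⟩ := h.nontriv
  obtain ⟨u, u', h1, h2, h3, h4, h5⟩ := h.branch x hx
  have t1 := h.U_mono u' x h3 h4
  obtain ⟨z, z1, z2, z3⟩ := h5 {z | U u' < U z}
    ((isOpen_lt continuous_const h.U_cont).mem_nhds t1)
  obtain ⟨c, c1, c2, c3⟩ := h.exists_meet z x
  have a1 := h.treeB_U (z3 c c1 c2)
  have a2 : c ≠ p := fun e =>
    h1 (h.antisymm _ _ (e ▸ c3 u z2 (h.trans _ _ _ h2 h3)) (h.root u))
  have a3 : x ≠ c := fun e => by rw [e] at t1; linarith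
  have a4 : z ≠ c := fun e => by
    have z4 : U u' < U z := z1
    rw [e] at z4; linarith
  refine ⟨c, a2, ⟨x, c2, a3⟩, p, x, z, a2.symm, a3, a4, h.treeB_opp c2, h.treeB_opp c1, ?_⟩
  rw [h.treeB_up c2, h.treeB_up c1]
  exact eq_singleton_iff_unique_mem.2 ⟨⟨⟨h.refl c, c2⟩, h.refl c, c1⟩,
    fun w hw => h.antisymm _ _ (c3 w hw.2.2 hw.1.2) hw.1.1⟩

theorem TreeData.main (h : TreeData X le p U) : ConnectedSpace X ∧
    (∀ a b : X, a ≠ b → ∃ γ : unitInterval → X,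
        Continuous γ ∧ Function.Injective γ ∧ γ 0 = a ∧ γ 1 = b) ∧
    (∀ A B : Set X, IsClosed A → IsConnected A → IsClosed B → IsConnected B →
        IsPreconnected (A ∩ B)) ∧
    (∃ p : X, ∀ (x : ℕ → X) (y : X), Tendsto x atTop (𝓝 y) →
        Tendsto (fun n => hausdorffDist (arcSet p (x n)) (arcSet p y)) atTop (𝓝 0)) ∧
    ¬ LocallyConnectedSpace X ∧ ¬ (∃! t : X, Ram t) ∧
    (∃ a b c : X,
        (¬ ∃ h : X ≃ₜ X, h a = b) ∧ (¬ ∃ h : X ≃ₜ X, h a = c) ∧ (¬ ∃ h : X ≃ₜ X, h b = c) ∧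
        ∀ w : X, (∃ h : X ≃ₜ X, h a = w) ∨ (∃ h : X ≃ₜ X, h b = w) ∨
          (∃ h : X ≃ₜ X, h c = w)) := by
  obtain ⟨c, c1, c2, c3⟩ := h.exists_ram
  have hc := h.U_mono p c (h.root c) c1.symm
  obtain ⟨e, -, he⟩ := isCompact_univ.exists_isMaxOn ⟨p, mem_univ p⟩ h.U_cont.continuousOn
  have e1 : ∀ z, le e z → z = e := fun z hz => by
    by_contra hne
    exact (h.U_mono e z hz (Ne.symm hne)).not_ge (he (mem_univ z))
  have e2 : e ≠ p := fun e3 => hc.not_ge (e3 ▸ he (mem_univ c))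
  refine ⟨h.connectedSpace, h.arc, h.hu, ⟨p, h.smooth⟩, fun hl => h.not_lc c1 fun N hN => ?_, ?_,
    p, e, c, ?_, ?_, ?_, fun w => ?_⟩
  · obtain ⟨V, v1, v2, v3⟩ := locallyConnectedSpace_iff_connected_subsets.1 hl c N hN
    exact ⟨V, v1, v3, v2⟩
  · intro hu
    obtain ⟨t, t1, t2⟩ := exists_between hc
    obtain ⟨z, z1, z2⟩ := h.treeB_level c t1.le t2.le
    have z3 : c ≠ z := fun e3 => by rw [← e3] at z2; linarith
    obtain ⟨f, hf⟩ := h.transR c z c1 (fun e3 => by rw [e3] at z2; linarith) c2 ⟨c, z1, z3⟩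
    exact z3 (hu.unique c3 (hf ▸ c3.map f))
  · rintro ⟨f, hf⟩
    exact h.not_lc e2 (hf ▸ h.lc_root.map f)
  · rintro ⟨f, hf⟩
    exact h.not_lc c1 (hf ▸ h.lc_root.map f)
  · rintro ⟨f, hf⟩
    have := (h.twoArcs c1 c2).map f.symm
    rw [← hf, f.symm_apply_apply] at this
    exact h.not_twoArcs e2 e1 this
  · by_cases w1 : w = p
    · exact Or.inl ⟨Homeomorph.refl X, w1.symm⟩
    · by_cases w2 : ∀ z, le w z → z = w
      · exact Or.inr (Or.inl (h.transE e w e1 w2))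
      · push Not at w2
        exact Or.inr (Or.inr (h.transR c w c1 w1 c2 w2))

end Pool.Agent.MP703675
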